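import Pool.Agent.ARC.BDUAL

/-! # ARC, part B: the Heilbronn character and the domination criterion -/

set_option autoImplicit false

noncomputable section

namespace Pool.Agent.ARC

open Finset

variable {G : Type} [Group G] [Finite G]

/-- The value of `N` at an induced character. -/
def nn (N : MG G →+ ℤ) (C : Subgroup G) (psi : C →* ℂˣ) : ℤ := N ⟨mono C psi, mono_mem_MG C psi⟩

theorem finite_dual (C : Subgroup G) (hC : IsCyclic C) : Finite (C →* ℂˣ) := by
  let _ : CommGroup C := IsCyclic.commGroup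
  have h1 : Finite (C →* ℂˣ) := inferInstance
  exact h1

/-- The Heilbronn character, computed from a subgroup which contains `y`. -/
def thC (N : MG G →+ ℤ) (C : Subgroup G) (y : G) : ℂ :=
  ∑ᶠ psi : C →* ℂˣ, (nn N C psi : ℂ) * ext C psi y⁻¹

/-- The Heilbronn character. -/
def th (N : MG G →+ ℤ) (y : G) : ℂ := thC N (Subgroup.zpowers y) y

theorem nn_stages (N : MG G →+ ℤ) (C C' : Subgroup G) (hC : IsCyclic C) [Fintype (C →* ℂˣ)]
    (hle : C' ≤ C) (psi' : C' →* ℂˣ) :
    nn N C' psi' = ∑ psi : C →* ℂˣ, open Classical in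
      if psi.comp (Subgroup.inclusion hle) = psi' then nn N C psi else 0 := by
  classical
  have h1 : (⟨mono C' psi', mono_mem_MG C' psi'⟩ : MG G) = ∑ psi : C →* ℂˣ,
      if psi.comp (Subgroup.inclusion hle) = psi' then
        (⟨mono C psi, mono_mem_MG C psi⟩ : MG G) else 0 := by
    apply Subtype.ext
    rw [AddSubgroup.val_finsetSum]
    change mono C' psi' = _
    rw [stages C C' hC hle psi']
    refine sum_congr rfl fun psi _ => ?_
    split_ifs <;> rfl
  rw [nn, h1, map_sum]
  refine sum_congr rfl fun psi _ => ?_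
  split_ifs
  · rfl
  · exact map_zero N

theorem thC_eq (N : MG G →+ ℤ) (C : Subgroup G) (hC : IsCyclic C) (y : G) (hy : y ∈ C) :
    thC N C y = th N y := by
  classical
  have hle : Subgroup.zpowers y ≤ C := (Subgroup.zpowers_le).2 hy
  have hC' : IsCyclic (Subgroup.zpowers y) := isCyclic_zpowers' y
  have f1 := finite_dual C hC
  have f2 := finite_dual _ hC'
  have : Fintype (C →* ℂˣ) := Fintype.ofFinite _
  have : Fintype (Subgroup.zpowers y →* ℂˣ) := Fintype.ofFinite _
  rw [th, thC, thC, finsum_eq_sum_of_fintype, finsum_eq_sum_of_fintype]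
  simp only [nn_stages N C (Subgroup.zpowers y) hC hle, Int.cast_sum, sum_mul]
  rw [sum_comm]
  refine sum_congr rfl fun psi _ => ?_
  rw [Finset.sum_eq_single (psi.comp (Subgroup.inclusion hle))]
  · rw [if_pos rfl, ext_restrict hle psi (Subgroup.inv_mem _ (Subgroup.mem_zpowers y))]
  · intro b _ hb
    rw [if_neg (Ne.symm hb), Int.cast_zero, zero_mul]
  · intro h
    exact absurd (mem_univ _) h

theorem th_conj (N : MG G →+ ℤ) (x y : G) : th N (x⁻¹ * y * x) = th N y := by
  classical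
  let C := Subgroup.zpowers y
  let C' := Subgroup.zpowers (x⁻¹ * y * x)
  have hC : IsCyclic C := isCyclic_zpowers' y
  have hC' : IsCyclic C' := isCyclic_zpowers' _
  have f1 := finite_dual C hC
  have f2 := finite_dual _ hC'
  have : Fintype (C →* ℂˣ) := Fintype.ofFinite _
  have : Fintype (C' →* ℂˣ) := Fintype.ofFinite _
  have hmem : ∀ z : G, z ∈ C ↔ x⁻¹ * z * x ∈ C' := by
    intro z
    have hz : ∀ k : ℤ, (x⁻¹ * y * x) ^ k = x⁻¹ * y ^ k * x := by
      intro k
      have := conj_zpow (a := x⁻¹) (b := y) (i := k)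
      rw [inv_inv] at this
      exact this
    constructor
    · intro h
      obtain ⟨k, rfl⟩ := Subgroup.mem_zpowers_iff.1 h
      exact Subgroup.mem_zpowers_iff.2 ⟨k, hz k⟩
    · intro h
      obtain ⟨k, hk⟩ := Subgroup.mem_zpowers_iff.1 h
      rw [hz] at hk
      refine Subgroup.mem_zpowers_iff.2 ⟨k, ?_⟩
      exact mul_left_cancel (mul_right_cancel hk)
  let e : C' ≃* C :=
    { toFun := fun z => ⟨x * z * x⁻¹, (hmem _).2 (by
        have h1 : x⁻¹ * (x * (z : G) * x⁻¹) * x = z := by group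
        rw [h1]
        exact z.2)⟩
      invFun := fun z => ⟨x⁻¹ * z * x, (hmem z).1 z.2⟩
      left_inv := by
        intro z
        apply Subtype.ext
        simp only
        group
      right_inv := by
        intro z
        apply Subtype.ext
        simp only
        group
      map_mul' := by
        intro a b
        apply Subtype.ext
        simp only [Subgroup.coe_mul]
        group }
  have hext : ∀ (psi : C →* ℂˣ) (z : G),
      ext C' (psi.comp e.toMonoidHom) (x⁻¹ * z * x) = ext C psi z := by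
    intro psi z
    by_cases h : z ∈ C
    · rw [ext_of_mem psi h, ext_of_mem _ ((hmem z).1 h)]
      have h1 : e ⟨x⁻¹ * z * x, (hmem z).1 h⟩ = ⟨z, h⟩ := by
        apply Subtype.ext
        change x * (x⁻¹ * z * x) * x⁻¹ = z
        group
      exact congrArg (fun u : C => ((psi u : ℂˣ) : ℂ)) h1
    · rw [ext_of_not_mem psi h, ext_of_not_mem _ (fun h1 => h ((hmem z).2 h1))]
  have hcard : Nat.card C = Nat.card C' := (Nat.card_congr e.toEquiv).symm
  have hnn : ∀ psi : C →* ℂˣ, nn N C' (psi.comp e.toMonoidHom) = nn N C psi := by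
    intro psi
    have h1 := mono_conj C C' psi (psi.comp e.toMonoidHom) x (hext psi) hcard
    unfold nn
    congr 1
    exact Subtype.ext h1
  let E : (C →* ℂˣ) ≃ (C' →* ℂˣ) :=
    { toFun := fun psi => psi.comp e.toMonoidHom
      invFun := fun psi => psi.comp e.symm.toMonoidHom
      left_inv := by
        intro psi
        ext z
        simp
      right_inv := by
        intro psi
        ext z
        simp }
  rw [th, th]
  change thC N C' _ = thC N C y
  rw [thC, thC, finsum_eq_sum_of_fintype, finsum_eq_sum_of_fintype, ← Equiv.sum_comp E]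
  refine sum_congr rfl fun psi _ => ?_
  have h2 : (x⁻¹ * y * x)⁻¹ = x⁻¹ * y⁻¹ * x := by group
  rw [h2]
  change (nn N C' (psi.comp e.toMonoidHom) : ℂ) * ext C' (psi.comp e.toMonoidHom) _ = _
  rw [hnn, hext]

/-- Orthogonality of the characters of a subgroup. -/
theorem orth [Fintype G] (C : Subgroup G) (phi psi : C →* ℂˣ) :
    ∑ z : G, ext C phi z⁻¹ * ext C psi z =
      open Classical in if phi = psi then (Nat.card C : ℂ) else 0 := by
  classical
  by_cases h : phi = psi
  · rw [if_pos h, h]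
    have h1 : ∀ z : G, ext C psi z⁻¹ * ext C psi z = if z ∈ C then 1 else 0 := by
      intro z
      by_cases hz : z ∈ C
      · rw [if_pos hz, ← ext_mul psi (C.inv_mem hz) hz, inv_mul_cancel, ext_one]
      · rw [if_neg hz, ext_of_not_mem psi hz, mul_zero]
    simp only [h1]
    rw [sum_boole, Nat.card_eq_fintype_card, Fintype.card_subtype]
  · rw [if_neg h]
    have h1 : ∃ z0 : C, phi z0 ≠ psi z0 := by
      by_contra hcon
      push Not at hcon
      exact h (MonoidHom.ext hcon)
    obtain ⟨z0, hz0⟩ := h1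
    have h2 : ext C phi (z0 : G)⁻¹ * ext C psi (z0 : G) * ∑ z : G, ext C phi z⁻¹ * ext C psi z =
        ∑ z : G, ext C phi z⁻¹ * ext C psi z := by
      conv_rhs => rw [← Equiv.sum_comp (Equiv.mulRight (z0 : G))
        (fun z => ext C phi z⁻¹ * ext C psi z)]
      rw [mul_sum]
      refine sum_congr rfl fun z _ => ?_
      simp only [Equiv.coe_mulRight]
      by_cases hz : z ∈ C
      · rw [mul_inv_rev, ext_mul phi (C.inv_mem z0.2) (C.inv_mem hz), ext_mul psi hz z0.2]
        ring
      · rw [ext_of_not_mem psi hz, ext_of_not_mem psi (x := z * z0) (fun h3 => hz (by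
          have h4 := C.mul_mem h3 (C.inv_mem z0.2)
          rwa [mul_assoc, mul_inv_cancel, mul_one] at h4))]
        ring
    have h3 : ext C phi (z0 : G)⁻¹ * ext C psi (z0 : G) ≠ 1 := by
      intro h4
      have h5 : ext C phi (z0 : G)⁻¹ * ext C phi (z0 : G) = 1 := by
        rw [← ext_mul phi (C.inv_mem z0.2) z0.2, inv_mul_cancel, ext_one]
      have h6 : ext C phi (z0 : G)⁻¹ ≠ 0 := left_ne_zero_of_mul (by rw [h5]; exact one_ne_zero)
      have h7 : ext C psi (z0 : G) = ext C phi (z0 : G) :=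
        mul_left_cancel₀ h6 (h4.trans h5.symm)
      rw [ext_of_mem psi z0.2, ext_of_mem phi z0.2] at h7
      exact hz0 (Units.ext h7.symm)
    have h8 : (ext C phi (z0 : G)⁻¹ * ext C psi (z0 : G) - 1) *
        ∑ z : G, ext C phi z⁻¹ * ext C psi z = 0 := by
      rw [sub_mul, h2, one_mul, sub_self]
    rcases mul_eq_zero.1 h8 with h9 | h9
    · exact absurd (sub_eq_zero.1 h9) h3
    · exact h9

/-- The complex linear functional which extends `N`. -/
def LL [Fintype G] (N : MG G →+ ℤ) (f : G → ℂ) : ℂ :=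
  (Nat.card G : ℂ)⁻¹ * ∑ g : G, th N g * f g

theorem LL_mono [Fintype G] (N : MG G →+ ℤ) (C : Subgroup G) (hC : IsCyclic C)
    (psi : C →* ℂˣ) : LL N (mono C psi) = nn N C psi := by
  classical
  have f1 := finite_dual C hC
  have : Fintype (C →* ℂˣ) := Fintype.ofFinite _
  have hC0 : (Nat.card C : ℂ) ≠ 0 := Nat.cast_ne_zero.2 Nat.card_pos.ne'
  have hG0 : (Nat.card G : ℂ) ≠ 0 := Nat.cast_ne_zero.2 Nat.card_pos.ne'
  have h1 : (Nat.card C : ℂ) * ∑ g : G, th N g * mono C psi g =
      (Nat.card G : ℂ) * ∑ z : G, th N z * ext C psi z := by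
    rw [mul_sum]
    have h2 : ∀ g : G, (Nat.card C : ℂ) * (th N g * mono C psi g) =
        ∑ x : G, th N (x⁻¹ * g * x) * ext C psi (x⁻¹ * g * x) := by
      intro g
      rw [mul_left_comm, ← mono_eq, mul_sum]
      refine sum_congr rfl fun x _ => ?_
      rw [th_conj]
    simp only [h2]
    rw [sum_comm]
    have h3 : ∀ x : G, ∑ g : G, th N (x⁻¹ * g * x) * ext C psi (x⁻¹ * g * x) =
        ∑ z : G, th N z * ext C psi z := by
      intro x
      exact Fintype.sum_bijective (fun g => x⁻¹ * g * x)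
        ((Group.mulRight_bijective x).comp (Group.mulLeft_bijective x⁻¹)) _ _ (fun g => rfl)
    simp only [h3]
    rw [sum_const, card_univ, nsmul_eq_mul, Nat.card_eq_fintype_card]
  have h4 : ∑ z : G, th N z * ext C psi z = (Nat.card C : ℂ) * nn N C psi := by
    have h5 : ∀ z : G, th N z * ext C psi z =
        ∑ phi : C →* ℂˣ, (nn N C phi : ℂ) * (ext C phi z⁻¹ * ext C psi z) := by
      intro z
      by_cases hz : z ∈ C
      · rw [← thC_eq N C hC z hz, thC, finsum_eq_sum_of_fintype, sum_mul]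
        refine sum_congr rfl fun phi _ => ?_
        ring
      · rw [ext_of_not_mem psi hz]
        simp
    simp only [h5]
    rw [sum_comm]
    simp only [← mul_sum, orth]
    rw [Finset.sum_eq_single psi]
    · rw [if_pos rfl, mul_comm]
    · intro b _ hb
      rw [if_neg hb, mul_zero]
    · intro h
      exact absurd (mem_univ _) h
  rw [h4] at h1
  rw [LL]
  apply mul_left_cancel₀ hC0
  rw [mul_left_comm, h1]
  field_simp

theorem LL_eq [Fintype G] (N : MG G →+ ℤ) (f : G → ℂ) (hf : f ∈ MG G) :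
    ((N ⟨f, hf⟩ : ℤ) : ℂ) = LL N f := by
  have hadd : ∀ a b : G → ℂ, LL N (a + b) = LL N a + LL N b := by
    intro a b
    simp only [LL, Pi.add_apply, mul_add, sum_add_distrib]
  have hsmul : ∀ (c : ℤ) (a : G → ℂ), LL N (c • a) = (c : ℂ) * LL N a := by
    intro c a
    simp only [LL, Pi.smul_apply, zsmul_eq_mul]
    rw [mul_left_comm, mul_sum (a := (c : ℂ))]
    congr 1
    refine sum_congr rfl fun g _ => ?_
    ring
  have hneg : ∀ a : G → ℂ, LL N (-a) = -LL N a := by
    intro a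
    simp only [LL, Pi.neg_apply, mul_neg, sum_neg_distrib]
  have hzero : LL N 0 = 0 := by
    simp [LL]
  have hC : ∀ (f : G → ℂ) (hf : f ∈ MC G), ((N ⟨f, MC_le_MG hf⟩ : ℤ) : ℂ) = LL N f := by
    intro f hf
    refine AddSubgroup.closure_induction
      (p := fun f hf => ((N ⟨f, MC_le_MG hf⟩ : ℤ) : ℂ) = LL N f) ?_ ?_ ?_ ?_ hf
    · rintro f ⟨C, psi, hC, rfl⟩
      rw [LL_mono N C hC psi]
      rfl
    · rw [hzero]
      have h1 : (⟨0, MC_le_MG (zero_mem (MC G))⟩ : MG G) = 0 := rfl
      rw [h1, map_zero, Int.cast_zero]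
    · intro a b ha hb h1 h2
      rw [hadd, ← h1, ← h2]
      have h3 : (⟨a + b, MC_le_MG (add_mem ha hb)⟩ : MG G) =
        ⟨a, MC_le_MG ha⟩ + ⟨b, MC_le_MG hb⟩ := rfl
      rw [h3, map_add, Int.cast_add]
    · intro a ha h1
      rw [hneg, ← h1]
      have h3 : (⟨-a, MC_le_MG (neg_mem ha)⟩ : MG G) = -⟨a, MC_le_MG ha⟩ := rfl
      rw [h3, map_neg, Int.cast_neg]
  refine AddSubgroup.closure_induction
    (p := fun f hf => ((N ⟨f, hf⟩ : ℤ) : ℂ) = LL N f) ?_ ?_ ?_ ?_ hf
  · rintro f ⟨H, psi, rfl⟩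
    have h1 := hC _ (artin_mono H psi)
    rw [hsmul] at h1
    have h2 : (⟨(Nat.card H : ℤ) • mono H psi, MC_le_MG (artin_mono H psi)⟩ : MG G) =
        (Nat.card H : ℤ) • (⟨mono H psi, mono_mem_MG H psi⟩ : MG G) := rfl
    rw [h2, map_zsmul, smul_eq_mul, Int.cast_mul] at h1
    have h3 : (((Nat.card H : ℕ) : ℤ) : ℂ) ≠ 0 := by
      rw [Int.cast_natCast]
      exact Nat.cast_ne_zero.2 Nat.card_pos.ne'
    exact mul_left_cancel₀ h3 h1
  · rw [hzero]
    have h1 : (⟨0, zero_mem (MG G)⟩ : MG G) = 0 := rfl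
    rw [h1, map_zero, Int.cast_zero]
  · intro a b ha hb h1 h2
    rw [hadd, ← h1, ← h2]
    have h3 : (⟨a + b, add_mem ha hb⟩ : MG G) = ⟨a, ha⟩ + ⟨b, hb⟩ := rfl
    rw [h3, map_add, Int.cast_add]
  · intro a ha h1
    rw [hneg, ← h1]
    have h3 : (⟨-a, neg_mem ha⟩ : MG G) = -⟨a, ha⟩ := rfl
    rw [h3, map_neg, Int.cast_neg]

theorem norm_ext_le (C : Subgroup G) (psi : C →* ℂˣ) (y : G) : ‖ext C psi y‖ ≤ 1 := by
  by_cases hy : y ∈ C
  · rw [ext_of_mem psi hy]
    have h1 : (psi ⟨y, hy⟩) ^ Nat.card C = 1 := by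
      rw [← map_pow, pow_card_eq_one', map_one]
    have h2 : ‖((psi ⟨y, hy⟩ : ℂˣ) : ℂ)‖ ^ Nat.card C = 1 := by
      rw [← norm_pow, ← Units.val_pow_eq_pow_val, h1, Units.val_one, norm_one]
    exact ((pow_eq_one_iff_of_nonneg (norm_nonneg _) Nat.card_pos.ne').1 h2).le
  · rw [ext_of_not_mem psi hy, norm_zero]
    exact zero_le_one

/-- The domination criterion: an additive function `N` on the monomial virtual characters which is
nonnegative on the characters induced from cyclic subgroups is nonnegative on `f` if the sum of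
`‖f g‖` over all `g ≠ 1` is at most `f 1`. -/
theorem heilbronn (N : MG G →+ ℤ)
    (hN : ∀ (C : Subgroup G) (psi : C →* ℂˣ), IsCyclic C →
      0 ≤ N ⟨mono C psi, mono_mem_MG C psi⟩)
    (f : G → ℂ) (hf : f ∈ MG G) (h : ∑ᶠ g : {g : G // g ≠ 1}, ‖f g.1‖ ≤ (f 1).re) :
    0 ≤ N ⟨f, hf⟩ := by
  classical
  have : Fintype G := Fintype.ofFinite G
  have hG0 : (0 : ℝ) < Nat.card G := Nat.cast_pos.2 Nat.card_pos
  have hb : ∀ y : G, ‖th N y‖ ≤ (th N 1).re ∧ 0 ≤ (th N 1).re ∧ (th N 1).im = 0 := by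
    intro y
    have hC : IsCyclic (Subgroup.zpowers y) := isCyclic_zpowers' y
    have f1 := finite_dual _ hC
    have : Fintype (Subgroup.zpowers y →* ℂˣ) := Fintype.ofFinite _
    have h1 : th N 1 = ((∑ psi : Subgroup.zpowers y →* ℂˣ, nn N _ psi : ℤ) : ℂ) := by
      rw [← thC_eq N (Subgroup.zpowers y) hC 1 (one_mem _), thC, finsum_eq_sum_of_fintype,
        Int.cast_sum]
      refine sum_congr rfl fun psi _ => ?_
      rw [inv_one, ext_one, mul_one]
    have h2 : (th N 1).re = ∑ psi : Subgroup.zpowers y →* ℂˣ, (nn N _ psi : ℝ) := by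
      rw [h1, Complex.intCast_re, Int.cast_sum]
    refine ⟨?_, ?_, ?_⟩
    · rw [h2, th, thC, finsum_eq_sum_of_fintype]
      refine (norm_sum_le _ _).trans (sum_le_sum fun psi _ => ?_)
      rw [norm_mul, Complex.norm_intCast]
      have h3 : (0 : ℝ) ≤ (nn N _ psi : ℝ) := Int.cast_nonneg (hN _ psi hC)
      rw [abs_of_nonneg h3]
      calc (nn N _ psi : ℝ) * ‖ext _ psi y⁻¹‖ ≤ (nn N _ psi : ℝ) * 1 :=
            mul_le_mul_of_nonneg_left (norm_ext_le _ psi _) h3
        _ = _ := mul_one _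
    · rw [h2]
      exact sum_nonneg fun psi _ => Int.cast_nonneg (hN _ psi hC)
    · rw [h1, Complex.intCast_im]
  have h1 := LL_eq N f hf
  have h2 : ((N ⟨f, hf⟩ : ℤ) : ℝ) = (Nat.card G : ℝ)⁻¹ * (∑ g : G, th N g * f g).re := by
    have h3 := congrArg Complex.re h1
    rw [Complex.intCast_re, LL] at h3
    rw [h3]
    have h4 : ((Nat.card G : ℂ)⁻¹) = (((Nat.card G : ℝ)⁻¹ : ℝ) : ℂ) := by
      rw [Complex.ofReal_inv, Complex.ofReal_natCast]
    rw [h4, Complex.re_ofReal_mul]
  have h5 : (∑ g : G, th N g * f g) = th N 1 * f 1 + ∑ g ∈ univ.erase 1, th N g * f g :=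
    (add_sum_erase _ _ (mem_univ 1)).symm
  have h6 : (th N 1 * f 1).re = (th N 1).re * (f 1).re := by
    rw [Complex.mul_re, (hb 1).2.2, zero_mul, sub_zero]
  have h7 : -((th N 1).re * ∑ g ∈ univ.erase 1, ‖f g‖) ≤
      (∑ g ∈ univ.erase 1, th N g * f g).re := by
    have h8 : |(∑ g ∈ univ.erase 1, th N g * f g).re| ≤
        (th N 1).re * ∑ g ∈ univ.erase 1, ‖f g‖ := by
      refine (Complex.abs_re_le_norm _).trans ((norm_sum_le _ _).trans ?_)
      rw [mul_sum]
      refine sum_le_sum fun g _ => ?_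
      rw [norm_mul]
      exact mul_le_mul_of_nonneg_right (hb g).1 (norm_nonneg _)
    exact (abs_le.1 h8).1
  have h9 : ∑ g ∈ univ.erase 1, ‖f g‖ = ∑ᶠ g : {g : G // g ≠ 1}, ‖f g.1‖ := by
    rw [finsum_eq_sum_of_fintype]
    have h10 : (univ.erase (1 : G)) = univ.filter (fun g => g ≠ 1) := by
      ext g
      simp
    rw [h10, ← sum_subtype_eq_sum_filter]
    refine Finset.sum_congr ?_ (fun _ _ => rfl)
    ext g
    simp
  rw [h9] at h7
  have h11 : (0 : ℝ) ≤ ((N ⟨f, hf⟩ : ℤ) : ℝ) := by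
    rw [h2, h5, Complex.add_re, h6]
    refine mul_nonneg (inv_nonneg.2 hG0.le) ?_
    have h12 := mul_le_mul_of_nonneg_left h (hb 1).2.1
    linarith
  exact_mod_cast h11

end Pool.Agent.ARC
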