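import Pool.Agent.ARC.Defs
import Pool.Agent.ARC.BHS

/-! # ARC, part B: the interface theorems -/

set_option autoImplicit false

noncomputable section

namespace Pool.Agent.ARC

theorem mono_eq_indC {G : Type} [Group G] (H : Subgroup G) (psi : H →* ℂˣ) :
    mono H psi = indC H (fun h => (psi h : ℂ)) := rfl

/-- Brauer's theorem -/
theorem brauer (G : Type) [Group G] [Finite G] (W : Type) [AddCommGroup W] [Module.Free ℤ W]
    [Module.Finite ℤ W] [DistribMulAction G W] :
    ∃ (J : Type) (_ : Fintype J) (H : J → Subgroup G) (psi : (j : J) → H j →* ℂˣ) (z : J → ℤ),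
      ∀ g : G, ((LinearMap.trace ℤ W (PGZ.act W g) : ℤ) : ℂ) =
        ∑ j, (z j : ℂ) * indC (H j) (fun h => (psi j h : ℂ)) g := by
  obtain ⟨J, h1, H, psi, z, h⟩ := exists_of_mem_MG _ (trace_mem_MG (G := G) W)
  exact ⟨J, h1, H, psi, z, h⟩

end Pool.Agent.ARC
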