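import Pool.Agent.ARC.BHS

/-! # ARC, part B: explicit forms of Artin's theorem for lattices -/

set_option autoImplicit false

noncomputable section

namespace Pool.Agent.ARC

open Finset

/-- The trace of an automorphism of finite order of a lattice is that of its powers with exponents
prime to the order. -/
theorem trace_pow_coprime (W : Type) [AddCommGroup W] [Module.Free ℤ W] [Module.Finite ℤ W]
    (phi : W →ₗ[ℤ] W) (n : ℕ) (hn : n ≠ 0) (hphi : phi ^ n = 1) (j : ℕ) (hj : j.Coprime n) :
    LinearMap.trace ℤ W (phi ^ j) = LinearMap.trace ℤ W phi := by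
  classical
  have : NeZero n := ⟨hn⟩
  by_contra hne
  let b := Module.Free.chooseBasis ℤ W
  let A := LinearMap.toMatrix b b phi
  obtain ⟨q, hq1, hq, hqj⟩ := Nat.forall_exists_prime_gt_and_eq_mod
    (ZMod.unitOfCoprime j hj).isUnit
    ((LinearMap.trace ℤ W (phi ^ j) - LinearMap.trace ℤ W phi).natAbs)
  rw [ZMod.coe_unitOfCoprime, ZMod.natCast_eq_natCast_iff] at hqj
  have hpow : phi ^ q = phi ^ j := by
    rw [pow_eq_pow_mod q hphi, pow_eq_pow_mod j hphi, hqj]
  have hqf : Fact q.Prime := ⟨hq⟩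
  have h1 : ((LinearMap.trace ℤ W (phi ^ j) : ℤ) : ZMod q) =
      ((LinearMap.trace ℤ W phi : ℤ) : ZMod q) := by
    rw [← hpow, LinearMap.trace_eq_matrix_trace ℤ b, LinearMap.trace_eq_matrix_trace ℤ b phi]
    have h2 : LinearMap.toMatrix b b (phi ^ q) = A ^ q := by
      have := map_pow (LinearMap.toMatrixAlgEquiv b) phi q
      exact this
    rw [h2]
    have h3 : ((Matrix.trace (A ^ q) : ℤ) : ZMod q) =
        Matrix.trace ((A.map (Int.castRingHom (ZMod q))) ^ q) := by
      rw [← Matrix.map_pow]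
      exact (AddMonoidHom.map_trace (Int.castRingHom (ZMod q)).toAddMonoidHom (A ^ q))
    have h4 : ((Matrix.trace A : ℤ) : ZMod q) =
        Matrix.trace (A.map (Int.castRingHom (ZMod q))) :=
      (AddMonoidHom.map_trace (Int.castRingHom (ZMod q)).toAddMonoidHom A)
    rw [h3, ZMod.trace_pow_card, ← h4, ZMod.pow_card]
  have h5 : (q : ℤ) ∣ LinearMap.trace ℤ W (phi ^ j) - LinearMap.trace ℤ W phi := by
    rw [← ZMod.intCast_zmod_eq_zero_iff_dvd, Int.cast_sub, h1, sub_self]
  have h6 := Int.natAbs_dvd_natAbs.2 h5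
  rw [Int.natAbs_natCast] at h6
  have h7 := Nat.le_of_dvd (Int.natAbs_pos.2 (sub_ne_zero.2 hne)) h6
  omega

section G

variable {G : Type} [Group G] [Finite G]

/-- The character of a lattice is constant on the generators of a cyclic group. -/
theorem trace_zpowers (W : Type) [AddCommGroup W] [Module.Free ℤ W] [Module.Finite ℤ W]
    [DistribMulAction G W] (y z : G) (h : Subgroup.zpowers y = Subgroup.zpowers z) :
    LinearMap.trace ℤ W (PGZ.act W y) = LinearMap.trace ℤ W (PGZ.act W z) := by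
  have h1 : z ∈ Subgroup.zpowers y := by
    rw [h]
    exact Subgroup.mem_zpowers z
  obtain ⟨j, hj⟩ := (Submonoid.mem_powers_iff _ _).1 (mem_powers_iff_mem_zpowers.2 h1)
  have ho : orderOf y ≠ 0 := (orderOf_pos y).ne'
  have hc : j.Coprime (orderOf y) := by
    have h2 : orderOf (y ^ j) = orderOf y := by
      rw [hj, ← Nat.card_zpowers, ← Nat.card_zpowers, h]
    rw [orderOf_pow] at h2
    have h3 : (orderOf y).gcd j = 1 := by
      have h4 : 0 < (orderOf y).gcd j := Nat.gcd_pos_of_pos_left _ (orderOf_pos y)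
      by_contra h5
      have h6 : 1 < (orderOf y).gcd j := by omega
      have h7 := Nat.div_lt_self (orderOf_pos y) h6
      omega
    rw [Nat.Coprime, Nat.gcd_comm]
    exact h3
  rw [← hj, act_pow]
  refine (trace_pow_coprime W (PGZ.act W y) (orderOf y) ho ?_ j hc).symm
  rw [← act_pow, pow_orderOf_eq_one]
  ext x
  simp

theorem fH_eq_mono (H : Subgroup G) : PGZ.fH H = mono H (1 : H →* ℂˣ) := by
  classical
  funext g
  have : Fintype (G ⧸ H) := Fintype.ofFinite _
  rw [PGZ.fH, mono, finsum_eq_sum_of_fintype, Nat.card_eq_fintype_card, Fintype.card_subtype]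
  rw [← sum_boole]
  refine sum_congr rfl fun x _ => ?_
  have h1 : g • x = x ↔ x.out⁻¹ * g * x.out ∈ H := by
    have h2 : g • x = ((g * x.out : G) : G ⧸ H) := by
      conv_lhs => rw [← QuotientGroup.out_eq' x]
      rfl
    rw [h2]
    have h3 : ((g * x.out : G) : G ⧸ H) = x ↔ ((x.out : G) : G ⧸ H) = ((g * x.out : G) : G ⧸ H) := by
      rw [QuotientGroup.out_eq' x]
      exact eq_comm
    rw [h3, QuotientGroup.eq, mul_assoc]
  by_cases h : g • x = x
  · rw [if_pos h, ext_of_mem _ (h1.1 h)]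
    rfl
  · rw [if_neg h, ext_of_not_mem _ (fun h2 => h (h1.2 h2))]

/-- The additive group generated by the permutation characters. -/
def PP (G : Type) [Group G] : AddSubgroup (G → ℂ) :=
  AddSubgroup.closure {f | ∃ H : Subgroup G, f = PGZ.fH H}

theorem KK_one_mem : ∀ (n : ℕ) (B : Subgroup G), Nat.card B = n →
    KK B (ext B 1) ∈ PP G := by
  intro n
  induction n using Nat.strong_induction_on with
  | _ n ih =>
    intro B hn
    classical
    have : Fintype G := Fintype.ofFinite G
    have : Fintype (Subgroup G) := Fintype.ofFinite _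
    have h1 : KK B (ext B 1) = (Nat.card B : ℤ) • mono B 1 -
        ∑ C ∈ univ.erase B, KK C (ext B 1) := by
      funext g
      rw [Pi.sub_apply, Pi.smul_apply, Finset.sum_apply, zsmul_eq_mul]
      have h2 := mono_eq B 1 g
      rw [sum_KK, finsum_eq_sum_of_fintype, ← add_sum_erase _ _ (mem_univ B)] at h2
      rw [Int.cast_natCast, ← h2]
      ring
    rw [h1]
    refine sub_mem (zsmul_mem ?_ _) (sum_mem fun C hC => ?_)
    · rw [← fH_eq_mono]
      exact AddSubgroup.subset_closure ⟨B, rfl⟩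
    have hCB : C ≠ B := ne_of_mem_erase hC
    by_cases hle : C ≤ B
    · have h3 : KK C (ext B 1) = KK C (ext C 1) := by
        refine KK_congr fun y hy => ?_
        have h4 : y ∈ C := by
          rw [← hy]
          exact Subgroup.mem_zpowers y
        rw [ext_of_mem _ h4, ext_of_mem _ (hle h4)]
        rfl
      rw [h3]
      refine ih (Nat.card C) ?_ C rfl
      rw [← hn]
      refine lt_of_le_of_ne (Subgroup.card_le_of_le hle) fun h4 => hCB ?_
      exact Subgroup.eq_of_le_of_card_ge hle h4.ge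
    · have h3 : KK C (ext B 1) = 0 := by
        refine KK_zero fun y hy => ext_of_not_mem _ fun hyB => hle ?_
        rw [← hy]
        exact (Subgroup.zpowers_le).2 hyB
      rw [h3]
      exact zero_mem _

/-- The character of a lattice on the generators of `B`. -/
theorem KK_trace (W : Type) [AddCommGroup W] [Module.Free ℤ W] [Module.Finite ℤ W]
    [DistribMulAction G W] (B : Subgroup G) :
    ∃ t : ℤ, (∀ y, Subgroup.zpowers y = B → LinearMap.trace ℤ W (PGZ.act W y) = t) := by
  by_cases h : ∃ y, Subgroup.zpowers y = B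
  · obtain ⟨y, hy⟩ := h
    exact ⟨_, fun z hz => trace_zpowers W z y (hz.trans hy.symm)⟩
  · exact ⟨0, fun y hy => absurd ⟨y, hy⟩ h⟩

theorem trace_class (W : Type) [AddCommGroup W] [Module.Free ℤ W] [Module.Finite ℤ W]
    [DistribMulAction G W] (x g : G) :
    LinearMap.trace ℤ W (PGZ.act W (x⁻¹ * g * x)) = LinearMap.trace ℤ W (PGZ.act W g) := by
  have h1 : PGZ.act W (x⁻¹ * g * x) = PGZ.act W x⁻¹ * (PGZ.act W g * PGZ.act W x) := by
    ext v
    simp [mul_smul]
  have h2 : PGZ.act W x * PGZ.act W x⁻¹ = 1 := by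
    ext v
    simp
  rw [h1, LinearMap.trace_mul_comm, mul_assoc, h2, mul_one]

theorem artin_mem (W : Type) [AddCommGroup W] [Module.Free ℤ W] [Module.Finite ℤ W]
    [DistribMulAction G W] :
    (fun g : G => (Nat.card G : ℂ) * ((LinearMap.trace ℤ W (PGZ.act W g) : ℤ) : ℂ)) ∈ PP G := by
  classical
  have : Fintype G := Fintype.ofFinite G
  have : Fintype (Subgroup G) := Fintype.ofFinite _
  choose t ht using fun B : Subgroup G => KK_trace (G := G) W B
  have h1 : (fun g : G => (Nat.card G : ℂ) * ((LinearMap.trace ℤ W (PGZ.act W g) : ℤ) : ℂ)) =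
      ∑ B : Subgroup G, t B • KK B (ext B 1) := by
    funext g
    have h2 := sum_KK (fun y => ((LinearMap.trace ℤ W (PGZ.act W y) : ℤ) : ℂ)) g
    simp only [trace_class] at h2
    rw [sum_const, card_univ, nsmul_eq_mul, ← Nat.card_eq_fintype_card] at h2
    rw [h2, finsum_eq_sum_of_fintype, Finset.sum_apply]
    refine sum_congr rfl fun B _ => ?_
    have h3 : KK B (fun y => ((LinearMap.trace ℤ W (PGZ.act W y) : ℤ) : ℂ)) =
        KK B ((t B : ℂ) • ext B 1) := by
      refine KK_congr fun y hy => ?_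
      have h4 : y ∈ B := by
        rw [← hy]
        exact Subgroup.mem_zpowers y
      rw [ht B y hy, Pi.smul_apply, ext_of_mem _ h4, smul_eq_mul]
      simp
    rw [h3, KK_smul, Pi.smul_apply, Pi.smul_apply, zsmul_eq_mul, smul_eq_mul]
  rw [h1]
  exact sum_mem fun B _ => zsmul_mem (KK_one_mem _ B rfl) _

/-- Artin's theorem for lattices. -/
theorem artinQ_mono (W : Type) [AddCommGroup W] [Module.Free ℤ W] [Module.Finite ℤ W]
    [DistribMulAction G W] :
    ∃ (N : ℕ) (_ : 0 < N) (J : Type) (_ : Fintype J) (H : J → Subgroup G) (a : J → ℤ),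
      ∀ g : G, (N : ℂ) * ((LinearMap.trace ℤ W (PGZ.act W g) : ℤ) : ℂ) =
        ∑ j, (a j : ℂ) * PGZ.fH (H j) g := by
  refine ⟨Nat.card G, Nat.card_pos, ?_⟩
  have key : ∀ f ∈ PP G, ∃ (J : Type) (_ : Fintype J) (H : J → Subgroup G) (a : J → ℤ),
      ∀ g : G, f g = ∑ j, (a j : ℂ) * PGZ.fH (H j) g := by
    intro f hf
    refine AddSubgroup.closure_induction (p := fun f _ => ∃ (J : Type) (_ : Fintype J)
      (H : J → Subgroup G) (a : J → ℤ), ∀ g : G, f g = ∑ j, (a j : ℂ) * PGZ.fH (H j) g)
      ?_ ?_ ?_ ?_ hf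
    · rintro f ⟨H, rfl⟩
      exact ⟨Unit, inferInstance, fun _ => H, fun _ => 1, fun g => by simp⟩
    · exact ⟨Empty, inferInstance, fun _ => ⊥, fun _ => 0, fun g => by simp⟩
    · rintro a b _ _ ⟨J, _, H, z, h⟩ ⟨J', _, H', z', h'⟩
      refine ⟨J ⊕ J', inferInstance, Sum.elim H H', Sum.elim z z', fun g => ?_⟩
      rw [Pi.add_apply, h g, h' g, Fintype.sum_sum_type]
      rfl
    · rintro a _ ⟨J, _, H, z, h⟩
      refine ⟨J, inferInstance, H, fun j => -z j, fun g => ?_⟩
      rw [Pi.neg_apply, h g, ← sum_neg_distrib]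
      refine sum_congr rfl fun j _ => ?_
      rw [Int.cast_neg, neg_mul]
  exact key _ (artin_mem W)

end G

end Pool.Agent.ARC
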