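import Pool.Agent.ARC.BFIN

/-! # ARC, part B: characters of cyclic subgroups and induction in stages -/

set_option autoImplicit false

noncomputable section

namespace Pool.Agent.ARC

open Finset

/-- The characters of a finite commutative group `A` which extend a given character of the
subgroup `B`. -/
theorem dual_ext (A : Type) [CommGroup A] [Finite A] [Fintype (A →* ℂˣ)] (B : Subgroup A)
    (psi' : B →* ℂˣ) (z : A) :
    (∑ psi : A →* ℂˣ, open Classical in
      if psi.comp B.subtype = psi' then ((psi z : ℂˣ) : ℂ) else 0) =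
      open Classical in
      if h : z ∈ B then (Nat.card (A ⧸ B) : ℂ) * ((psi' ⟨z, h⟩ : ℂˣ) : ℂ) else 0 := by
  classical
  obtain ⟨psi0, h0⟩ := MonoidHom.domRestrict_surjective ℂ B psi'
  have h0' : psi0.comp B.subtype = psi' := h0
  -- translate by psi0
  have h1 : (∑ psi : A →* ℂˣ, if psi.comp B.subtype = psi' then ((psi z : ℂˣ) : ℂ) else 0) =
      ((psi0 z : ℂˣ) : ℂ) * ∑ k : A →* ℂˣ, if k.comp B.subtype = 1 then ((k z : ℂˣ) : ℂ) else 0 := by
    rw [← Equiv.sum_comp (Equiv.mulLeft psi0)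
      (fun psi : A →* ℂˣ => if psi.comp B.subtype = psi' then ((psi z : ℂˣ) : ℂ) else 0), mul_sum]
    refine sum_congr rfl fun k _ => ?_
    have h2 : (Equiv.mulLeft psi0 k).comp B.subtype = psi' ↔ k.comp B.subtype = 1 := by
      rw [Equiv.coe_mulLeft, MonoidHom.mul_comp, h0', mul_eq_left]
    by_cases h3 : k.comp B.subtype = 1
    · rw [if_pos (h2.2 h3), if_pos h3, Equiv.coe_mulLeft, MonoidHom.mul_apply, Units.val_mul]
    · rw [if_neg (fun h => h3 (h2.1 h)), if_neg h3, mul_zero]
  rw [h1]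
  by_cases hz : z ∈ B
  · rw [dif_pos hz]
    have h4 : psi0 z = psi' ⟨z, hz⟩ := by
      rw [← h0']
      rfl
    rw [h4, mul_comm]
    congr 1
    have h5 : ∀ k : A →* ℂˣ, (if k.comp B.subtype = 1 then ((k z : ℂˣ) : ℂ) else 0) =
        if k.comp B.subtype = 1 then 1 else 0 := by
      intro k
      split_ifs with h6
      · have h7 : k z = (k.comp B.subtype) ⟨z, hz⟩ := rfl
        rw [h7, h6]
        rfl
      · rfl
    simp only [h5]
    rw [sum_boole]
    have h6 := CommGroup.card_domRestrictHom_ker (M := ℂ) B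
    rw [← h6, Nat.card_eq_fintype_card, ← Fintype.card_subtype]
    congr 1
    exact Fintype.card_congr (Equiv.subtypeEquivRight fun k => Iff.rfl)
  · rw [dif_neg hz]
    have h7 : ∃ k0 : A →* ℂˣ, k0.comp B.subtype = 1 ∧ k0 z ≠ 1 := by
      by_contra hcon
      push Not at hcon
      apply hz
      rw [← CommGroup.forall_monoidHom_apply_eq_one_iff (M := ℂ)]
      intro phi hphi
      apply hcon
      ext y
      rw [MonoidHom.comp_apply, Subgroup.coe_subtype, hphi y y.2, MonoidHom.one_apply]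
    obtain ⟨k0, hk0, hk1⟩ := h7
    have h8 : ((k0 z : ℂˣ) : ℂ) * (∑ k : A →* ℂˣ,
        if k.comp B.subtype = 1 then ((k z : ℂˣ) : ℂ) else 0) =
        ∑ k : A →* ℂˣ, if k.comp B.subtype = 1 then ((k z : ℂˣ) : ℂ) else 0 := by
      conv_rhs => rw [← Equiv.sum_comp (Equiv.mulLeft k0)
        (fun k : A →* ℂˣ => if k.comp B.subtype = 1 then ((k z : ℂˣ) : ℂ) else 0)]
      rw [mul_sum]
      refine sum_congr rfl fun k _ => ?_
      have h2 : (Equiv.mulLeft k0 k).comp B.subtype = 1 ↔ k.comp B.subtype = 1 := by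
        rw [Equiv.coe_mulLeft, MonoidHom.mul_comp, hk0, one_mul]
      by_cases h3 : k.comp B.subtype = 1
      · rw [if_pos (h2.2 h3), if_pos h3, Equiv.coe_mulLeft, MonoidHom.mul_apply, Units.val_mul]
      · rw [if_neg (fun h => h3 (h2.1 h)), if_neg h3, mul_zero]
    have h9 : ((k0 z : ℂˣ) : ℂ) ≠ 1 := fun h => hk1 (Units.ext h)
    have h10 : (((k0 z : ℂˣ) : ℂ) - 1) * (∑ k : A →* ℂˣ,
        if k.comp B.subtype = 1 then ((k z : ℂˣ) : ℂ) else 0) = 0 := by
      rw [sub_mul, h8, one_mul, sub_self]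
    rcases mul_eq_zero.1 h10 with h11 | h11
    · exact absurd (sub_eq_zero.1 h11) h9
    · rw [h11, mul_zero]

section G

variable {G : Type} [Group G] [Finite G]

/-- The same for a cyclic subgroup `C` of `G` and a subgroup `C'` of `C`. -/
theorem sum_ext_dual (C C' : Subgroup G) (hC : IsCyclic C) [Fintype (C →* ℂˣ)] (hle : C' ≤ C)
    (psi' : C' →* ℂˣ) (z : G) :
    (Nat.card C' : ℂ) * (∑ psi : C →* ℂˣ, open Classical in
      if psi.comp (Subgroup.inclusion hle) = psi' then ext C psi z else 0) =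
      (Nat.card C : ℂ) * ext C' psi' z := by
  classical
  let _ : CommGroup C := IsCyclic.commGroup
  by_cases hz : z ∈ C
  · let B : Subgroup C := C'.subgroupOf C
    let e : B ≃* C' := Subgroup.subgroupOfEquivOfLe hle
    have h1 := dual_ext C B (psi'.comp e.toMonoidHom) ⟨z, hz⟩
    have h2 : ∀ psi : C →* ℂˣ, (psi.comp B.subtype = psi'.comp e.toMonoidHom) ↔
        (psi.comp (Subgroup.inclusion hle) = psi') := by
      intro psi
      constructor
      · intro h
        ext y
        have h3 := DFunLike.congr_fun h (e.symm y)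
        rw [MonoidHom.comp_apply, MonoidHom.comp_apply] at h3
        have h4 : e.toMonoidHom (e.symm y) = y := e.apply_symm_apply y
        rw [h4] at h3
        rw [← h3]
        rfl
      · intro h
        ext y
        rw [← h]
        rfl
    have h3 : (∑ psi : C →* ℂˣ,
        if psi.comp (Subgroup.inclusion hle) = psi' then ext C psi z else 0) =
        ∑ psi : C →* ℂˣ,
          if psi.comp B.subtype = psi'.comp e.toMonoidHom then ((psi ⟨z, hz⟩ : ℂˣ) : ℂ) else 0 := by
      refine sum_congr rfl fun psi _ => ?_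
      rw [ext_of_mem psi hz]
      by_cases h4 : psi.comp (Subgroup.inclusion hle) = psi'
      · rw [if_pos h4, if_pos ((h2 psi).2 h4)]
      · rw [if_neg h4, if_neg (fun h => h4 ((h2 psi).1 h))]
    rw [h3, h1]
    have hcard : (Nat.card C' : ℂ) * (Nat.card (C ⧸ B) : ℂ) = Nat.card C := by
      have h5 : Nat.card C = Nat.card (C ⧸ B) * Nat.card B := B.card_eq_card_quotient_mul_card_subgroup
      have h6 : Nat.card B = Nat.card C' := Nat.card_congr e.toEquiv
      rw [h5, h6, Nat.cast_mul, mul_comm]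
    by_cases hz' : z ∈ C'
    · have h4 : (⟨z, hz⟩ : C) ∈ B := Subgroup.mem_subgroupOf.2 hz'
      rw [dif_pos h4, ext_of_mem psi' hz', ← mul_assoc, hcard]
      rfl
    · have h4 : (⟨z, hz⟩ : C) ∉ B := fun h => hz' (Subgroup.mem_subgroupOf.1 h)
      rw [dif_neg h4, ext_of_not_mem psi' hz', mul_zero, mul_zero]
  · rw [ext_of_not_mem psi' (fun h => hz (hle h)), mul_zero]
    have h3 : (∑ psi : C →* ℂˣ,
        if psi.comp (Subgroup.inclusion hle) = psi' then ext C psi z else 0) = 0 := by
      refine Finset.sum_eq_zero fun psi _ => ?_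
      rw [ext_of_not_mem psi hz]
      simp
    rw [h3, mul_zero]

/-- Induction in stages. -/
theorem stages (C C' : Subgroup G) (hC : IsCyclic C) [Fintype (C →* ℂˣ)] (hle : C' ≤ C)
    (psi' : C' →* ℂˣ) :
    mono C' psi' = ∑ psi : C →* ℂˣ, open Classical in
      if psi.comp (Subgroup.inclusion hle) = psi' then mono C psi else 0 := by
  classical
  have : Fintype G := Fintype.ofFinite G
  funext g
  rw [Finset.sum_apply]
  have hC0 : (Nat.card C : ℂ) ≠ 0 := Nat.cast_ne_zero.2 Nat.card_pos.ne'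
  have hC'0 : (Nat.card C' : ℂ) ≠ 0 := Nat.cast_ne_zero.2 Nat.card_pos.ne'
  apply mul_left_cancel₀ hC'0
  apply mul_left_cancel₀ hC0
  rw [← mono_eq, mul_sum]
  simp only [← sum_ext_dual C C' hC hle psi']
  rw [← mul_sum, sum_comm, mul_left_comm]
  congr 1
  rw [mul_sum]
  refine sum_congr rfl fun psi _ => ?_
  by_cases h : psi.comp (Subgroup.inclusion hle) = psi'
  · simp only [if_pos h]
    exact mono_eq C psi g
  · simp [if_neg h]

/-- Conjugation. -/
theorem mono_conj (C C' : Subgroup G) (psi : C →* ℂˣ) (psi' : C' →* ℂˣ) (x : G)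
    (h : ∀ z, ext C' psi' (x⁻¹ * z * x) = ext C psi z) (hcard : Nat.card C = Nat.card C') :
    mono C' psi' = mono C psi := by
  have : Fintype G := Fintype.ofFinite G
  funext g
  have hC0 : (Nat.card C : ℂ) ≠ 0 := Nat.cast_ne_zero.2 Nat.card_pos.ne'
  apply mul_left_cancel₀ hC0
  rw [← mono_eq, hcard, ← mono_eq,
    ← Equiv.sum_comp (Equiv.mulRight x) (fun y => ext C' psi' (y⁻¹ * g * y))]
  refine sum_congr rfl fun y _ => ?_
  rw [← h]
  congr 1
  simp only [Equiv.coe_mulRight]
  group

end G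

end Pool.Agent.ARC
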