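import Pool.Agent.PGZ2.Defs

/-!
# ARC, part B (Brauer): definitions and the elementary properties of induced characters

`mono H psi` is the character of `G` induced from the linear character `psi` of `H`; `MG G` is the
additive group generated by these, `MC G` the one generated by those with `H` cyclic. -/

set_option autoImplicit false

noncomputable section

namespace Pool.Agent.ARC

open Finset

/-- The extension by zero of a linear character of the subgroup `H`. -/
def ext {G : Type} [Group G] (H : Subgroup G) (psi : H →* ℂˣ) (x : G) : ℂ :=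
  open Classical in if h : x ∈ H then ((psi ⟨x, h⟩ : ℂˣ) : ℂ) else 0

/-- The induced character: the sum of `psi (x⁻¹ g x)` over the cosets `x H` fixed by `g`. -/
def mono {G : Type} [Group G] (H : Subgroup G) (psi : H →* ℂˣ) (g : G) : ℂ :=
  ∑ᶠ x : G ⧸ H, ext H psi (x.out⁻¹ * g * x.out)

/-- The additive group generated by the monomial characters. -/
def MG (G : Type) [Group G] : AddSubgroup (G → ℂ) :=
  AddSubgroup.closure {f | ∃ (H : Subgroup G) (psi : H →* ℂˣ), f = mono H psi}

/-- The additive group generated by the characters induced from cyclic subgroups. -/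
def MC (G : Type) [Group G] : AddSubgroup (G → ℂ) :=
  AddSubgroup.closure {f | ∃ (H : Subgroup G) (psi : H →* ℂˣ), IsCyclic H ∧ f = mono H psi}

/-- The sum of `f (x⁻¹ g x)` over all `x` such that `x⁻¹ g x` generates `B`. -/
def KK {G : Type} [Group G] (B : Subgroup G) (f : G → ℂ) (g : G) : ℂ :=
  open Classical in
  ∑ᶠ x : G, if Subgroup.zpowers (x⁻¹ * g * x) = B then f (x⁻¹ * g * x) else 0

section basic

variable {G : Type} [Group G]

theorem mono_mem_MG (H : Subgroup G) (psi : H →* ℂˣ) : mono H psi ∈ MG G :=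
  AddSubgroup.subset_closure ⟨H, psi, rfl⟩

theorem mono_mem_MC (H : Subgroup G) (psi : H →* ℂˣ) (hH : IsCyclic H) : mono H psi ∈ MC G :=
  AddSubgroup.subset_closure ⟨H, psi, hH, rfl⟩

theorem MC_le_MG : MC G ≤ MG G := by
  refine AddSubgroup.closure_mono ?_
  rintro f ⟨H, psi, _, rfl⟩
  exact ⟨H, psi, rfl⟩

theorem ext_of_mem {H : Subgroup G} (psi : H →* ℂˣ) {x : G} (h : x ∈ H) :
    ext H psi x = ((psi ⟨x, h⟩ : ℂˣ) : ℂ) := by
  rw [ext, dif_pos h]

theorem ext_of_not_mem {H : Subgroup G} (psi : H →* ℂˣ) {x : G} (h : x ∉ H) :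
    ext H psi x = 0 := by
  rw [ext, dif_neg h]

theorem ext_mul {H : Subgroup G} (psi : H →* ℂˣ) {x y : G} (hx : x ∈ H) (hy : y ∈ H) :
    ext H psi (x * y) = ext H psi x * ext H psi y := by
  rw [ext_of_mem psi hx, ext_of_mem psi hy, ext_of_mem psi (H.mul_mem hx hy), ← Units.val_mul,
    ← map_mul]
  rfl

theorem ext_one {H : Subgroup G} (psi : H →* ℂˣ) : ext H psi 1 = 1 := by
  rw [ext_of_mem psi H.one_mem]
  have : (⟨1, H.one_mem⟩ : H) = 1 := rfl
  rw [this, map_one]
  rfl

theorem ext_conj {H : Subgroup G} (psi : H →* ℂˣ) (x : G) {h : G} (hh : h ∈ H) :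
    ext H psi (h⁻¹ * x * h) = ext H psi x := by
  by_cases hx : x ∈ H
  · rw [ext_mul psi (H.mul_mem (H.inv_mem hh) hx) hh, ext_mul psi (H.inv_mem hh) hx,
      mul_comm (ext H psi h⁻¹), mul_assoc, ← ext_mul psi (H.inv_mem hh) hh, inv_mul_cancel,
      ext_one, mul_one]
  · rw [ext_of_not_mem psi hx, ext_of_not_mem]
    intro h1
    apply hx
    have h2 : h * (h⁻¹ * x * h) * h⁻¹ ∈ H := H.mul_mem (H.mul_mem hh h1) (H.inv_mem hh)
    have h3 : h * (h⁻¹ * x * h) * h⁻¹ = x := by group
    rwa [h3] at h2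

theorem ext_restrict {B H : Subgroup G} (hBH : B ≤ H) (psi : H →* ℂˣ) {x : G} (hx : x ∈ B) :
    ext H psi x = ext B (psi.comp (Subgroup.inclusion hBH)) x := by
  rw [ext_of_mem psi (hBH hx), ext_of_mem _ hx]
  rfl

/-- The sum over `G` of a function which is constant on the left cosets of `H`. -/
theorem sum_coset [Fintype G] (H : Subgroup G) (F : G → ℂ)
    (hF : ∀ x, ∀ h ∈ H, F (x * h) = F x) :
    ∑ x : G, F x = (Nat.card H : ℂ) * ∑ᶠ q : G ⧸ H, F q.out := by
  classical
  have : Fintype (G ⧸ H) := Fintype.ofFinite _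
  have : Fintype H := Fintype.ofFinite _
  rw [finsum_eq_sum_of_fintype, mul_sum]
  have h1 : ∀ x : G, F x = F ((x : G ⧸ H).out) := by
    intro x
    obtain ⟨h, hh⟩ := QuotientGroup.mk_out_eq_mul H x
    rw [hh, hF x h h.2]
  have h2 : ∑ x : G, F x = ∑ q : G ⧸ H, ∑ x ∈ univ.filter (fun x : G => (x : G ⧸ H) = q), F x := by
    rw [sum_fiberwise]
  rw [h2]
  refine sum_congr rfl fun q _ => ?_
  have h3 : ∀ x ∈ univ.filter (fun x : G => (x : G ⧸ H) = q), F x = F q.out := by
    intro x hx
    rw [h1 x, (mem_filter.1 hx).2]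
  rw [sum_congr rfl h3, sum_const, nsmul_eq_mul]
  congr 1
  have h4 : (univ.filter (fun x : G => (x : G ⧸ H) = q)).card = Nat.card H := by
    rw [← Fintype.card_subtype, ← Nat.card_eq_fintype_card]
    have e : {x : G // (x : G ⧸ H) = q} ≃ H := by
      refine Equiv.mk (fun x => ⟨q.out⁻¹ * x, ?_⟩) (fun h => ⟨q.out * h, ?_⟩) ?_ ?_
      · have h5 := x.2
        rw [← QuotientGroup.eq, h5]
        exact Quotient.out_eq' q
      · rw [QuotientGroup.mk_mul_of_mem _ h.2]
        exact Quotient.out_eq' q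
      · intro x
        apply Subtype.ext
        simp
      · intro x
        apply Subtype.ext
        simp
    exact Nat.card_congr e
  rw [h4]

theorem mono_eq [Fintype G] (H : Subgroup G) (psi : H →* ℂˣ) (g : G) :
    ∑ x : G, ext H psi (x⁻¹ * g * x) = (Nat.card H : ℂ) * mono H psi g := by
  refine sum_coset H (fun x => ext H psi (x⁻¹ * g * x)) ?_
  intro x h hh
  have h1 : (x * h)⁻¹ * g * (x * h) = h⁻¹ * (x⁻¹ * g * x) * h := by group
  rw [h1, ext_conj psi _ hh]

theorem mono_one [Finite G] (H : Subgroup G) (psi : H →* ℂˣ) :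
    (Nat.card H : ℂ) * mono H psi 1 = Nat.card G := by
  have : Fintype G := Fintype.ofFinite G
  rw [← mono_eq]
  simp [ext_one]

/-- Every function of `x⁻¹ g x`, summed over `x`, splits over the subgroups generated. -/
theorem sum_KK [Fintype G] (f : G → ℂ) (g : G) :
    ∑ x : G, f (x⁻¹ * g * x) = ∑ᶠ B : Subgroup G, KK B f g := by
  classical
  have : Fintype (Subgroup G) := Fintype.ofFinite _
  rw [finsum_eq_sum_of_fintype]
  simp only [KK, finsum_eq_sum_of_fintype]
  rw [sum_comm]
  refine sum_congr rfl fun x _ => ?_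
  rw [sum_ite_eq]
  simp

theorem KK_congr [Finite G] {B : Subgroup G} {f f' : G → ℂ}
    (h : ∀ y, Subgroup.zpowers y = B → f y = f' y) : KK B f = KK B f' := by
  classical
  funext g
  have : Fintype G := Fintype.ofFinite G
  simp only [KK, finsum_eq_sum_of_fintype]
  refine sum_congr rfl fun x _ => ?_
  split_ifs with hx
  · exact h _ hx
  · rfl

theorem KK_zero [Finite G] {B : Subgroup G} {f : G → ℂ}
    (h : ∀ y, Subgroup.zpowers y = B → f y = 0) : KK B f = 0 := by
  rw [KK_congr h]
  funext g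
  have : Fintype G := Fintype.ofFinite G
  simp [KK]

theorem KK_add [Finite G] (B : Subgroup G) (f f' : G → ℂ) :
    KK B (f + f') = KK B f + KK B f' := by
  classical
  funext g
  have : Fintype G := Fintype.ofFinite G
  simp only [KK, finsum_eq_sum_of_fintype, Pi.add_apply]
  rw [← sum_add_distrib]
  refine sum_congr rfl fun x _ => ?_
  split_ifs <;> simp

theorem KK_smul [Finite G] (B : Subgroup G) (c : ℂ) (f : G → ℂ) :
    KK B (c • f) = c • KK B f := by
  classical
  funext g
  have : Fintype G := Fintype.ofFinite G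
  simp only [KK, finsum_eq_sum_of_fintype, Pi.smul_apply, smul_eq_mul]
  rw [mul_sum]
  refine sum_congr rfl fun x _ => ?_
  split_ifs <;> simp

end basic

end Pool.Agent.ARC
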