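import Pool.Agent.ARC.BTAU

/-! # ARC, part B: the trace of an automorphism of finite order of a lattice from its
eigenspaces modulo `p` -/

set_option autoImplicit false

noncomputable section

namespace Pool.Agent.ARC

open Polynomial Module Finset

/-- An endomorphism `f` with `f ^ (p - 1) = 1` over `ZMod p` is diagonalizable. -/
theorem isInternal_eig (p : ℕ) [hp : Fact p.Prime] (V : Type) [AddCommGroup V]
    [Module (ZMod p) V] (f : Module.End (ZMod p) V) (hf : f ^ (p - 1) = 1) :
    DirectSum.IsInternal (fun a : (ZMod p)ˣ => f.eigenspace (a : ZMod p)) := by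
  classical
  rw [DirectSum.isInternal_submodule_iff_iSupIndep_and_iSup_eq_top]
  constructor
  · exact f.eigenspaces_iSupIndep.comp Units.val_injective
  · rw [eq_top_iff]
    intro v _
    let w : (ZMod p)ˣ → V := fun a =>
      ∑ j ∈ range (p - 1), (((a⁻¹ : (ZMod p)ˣ) : ZMod p) ^ j) • (f ^ j) v
    have hw : ∀ a : (ZMod p)ˣ, w a ∈ f.eigenspace (a : ZMod p) := by
      intro a
      rw [Module.End.mem_eigenspace_iff]
      simp only [w]
      rw [map_sum, smul_sum]
      have h1 : ∀ j, f ((((a⁻¹ : (ZMod p)ˣ) : ZMod p) ^ j) • (f ^ j) v) =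
          (a : ZMod p) • ((((a⁻¹ : (ZMod p)ˣ) : ZMod p) ^ (j + 1)) • (f ^ (j + 1)) v) := by
        intro j
        rw [map_smul, smul_smul, pow_succ' (((a⁻¹ : (ZMod p)ˣ) : ZMod p)) j, ← mul_assoc,
          Units.mul_inv, one_mul, pow_succ' f j]
        rfl
      simp only [h1]
      rw [← smul_sum, ← smul_sum]
      congr 1
      have h2 := sum_range_succ (fun j => (((a⁻¹ : (ZMod p)ˣ) : ZMod p) ^ j) • (f ^ j) v) (p - 1)
      rw [sum_range_succ'] at h2
      have h3 : (((a⁻¹ : (ZMod p)ˣ) : ZMod p) ^ (p - 1)) • (f ^ (p - 1)) v =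
          (((a⁻¹ : (ZMod p)ˣ) : ZMod p) ^ 0) • (f ^ 0) v := by
        rw [hf, ZMod.pow_card_sub_one_eq_one (Units.ne_zero _), pow_zero, pow_zero]
      rw [h3] at h2
      exact add_right_cancel h2
    have hsum : ∑ a : (ZMod p)ˣ, w a = -v := by
      simp only [w]
      rw [sum_comm]
      have h1 : ∀ j ∈ range (p - 1), ∑ a : (ZMod p)ˣ,
          (((a⁻¹ : (ZMod p)ˣ) : ZMod p) ^ j) • (f ^ j) v = if j = 0 then -v else 0 := by
        intro j hj
        rw [← sum_smul]
        have h2 : ∑ a : (ZMod p)ˣ, ((a⁻¹ : (ZMod p)ˣ) : ZMod p) ^ j =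
            ∑ a : (ZMod p)ˣ, ((a : (ZMod p)ˣ) : ZMod p) ^ j := by
          exact Equiv.sum_comp (Equiv.inv (ZMod p)ˣ) (fun a => ((a : (ZMod p)ˣ) : ZMod p) ^ j)
        rw [h2]
        have h3 := FiniteField.sum_pow_units (ZMod p) j
        rw [ZMod.card p] at h3
        rw [h3]
        by_cases hj0 : j = 0
        · rw [if_pos (hj0 ▸ dvd_zero _), if_pos hj0, hj0, pow_zero]
          simp
        · rw [if_neg, if_neg hj0, zero_smul]
          intro hd
          exact absurd (Nat.le_of_dvd (Nat.pos_of_ne_zero hj0) hd) (not_le.2 (mem_range.1 hj))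
      rw [sum_congr rfl h1, sum_ite_eq']
      rw [if_pos]
      rw [mem_range]
      exact Nat.sub_pos_of_lt hp.out.one_lt
    have h4 : v = -∑ a : (ZMod p)ˣ, w a := by rw [hsum, neg_neg]
    rw [h4]
    exact Submodule.neg_mem _ (Submodule.sum_mem _ fun a _ => Submodule.mem_iSup_of_mem a (hw a))

theorem charpoly_pow_eig (p : ℕ) [hp : Fact p.Prime] (V : Type) [AddCommGroup V]
    [Module (ZMod p) V] [Module.Finite (ZMod p) V] (f : Module.End (ZMod p) V)
    (hf : f ^ (p - 1) = 1) (j : ℕ) :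
    (f ^ j).charpoly =
      ∏ x : (Σ a : (ZMod p)ˣ, Fin (finrank (ZMod p) (f.eigenspace (a : ZMod p)))),
        (X - C (((x.1 ^ j : (ZMod p)ˣ)) : ZMod p)) := by
  classical
  have hI := isInternal_eig p V f hf
  let b := hI.collectedBasis (fun a => Module.finBasis (ZMod p) (f.eigenspace (a : ZMod p)))
  have hb : ∀ x, (f ^ j) (b x) = (((x.1 ^ j : (ZMod p)ˣ)) : ZMod p) • b x := by
    intro x
    have h1 : b x ∈ f.eigenspace (x.1 : ZMod p) := hI.collectedBasis_mem _ x
    rw [Module.End.mem_eigenspace_iff] at h1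
    rw [Units.val_pow_eq_pow_val]
    induction j with
    | zero => simp
    | succ j ih =>
      rw [pow_succ, Module.End.mul_apply, h1, map_smul, ih, smul_smul, pow_succ']
  rw [← LinearMap.charpoly_toMatrix (f ^ j) b]
  have h2 : LinearMap.toMatrix b b (f ^ j) =
      Matrix.diagonal (fun x => (((x.1 ^ j : (ZMod p)ˣ)) : ZMod p)) := by
    ext x y
    rw [LinearMap.toMatrix_apply, hb, map_smul, Finsupp.smul_apply, Basis.repr_self,
      Finsupp.single_apply, Matrix.diagonal_apply, smul_eq_mul]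
    by_cases hxy : x = y
    · subst hxy
      simp
    · rw [if_neg (Ne.symm hxy), if_neg hxy, mul_zero]
  rw [h2, Matrix.charpoly_diagonal]

/-- The trace of the powers of an automorphism of a lattice in terms of the eigenspaces
modulo `p`. -/
theorem exists_tau_trace (p : ℕ) [hp : Fact p.Prime] :
    ∃ tau : (ZMod p)ˣ →* ℂˣ, ∀ (W : Type) [AddCommGroup W] [Module.Free ℤ W] [Module.Finite ℤ W]
      (phi : W →ₗ[ℤ] W), phi ^ (p - 1) = 1 → ∀ j : ℕ,
      ((LinearMap.trace ℤ W (phi ^ j) : ℤ) : ℂ) =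
        ∑ a : (ZMod p)ˣ, (finrank (ZMod p) (Module.End.eigenspace (phi.baseChange (ZMod p))
          (a : ZMod p)) : ℂ) * ((tau a : ℂˣ) : ℂ) ^ j := by
  classical
  obtain ⟨tau, htau⟩ := exists_tau p
  refine ⟨tau, ?_⟩
  intro W _ _ _ phi hphi j
  have h1 := htau (phi ^ j).charpoly (LinearMap.charpoly_monic _) ?_
    (Σ a : (ZMod p)ˣ, Fin (finrank (ZMod p) (Module.End.eigenspace (phi.baseChange (ZMod p))
          (a : ZMod p)))) (fun x => x.1 ^ j) ?_
  · have h2 : ((phi ^ j).charpoly.map (Int.castRingHom ℂ)) =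
        ((phi ^ j).baseChange ℂ).charpoly := by
      rw [LinearMap.charpoly_baseChange]
      rfl
    rw [h2, ← Module.End.trace_eq_sum_roots_charpoly_of_splits (IsAlgClosed.splits _),
      LinearMap.trace_baseChange] at h1
    have h3 : algebraMap ℤ ℂ (LinearMap.trace ℤ W (phi ^ j)) =
        ((LinearMap.trace ℤ W (phi ^ j) : ℤ) : ℂ) := by
      rw [eq_intCast]
    rw [h3] at h1
    rw [h1, Fintype.sum_sigma]
    refine sum_congr rfl fun a _ => ?_
    simp
  · intro z hz
    have h2 : ((phi ^ j).charpoly.map (Int.castRingHom ℂ)) =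
        ((phi ^ j).baseChange ℂ).charpoly := by
      rw [LinearMap.charpoly_baseChange]
      rfl
    rw [h2, mem_roots (LinearMap.charpoly_monic _).ne_zero,
      ← Module.End.hasEigenvalue_iff_isRoot_charpoly] at hz
    obtain ⟨v, hv⟩ := hz.exists_hasEigenvector
    have h3 : (((phi ^ j).baseChange ℂ) ^ (p - 1)) v = z ^ (p - 1) • v := hv.pow_apply (p - 1)
    have h4 : ((phi ^ j).baseChange ℂ) ^ (p - 1) = 1 := by
      rw [← LinearMap.baseChange_pow, ← pow_mul, mul_comm, pow_mul, hphi, one_pow]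
      exact LinearMap.baseChange_id
    rw [h4, Module.End.one_apply] at h3
    have h5 : (z ^ (p - 1) - 1) • v = 0 := by
      rw [sub_smul, one_smul, ← h3, sub_self]
    rcases smul_eq_zero.1 h5 with h6 | h6
    · exact sub_eq_zero.1 h6
    · exact absurd h6 hv.2
  · have h2 : ((phi ^ j).charpoly.map (Int.castRingHom (ZMod p))) =
        ((phi ^ j).baseChange (ZMod p)).charpoly := by
      rw [LinearMap.charpoly_baseChange]
      rfl
    rw [h2, LinearMap.baseChange_pow]
    refine charpoly_pow_eig p _ _ ?_ j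
    rw [← LinearMap.baseChange_pow, hphi]
    exact LinearMap.baseChange_id

end Pool.Agent.ARC
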