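import Pool.Agent.ARC.BSET
import Pool.Agent.ARC.BEIG

/-! # ARC, part B: the monomial character on the lines of a vector space over `ZMod p` -/

set_option autoImplicit false

noncomputable section

namespace Pool.Agent.ARC

open Module Finset

section lines

variable {G : Type} [Group G] (p : ℕ) [hp : Fact p.Prime] (V : Type) [AddCommGroup V]
  [Module (ZMod p) V] [DistribMulAction G V] [SMulCommClass G (ZMod p) V]

theorem exists_aL (g : G) (l : Projectivization (ZMod p) V) :
    ∃ a : (ZMod p)ˣ, (a : ZMod p) • (g • l).rep = g • l.rep := by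
  have h1 : Projectivization.mk (ZMod p) (g • l.rep)
      ((smul_ne_zero_iff_ne g).mpr l.rep_nonzero) = g • l := by
    rw [← Projectivization.smul_mk g l.rep_nonzero, Projectivization.mk_rep]
  have h2 : Projectivization.mk (ZMod p) (g • l.rep)
      ((smul_ne_zero_iff_ne g).mpr l.rep_nonzero) =
      Projectivization.mk (ZMod p) (g • l).rep (g • l).rep_nonzero := by
    rw [h1, Projectivization.mk_rep]
  obtain ⟨a, ha⟩ := (Projectivization.mk_eq_mk_iff _ _ _ _ _).1 h2
  exact ⟨a, ha⟩

/-- The scalar by which `g` acts on the representatives of the lines. -/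
def aL (g : G) (l : Projectivization (ZMod p) V) : (ZMod p)ˣ := (exists_aL p V g l).choose

theorem aL_spec (g : G) (l : Projectivization (ZMod p) V) :
    (aL p V g l : ZMod p) • (g • l).rep = g • l.rep := (exists_aL p V g l).choose_spec

theorem aL_unique (g : G) (l : Projectivization (ZMod p) V) (a : (ZMod p)ˣ)
    (h : (a : ZMod p) • (g • l).rep = g • l.rep) : aL p V g l = a := by
  have h1 := aL_spec p V g l
  rw [← h] at h1
  have h2 : ((aL p V g l : ZMod p) - (a : ZMod p)) • (g • l).rep = 0 := by
    rw [sub_smul, h1, sub_self]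
  rcases smul_eq_zero.1 h2 with h3 | h3
  · exact Units.ext (sub_eq_zero.1 h3)
  · exact absurd h3 (g • l).rep_nonzero

theorem aL_mul (g h : G) (l : Projectivization (ZMod p) V) :
    aL p V (g * h) l = aL p V g (h • l) * aL p V h l := by
  refine aL_unique p V _ _ _ ?_
  rw [Units.val_mul, mul_comm, mul_smul, mul_smul g h l, aL_spec p V g (h • l), mul_smul g h,
    ← aL_spec p V h l, smul_comm g (aL p V h l : ZMod p)]

/-- The character of the lines. -/
def lineFun (tau : (ZMod p)ˣ →* ℂˣ) (g : G) : ℂ :=
  ∑ᶠ l : Projectivization (ZMod p) V, open Classical in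
    if g • l = l then ((tau (aL p V g l) : ℂˣ) : ℂ) else 0

theorem lineFun_mem [Finite G] [Finite V] (tau : (ZMod p)ˣ →* ℂˣ) :
    (lineFun p V tau : G → ℂ) ∈ MG G := by
  have h1 := cocycle_mem (G := G) (Projectivization (ZMod p) V) (fun g l => tau (aL p V g l)) (by
    intro g h l
    rw [aL_mul, map_mul])
  exact h1

/-- The number of lines in a subspace. -/
theorem card_lines [Finite V] (E : Submodule (ZMod p) V) :
    Nat.card {l : Projectivization (ZMod p) V // l.rep ∈ E} =
      ∑ i ∈ range (finrank (ZMod p) E), p ^ i := by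
  have h1 := Projectivization.card_of_finrank (ZMod p) E (n := finrank (ZMod p) E) rfl
  rw [Nat.card_zmod] at h1
  rw [← h1]
  have hinj : Function.Injective (Projectivization.map E.subtype E.injective_subtype) :=
    Projectivization.map_injective _ _
  have hmem : ∀ l : Projectivization (ZMod p) E,
      (Projectivization.map E.subtype E.injective_subtype l).rep ∈ E := by
    intro l
    have h2 : Projectivization.map E.subtype E.injective_subtype l =
        Projectivization.mk (ZMod p) (l.rep : V) (by
          intro h3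
          exact l.rep_nonzero (Subtype.ext h3)) := by
      conv_lhs => rw [← Projectivization.mk_rep l]
      rfl
    have h3 : Projectivization.mk (ZMod p) _ (Projectivization.rep_nonzero
        (Projectivization.map E.subtype E.injective_subtype l)) =
        Projectivization.mk (ZMod p) (l.rep : V) (by
          intro h3
          exact l.rep_nonzero (Subtype.ext h3)) := by
      rw [Projectivization.mk_rep, h2]
    obtain ⟨a, ha⟩ := (Projectivization.mk_eq_mk_iff _ _ _ _ _).1 h3
    rw [← ha]
    exact E.smul_mem _ l.rep.2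
  symm
  refine Nat.card_congr (Equiv.ofBijective
    (fun l : Projectivization (ZMod p) E =>
      (⟨Projectivization.map E.subtype E.injective_subtype l, hmem l⟩ :
        {l : Projectivization (ZMod p) V // l.rep ∈ E})) ⟨?_, ?_⟩)
  · intro l l' h
    exact hinj (congrArg Subtype.val h)
  · rintro ⟨l, hl⟩
    refine ⟨Projectivization.mk (ZMod p) (⟨l.rep, hl⟩ : E) (by
      intro h
      exact l.rep_nonzero (congrArg Subtype.val h)), ?_⟩
    apply Subtype.ext
    have h2 : Projectivization.map E.subtype E.injective_subtype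
        (Projectivization.mk (ZMod p) (⟨l.rep, hl⟩ : E) (by
          intro h
          exact l.rep_nonzero (congrArg Subtype.val h))) =
        Projectivization.mk (ZMod p) l.rep l.rep_nonzero := rfl
    exact h2.trans (Projectivization.mk_rep l)

theorem lineFun_gen [Finite V] (tau : (ZMod p)ˣ →* ℂˣ) (g0 y : G) (j : ℕ) (hy : y = g0 ^ j)
    (hz : Subgroup.zpowers y = Subgroup.zpowers g0) (f : Module.End (ZMod p) V)
    (hf : ∀ v, f v = g0 • v) :
    lineFun p V tau y = ∑ a : (ZMod p)ˣ,
      ((∑ i ∈ range (finrank (ZMod p) (f.eigenspace (a : ZMod p))), p ^ i : ℕ) : ℂ) *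
        ((tau a : ℂˣ) : ℂ) ^ j := by
  classical
  have : Fintype (Projectivization (ZMod p) V) := Fintype.ofFinite _
  have h1 : ∀ l : Projectivization (ZMod p) V, y • l = l ↔ g0 • l = l := by
    intro l
    have h2 : ∀ z : G, z • l = l ↔ Subgroup.zpowers z ≤ MulAction.stabilizer G l := by
      intro z
      rw [Subgroup.zpowers_le, MulAction.mem_stabilizer_iff]
    rw [h2, h2, hz]
  have h3 : ∀ l : Projectivization (ZMod p) V, g0 • l = l →
      aL p V y l = (aL p V g0 l) ^ j := by
    intro l hl
    refine aL_unique p V _ _ _ ?_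
    rw [(h1 l).2 hl, Units.val_pow_eq_pow_val, hy]
    have h4 := aL_spec p V g0 l
    rw [hl] at h4
    clear hy
    induction j with
    | zero => simp
    | succ j ih =>
      rw [pow_succ', mul_smul, ih, pow_succ, mul_smul, ← h4, smul_comm (g0 ^ j)
        (aL p V g0 l : ZMod p)]
  have h5 : ∀ (l : Projectivization (ZMod p) V) (a : (ZMod p)ˣ),
      (g0 • l = l ∧ aL p V g0 l = a) ↔ l.rep ∈ f.eigenspace (a : ZMod p) := by
    intro l a
    rw [Module.End.mem_eigenspace_iff, hf]
    constructor
    · rintro ⟨h6, h7⟩
      have h8 := aL_spec p V g0 l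
      rw [h6, h7] at h8
      exact h8.symm
    · intro h6
      have h7 : g0 • l = l := by
        conv_lhs => rw [← Projectivization.mk_rep l]
        conv_rhs => rw [← Projectivization.mk_rep l]
        rw [Projectivization.smul_mk, Projectivization.mk_eq_mk_iff]
        exact ⟨a, h6.symm⟩
      refine ⟨h7, aL_unique p V _ _ _ ?_⟩
      rw [h7, h6]
  rw [lineFun, finsum_eq_sum_of_fintype]
  have h6 : ∀ l : Projectivization (ZMod p) V,
      (if y • l = l then ((tau (aL p V y l) : ℂˣ) : ℂ) else 0) =
      ∑ a : (ZMod p)ˣ, if l.rep ∈ f.eigenspace (a : ZMod p) then ((tau a : ℂˣ) : ℂ) ^ j else 0 := by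
    intro l
    by_cases hl : g0 • l = l
    · rw [if_pos ((h1 l).2 hl), h3 l hl, map_pow, Units.val_pow_eq_pow_val]
      rw [Finset.sum_eq_single (aL p V g0 l)]
      · rw [if_pos ((h5 l _).1 ⟨hl, rfl⟩)]
      · intro b _ hb
        rw [if_neg]
        intro h7
        exact hb ((h5 l b).2 h7).2.symm
      · intro h
        exact absurd (mem_univ _) h
    · rw [if_neg (fun h => hl ((h1 l).1 h))]
      symm
      refine Finset.sum_eq_zero fun a _ => ?_
      rw [if_neg]
      intro h7
      exact hl ((h5 l a).2 h7).1
  simp only [h6]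
  rw [sum_comm]
  refine sum_congr rfl fun a _ => ?_
  rw [← sum_filter, sum_const, nsmul_eq_mul]
  congr 2
  rw [← card_lines, Nat.card_eq_fintype_card, Fintype.card_subtype]

end lines

end Pool.Agent.ARC
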