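import Pool.Agent.ARC.BKK
import Pool.Agent.ARC.BLINE

/-! # ARC, part B: Brauer's theorem for lattices -/

set_option autoImplicit false

noncomputable section

namespace Pool.Agent.ARC

open Module Finset

/-- The elements of `MG G` are class functions. -/
theorem MG_class {G : Type} [Group G] [Finite G] (f : G → ℂ) (hf : f ∈ MG G) (x g : G) :
    f (x⁻¹ * g * x) = f g := by
  have : Fintype G := Fintype.ofFinite G
  refine AddSubgroup.closure_induction (p := fun f _ => f (x⁻¹ * g * x) = f g) ?_ rfl ?_ ?_ hf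
  · rintro f ⟨H, psi, rfl⟩
    have h1 := mono_eq H psi (x⁻¹ * g * x)
    have h2 := mono_eq H psi g
    have h3 : ∑ y : G, ext H psi (y⁻¹ * (x⁻¹ * g * x) * y) = ∑ y : G, ext H psi (y⁻¹ * g * y) := by
      rw [← Equiv.sum_comp (Equiv.mulLeft x) (fun y => ext H psi (y⁻¹ * g * y))]
      refine sum_congr rfl fun y _ => ?_
      congr 1
      simp only [Equiv.coe_mulLeft]
      group
    rw [h3, h2] at h1
    have h4 : (Nat.card H : ℂ) ≠ 0 := Nat.cast_ne_zero.2 Nat.card_pos.ne'
    exact (mul_left_cancel₀ h4 h1).symm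
  · intro a b _ _ ha hb
    rw [Pi.add_apply, Pi.add_apply, ha, hb]
  · intro a _ ha
    rw [Pi.neg_apply, Pi.neg_apply, ha]

theorem exists_psi {G : Type} [Group G] (g0 : G) (a : ℂˣ) (ha : a ^ orderOf g0 = 1) :
    ∃ psi : Subgroup.zpowers g0 →* ℂˣ, ∀ j : ℕ,
      ext (Subgroup.zpowers g0) psi (g0 ^ j) = (a : ℂ) ^ j := by
  let g1 : Subgroup.zpowers g0 := ⟨g0, Subgroup.mem_zpowers g0⟩
  have h1 : ∀ x : Subgroup.zpowers g0, x ∈ Subgroup.zpowers g1 := by
    rintro ⟨x, hx⟩
    obtain ⟨k, rfl⟩ := Subgroup.mem_zpowers_iff.1 hx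
    exact Subgroup.mem_zpowers_iff.2 ⟨k, Subtype.ext (by simp [g1])⟩
  have h2 : orderOf a ∣ orderOf g1 := by
    have h3 : orderOf g1 = orderOf g0 := by
      rw [← Subgroup.orderOf_coe g1]
    rw [h3]
    exact orderOf_dvd_of_pow_eq_one ha
  refine ⟨monoidHomOfForallMemZpowers h1 h2, fun j => ?_⟩
  rw [ext_of_mem _ (Subgroup.pow_mem _ (Subgroup.mem_zpowers g0) j)]
  have h4 : (⟨g0 ^ j, Subgroup.pow_mem _ (Subgroup.mem_zpowers g0) j⟩ : Subgroup.zpowers g0) =
      g1 ^ j := Subtype.ext (by simp [g1])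
  rw [h4, map_pow, monoidHomOfForallMemZpowers_apply_gen, Units.val_pow_eq_pow_val]

theorem sum_pow_sub (p n m : ℕ) (hp : 1 ≤ p) (hn : n ∣ p - 1) :
    ∃ c : ℤ, ((∑ i ∈ range m, p ^ i : ℕ) : ℤ) - (m : ℤ) = (n : ℤ) * c ∧ (m = 0 → c = 0) := by
  have h1 : (n : ℤ) ∣ ((∑ i ∈ range m, p ^ i : ℕ) : ℤ) - (m : ℤ) := by
    have h2 : ((∑ i ∈ range m, p ^ i : ℕ) : ℤ) - (m : ℤ) = ∑ i ∈ range m, ((p : ℤ) ^ i - 1) := by
      rw [sum_sub_distrib]
      simp
    rw [h2]
    refine Finset.dvd_sum fun i _ => ?_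
    have h3 : ((p : ℤ) - 1) ∣ (p : ℤ) ^ i - 1 := by
      have := sub_dvd_pow_sub_pow (p : ℤ) 1 i
      rwa [one_pow] at this
    refine dvd_trans ?_ h3
    have h4 : ((p : ℤ) - 1) = ((p - 1 : ℕ) : ℤ) := by
      rw [Nat.cast_sub hp, Nat.cast_one]
    rw [h4]
    exact Int.natCast_dvd_natCast.2 hn
  by_cases hm : m = 0
  · refine ⟨0, ?_, fun _ => rfl⟩
    rw [hm]
    simp
  · obtain ⟨c, hc⟩ := h1
    exact ⟨c, hc, fun h => absurd h hm⟩

section main

variable {G : Type} [Group G] [Finite G] (W : Type) [AddCommGroup W] [Module.Free ℤ W]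
  [Module.Finite ℤ W] [DistribMulAction G W]

/-- The action on the lattice as a homomorphism. -/
def actHom : G →* (W →ₗ[ℤ] W) where
  toFun g := PGZ.act W g
  map_one' := by
    ext x
    simp
  map_mul' := by
    intro g h
    ext x
    simp [mul_smul]

/-- The action on the reduction modulo `p`. -/
def actP (p : ℕ) : G →* Module.End (ZMod p) (TensorProduct ℤ (ZMod p) W) where
  toFun g := (PGZ.act W g).baseChange (ZMod p)
  map_one' := by
    have h1 : PGZ.act W (1 : G) = LinearMap.id := by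
      ext x
      simp
    rw [h1]
    exact LinearMap.baseChange_id
  map_mul' := by
    intro g h
    have h1 : PGZ.act W (g * h) = PGZ.act W g ∘ₗ PGZ.act W h := by
      ext x
      simp [mul_smul]
    rw [h1, LinearMap.baseChange_comp]
    rfl

theorem act_pow (g : G) (j : ℕ) : PGZ.act W (g ^ j) = (PGZ.act W g) ^ j :=
  map_pow (actHom W) g j

/-- Brauer's theorem for lattices. -/
theorem trace_mem_MG : (fun g : G => ((LinearMap.trace ℤ W (PGZ.act W g) : ℤ) : ℂ)) ∈ MG G := by
  classical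
  have hcard : Nat.card G ≠ 0 := Nat.card_pos.ne'
  obtain ⟨p, hp, _, hmod⟩ := Nat.exists_prime_gt_modEq_one (Nat.card G) hcard
  have hpf : Fact p.Prime := ⟨hp⟩
  have hdvd : Nat.card G ∣ p - 1 := (Nat.modEq_iff_dvd' hp.one_le).1 hmod.symm
  obtain ⟨tau, htau⟩ := exists_tau_trace p
  let V := TensorProduct ℤ (ZMod p) W
  let _ : DistribMulAction G V := DistribMulAction.compHom V (actP (G := G) W p)
  have hsmul : ∀ (g : G) (v : V), g • v = (PGZ.act W g).baseChange (ZMod p) v := fun g v => rfl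
  have hcomm : SMulCommClass G (ZMod p) V := ⟨by
    intro g a v
    rw [hsmul, hsmul, map_smul]⟩
  have hfinV : Finite V := Module.finite_of_finite (ZMod p)
  have hpow : ∀ g : G, (PGZ.act W g) ^ (p - 1) = 1 := by
    intro g
    rw [← act_pow]
    obtain ⟨c, hc⟩ := hdvd
    rw [hc, pow_mul, pow_card_eq_one', one_pow]
    ext x
    simp
  -- the difference
  let D : G → ℂ := fun g => lineFun p V tau g - ((LinearMap.trace ℤ W (PGZ.act W g) : ℤ) : ℂ)
  have hlm : (lineFun p V tau : G → ℂ) ∈ MG G := lineFun_mem p V tau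
  have hD : D ∈ MC G := by
    refine mem_MC_of_local D ?_ ?_
    · intro x g
      simp only [D]
      rw [MG_class _ hlm]
      congr 2
      have h1 : PGZ.act W (x⁻¹ * g * x) = PGZ.act W x⁻¹ * (PGZ.act W g * PGZ.act W x) := by
        ext v
        simp [mul_smul]
      have h2 : PGZ.act W x * PGZ.act W x⁻¹ = 1 := by
        ext v
        simp
      rw [h1, LinearMap.trace_mul_comm, mul_assoc, h2, mul_one]
    · intro B hB
      obtain ⟨⟨g0, hg0⟩, hgen⟩ := hB.exists_generator
      have hBg : B = Subgroup.zpowers g0 := by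
        apply le_antisymm
        · intro x hx
          obtain ⟨k, hk⟩ := Subgroup.mem_zpowers_iff.1 (hgen ⟨x, hx⟩)
          exact Subgroup.mem_zpowers_iff.2 ⟨k, congrArg Subtype.val hk⟩
        · exact (Subgroup.zpowers_le).2 hg0
      subst hBg
      let f : Module.End (ZMod p) V := (PGZ.act W g0).baseChange (ZMod p)
      have hf : ∀ v, f v = g0 • v := fun v => rfl
      have hc := fun a : (ZMod p)ˣ => sum_pow_sub p (Nat.card G)
        (finrank (ZMod p) (f.eigenspace (a : ZMod p))) hp.one_le hdvd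
      choose c hc1 hc2 using hc
      have hpsi : ∀ a : (ZMod p)ˣ, ∃ psi : Subgroup.zpowers g0 →* ℂˣ,
          finrank (ZMod p) (f.eigenspace (a : ZMod p)) ≠ 0 →
          ∀ j : ℕ, ext (Subgroup.zpowers g0) psi (g0 ^ j) = ((tau a : ℂˣ) : ℂ) ^ j := by
        intro a
        by_cases ha : finrank (ZMod p) (f.eigenspace (a : ZMod p)) = 0
        · exact ⟨1, fun h => absurd ha h⟩
        · have h1 : f.eigenspace (a : ZMod p) ≠ ⊥ := by
            intro h2
            apply ha
            rw [h2]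
            exact finrank_bot _ _
          obtain ⟨v, hv, hv0⟩ := (Submodule.ne_bot_iff _).1 h1
          have h2 : ∀ j : ℕ, g0 ^ j • v = (a : ZMod p) ^ j • v := by
            intro j
            induction j with
            | zero => simp
            | succ j ih =>
              rw [pow_succ, mul_smul, ← hf, Module.End.mem_eigenspace_iff.1 hv,
                smul_comm (g0 ^ j) (a : ZMod p), ih, smul_smul, pow_succ']
          have h3 := h2 (orderOf g0)
          rw [pow_orderOf_eq_one, one_smul] at h3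
          have h4 : ((a : ZMod p) ^ orderOf g0 - 1) • v = 0 := by
            rw [sub_smul, ← h3, one_smul, sub_self]
          have h5 : a ^ orderOf g0 = 1 := by
            rcases smul_eq_zero.1 h4 with h6 | h6
            · apply Units.ext
              rw [Units.val_pow_eq_pow_val, Units.val_one]
              exact sub_eq_zero.1 h6
            · exact absurd h6 hv0
          obtain ⟨psi, hpsi⟩ := exists_psi g0 (tau a) (by rw [← map_pow, h5, map_one])
          exact ⟨psi, fun _ => hpsi⟩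
      choose psi hpsi using hpsi
      refine ⟨(ZMod p)ˣ, inferInstance, c, psi, ?_⟩
      intro y hy
      have hy1 : y ∈ Subgroup.zpowers g0 := by
        rw [← hy]
        exact Subgroup.mem_zpowers y
      obtain ⟨j, hj⟩ := (Submonoid.mem_powers_iff _ _).1 (mem_powers_iff_mem_zpowers.2 hy1)
      simp only [D]
      rw [lineFun_gen p V tau g0 y j hj.symm hy f hf, ← hj, act_pow, htau W _ (hpow g0) j,
        ← sum_sub_distrib, mul_sum]
      refine sum_congr rfl fun a _ => ?_
      change _ - (finrank (ZMod p) (f.eigenspace (a : ZMod p)) : ℂ) * _ = _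
      rw [← sub_mul]
      have h1 := congrArg (fun z : ℤ => (z : ℂ)) (hc1 a)
      simp only [Int.cast_sub, Int.cast_natCast, Int.cast_mul] at h1
      rw [h1]
      by_cases ha : finrank (ZMod p) (f.eigenspace (a : ZMod p)) = 0
      · rw [hc2 a ha]
        simp
      · rw [hpsi a ha j]
        ring
  have h1 : (fun g : G => ((LinearMap.trace ℤ W (PGZ.act W g) : ℤ) : ℂ)) =
      (lineFun p V tau : G → ℂ) - D := by
    funext g
    simp [D]
  rw [h1]
  exact sub_mem hlm (MC_le_MG hD)

/-- The elements of `MG G` are integral combinations of induced characters. -/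
theorem exists_of_mem_MG (f : G → ℂ) (hf : f ∈ MG G) :
    ∃ (J : Type) (_ : Fintype J) (H : J → Subgroup G) (psi : (j : J) → H j →* ℂˣ) (z : J → ℤ),
      ∀ g : G, f g = ∑ j, (z j : ℂ) * mono (H j) (psi j) g := by
  refine AddSubgroup.closure_induction (p := fun f _ => ∃ (J : Type) (_ : Fintype J)
    (H : J → Subgroup G) (psi : (j : J) → H j →* ℂˣ) (z : J → ℤ),
      ∀ g : G, f g = ∑ j, (z j : ℂ) * mono (H j) (psi j) g) ?_ ?_ ?_ ?_ hf
  · rintro f ⟨H, psi, rfl⟩
    exact ⟨Unit, inferInstance, fun _ => H, fun _ => psi, fun _ => 1, fun g => by simp⟩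
  · exact ⟨Empty, inferInstance, fun _ => ⊥, fun _ => 1, fun _ => 0, fun g => by simp⟩
  · rintro a b _ _ ⟨J, _, H, psi, z, h⟩ ⟨J', _, H', psi', z', h'⟩
    refine ⟨J ⊕ J', inferInstance, Sum.elim H H', fun j => ?_, Sum.elim z z', fun g => ?_⟩
    · cases j with
      | inl j => exact psi j
      | inr j => exact psi' j
    · rw [Pi.add_apply, h g, h' g, Fintype.sum_sum_type]
      rfl
  · rintro a _ ⟨J, _, H, psi, z, h⟩
    refine ⟨J, inferInstance, H, psi, fun j => -z j, fun g => ?_⟩
    rw [Pi.neg_apply, h g, ← sum_neg_distrib]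
    refine sum_congr rfl fun j _ => ?_
    rw [Int.cast_neg, neg_mul]

end main

end Pool.Agent.ARC
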