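import Pool.Agent.ARC.BART

/-! # ARC, part B: the domination criterion in explicit form -/

set_option autoImplicit false

noncomputable section

namespace Pool.Agent.ARC

open Finset

variable {G : Type} [Group G] [Finite G]

/-- The additive monoid generated by the monomial characters. -/
def PM (G : Type) [Group G] : AddSubmonoid (G → ℂ) :=
  AddSubmonoid.closure {f | ∃ (H : Subgroup G) (psi : H →* ℂˣ), f = mono H psi}

theorem zsmul_mem_PM (c : ℤ) (hc : 0 ≤ c) (f : G → ℂ) (hf : f ∈ PM G) : c • f ∈ PM G := by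
  obtain ⟨m, rfl⟩ := Int.eq_ofNat_of_zero_le hc
  rw [natCast_zsmul]
  exact nsmul_mem hf m

/-- The sum of `f` over the generators of `B`. -/
def RR [Fintype G] (B : Subgroup G) (f : G → ℂ) : ℂ :=
  open Classical in ∑ y : G, if Subgroup.zpowers y = B then f y else 0

theorem sum_RR [Fintype G] [Fintype (Subgroup G)] (f : G → ℂ) :
    ∑ y : G, f y = ∑ B : Subgroup G, RR B f := by
  classical
  simp only [RR]
  rw [sum_comm]
  refine sum_congr rfl fun x _ => ?_
  rw [sum_ite_eq]
  simp

theorem RR_congr [Fintype G] {B : Subgroup G} {f f' : G → ℂ}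
    (h : ∀ y, Subgroup.zpowers y = B → f y = f' y) : RR B f = RR B f' := by
  classical
  refine sum_congr rfl fun y _ => ?_
  split_ifs with hy
  · exact h y hy
  · rfl

/-- Ramanujan sums are integers. -/
theorem ramanujan [Fintype G] : ∀ (n : ℕ) (B : Subgroup G) (psi : B →* ℂˣ), Nat.card B = n →
    ∃ r : ℤ, RR B (fun y => ext B psi y⁻¹) = r := by
  intro n
  induction n using Nat.strong_induction_on with
  | _ n ih =>
    intro B psi hn
    classical
    have : Fintype (Subgroup G) := Fintype.ofFinite _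
    have h1 := orth B psi 1
    have h2 : ∀ z : G, ext B psi z⁻¹ * ext B 1 z = ext B psi z⁻¹ := by
      intro z
      by_cases hz : z ∈ B
      · rw [ext_of_mem 1 hz]
        simp
      · rw [ext_of_not_mem psi (fun h => hz (by
          have := B.inv_mem h
          rwa [inv_inv] at this)), zero_mul]
    simp only [h2] at h1
    rw [sum_RR, ← add_sum_erase _ _ (mem_univ B)] at h1
    have h3 : ∀ C ∈ univ.erase B, ∃ r : ℤ, RR C (fun y => ext B psi y⁻¹) = r := by
      intro C hC
      have hCB : C ≠ B := ne_of_mem_erase hC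
      by_cases hle : C ≤ B
      · have h3 : RR C (fun y => ext B psi y⁻¹) =
            RR C (fun y => ext C (psi.comp (Subgroup.inclusion hle)) y⁻¹) := by
          refine RR_congr fun y hy => ext_restrict hle psi (C.inv_mem ?_)
          rw [← hy]
          exact Subgroup.mem_zpowers y
        rw [h3]
        refine ih (Nat.card C) ?_ C _ rfl
        rw [← hn]
        refine lt_of_le_of_ne (Subgroup.card_le_of_le hle) fun h4 => hCB ?_
        exact Subgroup.eq_of_le_of_card_ge hle h4.ge
      · refine ⟨0, ?_⟩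
        have h3 : RR C (fun y => ext B psi y⁻¹) = RR C (fun _ => 0) := by
          refine RR_congr fun y hy => ext_of_not_mem psi fun hyB => hle ?_
          rw [← hy]
          refine (Subgroup.zpowers_le).2 ?_
          have := B.inv_mem hyB
          rwa [inv_inv] at this
        rw [h3]
        simp [RR]
    choose! r hr using h3
    refine ⟨(if psi = 1 then (Nat.card B : ℤ) else 0) - ∑ C ∈ univ.erase B, r C, ?_⟩
    rw [sum_congr rfl hr] at h1
    rw [Int.cast_sub, Int.cast_sum, eq_sub_iff_add_eq, h1]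
    split_ifs <;> simp

theorem ramanujan_le [Fintype G] (B : Subgroup G) (psi : B →* ℂˣ) (r : ℤ)
    (hr : RR B (fun y => ext B psi y⁻¹) = r) :
    |(r : ℝ)| ≤ (RR B (fun _ => 1)).re := by
  classical
  have h1 : |(r : ℝ)| = ‖RR B (fun y => ext B psi y⁻¹)‖ := by
    rw [hr, Complex.norm_intCast]
  rw [h1, RR, RR, Complex.re_sum]
  refine (norm_sum_le _ _).trans (sum_le_sum fun y _ => ?_)
  split_ifs
  · rw [Complex.one_re]
    exact norm_ext_le B psi _
  · simp

/-- The function `g ↦ #{x | x⁻¹ g x = y}`. -/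
def DD [Fintype G] (y g : G) : ℂ :=
  open Classical in ∑ x : G, if x⁻¹ * g * x = y then 1 else 0

theorem sum_dual_eq (C : Subgroup G) (hC : IsCyclic C) [Fintype (C →* ℂˣ)] (y : G) (hy : y ∈ C)
    (z : G) : ∑ psi : C →* ℂˣ, ext C psi y⁻¹ * ext C psi z =
      open Classical in if z = y then (Nat.card C : ℂ) else 0 := by
  classical
  by_cases hz : z ∈ C
  · have h1 := sum_ext_dual C ⊥ hC bot_le 1 (y⁻¹ * z)
    have h2 : ∀ psi : C →* ℂˣ, psi.comp (Subgroup.inclusion (bot_le : (⊥ : Subgroup G) ≤ C)) =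
        1 := by
      intro psi
      ext w
      have h3 : w = 1 := Subsingleton.elim _ _
      rw [h3]
      simp
    simp only [h2, if_true] at h1
    have h3 : Nat.card (⊥ : Subgroup G) = 1 := Subgroup.card_bot
    rw [h3, Nat.cast_one, one_mul] at h1
    have h4 : ∀ psi : C →* ℂˣ, ext C psi y⁻¹ * ext C psi z = ext C psi (y⁻¹ * z) :=
      fun psi => (ext_mul psi (C.inv_mem hy) hz).symm
    simp only [h4, h1]
    by_cases hzy : z = y
    · rw [if_pos hzy, hzy, inv_mul_cancel, ext_one, mul_one]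
    · rw [if_neg hzy, ext_of_not_mem, mul_zero]
      intro h5
      rw [Subgroup.mem_bot, inv_mul_eq_one] at h5
      exact hzy h5.symm
  · rw [if_neg (fun h : z = y => hz (by rw [h]; exact hy))]
    refine Finset.sum_eq_zero fun psi _ => ?_
    rw [ext_of_not_mem psi hz, mul_zero]

theorem DD_eq [Fintype G] (C : Subgroup G) (hC : IsCyclic C) [Fintype (C →* ℂˣ)] (y : G)
    (hy : y ∈ C) (g : G) : DD y g = ∑ psi : C →* ℂˣ, ext C psi y⁻¹ * mono C psi g := by
  classical
  have hC0 : (Nat.card C : ℂ) ≠ 0 := Nat.cast_ne_zero.2 Nat.card_pos.ne'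
  apply mul_left_cancel₀ hC0
  rw [DD, mul_sum, mul_sum]
  have h1 : ∀ psi : C →* ℂˣ, (Nat.card C : ℂ) * (ext C psi y⁻¹ * mono C psi g) =
      ∑ x : G, ext C psi y⁻¹ * ext C psi (x⁻¹ * g * x) := by
    intro psi
    rw [mul_left_comm, ← mono_eq, mul_sum]
  simp only [h1]
  rw [sum_comm]
  refine sum_congr rfl fun x _ => ?_
  rw [sum_dual_eq C hC y hy]
  split_ifs <;> simp

theorem DD_one_mem [Fintype G] : (DD (1 : G) : G → ℂ) ∈ PM G := by
  classical
  let C : Subgroup G := ⊥
  have hC : IsCyclic C := isCyclic_of_subsingleton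
  have f1 := finite_dual C hC
  have : Fintype (C →* ℂˣ) := Fintype.ofFinite _
  have h1 : (DD (1 : G) : G → ℂ) = ∑ psi : C →* ℂˣ, mono C psi := by
    funext g
    rw [DD_eq C hC 1 (one_mem _), Finset.sum_apply]
    refine sum_congr rfl fun psi _ => ?_
    rw [inv_one, ext_one, one_mul]
  rw [h1]
  exact sum_mem fun psi _ => AddSubmonoid.subset_closure ⟨C, psi, rfl⟩

/-- The contribution of the generators of `B`. -/
theorem part_mem [Fintype G] (B : Subgroup G) (t : ℤ) :
    (fun g => RR B (fun y => (t : ℂ) * DD y g + (|t| : ℤ) * DD 1 g)) ∈ PM G := by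
  classical
  by_cases hB : IsCyclic B
  · have f1 := finite_dual B hB
    have : Fintype (B →* ℂˣ) := Fintype.ofFinite _
    choose r hr using fun psi : B →* ℂˣ => ramanujan _ B psi rfl
    let m : ℕ := (univ.filter (fun y : G => Subgroup.zpowers y = B)).card
    have hm : RR B (fun _ => 1) = (m : ℂ) := by
      rw [RR, sum_boole]
    have hr' : ∀ psi, |r psi| ≤ (m : ℤ) := by
      intro psi
      have h1 := ramanujan_le B psi (r psi) (hr psi)
      rw [hm, Complex.natCast_re] at h1
      exact_mod_cast h1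
    have h1 : (fun g => RR B (fun y => (t : ℂ) * DD y g + (|t| : ℤ) * DD 1 g)) =
        ∑ psi : B →* ℂˣ, (t * r psi + |t| * m) • mono B psi := by
      funext g
      have h2 : RR B (fun y => (t : ℂ) * DD y g + (|t| : ℤ) * DD 1 g) =
          RR B (fun y => ∑ psi : B →* ℂˣ,
            ((t : ℂ) * ext B psi y⁻¹ + (|t| : ℤ)) * mono B psi g) := by
        refine RR_congr fun y hy => ?_
        have hyB : y ∈ B := by
          rw [← hy]
          exact Subgroup.mem_zpowers y
        rw [DD_eq B hB y hyB, DD_eq B hB 1 (one_mem _), mul_sum, mul_sum, ← sum_add_distrib]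
        refine sum_congr rfl fun psi _ => ?_
        rw [inv_one, ext_one]
        ring
      rw [h2, Finset.sum_apply]
      simp only [RR]
      have h3 : ∀ y : G, (if Subgroup.zpowers y = B then ∑ psi : B →* ℂˣ,
            ((t : ℂ) * ext B psi y⁻¹ + (|t| : ℤ)) * mono B psi g else 0) =
          ∑ psi : B →* ℂˣ, ((t : ℂ) * (if Subgroup.zpowers y = B then ext B psi y⁻¹ else 0) +
            (|t| : ℤ) * (if Subgroup.zpowers y = B then 1 else 0)) * mono B psi g := by
        intro y
        split_ifs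
        · refine sum_congr rfl fun psi _ => ?_
          rw [mul_one]
        · simp
      simp only [h3]
      rw [sum_comm]
      refine sum_congr rfl fun psi _ => ?_
      rw [← sum_mul, sum_add_distrib, ← mul_sum, ← mul_sum]
      have h4 := hr psi
      rw [RR] at h4
      have h5 := hm
      rw [RR] at h5
      rw [h4, h5, Pi.smul_apply, zsmul_eq_mul]
      push_cast
      ring
    rw [h1]
    refine sum_mem fun psi _ => zsmul_mem_PM _ ?_ _ (AddSubmonoid.subset_closure ⟨B, psi, rfl⟩)
    have h2 : -(t * r psi) ≤ |t| * m := by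
      calc -(t * r psi) ≤ |t * r psi| := neg_le_abs _
        _ = |t| * |r psi| := abs_mul _ _
        _ ≤ |t| * m := mul_le_mul_of_nonneg_left (hr' psi) (abs_nonneg _)
    linarith
  · have h1 : (fun g => RR B (fun y => (t : ℂ) * DD y g + (|t| : ℤ) * DD 1 g)) = 0 := by
      funext g
      rw [RR]
      refine Finset.sum_eq_zero fun y _ => ?_
      rw [if_neg]
      intro hy
      apply hB
      rw [← hy]
      exact isCyclic_zpowers' y
    rw [h1]
    exact zero_mem _

theorem heilb_mem (W : Type) [AddCommGroup W] [Module.Free ℤ W] [Module.Finite ℤ W]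
    [DistribMulAction G W]
    (hW : (∑ᶠ g : {g : G // g ≠ 1}, |LinearMap.trace ℤ W (PGZ.act W g.1)|) ≤
      LinearMap.trace ℤ W (PGZ.act W (1 : G))) :
    (fun g : G => (Nat.card G : ℂ) * ((LinearMap.trace ℤ W (PGZ.act W g) : ℤ) : ℂ)) ∈ PM G := by
  classical
  have : Fintype G := Fintype.ofFinite G
  have : Fintype (Subgroup G) := Fintype.ofFinite _
  let T : G → ℤ := fun y => LinearMap.trace ℤ W (PGZ.act W y)
  choose t ht using fun B : Subgroup G => KK_trace (G := G) W B
  have hT : ∀ y B, Subgroup.zpowers y = B → T y = t B := fun y B hy => ht B y hy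
  -- the expansion
  have h1 : ∀ g : G, (Nat.card G : ℂ) * (T g : ℂ) = ∑ y : G, (T y : ℂ) * DD y g := by
    intro g
    simp only [DD, mul_sum]
    rw [sum_comm]
    have h2 : ∀ x : G, (∑ y : G, (T y : ℂ) * (if x⁻¹ * g * x = y then 1 else 0)) = (T g : ℂ) := by
      intro x
      rw [Finset.sum_eq_single (x⁻¹ * g * x)]
      · rw [if_pos rfl, mul_one]
        simp only [T]
        rw [trace_class]
      · intro b _ hb
        rw [if_neg (Ne.symm hb), mul_zero]
      · intro h
        exact absurd (mem_univ _) h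
    simp only [h2]
    rw [sum_const, card_univ, nsmul_eq_mul, Nat.card_eq_fintype_card]
  -- the constant
  let S : ℤ := ∑ y ∈ univ.erase (1 : G), |T y|
  have hS : S ≤ T 1 := by
    have h2 : S = ∑ᶠ g : {g : G // g ≠ 1}, |LinearMap.trace ℤ W (PGZ.act W g.1)| := by
      rw [finsum_eq_sum_of_fintype]
      have h10 : (univ.erase (1 : G)) = univ.filter (fun g => g ≠ 1) := by
        ext g
        simp
      simp only [S]
      rw [h10, ← sum_subtype_eq_sum_filter]
      refine Finset.sum_congr ?_ (fun _ _ => rfl)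
      ext g
      simp
    rw [h2]
    exact hW
  have h2 : (fun g : G => (Nat.card G : ℂ) * ((LinearMap.trace ℤ W (PGZ.act W g) : ℤ) : ℂ)) =
      (T 1 - S) • (DD (1 : G) : G → ℂ) + ∑ B ∈ univ.erase (⊥ : Subgroup G),
        (fun g => RR B (fun y => (t B : ℂ) * DD y g + (|t B| : ℤ) * DD 1 g)) := by
    funext g
    rw [Pi.add_apply, Pi.smul_apply, Finset.sum_apply, zsmul_eq_mul]
    change (Nat.card G : ℂ) * (T g : ℂ) = _
    rw [h1]
    have h3 : ∀ B : Subgroup G, RR B (fun y => (t B : ℂ) * DD y g + (|t B| : ℤ) * DD 1 g) =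
        RR B (fun y => (T y : ℂ) * DD y g + (|T y| : ℤ) * DD 1 g) := by
      intro B
      refine RR_congr fun y hy => ?_
      rw [hT y B hy]
    simp only [h3]
    have h4 : ∑ B : Subgroup G, RR B (fun y => (T y : ℂ) * DD y g + (|T y| : ℤ) * DD 1 g) =
        ∑ y : G, ((T y : ℂ) * DD y g + (|T y| : ℤ) * DD 1 g) := (sum_RR _).symm
    rw [← add_sum_erase _ _ (mem_univ (⊥ : Subgroup G)), ← add_sum_erase _ _ (mem_univ (1 : G))]
      at h4
    have h5 : RR (⊥ : Subgroup G) (fun y => (T y : ℂ) * DD y g + (|T y| : ℤ) * DD 1 g) =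
        (T 1 : ℂ) * DD 1 g + (|T 1| : ℤ) * DD 1 g := by
      rw [RR, Finset.sum_eq_single (1 : G)]
      · rw [if_pos (Subgroup.zpowers_one_eq_bot)]
      · intro b _ hb
        rw [if_neg]
        intro h
        exact hb (Subgroup.zpowers_eq_bot.1 h)
      · intro h
        exact absurd (mem_univ _) h
    rw [h5] at h4
    have h6 := add_left_cancel h4
    rw [h6, sum_add_distrib, ← sum_mul, ← add_sum_erase _ _ (mem_univ (1 : G))]
    have h7 : ∑ y ∈ univ.erase (1 : G), ((|T y| : ℤ) : ℂ) = (S : ℂ) := by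
      simp only [S]
      push_cast
      rfl
    rw [h7]
    push_cast
    ring
  rw [h2]
  refine add_mem (zsmul_mem_PM _ (by linarith) _ DD_one_mem) (sum_mem fun B _ => part_mem B (t B))

theorem heilb_mono (W : Type) [AddCommGroup W] [Module.Free ℤ W] [Module.Finite ℤ W]
    [DistribMulAction G W]
    (hW : (∑ᶠ g : {g : G // g ≠ 1}, |LinearMap.trace ℤ W (PGZ.act W g.1)|) ≤
      LinearMap.trace ℤ W (PGZ.act W (1 : G))) :
    ∃ (N : ℕ) (_ : 0 < N) (J : Type) (_ : Fintype J) (H : J → Subgroup G)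
      (psi : (j : J) → H j →* ℂˣ) (a : J → ℕ),
      ∀ g : G, (N : ℂ) * ((LinearMap.trace ℤ W (PGZ.act W g) : ℤ) : ℂ) =
        ∑ j, (a j : ℂ) * mono (H j) (psi j) g := by
  refine ⟨Nat.card G, Nat.card_pos, ?_⟩
  have key : ∀ f ∈ PM G, ∃ (J : Type) (_ : Fintype J) (H : J → Subgroup G)
      (psi : (j : J) → H j →* ℂˣ) (a : J → ℕ),
      ∀ g : G, f g = ∑ j, (a j : ℂ) * mono (H j) (psi j) g := by
    intro f hf
    refine AddSubmonoid.closure_induction (motive := fun f _ => ∃ (J : Type) (_ : Fintype J)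
      (H : J → Subgroup G) (psi : (j : J) → H j →* ℂˣ) (a : J → ℕ),
      ∀ g : G, f g = ∑ j, (a j : ℂ) * mono (H j) (psi j) g) ?_ ?_ ?_ hf
    · rintro f ⟨H, psi, rfl⟩
      exact ⟨Unit, inferInstance, fun _ => H, fun _ => psi, fun _ => 1, fun g => by simp⟩
    · exact ⟨Empty, inferInstance, fun _ => ⊥, fun _ => 1, fun _ => 0, fun g => by simp⟩
    · rintro a b _ _ ⟨J, _, H, psi, z, h⟩ ⟨J', _, H', psi', z', h'⟩
      refine ⟨J ⊕ J', inferInstance, Sum.elim H H', fun j => ?_, Sum.elim z z', fun g => ?_⟩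
      · cases j with
        | inl j => exact psi j
        | inr j => exact psi' j
      · rw [Pi.add_apply, h g, h' g, Fintype.sum_sum_type]
        rfl
  exact key _ (heilb_mem W hW)

end Pool.Agent.ARC
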