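import Pool.Agent.ARC.B
import Pool.Agent.ARC.BHE

/-! # ARC, part B: the statements used by part F -/

set_option autoImplicit false

noncomputable section

namespace Pool.Agent.ARC

theorem heilb (G : Type) [Group G] [Finite G] (W : Type) [AddCommGroup W] [Module.Free ℤ W]
    [Module.Finite ℤ W] [DistribMulAction G W]
    (hW : (∑ᶠ g : {g : G // g ≠ 1}, |LinearMap.trace ℤ W (PGZ.act W g.1)|) ≤
      LinearMap.trace ℤ W (PGZ.act W (1 : G))) :
    ∃ (N : ℕ) (_ : 0 < N) (J : Type) (_ : Fintype J) (H : J → Subgroup G)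
      (psi : (j : J) → H j →* ℂˣ) (a : J → ℕ),
      ∀ g : G, (N : ℂ) * ((LinearMap.trace ℤ W (PGZ.act W g) : ℤ) : ℂ) =
        ∑ j, (a j : ℂ) * indC (H j) (fun h => (psi j h : ℂ)) g := by
  obtain ⟨N, hN, J, h1, H, psi, a, h⟩ := heilb_mono (G := G) W hW
  exact ⟨N, hN, J, h1, H, psi, a, h⟩

theorem artinQ (G : Type) [Group G] [Finite G] (W : Type) [AddCommGroup W] [Module.Free ℤ W]
    [Module.Finite ℤ W] [DistribMulAction G W] :
    ∃ (N : ℕ) (_ : 0 < N) (J : Type) (_ : Fintype J) (H : J → Subgroup G) (a : J → ℤ),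
      ∀ g : G, (N : ℂ) * ((LinearMap.trace ℤ W (PGZ.act W g) : ℤ) : ℂ) =
        ∑ j, (a j : ℂ) * PGZ.fH (H j) g :=
  artinQ_mono (G := G) W

end Pool.Agent.ARC
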