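import Pool.Agent.ARC.BDefs

/-! # ARC, part B: the functions `KK B psi` are integral combinations of induced characters -/

set_option autoImplicit false

noncomputable section

namespace Pool.Agent.ARC

open Finset

variable {G : Type} [Group G]

theorem isCyclic_zpowers' (y : G) : IsCyclic (Subgroup.zpowers y) :=
  Subgroup.isCyclic_zpowers y

theorem finsum_mem_add [Finite G] (A : AddSubgroup (G → ℂ)) (F : Subgroup G → (G → ℂ))
    (h : ∀ B, F B ∈ A) : (fun g => ∑ᶠ B, F B g) ∈ A := by
  have : Fintype (Subgroup G) := Fintype.ofFinite _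
  have h1 : (fun g => ∑ᶠ B, F B g) = ∑ B, F B := by
    funext g
    rw [finsum_eq_sum_of_fintype, Finset.sum_apply]
  rw [h1]
  exact sum_mem fun B _ => h B

/-- `KK B psi` lies in the group generated by the characters induced from cyclic subgroups. -/
theorem KK_mem [Finite G] : ∀ (n : ℕ) (B : Subgroup G) (psi : B →* ℂˣ), Nat.card B = n →
    KK B (ext B psi) ∈ MC G := by
  intro n
  induction n using Nat.strong_induction_on with
  | _ n ih =>
    intro B psi hn
    classical
    have : Fintype G := Fintype.ofFinite G
    have : Fintype (Subgroup G) := Fintype.ofFinite _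
    by_cases hB : IsCyclic B
    · have h1 : KK B (ext B psi) = (Nat.card B : ℤ) • mono B psi -
          ∑ C ∈ univ.erase B, KK C (ext B psi) := by
        funext g
        rw [Pi.sub_apply, Pi.smul_apply, Finset.sum_apply, zsmul_eq_mul]
        have h2 := mono_eq B psi g
        rw [sum_KK, finsum_eq_sum_of_fintype, ← add_sum_erase _ _ (mem_univ B)] at h2
        rw [Int.cast_natCast, ← h2]
        ring
      rw [h1]
      refine sub_mem (zsmul_mem (mono_mem_MC B psi hB) _) (sum_mem fun C hC => ?_)
      have hCB : C ≠ B := ne_of_mem_erase hC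
      by_cases hle : C ≤ B
      · have h3 : KK C (ext B psi) = KK C (ext C (psi.comp (Subgroup.inclusion hle))) := by
          refine KK_congr fun y hy => ext_restrict hle psi ?_
          rw [← hy]
          exact Subgroup.mem_zpowers y
        rw [h3]
        refine ih (Nat.card C) ?_ C _ rfl
        rw [← hn]
        refine lt_of_le_of_ne (Subgroup.card_le_of_le hle) fun h4 => hCB ?_
        exact Subgroup.eq_of_le_of_card_ge hle h4.ge
      · have h3 : KK C (ext B psi) = 0 := by
          refine KK_zero fun y hy => ext_of_not_mem psi fun hyB => hle ?_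
          rw [← hy]
          exact (Subgroup.zpowers_le).2 hyB
        rw [h3]
        exact zero_mem _
    · have h3 : KK B (ext B psi) = 0 := by
        refine KK_zero fun y hy => absurd ?_ hB
        rw [← hy]
        exact isCyclic_zpowers' y
      rw [h3]
      exact zero_mem _

/-- Artin's theorem for a linear character of a subgroup, in explicit form. -/
theorem artin_mono [Finite G] (H : Subgroup G) (psi : H →* ℂˣ) :
    (Nat.card H : ℤ) • mono H psi ∈ MC G := by
  classical
  have : Fintype G := Fintype.ofFinite G
  have h1 : (Nat.card H : ℤ) • mono H psi = fun g => ∑ᶠ B : Subgroup G, KK B (ext H psi) g := by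
    funext g
    rw [← sum_KK, mono_eq, Pi.smul_apply, zsmul_eq_mul, Int.cast_natCast]
  rw [h1]
  refine finsum_mem_add _ _ fun B => ?_
  by_cases hle : B ≤ H
  · have h3 : KK B (ext H psi) = KK B (ext B (psi.comp (Subgroup.inclusion hle))) := by
      refine KK_congr fun y hy => ext_restrict hle psi ?_
      rw [← hy]
      exact Subgroup.mem_zpowers y
    rw [h3]
    exact KK_mem _ B _ rfl
  · have h3 : KK B (ext H psi) = 0 := by
      refine KK_zero fun y hy => ext_of_not_mem psi fun hyB => hle ?_
      rw [← hy]
      exact (Subgroup.zpowers_le).2 hyB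
    rw [h3]
    exact zero_mem _

/-- A class function `D` such that for every cyclic subgroup `B` the values of `D` at the
generators of `B` are `|G|` times those of an integral combination of linear characters of `B`
is an integral combination of characters induced from cyclic subgroups. -/
theorem mem_MC_of_local [Finite G] (D : G → ℂ) (hD : ∀ x g : G, D (x⁻¹ * g * x) = D g)
    (h : ∀ B : Subgroup G, IsCyclic B → ∃ (J : Type) (_ : Fintype J) (z : J → ℤ)
      (psi : J → (B →* ℂˣ)), ∀ y, Subgroup.zpowers y = B →
        D y = (Nat.card G : ℂ) * ∑ i, (z i : ℂ) * ext B (psi i) y) :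
    D ∈ MC G := by
  classical
  have : Fintype G := Fintype.ofFinite G
  have hn : (Nat.card G : ℂ) ≠ 0 := Nat.cast_ne_zero.2 Nat.card_pos.ne'
  have h1 : ∀ B : Subgroup G, ∃ E ∈ MC G, KK B D = (Nat.card G : ℂ) • E := by
    intro B
    by_cases hB : IsCyclic B
    · obtain ⟨J, _, z, psi, hz⟩ := h B hB
      refine ⟨∑ i, z i • KK B (ext B (psi i)), sum_mem fun i _ => zsmul_mem (KK_mem _ B _ rfl) _, ?_⟩
      have h2 : KK B D = KK B ((Nat.card G : ℂ) • ∑ i, (z i : ℂ) • ext B (psi i)) := by
        refine KK_congr fun y hy => ?_
        rw [hz y hy]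
        simp [Finset.sum_apply]
      rw [h2, KK_smul]
      congr 1
      funext g
      simp only [Finset.sum_apply, Pi.smul_apply]
      simp only [KK, finsum_eq_sum_of_fintype, Finset.sum_apply, Pi.smul_apply, smul_eq_mul,
        zsmul_eq_mul, mul_sum]
      rw [sum_comm]
      refine sum_congr rfl fun x _ => ?_
      split_ifs with hx
      · rfl
      · simp
    · refine ⟨0, zero_mem _, ?_⟩
      rw [smul_zero]
      refine KK_zero fun y hy => absurd ?_ hB
      rw [← hy]
      exact isCyclic_zpowers' y
  choose E hE hKE using h1
  have h2 : D = fun g => ∑ᶠ B, E B g := by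
    funext g
    have h3 := sum_KK D g
    simp only [hD, sum_const, card_univ, nsmul_eq_mul] at h3
    have h4 : ∀ B, KK B D g = (Nat.card G : ℂ) * E B g := by
      intro B
      rw [hKE]
      rfl
    simp only [h4] at h3
    rw [Nat.card_eq_fintype_card, ← mul_finsum] at h3
    have hn' : (Fintype.card G : ℂ) ≠ 0 := by
      rwa [Nat.card_eq_fintype_card] at hn
    exact mul_left_cancel₀ hn' h3
  rw [h2]
  exact finsum_mem_add _ _ hE

end Pool.Agent.ARC
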