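import Pool.Agent.ARC.BDefs

/-! # ARC, part B: the character of a finite set with a cocycle is monomial -/

set_option autoImplicit false

noncomputable section

namespace Pool.Agent.ARC

open Finset

variable {G : Type} [Group G]

/-- The stabilizer acts through a linear character. -/
def stabHom (X : Type) [MulAction G X] (c : G → X → ℂˣ)
    (hc : ∀ g h x, c (g * h) x = c g (h • x) * c h x) (x0 : X) :
    MulAction.stabilizer G x0 →* ℂˣ where
  toFun h := c h x0
  map_one' := by
    have h1 := hc 1 1 x0
    rw [one_smul, one_mul] at h1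
    exact (mul_eq_left.1 h1.symm)
  map_mul' := by
    intro a b
    have hb : (b : G) • x0 = x0 := b.2
    rw [Subgroup.coe_mul, hc, hb]

theorem cocycle_ext (X : Type) [MulAction G X] (c : G → X → ℂˣ)
    (hc : ∀ g h x, c (g * h) x = c g (h • x) * c h x) (x0 : X) (g y : G) :
    (open Classical in if g • (y • x0) = y • x0 then ((c g (y • x0) : ℂˣ) : ℂ) else 0) =
      ext (MulAction.stabilizer G x0) (stabHom X c hc x0) (y⁻¹ * g * y) := by
  classical
  have h1 : g • (y • x0) = y • x0 ↔ y⁻¹ * g * y ∈ MulAction.stabilizer G x0 := by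
    rw [MulAction.mem_stabilizer_iff, mul_assoc, mul_smul, mul_smul, inv_smul_eq_iff]
  by_cases h2 : g • (y • x0) = y • x0
  · rw [if_pos h2, ext_of_mem _ (h1.1 h2)]
    congr 1
    change c g (y • x0) = c (y⁻¹ * g * y) x0
    have h3 : c (y * (y⁻¹ * g * y)) x0 = c (g * y) x0 := by
      congr 1
      group
    have h4 : (y⁻¹ * g * y) • x0 = x0 := h1.1 h2
    rw [hc y (y⁻¹ * g * y) x0, h4, hc g y x0] at h3
    exact mul_right_cancel (h3.symm.trans (mul_comm _ _))
  · rw [if_neg h2, ext_of_not_mem]
    exact fun h => h2 (h1.2 h)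

/-- The character of a finite `G`-set with a cocycle is a sum of induced linear characters. -/
theorem cocycle_mem [Finite G] (X : Type) [Finite X] [MulAction G X] (c : G → X → ℂˣ)
    (hc : ∀ g h x, c (g * h) x = c g (h • x) * c h x) :
    (fun g : G => ∑ᶠ x : X, open Classical in if g • x = x then ((c g x : ℂˣ) : ℂ) else 0) ∈
      MG G := by
  classical
  have : Fintype G := Fintype.ofFinite G
  have : Fintype X := Fintype.ofFinite X
  have : Fintype (MulAction.orbitRel.Quotient G X) := Fintype.ofFinite _
  have : ∀ x : X, Fintype (G ⧸ MulAction.stabilizer G x) := fun x => Fintype.ofFinite _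
  let m : (Σ ω : MulAction.orbitRel.Quotient G X, G ⧸ MulAction.stabilizer G ω.out) → X :=
    fun v => v.2.out • v.1.out
  have hm : Function.Bijective m := by
    constructor
    · rintro ⟨ω, q⟩ ⟨ω', q'⟩ h
      simp only [m] at h
      have h1 : ω = ω' := by
        have h2 : (Quotient.mk'' (q.out • ω.out) : MulAction.orbitRel.Quotient G X) =
            Quotient.mk'' (q'.out • ω'.out) := by rw [h]
        have h3 : ∀ (g : G) (x : X), (Quotient.mk'' (g • x) : MulAction.orbitRel.Quotient G X) =
            Quotient.mk'' x := by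
          intro g x
          exact Quotient.sound' (MulAction.mem_orbit x g)
        rw [h3, h3, Quotient.out_eq', Quotient.out_eq'] at h2
        exact h2
      subst h1
      have h4 : q = q' := by
        rw [← Quotient.out_eq' q, ← Quotient.out_eq' q']
        refine QuotientGroup.eq.2 ?_
        rw [MulAction.mem_stabilizer_iff, mul_smul, inv_smul_eq_iff]
        exact h.symm
      rw [h4]
    · intro x
      let ω : MulAction.orbitRel.Quotient G X := Quotient.mk'' x
      have h1 : MulAction.orbitRel G X ω.out x := Quotient.exact' (Quotient.out_eq' ω)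
      obtain ⟨g, hg⟩ := MulAction.mem_orbit_symm.1 h1
      obtain ⟨h, hh⟩ := QuotientGroup.mk_out_eq_mul (MulAction.stabilizer G ω.out) g
      refine ⟨⟨ω, (g : G ⧸ MulAction.stabilizer G ω.out)⟩, ?_⟩
      simp only [m]
      rw [hh, mul_smul]
      have h2 : (h : G) • ω.out = ω.out := h.2
      rw [h2]
      exact hg
  have h1 : (fun g : G => ∑ᶠ x : X, if g • x = x then ((c g x : ℂˣ) : ℂ) else 0) =
      ∑ ω : MulAction.orbitRel.Quotient G X,
        mono (MulAction.stabilizer G ω.out) (stabHom X c hc ω.out) := by
    funext g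
    rw [Finset.sum_apply, finsum_eq_sum_of_fintype, ← (Equiv.ofBijective m hm).sum_comp,
      Fintype.sum_sigma]
    refine sum_congr rfl fun ω _ => ?_
    rw [mono, finsum_eq_sum_of_fintype]
    refine sum_congr rfl fun q _ => ?_
    exact cocycle_ext X c hc ω.out g q.out
  rw [h1]
  exact sum_mem fun ω _ => mono_mem_MG _ _

end Pool.Agent.ARC
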