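import Mathlib

/-! # ARC, part B: comparison of the roots of unity modulo `p` and in the complex numbers -/

set_option autoImplicit false

noncomputable section

namespace Pool.Agent.ARC

open Polynomial

/-- There is a maximal ideal above `p` in the ring of algebraic integers. -/
theorem exists_max (p : ℕ) [hp : Fact p.Prime] :
    ∃ M : Ideal (integralClosure ℤ ℂ), M.IsMaximal ∧ ((p : integralClosure ℤ ℂ)) ∈ M := by
  have h1 : (Ideal.span {((p : integralClosure ℤ ℂ))}) ≠ ⊤ := by
    intro h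
    rw [Ideal.span_singleton_eq_top] at h
    obtain ⟨u, hu⟩ := h
    have h2 : (((p : ℚ)⁻¹ : ℚ) : ℂ) = ((↑u⁻¹ : integralClosure ℤ ℂ) : ℂ) := by
      have h3 : ((p : integralClosure ℤ ℂ)) * (↑u⁻¹ : integralClosure ℤ ℂ) = 1 := by
        rw [← hu, Units.mul_inv]
      have h4 := congrArg (fun z : integralClosure ℤ ℂ => (z : ℂ)) h3
      simp only [MulMemClass.coe_mul, OneMemClass.coe_one] at h4
      have hp0 : (p : ℂ) ≠ 0 := Nat.cast_ne_zero.2 hp.out.ne_zero
      have h5 : ((p : integralClosure ℤ ℂ) : ℂ) = (p : ℂ) := by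
        exact map_natCast (integralClosure ℤ ℂ).val p
      rw [h5] at h4
      rw [Rat.cast_inv, Rat.cast_natCast]
      field_simp
      rw [← h4]
    have h6 : IsIntegral ℤ ((((p : ℚ)⁻¹ : ℚ) : ℂ)) := by
      rw [h2]
      exact (↑u⁻¹ : integralClosure ℤ ℂ).2
    have h7 : IsIntegral ℤ ((p : ℚ)⁻¹) := by
      have h8 : ((((p : ℚ)⁻¹ : ℚ) : ℂ)) = algebraMap ℚ ℂ ((p : ℚ)⁻¹) := by
        rw [eq_ratCast]
      rw [h8] at h6
      exact (isIntegral_algebraMap_iff (algebraMap ℚ ℂ).injective).1 h6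
    obtain ⟨z, hz⟩ := (IsIntegrallyClosed.isIntegral_iff).1 h7
    have h9 : ((z * p : ℤ) : ℚ) = 1 := by
      rw [Int.cast_mul, Int.cast_natCast]
      have : ((z : ℤ) : ℚ) = (p : ℚ)⁻¹ := by
        rw [← hz]
        rfl
      rw [this]
      exact inv_mul_cancel₀ (Nat.cast_ne_zero.2 hp.out.ne_zero)
    have h10 : z * p = 1 := by exact_mod_cast h9
    have h11 : (p : ℤ) ∣ 1 := ⟨z, by rw [mul_comm]; exact h10.symm⟩
    have h12 : p ∣ 1 := by exact_mod_cast h11
    exact hp.out.one_lt.ne' (Nat.dvd_one.1 h12)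
  obtain ⟨M, hM, hle⟩ := Ideal.exists_le_maximal _ h1
  exact ⟨M, hM, hle (Ideal.mem_span_singleton_self _)⟩

/-- The Teichmueller character with values in the complex numbers, and the comparison of the roots
of a polynomial over `ℂ` and modulo `p`. -/
theorem exists_tau (p : ℕ) [hp : Fact p.Prime] :
    ∃ tau : (ZMod p)ˣ →* ℂˣ, ∀ P : ℤ[X], P.Monic →
      (∀ z : ℂ, z ∈ (P.map (Int.castRingHom ℂ)).roots → z ^ (p - 1) = 1) →
      ∀ (ι : Type) [Fintype ι] (e : ι → (ZMod p)ˣ),
        P.map (Int.castRingHom (ZMod p)) = ∏ i, (X - C (e i : ZMod p)) →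
        (P.map (Int.castRingHom ℂ)).roots.sum = ∑ i, ((tau (e i) : ℂˣ) : ℂ) := by
  classical
  obtain ⟨M, hM, hpM⟩ := exists_max p
  let A := integralClosure ℤ ℂ
  let _ : Field (A ⧸ M) := Ideal.Quotient.field M
  let k := A ⧸ M
  let th : A →+* k := Ideal.Quotient.mk M
  have hpk : (p : k) = 0 := by
    have h1 : th (p : A) = 0 := Ideal.Quotient.eq_zero_iff_mem.2 hpM
    rw [map_natCast] at h1
    exact h1
  have : CharP k p := (CharP.charP_iff_prime_eq_zero hp.out).2 hpk
  let io : ZMod p →+* k := ZMod.castHom (dvd_refl p) k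
  have hN : p - 1 ≠ 0 := Nat.sub_ne_zero_of_lt hp.out.one_lt
  have hNk : ((p - 1 : ℕ) : k) ≠ 0 := by
    rw [Nat.cast_sub hp.out.one_le, hpk, Nat.cast_one, zero_sub]
    exact neg_ne_zero.2 one_ne_zero
  -- a primitive root of unity
  let z0 : ℂ := Complex.exp (2 * Real.pi * Complex.I / ((p - 1 : ℕ) : ℂ))
  have hz0 : IsPrimitiveRoot z0 (p - 1) := Complex.isPrimitiveRoot_exp (p - 1) hN
  let zA : A := ⟨z0, hz0.isIntegral (Nat.pos_of_ne_zero hN)⟩
  have hzA : IsPrimitiveRoot zA (p - 1) := by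
    refine IsPrimitiveRoot.of_map_of_injective (f := A.val) ?_ Subtype.val_injective
    exact hz0
  have hthz : IsPrimitiveRoot (th zA) (p - 1) := by
    have : NeZero ((p - 1 : ℕ) : k) := ⟨hNk⟩
    rw [← Polynomial.isRoot_cyclotomic_iff]
    have h1 : (cyclotomic (p - 1) A).IsRoot zA := hzA.isRoot_cyclotomic (Nat.pos_of_ne_zero hN)
    rw [← map_cyclotomic (p - 1) th]
    exact h1.map
  -- the generator
  obtain ⟨a0, ha0⟩ := IsCyclic.exists_generator (α := (ZMod p)ˣ)
  have hord : orderOf a0 = p - 1 := by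
    rw [orderOf_eq_card_of_forall_mem_zpowers ha0, Nat.card_eq_fintype_card, ZMod.card_units p]
  have ha0k : (io (a0 : ZMod p)) ^ (p - 1) = 1 := by
    rw [← map_pow, ← Units.val_pow_eq_pow_val, ← hord, pow_orderOf_eq_one, Units.val_one, map_one]
  have : NeZero (p - 1) := ⟨hN⟩
  obtain ⟨j, _, hj⟩ := hthz.eq_pow_of_pow_eq_one ha0k
  let y0 : ℂˣ := hz0.isUnit hN |>.unit
  have hy0 : (y0 : ℂ) = z0 := rfl
  have hy1 : y0 ^ (p - 1) = 1 := by
    apply Units.ext
    rw [Units.val_pow_eq_pow_val, hy0, hz0.pow_eq_one, Units.val_one]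
  have hdvd : orderOf (y0 ^ j) ∣ orderOf a0 := by
    rw [hord]
    apply orderOf_dvd_of_pow_eq_one
    rw [← pow_mul, mul_comm, pow_mul, hy1, one_pow]
  let tau : (ZMod p)ˣ →* ℂˣ := monoidHomOfForallMemZpowers ha0 hdvd
  have htau0 : tau a0 = y0 ^ j := monoidHomOfForallMemZpowers_apply_gen ha0 hdvd
  -- the defining property
  have key : ∀ a : (ZMod p)ˣ, ∃ m : ℕ, ((tau a : ℂˣ) : ℂ) = z0 ^ m ∧
      th (zA ^ m) = io (a : ZMod p) := by
    intro a
    obtain ⟨m, hm⟩ := (Submonoid.mem_powers_iff _ _).1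
      ((mem_powers_iff_mem_zpowers).2 (ha0 a))
    refine ⟨j * m, ?_, ?_⟩
    · rw [← hm, map_pow, htau0, ← pow_mul, Units.val_pow_eq_pow_val, hy0]
    · rw [map_pow, pow_mul, hj, ← hm, Units.val_pow_eq_pow_val, map_pow]
  have uniq : ∀ (z : A) (a : (ZMod p)ˣ), z ^ (p - 1) = 1 → th z = io (a : ZMod p) →
      (z : ℂ) = ((tau a : ℂˣ) : ℂ) := by
    intro z a hz ha
    obtain ⟨m, hm1, hm2⟩ := key a
    obtain ⟨l, hlt, hl⟩ := hzA.eq_pow_of_pow_eq_one hz
    rw [← ha, ← hl, map_pow, map_pow, pow_eq_pow_mod m hthz.pow_eq_one] at hm2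
    have h2 := hthz.pow_inj (Nat.mod_lt m (Nat.pos_of_ne_zero hN)) hlt hm2
    have h3 : zA ^ m = zA ^ l := by
      rw [pow_eq_pow_mod m hzA.pow_eq_one, h2]
    rw [hm1, ← hl, ← h3]
    rfl
  refine ⟨tau, ?_⟩
  intro P hP hroots ι _ e he
  -- the roots in `A`
  let s : Multiset ℂ := (P.map (Int.castRingHom ℂ)).roots
  have hPC : P.map (Int.castRingHom ℂ) = (s.map fun z => X - C z).prod :=
    (IsAlgClosed.splits _).eq_prod_roots_of_monic (hP.map _)
  have hint : ∀ z ∈ s, z ∈ integralClosure ℤ ℂ := by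
    intro z hz
    rw [mem_integralClosure_iff]
    refine ⟨P, hP, ?_⟩
    have h1 := (mem_roots (hP.map _).ne_zero).1 hz
    rw [IsRoot.def, eval_map] at h1
    exact h1
  let t : Multiset A := s.pmap (fun z (hz : z ∈ integralClosure ℤ ℂ) => (⟨z, hz⟩ : A)) hint
  have hts : t.map (fun z : A => (z : ℂ)) = s := by
    simp only [t]
    rw [Multiset.map_pmap]
    exact (Multiset.pmap_eq_map _ (fun z => z) s hint).trans (Multiset.map_id' s)
  have hPA : P.map (Int.castRingHom A) = (t.map fun z => X - C z).prod := by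
    have hinj : Function.Injective (Polynomial.map A.val.toRingHom) :=
      Polynomial.map_injective _ Subtype.val_injective
    apply hinj
    rw [Polynomial.map_map, Polynomial.map_multiset_prod, Multiset.map_map]
    have h1 : (A.val.toRingHom.comp (Int.castRingHom A)) = Int.castRingHom ℂ :=
      RingHom.ext_int _ _
    rw [h1, hPC, ← hts, Multiset.map_map]
    congr 1
    refine Multiset.map_congr rfl fun z _ => ?_
    simp
  have hPk : P.map (Int.castRingHom k) = ((t.map th).map fun z => X - C z).prod := by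
    have h1 : (th.comp (Int.castRingHom A)) = Int.castRingHom k := RingHom.ext_int _ _
    rw [← h1, ← Polynomial.map_map, hPA, Polynomial.map_multiset_prod, Multiset.map_map,
      Multiset.map_map]
    congr 1
    refine Multiset.map_congr rfl fun z _ => ?_
    simp
  have hPk' : P.map (Int.castRingHom k) =
      (((Finset.univ.val.map fun i => io (e i : ZMod p))).map fun z => X - C z).prod := by
    have h1 : (io.comp (Int.castRingHom (ZMod p))) = Int.castRingHom k := RingHom.ext_int _ _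
    rw [← h1, ← Polynomial.map_map, he, Polynomial.map_prod, Multiset.map_map]
    change ∏ i, _ = ∏ i, _
    refine Finset.prod_congr rfl fun i _ => ?_
    simp
  have hmul : t.map th = Finset.univ.val.map fun i => io (e i : ZMod p) := by
    have h1 := congrArg Polynomial.roots (hPk.symm.trans hPk')
    rwa [roots_multiset_prod_X_sub_C, roots_multiset_prod_X_sub_C] at h1
  let F : k → ℂ := fun y => if h : ∃ a : (ZMod p)ˣ, io (a : ZMod p) = y then
    ((tau h.choose : ℂˣ) : ℂ) else 0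
  have hF : ∀ a : (ZMod p)ˣ, F (io (a : ZMod p)) = ((tau a : ℂˣ) : ℂ) := by
    intro a
    have h1 : ∃ b : (ZMod p)ˣ, io (b : ZMod p) = io (a : ZMod p) := ⟨a, rfl⟩
    have h2 : h1.choose = a := Units.ext (io.injective h1.choose_spec)
    simp only [F]
    rw [dif_pos h1, h2]
  have h3 := congrArg (fun m => (m.map F).sum) hmul
  simp only [Multiset.map_map] at h3
  have h4 : (t.map (F ∘ th)) = t.map (fun z : A => (z : ℂ)) := by
    refine Multiset.map_congr rfl fun z hz => ?_
    have h5 : th z ∈ Finset.univ.val.map fun i => io (e i : ZMod p) := by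
      rw [← hmul]
      exact Multiset.mem_map_of_mem th hz
    obtain ⟨i, _, hi⟩ := Multiset.mem_map.1 h5
    have h6 : z ^ (p - 1) = 1 := by
      apply Subtype.val_injective
      have h7 : (z : ℂ) ∈ s := by
        rw [← hts]
        exact Multiset.mem_map_of_mem (fun z : A => (z : ℂ)) hz
      exact hroots _ h7
    rw [Function.comp_apply, ← hi, hF]
    exact (uniq z (e i) h6 hi.symm).symm
  rw [h4, hts] at h3
  rw [show (P.map (Int.castRingHom ℂ)).roots = s from rfl, h3]
  change ∑ i, _ = ∑ i, _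
  refine Finset.sum_congr rfl fun i _ => ?_
  exact hF (e i)

end Pool.Agent.ARC
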