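import Pool.Agent.ARC.CSym

/-! # ARC, part C, module CNewt: Newton's identity for traces on symmetric powers -/

set_option autoImplicit false

noncomputable section

namespace Pool.Agent.ARC

open Module Finset Pool.Agent.PGZ2

open Pool.Agent.PGZ (act act_apply)

private theorem geo_der (μ : ℂ) :
    PowerSeries.X * PowerSeries.derivative ℂ (geo μ) = geo μ * (geo μ - 1) := by
  have h1 := geo_spec μ
  have h2 := congrArg (PowerSeries.derivative ℂ) h1
  rw [Derivation.leibniz, Derivation.map_one_eq_zero, map_sub, Derivation.map_one_eq_zero,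
    Derivation.leibniz] at h2
  have h3 : PowerSeries.derivative ℂ (PowerSeries.C μ) = 0 := PowerSeries.derivative_C
  rw [h3, PowerSeries.derivative_X] at h2
  simp only [smul_eq_mul, mul_zero, mul_one, add_zero, zero_sub] at h2
  -- (1 - μ X) geo' = μ geo
  have h4 : (1 - PowerSeries.C μ * PowerSeries.X) * PowerSeries.derivative ℂ (geo μ) =
      PowerSeries.C μ * geo μ := by
    linear_combination h2
  have h5 : PowerSeries.derivative ℂ (geo μ) = PowerSeries.C μ * geo μ * geo μ := by
    calc PowerSeries.derivative ℂ (geo μ)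
        = ((1 - PowerSeries.C μ * PowerSeries.X) * geo μ) * PowerSeries.derivative ℂ (geo μ) := by
          rw [h1, one_mul]
      _ = geo μ * ((1 - PowerSeries.C μ * PowerSeries.X) * PowerSeries.derivative ℂ (geo μ)) := by
          ring
      _ = PowerSeries.C μ * geo μ * geo μ := by rw [h4]; ring
  rw [h5]
  linear_combination (-geo μ) * h1

private theorem geo_prod_der {I : Type} (s : Finset I) (μ : I → ℂ) :
    PowerSeries.X * PowerSeries.derivative ℂ (∏ i ∈ s, geo (μ i)) =
      (∑ i ∈ s, (geo (μ i) - 1)) * ∏ i ∈ s, geo (μ i) := by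
  classical
  induction s using Finset.induction_on with
  | empty => simp
  | insert a s ha ih =>
    rw [prod_insert ha, sum_insert ha, Derivation.leibniz, smul_eq_mul, smul_eq_mul, mul_add,
      mul_left_comm, ih]
    have : PowerSeries.X * ((∏ i ∈ s, geo (μ i)) * PowerSeries.derivative ℂ (geo (μ a))) =
        (∏ i ∈ s, geo (μ i)) * (PowerSeries.X * PowerSeries.derivative ℂ (geo (μ a))) := by ring
    rw [this, geo_der]
    ring

/-- Newton's identity. -/
theorem newton_symTr {Λ : Type*} [AddCommGroup Λ] [Module.Free ℤ Λ] [Module.Finite ℤ Λ]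
    (φ : Λ →ₗ[ℤ] Λ) (N : ℕ) (hN : 0 < N) (h : φ ^ N = 1) (q : ℕ) :
    (q : ℤ) * symTr φ q = ∑ k ∈ Icc 1 q, LinearMap.trace ℤ Λ (φ ^ k) * symTr φ (q - k) := by
  classical
  obtain ⟨I, _, μ, h1, h2, h3, h4, htr, _, _⟩ := eig φ N hN h
  have h5 := congrArg (PowerSeries.coeff q) (geo_prod_der univ μ)
  rw [← h4] at h5
  have h6 : PowerSeries.coeff 0 (∑ i, (geo (μ i) - 1)) = 0 := by
    simp [geo]
  have h7 : PowerSeries.coeff q (PowerSeries.X * PowerSeries.derivative ℂ
      (PowerSeries.mk fun q => ((symTr φ q : ℤ) : ℂ))) = (q : ℂ) * ((symTr φ q : ℤ) : ℂ) := by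
    rcases q with _ | n
    · simp
    · rw [PowerSeries.coeff_succ_X_mul, PowerSeries.coeff_derivative]
      simp [mul_comm]
  rw [h7, PowerSeries.coeff_mul, Finset.Nat.sum_antidiagonal_eq_sum_range_succ_mk,
    Finset.sum_range_succ'] at h5
  simp only [h6, zero_mul, add_zero] at h5
  have hIcc : Icc 1 q = Ico 1 (q + 1) := by
    ext x
    rw [mem_Icc, mem_Ico]
    omega
  have h8 : (((q : ℤ) * symTr φ q : ℤ) : ℂ) =
      ((∑ k ∈ Icc 1 q, LinearMap.trace ℤ Λ (φ ^ k) * symTr φ (q - k) : ℤ) : ℂ) := by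
    push_cast
    rw [h5, hIcc, Finset.sum_Ico_eq_sum_range, Nat.add_sub_cancel]
    refine Finset.sum_congr rfl fun k _ => ?_
    have h9 : PowerSeries.coeff (k + 1) (∑ i, (geo (μ i) - 1)) = ∑ i, μ i ^ (k + 1) := by
      rw [map_sum]
      refine Finset.sum_congr rfl fun i _ => ?_
      rw [map_sub, geo, PowerSeries.coeff_mk, PowerSeries.coeff_one, if_neg (Nat.succ_ne_zero k),
        sub_zero]
    rw [h9, PowerSeries.coeff_mk, htr, add_comm 1 k]
  exact_mod_cast h8

end Pool.Agent.ARC
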