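import Pool.Agent.ARC.CBri
import Pool.Agent.ARC.CNewt

/-! # ARC, part C, module CBlow: blow-ups of surfaces, domination in all degrees

`V'` is a lattice with character `tr V + m * regular`, the second cohomology of the blow-up of a
surface in `m` closed points whose residue field is the splitting field. For `m ≥ rank V + 3`
Göttsche's formula is dominated by its value at `1` in all degrees `1 ≤ j < 2 n`. -/

set_option autoImplicit false

noncomputable section

namespace Pool.Agent.ARC

open Module Finset Pool.Agent.PGZ2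

open Pool.Agent.PGZ (act act_apply)

open Classical in
/-- Triples without middle part: at most three times as many as triples with one. -/
theorem card_conf0_le (n j : ℕ) (h1 : 1 ≤ j) (h2 : j < 2 * n) :
    (conf0 n j).card ≤ 3 * ((conf n j).filter fun x => Multiset.card x.2.1 = 1).card := by
  set Y := (conf n j).filter fun x => Multiset.card x.2.1 = 1 with hY
  let p1 : Multiset ℕ × Multiset ℕ × Multiset ℕ → Prop := fun x => ∃ m ∈ x.1, 2 ≤ m
  let p2 : Multiset ℕ × Multiset ℕ × Multiset ℕ → Prop := fun x => ∃ m ∈ x.2.2, 2 ≤ m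
  let M1 : Multiset ℕ × Multiset ℕ × Multiset ℕ → ℕ := fun x =>
    if h : ∃ m ∈ x.1, 2 ≤ m then h.choose else 0
  let M2 : Multiset ℕ × Multiset ℕ × Multiset ℕ → ℕ := fun x =>
    if h : ∃ m ∈ x.2.2, 2 ≤ m then h.choose else 0
  have hM1 : ∀ x : Multiset ℕ × Multiset ℕ × Multiset ℕ, (∃ m ∈ x.1, 2 ≤ m) →
      M1 x ∈ x.1 ∧ 2 ≤ M1 x := by
    intro x h
    simp only [M1, dif_pos h]
    exact h.choose_spec
  have hM2 : ∀ x : Multiset ℕ × Multiset ℕ × Multiset ℕ, (∃ m ∈ x.2.2, 2 ≤ m) →
      M2 x ∈ x.2.2 ∧ 2 ≤ M2 x := by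
    intro x h
    simp only [M2, dif_pos h]
    exact h.choose_spec
  have c1 : ((conf0 n j).filter p1).card ≤ Y.card := by
    refine card_le_card_of_injOn
      (fun x => (1 ::ₘ x.1.erase (M1 x), ({M1 x - 1} : Multiset ℕ), x.2.2)) ?_ ?_
    · intro x hx
      rw [mem_coe, mem_filter, mem_conf0] at hx
      obtain ⟨⟨hx, h0⟩, hm⟩ := hx
      obtain ⟨h3, h4⟩ := hM1 x hm
      rw [hY, mem_coe, mem_filter, mem_conf]
      refine ⟨⟨?_, ?_, hx.pc, ?_, ?_⟩, ?_⟩
      · intro k hk
        rcases Multiset.mem_cons.1 hk with rfl | hk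
        · exact le_rfl
        · exact hx.pa k (Multiset.mem_of_mem_erase hk)
      · intro k hk
        change k ∈ ({M1 x - 1} : Multiset ℕ) at hk
        rw [Multiset.mem_singleton] at hk
        omega
      · have h5 : M1 x + (x.1.erase (M1 x)).sum = x.1.sum := by
          rw [← Multiset.sum_cons, Multiset.cons_erase h3]
        have h6 := hx.sum
        rw [h0, Multiset.sum_zero] at h6
        simp only [Multiset.sum_cons, Multiset.sum_singleton]
        omega
      · have h5 : Multiset.card (x.1.erase (M1 x)) + 1 = Multiset.card x.1 := by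
          rw [← Multiset.card_cons, Multiset.cons_erase h3]
        have h6 := hx.deg
        simp only [Multiset.card_cons]
        omega
      · simp
    · intro x hx x' hx' he
      rw [mem_coe, mem_filter, mem_conf0] at hx hx'
      obtain ⟨⟨hx, h0⟩, hm⟩ := hx
      obtain ⟨⟨hx', h0'⟩, hm'⟩ := hx'
      obtain ⟨h3, h4⟩ := hM1 x hm
      obtain ⟨h3', h4'⟩ := hM1 x' hm'
      simp only [Prod.mk.injEq, Multiset.singleton_inj] at he
      obtain ⟨e1, e2, e3⟩ := he
      have e4 : M1 x = M1 x' := by omega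
      have e5 : x.1.erase (M1 x) = x'.1.erase (M1 x') := (Multiset.cons_inj_right _).1 e1
      have e6 : x.1 = x'.1 := by
        rw [← Multiset.cons_erase h3, ← Multiset.cons_erase h3', e5, e4]
      exact Prod.ext e6 (Prod.ext (h0.trans h0'.symm) e3)
  have c2 : ((conf0 n j).filter p2).card ≤ Y.card := by
    refine card_le_card_of_injOn
      (fun x => (x.1, ({M2 x - 1} : Multiset ℕ), 1 ::ₘ x.2.2.erase (M2 x))) ?_ ?_
    · intro x hx
      rw [mem_coe, mem_filter, mem_conf0] at hx
      obtain ⟨⟨hx, h0⟩, hm⟩ := hx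
      obtain ⟨h3, h4⟩ := hM2 x hm
      rw [hY, mem_coe, mem_filter, mem_conf]
      refine ⟨⟨hx.pa, ?_, ?_, ?_, ?_⟩, ?_⟩
      · intro k hk
        change k ∈ ({M2 x - 1} : Multiset ℕ) at hk
        rw [Multiset.mem_singleton] at hk
        omega
      · intro k hk
        change k ∈ 1 ::ₘ x.2.2.erase (M2 x) at hk
        rcases Multiset.mem_cons.1 hk with rfl | hk
        · exact le_rfl
        · exact hx.pc k (Multiset.mem_of_mem_erase hk)
      · have h5 : M2 x + (x.2.2.erase (M2 x)).sum = x.2.2.sum := by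
          rw [← Multiset.sum_cons, Multiset.cons_erase h3]
        have h6 := hx.sum
        rw [h0, Multiset.sum_zero] at h6
        simp only [Multiset.sum_cons, Multiset.sum_singleton]
        omega
      · have h5 : Multiset.card (x.2.2.erase (M2 x)) + 1 = Multiset.card x.2.2 := by
          rw [← Multiset.card_cons, Multiset.cons_erase h3]
        have h6 := hx.deg
        simp only [Multiset.card_cons]
        omega
      · simp
    · intro x hx x' hx' he
      rw [mem_coe, mem_filter, mem_conf0] at hx hx'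
      obtain ⟨⟨hx, h0⟩, hm⟩ := hx
      obtain ⟨⟨hx', h0'⟩, hm'⟩ := hx'
      obtain ⟨h3, h4⟩ := hM2 x hm
      obtain ⟨h3', h4'⟩ := hM2 x' hm'
      simp only [Prod.mk.injEq, Multiset.singleton_inj] at he
      obtain ⟨e1, e2, e3⟩ := he
      have e4 : M2 x = M2 x' := by omega
      have e5 : x.2.2.erase (M2 x) = x'.2.2.erase (M2 x') := (Multiset.cons_inj_right _).1 e3
      have e6 : x.2.2 = x'.2.2 := by
        rw [← Multiset.cons_erase h3, ← Multiset.cons_erase h3', e5, e4]
      exact Prod.ext e1 (Prod.ext (h0.trans h0'.symm) e6)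
  have hrep : ∀ s : Multiset ℕ, (∀ k ∈ s, 1 ≤ k) → (¬ ∃ m ∈ s, 2 ≤ m) →
      s = Multiset.replicate (Multiset.card s) 1 := by
    intro s h3 h4
    rw [Multiset.eq_replicate_card]
    intro k hk
    have h5 := h3 k hk
    by_contra h6
    exact h4 ⟨k, hk, by omega⟩
  have c3 : ((conf0 n j).filter fun x => ¬ p1 x ∧ ¬ p2 x).card ≤ Y.card := by
    have key : ∀ x ∈ (conf0 n j).filter (fun x => ¬ p1 x ∧ ¬ p2 x), ∃ c : ℕ, 1 ≤ c ∧ c < n ∧
        2 * c = j ∧ x = (Multiset.replicate (n - c) 1, 0, Multiset.replicate c 1) := by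
      intro x hx
      rw [mem_filter, mem_conf0] at hx
      obtain ⟨⟨hx, h0⟩, h3, h4⟩ := hx
      have h5 := hrep x.1 hx.pa h3
      have h6 := hrep x.2.2 hx.pc h4
      have h7 := hx.sum
      have h8 := hx.deg
      rw [h0, Multiset.sum_zero, h5, h6] at h7
      simp only [Multiset.sum_replicate, smul_eq_mul, mul_one] at h7
      refine ⟨Multiset.card x.2.2, by omega, by omega, by omega, ?_⟩
      have h9 : Multiset.card x.1 = n - Multiset.card x.2.2 := by omega
      rw [← h9, ← h5, ← h6, ← h0]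
    rcases Finset.eq_empty_or_nonempty ((conf0 n j).filter fun x => ¬ p1 x ∧ ¬ p2 x) with he | he
    · rw [he, card_empty]
      exact Nat.zero_le _
    · have h3 : ((conf0 n j).filter fun x => ¬ p1 x ∧ ¬ p2 x).card ≤ 1 := by
        rw [card_le_one]
        intro x hx y hy
        obtain ⟨c, _, _, e1, rfl⟩ := key x hx
        obtain ⟨c', _, _, e1', rfl⟩ := key y hy
        have : c = c' := by omega
        rw [this]
      refine h3.trans (card_pos.2 ?_)
      obtain ⟨x, hx⟩ := he
      obtain ⟨c, g1, g2, g3, _⟩ := key x hx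
      refine ⟨(Multiset.replicate (n - c - 1) 1, ({2} : Multiset ℕ),
        Multiset.replicate (c - 1) 1), ?_⟩
      rw [hY, mem_filter, mem_conf]
      refine ⟨⟨?_, ?_, ?_, ?_, ?_⟩, ?_⟩
      · intro k hk
        rw [Multiset.eq_of_mem_replicate hk]
      · intro k hk
        change k ∈ ({2} : Multiset ℕ) at hk
        rw [Multiset.mem_singleton] at hk
        omega
      · intro k hk
        rw [Multiset.eq_of_mem_replicate hk]
      · simp only [Multiset.sum_replicate, Multiset.sum_singleton, smul_eq_mul, mul_one]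
        omega
      · simp only [Multiset.card_replicate]
        omega
      · simp
  have hcov : conf0 n j ⊆ ((conf0 n j).filter p1 ∪ (conf0 n j).filter p2) ∪
      (conf0 n j).filter fun x => ¬ p1 x ∧ ¬ p2 x := by
    intro x hx
    simp only [mem_union, mem_filter, hx, true_and]
    by_cases g1 : p1 x
    · exact Or.inl (Or.inl g1)
    · by_cases g2 : p2 x
      · exact Or.inl (Or.inr g2)
      · exact Or.inr ⟨g1, g2⟩
  have h3 := card_le_card hcov
  have h4 := card_union_le ((conf0 n j).filter p1 ∪ (conf0 n j).filter p2)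
    ((conf0 n j).filter fun x => ¬ p1 x ∧ ¬ p2 x)
  have h5 := card_union_le ((conf0 n j).filter p1) ((conf0 n j).filter p2)
  omega

theorem symTr_zero {Λ : Type*} [AddCommGroup Λ] [Module.Free ℤ Λ] [Module.Finite ℤ Λ]
    (φ : Λ →ₗ[ℤ] Λ) : symTr φ 0 = 1 := by
  have hmon : φ.charpoly.Monic := φ.charpoly_monic
  set D : PowerSeries ℤ := ((φ.charpoly.reverse : Polynomial ℤ) : PowerSeries ℤ) with hD
  have hc : PowerSeries.constantCoeff D = 1 := by
    rw [hD, Polynomial.constantCoeff_coe, Polynomial.coeff_zero_reverse, hmon.leadingCoeff]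
  have hinv : D * PowerSeries.invOfUnit D 1 = 1 :=
    PowerSeries.mul_invOfUnit D 1 (by rw [hc, Units.val_one])
  have h1 := congrArg PowerSeries.constantCoeff hinv
  rw [map_mul, hc, one_mul, map_one] at h1
  rw [symTr, PowerSeries.coeff_zero_eq_constantCoeff]
  exact h1

/-- The trace of an endomorphism of finite order is at most the rank. -/
theorem abs_trace_le {Λ : Type*} [AddCommGroup Λ] [Module.Free ℤ Λ] [Module.Finite ℤ Λ]
    (φ : Λ →ₗ[ℤ] Λ) (N : ℕ) (hN : 0 < N) (h : φ ^ N = 1) (k : ℕ) :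
    |LinearMap.trace ℤ Λ (φ ^ k)| ≤ (finrank ℤ Λ : ℤ) := by
  obtain ⟨I, _, μ, h1, h2, _, _, htr, _, _⟩ := eig φ N hN h
  have h3 : ((|LinearMap.trace ℤ Λ (φ ^ k)| : ℤ) : ℝ) ≤ (finrank ℤ Λ : ℝ) := by
    rw [Int.cast_abs, ← Complex.norm_intCast, htr, ← h1]
    refine (norm_sum_le _ _).trans ?_
    simp [h2]
  exact_mod_cast h3

/-- The recursion for the identity. -/
theorem symTr_one_rec {Λ : Type*} [AddCommGroup Λ] [Module.Free ℤ Λ] [Module.Finite ℤ Λ] (q : ℕ) :
    ((q : ℤ) + 1) * symTr (1 : Λ →ₗ[ℤ] Λ) (q + 1) =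
      ((q : ℤ) + finrank ℤ Λ) * symTr (1 : Λ →ₗ[ℤ] Λ) q := by
  have h1 : ∀ q : ℕ, (q : ℤ) * symTr (1 : Λ →ₗ[ℤ] Λ) q =
      (finrank ℤ Λ : ℤ) * ∑ i ∈ range q, symTr (1 : Λ →ₗ[ℤ] Λ) i := by
    intro q
    rw [newton_symTr (1 : Λ →ₗ[ℤ] Λ) 1 one_pos (by rw [pow_one]) q]
    simp only [one_pow, LinearMap.trace_one]
    rw [← mul_sum]
    congr 1
    refine sum_bij' (fun k _ => q - k) (fun i _ => q - i) ?_ ?_ ?_ ?_ ?_
    · intro k hk
      rw [mem_Icc] at hk
      rw [mem_range]
      omega
    · intro i hi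
      rw [mem_range] at hi
      rw [mem_Icc]
      omega
    · intro k hk
      rw [mem_Icc] at hk
      omega
    · intro i hi
      rw [mem_range] at hi
      omega
    · intro k _
      rfl
  have h2 := h1 (q + 1)
  rw [sum_range_succ, mul_add, ← h1 q] at h2
  push_cast at h2
  linarith

/-- The traces on the symmetric powers of an element with small trace. -/
theorem sym_small (G : Type) [Group G] [Finite G] (V' : Type) [AddCommGroup V']
    [Module.Free ℤ V'] [Module.Finite ℤ V'] [DistribMulAction G V'] (b M : ℕ) (hb : 1 ≤ b)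
    (hrk : finrank ℤ V' = b + M) (g : G) (hg : |LinearMap.trace ℤ V' (act V' g)| ≤ (b : ℤ)) (q : ℕ)
    (hq : 1 ≤ q) :
    (M : ℤ) * |symTr (act V' g) q| ≤ (b : ℤ) * symTr (act V' (1 : G)) q := by
  have hone : act V' (1 : G) = 1 := by
    ext x
    simp
  rw [hone]
  set D : ℕ → ℤ := symTr (1 : V' →ₗ[ℤ] V') with hD
  have hD0 : D 0 = 1 := symTr_zero _
  have hDrec : ∀ q : ℕ, ((q : ℤ) + 1) * D (q + 1) = ((q : ℤ) + (b + M : ℕ)) * D q := by
    intro q
    have := symTr_one_rec (Λ := V') q
    rwa [hrk] at this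
  have hD1 : D 1 = (b : ℤ) + M := by
    have := hDrec 0
    rw [hD0] at this
    push_cast at this
    linarith
  have hDmon : ∀ q : ℕ, 0 < D q ∧ D q ≤ D (q + 1) := by
    intro q
    induction q with
    | zero =>
      rw [hD0, hD1]
      constructor
      · norm_num
      · have : (1 : ℤ) ≤ b := by exact_mod_cast hb
        have : (0 : ℤ) ≤ M := by positivity
        linarith
    | succ q ih =>
      have h1 : 0 < D (q + 1) := ih.1.trans_le ih.2
      refine ⟨h1, ?_⟩
      have h2 := hDrec (q + 1)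
      push_cast at h2
      have h3 : (1 : ℤ) ≤ b := by exact_mod_cast hb
      have h4 : (0 : ℤ) ≤ M := by positivity
      have h5 : (0 : ℤ) ≤ q := by positivity
      by_contra hcon
      push Not at hcon
      nlinarith
  have hDge : ∀ q : ℕ, 1 ≤ q → (b : ℤ) + M ≤ D q := by
    intro q hq
    induction q, hq using Nat.le_induction with
    | base => exact hD1.ge
    | succ q _ ih => exact ih.trans (hDmon q).2
  have hDsum : ∀ q : ℕ, (q : ℤ) * D q = ((b : ℤ) + M) * ∑ i ∈ range q, D i := by
    intro q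
    induction q with
    | zero => simp
    | succ q ih =>
      have h1 := hDrec q
      rw [sum_range_succ, mul_add, ← ih]
      push_cast at h1 ⊢
      linarith
  have hN : 0 < Nat.card G := Nat.card_pos
  have hord : (act V' g) ^ (Nat.card G) = 1 := by
    rw [act_pow', pow_card_eq_one', hone]
  have htr : ∀ k : ℕ, |LinearMap.trace ℤ V' (act V' g ^ k)| ≤ (b : ℤ) + M := by
    intro k
    have := abs_trace_le (act V' g) (Nat.card G) hN hord k
    rw [hrk] at this
    exact_mod_cast this
  set S : ℕ → ℤ := fun q => |symTr (act V' g) q| with hS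
  have hS0 : S 0 = 1 := by
    simp only [hS]
    rw [symTr_zero, abs_one]
  have hSn : ∀ q, 0 ≤ S q := fun q => abs_nonneg _
  have hSrec : ∀ q : ℕ, ((q : ℤ) + 1) * S (q + 1) ≤
      (b : ℤ) * S q + ((b : ℤ) + M) * ∑ i ∈ range q, S i := by
    intro q
    have h1 := newton_symTr (act V' g) (Nat.card G) hN hord (q + 1)
    have h2 : ((q : ℤ) + 1) * S (q + 1) = |((q + 1 : ℕ) : ℤ) * symTr (act V' g) (q + 1)| := by
      rw [abs_mul, Nat.abs_cast]
      push_cast
      rfl
    rw [h2, h1]
    refine (abs_sum_le_sum_abs _ _).trans ?_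
    have hIcc : Icc 1 (q + 1) = Ico 1 (q + 2) := by
      ext x
      rw [mem_Icc, mem_Ico]
      omega
    rw [hIcc, Finset.sum_Ico_eq_sum_range, show q + 2 - 1 = q + 1 from rfl, sum_range_succ']
    have h3 : ∑ k ∈ range q, |LinearMap.trace ℤ V' (act V' g ^ (1 + (k + 1))) *
        symTr (act V' g) (q + 1 - (1 + (k + 1)))| ≤ ((b : ℤ) + M) * ∑ i ∈ range q, S i := by
      rw [mul_sum]
      rw [← sum_range_reflect (fun i => ((b : ℤ) + M) * S i) q]
      refine sum_le_sum fun k hk => ?_
      rw [mem_range] at hk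
      rw [abs_mul, show q + 1 - (1 + (k + 1)) = q - 1 - k by omega]
      exact mul_le_mul_of_nonneg_right (htr _) (hSn _)
    have h4 : |LinearMap.trace ℤ V' (act V' g ^ (1 + 0)) * symTr (act V' g) (q + 1 - (1 + 0))| ≤
        (b : ℤ) * S q := by
      rw [abs_mul, show q + 1 - (1 + 0) = q by omega, show 1 + 0 = 1 from rfl, pow_one]
      exact mul_le_mul_of_nonneg_right hg (hSn _)
    linarith
  have hb' : (1 : ℤ) ≤ b := by exact_mod_cast hb
  have hM' : (0 : ℤ) ≤ M := by positivity
  have main : ∀ q : ℕ, ∀ i, 1 ≤ i → i ≤ q → (M : ℤ) * S i ≤ (b : ℤ) * D i := by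
    intro q
    induction q with
    | zero => intro i h1 h2; omega
    | succ q ih =>
      intro i h1 h2
      by_cases hi : i ≤ q
      · exact ih i h1 hi
      have hi' : i = q + 1 := by omega
      subst hi'
      rcases Nat.eq_zero_or_pos q with rfl | hq0
      · have h3 := hSrec 0
        rw [range_zero, sum_empty, hS0] at h3
        push_cast at h3
        rw [show 0 + 1 = 1 from rfl, hD1]
        have h4 : S 1 ≤ b := by linarith
        nlinarith
      · obtain ⟨r, rfl⟩ : ∃ r, q = r + 1 := ⟨q - 1, by omega⟩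
        have h3 := hSrec (r + 1)
        rw [sum_range_succ'] at h3
        rw [hS0] at h3
        have h4 : (M : ℤ) * ∑ i ∈ range r, S (i + 1) ≤ (b : ℤ) * ∑ i ∈ range r, D (i + 1) := by
          rw [mul_sum, mul_sum]
          refine sum_le_sum fun i hi => ?_
          rw [mem_range] at hi
          exact ih (i + 1) (by omega) (by omega)
        have h5 := ih (r + 1) (by omega) le_rfl
        have h6 := hDsum (r + 1 + 1)
        rw [sum_range_succ, sum_range_succ', hD0] at h6
        have h7 := hDge (r + 1) (by omega)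
        have h8 : (0 : ℤ) < ((r + 1 + 1 : ℕ) : ℤ) := by positivity
        refine le_of_mul_le_mul_left (a := ((r + 1 + 1 : ℕ) : ℤ)) ?_ h8
        have h9 : ((r + 1 + 1 : ℕ) : ℤ) * ((M : ℤ) * S (r + 1 + 1)) ≤
            (b : ℤ) * (M * S (r + 1)) + ((b : ℤ) + M) * (M * ∑ i ∈ range r, S (i + 1)) +
              ((b : ℤ) + M) * M := by
          have h10 := mul_le_mul_of_nonneg_left h3 hM'
          push_cast at h10 ⊢
          linarith
        have h10 : (b : ℤ) * (M * S (r + 1)) ≤ (b : ℤ) * ((b : ℤ) * D (r + 1)) :=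
          mul_le_mul_of_nonneg_left h5 (by linarith)
        have h11 : ((b : ℤ) + M) * (M * ∑ i ∈ range r, S (i + 1)) ≤
            ((b : ℤ) + M) * ((b : ℤ) * ∑ i ∈ range r, D (i + 1)) :=
          mul_le_mul_of_nonneg_left h4 (by linarith)
        have h12 : ((r + 1 + 1 : ℕ) : ℤ) * ((b : ℤ) * D (r + 1 + 1)) =
            (b : ℤ) * (((b : ℤ) + M) * (∑ i ∈ range r, D (i + 1) + 1 + D (r + 1))) := by
          rw [← h6]
          ring
        rw [h12]
        have h13 : ((b : ℤ) + M) * M ≤ (b : ℤ) * M * D (r + 1) := by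
          have : (0 : ℤ) ≤ (b : ℤ) * M := by positivity
          have h14 := mul_le_mul_of_nonneg_left h7 this
          have h15 : (0 : ℤ) ≤ ((b : ℤ) - 1) * (((b : ℤ) + M) * M) :=
            mul_nonneg (by linarith) (mul_nonneg (by linarith) hM')
          linarith
        nlinarith
  exact main q q hq le_rfl

theorem symTr_one_sum {Λ : Type*} [AddCommGroup Λ] [Module.Free ℤ Λ] [Module.Finite ℤ Λ] (q : ℕ) :
    (q : ℤ) * symTr (1 : Λ →ₗ[ℤ] Λ) q =
      (finrank ℤ Λ : ℤ) * ∑ i ∈ range q, symTr (1 : Λ →ₗ[ℤ] Λ) i := by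
  induction q with
  | zero => simp
  | succ q ih =>
    have h1 := symTr_one_rec (Λ := Λ) q
    rw [sum_range_succ, mul_add, ← ih]
    push_cast at h1 ⊢
    linarith

/-- The traces on the symmetric powers are at most the dimensions. -/
theorem sym_le (G : Type) [Group G] [Finite G] (V' : Type) [AddCommGroup V']
    [Module.Free ℤ V'] [Module.Finite ℤ V'] [DistribMulAction G V'] (g : G) (q : ℕ) :
    |symTr (act V' g) q| ≤ symTr (1 : V' →ₗ[ℤ] V') q := by
  have hN : 0 < Nat.card G := Nat.card_pos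
  have hord : (act V' g) ^ (Nat.card G) = 1 := by
    rw [act_pow', pow_card_eq_one']
    ext x
    simp
  induction q using Nat.strong_induction_on with
  | _ q ih =>
    rcases Nat.eq_zero_or_pos q with rfl | hq
    · rw [symTr_zero, symTr_zero, abs_one]
    · have h3 := newton_symTr (act V' g) (Nat.card G) hN hord q
      have h4 : (q : ℤ) * |symTr (act V' g) q| ≤ (q : ℤ) * symTr (1 : V' →ₗ[ℤ] V') q := by
        have h5 : (q : ℤ) * |symTr (act V' g) q| = |(q : ℤ) * symTr (act V' g) q| := by
          rw [abs_mul, Nat.abs_cast]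
        rw [h5, h3, symTr_one_sum, mul_sum]
        refine (abs_sum_le_sum_abs _ _).trans ?_
        have h6 : ∑ i ∈ range q, (finrank ℤ V' : ℤ) * symTr (1 : V' →ₗ[ℤ] V') i =
            ∑ k ∈ Icc 1 q, (finrank ℤ V' : ℤ) * symTr (1 : V' →ₗ[ℤ] V') (q - k) := by
          refine sum_bij' (fun i _ => q - i) (fun k _ => q - k) ?_ ?_ ?_ ?_ ?_
          · intro i hi
            rw [mem_range] at hi
            rw [mem_Icc]
            omega
          · intro k hk
            rw [mem_Icc] at hk
            rw [mem_range]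
            omega
          · intro i hi
            rw [mem_range] at hi
            omega
          · intro k hk
            rw [mem_Icc] at hk
            omega
          · intro i hi
            rw [mem_range] at hi
            rw [show q - (q - i) = i by omega]
        rw [h6]
        refine sum_le_sum fun k hk => ?_
        rw [mem_Icc] at hk
        rw [abs_mul]
        refine mul_le_mul ?_ (ih _ (by omega)) (abs_nonneg _) (by positivity)
        exact abs_trace_le (act V' g) (Nat.card G) hN hord k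
      exact le_of_mul_le_mul_left h4 (by exact_mod_cast hq)

/-- Domination in all degrees for the Hilbert schemes of a blow-up. -/
theorem blow_dom (G : Type) [Group G] [Finite G] (V' : Type) [AddCommGroup V']
    [Module.Free ℤ V'] [Module.Finite ℤ V'] [DistribMulAction G V'] (b M : ℕ) (hb : 1 ≤ b)
    (hrk : finrank ℤ V' = b + M) (g : G) (hg : |LinearMap.trace ℤ V' (act V' g)| ≤ (b : ℤ))
    (n j : ℕ) (h1 : 1 ≤ j) (h2 : j < 2 * n) :
    (M : ℤ) * |gott (symTr (act V' g)) n j| ≤
      ((b : ℤ) + 3) * gott (symTr (act V' (1 : G))) n j := by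
  classical
  have hone : act V' (1 : G) = 1 := by
    ext x
    simp
  have hsmall := sym_small G V' b M hb hrk g hg
  rw [hone] at hsmall ⊢
  set D : ℕ → ℤ := symTr (1 : V' →ₗ[ℤ] V') with hD
  have hD0 : D 0 = 1 := symTr_zero _
  have hDrec : ∀ q : ℕ, ((q : ℤ) + 1) * D (q + 1) = ((q : ℤ) + (b + M : ℕ)) * D q := by
    intro q
    have := symTr_one_rec (Λ := V') q
    rwa [hrk] at this
  have hD1 : D 1 = (b : ℤ) + M := by
    have := hDrec 0
    rw [hD0] at this
    push_cast at this
    linarith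
  have hb' : (1 : ℤ) ≤ b := by exact_mod_cast hb
  have hM' : (0 : ℤ) ≤ M := by positivity
  have hDpos : ∀ q : ℕ, 0 < D q := by
    intro q
    induction q with
    | zero => rw [hD0]; norm_num
    | succ q ih =>
      have h3 := hDrec q
      have h4 : (0 : ℤ) < ((q : ℤ) + (b + M : ℕ)) * D q := by
        refine mul_pos ?_ ih
        push_cast
        have : (0 : ℤ) ≤ q := by positivity
        linarith
      rw [← h3] at h4
      exact (pos_iff_pos_of_mul_pos h4).1 (by positivity)
  set s : ℕ → ℤ := symTr (act V' g) with hs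
  have hs0 : s 0 = 1 := symTr_zero _
  have hle : ∀ q, |s q| ≤ D q := sym_le G V' g
  have e0 : |gott s n j| ≤ ∑ v ∈ gIdx n j, ∏ i, |s ((v i).2.1 : ℕ)| := by
    rw [gott]
    refine (abs_sum_le_sum_abs _ _).trans (le_of_eq ?_)
    exact sum_congr rfl fun v _ => abs_prod _ _
  have e1 := sum_filter_add_sum_filter_not (gIdx n j)
    (fun v => ∑ i, ((v i).2.1 : ℕ) < 1) (fun v => ∏ i, |s ((v i).2.1 : ℕ)|)
  have hPD : ∀ v : Fin n → Fin (n + 1) × Fin (n + 1) × Fin (n + 1),
      (0 : ℤ) ≤ ∏ i, D ((v i).2.1 : ℕ) := fun v => prod_nonneg fun i _ => (hDpos _).le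
  have e2 : (M : ℤ) * ∑ v ∈ (gIdx n j).filter (fun v => ¬ ∑ i, ((v i).2.1 : ℕ) < 1),
      ∏ i, |s ((v i).2.1 : ℕ)| ≤ (b : ℤ) * gott D n j := by
    rw [mul_sum, gott, mul_sum]
    refine (sum_le_sum (g := fun v => (b : ℤ) * ∏ i, D ((v i).2.1 : ℕ)) fun v hv => ?_).trans ?_
    · rw [mem_filter, not_lt] at hv
      obtain ⟨i, _, hi⟩ : ∃ i ∈ (univ : Finset (Fin n)), ((v i).2.1 : ℕ) ≠ 0 := by
        by_contra hcon
        push Not at hcon
        have := sum_eq_zero hcon
        omega
      rw [← mul_prod_erase univ (fun i => |s ((v i).2.1 : ℕ)|) (mem_univ i),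
        ← mul_prod_erase univ (fun i => D ((v i).2.1 : ℕ)) (mem_univ i), ← mul_assoc, ← mul_assoc]
      refine mul_le_mul (hsmall _ (Nat.one_le_iff_ne_zero.2 hi)) ?_
        (prod_nonneg fun i _ => abs_nonneg _) (mul_nonneg (by linarith) (hDpos _).le)
      exact prod_le_prod (fun i _ => abs_nonneg _) fun i _ => hle _
    · exact sum_le_sum_of_subset_of_nonneg (filter_subset _ _) fun v _ _ =>
        mul_nonneg (by linarith) (hPD v)
  have e3 : (M : ℤ) * ∑ v ∈ (gIdx n j).filter (fun v => ∑ i, ((v i).2.1 : ℕ) < 1),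
      ∏ i, |s ((v i).2.1 : ℕ)| ≤ 3 * gott D n j := by
    have h3 : ∑ v ∈ (gIdx n j).filter (fun v => ∑ i, ((v i).2.1 : ℕ) < 1),
        ∏ i, |s ((v i).2.1 : ℕ)| =
        (((gIdx n j).filter (fun v => ∑ i, ((v i).2.1 : ℕ) < 1)).card : ℤ) := by
      rw [card_eq_sum_ones, Nat.cast_sum]
      refine sum_congr rfl fun v hv => ?_
      rw [mem_filter, Nat.lt_one_iff, sum_eq_zero_iff] at hv
      rw [Nat.cast_one]
      refine prod_eq_one fun i _ => ?_
      rw [hv.2 i (mem_univ i), hs0, abs_one]
    have h4 : ((gIdx n j).filter (fun v => ∑ i, ((v i).2.1 : ℕ) < 1)).card ≤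
        3 * ((gIdx n j).filter fun v => ∑ i, ((v i).2.1 : ℕ) = 1).card := by
      refine (card_gIdx_filter_le n j 1).trans ?_
      have h5 : ((conf n j).filter fun x => Multiset.card x.2.1 < 1) = conf0 n j := by
        rw [conf0]
        refine filter_congr fun x _ => ?_
        rw [Nat.lt_one_iff, Multiset.card_eq_zero]
      rw [h5]
      refine (card_conf0_le n j h1 h2).trans (Nat.mul_le_mul_left 3 ?_)
      convert card_conf_eq_le n j 1
    have h8 : ∀ v ∈ (gIdx n j).filter (fun v => ∑ i, ((v i).2.1 : ℕ) = 1),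
        (M : ℤ) ≤ ∏ i, D ((v i).2.1 : ℕ) := by
      intro v hv
      rw [mem_filter] at hv
      obtain ⟨i, _, hi⟩ : ∃ i ∈ (univ : Finset (Fin n)), ((v i).2.1 : ℕ) ≠ 0 := by
        by_contra hcon
        push Not at hcon
        have := sum_eq_zero hcon
        omega
      rw [← mul_prod_erase univ (fun i => D ((v i).2.1 : ℕ)) (mem_univ i)]
      have h6 : ((v i).2.1 : ℕ) = 1 := by
        have h10 : ((v i).2.1 : ℕ) ≤ ∑ i, ((v i).2.1 : ℕ) :=
          single_le_sum (f := fun i => ((v i).2.1 : ℕ)) (fun _ _ => Nat.zero_le _) (mem_univ i)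
        omega
      rw [h6, hD1]
      have h7 : (1 : ℤ) ≤ ∏ i ∈ univ.erase i, D ((v i).2.1 : ℕ) := by
        have : (0 : ℤ) < ∏ i ∈ univ.erase i, D ((v i).2.1 : ℕ) := prod_pos fun i _ => hDpos _
        linarith
      have h9 : (0 : ℤ) ≤ (b : ℤ) + M := by linarith
      have h10 := mul_le_mul_of_nonneg_left h7 h9
      linarith
    have h5 : (M : ℤ) * (((gIdx n j).filter fun v => ∑ i, ((v i).2.1 : ℕ) = 1).card : ℤ) ≤
        gott D n j := by
      have h11 := card_nsmul_le_sum ((gIdx n j).filter fun v => ∑ i, ((v i).2.1 : ℕ) = 1)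
        (fun v => ∏ i, D ((v i).2.1 : ℕ)) (M : ℤ) h8
      rw [nsmul_eq_mul, mul_comm] at h11
      refine h11.trans ?_
      rw [gott]
      exact sum_le_sum_of_subset_of_nonneg (filter_subset _ _) fun v _ _ => hPD v
    rw [h3]
    have h6 : (((gIdx n j).filter (fun v => ∑ i, ((v i).2.1 : ℕ) < 1)).card : ℤ) ≤
        3 * (((gIdx n j).filter fun v => ∑ i, ((v i).2.1 : ℕ) = 1).card : ℤ) := by
      exact_mod_cast h4
    have h7 := mul_le_mul_of_nonneg_left h6 hM'
    linarith
  have e4 := mul_le_mul_of_nonneg_left e0 hM'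
  rw [← e1, mul_add] at e4
  linarith

/-- Domination in all degrees for the Hilbert schemes of the blow-up of a surface in
`m ≥ b₂ + 3` closed points whose residue field is the splitting field. -/
theorem blowup (G : Type) [Group G] [Finite G] (V V' : Type) [AddCommGroup V]
    [Module.Free ℤ V] [Module.Finite ℤ V] [DistribMulAction G V] [AddCommGroup V']
    [Module.Free ℤ V'] [Module.Finite ℤ V'] [DistribMulAction G V'] (m : ℕ)
    (hV : 1 ≤ finrank ℤ V) (hm : finrank ℤ V + 3 ≤ m)
    (h1 : finrank ℤ V' = finrank ℤ V + m * Nat.card G)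
    (htr : ∀ g : G, g ≠ 1 → LinearMap.trace ℤ V' (act V' g) = LinearMap.trace ℤ V (act V g))
    (n j : ℕ) (hj1 : 1 ≤ j) (hj2 : j < 2 * n) :
    (∑ᶠ g : {g : G // g ≠ 1}, |gott (symTr (act V' g.1)) n j|) ≤
      gott (symTr (act V' (1 : G))) n j := by
  classical
  have hfin : Fintype G := Fintype.ofFinite G
  rw [finsum_eq_sum_of_fintype]
  have hc : (0 : ℤ) < (Nat.card G : ℤ) := by exact_mod_cast Nat.card_pos
  have h2 : ∀ g : {g : G // g ≠ 1}, (Nat.card G : ℤ) * |gott (symTr (act V' g.1)) n j| ≤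
      gott (symTr (act V' (1 : G))) n j := by
    intro g
    have hg : |LinearMap.trace ℤ V' (act V' g.1)| ≤ (finrank ℤ V : ℤ) := by
      rw [htr g.1 g.2]
      have hord : (act V g.1) ^ (Nat.card G) = 1 := by
        rw [act_pow', pow_card_eq_one']
        ext x
        simp
      have := abs_trace_le (act V g.1) (Nat.card G) Nat.card_pos hord 1
      rwa [pow_one] at this
    have h3 := blow_dom G V' (finrank ℤ V) (m * Nat.card G) hV h1 g.1 hg n j hj1 hj2
    have h4 : (0 : ℤ) < (finrank ℤ V : ℤ) + 3 := by positivity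
    refine le_of_mul_le_mul_left (a := (finrank ℤ V : ℤ) + 3) ?_ h4
    refine le_trans ?_ h3
    have h5 : (finrank ℤ V : ℤ) + 3 ≤ m := by exact_mod_cast hm
    have h6 : (0 : ℤ) ≤ (Nat.card G : ℤ) * |gott (symTr (act V' g.1)) n j| := by positivity
    have h7 := mul_le_mul_of_nonneg_right h5 h6
    push_cast
    linarith
  have h5 : (Nat.card G : ℤ) * ∑ g : {g : G // g ≠ 1}, |gott (symTr (act V' g.1)) n j| ≤
      (Nat.card G : ℤ) * gott (symTr (act V' (1 : G))) n j := by
    rw [mul_sum]
    refine (sum_le_card_nsmul univ _ _ fun g _ => h2 g).trans ?_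
    rw [nsmul_eq_mul]
    have h6 : 0 ≤ gott (symTr (act V' (1 : G))) n j := by
      by_cases hne : Nonempty {g : G // g ≠ 1}
      · obtain ⟨g⟩ := hne
        exact le_trans (by positivity) (h2 g)
      · have h7 : (0 : ℤ) ≤ symTr (act V' (1 : G)) 0 := by rw [symTr_zero]; norm_num
        have hone : act V' (1 : G) = 1 := by
          ext x
          simp
        have h8 : ∀ q, (0 : ℤ) ≤ symTr (act V' (1 : G)) q := by
          intro q
          rw [hone]
          induction q with
          | zero => rw [symTr_zero]; norm_num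
          | succ q ih =>
            have h9 := symTr_one_rec (Λ := V') q
            have h10 : (0 : ℤ) ≤ ((q : ℤ) + 1) * symTr (1 : V' →ₗ[ℤ] V') (q + 1) := by
              rw [h9]
              exact mul_nonneg (by positivity) ih
            exact nonneg_of_mul_nonneg_right h10 (by positivity)
        rw [gott]
        exact sum_nonneg fun v _ => prod_nonneg fun i _ => h8 _
    refine mul_le_mul_of_nonneg_right ?_ h6
    rw [card_univ, Nat.card_eq_fintype_card]
    exact_mod_cast Fintype.card_subtype_le _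
  exact le_of_mul_le_mul_left h5 hc

end Pool.Agent.ARC
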