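import Pool.Agent.ARC.CFew
import Pool.Agent.PGZ2.Defs

/-! # ARC, part C, module CBri: the index set of Göttsche's formula -/

set_option autoImplicit false

noncomputable section

namespace Pool.Agent.ARC

open Finset Pool.Agent.PGZ2

/-- The multiset with `m i` parts `i + 1`. -/
def msf {n : ℕ} (m : Fin n → ℕ) : Multiset ℕ := ∑ i : Fin n, m i • ({(i : ℕ) + 1} : Multiset ℕ)

theorem mem_msf {n : ℕ} {m : Fin n → ℕ} {k : ℕ} (h : k ∈ msf m) : 1 ≤ k := by
  rw [msf, Multiset.mem_sum] at h
  obtain ⟨i, _, h⟩ := h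
  have h1 := Multiset.mem_of_mem_nsmul h
  rw [Multiset.mem_singleton] at h1
  omega

theorem sum_msf {n : ℕ} (m : Fin n → ℕ) : (msf m).sum = ∑ i : Fin n, ((i : ℕ) + 1) * m i := by
  rw [msf, Multiset.sum_sum]
  refine sum_congr rfl fun i _ => ?_
  rw [Multiset.sum_nsmul, Multiset.sum_singleton, smul_eq_mul, mul_comm]

theorem card_msf {n : ℕ} (m : Fin n → ℕ) : Multiset.card (msf m) = ∑ i : Fin n, m i := by
  rw [msf, Multiset.card_sum]
  refine sum_congr rfl fun i _ => ?_
  rw [Multiset.card_nsmul, Multiset.card_singleton, mul_one]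

theorem count_msf {n : ℕ} (m : Fin n → ℕ) (i : Fin n) :
    Multiset.count ((i : ℕ) + 1) (msf m) = m i := by
  rw [msf, Multiset.count_sum', Finset.sum_eq_single i]
  · rw [Multiset.count_nsmul, Multiset.count_singleton_self, mul_one]
  · intro l _ hl
    rw [Multiset.count_nsmul, Multiset.count_singleton, if_neg, mul_zero]
    intro h
    exact hl (Fin.ext (by omega))
  · intro h
    exact absurd (mem_univ i) h

theorem msf_injective {n : ℕ} {m m' : Fin n → ℕ} (h : msf m = msf m') : m = m' := by
  funext i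
  rw [← count_msf m i, h, count_msf]

theorem msf_count {n : ℕ} {s : Multiset ℕ} (h1 : ∀ k ∈ s, 1 ≤ k) (h2 : s.sum ≤ n) :
    msf (fun i : Fin n => Multiset.count ((i : ℕ) + 1) s) = s := by
  ext k
  rcases Nat.eq_zero_or_pos k with rfl | hk
  · rw [Multiset.count_eq_zero_of_notMem, Multiset.count_eq_zero_of_notMem]
    · intro h
      have := h1 0 h
      omega
    · intro h
      have := mem_msf h
      omega
  · by_cases hkn : k ≤ n
    · have := count_msf (fun i : Fin n => Multiset.count ((i : ℕ) + 1) s) ⟨k - 1, by omega⟩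
      simp only at this
      rwa [show k - 1 + 1 = k by omega] at this
    · rw [Multiset.count_eq_zero_of_notMem, Multiset.count_eq_zero_of_notMem]
      · intro h
        have := Multiset.le_sum_of_mem h
        omega
      · intro h
        rw [msf, Multiset.mem_sum] at h
        obtain ⟨i, _, h⟩ := h
        have h3 := Multiset.mem_of_mem_nsmul h
        rw [Multiset.mem_singleton] at h3
        have := i.2
        omega

theorem count_le_sum {s : Multiset ℕ} (h1 : ∀ k ∈ s, 1 ≤ k) (k : ℕ) :
    Multiset.count k s ≤ s.sum :=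
  (Multiset.count_le_card k s).trans (card_le_sum_of_pos h1)

/-- The triple of partitions of an index. -/
def toConf {n : ℕ} (v : Fin n → Fin (n + 1) × Fin (n + 1) × Fin (n + 1)) :
    Multiset ℕ × Multiset ℕ × Multiset ℕ :=
  (msf fun i => ((v i).1 : ℕ), msf fun i => ((v i).2.1 : ℕ), msf fun i => ((v i).2.2 : ℕ))

theorem toConf_mem {n j : ℕ} {v : Fin n → Fin (n + 1) × Fin (n + 1) × Fin (n + 1)}
    (h : v ∈ gIdx n j) : toConf v ∈ conf n j := by
  rw [gIdx, mem_filter] at h
  obtain ⟨_, h1, h2⟩ := h
  rw [mem_conf]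
  refine ⟨fun k hk => mem_msf hk, fun k hk => mem_msf hk, fun k hk => mem_msf hk, ?_, ?_⟩
  · rw [toConf]
    simp only [sum_msf]
    refine Eq.trans ?_ h1
    rw [← sum_add_distrib, ← sum_add_distrib]
    refine sum_congr rfl fun i _ => ?_
    ring
  · rw [toConf]
    simp only [card_msf]
    have h3 : j + ∑ i, ((v i).1 : ℕ) = (∑ i : Fin n, ((i : ℕ) + 1) *
        ((v i).1 + (v i).2.1 + (v i).2.2 : ℕ)) + ∑ i, ((v i).2.2 : ℕ) := by
      rw [← h2, ← sum_add_distrib, ← sum_add_distrib]
      refine sum_congr rfl fun i _ => ?_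
      ring
    omega

theorem toConf_injective {n : ℕ} {v v' : Fin n → Fin (n + 1) × Fin (n + 1) × Fin (n + 1)}
    (h : toConf v = toConf v') : v = v' := by
  rw [toConf, toConf, Prod.mk.injEq, Prod.mk.injEq] at h
  obtain ⟨h1, h2, h3⟩ := h
  funext i
  exact Prod.ext (Fin.ext (congrFun (msf_injective h1) i))
    (Prod.ext (Fin.ext (congrFun (msf_injective h2) i)) (Fin.ext (congrFun (msf_injective h3) i)))

theorem card_gIdx_filter_le (n j B : ℕ) :
    ((gIdx n j).filter fun v => ∑ i, ((v i).2.1 : ℕ) < B).card ≤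
      ((conf n j).filter fun x => Multiset.card x.2.1 < B).card := by
  refine card_le_card_of_injOn toConf ?_ ?_
  · intro v hv
    rw [mem_coe, mem_filter] at hv
    rw [mem_coe, mem_filter]
    refine ⟨toConf_mem hv.1, ?_⟩
    rw [toConf]
    simp only [card_msf]
    exact hv.2
  · intro v _ v' _ h
    exact toConf_injective h

open Classical in
theorem conf_subset (n j : ℕ) : conf n j ⊆ (gIdx n j).image toConf := by
    rintro ⟨a, b, c⟩ hx
    rw [mem_conf] at hx
    have h2 := hx.sum
    simp only at h2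
    have ha := count_le_sum hx.pa
    have hb := count_le_sum hx.pb
    have hc := count_le_sum hx.pc
    simp only at ha hb hc
    have e1 := msf_count (n := n) hx.pa (by simp only; omega)
    have e2 := msf_count (n := n) hx.pb (by simp only; omega)
    have e3 := msf_count (n := n) hx.pc (by simp only; omega)
    simp only at e1 e2 e3
    let v : Fin n → Fin (n + 1) × Fin (n + 1) × Fin (n + 1) := fun i =>
      (⟨Multiset.count ((i : ℕ) + 1) a, by have := ha ((i : ℕ) + 1); omega⟩,
        ⟨Multiset.count ((i : ℕ) + 1) b, by have := hb ((i : ℕ) + 1); omega⟩,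
        ⟨Multiset.count ((i : ℕ) + 1) c, by have := hc ((i : ℕ) + 1); omega⟩)
    have hv : toConf v = (a, b, c) := by
      rw [toConf]
      exact Prod.ext e1 (Prod.ext e2 e3)
    rw [mem_image]
    refine ⟨v, ?_, hv⟩
    rw [gIdx, mem_filter]
    refine ⟨mem_univ _, ?_, ?_⟩
    · have f1 := sum_msf fun i : Fin n => Multiset.count ((i : ℕ) + 1) a
      have f2 := sum_msf fun i : Fin n => Multiset.count ((i : ℕ) + 1) b
      have f3 := sum_msf fun i : Fin n => Multiset.count ((i : ℕ) + 1) c
      rw [e1] at f1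
      rw [e2] at f2
      rw [e3] at f3
      rw [f1, f2, f3, ← sum_add_distrib, ← sum_add_distrib] at h2
      refine Eq.trans ?_ h2
      refine sum_congr rfl fun i _ => ?_
      simp only [v]
      ring
    · have f1 := sum_msf fun i : Fin n => Multiset.count ((i : ℕ) + 1) a
      have f2 := sum_msf fun i : Fin n => Multiset.count ((i : ℕ) + 1) b
      have f3 := sum_msf fun i : Fin n => Multiset.count ((i : ℕ) + 1) c
      have g1 := card_msf fun i : Fin n => Multiset.count ((i : ℕ) + 1) a
      have g3 := card_msf fun i : Fin n => Multiset.count ((i : ℕ) + 1) c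
      rw [e1] at f1 g1
      rw [e2] at f2
      rw [e3] at f3 g3
      have h3 := hx.deg
      simp only at h3
      have h4 : ∑ i : Fin n, ((i : ℕ) * (v i).1 + ((i : ℕ) + 1) * (v i).2.1 +
          ((i : ℕ) + 2) * (v i).2.2 : ℕ) + ∑ i : Fin n, Multiset.count ((i : ℕ) + 1) a =
          (∑ i : Fin n, ((i : ℕ) + 1) * Multiset.count ((i : ℕ) + 1) a +
          ∑ i : Fin n, ((i : ℕ) + 1) * Multiset.count ((i : ℕ) + 1) b +
          ∑ i : Fin n, ((i : ℕ) + 1) * Multiset.count ((i : ℕ) + 1) c) +
          ∑ i : Fin n, Multiset.count ((i : ℕ) + 1) c := by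
        rw [← sum_add_distrib, ← sum_add_distrib, ← sum_add_distrib, ← sum_add_distrib]
        refine sum_congr rfl fun i _ => ?_
        simp only [v]
        ring
      omega

theorem card_conf_le (n j : ℕ) : (conf n j).card ≤ (gIdx n j).card := by
  classical
  exact (card_le_card (conf_subset n j)).trans card_image_le

theorem card_conf_eq_le (n j r : ℕ) :
    ((conf n j).filter fun x => Multiset.card x.2.1 = r).card ≤
      ((gIdx n j).filter fun v => ∑ i, ((v i).2.1 : ℕ) = r).card := by
  classical
  have h1 : ((conf n j).filter fun x => Multiset.card x.2.1 = r) ⊆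
      ((gIdx n j).filter fun v => ∑ i, ((v i).2.1 : ℕ) = r).image toConf := by
    intro x hx
    rw [mem_filter] at hx
    obtain ⟨v, hv, rfl⟩ := mem_image.1 (conf_subset n j hx.1)
    refine mem_image.2 ⟨v, mem_filter.2 ⟨hv, ?_⟩, rfl⟩
    have h2 := hx.2
    rw [toConf] at h2
    simp only [card_msf] at h2
    exact h2
  exact (card_le_card h1).trans card_image_le

end Pool.Agent.ARC
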