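import Pool.Agent.ARC.CEig

/-! # ARC, part C, module CSym: bounds for the traces on symmetric powers -/

set_option autoImplicit false

noncomputable section

namespace Pool.Agent.ARC

open Module Finset Pool.Agent.PGZ2

open Pool.Agent.PGZ (act act_apply)

/-- The coefficients of `F` bound those of `f`. -/
def Maj (f : PowerSeries ℂ) (F : PowerSeries ℝ) : Prop :=
  ∀ q, ‖PowerSeries.coeff q f‖ ≤ PowerSeries.coeff q F

theorem Maj.mul {f g : PowerSeries ℂ} {F G : PowerSeries ℝ} (hf : Maj f F) (hg : Maj g G) :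
    Maj (f * g) (F * G) := by
  intro q
  rw [PowerSeries.coeff_mul, PowerSeries.coeff_mul]
  refine (norm_sum_le _ _).trans (sum_le_sum fun x _ => ?_)
  rw [norm_mul]
  exact mul_le_mul (hf _) (hg _) (norm_nonneg _) ((norm_nonneg _).trans (hf _))

/-- The series `∑ X ^ k`. -/
def U1 : PowerSeries ℝ := PowerSeries.mk 1

theorem maj_geo {μ : ℂ} (h : ‖μ‖ = 1) : Maj (geo μ) U1 := by
  intro q
  rw [geo, U1, PowerSeries.coeff_mk, PowerSeries.coeff_mk, norm_pow, h, one_pow, Pi.one_apply]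

theorem maj_prod {I : Type} (s : Finset I) {μ : I → ℂ} (h : ∀ i, ‖μ i‖ = 1) :
    Maj (∏ i ∈ s, geo (μ i)) (U1 ^ s.card) := by
  classical
  induction s using Finset.induction_on with
  | empty =>
    intro q
    rw [prod_empty, card_empty, pow_zero, PowerSeries.coeff_one, PowerSeries.coeff_one]
    split_ifs <;> simp
  | insert a s ha ih =>
    rw [prod_insert ha, card_insert_of_notMem ha, pow_succ']
    exact (maj_geo (h a)).mul ih

theorem coeff_U1_pow (d q : ℕ) :
    PowerSeries.coeff q (U1 ^ (d + 1)) = (Nat.choose (d + q) d : ℝ) := by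
  rw [U1, PowerSeries.mk_one_pow_eq_mk_choose_add, PowerSeries.coeff_mk]

theorem coeff_U1_pow_nonneg (d q : ℕ) : 0 ≤ PowerSeries.coeff q (U1 ^ d) := by
  rcases d with _ | d
  · rw [pow_zero, PowerSeries.coeff_one]
    split_ifs <;> norm_num
  · rw [coeff_U1_pow]
    positivity

theorem coeff_geo_mul (l : ℂ) (q : ℕ) :
    PowerSeries.coeff q (geo 1 * geo l) = ∑ i ∈ range (q + 1), l ^ i := by
  rw [mul_comm, PowerSeries.coeff_mul, Finset.Nat.sum_antidiagonal_eq_sum_range_succ_mk]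
  refine sum_congr rfl fun i _ => ?_
  simp [geo]

theorem norm_geo_le {l : ℂ} (h1 : ‖l‖ = 1) (q : ℕ) :
    ‖∑ i ∈ range (q + 1), l ^ i‖ ≤ (q : ℝ) + 1 := by
  refine (norm_sum_le _ _).trans ?_
  simp [h1]

theorem norm_geo_lt {l : ℂ} (h1 : ‖l‖ = 1) (h2 : l ≠ 1) {q : ℕ} (hq : 1 ≤ q) :
    ‖∑ i ∈ range (q + 1), l ^ i‖ < (q : ℝ) + 1 := by
  have h3 : ‖1 + l‖ < 2 := by
    have h4 : ‖(1 : ℂ) + l‖ < ‖(1 : ℂ)‖ + ‖l‖ := by
      refine norm_add_lt_of_not_sameRay fun h => h2 ?_
      exact (SameRay.eq_of_norm_eq h (by rw [h1, norm_one])).symm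
    rw [h1, norm_one] at h4
    linarith
  obtain ⟨r, rfl⟩ := Nat.exists_eq_add_of_le hq
  rw [show 1 + r + 1 = 2 + r by ring, sum_range_add]
  refine (norm_add_le _ _).trans_lt ?_
  have h5 : ‖∑ i ∈ range r, l ^ (2 + i)‖ ≤ r := by
    refine (norm_sum_le _ _).trans ?_
    simp [h1]
  have h6 : ∑ i ∈ range 2, l ^ i = 1 + l := by
    rw [sum_range_succ, sum_range_one, pow_zero, pow_one]
  rw [h6]
  push_cast
  linarith

theorem norm_geo_bdd {l : ℂ} (h1 : ‖l‖ = 1) (h2 : l ≠ 1) :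
    ∃ C : ℝ, ∀ q : ℕ, ‖∑ i ∈ range (q + 1), l ^ i‖ ≤ C := by
  refine ⟨2 / ‖l - 1‖, fun q => ?_⟩
  have h3 : l - 1 ≠ 0 := sub_ne_zero.2 h2
  rw [geom_sum_eq h2, norm_div]
  refine div_le_div_of_nonneg_right ?_ (norm_nonneg _)
  refine (norm_sub_le _ _).trans ?_
  rw [norm_pow, h1, one_pow, norm_one]
  norm_num

theorem act_pow' {G : Type*} [Group G] {Λ : Type*} [AddCommGroup Λ]
    [DistribMulAction G Λ] (g : G) (n : ℕ) : (act Λ g) ^ n = act Λ (g ^ n) := by
  induction n with
  | zero =>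
    ext x
    simp
  | succ n ih =>
    ext x
    rw [pow_succ', ih, Module.End.mul_apply, act_apply, act_apply, act_apply, smul_smul, pow_succ']

/-- The traces on the symmetric powers. -/
theorem sym_bound (G : Type) [Group G] [Finite G] (V : Type) [AddCommGroup V] [Module.Free ℤ V]
    [Module.Finite ℤ V] [DistribMulAction G V] (h0 : ∃ v : V, v ≠ 0 ∧ ∀ g : G, g • v = v) :
    ∃ D : ℕ → ℕ, D 0 = 1 ∧ Monotone D ∧ (∀ q, symTr (act V (1 : G)) q = (D q : ℤ)) ∧
      (∀ (g : G) (q : ℕ), |symTr (act V g) q| ≤ (D q : ℤ)) ∧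
      ∀ g : G, (∃ v : V, g • v ≠ v) →
        (∀ q, 1 ≤ q → |symTr (act V g) q| < (D q : ℤ)) ∧
        ∀ K : ℕ, ∃ Q : ℕ, ∀ q, Q ≤ q → (K : ℤ) * |symTr (act V g) q| ≤ (D q : ℤ) := by
  classical
  obtain ⟨v0, hv0, hfix⟩ := h0
  have hb : 0 < finrank ℤ V := by
    rw [Module.finrank_pos_iff_exists_ne_zero]
    exact ⟨v0, hv0⟩
  obtain ⟨d, hd⟩ : ∃ d, finrank ℤ V = d + 1 := ⟨finrank ℤ V - 1, by omega⟩
  have hcast : ∀ (g : G) (q : ℕ), ((|symTr (act V g) q| : ℤ) : ℝ) =
      ‖PowerSeries.coeff q (PowerSeries.mk fun q => ((symTr (act V g) q : ℤ) : ℂ))‖ := by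
    intro g q
    rw [PowerSeries.coeff_mk, Complex.norm_intCast, Int.cast_abs]
  have hN : 0 < Nat.card G := Nat.card_pos
  have hord : ∀ g : G, (act V g) ^ (Nat.card G) = 1 := by
    intro g
    rw [act_pow', pow_card_eq_one']
    ext x
    simp
  refine ⟨fun q => Nat.choose (d + q) d, ?_, ?_, ?_, ?_, ?_⟩
  · simp
  · intro a b hab
    exact Nat.choose_le_choose d (by omega)
  · intro q
    obtain ⟨I, _, μ, h1, _, h3, h4, _, _, _⟩ := eig (act V (1 : G)) 1 one_pos (by
      rw [pow_one]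
      ext x
      simp)
    have h5 : ∀ i, μ i = 1 := fun i => by
      have := h3 i
      rwa [pow_one] at this
    have h6 := congrArg (PowerSeries.coeff q) h4
    rw [PowerSeries.coeff_mk] at h6
    have h7 : ∏ i, geo (μ i) = (PowerSeries.mk 1) ^ (d + 1) := by
      rw [← hd, ← h1, ← card_univ, ← prod_const]
      refine prod_congr rfl fun i _ => ?_
      ext n
      simp [geo, h5 i]
    rw [h7, PowerSeries.mk_one_pow_eq_mk_choose_add, PowerSeries.coeff_mk] at h6
    exact_mod_cast h6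
  · intro g q
    obtain ⟨I, _, μ, h1, h2, _, h4, _, _, _⟩ := eig (act V g) (Nat.card G) hN (hord g)
    have h5 := maj_prod univ h2 q
    rw [card_univ, h1, hd, coeff_U1_pow, ← h4, ← hcast] at h5
    exact_mod_cast h5
  · intro g hg
    obtain ⟨I, _, μ, h1, h2, _, h4, _, h5, h6⟩ := eig (act V g) (Nat.card G) hN (hord g)
    obtain ⟨i0, hi0⟩ := h5 ⟨v0, hv0, by rw [act_apply]; exact hfix g⟩
    have h7 : ∃ i1, μ i1 ≠ 1 := by
      by_contra hcon
      push Not at hcon
      obtain ⟨v, hv⟩ := hg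
      apply hv
      have := LinearMap.congr_fun (h6 hcon) v
      rwa [act_apply, Module.End.one_apply] at this
    obtain ⟨i1, hi1⟩ := h7
    have hne : i1 ≠ i0 := fun h => hi1 (by rw [h, hi0])
    set S : Finset I := (univ.erase i0).erase i1 with hS
    have hScard : S.card + 2 = d + 1 := by
      rw [hS, card_erase_of_mem (mem_erase.2 ⟨hne, mem_univ _⟩), card_erase_of_mem (mem_univ _),
        card_univ, h1, hd]
      have : 2 ≤ d + 1 := by
        rw [← hd, ← h1]
        exact (Fintype.one_lt_card_iff.2 ⟨i1, i0, hne⟩)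
      omega
    have hprod : ∏ i, geo (μ i) = (geo 1 * geo (μ i1)) * ∏ i ∈ S, geo (μ i) := by
      rw [← mul_prod_erase univ _ (mem_univ i0), ← mul_prod_erase (univ.erase i0) _
        (mem_erase.2 ⟨hne, mem_univ i1⟩), hi0]
      ring
    have hbound : ∀ q : ℕ, ((|symTr (act V g) q| : ℤ) : ℝ) ≤ ∑ x ∈ antidiagonal q,
        ‖∑ i ∈ range (x.1 + 1), μ i1 ^ i‖ * PowerSeries.coeff x.2 (U1 ^ S.card) := by
      intro q
      rw [hcast, h4, hprod, PowerSeries.coeff_mul]
      refine (norm_sum_le _ _).trans (sum_le_sum fun x _ => ?_)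
      rw [norm_mul, coeff_geo_mul]
      exact mul_le_mul_of_nonneg_left (maj_prod S h2 _) (norm_nonneg _)
    have hD : ∀ q : ℕ, ((Nat.choose (d + q) d : ℕ) : ℝ) = ∑ x ∈ antidiagonal q,
        ((x.1 : ℝ) + 1) * PowerSeries.coeff x.2 (U1 ^ S.card) := by
      intro q
      rw [← coeff_U1_pow, ← hScard, pow_add, mul_comm, PowerSeries.coeff_mul]
      refine sum_congr rfl fun x _ => ?_
      rw [show (2 : ℕ) = 1 + 1 from rfl, coeff_U1_pow]
      simp [add_comm]
    constructor
    · intro q hq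
      have h8 : ((|symTr (act V g) q| : ℤ) : ℝ) < ((Nat.choose (d + q) d : ℕ) : ℝ) := by
        refine (hbound q).trans_lt ?_
        rw [hD q]
        refine sum_lt_sum (fun x _ => ?_) ⟨(q, 0), by simp, ?_⟩
        · exact mul_le_mul_of_nonneg_right (norm_geo_le (h2 i1) _) (coeff_U1_pow_nonneg _ _)
        · have h9 : PowerSeries.coeff 0 (U1 ^ S.card) = 1 := by
            rw [PowerSeries.coeff_zero_eq_constantCoeff, map_pow]
            simp [U1]
          simp only [h9, mul_one]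
          exact norm_geo_lt (h2 i1) hi1 hq
      exact_mod_cast h8
    · intro K
      obtain ⟨C, hC⟩ := norm_geo_bdd (h2 i1) hi1
      have hC0 : 0 ≤ C := (norm_nonneg _).trans (hC 0)
      obtain ⟨Q, hQ⟩ := exists_nat_ge (K * C * d)
      refine ⟨Q, fun q hq => ?_⟩
      obtain ⟨e, he⟩ : ∃ e, d = e + 1 := ⟨d - 1, by omega⟩
      have hSe : S.card = e := by omega
      have h8 : ((|symTr (act V g) q| : ℤ) : ℝ) ≤ C * (Nat.choose (e + q) e : ℝ) := by
        refine (hbound q).trans ?_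
        rw [← coeff_U1_pow, pow_succ', PowerSeries.coeff_mul, mul_sum, hSe]
        refine sum_le_sum fun x _ => ?_
        rw [U1, PowerSeries.coeff_mk, Pi.one_apply, one_mul, ← U1]
        exact mul_le_mul_of_nonneg_right (hC _) (coeff_U1_pow_nonneg _ _)
      have h9 : (e + q + 1) * Nat.choose (e + q) e = Nat.choose (d + q) d * d := by
        have := Nat.add_one_mul_choose_eq (e + q) e
        rw [he, show e + 1 + q = e + q + 1 by ring]
        exact this
      have h10 : ((e : ℝ) + q + 1) * (Nat.choose (e + q) e : ℝ) =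
          (Nat.choose (d + q) d : ℝ) * d := by exact_mod_cast h9
      have hd0 : (0 : ℝ) < d := by
        rw [he]
        positivity
      have h11 : ((K : ℤ) * |symTr (act V g) q| : ℝ) * d ≤ (Nat.choose (d + q) d : ℝ) * d := by
        have h12 : (K : ℝ) * C * d ≤ (e : ℝ) + q + 1 := by
          have : (Q : ℝ) ≤ q := by exact_mod_cast hq
          have he0 : (0 : ℝ) ≤ e := by positivity
          linarith
        calc ((K : ℤ) * |symTr (act V g) q| : ℝ) * d
            = (K : ℝ) * ((|symTr (act V g) q| : ℤ) : ℝ) * d := by push_cast; ring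
          _ ≤ (K : ℝ) * (C * (Nat.choose (e + q) e : ℝ)) * d := by gcongr
          _ = (K * C * d) * (Nat.choose (e + q) e : ℝ) := by ring
          _ ≤ ((e : ℝ) + q + 1) * (Nat.choose (e + q) e : ℝ) := by gcongr
          _ = _ := h10
      have h13 := le_of_mul_le_mul_right h11 hd0
      exact_mod_cast h13

end Pool.Agent.ARC
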