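import Pool.Agent.ARC.CBri
import Pool.Agent.ARC.CSym

/-! # ARC, part C, module CBulk: domination for Göttsche's formula in the middle degrees -/

set_option autoImplicit false

noncomputable section

namespace Pool.Agent.ARC

open Module Finset Pool.Agent.PGZ2

open Pool.Agent.PGZ (act act_apply)

/-- A uniform strict bound. -/
private theorem rho_exists (s D : ℕ → ℝ) (hD : ∀ q, 0 < D q) (h1 : ∀ q, 1 ≤ q → s q < D q)
    (Q : ℕ) (h2 : ∀ q, Q ≤ q → 2 * s q ≤ D q) :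
    ∃ r : ℝ, 0 ≤ r ∧ r < 1 ∧ ∀ q, 1 ≤ q → s q ≤ r * D q := by
  have key : ∀ n : ℕ, ∃ r : ℝ, 1 / 2 ≤ r ∧ r < 1 ∧ ∀ q, 1 ≤ q → q < n → s q ≤ r * D q := by
    intro n
    induction n with
    | zero => exact ⟨1 / 2, le_rfl, by norm_num, fun q _ h => absurd h (Nat.not_lt_zero q)⟩
    | succ n ih =>
      obtain ⟨r, hr1, hr2, hr3⟩ := ih
      rcases Nat.eq_zero_or_pos n with hn | hn
      · exact ⟨r, hr1, hr2, fun q h3 h4 => by omega⟩
      · refine ⟨max r (s n / D n), le_trans hr1 (le_max_left _ _), ?_, ?_⟩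
        · refine max_lt hr2 ?_
          rw [div_lt_one (hD n)]
          exact h1 n hn
        · intro q h3 h4
          rcases Nat.lt_succ_iff_lt_or_eq.1 h4 with h5 | h5
          · exact (hr3 q h3 h5).trans
              (mul_le_mul_of_nonneg_right (le_max_left _ _) (hD q).le)
          · subst h5
            have h6 : s q = s q / D q * D q := by
              rw [div_mul_cancel₀ _ (hD q).ne']
            calc s q = s q / D q * D q := h6
              _ ≤ _ := mul_le_mul_of_nonneg_right (le_max_right _ _) (hD q).le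
  obtain ⟨r, hr1, hr2, hr3⟩ := key Q
  refine ⟨r, by linarith, hr2, fun q hq => ?_⟩
  by_cases h : q < Q
  · exact hr3 q hq h
  · have h3 := h2 q (by omega)
    have h4 := mul_le_mul_of_nonneg_right hr1 (hD q).le
    linarith

/-- Domination: abstract form. -/
theorem dom_abs (s : ℕ → ℤ) (D : ℕ → ℕ) (hD0 : D 0 = 1) (hmon : Monotone D)
    (hle : ∀ q, |s q| ≤ (D q : ℤ)) (hlt : ∀ q, 1 ≤ q → |s q| < (D q : ℤ))
    (hlim : ∀ K : ℕ, ∃ Q : ℕ, ∀ q, Q ≤ q → (K : ℤ) * |s q| ≤ (D q : ℤ)) (K : ℕ) :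
    ∃ A : ℕ, ∀ n k : ℕ, A ≤ k → k + A ≤ 2 * n →
      (K : ℤ) * |gott s n k| ≤ gott (fun q => (D q : ℤ)) n k := by
  classical
  have hD1 : ∀ q, 1 ≤ D q := fun q => by
    rw [← hD0]
    exact hmon (Nat.zero_le q)
  obtain ⟨Q2, hQ2⟩ := hlim 2
  obtain ⟨r, hr0, hr1, hr⟩ := rho_exists (fun q => ((|s q| : ℤ) : ℝ)) (fun q => (D q : ℝ))
    (fun q => by exact_mod_cast hD1 q) (fun q hq => by exact_mod_cast hlt q hq) Q2
    (fun q hq => by exact_mod_cast hQ2 q hq)
  obtain ⟨R, hR⟩ : ∃ R : ℕ, (2 * K : ℝ) * r ^ R ≤ 1 := by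
    have h1 := ((tendsto_pow_atTop_nhds_zero_of_lt_one hr0 hr1).const_mul (2 * K : ℝ))
    rw [mul_zero] at h1
    obtain ⟨R, hR⟩ := (h1.eventually_lt_const one_pos).exists
    exact ⟨R, hR.le⟩
  obtain ⟨Q0, hQ0⟩ := hlim (2 * K)
  set Q := Q0 + 1 with hQdef
  have hQ : ∀ q, Q ≤ q → ((2 * K : ℕ) : ℤ) * |s q| ≤ (D q : ℤ) := fun q hq => hQ0 q (by omega)
  set B := Q * R with hB
  obtain ⟨c, hc⟩ := few B (2 * K * D B ^ B)
  refine ⟨c, fun n k h1 h2 => ?_⟩
  have hPn : ∀ v : Fin n → Fin (n + 1) × Fin (n + 1) × Fin (n + 1),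
      (0 : ℤ) ≤ ∏ i, |s ((v i).2.1 : ℕ)| := fun v => prod_nonneg fun i _ => abs_nonneg _
  have hPle : ∀ v : Fin n → Fin (n + 1) × Fin (n + 1) × Fin (n + 1),
      ∏ i, |s ((v i).2.1 : ℕ)| ≤ ∏ i, (D ((v i).2.1 : ℕ) : ℤ) := fun v =>
    prod_le_prod (fun i _ => abs_nonneg _) fun i _ => hle _
  -- many middle parts
  have hbig : ∀ v : Fin n → Fin (n + 1) × Fin (n + 1) × Fin (n + 1),
      B ≤ ∑ i, ((v i).2.1 : ℕ) →
      ((2 * K : ℕ) : ℤ) * ∏ i, |s ((v i).2.1 : ℕ)| ≤ ∏ i, (D ((v i).2.1 : ℕ) : ℤ) := by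
    intro v hv
    by_cases hex : ∃ i, Q ≤ ((v i).2.1 : ℕ)
    · obtain ⟨i, hi⟩ := hex
      rw [← mul_prod_erase univ (fun i => |s ((v i).2.1 : ℕ)|) (mem_univ i),
        ← mul_prod_erase univ (fun i => (D ((v i).2.1 : ℕ) : ℤ)) (mem_univ i), ← mul_assoc]
      refine mul_le_mul (hQ _ hi) ?_ (prod_nonneg fun i _ => abs_nonneg _) (by positivity)
      exact prod_le_prod (fun i _ => abs_nonneg _) fun i _ => hle _
    · push Not at hex
      set S := univ.filter fun i : Fin n => 1 ≤ ((v i).2.1 : ℕ) with hS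
      have h3 : ∑ i, ((v i).2.1 : ℕ) ≤ Q * S.card := by
        have h4 : ∑ i, ((v i).2.1 : ℕ) = ∑ i ∈ S, ((v i).2.1 : ℕ) := by
          symm
          refine sum_subset (subset_univ _) fun i _ hi => ?_
          rw [hS, mem_filter] at hi
          by_contra h5
          exact hi ⟨mem_univ i, Nat.one_le_iff_ne_zero.2 h5⟩
        rw [h4, mul_comm, ← smul_eq_mul, ← sum_const]
        exact sum_le_sum fun i _ => (hex i).le
      have h4 : R ≤ S.card := by
        have h5 : Q * R ≤ Q * S.card := (hB ▸ hv).trans h3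
        exact Nat.le_of_mul_le_mul_left h5 (by omega)
      have h5 : ((∏ i, |s ((v i).2.1 : ℕ)| : ℤ) : ℝ) ≤
          r ^ S.card * ∏ i, ((D ((v i).2.1 : ℕ) : ℕ) : ℝ) := by
        rw [Int.cast_prod]
        have h6 : r ^ S.card = ∏ i : Fin n, if 1 ≤ ((v i).2.1 : ℕ) then r else 1 := by
          rw [prod_ite, prod_const, prod_const_one, mul_one]
        rw [h6, ← prod_mul_distrib]
        refine prod_le_prod (fun i _ => by positivity) fun i _ => ?_
        split_ifs with h7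
        · exact hr _ h7
        · rw [one_mul]
          exact_mod_cast hle _
      have h6 : (((2 * K : ℕ) : ℤ) * ∏ i, |s ((v i).2.1 : ℕ)| : ℝ) ≤
          ∏ i, ((D ((v i).2.1 : ℕ) : ℕ) : ℝ) := by
        have h7 : (0 : ℝ) ≤ ∏ i, ((D ((v i).2.1 : ℕ) : ℕ) : ℝ) :=
          prod_nonneg fun i _ => Nat.cast_nonneg _
        have h8 : r ^ S.card ≤ r ^ R := pow_le_pow_of_le_one hr0 hr1.le h4
        have h9 : (0 : ℝ) ≤ 2 * K := by positivity
        calc (((2 * K : ℕ) : ℤ) * ∏ i, |s ((v i).2.1 : ℕ)| : ℝ)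
            = (2 * K : ℝ) * ((∏ i, |s ((v i).2.1 : ℕ)| : ℤ) : ℝ) := by push_cast; ring
          _ ≤ (2 * K : ℝ) * (r ^ S.card * ∏ i, ((D ((v i).2.1 : ℕ) : ℕ) : ℝ)) :=
              mul_le_mul_of_nonneg_left h5 h9
          _ = ((2 * K : ℝ) * r ^ S.card) * ∏ i, ((D ((v i).2.1 : ℕ) : ℕ) : ℝ) := by ring
          _ ≤ 1 * ∏ i, ((D ((v i).2.1 : ℕ) : ℕ) : ℝ) := by
              refine mul_le_mul_of_nonneg_right ?_ h7
              exact (mul_le_mul_of_nonneg_left h8 h9).trans hR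
          _ = _ := one_mul _
      exact_mod_cast h6
  -- few middle parts
  have hsmall : ∀ v : Fin n → Fin (n + 1) × Fin (n + 1) × Fin (n + 1),
      ∑ i, ((v i).2.1 : ℕ) < B → ∏ i, |s ((v i).2.1 : ℕ)| ≤ ((D B ^ B : ℕ) : ℤ) := by
    intro v hv
    refine (hPle v).trans ?_
    set S := univ.filter fun i : Fin n => 1 ≤ ((v i).2.1 : ℕ) with hS
    have h3 : ∏ i, D ((v i).2.1 : ℕ) ≤ D B ^ S.card := by
      have h6 : D B ^ S.card = ∏ i : Fin n, if 1 ≤ ((v i).2.1 : ℕ) then D B else 1 := by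
        rw [prod_ite, prod_const, prod_const_one, mul_one]
      rw [h6]
      refine prod_le_prod' fun i _ => ?_
      split_ifs with h7
      · refine hmon ?_
        exact (single_le_sum (f := fun i => ((v i).2.1 : ℕ)) (fun _ _ => Nat.zero_le _)
          (mem_univ i)).trans hv.le
      · have h8 : ((v i).2.1 : ℕ) = 0 := by omega
        rw [h8, hD0]
    have h4 : S.card ≤ B := by
      have h5 : S.card ≤ ∑ i, ((v i).2.1 : ℕ) := by
        rw [hS, card_filter]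
        refine sum_le_sum fun i _ => ?_
        split_ifs with h6
        · exact h6
        · exact Nat.zero_le _
      omega
    have h5 := h3.trans (Nat.pow_le_pow_right (hD1 B) h4)
    exact_mod_cast h5
  have e0 : |gott s n k| ≤ ∑ v ∈ gIdx n k, ∏ i, |s ((v i).2.1 : ℕ)| := by
    rw [gott]
    refine (abs_sum_le_sum_abs _ _).trans (le_of_eq ?_)
    exact sum_congr rfl fun v _ => abs_prod _ _
  have e1 := sum_filter_add_sum_filter_not (gIdx n k)
    (fun v => ∑ i, ((v i).2.1 : ℕ) < B) (fun v => ∏ i, |s ((v i).2.1 : ℕ)|)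
  have e2 : ((2 * K : ℕ) : ℤ) * ∑ v ∈ (gIdx n k).filter (fun v => ¬ ∑ i, ((v i).2.1 : ℕ) < B),
      ∏ i, |s ((v i).2.1 : ℕ)| ≤ gott (fun q => (D q : ℤ)) n k := by
    rw [mul_sum, gott]
    refine (sum_le_sum (g := fun v => ∏ i, (D ((v i).2.1 : ℕ) : ℤ)) fun v hv => ?_).trans ?_
    · rw [mem_filter, not_lt] at hv
      exact hbig v hv.2
    · exact sum_le_sum_of_subset_of_nonneg (filter_subset _ _) fun v _ _ =>
        prod_nonneg fun i _ => by positivity
  have e3 : ((2 * K : ℕ) : ℤ) * ∑ v ∈ (gIdx n k).filter (fun v => ∑ i, ((v i).2.1 : ℕ) < B),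
      ∏ i, |s ((v i).2.1 : ℕ)| ≤ gott (fun q => (D q : ℤ)) n k := by
    have h3 : ∑ v ∈ (gIdx n k).filter (fun v => ∑ i, ((v i).2.1 : ℕ) < B),
        ∏ i, |s ((v i).2.1 : ℕ)| ≤
        (((gIdx n k).filter (fun v => ∑ i, ((v i).2.1 : ℕ) < B)).card : ℤ) *
          ((D B ^ B : ℕ) : ℤ) := by
      rw [← nsmul_eq_mul]
      refine sum_le_card_nsmul _ _ _ fun v hv => ?_
      rw [mem_filter] at hv
      exact hsmall v hv.2
    have h4 := hc n k h1 h2
    have h5 : 2 * K * D B ^ B * ((gIdx n k).filter fun v => ∑ i, ((v i).2.1 : ℕ) < B).card ≤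
        (gIdx n k).card :=
      (Nat.mul_le_mul_left _ (card_gIdx_filter_le n k B)).trans (h4.trans (card_conf_le n k))
    have h6 : ((gIdx n k).card : ℤ) ≤ gott (fun q => (D q : ℤ)) n k := by
      rw [gott, card_eq_sum_ones, Nat.cast_sum]
      refine sum_le_sum fun v _ => ?_
      have : (1 : ℤ) ≤ ((∏ i, D ((v i).2.1 : ℕ) : ℕ) : ℤ) := by
        exact_mod_cast Nat.one_le_iff_ne_zero.2 (prod_ne_zero_iff.2 fun i _ =>
          Nat.one_le_iff_ne_zero.1 (hD1 _))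
      rw [Nat.cast_prod] at this
      simpa using this
    calc ((2 * K : ℕ) : ℤ) * ∑ v ∈ (gIdx n k).filter (fun v => ∑ i, ((v i).2.1 : ℕ) < B),
          ∏ i, |s ((v i).2.1 : ℕ)|
        ≤ ((2 * K : ℕ) : ℤ) * ((((gIdx n k).filter (fun v => ∑ i, ((v i).2.1 : ℕ) < B)).card : ℤ) *
          ((D B ^ B : ℕ) : ℤ)) := mul_le_mul_of_nonneg_left h3 (by positivity)
      _ = ((2 * K * D B ^ B *
          ((gIdx n k).filter fun v => ∑ i, ((v i).2.1 : ℕ) < B).card : ℕ) : ℤ) := by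
          push_cast
          ring
      _ ≤ ((gIdx n k).card : ℤ) := by exact_mod_cast h5
      _ ≤ _ := h6
  have e4 : (2 : ℤ) * (K * |gott s n k|) ≤ 2 * gott (fun q => (D q : ℤ)) n k := by
    have h3 : (2 : ℤ) * (K * |gott s n k|) ≤
        ((2 * K : ℕ) : ℤ) * ∑ v ∈ gIdx n k, ∏ i, |s ((v i).2.1 : ℕ)| := by
      calc (2 : ℤ) * (K * |gott s n k|) = ((2 * K : ℕ) : ℤ) * |gott s n k| := by
            push_cast
            ring
        _ ≤ _ := mul_le_mul_of_nonneg_left e0 (by positivity)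
    rw [← e1, mul_add] at h3
    linarith
  linarith

/-- Domination for Göttsche's formula: one group element. -/
theorem gott_dom (G : Type) [Group G] [Finite G] (V : Type) [AddCommGroup V] [Module.Free ℤ V]
    [Module.Finite ℤ V] [DistribMulAction G V] (h0 : ∃ v : V, v ≠ 0 ∧ ∀ g : G, g • v = v)
    (K : ℕ) : ∃ A : ℕ, ∀ n k : ℕ, A ≤ k → k + A ≤ 2 * n → ∀ g : G, (∃ v : V, g • v ≠ v) →
      (K : ℤ) * |gott (symTr (act V g)) n k| ≤ gott (symTr (act V (1 : G))) n k := by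
  classical
  obtain ⟨D, hD0, hmon, hD, hle, hg⟩ := sym_bound G V h0
  have hfin : Fintype G := Fintype.ofFinite G
  have h1 : ∀ g : G, ∃ A : ℕ, (∃ v : V, g • v ≠ v) → ∀ n k : ℕ, A ≤ k → k + A ≤ 2 * n →
      (K : ℤ) * |gott (symTr (act V g)) n k| ≤ gott (fun q => (D q : ℤ)) n k := by
    intro g
    by_cases hg' : ∃ v : V, g • v ≠ v
    · obtain ⟨A, hA⟩ := dom_abs (symTr (act V g)) D hD0 hmon (hle g) (hg g hg').1 (hg g hg').2 K
      exact ⟨A, fun _ => hA⟩
    · exact ⟨0, fun h => absurd h hg'⟩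
  choose A hA using h1
  refine ⟨∑ g, A g, fun n k h2 h3 g hg' => ?_⟩
  have h4 : A g ≤ ∑ g, A g := single_le_sum (fun _ _ => Nat.zero_le _) (mem_univ g)
  have h5 := hA g hg' n k (by omega) (by omega)
  have h6 : (symTr (act V (1 : G))) = fun q => (D q : ℤ) := funext hD
  rw [h6]
  exact h5

/-- Domination for Göttsche's formula in the middle degrees. -/
theorem bulk (G : Type) [Group G] [Finite G] (V : Type) [AddCommGroup V] [Module.Free ℤ V]
    [Module.Finite ℤ V] [DistribMulAction G V] (hf : ∀ g : G, (∀ v : V, g • v = v) → g = 1)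
    (h0 : ∃ v : V, v ≠ 0 ∧ ∀ g : G, g • v = v) :
    ∃ A : ℕ, ∀ n k : ℕ, A ≤ k → A + k ≤ 2 * n →
      (∑ᶠ g : {g : G // g ≠ 1}, |gott (symTr (act V g.1)) n k|) ≤
        gott (symTr (act V (1 : G))) n k := by
  classical
  obtain ⟨A, hA⟩ := gott_dom G V h0 (Nat.card G)
  have hfin : Fintype G := Fintype.ofFinite G
  refine ⟨A, fun n k h1 h2 => ?_⟩
  rw [finsum_eq_sum_of_fintype]
  have h3 : ∀ g : {g : G // g ≠ 1}, (Nat.card G : ℤ) * |gott (symTr (act V g.1)) n k| ≤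
      gott (symTr (act V (1 : G))) n k := by
    intro g
    refine hA n k h1 (by omega) g.1 ?_
    by_contra hcon
    push Not at hcon
    exact g.2 (hf g.1 hcon)
  have h4 : (0 : ℤ) < (Nat.card G : ℤ) := by exact_mod_cast Nat.card_pos
  have h5 : (Nat.card G : ℤ) * ∑ g : {g : G // g ≠ 1}, |gott (symTr (act V g.1)) n k| ≤
      (Nat.card G : ℤ) * gott (symTr (act V (1 : G))) n k := by
    rw [mul_sum]
    refine (sum_le_card_nsmul univ _ _ fun g _ => h3 g).trans ?_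
    rw [nsmul_eq_mul]
    have h6 : 0 ≤ gott (symTr (act V (1 : G))) n k := by
      obtain ⟨D, _, _, hD, _, _⟩ := sym_bound G V h0
      rw [show (symTr (act V (1 : G))) = fun q => (D q : ℤ) from funext hD, gott]
      exact sum_nonneg fun v _ => prod_nonneg fun i _ => by positivity
    refine mul_le_mul_of_nonneg_right ?_ h6
    rw [card_univ, Nat.card_eq_fintype_card]
    exact_mod_cast Fintype.card_subtype_le _
  exact le_of_mul_le_mul_left h5 h4

end Pool.Agent.ARC
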