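import Mathlib

/-! # ARC, part C (domination), module CDef: triples of partitions

A triple `(α, β, γ)` of partitions (multisets of positive integers) of total size `n` with
`j = n - ℓ(α) + ℓ(γ)`: these are the exponents in Göttsche's formula. -/

set_option autoImplicit false

noncomputable section

namespace Pool.Agent.ARC

/-- `(α, β, γ)` is a triple of partitions with `|α| + |β| + |γ| = n`, `j = n - ℓ(α) + ℓ(γ)`. -/
structure IsConf (n j : ℕ) (x : Multiset ℕ × Multiset ℕ × Multiset ℕ) : Prop where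
  pa : ∀ k ∈ x.1, 1 ≤ k
  pb : ∀ k ∈ x.2.1, 1 ≤ k
  pc : ∀ k ∈ x.2.2, 1 ≤ k
  sum : x.1.sum + x.2.1.sum + x.2.2.sum = n
  deg : j + Multiset.card x.1 = n + Multiset.card x.2.2

theorem finite_part (n : ℕ) :
    {s : Multiset ℕ | (∀ k ∈ s, 1 ≤ k) ∧ s.sum ≤ n}.Finite := by
  refine Set.Finite.subset (Set.finite_Iic (n • Multiset.range (n + 1))) ?_
  rintro s ⟨h1, h2⟩
  rw [Set.mem_Iic, Multiset.le_iff_count]
  intro k
  rw [Multiset.count_nsmul]
  by_cases hk : k ∈ s
  · have h3 : Multiset.replicate (Multiset.count k s) k ≤ s := Multiset.le_count_iff_replicate_le.1 le_rfl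
    have h4 : Multiset.count k s * k ≤ s.sum := by
      obtain ⟨u, hu⟩ := Multiset.le_iff_exists_add.1 h3
      have h5 := congrArg Multiset.sum hu
      rw [Multiset.sum_add, Multiset.sum_replicate, smul_eq_mul] at h5
      omega
    have h5 : 1 ≤ k := h1 k hk
    have h6 : k ≤ n := (Multiset.le_sum_of_mem hk).trans h2
    have h7 : Multiset.count k (Multiset.range (n + 1)) = 1 :=
      Multiset.count_eq_one_of_mem (Multiset.nodup_range _) (Multiset.mem_range.2 (by omega))
    rw [h7]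
    nlinarith [Nat.le_mul_of_pos_right (Multiset.count k s) h5]
  · rw [Multiset.count_eq_zero_of_notMem hk]
    exact Nat.zero_le _

theorem finite_isConf (n j : ℕ) :
    {x : Multiset ℕ × Multiset ℕ × Multiset ℕ | IsConf n j x}.Finite := by
  refine Set.Finite.subset ((finite_part n).prod ((finite_part n).prod (finite_part n))) ?_
  rintro ⟨a, b, c⟩ h
  have h1 := h.sum
  simp only at h1
  exact ⟨⟨h.pa, by simp only; omega⟩, ⟨h.pb, by simp only; omega⟩, ⟨h.pc, by simp only; omega⟩⟩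

/-- The finite set of triples. -/
def conf (n j : ℕ) : Finset (Multiset ℕ × Multiset ℕ × Multiset ℕ) := (finite_isConf n j).toFinset

theorem mem_conf {n j : ℕ} {x : Multiset ℕ × Multiset ℕ × Multiset ℕ} :
    x ∈ conf n j ↔ IsConf n j x := by
  rw [conf, Set.Finite.mem_toFinset, Set.mem_ofPred_eq]

/-- The triples `(α, 0, γ)`. -/
def conf0 (n j : ℕ) : Finset (Multiset ℕ × Multiset ℕ × Multiset ℕ) :=
  (conf n j).filter fun x => x.2.1 = 0

theorem mem_conf0 {n j : ℕ} {x : Multiset ℕ × Multiset ℕ × Multiset ℕ} :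
    x ∈ conf0 n j ↔ IsConf n j x ∧ x.2.1 = 0 := by
  rw [conf0, Finset.mem_filter, mem_conf]

theorem finite_pts (s : ℕ) :
    {b : Multiset ℕ | (∀ k ∈ b, 1 ≤ k) ∧ b.sum = s}.Finite :=
  (finite_part s).subset fun _ h => ⟨h.1, h.2.le⟩

/-- The partitions of `s`. -/
def pts (s : ℕ) : Finset (Multiset ℕ) := (finite_pts s).toFinset

theorem mem_pts {s : ℕ} {b : Multiset ℕ} : b ∈ pts s ↔ (∀ k ∈ b, 1 ≤ k) ∧ b.sum = s := by
  rw [pts, Set.Finite.mem_toFinset, Set.mem_ofPred_eq]

theorem one_mem_pts (s : ℕ) : Multiset.replicate s 1 ∈ pts s := by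
  rw [mem_pts]
  refine ⟨fun k hk => ?_, by simp⟩
  rw [Multiset.eq_of_mem_replicate hk]

theorem card_pts_pos (s : ℕ) : 1 ≤ (pts s).card :=
  Finset.card_pos.2 ⟨_, one_mem_pts s⟩

/-- Exchanging `α` and `γ`. -/
theorem IsConf.swap {n j : ℕ} {x : Multiset ℕ × Multiset ℕ × Multiset ℕ} (h : IsConf n j x)
    (hj : j ≤ 2 * n) : IsConf n (2 * n - j) (x.2.2, x.2.1, x.1) := by
  refine ⟨h.pc, h.pb, h.pa, ?_, ?_⟩
  · have := h.sum
    simp only
    omega
  · have := h.deg
    simp only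
    omega

end Pool.Agent.ARC
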