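import Pool.Agent.PGZ2.Defs

/-! # ARC, part C, module CEig: traces on symmetric powers and eigenvalues -/

set_option autoImplicit false

noncomputable section

namespace Pool.Agent.ARC

open Module Finset Pool.Agent.PGZ2 TensorProduct

private theorem eig_basis {V : Type*} [AddCommGroup V] [Module ℂ V] [FiniteDimensional ℂ V]
    (φ : V →ₗ[ℂ] V) (N : ℕ) (hN : 0 < N) (h : φ ^ N = 1) :
    ∃ (I : Type) (_ : Fintype I) (b : Basis I ℂ V) (μ : I → ℂ), ∀ i, φ (b i) = μ i • b i := by
  classical
  have hss : Module.End.IsSemisimple (φ : Module.End ℂ V) := by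
    have hsq : Squarefree ((Polynomial.X ^ N - 1 : Polynomial ℂ)) :=
      (Polynomial.X_pow_sub_one_separable_iff.2 (by exact_mod_cast hN.ne')).squarefree
    refine Module.End.isSemisimple_of_squarefree_aeval_eq_zero hsq ?_
    simp [h]
  let eigenDecomp := DirectSum.isInternal_submodule_of_iSupIndep_of_iSup_eq_top
    (Module.End.eigenspaces_iSupIndep φ) hss.iSup_eigenspace_eq_top
  let I := (ν : ℂ) × Fin (finrank ℂ (Module.End.eigenspace φ ν))
  let v : Basis I ℂ V :=
    eigenDecomp.collectedBasis fun μ ↦ finBasis ℂ (Module.End.eigenspace φ μ)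
  have hF : Fintype I := FiniteDimensional.fintypeBasisIndex v
  exact ⟨I, hF, v, Sigma.fst, fun i =>
    Module.End.mem_eigenspace_iff.mp (eigenDecomp.collectedBasis_mem _ i)⟩

private theorem eig_rev_lin (μ : ℂ) :
    (Polynomial.X - Polynomial.C μ).reverse = 1 - Polynomial.C μ * Polynomial.X := by
  have h1 : (Polynomial.X - Polynomial.C μ).natDegree = 1 := Polynomial.natDegree_X_sub_C μ
  ext n
  rw [Polynomial.coeff_reverse, h1]
  rcases n with _ | _ | n
  · simp [Polynomial.revAt_le]
  · simp [Polynomial.revAt_le, Polynomial.coeff_one]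
  · have : Polynomial.revAt 1 (n + 1 + 1) = n + 1 + 1 := Polynomial.revAt_eq_self_of_lt (by omega)
    rw [this]
    simp [Polynomial.coeff_X, Polynomial.coeff_one]

private theorem eig_rev_prod {I : Type} (s : Finset I) (μ : I → ℂ) :
    (∏ i ∈ s, (Polynomial.X - Polynomial.C (μ i))).reverse =
      ∏ i ∈ s, (1 - Polynomial.C (μ i) * Polynomial.X) := by
  classical
  induction s using Finset.induction_on with
  | empty =>
    rw [prod_empty, prod_empty, ← Polynomial.C_1, Polynomial.reverse_C]
  | insert a s ha ih =>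
    rw [prod_insert ha, prod_insert ha, Polynomial.reverse_mul_of_domain, ih, eig_rev_lin]

/-- The geometric series `∑ μ ^ k X ^ k`. -/
def geo (μ : ℂ) : PowerSeries ℂ := PowerSeries.mk fun k => μ ^ k

theorem geo_spec (μ : ℂ) : (1 - PowerSeries.C μ * PowerSeries.X) * geo μ = 1 := by
  ext n
  rw [sub_mul, one_mul, mul_assoc, map_sub, PowerSeries.coeff_C_mul]
  rcases n with _ | n
  · simp [geo]
  · rw [PowerSeries.coeff_succ_X_mul, geo, PowerSeries.coeff_mk, PowerSeries.coeff_mk, pow_succ',
      sub_self, PowerSeries.coeff_one, if_neg (Nat.succ_ne_zero n)]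

/-- A lattice embeds into its complexification. -/
theorem tmul_inj {Λ : Type*} [AddCommGroup Λ] [Module.Free ℤ Λ] :
    Function.Injective (fun x : Λ => (1 : ℂ) ⊗ₜ[ℤ] x) := by
  intro x y hxy
  set c := Module.Free.chooseBasis ℤ Λ
  refine c.repr.injective (Finsupp.ext fun i => ?_)
  have h1 := congrArg (fun z => (c.baseChange ℂ).repr z i) hxy
  simp only [Basis.baseChange_repr_tmul] at h1
  have h2 : ((c.repr x i : ℤ) : ℂ) = ((c.repr y i : ℤ) : ℂ) := by simpa using h1
  exact_mod_cast h2

/-- An endomorphism of finite order of a lattice: its eigenvalues are roots of unity, and they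
determine the traces on the symmetric powers. -/
theorem eig {Λ : Type*} [AddCommGroup Λ] [Module.Free ℤ Λ] [Module.Finite ℤ Λ]
    (φ : Λ →ₗ[ℤ] Λ) (N : ℕ) (hN : 0 < N) (h : φ ^ N = 1) :
    ∃ (I : Type) (_ : Fintype I) (μ : I → ℂ), Fintype.card I = finrank ℤ Λ ∧
      (∀ i, ‖μ i‖ = 1) ∧ (∀ i, μ i ^ N = 1) ∧
      PowerSeries.mk (fun q => ((symTr φ q : ℤ) : ℂ)) = ∏ i, geo (μ i) ∧
      (∀ k : ℕ, ((LinearMap.trace ℤ Λ (φ ^ k) : ℤ) : ℂ) = ∑ i, μ i ^ k) ∧
      ((∃ v : Λ, v ≠ 0 ∧ φ v = v) → ∃ i, μ i = 1) ∧ ((∀ i, μ i = 1) → φ = 1) := by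
  classical
  set ψ := φ.baseChange ℂ with hψ
  have hψN : ψ ^ N = 1 := by
    rw [hψ, ← LinearMap.baseChange_pow, h, Module.End.one_eq_id, LinearMap.baseChange_id]
    rfl
  obtain ⟨I, hI, b, μ, hb⟩ := eig_basis ψ N hN hψN
  have hpow : ∀ (n : ℕ) (i : I), (ψ ^ n) (b i) = μ i ^ n • b i := by
    intro n i
    induction n with
    | zero => simp
    | succ n ih => rw [pow_succ', Module.End.mul_apply, ih, map_smul, hb, smul_smul, pow_succ]
  have hμ : ∀ i, μ i ^ N = 1 := by
    intro i
    have h1 := hpow N i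
    rw [hψN, Module.End.one_apply] at h1
    have h2 : (μ i ^ N - 1) • b i = 0 := by rw [sub_smul, one_smul, ← h1, sub_self]
    rcases smul_eq_zero.1 h2 with h3 | h3
    · exact sub_eq_zero.1 h3
    · exact absurd h3 (b.ne_zero i)
  have hchar : φ.charpoly.map (Int.castRingHom ℂ) = ∏ i, (Polynomial.X - Polynomial.C (μ i)) := by
    have h1 : ψ.charpoly = φ.charpoly.map (Int.castRingHom ℂ) := by
      rw [hψ, LinearMap.charpoly_baseChange]
      rfl
    rw [← h1, ← LinearMap.charpoly_toMatrix ψ b]
    have : LinearMap.toMatrix b b ψ = Matrix.diagonal μ := by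
      ext i j
      rw [LinearMap.toMatrix_apply, hb, map_smul, Finsupp.smul_apply, Basis.repr_self,
        Matrix.diagonal_apply]
      by_cases hij : i = j
      · subst hij
        rw [Finsupp.single_eq_same, if_pos rfl, smul_eq_mul, mul_one]
      · rw [Finsupp.single_eq_of_ne hij, if_neg hij, smul_zero]
    rw [this, Matrix.charpoly_diagonal]
  have hmon : φ.charpoly.Monic := φ.charpoly_monic
  have hrev : φ.charpoly.reverse.map (Int.castRingHom ℂ) =
      ∏ i, (1 - Polynomial.C (μ i) * Polynomial.X) := by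
    rw [← eig_rev_prod, ← hchar, Polynomial.reverse, Polynomial.reverse, hmon.natDegree_map,
      Polynomial.reflect_map]
  set D : PowerSeries ℤ := ((φ.charpoly.reverse : Polynomial ℤ) : PowerSeries ℤ) with hD
  have hDmap : PowerSeries.map (Int.castRingHom ℂ) D =
      ∏ i, (1 - PowerSeries.C (μ i) * PowerSeries.X) := by
    rw [hD, ← Polynomial.polynomial_map_coe, hrev]
    have : ∀ i, (1 - PowerSeries.C (μ i) * PowerSeries.X : PowerSeries ℂ) =
        ((1 - Polynomial.C (μ i) * Polynomial.X : Polynomial ℂ) : PowerSeries ℂ) := by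
      intro i
      simp
    rw [Finset.prod_congr rfl fun i _ => this i]
    exact map_prod (Polynomial.coeToPowerSeries.ringHom) _ _
  have hc : PowerSeries.constantCoeff D = ((1 : ℤˣ) : ℤ) := by
    rw [hD, Polynomial.constantCoeff_coe, Polynomial.coeff_zero_reverse, hmon.leadingCoeff,
      Units.val_one]
  have hinv : D * PowerSeries.invOfUnit D 1 = 1 := PowerSeries.mul_invOfUnit D 1 hc
  refine ⟨I, hI, μ, ?_, ?_, ?_, ?_, ?_, ?_, ?_⟩
  · have h1 := Module.finrank_eq_card_basis b
    rw [Module.finrank_baseChange] at h1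
    exact h1.symm
  · intro i
    exact Complex.norm_eq_one_of_pow_eq_one (hμ i) hN.ne'
  · exact hμ
  · have h1 : PowerSeries.mk (fun q => ((symTr φ q : ℤ) : ℂ)) =
        PowerSeries.map (Int.castRingHom ℂ) (PowerSeries.invOfUnit D 1) := by
      ext q
      rw [PowerSeries.coeff_mk, PowerSeries.coeff_map, symTr]
      rfl
    rw [h1]
    have h2 : PowerSeries.map (Int.castRingHom ℂ) D *
        PowerSeries.map (Int.castRingHom ℂ) (PowerSeries.invOfUnit D 1) = 1 := by
      rw [← map_mul, hinv, map_one]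
    have h3 : PowerSeries.map (Int.castRingHom ℂ) D * ∏ i, geo (μ i) = 1 := by
      rw [hDmap, ← prod_mul_distrib]
      exact prod_eq_one fun i _ => geo_spec (μ i)
    calc PowerSeries.map (Int.castRingHom ℂ) (PowerSeries.invOfUnit D 1)
        = (PowerSeries.map (Int.castRingHom ℂ) D * ∏ i, geo (μ i)) *
          PowerSeries.map (Int.castRingHom ℂ) (PowerSeries.invOfUnit D 1) := by rw [h3, one_mul]
      _ = (PowerSeries.map (Int.castRingHom ℂ) D *
          PowerSeries.map (Int.castRingHom ℂ) (PowerSeries.invOfUnit D 1)) *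
            ∏ i, geo (μ i) := by ring
      _ = ∏ i, geo (μ i) := by rw [h2, one_mul]
  · intro n
    have h1 : ((LinearMap.trace ℤ Λ (φ ^ n) : ℤ) : ℂ) = LinearMap.trace ℂ _ (ψ ^ n) := by
      rw [hψ, ← LinearMap.baseChange_pow, LinearMap.trace_baseChange]
      rfl
    rw [h1, LinearMap.trace_eq_matrix_trace ℂ b, Matrix.trace]
    refine Finset.sum_congr rfl fun i _ => ?_
    rw [Matrix.diag_apply, LinearMap.toMatrix_apply, hpow, map_smul, Finsupp.smul_apply,
      Basis.repr_self, Finsupp.single_eq_same, smul_eq_mul, mul_one]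
  · rintro ⟨v, hv, hfix⟩
    by_contra hcon
    push Not at hcon
    set w : TensorProduct ℤ ℂ Λ := (1 : ℂ) ⊗ₜ[ℤ] v with hw
    have h1 : ψ w = w := by
      rw [hψ, hw, LinearMap.baseChange_tmul, hfix]
    have h2 : ∀ i, b.repr w i = 0 := by
      intro i
      have h3 : ∀ x, b.repr (ψ x) i = μ i * b.repr x i := by
        intro x
        have : (b.coord i) ∘ₗ ψ = μ i • b.coord i := by
          refine b.ext fun k => ?_
          rw [LinearMap.comp_apply, hb, map_smul, LinearMap.smul_apply, Basis.coord_apply,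
            Basis.repr_self]
          by_cases hki : k = i
          · subst hki
            rfl
          · rw [Finsupp.single_eq_of_ne (Ne.symm hki), smul_zero, smul_zero]
        exact LinearMap.congr_fun this x
      have h4 := h3 w
      rw [h1] at h4
      have h5 : (μ i - 1) * b.repr w i = 0 := by rw [sub_mul, one_mul, ← h4, sub_self]
      rcases mul_eq_zero.1 h5 with h6 | h6
      · exact absurd (sub_eq_zero.1 h6) (hcon i)
      · exact h6
    have h3 : w = 0 := b.repr.injective (by rw [map_zero]; exact Finsupp.ext h2)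
    exact hv (tmul_inj (by simpa [TensorProduct.tmul_zero] using h3))
  · intro h1
    have h2 : ψ = 1 := by
      refine b.ext fun i => ?_
      rw [hb, h1, one_smul, Module.End.one_apply]
    refine LinearMap.ext fun x => tmul_inj ?_
    have h3 := LinearMap.congr_fun h2 ((1 : ℂ) ⊗ₜ[ℤ] x)
    rw [hψ, LinearMap.baseChange_tmul, Module.End.one_apply] at h3
    exact h3

end Pool.Agent.ARC
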