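import Pool.Agent.ARC.CDef

/-! # ARC, part C, module CPn: most partitions have many parts -/

set_option autoImplicit false

noncomputable section

namespace Pool.Agent.ARC

theorem card_pts_eq_le (r s : ℕ) :
    ((pts s).filter fun b => Multiset.card b = r).card ≤ (s + 1) ^ r := by
  classical
  induction r generalizing s with
  | zero =>
    rw [pow_zero, Finset.card_le_one]
    intro a ha b hb
    rw [Finset.mem_filter, Multiset.card_eq_zero] at ha hb
    rw [ha.2, hb.2]
  | succ r ih =>
    have h1 : ((pts s).filter fun b => Multiset.card b = r + 1) ⊆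
        (Finset.range (s + 1)).biUnion fun k =>
          ((pts (s - k)).filter fun b => Multiset.card b = r).image fun b => k ::ₘ b := by
      intro b hb
      rw [Finset.mem_filter, mem_pts] at hb
      obtain ⟨⟨h2, h3⟩, h4⟩ := hb
      obtain ⟨k, hk⟩ := Multiset.card_pos_iff_exists_mem.1 (by omega : 0 < Multiset.card b)
      obtain ⟨u, rfl⟩ := Multiset.exists_cons_of_mem hk
      rw [Multiset.sum_cons] at h3
      rw [Multiset.card_cons] at h4
      rw [Finset.mem_biUnion]
      refine ⟨k, Finset.mem_range.2 (by omega), ?_⟩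
      rw [Finset.mem_image]
      refine ⟨u, ?_, rfl⟩
      rw [Finset.mem_filter, mem_pts]
      exact ⟨⟨fun l hl => h2 l (Multiset.mem_cons_of_mem hl), by omega⟩, by omega⟩
    refine (Finset.card_le_card h1).trans ?_
    refine Finset.card_biUnion_le.trans ?_
    refine (Finset.sum_le_sum (g := fun _ => (s + 1) ^ r) fun k _ => ?_).trans ?_
    · exact Finset.card_image_le.trans ((ih (s - k)).trans (Nat.pow_le_pow_left (by omega) r))
    · rw [Finset.sum_const, Finset.card_range, smul_eq_mul, pow_succ, mul_comm]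

theorem card_pts_lt_le (B s : ℕ) :
    ((pts s).filter fun b => Multiset.card b < B).card ≤ B * (s + 1) ^ B := by
  classical
  have h1 : ((pts s).filter fun b => Multiset.card b < B) ⊆
      (Finset.range B).biUnion fun r => (pts s).filter fun b => Multiset.card b = r := by
    intro b hb
    rw [Finset.mem_filter] at hb
    rw [Finset.mem_biUnion]
    exact ⟨Multiset.card b, Finset.mem_range.2 hb.2, Finset.mem_filter.2 ⟨hb.1, rfl⟩⟩
  refine (Finset.card_le_card h1).trans (Finset.card_biUnion_le.trans ?_)
  refine (Finset.sum_le_sum (g := fun _ => (s + 1) ^ B) fun r hr => ?_).trans ?_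
  · exact (card_pts_eq_le r s).trans
      (Nat.pow_le_pow_right (by omega) (Finset.mem_range.1 hr).le)
  · rw [Finset.sum_const, Finset.card_range, smul_eq_mul]

theorem two_pow_le_card_pts {m s : ℕ} (h : ∑ a ∈ Finset.range m, (a + 2) ≤ s) :
    2 ^ m ≤ (pts s).card := by
  classical
  have h0 : (Finset.range m).powerset.card = 2 ^ m := by
    rw [Finset.card_powerset, Finset.card_range]
  rw [← h0]
  have hs : ∀ A ∈ (Finset.range m).powerset, ∑ a ∈ A, (a + 2) ≤ s := by
    intro A hA
    exact (Finset.sum_le_sum_of_subset (Finset.mem_powerset.1 hA)).trans h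
  refine Finset.card_le_card_of_injOn
    (fun A => A.val.map (· + 2) + Multiset.replicate (s - ∑ a ∈ A, (a + 2)) 1) ?_ ?_
  · intro A hA
    rw [Finset.mem_coe] at hA
    have h1 := hs A hA
    rw [Finset.mem_coe, mem_pts]
    refine ⟨fun k hk => ?_, ?_⟩
    · rcases Multiset.mem_add.1 hk with hk | hk
      · obtain ⟨l, _, rfl⟩ := Multiset.mem_map.1 hk
        omega
      · rw [Multiset.eq_of_mem_replicate hk]
    · rw [Multiset.sum_add, Multiset.sum_replicate, smul_eq_mul, mul_one]
      change ∑ a ∈ A, (a + 2) + _ = s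
      omega
  · intro A _ A' _ he
    simp only at he
    have h1 := congrArg (Multiset.filter fun k => 2 ≤ k) he
    have h2 : ∀ A : Finset ℕ, Multiset.filter (fun k => 2 ≤ k) (A.val.map (· + 2) +
        Multiset.replicate (s - ∑ a ∈ A, (a + 2)) 1) = A.val.map (· + 2) := by
      intro A
      rw [Multiset.filter_add, Multiset.filter_eq_self.2, Multiset.filter_eq_nil.2, add_zero]
      · intro k hk
        rw [Multiset.eq_of_mem_replicate hk]
        omega
      · intro k hk
        obtain ⟨l, _, rfl⟩ := Multiset.mem_map.1 hk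
        omega
    rw [h2, h2] at h1
    exact Finset.val_injective (Multiset.map_injective (fun a b h => by simpa using h) h1)

theorem few_pts (B K : ℕ) : ∃ s0 : ℕ, ∀ s, s0 ≤ s →
    K * ((pts s).filter fun b => Multiset.card b < B).card ≤ (pts s).card := by
  have h1 : (fun m : ℕ => (K * B : ℝ) * ((m : ℝ) + 1) ^ (2 * B)) =o[Filter.atTop]
      fun m : ℕ => ((2 : ℝ)) ^ m := by
    have h2 : (fun m : ℕ => ((m : ℝ)) ^ (2 * B)) =o[Filter.atTop] fun m : ℕ => ((2 : ℝ)) ^ m :=
      isLittleO_pow_const_const_pow_of_one_lt (2 * B) (by norm_num)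
    have h3 := (h2.comp_tendsto (Filter.tendsto_add_atTop_nat 1)).const_mul_left (K * B : ℝ)
    have h4 : ((fun m : ℕ => ((2 : ℝ)) ^ m) ∘ fun a : ℕ => a + 1) =O[Filter.atTop]
        fun m : ℕ => ((2 : ℝ)) ^ m := by
      refine Asymptotics.IsBigO.of_bound 2 (Filter.Eventually.of_forall fun m => ?_)
      simp only [Function.comp_apply, pow_succ, norm_mul]
      norm_num
      linarith
    refine (h3.trans_isBigO h4).congr_left fun m => ?_
    simp only [Function.comp_apply]
    push_cast
    ring
  have h5 := h1.bound (c := 1) one_pos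
  rw [Filter.eventually_atTop] at h5
  obtain ⟨m0, hm0⟩ := h5
  refine ⟨(max m0 3) ^ 2, fun s hs => ?_⟩
  set m := Nat.sqrt s with hm
  have h6 : max m0 3 ≤ m := by
    rw [hm]
    exact Nat.le_sqrt'.2 hs
  have h7 : m * m ≤ s := Nat.sqrt_le s
  have h8 : s < (m + 1) * (m + 1) := Nat.lt_succ_sqrt s
  have h9 : ∑ a ∈ Finset.range m, (a + 2) ≤ s := by
    have h10 : 2 * ∑ a ∈ Finset.range m, (a + 2) = m * m + 3 * m := by
      clear_value m
      clear hm h6 h7 h8 hs
      induction m with
      | zero => simp
      | succ m ih =>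
        rw [Finset.sum_range_succ, mul_add, ih]
        ring
    have h11 : 3 * m ≤ m * m := Nat.mul_le_mul_right m (le_trans (le_max_right _ _) h6)
    omega
  refine le_trans ?_ (two_pow_le_card_pts h9)
  have h12 := hm0 m (le_trans (le_max_left _ _) h6)
  rw [one_mul, Real.norm_of_nonneg (by positivity), Real.norm_of_nonneg (by positivity)] at h12
  have h13 : K * B * (m + 1) ^ (2 * B) ≤ 2 ^ m := by exact_mod_cast h12
  refine le_trans ?_ h13
  rw [mul_assoc]
  refine Nat.mul_le_mul_left K ((card_pts_lt_le B s).trans ?_)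
  refine Nat.mul_le_mul_left B ?_
  rw [pow_mul]
  exact Nat.pow_le_pow_left (by nlinarith) B

end Pool.Agent.ARC
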