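import Pool.Agent.ARC.CMv
import Pool.Agent.ARC.CPn

/-! # ARC, part C, module CFew: triples with few middle parts are rare -/

set_option autoImplicit false

noncomputable section

namespace Pool.Agent.ARC

theorem card_le_sum_of_pos {s : Multiset ℕ} (h : ∀ k ∈ s, 1 ≤ k) : Multiset.card s ≤ s.sum := by
  have := Multiset.card_nsmul_le_sum h
  simpa using this

theorem IsConf.sum_le {n j : ℕ} {x : Multiset ℕ × Multiset ℕ × Multiset ℕ} (h : IsConf n j x) :
    x.2.1.sum ≤ n ∧ x.2.1.sum ≤ j := by
  have h1 := card_le_sum_of_pos h.pa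
  have h2 := h.sum
  have h3 := h.deg
  omega

/-- Adding a middle part `s`. -/
theorem card_conf_sub_le {n j s : ℕ} (hn : s ≤ n) (hj : s ≤ j) :
    (conf (n - s) (j - s)).card ≤ (conf n j).card := by
  classical
  refine Finset.card_le_card_of_injOn
    (fun x => (x.1, x.2.1 + Multiset.replicate s 1, x.2.2)) ?_ ?_
  · intro x hx
    rw [Finset.mem_coe, mem_conf] at hx
    rw [Finset.mem_coe, mem_conf]
    have h1 := hx.sum
    have h2 := hx.deg
    refine ⟨hx.pa, ?_, hx.pc, ?_, ?_⟩
    · intro k hk
      change k ∈ x.2.1 + Multiset.replicate s 1 at hk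
      rcases Multiset.mem_add.1 hk with hk | hk
      · exact hx.pb k hk
      · rw [Multiset.eq_of_mem_replicate hk]
    · simp only [Multiset.sum_add, Multiset.sum_replicate, smul_eq_mul, mul_one]
      omega
    · simp only
      omega
  · intro x _ x' _ h
    simp only [Prod.mk.injEq] at h
    exact Prod.ext h.1 (Prod.ext (add_right_cancel h.2.1) h.2.2)

open Classical in
theorem card_small (n j s B : ℕ) (hn : s ≤ n) (hj : s ≤ j) :
    ((conf n j).filter fun x => Multiset.card x.2.1 < B ∧ x.2.1.sum = s).card ≤
      (conf0 (n - s) (j - s)).card * (pts s).card := by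
  rw [← Finset.card_product]
  refine Finset.card_le_card_of_injOn (fun x => ((x.1, 0, x.2.2), x.2.1)) ?_ ?_
  · intro x hx
    rw [Finset.mem_coe, Finset.mem_filter, mem_conf] at hx
    obtain ⟨hx, _, hs⟩ := hx
    rw [Finset.mem_coe, Finset.mem_product, mem_conf0, mem_pts]
    have h1 := hx.sum
    have h2 := hx.deg
    refine ⟨⟨⟨hx.pa, ?_, hx.pc, ?_, ?_⟩, rfl⟩, hx.pb, hs⟩
    · intro k hk
      exact absurd hk (Multiset.notMem_zero k)
    · simp only [Multiset.sum_zero]
      omega
    · simp only
      omega
  · intro x _ x' _ h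
    simp only [Prod.mk.injEq] at h
    exact Prod.ext h.1.1 (Prod.ext h.2 h.1.2.2)

open Classical in
theorem card_large (n j B K s0 : ℕ) (h0 : ∀ s, s0 ≤ s →
      K * ((pts s).filter fun b => Multiset.card b < B).card ≤ (pts s).card) :
    K * ((conf n j).filter fun x => Multiset.card x.2.1 < B ∧ s0 ≤ x.2.1.sum).card ≤
      (conf n j).card := by
  let f : Multiset ℕ × Multiset ℕ × Multiset ℕ → Multiset ℕ × Multiset ℕ := fun x => (x.1, x.2.2)
  have e1 := Finset.card_eq_sum_card_fiberwise (f := f)
    (s := (conf n j).filter fun x => Multiset.card x.2.1 < B ∧ s0 ≤ x.2.1.sum)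
    (t := (conf n j).image f) (fun x hx => by
      rw [Finset.mem_coe, Finset.mem_filter] at hx
      exact Finset.mem_coe.2 (Finset.mem_image_of_mem f hx.1))
  have e2 := Finset.card_eq_sum_card_fiberwise (f := f) (s := conf n j)
    (t := (conf n j).image f) (fun x hx => Finset.mem_coe.2 (Finset.mem_image_of_mem f hx))
  rw [e1, e2, Finset.mul_sum]
  refine Finset.sum_le_sum fun z hz => ?_
  obtain ⟨w, hw, rfl⟩ := Finset.mem_image.1 hz
  rw [mem_conf] at hw
  set s := w.2.1.sum with hs
  have hfib : ∀ x, x ∈ conf n j → f x = f w → x.2.1 ∈ pts s := by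
    intro x hx he
    rw [mem_conf] at hx
    simp only [f, Prod.mk.injEq] at he
    rw [mem_pts]
    refine ⟨hx.pb, ?_⟩
    have h1 := hx.sum
    have h2 := hw.sum
    rw [he.1, he.2] at h1
    omega
  have hfib' : ∀ b ∈ pts s, (w.1, b, w.2.2) ∈ conf n j := by
    intro b hb
    rw [mem_pts] at hb
    rw [mem_conf]
    refine ⟨hw.pa, hb.1, hw.pc, ?_, hw.deg⟩
    have h2 := hw.sum
    simp only
    omega
  have hle : (pts s).card ≤ ((conf n j).filter fun x => f x = f w).card := by
    refine Finset.card_le_card_of_injOn (fun b => (w.1, b, w.2.2)) ?_ ?_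
    · intro b hb
      rw [Finset.mem_coe, Finset.mem_filter]
      exact ⟨hfib' b hb, rfl⟩
    · intro b _ b' _ h
      simp only [Prod.mk.injEq] at h
      exact h.2.1
  by_cases hs0 : s0 ≤ s
  · have hle2 : (((conf n j).filter fun x => Multiset.card x.2.1 < B ∧ s0 ≤ x.2.1.sum).filter
        fun x => f x = f w).card ≤ ((pts s).filter fun b => Multiset.card b < B).card := by
      refine Finset.card_le_card_of_injOn (fun x => x.2.1) ?_ ?_
      · intro x hx
        rw [Finset.mem_coe, Finset.mem_filter, Finset.mem_filter] at hx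
        rw [Finset.mem_coe, Finset.mem_filter]
        exact ⟨hfib x hx.1.1 hx.2, hx.1.2.1⟩
      · intro x hx x' hx' h
        rw [Finset.mem_coe, Finset.mem_filter] at hx hx'
        have h1 := hx.2.trans hx'.2.symm
        simp only [f, Prod.mk.injEq] at h1
        exact Prod.ext h1.1 (Prod.ext h h1.2)
    exact (Nat.mul_le_mul_left K hle2).trans ((h0 s hs0).trans hle)
  · have hz : (((conf n j).filter fun x => Multiset.card x.2.1 < B ∧ s0 ≤ x.2.1.sum).filter
        fun x => f x = f w) = ∅ := by
      rw [Finset.filter_eq_empty_iff]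
      intro x hx he
      rw [Finset.mem_filter] at hx
      have h1 := (mem_pts.1 (hfib x hx.1 he)).2
      omega
    rw [hz, Finset.card_empty, mul_zero]
    exact Nat.zero_le _

open Classical in
/-- Triples with few middle parts are rare. -/
theorem few (B K : ℕ) : ∃ c : ℕ, ∀ n j : ℕ, c ≤ j → j + c ≤ 2 * n →
    K * ((conf n j).filter fun x => Multiset.card x.2.1 < B).card ≤ (conf n j).card := by
  obtain ⟨s0, h0⟩ := few_pts B (2 * K)
  set P := ∑ s ∈ Finset.range s0, (pts s).card with hP
  obtain ⟨c, hc⟩ := star (2 * K * P)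
  refine ⟨c + s0, fun n j h1 h2 => ?_⟩
  set X := (conf n j).filter fun x => Multiset.card x.2.1 < B with hX
  set X1 := (conf n j).filter fun x => Multiset.card x.2.1 < B ∧ s0 ≤ x.2.1.sum with hX1
  have hcov : X ⊆ X1 ∪ (Finset.range s0).biUnion fun s =>
      (conf n j).filter fun x => Multiset.card x.2.1 < B ∧ x.2.1.sum = s := by
    intro x hx
    rw [hX, Finset.mem_filter] at hx
    rw [Finset.mem_union]
    by_cases hs : s0 ≤ x.2.1.sum
    · exact Or.inl (Finset.mem_filter.2 ⟨hx.1, hx.2, hs⟩)
    · right
      rw [Finset.mem_biUnion]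
      exact ⟨x.2.1.sum, Finset.mem_range.2 (by omega), Finset.mem_filter.2 ⟨hx.1, hx.2, rfl⟩⟩
  have hA : 2 * K * X1.card ≤ (conf n j).card := card_large n j B (2 * K) s0 h0
  have hB : 2 * K * ((Finset.range s0).biUnion fun s =>
      (conf n j).filter fun x => Multiset.card x.2.1 < B ∧ x.2.1.sum = s).card ≤
        (conf n j).card := by
    have hs : ∀ s ∈ Finset.range s0, 2 * K * P * ((conf n j).filter fun x =>
        Multiset.card x.2.1 < B ∧ x.2.1.sum = s).card ≤ (pts s).card * (conf n j).card := by
      intro s hs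
      rw [Finset.mem_range] at hs
      have h3 := card_small n j s B (by omega) (by omega)
      have h4 := hc (n - s) (j - s) (by omega) (by omega)
      have h5 := card_conf_sub_le (n := n) (j := j) (s := s) (by omega) (by omega)
      calc 2 * K * P * ((conf n j).filter fun x =>
            Multiset.card x.2.1 < B ∧ x.2.1.sum = s).card
          ≤ 2 * K * P * ((conf0 (n - s) (j - s)).card * (pts s).card) :=
            Nat.mul_le_mul_left _ h3
        _ = (pts s).card * (2 * K * P * (conf0 (n - s) (j - s)).card) := by ring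
        _ ≤ (pts s).card * (conf n j).card := Nat.mul_le_mul_left _ (h4.trans h5)
    rcases Nat.eq_zero_or_pos P with hP0 | hP0
    · have hs00 : s0 = 0 := by
        by_contra h
        have h3 : (pts 0).card ≤ P :=
          Finset.single_le_sum (f := fun s => (pts s).card) (fun _ _ => Nat.zero_le _)
            (Finset.mem_range.2 (Nat.pos_of_ne_zero h))
        have := card_pts_pos 0
        omega
      rw [hs00]
      simp
    · refine Nat.le_of_mul_le_mul_left (c := P) ?_ hP0
      calc P * (2 * K * ((Finset.range s0).biUnion fun s =>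
            (conf n j).filter fun x => Multiset.card x.2.1 < B ∧ x.2.1.sum = s).card)
          ≤ P * (2 * K * ∑ s ∈ Finset.range s0, ((conf n j).filter fun x =>
            Multiset.card x.2.1 < B ∧ x.2.1.sum = s).card) :=
            Nat.mul_le_mul_left _ (Nat.mul_le_mul_left _ Finset.card_biUnion_le)
        _ = ∑ s ∈ Finset.range s0, 2 * K * P * ((conf n j).filter fun x =>
            Multiset.card x.2.1 < B ∧ x.2.1.sum = s).card := by
            rw [← Finset.mul_sum]
            ring
        _ ≤ ∑ s ∈ Finset.range s0, (pts s).card * (conf n j).card := Finset.sum_le_sum hs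
        _ = P * (conf n j).card := by rw [← Finset.sum_mul]
  have hC := (Finset.card_le_card hcov).trans (Finset.card_union_le _ _)
  have hD : 2 * (K * X.card) ≤ 2 * (conf n j).card := by
    calc 2 * (K * X.card) ≤ 2 * (K * (X1.card + ((Finset.range s0).biUnion fun s =>
      (conf n j).filter fun x => Multiset.card x.2.1 < B ∧ x.2.1.sum = s).card)) :=
          Nat.mul_le_mul_left _ (Nat.mul_le_mul_left _ hC)
      _ = 2 * K * X1.card + 2 * K * ((Finset.range s0).biUnion fun s =>
      (conf n j).filter fun x => Multiset.card x.2.1 < B ∧ x.2.1.sum = s).card := by ring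
      _ ≤ 2 * (conf n j).card := by omega
  omega

end Pool.Agent.ARC
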