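import Pool.Agent.ARC.CFew

/-! # ARC, part C, module CLab: labelled triples of partitions

The exponents in the formula for a product of Hilbert schemes: triples of multisets of labelled
parts `(i, s)`, `i` the factor and `s` the size. -/

set_option autoImplicit false

noncomputable section

namespace Pool.Agent.ARC

open Finset

/-- Multisets of labelled parts. -/
abbrev LP : Type := Multiset (ℕ × ℕ)

/-- The size of the parts with label `i`. -/
def sz (a : LP) (i : ℕ) : ℕ := (a.map fun p => if p.1 = i then p.2 else 0).sum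

/-- The total size. -/
def tot (a : LP) : ℕ := (a.map Prod.snd).sum

theorem sz_add (a b : LP) (i : ℕ) : sz (a + b) i = sz a i + sz b i := by
  rw [sz, sz, sz, Multiset.map_add, Multiset.sum_add]

theorem sz_zero (i : ℕ) : sz 0 i = 0 := by simp [sz]

theorem sz_single (p : ℕ × ℕ) (i : ℕ) : sz {p} i = if p.1 = i then p.2 else 0 := by
  simp [sz]

theorem sz_replicate (t : ℕ) (p : ℕ × ℕ) (i : ℕ) :
    sz (Multiset.replicate t p) i = if p.1 = i then t * p.2 else 0 := by
  rw [sz, Multiset.map_replicate, Multiset.sum_replicate, smul_eq_mul]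
  split_ifs <;> simp

theorem tot_add (a b : LP) : tot (a + b) = tot a + tot b := by
  rw [tot, tot, tot, Multiset.map_add, Multiset.sum_add]

theorem tot_zero : tot 0 = 0 := by simp [tot]

theorem tot_single (p : ℕ × ℕ) : tot {p} = p.2 := by simp [tot]

theorem tot_replicate (t : ℕ) (p : ℕ × ℕ) : tot (Multiset.replicate t p) = t * p.2 := by
  rw [tot, Multiset.map_replicate, Multiset.sum_replicate, smul_eq_mul]

theorem le_tot {a : LP} {p : ℕ × ℕ} (h : p ∈ a) : p.2 ≤ tot a :=
  Multiset.le_sum_of_mem (Multiset.mem_map_of_mem _ h)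

theorem le_sz {a : LP} {p : ℕ × ℕ} (h : p ∈ a) : p.2 ≤ sz a p.1 := by
  refine Multiset.le_sum_of_mem ?_
  rw [Multiset.mem_map]
  exact ⟨p, h, by simp⟩

/-- All parts are positive. -/
def Pos (a : LP) : Prop := ∀ p ∈ a, 1 ≤ p.2

theorem Pos.add {a b : LP} (h : Pos a) (h' : Pos b) : Pos (a + b) := fun p hp =>
  (Multiset.mem_add.1 hp).elim (h p) (h' p)

theorem Pos.le {a b : LP} (h : Pos a) (h' : b ≤ a) : Pos b := fun p hp =>
  h p (Multiset.mem_of_le h' hp)

theorem pos_zero : Pos 0 := fun p hp => absurd hp (Multiset.notMem_zero p)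

theorem pos_replicate {t : ℕ} {p : ℕ × ℕ} (h : 1 ≤ p.2) : Pos (Multiset.replicate t p) :=
  fun q hq => by rw [Multiset.eq_of_mem_replicate hq]; exact h

theorem pos_single {p : ℕ × ℕ} (h : 1 ≤ p.2) : Pos {p} :=
  fun q hq => by rw [Multiset.mem_singleton.1 hq]; exact h

theorem Pos.card_le {a : LP} (h : Pos a) : Multiset.card a ≤ tot a := by
  have h1 : ∀ x ∈ a.map Prod.snd, 1 ≤ x := by
    intro x hx
    obtain ⟨p, hp, rfl⟩ := Multiset.mem_map.1 hx
    exact h p hp
  have := Multiset.card_nsmul_le_sum h1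
  rw [Multiset.card_map, smul_eq_mul, mul_one] at this
  exact this

/-- Labelled triples of partitions with `∑ sizes = n i` for the label `i`. -/
structure IsLab (n : ℕ → ℕ) (N k : ℕ) (x : LP × LP × LP) : Prop where
  pa : Pos x.1
  pb : Pos x.2.1
  pc : Pos x.2.2
  sum : ∀ i, sz x.1 i + sz x.2.1 i + sz x.2.2 i = n i
  deg : k + Multiset.card x.1 = N + Multiset.card x.2.2

theorem tot_eq_sum {a : LP} {r : ℕ} (h : ∀ p ∈ a, p.1 < r) :
    tot a = ∑ i ∈ range r, sz a i := by
  induction a using Multiset.induction_on with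
  | empty => simp [tot_zero, sz_zero]
  | cons p a ih =>
    have h1 : ∀ i, sz (p ::ₘ a) i = (if p.1 = i then p.2 else 0) + sz a i := by
      intro i
      rw [sz, Multiset.map_cons, Multiset.sum_cons, sz]
    have h2 : tot (p ::ₘ a) = p.2 + tot a := by
      rw [tot, Multiset.map_cons, Multiset.sum_cons, tot]
    rw [h2, ih fun q hq => h q (Multiset.mem_cons_of_mem hq)]
    simp only [h1]
    rw [sum_add_distrib, sum_ite_eq, if_pos (mem_range.2 (h p (Multiset.mem_cons_self p a)))]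

section

variable {n : ℕ → ℕ} {r N k : ℕ}

theorem IsLab.lt {x : LP × LP × LP} (hn : ∀ i, r ≤ i → n i = 0) (h : IsLab n N k x)
    {p : ℕ × ℕ} (hp : p ∈ x.1 ∨ p ∈ x.2.1 ∨ p ∈ x.2.2) : p.1 < r := by
  by_contra hcon
  have h1 := hn p.1 (by omega)
  have h2 := h.sum p.1
  rcases hp with hp | hp | hp
  · have := le_sz hp
    have := h.pa p hp
    omega
  · have := le_sz hp
    have := h.pb p hp
    omega
  · have := le_sz hp
    have := h.pc p hp
    omega

theorem IsLab.tot_eq {x : LP × LP × LP} (hn : ∀ i, r ≤ i → n i = 0)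
    (hN : ∑ i ∈ range r, n i = N) (h : IsLab n N k x) :
    tot x.1 + tot x.2.1 + tot x.2.2 = N := by
  rw [tot_eq_sum fun p hp => h.lt hn (Or.inl hp),
    tot_eq_sum fun p hp => h.lt hn (Or.inr (Or.inl hp)),
    tot_eq_sum fun p hp => h.lt hn (Or.inr (Or.inr hp)), ← sum_add_distrib, ← sum_add_distrib,
    ← hN]
  exact sum_congr rfl fun i _ => h.sum i

theorem finite_lp (r N : ℕ) : {a : LP | (∀ p ∈ a, p.1 < r) ∧ Pos a ∧ tot a ≤ N}.Finite := by
  refine Set.Finite.subset
    (Set.finite_Iic (N • ((Finset.range r ×ˢ Finset.range (N + 1)).val : LP))) ?_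
  rintro s ⟨h1, h2, h3⟩
  rw [Set.mem_Iic, Multiset.le_iff_count]
  intro p
  rw [Multiset.count_nsmul]
  by_cases hp : p ∈ s
  · have h6 : p.2 ≤ N := (le_tot hp).trans h3
    have h7 : Multiset.count p (Finset.range r ×ˢ Finset.range (N + 1)).val = 1 := by
      refine Multiset.count_eq_one_of_mem (Finset.nodup _) ?_
      rw [Finset.mem_val, mem_product, mem_range, mem_range]
      exact ⟨h1 p hp, by omega⟩
    rw [h7, mul_one]
    exact (Multiset.count_le_card p s).trans (h2.card_le.trans h3)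
  · rw [Multiset.count_eq_zero_of_notMem hp]
    exact Nat.zero_le _

theorem finite_isLab (hn : ∀ i, r ≤ i → n i = 0) (hN : ∑ i ∈ range r, n i = N) (k : ℕ) :
    {x : LP × LP × LP | IsLab n N k x}.Finite := by
  refine Set.Finite.subset ((finite_lp r N).prod ((finite_lp r N).prod (finite_lp r N))) ?_
  intro x h
  have h1 := h.tot_eq hn hN
  exact ⟨⟨fun p hp => h.lt hn (Or.inl hp), h.pa, by omega⟩,
    ⟨fun p hp => h.lt hn (Or.inr (Or.inl hp)), h.pb, by omega⟩,
    ⟨fun p hp => h.lt hn (Or.inr (Or.inr hp)), h.pc, by omega⟩⟩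

end

/-- The data of a product: sizes `n i`, `i < r`. -/
structure Sizes where
  n : ℕ → ℕ
  r : ℕ
  h : ∀ i, r ≤ i → n i = 0

/-- The total size. -/
def Sizes.N (S : Sizes) : ℕ := ∑ i ∈ range S.r, S.n i

/-- The finite set of labelled triples. -/
def lab (S : Sizes) (k : ℕ) : Finset (LP × LP × LP) :=
  (finite_isLab (n := S.n) (r := S.r) (N := S.N) S.h rfl k).toFinset

theorem mem_lab {S : Sizes} {k : ℕ} {x : LP × LP × LP} : x ∈ lab S k ↔ IsLab S.n S.N k x := by
  rw [lab, Set.Finite.mem_toFinset, Set.mem_ofPred_eq]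

theorem lab_tot {S : Sizes} {k : ℕ} {x : LP × LP × LP} (h : IsLab S.n S.N k x) :
    tot x.1 + tot x.2.1 + tot x.2.2 = S.N := h.tot_eq S.h rfl

/-- Exchanging the first and the last multiset. -/
def swp (x : LP × LP × LP) : LP × LP × LP := (x.2.2, x.2.1, x.1)

theorem swp_swp (x : LP × LP × LP) : swp (swp x) = x := rfl

theorem IsLab.swap {S : Sizes} {k : ℕ} {x : LP × LP × LP} (h : IsLab S.n S.N k x)
    (hk : k ≤ 2 * S.N) : IsLab S.n S.N (2 * S.N - k) (swp x) := by
  refine ⟨h.pc, h.pb, h.pa, fun i => ?_, ?_⟩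
  · have := h.sum i
    simp only [swp]
    omega
  · have := h.deg
    simp only [swp]
    omega

theorem card_lab_swap {S : Sizes} {k : ℕ} (hk : k ≤ 2 * S.N) :
    (lab S (2 * S.N - k)).card = (lab S k).card := by
  refine Finset.card_bij' (fun x _ => swp x) (fun x _ => swp x) ?_ ?_ (fun _ _ => rfl)
    (fun _ _ => rfl)
  · intro x hx
    rw [mem_lab] at hx ⊢
    have := hx.swap (by omega)
    rwa [show 2 * S.N - (2 * S.N - k) = k by omega] at this
  · intro x hx
    rw [mem_lab] at hx ⊢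
    exact hx.swap hk

open Classical in
theorem card_lab_swap_filter {S : Sizes} {k : ℕ} (hk : k ≤ 2 * S.N)
    (p : LP × LP × LP → Prop) :
    ((lab S k).filter fun x => p (swp x)).card = ((lab S (2 * S.N - k)).filter p).card := by
  refine Finset.card_bij' (fun x _ => swp x) (fun x _ => swp x) ?_ ?_ (fun _ _ => rfl)
    (fun _ _ => rfl)
  · intro x hx
    rw [mem_filter, mem_lab] at hx ⊢
    exact ⟨hx.1.swap hk, hx.2⟩
  · intro x hx
    rw [mem_filter, mem_lab] at hx ⊢
    refine ⟨?_, hx.2⟩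
    have := hx.1.swap (by omega)
    rwa [show 2 * S.N - (2 * S.N - k) = k by omega] at this

/-- Double counting with codes: every `x ∈ X` has at least `L` data `e ∈ I x`, and every `y ∈ Y`
is obtained from at most `P` data. -/
theorem card_codes {X E : Type*} (A Y : Finset X) (L P : ℕ) (f : X → E → X) (I : X → Finset E)
    (T : X → Finset E) (h1 : ∀ x ∈ A, L ≤ (I x).card) (h2 : ∀ x ∈ A, ∀ e ∈ I x, f x e ∈ Y)
    (h3 : ∀ x ∈ A, ∀ e ∈ I x, e ∈ T (f x e)) (h4 : ∀ x ∈ A, ∀ e ∈ I x, (T (f x e)).card ≤ P)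
    (h5 : ∀ x ∈ A, ∀ x' ∈ A, ∀ e ∈ I x, e ∈ I x' → f x e = f x' e → x = x') :
    L * A.card ≤ P * Y.card := by
  classical
  have e1 : L * A.card ≤ (A.sigma I).card := by
    rw [card_sigma, mul_comm, ← smul_eq_mul, ← sum_const]
    exact sum_le_sum h1
  have e2 : (A.sigma I).card ≤
      ((Y.filter fun y => (T y).card ≤ P).sigma T).card := by
    refine card_le_card_of_injOn (fun z => ⟨f z.1 z.2, z.2⟩) ?_ ?_
    · intro z hz
      rw [mem_coe, mem_sigma] at hz
      rw [mem_coe, mem_sigma, mem_filter]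
      exact ⟨⟨h2 z.1 hz.1 z.2 hz.2, h4 z.1 hz.1 z.2 hz.2⟩, h3 z.1 hz.1 z.2 hz.2⟩
    · rintro ⟨x, e⟩ hz ⟨x', e'⟩ hz' h
      rw [mem_coe, mem_sigma] at hz hz'
      simp only [Sigma.mk.injEq, heq_eq_eq] at h
      obtain ⟨h6, rfl⟩ := h
      rw [h5 x hz.1 x' hz'.1 e hz.2 hz'.2 h6]
  have e3 : ((Y.filter fun y => (T y).card ≤ P).sigma T).card ≤ P * Y.card := by
    rw [card_sigma]
    calc ∑ y ∈ Y.filter fun y => (T y).card ≤ P, (T y).card
        ≤ ∑ _y ∈ Y.filter fun y => (T y).card ≤ P, P :=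
          sum_le_sum fun y hy => (mem_filter.1 hy).2
      _ = (Y.filter fun y => (T y).card ≤ P).card * P := by rw [sum_const, smul_eq_mul]
      _ ≤ Y.card * P := Nat.mul_le_mul_right _ (card_filter_le _ _)
      _ = P * Y.card := mul_comm _ _
  exact e1.trans (e2.trans e3)

end Pool.Agent.ARC
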