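import Pool.Agent.ARC.CLabF
import Pool.Agent.ARC.CBri

/-! # ARC, part C, module CLabB: Göttsche's formula for products as a sum over labelled triples -/

set_option autoImplicit false

noncomputable section

namespace Pool.Agent.ARC

open Finset Pool.Agent.PGZ2

/-- The weight of a multiset of labelled parts. -/
def wt (h : ℕ → ℕ → ℤ) (b : LP) : ℤ := ∏ p ∈ b.toFinset, h p.1 (b.count p)

/-- The weight of a partition. -/
def wt1 (h : ℕ → ℤ) (b : Multiset ℕ) : ℤ := ∏ s ∈ b.toFinset, h (b.count s)

theorem wt1_msf (h : ℕ → ℤ) (h0 : h 0 = 1) {n : ℕ} (m : Fin n → ℕ) :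
    wt1 h (msf m) = ∏ i : Fin n, h (m i) := by
  classical
  have h1 : (msf m).toFinset ⊆ univ.image fun i : Fin n => (i : ℕ) + 1 := by
    intro s hs
    rw [Multiset.mem_toFinset, msf, Multiset.mem_sum] at hs
    obtain ⟨i, _, hi⟩ := hs
    have h2 := Multiset.mem_of_mem_nsmul hi
    rw [Multiset.mem_singleton] at h2
    exact mem_image.2 ⟨i, mem_univ i, h2.symm⟩
  rw [wt1, prod_subset h1, prod_image]
  · exact prod_congr rfl fun i _ => by rw [count_msf]
  · intro i _ j _ hij
    simp only at hij
    exact Fin.ext (by omega)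
  · intro s _ hs
    rw [Multiset.mem_toFinset] at hs
    rw [Multiset.count_eq_zero_of_notMem hs, h0]

theorem gott_eq (h : ℕ → ℤ) (h0 : h 0 = 1) (n j : ℕ) :
    gott h n j = ∑ x ∈ conf n j, wt1 h x.2.1 := by
  classical
  have h1 : conf n j = (gIdx n j).image toConf := by
    refine Subset.antisymm (conf_subset n j) ?_
    intro x hx
    obtain ⟨v, hv, rfl⟩ := mem_image.1 hx
    exact toConf_mem hv
  rw [gott, h1, sum_image fun v _ v' _ h => toConf_injective h]
  refine sum_congr rfl fun v _ => ?_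
  rw [toConf]
  exact (wt1_msf h h0 _).symm

/-- Truncated sizes. -/
def trs (n : ℕ → ℕ) (r : ℕ) : Sizes where
  n := fun i => if i < r then n i else 0
  r := r
  h := fun _ hi => if_neg (not_lt.2 hi)

theorem trs_N (n : ℕ → ℕ) (r : ℕ) : (trs n r).N = ∑ i ∈ range r, n i := by
  rw [Sizes.N]
  exact sum_congr rfl fun i hi => if_pos (mem_range.1 hi)

theorem trs_N_succ (n : ℕ → ℕ) (r : ℕ) : (trs n (r + 1)).N = (trs n r).N + n r := by
  rw [trs_N, trs_N, sum_range_succ]

theorem prt_add (a b : LP) (i : ℕ) : prt (a + b) i = prt a i + prt b i := by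
  rw [prt, prt, prt, Multiset.filter_add, Multiset.map_add]

theorem prt_mkl (i : ℕ) (b : Multiset ℕ) : prt (mkl i b) i = b := by
  apply mkl_injective i
  have h := mkl_prt_oth (mkl i b) i
  rwa [oth_mkl, add_zero] at h

theorem prt_of_ne {a : LP} {i : ℕ} (h : ∀ p ∈ a, p.1 ≠ i) : prt a i = 0 := by
  rw [prt, Multiset.filter_eq_nil.2 h, Multiset.map_zero]

theorem oth_of_ne {a : LP} {i : ℕ} (h : ∀ p ∈ a, p.1 ≠ i) : oth a i = a :=
  Multiset.filter_eq_self.2 h

theorem wt_add_mkl (h : ℕ → ℕ → ℤ) {a : LP} {i : ℕ} (b : Multiset ℕ) (ha : ∀ p ∈ a, p.1 ≠ i) :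
    wt h (a + mkl i b) = wt h a * wt1 (h i) b := by
  classical
  have hd : Disjoint a.toFinset (mkl i b).toFinset := by
    rw [disjoint_left]
    intro p hp hp'
    rw [Multiset.mem_toFinset] at hp hp'
    exact ha p hp (mem_mkl.1 hp').1
  rw [wt, Multiset.toFinset_add, prod_union hd]
  congr 1
  · refine prod_congr rfl fun p hp => ?_
    rw [Multiset.mem_toFinset] at hp
    rw [Multiset.count_add, Multiset.count_eq_zero_of_notMem (s := mkl i b), add_zero]
    intro h'
    exact ha p hp (mem_mkl.1 h').1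
  · have h1 : (mkl i b).toFinset = b.toFinset.image fun s => (i, s) := by
      ext p
      rw [Multiset.mem_toFinset, mem_mkl, mem_image]
      constructor
      · rintro ⟨h1, h2⟩
        exact ⟨p.2, Multiset.mem_toFinset.2 h2, Prod.ext h1.symm rfl⟩
      · rintro ⟨s, hs, rfl⟩
        exact ⟨rfl, Multiset.mem_toFinset.1 hs⟩
    rw [h1, wt1, prod_image fun s _ s' _ hss => (Prod.ext_iff.1 hss).2]
    refine prod_congr rfl fun s _ => ?_
    rw [Multiset.count_add, Multiset.count_eq_zero_of_notMem (s := a), zero_add, mkl,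
      Multiset.count_map_eq_count' _ _ (fun s s' hss => (Prod.ext_iff.1 hss).2)]
    intro h'
    exact ha _ h' rfl

theorem lab_zero (n : ℕ → ℕ) (k : ℕ) : lab (trs n 0) k = if k = 0 then {(0, 0, 0)} else ∅ := by
  ext x
  rw [mem_lab]
  have hN : (trs n 0).N = 0 := by rw [trs_N, range_zero, sum_empty]
  have key : IsLab (trs n 0).n (trs n 0).N k x → x = (0, 0, 0) := by
    intro h
    have h1 : ∀ p : ℕ × ℕ, ¬ (p ∈ x.1 ∨ p ∈ x.2.1 ∨ p ∈ x.2.2) := fun p hp =>
      absurd (h.lt (trs n 0).h hp) (Nat.not_lt_zero _)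
    refine Prod.ext ?_ (Prod.ext ?_ ?_)
    · exact Multiset.eq_zero_of_forall_notMem fun p hp => h1 p (Or.inl hp)
    · exact Multiset.eq_zero_of_forall_notMem fun p hp => h1 p (Or.inr (Or.inl hp))
    · exact Multiset.eq_zero_of_forall_notMem fun p hp => h1 p (Or.inr (Or.inr hp))
  split_ifs with hk
  · rw [mem_singleton]
    refine ⟨key, ?_⟩
    rintro rfl
    refine ⟨pos_zero, pos_zero, pos_zero, fun i => ?_, ?_⟩
    · simp [sz_zero, trs]
    · rw [hN, hk]
  · refine ⟨fun h => ?_, fun h => absurd h (notMem_empty _)⟩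
    have h1 := key h
    have h2 := h.deg
    rw [h1, hN] at h2
    simp at h2
    exact absurd h2 hk

/-- Göttsche's formula for products. -/
theorem coeff_prod_gott (h : ℕ → ℕ → ℤ) (h0 : ∀ i, h i 0 = 1) (n : ℕ → ℕ) (r : ℕ) : ∀ k : ℕ,
    PowerSeries.coeff k (∏ i ∈ range r, PowerSeries.mk fun j => gott (h i) (n i) j) =
      ∑ x ∈ lab (trs n r) k, wt h x.2.1 := by
  classical
  induction r with
  | zero =>
    intro k
    rw [range_zero, prod_empty, lab_zero, PowerSeries.coeff_one]
    split_ifs
    · simp [wt]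
    · simp
  | succ r ih =>
    intro k
    rw [prod_range_succ, PowerSeries.coeff_mul]
    have e1 : ∀ x ∈ antidiagonal k, (PowerSeries.coeff x.1)
        (∏ i ∈ range r, PowerSeries.mk fun j => gott (h i) (n i) j) *
        (PowerSeries.coeff x.2) (PowerSeries.mk fun j => gott (h r) (n r) j) =
        ∑ z ∈ lab (trs n r) x.1 ×ˢ conf (n r) x.2, wt h z.1.2.1 * wt1 (h r) z.2.2.1 := by
      intro x _
      rw [ih, PowerSeries.coeff_mk, gott_eq (h r) (h0 r), sum_mul_sum, sum_product]
    rw [sum_congr rfl e1, sum_sigma']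
    have hlt : ∀ k' : ℕ, ∀ x : LP × LP × LP, x ∈ lab (trs n r) k' →
        (∀ p ∈ x.1, p.1 ≠ r) ∧ (∀ p ∈ x.2.1, p.1 ≠ r) ∧ (∀ p ∈ x.2.2, p.1 ≠ r) := by
      intro k' x hx
      rw [mem_lab] at hx
      exact ⟨fun p hp => (hx.lt (trs n r).h (Or.inl hp)).ne,
        fun p hp => (hx.lt (trs n r).h (Or.inr (Or.inl hp))).ne,
        fun p hp => (hx.lt (trs n r).h (Or.inr (Or.inr hp))).ne⟩
    refine sum_bij'
      (fun z _ => (z.2.1.1 + mkl r z.2.2.1, z.2.1.2.1 + mkl r z.2.2.2.1,
        z.2.1.2.2 + mkl r z.2.2.2.2))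
      (fun y _ => ⟨((trs n r).N + Multiset.card (oth y.2.2 r) - Multiset.card (oth y.1 r),
        n r + Multiset.card (prt y.2.2 r) - Multiset.card (prt y.1 r)),
        ((oth y.1 r, oth y.2.1 r, oth y.2.2 r), (prt y.1 r, prt y.2.1 r, prt y.2.2 r))⟩)
      ?_ ?_ ?_ ?_ ?_
    · rintro ⟨⟨k1, k2⟩, x, z⟩ hz
      rw [mem_sigma, mem_product, HasAntidiagonal.mem_antidiagonal] at hz
      obtain ⟨hk, hx, hz⟩ := hz
      simp only at hk hx hz
      obtain ⟨l1, l2, l3⟩ := hlt k1 x hx
      rw [mem_lab] at hx ⊢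
      rw [mem_conf] at hz
      refine ⟨hx.pa.add (pos_mkl hz.pa), hx.pb.add (pos_mkl hz.pb), hx.pc.add (pos_mkl hz.pc),
        fun i => ?_, ?_⟩
      · have g1 := hx.sum i
        have g2 := hz.sum
        simp only [sz_add, sz_mkl]
        simp only [trs] at g1 ⊢
        by_cases hi : i = r
        · subst hi
          rw [if_neg (lt_irrefl _)] at g1
          rw [if_pos rfl, if_pos rfl, if_pos rfl, if_pos (Nat.lt_succ_self _)]
          omega
        · rw [if_neg (Ne.symm hi), if_neg (Ne.symm hi), if_neg (Ne.symm hi)]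
          have h3 : (i < r + 1) ↔ i < r := by omega
          simp only [h3]
          omega
      · have g1 := hx.deg
        have g2 := hz.deg
        rw [trs_N_succ]
        simp only [Multiset.card_add, mkl, Multiset.card_map]
        omega
    · intro y hy
      rw [mem_lab] at hy
      have hN := trs_N_succ n r
      have hlty := fun p hp => hy.lt (trs n (r + 1)).h (p := p) hp
      have f1 : ∀ a : LP, Multiset.card (prt a r) + Multiset.card (oth a r) = Multiset.card a := by
        intro a
        conv_rhs => rw [← mkl_prt_oth a r]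
        rw [Multiset.card_add, mkl, Multiset.card_map]
      have f2 : ∀ (a : LP) (i : ℕ), i ≠ r → sz (oth a r) i = sz a i := by
        intro a i hi
        conv_rhs => rw [← mkl_prt_oth a r]
        rw [sz_add, sz_mkl, if_neg (Ne.symm hi), zero_add]
      have hsumr : (prt y.1 r).sum + (prt y.2.1 r).sum + (prt y.2.2 r).sum = n r := by
        rw [sum_prt, sum_prt, sum_prt, hy.sum r]
        simp only [trs]
        rw [if_pos (Nat.lt_succ_self _)]
      have hpos1 : Pos (oth y.1 r) := hy.pa.le (Multiset.filter_le _ _)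
      have hpos2 : Pos (oth y.2.1 r) := hy.pb.le (Multiset.filter_le _ _)
      have hpos3 : Pos (oth y.2.2 r) := hy.pc.le (Multiset.filter_le _ _)
      have hsum : ∀ i, sz (oth y.1 r) i + sz (oth y.2.1 r) i + sz (oth y.2.2 r) i =
          (trs n r).n i := by
        intro i
        by_cases hi : i = r
        · subst hi
          rw [sz_oth, sz_oth, sz_oth]
          simp only [trs]
          rw [if_neg (lt_irrefl _)]
        · rw [f2 _ i hi, f2 _ i hi, f2 _ i hi, hy.sum i]
          simp only [trs]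
          have h3 : (i < r + 1) ↔ i < r := by omega
          simp only [h3]
      have hc1 : Multiset.card (oth y.1 r) ≤ (trs n r).N := by
        have g1 : tot (oth y.1 r) + tot (oth y.2.1 r) + tot (oth y.2.2 r) = (trs n r).N := by
          have g2 : ∀ a : LP, (∀ p ∈ a, p.1 < r + 1) → ∀ p ∈ oth a r, p.1 < r := by
            intro a ha p hp
            have := ha p (Multiset.mem_filter.1 hp).1
            have := (Multiset.mem_filter.1 hp).2
            omega
          rw [tot_eq_sum (g2 _ fun p hp => hlty p (Or.inl hp)),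
            tot_eq_sum (g2 _ fun p hp => hlty p (Or.inr (Or.inl hp))),
            tot_eq_sum (g2 _ fun p hp => hlty p (Or.inr (Or.inr hp))), ← sum_add_distrib,
            ← sum_add_distrib]
          exact sum_congr rfl fun i _ => hsum i
        have := hpos1.card_le
        omega
      have hc2 : Multiset.card (prt y.1 r) ≤ n r := by
        have := card_le_sum_of_pos (hy.pa.prt r)
        omega
      have g3 := hy.deg
      have f11 := f1 y.1
      have f13 := f1 y.2.2
      rw [mem_sigma, mem_product, HasAntidiagonal.mem_antidiagonal]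
      refine ⟨?_, ?_, ?_⟩
      · simp only
        omega
      · simp only
        rw [mem_lab]
        refine ⟨hpos1, hpos2, hpos3, hsum, ?_⟩
        simp only
        omega
      · simp only
        rw [mem_conf]
        refine ⟨hy.pa.prt r, hy.pb.prt r, hy.pc.prt r, hsumr, ?_⟩
        simp only
        omega
    · rintro ⟨⟨k1, k2⟩, x, z⟩ hz
      rw [mem_sigma, mem_product, HasAntidiagonal.mem_antidiagonal] at hz
      obtain ⟨hk, hx, hz⟩ := hz
      simp only at hk hx hz
      obtain ⟨l1, l2, l3⟩ := hlt k1 x hx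
      have g1 := (mem_lab.1 hx).deg
      have g2 := (mem_conf.1 hz).deg
      simp only [oth_add, oth_mkl, oth_of_ne l1, oth_of_ne l2, oth_of_ne l3, add_zero, prt_add,
        prt_mkl, prt_of_ne l1, prt_of_ne l2, prt_of_ne l3, zero_add, Sigma.mk.injEq,
        Prod.mk.injEq]
      refine ⟨⟨by omega, by omega⟩, ?_⟩
      have e2 : (trs n r).N + Multiset.card x.2.2 - Multiset.card x.1 = k1 := by omega
      have e3 : n r + Multiset.card z.2.2 - Multiset.card z.1 = k2 := by omega
      rfl
    · intro y hy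
      simp only
      refine Prod.ext ?_ (Prod.ext ?_ ?_)
      · simp only
        rw [add_comm, mkl_prt_oth]
      · simp only
        rw [add_comm, mkl_prt_oth]
      · simp only
        rw [add_comm, mkl_prt_oth]
    · rintro ⟨⟨k1, k2⟩, x, z⟩ hz
      rw [mem_sigma, mem_product, HasAntidiagonal.mem_antidiagonal] at hz
      obtain ⟨hk, hx, hz⟩ := hz
      simp only at hk hx hz
      obtain ⟨l1, l2, l3⟩ := hlt k1 x hx
      exact (wt_add_mkl h z.2.1 l2).symm

end Pool.Agent.ARC
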