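import Pool.Agent.ARC.CLabB

/-! # ARC, part C, module CLabD: domination for sums over labelled triples -/

set_option autoImplicit false

noncomputable section

namespace Pool.Agent.ARC

open Finset Pool.Agent.PGZ2

/-- The hypotheses on a pair of sequences. -/
structure Dm (K Q : ℕ) (r : ℝ) (M : ℕ → ℕ) (s : ℕ → ℤ) (D : ℕ → ℕ) : Prop where
  s0 : s 0 = 1
  D0 : D 0 = 1
  mono : Monotone D
  le : ∀ q, |s q| ≤ (D q : ℤ)
  lt : ∀ q, 1 ≤ q → ((|s q| : ℤ) : ℝ) ≤ r * (D q : ℝ)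
  lim : ∀ q, Q ≤ q → (2 * K : ℤ) * |s q| ≤ (D q : ℤ)
  bd : ∀ q, D q ≤ M q

theorem Dm.weaken {K Q Q' : ℕ} {r r' : ℝ} {M M' : ℕ → ℕ} {s : ℕ → ℤ} {D : ℕ → ℕ}
    (h : Dm K Q r M s D) (hQ : Q ≤ Q') (hr : r ≤ r') (hM : ∀ q, M q ≤ M' q) :
    Dm K Q' r' M' s D :=
  ⟨h.s0, h.D0, h.mono, h.le, fun q hq => (h.lt q hq).trans
    (mul_le_mul_of_nonneg_right hr (Nat.cast_nonneg _)), fun q hq => h.lim q (hQ.trans hq),
    fun q => (h.bd q).trans (hM q)⟩

/-- A uniform strict bound. -/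
private theorem rho_exists' (s D : ℕ → ℝ) (hD : ∀ q, 0 < D q) (h1 : ∀ q, 1 ≤ q → s q < D q)
    (Q : ℕ) (h2 : ∀ q, Q ≤ q → 2 * s q ≤ D q) :
    ∃ r : ℝ, 0 ≤ r ∧ r < 1 ∧ ∀ q, 1 ≤ q → s q ≤ r * D q := by
  have key : ∀ n : ℕ, ∃ r : ℝ, 1 / 2 ≤ r ∧ r < 1 ∧ ∀ q, 1 ≤ q → q < n → s q ≤ r * D q := by
    intro n
    induction n with
    | zero => exact ⟨1 / 2, le_rfl, by norm_num, fun q _ h => absurd h (Nat.not_lt_zero q)⟩
    | succ n ih =>
      obtain ⟨r, hr1, hr2, hr3⟩ := ih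
      rcases Nat.eq_zero_or_pos n with hn | hn
      · exact ⟨r, hr1, hr2, fun q h3 h4 => by omega⟩
      · refine ⟨max r (s n / D n), le_trans hr1 (le_max_left _ _), ?_, ?_⟩
        · refine max_lt hr2 ?_
          rw [div_lt_one (hD n)]
          exact h1 n hn
        · intro q h3 h4
          rcases Nat.lt_succ_iff_lt_or_eq.1 h4 with h5 | h5
          · exact (hr3 q h3 h5).trans
              (mul_le_mul_of_nonneg_right (le_max_left _ _) (hD q).le)
          · subst h5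
            have h6 : s q = s q / D q * D q := by
              rw [div_mul_cancel₀ _ (hD q).ne']
            calc s q = s q / D q * D q := h6
              _ ≤ _ := mul_le_mul_of_nonneg_right (le_max_right _ _) (hD q).le
  obtain ⟨r, hr1, hr2, hr3⟩ := key Q
  refine ⟨r, by linarith, hr2, fun q hq => ?_⟩
  by_cases h : q < Q
  · exact hr3 q hq h
  · have h3 := h2 q (by omega)
    have h4 := mul_le_mul_of_nonneg_right hr1 (hD q).le
    linarith

theorem dm_exists (s : ℕ → ℤ) (D : ℕ → ℕ) (hs0 : s 0 = 1) (hD0 : D 0 = 1) (hmon : Monotone D)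
    (hle : ∀ q, |s q| ≤ (D q : ℤ)) (hlt : ∀ q, 1 ≤ q → |s q| < (D q : ℤ))
    (hlim : ∀ K : ℕ, ∃ Q : ℕ, ∀ q, Q ≤ q → (K : ℤ) * |s q| ≤ (D q : ℤ)) (K : ℕ) :
    ∃ (Q : ℕ) (r : ℝ), 0 ≤ r ∧ r < 1 ∧ Dm K Q r D s D := by
  have hD1 : ∀ q, 1 ≤ D q := fun q => by
    rw [← hD0]
    exact hmon (Nat.zero_le q)
  obtain ⟨Q2, hQ2⟩ := hlim 2
  obtain ⟨r, hr0, hr1, hr⟩ := rho_exists' (fun q => ((|s q| : ℤ) : ℝ)) (fun q => (D q : ℝ))
    (fun q => by exact_mod_cast hD1 q) (fun q hq => by exact_mod_cast hlt q hq) Q2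
    (fun q hq => by exact_mod_cast hQ2 q hq)
  obtain ⟨Q, hQ⟩ := hlim (2 * K)
  exact ⟨Q, r, hr0, hr1, hs0, hD0, hmon, hle, hr, fun q hq => by exact_mod_cast hQ q hq,
    fun q => le_rfl⟩

theorem wt_abs (s : ℕ → ℕ → ℤ) (b : LP) : |wt s b| = ∏ p ∈ b.toFinset, |s p.1 (b.count p)| :=
  abs_prod _ _

open Classical in
/-- Domination for sums over labelled triples. -/
theorem dom_lab (K Q : ℕ) (r : ℝ) (hr0 : 0 ≤ r) (hr1 : r < 1) (M : ℕ → ℕ) :
    ∃ c : ℕ, ∀ (S : Sizes) (s : ℕ → ℕ → ℤ) (D : ℕ → ℕ → ℕ), (∀ i, Dm K Q r M (s i) (D i)) →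
      ∀ k, c ≤ k → k + c ≤ 2 * S.N →
        (K : ℤ) * |∑ x ∈ lab S k, wt s x.2.1| ≤
          ∑ x ∈ lab S k, wt (fun i q => (D i q : ℤ)) x.2.1 := by
  obtain ⟨R, hR⟩ : ∃ R : ℕ, (2 * K : ℝ) * r ^ R ≤ 1 := by
    have h1 := ((tendsto_pow_atTop_nhds_zero_of_lt_one hr0 hr1).const_mul (2 * K : ℝ))
    rw [mul_zero] at h1
    obtain ⟨R, hR⟩ := (h1.eventually_lt_const one_pos).exists
    exact ⟨R, hR.le⟩
  set B := (Q + 1) * R with hB
  set MB := M B + 1 with hMB
  obtain ⟨c, hc⟩ := lab_few B (2 * K * MB ^ B)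
  refine ⟨c, fun S s D hDm k h1 h2 => ?_⟩
  have hD1 : ∀ i q, 1 ≤ D i q := fun i q => by
    rw [← (hDm i).D0]
    exact (hDm i).mono (Nat.zero_le q)
  have hPle : ∀ b : LP, |wt s b| ≤ wt (fun i q => (D i q : ℤ)) b := by
    intro b
    rw [wt_abs]
    exact prod_le_prod (fun p _ => abs_nonneg _) fun p _ => (hDm p.1).le _
  have hPn : ∀ b : LP, 0 ≤ wt (fun i q => (D i q : ℤ)) b := fun b =>
    prod_nonneg fun p _ => Nat.cast_nonneg _
  -- many middle parts
  have hbig : ∀ b : LP, B ≤ Multiset.card b →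
      ((2 * K : ℕ) : ℤ) * |wt s b| ≤ wt (fun i q => (D i q : ℤ)) b := by
    intro b hv
    rw [wt_abs]
    by_cases hex : ∃ p ∈ b, Q ≤ b.count p
    · obtain ⟨p, hp, hi⟩ := hex
      have hp' : p ∈ b.toFinset := Multiset.mem_toFinset.2 hp
      rw [wt, ← mul_prod_erase b.toFinset (fun p => |s p.1 (b.count p)|) hp',
        ← mul_prod_erase b.toFinset (fun p => (D p.1 (b.count p) : ℤ)) hp', ← mul_assoc]
      refine mul_le_mul ?_ ?_ (prod_nonneg fun i _ => abs_nonneg _) (Nat.cast_nonneg _)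
      · have := (hDm p.1).lim _ hi
        push_cast
        exact this
      · exact prod_le_prod (fun i _ => abs_nonneg _) fun i _ => (hDm i.1).le _
    · push Not at hex
      have h3 : Multiset.card b ≤ (Q + 1) * b.toFinset.card := by
        rw [← Multiset.toFinset_sum_count_eq, mul_comm, ← smul_eq_mul, ← sum_const]
        exact sum_le_sum fun p hp => (hex p (Multiset.mem_toFinset.1 hp)).le.trans
          (Nat.le_succ _)
      have h4 : R ≤ b.toFinset.card := by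
        have h5 : (Q + 1) * R ≤ (Q + 1) * b.toFinset.card := (hB ▸ hv).trans h3
        exact Nat.le_of_mul_le_mul_left h5 (by omega)
      have h5 : ((∏ p ∈ b.toFinset, |s p.1 (b.count p)| : ℤ) : ℝ) ≤
          r ^ b.toFinset.card * ∏ p ∈ b.toFinset, ((D p.1 (b.count p) : ℕ) : ℝ) := by
        rw [Int.cast_prod, ← prod_const, ← prod_mul_distrib]
        refine prod_le_prod (fun i _ => by positivity) fun p hp => ?_
        exact (hDm p.1).lt _ (Multiset.one_le_count_iff_mem.2 (Multiset.mem_toFinset.1 hp))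
      have h6 : (((2 * K : ℕ) : ℤ) * ∏ p ∈ b.toFinset, |s p.1 (b.count p)| : ℝ) ≤
          ∏ p ∈ b.toFinset, ((D p.1 (b.count p) : ℕ) : ℝ) := by
        have h7 : (0 : ℝ) ≤ ∏ p ∈ b.toFinset, ((D p.1 (b.count p) : ℕ) : ℝ) :=
          prod_nonneg fun i _ => Nat.cast_nonneg _
        have h8 : r ^ b.toFinset.card ≤ r ^ R := pow_le_pow_of_le_one hr0 hr1.le h4
        have h9 : (0 : ℝ) ≤ 2 * K := by positivity
        calc (((2 * K : ℕ) : ℤ) * ∏ p ∈ b.toFinset, |s p.1 (b.count p)| : ℝ)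
            = (2 * K : ℝ) * ((∏ p ∈ b.toFinset, |s p.1 (b.count p)| : ℤ) : ℝ) := by
              push_cast; ring
          _ ≤ (2 * K : ℝ) * (r ^ b.toFinset.card *
              ∏ p ∈ b.toFinset, ((D p.1 (b.count p) : ℕ) : ℝ)) :=
              mul_le_mul_of_nonneg_left h5 h9
          _ = ((2 * K : ℝ) * r ^ b.toFinset.card) *
              ∏ p ∈ b.toFinset, ((D p.1 (b.count p) : ℕ) : ℝ) := by ring
          _ ≤ 1 * ∏ p ∈ b.toFinset, ((D p.1 (b.count p) : ℕ) : ℝ) := by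
              refine mul_le_mul_of_nonneg_right ?_ h7
              exact (mul_le_mul_of_nonneg_left h8 h9).trans hR
          _ = _ := one_mul _
      rw [wt]
      exact_mod_cast h6
  -- few middle parts
  have hsmall : ∀ b : LP, Multiset.card b < B → |wt s b| ≤ ((MB ^ B : ℕ) : ℤ) := by
    intro b hv
    refine (hPle b).trans ?_
    have h3 : ∏ p ∈ b.toFinset, D p.1 (b.count p) ≤ MB ^ b.toFinset.card := by
      rw [← prod_const]
      refine prod_le_prod' fun p _ => ?_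
      have h4 : b.count p ≤ B := (Multiset.count_le_card p b).trans hv.le
      exact ((hDm p.1).mono h4).trans (((hDm p.1).bd B).trans (Nat.le_succ _))
    have h4 : b.toFinset.card ≤ B := (Multiset.toFinset_card_le b).trans hv.le
    have h5 := h3.trans (Nat.pow_le_pow_right (Nat.succ_pos _) h4)
    rw [wt]
    exact_mod_cast h5
  have e0 : |∑ x ∈ lab S k, wt s x.2.1| ≤ ∑ x ∈ lab S k, |wt s x.2.1| := abs_sum_le_sum_abs _ _
  have e1 := sum_filter_add_sum_filter_not (lab S k)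
    (fun x => Multiset.card x.2.1 < B) (fun x => |wt s x.2.1|)
  have e2 : ((2 * K : ℕ) : ℤ) * ∑ x ∈ (lab S k).filter (fun x => ¬ Multiset.card x.2.1 < B),
      |wt s x.2.1| ≤ ∑ x ∈ lab S k, wt (fun i q => (D i q : ℤ)) x.2.1 := by
    rw [mul_sum]
    refine (sum_le_sum (g := fun x => wt (fun i q => (D i q : ℤ)) x.2.1) fun x hx => ?_).trans ?_
    · rw [mem_filter, not_lt] at hx
      exact hbig _ hx.2
    · exact sum_le_sum_of_subset_of_nonneg (filter_subset _ _) fun x _ _ => hPn _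
  have e3 : ((2 * K : ℕ) : ℤ) * ∑ x ∈ (lab S k).filter (fun x => Multiset.card x.2.1 < B),
      |wt s x.2.1| ≤ ∑ x ∈ lab S k, wt (fun i q => (D i q : ℤ)) x.2.1 := by
    have h3 : ∑ x ∈ (lab S k).filter (fun x => Multiset.card x.2.1 < B), |wt s x.2.1| ≤
        (((lab S k).filter (fun x => Multiset.card x.2.1 < B)).card : ℤ) *
          ((MB ^ B : ℕ) : ℤ) := by
      rw [← nsmul_eq_mul]
      refine sum_le_card_nsmul _ _ _ fun x hx => ?_
      rw [mem_filter] at hx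
      exact hsmall _ hx.2
    have h5 := hc S k h1 h2
    have h6 : ((lab S k).card : ℤ) ≤ ∑ x ∈ lab S k, wt (fun i q => (D i q : ℤ)) x.2.1 := by
      rw [card_eq_sum_ones, Nat.cast_sum]
      refine sum_le_sum fun x _ => ?_
      have : (1 : ℤ) ≤ ((∏ p ∈ x.2.1.toFinset, D p.1 (x.2.1.count p) : ℕ) : ℤ) := by
        exact_mod_cast Nat.one_le_iff_ne_zero.2 (prod_ne_zero_iff.2 fun i _ =>
          Nat.one_le_iff_ne_zero.1 (hD1 _ _))
      rw [Nat.cast_prod] at this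
      rw [wt]
      simpa using this
    calc ((2 * K : ℕ) : ℤ) * ∑ x ∈ (lab S k).filter (fun x => Multiset.card x.2.1 < B),
          |wt s x.2.1|
        ≤ ((2 * K : ℕ) : ℤ) * ((((lab S k).filter (fun x => Multiset.card x.2.1 < B)).card : ℤ) *
          ((MB ^ B : ℕ) : ℤ)) := mul_le_mul_of_nonneg_left h3 (by positivity)
      _ = ((2 * K * MB ^ B *
          ((lab S k).filter fun x => Multiset.card x.2.1 < B).card : ℕ) : ℤ) := by
          push_cast
          ring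
      _ ≤ ((lab S k).card : ℤ) := by exact_mod_cast h5
      _ ≤ _ := h6
  have e4 : (2 : ℤ) * (K * |∑ x ∈ lab S k, wt s x.2.1|) ≤
      2 * ∑ x ∈ lab S k, wt (fun i q => (D i q : ℤ)) x.2.1 := by
    have h3 : (2 : ℤ) * (K * |∑ x ∈ lab S k, wt s x.2.1|) ≤
        ((2 * K : ℕ) : ℤ) * ∑ x ∈ lab S k, |wt s x.2.1| := by
      calc (2 : ℤ) * (K * |∑ x ∈ lab S k, wt s x.2.1|) =
            ((2 * K : ℕ) : ℤ) * |∑ x ∈ lab S k, wt s x.2.1| := by
            push_cast
            ring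
        _ ≤ _ := mul_le_mul_of_nonneg_left e0 (by positivity)
    rw [← e1, mul_add] at h3
    linarith
  linarith

/-- Domination for products of sequences given by Göttsche's formula. -/
theorem dom_prod (K Q : ℕ) (r : ℝ) (hr0 : 0 ≤ r) (hr1 : r < 1) (M : ℕ → ℕ) :
    ∃ c : ℕ, ∀ (ι : Type) [Fintype ι] (n : ι → ℕ) (s : ι → ℕ → ℤ) (D : ι → ℕ → ℕ),
      (∀ i, Dm K Q r M (s i) (D i)) → ∀ k, c ≤ k → k + c ≤ 2 * ∑ i, n i →
        (K : ℤ) * |PowerSeries.coeff k (∏ i, PowerSeries.mk fun j => gott (s i) (n i) j)| ≤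
          PowerSeries.coeff k (∏ i, PowerSeries.mk fun j =>
            gott (fun q => (D i q : ℤ)) (n i) j) := by
  classical
  obtain ⟨c, hc⟩ := dom_lab K Q r hr0 hr1 M
  refine ⟨c + 1, fun ι _ n s D hDm k h1 h2 => ?_⟩
  have hne : Nonempty ι := by
    by_contra hcon
    rw [not_nonempty_iff] at hcon
    rw [univ_eq_empty, sum_empty] at h2
    omega
  obtain ⟨i0⟩ := hne
  let e := Fintype.equivFin ι
  set l := Fintype.card ι with hl
  let u : ℕ → ι := fun i => if h : i < l then e.symm ⟨i, h⟩ else i0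
  have hu : ∀ i : Fin l, u i = e.symm i := fun i => by
    simp only [u, dif_pos i.2]
  have key : ∀ f : ι → PowerSeries ℤ, ∏ i ∈ range l, f (u i) = ∏ i, f i := by
    intro f
    rw [← Fin.prod_univ_eq_prod_range (fun i => f (u i)) l]
    refine Fintype.prod_equiv e.symm _ _ fun i => ?_
    rw [hu]
  have keys : ∀ f : ι → ℕ, ∑ i ∈ range l, f (u i) = ∑ i, f i := by
    intro f
    rw [← Fin.sum_univ_eq_sum_range (fun i => f (u i)) l]
    refine Fintype.sum_equiv e.symm _ _ fun i => ?_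
    rw [hu]
  have h3 := hc (trs (fun i => n (u i)) l) (fun i => s (u i)) (fun i => D (u i))
    (fun i => hDm (u i)) k (by omega) (by rw [trs_N, keys]; omega)
  rw [← coeff_prod_gott (fun i => s (u i)) (fun i => (hDm (u i)).s0) (fun i => n (u i)) l k,
    ← coeff_prod_gott (fun i q => (D (u i) q : ℤ)) (fun i => by
      rw [(hDm (u i)).D0, Nat.cast_one]) (fun i => n (u i)) l k,
    key (fun i => PowerSeries.mk fun j => gott (s i) (n i) j),
    key (fun i => PowerSeries.mk fun j => gott (fun q => (D i q : ℤ)) (n i) j)] at h3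
  exact h3

end Pool.Agent.ARC
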