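import Pool.Agent.ARC.CLabM

/-! # ARC, part C, module CLabF: labelled triples with few middle parts are rare -/

set_option autoImplicit false

noncomputable section

namespace Pool.Agent.ARC

open Finset

/-- The sizes of the parts with label `i`. -/
def prt (a : LP) (i : ℕ) : Multiset ℕ := (a.filter fun p => p.1 = i).map Prod.snd

/-- The parts with other labels. -/
def oth (a : LP) (i : ℕ) : LP := a.filter fun p => ¬ p.1 = i

/-- Parts with label `i`. -/
def mkl (i : ℕ) (b : Multiset ℕ) : LP := b.map fun s => (i, s)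

theorem mkl_prt_oth (a : LP) (i : ℕ) : mkl i (prt a i) + oth a i = a := by
  have h1 : mkl i (prt a i) = a.filter fun p => p.1 = i := by
    rw [mkl, prt, Multiset.map_map]
    conv_rhs => rw [← Multiset.map_id (a.filter fun p => p.1 = i)]
    refine Multiset.map_congr rfl fun p hp => ?_
    have h2 := (Multiset.mem_filter.1 hp).2
    exact Prod.ext h2.symm rfl
  rw [h1, oth, Multiset.filter_add_not]

theorem mem_mkl {i : ℕ} {b : Multiset ℕ} {p : ℕ × ℕ} : p ∈ mkl i b ↔ p.1 = i ∧ p.2 ∈ b := by
  rw [mkl, Multiset.mem_map]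
  constructor
  · rintro ⟨s, hs, rfl⟩
    exact ⟨rfl, hs⟩
  · rintro ⟨h1, h2⟩
    exact ⟨p.2, h2, Prod.ext h1.symm rfl⟩

theorem oth_add (a b : LP) (i : ℕ) : oth (a + b) i = oth a i + oth b i :=
  Multiset.filter_add _ _ _

theorem oth_mkl (b : Multiset ℕ) (i : ℕ) : oth (mkl i b) i = 0 := by
  rw [oth, Multiset.filter_eq_nil]
  intro p hp h
  exact h (mem_mkl.1 hp).1

theorem oth_oth (a : LP) (i : ℕ) : oth (oth a i) i = oth a i := by
  rw [oth, oth, Multiset.filter_filter]
  simp only [and_self]

theorem mkl_injective (i : ℕ) : Function.Injective (mkl i) :=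
  Multiset.map_injective fun _ _ h => (Prod.ext_iff.1 h).2

theorem sz_mkl (i : ℕ) (b : Multiset ℕ) (j : ℕ) : sz (mkl i b) j = if i = j then b.sum else 0 := by
  rw [sz, mkl, Multiset.map_map]
  split_ifs with h
  · congr 1
    conv_rhs => rw [← Multiset.map_id b]
    refine Multiset.map_congr rfl fun p hp => ?_
    simp [h]
  · rw [Multiset.sum_eq_zero]
    intro x hx
    obtain ⟨s, hs, rfl⟩ := Multiset.mem_map.1 hx
    simp [h]

theorem sz_oth (a : LP) (i : ℕ) : sz (oth a i) i = 0 := by
  rw [sz, Multiset.sum_eq_zero]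
  intro x hx
  obtain ⟨p, hp, rfl⟩ := Multiset.mem_map.1 hx
  rw [if_neg (Multiset.mem_filter.1 hp).2]

theorem sum_prt (a : LP) (i : ℕ) : (prt a i).sum = sz a i := by
  have h := congrArg (fun b => sz b i) (mkl_prt_oth a i)
  simp only [sz_add, sz_mkl, sz_oth, if_true, add_zero] at h
  exact h

theorem card_prt_le (a : LP) (i : ℕ) : Multiset.card (prt a i) ≤ Multiset.card a := by
  rw [prt, Multiset.card_map]
  exact Multiset.card_le_card (Multiset.filter_le _ _)

theorem card_oth_le (a : LP) (i : ℕ) : Multiset.card (oth a i) ≤ Multiset.card a :=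
  Multiset.card_le_card (Multiset.filter_le _ _)

theorem pos_mkl {i : ℕ} {b : Multiset ℕ} (h : ∀ s ∈ b, 1 ≤ s) : Pos (mkl i b) := fun p hp =>
  h p.2 (mem_mkl.1 hp).2

theorem Pos.prt {a : LP} (h : Pos a) (i : ℕ) : ∀ s ∈ prt a i, 1 ≤ s := by
  intro s hs
  rw [ARC.prt, Multiset.mem_map] at hs
  obtain ⟨p, hp, rfl⟩ := hs
  exact h p (Multiset.mem_filter.1 hp).1

open Classical in
/-- The comparison for one label. -/
theorem card_label (S : Sizes) (k B K s1 i : ℕ) (hs1 : 1 ≤ s1) (h0 : ∀ s, s1 ≤ s →
      K * ((pts s).filter fun b => Multiset.card b < B).card ≤ (pts s).card) :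
    K * ((lab S k).filter fun x => Multiset.card x.2.1 < B ∧ s1 ≤ sz x.2.1 i).card ≤
      ((lab S k).filter fun x => Multiset.card (oth x.2.1 i) < B ∧ 1 ≤ sz x.2.1 i).card := by
  set X := (lab S k).filter fun x => Multiset.card x.2.1 < B ∧ s1 ≤ sz x.2.1 i with hX
  set Y := (lab S k).filter fun x => Multiset.card (oth x.2.1 i) < B ∧ 1 ≤ sz x.2.1 i with hY
  let f : LP × LP × LP → LP × LP × LP := fun x => (x.1, oth x.2.1 i, x.2.2)
  have hXY : X ⊆ Y := by
    intro x hx
    rw [hX, mem_filter] at hx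
    rw [hY, mem_filter]
    exact ⟨hx.1, lt_of_le_of_lt (card_oth_le _ _) hx.2.1, hs1.trans hx.2.2⟩
  have e1 := card_eq_sum_card_fiberwise (f := f) (s := X) (t := Y.image f) (fun x hx =>
    mem_coe.2 (mem_image_of_mem f (hXY (mem_coe.1 hx))))
  have e2 := card_eq_sum_card_fiberwise (f := f) (s := Y) (t := Y.image f)
    (fun x hx => mem_coe.2 (mem_image_of_mem f hx))
  rw [e1, e2, mul_sum]
  refine sum_le_sum fun z hz => ?_
  obtain ⟨w, hw, rfl⟩ := mem_image.1 hz
  rw [hY, mem_filter, mem_lab] at hw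
  obtain ⟨hw, hwo, hws⟩ := hw
  set s := sz w.2.1 i with hs
  have hfib : ∀ x, x ∈ lab S k → f x = f w → prt x.2.1 i ∈ pts s := by
    intro x hx he
    rw [mem_lab] at hx
    simp only [f, Prod.mk.injEq] at he
    rw [mem_pts]
    refine ⟨hx.pb.prt i, ?_⟩
    have h1 := hx.sum i
    have h2 := hw.sum i
    rw [he.1, he.2.2] at h1
    rw [sum_prt]
    omega
  have hle : (pts s).card ≤ (Y.filter fun x => f x = f w).card := by
    refine card_le_card_of_injOn (fun b => (w.1, mkl i b + oth w.2.1 i, w.2.2)) ?_ ?_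
    · intro b hb
      rw [mem_coe, mem_pts] at hb
      have ho : oth (mkl i b + oth w.2.1 i) i = oth w.2.1 i := by
        rw [oth_add, oth_mkl, oth_oth, zero_add]
      have hsi : ∀ j, sz (mkl i b + oth w.2.1 i) j = sz w.2.1 j := by
        intro j
        conv_rhs => rw [← mkl_prt_oth w.2.1 i]
        rw [sz_add, sz_add, sz_mkl, sz_mkl, sum_prt, ← hs, hb.2]
      rw [mem_coe, mem_filter, hY, mem_filter, mem_lab]
      refine ⟨⟨⟨hw.pa, ?_, hw.pc, fun j => ?_, hw.deg⟩, ?_, ?_⟩, ?_⟩
      · exact (pos_mkl hb.1).add (hw.pb.le (Multiset.filter_le _ _))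
      · simp only [hsi]
        exact hw.sum j
      · simp only [ho]
        exact hwo
      · simp only [hsi]
        exact hws
      · simp only [f, ho]
    · intro b _ b' _ h
      simp only [Prod.mk.injEq, true_and, and_true] at h
      exact mkl_injective i (add_right_cancel h)
  by_cases hs0 : s1 ≤ s
  · have hle2 : (X.filter fun x => f x = f w).card ≤
        ((pts s).filter fun b => Multiset.card b < B).card := by
      refine card_le_card_of_injOn (fun x => prt x.2.1 i) ?_ ?_
      · intro x hx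
        rw [mem_coe, mem_filter, hX, mem_filter] at hx
        rw [mem_coe, mem_filter]
        exact ⟨hfib x hx.1.1 hx.2, lt_of_le_of_lt (card_prt_le _ _) hx.1.2.1⟩
      · intro x hx x' hx' h
        rw [mem_coe, mem_filter] at hx hx'
        have h1 := hx.2.trans hx'.2.symm
        simp only [f, Prod.mk.injEq] at h1
        simp only at h
        refine Prod.ext h1.1 (Prod.ext ?_ h1.2.2)
        rw [← mkl_prt_oth x.2.1 i, ← mkl_prt_oth x'.2.1 i, h, h1.2.1]
    exact (Nat.mul_le_mul_left K hle2).trans ((h0 s hs0).trans hle)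
  · have hz : (X.filter fun x => f x = f w) = ∅ := by
      rw [filter_eq_empty_iff]
      intro x hx he
      rw [hX, mem_filter] at hx
      have h1 := (mem_pts.1 (hfib x hx.1 he)).2
      rw [sum_prt] at h1
      omega
    rw [hz, card_empty, mul_zero]
    exact Nat.zero_le _

/-- Few labels are good. -/
theorem card_labels_le (y : LP) (B r : ℕ) :
    ((range r).filter fun i => Multiset.card (oth y i) < B ∧ 1 ≤ sz y i).card ≤ B := by
  classical
  rcases Finset.eq_empty_or_nonempty
    ((range r).filter fun i => Multiset.card (oth y i) < B ∧ 1 ≤ sz y i) with h | ⟨i0, h⟩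
  · rw [h, card_empty]
    exact Nat.zero_le _
  · rw [mem_filter] at h
    have h1 : ((range r).filter fun i => Multiset.card (oth y i) < B ∧ 1 ≤ sz y i) ⊆
        insert i0 ((oth y i0).map Prod.fst).toFinset := by
      intro i hi
      rw [mem_filter] at hi
      rw [mem_insert, Multiset.mem_toFinset, Multiset.mem_map]
      by_cases h2 : i = i0
      · exact Or.inl h2
      · right
        by_contra hcon
        push Not at hcon
        have h3 : sz y i = 0 := by
          rw [sz, Multiset.sum_eq_zero]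
          intro x hx
          obtain ⟨p, hp, rfl⟩ := Multiset.mem_map.1 hx
          rw [if_neg]
          intro h4
          exact hcon p (Multiset.mem_filter.2 ⟨hp, fun h5 => h2 (h4.symm.trans h5)⟩) h4
        omega
    refine (card_le_card h1).trans ((card_insert_le _ _).trans ?_)
    have h2 := Multiset.toFinset_card_le ((oth y i0).map Prod.fst)
    rw [Multiset.card_map] at h2
    omega

theorem exists_big {a : LP} {B s1 : ℕ} (hs : 1 ≤ s1) (h : Multiset.card a < B)
    (h' : B * s1 ≤ tot a) : ∃ p ∈ a, s1 ≤ p.2 := by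
  by_contra hcon
  push Not at hcon
  have h1 := Multiset.sum_le_card_nsmul (a.map Prod.snd) s1 (by
    intro x hx
    obtain ⟨p, hp, rfl⟩ := Multiset.mem_map.1 hx
    exact (hcon p hp).le)
  rw [Multiset.card_map, smul_eq_mul] at h1
  have h2 : Multiset.card a * s1 < B * s1 := Nat.mul_lt_mul_of_pos_right h hs
  change tot a ≤ _ at h1
  omega

open Classical in
/-- The labelled triples with few middle parts are rare. -/
theorem lab_few (B K : ℕ) : ∃ c : ℕ, ∀ (S : Sizes) (k : ℕ), c ≤ k → k + c ≤ 2 * S.N →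
    K * ((lab S k).filter fun x => Multiset.card x.2.1 < B).card ≤ (lab S k).card := by
  obtain ⟨s1', h1'⟩ := few_pts B (2 * K * B)
  set s1 := s1' + 1 with hs1
  have h1 : ∀ s, s1 ≤ s → 2 * K * B * ((pts s).filter fun b => Multiset.card b < B).card ≤
      (pts s).card := fun s hs => h1' s (by omega)
  obtain ⟨c, hc⟩ := lab_tot_rare (B * s1) (2 * K)
  refine ⟨c, fun S k hk1 hk2 => ?_⟩
  rcases Nat.eq_zero_or_pos B with hB | hB
  · have : ((lab S k).filter fun x => Multiset.card x.2.1 < B) = ∅ := by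
      rw [filter_eq_empty_iff]
      intro x _ h
      omega
    rw [this, card_empty, mul_zero]
    exact Nat.zero_le _
  set X := (lab S k).filter fun x => Multiset.card x.2.1 < B with hX
  set X0 := (lab S k).filter fun x => tot x.2.1 < B * s1 with hX0
  set Xi : ℕ → Finset (LP × LP × LP) := fun i =>
    (lab S k).filter fun x => Multiset.card x.2.1 < B ∧ s1 ≤ sz x.2.1 i with hXi
  set Yi : ℕ → Finset (LP × LP × LP) := fun i =>
    (lab S k).filter fun x => Multiset.card (oth x.2.1 i) < B ∧ 1 ≤ sz x.2.1 i with hYi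
  have hcov : X ⊆ X0 ∪ (range S.r).biUnion Xi := by
    intro x hx
    rw [hX, mem_filter] at hx
    rw [mem_union]
    by_cases h2 : tot x.2.1 < B * s1
    · exact Or.inl (mem_filter.2 ⟨hx.1, h2⟩)
    · right
      obtain ⟨p, hp, hp2⟩ := exists_big (by omega) hx.2 (not_lt.1 h2)
      rw [mem_biUnion]
      refine ⟨p.1, mem_range.2 ((mem_lab.1 hx.1).lt S.h (Or.inr (Or.inl hp))),
        mem_filter.2 ⟨hx.1, hx.2, hp2.trans (le_sz hp)⟩⟩
  have hA : 2 * K * X0.card ≤ (lab S k).card := hc S k hk1 hk2
  have hY : ∑ i ∈ range S.r, (Yi i).card ≤ B * (lab S k).card := by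
    have e1 : ∑ i ∈ range S.r, (Yi i).card = ∑ y ∈ lab S k,
        ((range S.r).filter fun i => Multiset.card (oth y.2.1 i) < B ∧ 1 ≤ sz y.2.1 i).card := by
      simp only [hYi, card_filter]
      exact sum_comm
    rw [e1, mul_comm, ← smul_eq_mul]
    exact sum_le_card_nsmul _ _ _ fun y _ => card_labels_le y.2.1 B S.r
  have hXY : 2 * K * B * ∑ i ∈ range S.r, (Xi i).card ≤ B * (lab S k).card := by
    rw [mul_sum]
    exact (sum_le_sum fun i _ => card_label S k B (2 * K * B) s1 i (by omega) h1).trans hY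
  have hB' : 2 * K * ∑ i ∈ range S.r, (Xi i).card ≤ (lab S k).card := by
    refine Nat.le_of_mul_le_mul_left (c := B) ?_ hB
    calc B * (2 * K * ∑ i ∈ range S.r, (Xi i).card)
        = 2 * K * B * ∑ i ∈ range S.r, (Xi i).card := by ring
      _ ≤ _ := hXY
  have hC : X.card ≤ X0.card + ∑ i ∈ range S.r, (Xi i).card :=
    (card_le_card hcov).trans ((card_union_le _ _).trans
      (Nat.add_le_add_left card_biUnion_le _))
  have hD : 2 * (K * X.card) ≤ 2 * (lab S k).card := by
    calc 2 * (K * X.card) ≤ 2 * (K * (X0.card + ∑ i ∈ range S.r, (Xi i).card)) :=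
          Nat.mul_le_mul_left _ (Nat.mul_le_mul_left _ hC)
      _ = 2 * K * X0.card + 2 * K * ∑ i ∈ range S.r, (Xi i).card := by ring
      _ ≤ 2 * (lab S k).card := by omega
  omega

end Pool.Agent.ARC
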