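import Pool.Agent.ARC.CLab

/-! # ARC, part C, module CLabM: moves between labelled triples

For `c ≤ k ≤ 2 N - c` the labelled triples with a small middle part are rare. -/

set_option autoImplicit false

noncomputable section

namespace Pool.Agent.ARC

open Finset

/-- Codes of moves. -/
abbrev Cd : Type := (ℕ × ℕ) × (ℕ × ℕ) × ℕ

/-- Removing parts and adding parts, depending on a code. -/
structure Mv where
  ra : Cd → LP
  ad : Cd → LP
  nw : Cd → LP
  rc : Cd → LP
  ac : Cd → LP
  size : ∀ p q : ℕ × ℕ, ∀ t : ℕ, 1 ≤ p.2 → 1 ≤ q.2 → ∀ i, sz (ra (p, q, t)) i +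
    sz (rc (p, q, t)) i = sz (ad (p, q, t)) i + sz (nw (p, q, t)) i + sz (ac (p, q, t)) i
  deg : ∀ e, Multiset.card (ra e) + Multiset.card (ac e) =
    Multiset.card (rc e) + Multiset.card (ad e)
  pos : ∀ p q : ℕ × ℕ, ∀ t : ℕ, 1 ≤ p.2 → 1 ≤ q.2 →
    Pos (ad (p, q, t)) ∧ Pos (nw (p, q, t)) ∧ Pos (ac (p, q, t))
  two : ∀ e, (nw e).toFinset.card ≤ 2
  inj : ∀ p q : ℕ × ℕ, ∀ t t' : ℕ, 1 ≤ p.2 → 1 ≤ q.2 →
    tot (nw (p, q, t)) = tot (nw (p, q, t')) → t = t'
  le : ∀ p q : ℕ × ℕ, ∀ t : ℕ, 1 ≤ p.2 → 1 ≤ q.2 → t ≤ tot (nw (p, q, t))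

/-- The code `e` can be applied to `x`. -/
structure Mv.Ok (m : Mv) (x : LP × LP × LP) (e : Cd) : Prop where
  p1 : 1 ≤ e.1.2
  p2 : 1 ≤ e.2.1.2
  m1 : e.1 ∈ m.nw e
  m2 : e.2.1 ∈ m.nw e
  l1 : m.ra e ≤ x.1
  l2 : m.rc e ≤ x.2.2

/-- The result of a move. -/
def Mv.app (m : Mv) (x : LP × LP × LP) (e : Cd) : LP × LP × LP :=
  (x.1 - m.ra e + m.ad e, x.2.1 + m.nw e, x.2.2 - m.rc e + m.ac e)

theorem sz_sub {a b : LP} (h : b ≤ a) (i : ℕ) : sz (a - b) i + sz b i = sz a i := by
  rw [← sz_add, Multiset.sub_add_cancel h]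

theorem Mv.app_mem (m : Mv) {S : Sizes} {k : ℕ} {x : LP × LP × LP} {e : Cd}
    (hx : x ∈ lab S k) (h : m.Ok x e) : m.app x e ∈ lab S k := by
  obtain ⟨p, q, t⟩ := e
  rw [mem_lab] at hx ⊢
  obtain ⟨f1, f2, f3⟩ := m.pos p q t h.p1 h.p2
  refine ⟨?_, ?_, ?_, fun i => ?_, ?_⟩
  · exact (hx.pa.le (Multiset.sub_le_self _ _)).add f1
  · exact hx.pb.add f2
  · exact (hx.pc.le (Multiset.sub_le_self _ _)).add f3
  · have h1 := hx.sum i
    have h2 := m.size p q t h.p1 h.p2 i
    have h3 := sz_sub h.l1 i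
    have h4 := sz_sub h.l2 i
    simp only [Mv.app, sz_add]
    omega
  · have h1 := hx.deg
    have h2 := m.deg (p, q, t)
    have h3 := congrArg Multiset.card (Multiset.sub_add_cancel h.l1)
    have h4 := congrArg Multiset.card (Multiset.sub_add_cancel h.l2)
    rw [Multiset.card_add] at h3 h4
    simp only [Mv.app, Multiset.card_add]
    omega

theorem Mv.app_inj (m : Mv) {x x' : LP × LP × LP} {e : Cd} (h : m.Ok x e) (h' : m.Ok x' e)
    (he : m.app x e = m.app x' e) : x = x' := by
  rw [Mv.app, Mv.app, Prod.mk.injEq, Prod.mk.injEq] at he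
  obtain ⟨e1, e2, e3⟩ := he
  have e4 := add_right_cancel e1
  have e6 := add_right_cancel e3
  refine Prod.ext ?_ (Prod.ext (add_right_cancel e2) ?_)
  · rw [← Multiset.sub_add_cancel h.l1, ← Multiset.sub_add_cancel h'.l1, e4]
  · rw [← Multiset.sub_add_cancel h.l2, ← Multiset.sub_add_cancel h'.l2, e6]

theorem card_toFinset_le (a : LP) : a.toFinset.card ≤ Multiset.card a :=
  Multiset.toFinset_card_le a

open Classical in
/-- Counting with a move. -/
theorem Mv.card_le (m : Mv) (S : Sizes) (k s0 L : ℕ) (A : Finset (LP × LP × LP))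
    (hA : A ⊆ lab S k) (hs : ∀ x ∈ A, tot x.2.1 < s0)
    (hI : ∀ x ∈ A, ∃ I : Finset Cd, L ≤ I.card ∧ ∀ e ∈ I, m.Ok x e) :
    L * A.card ≤ ((s0 + 2) ^ 2 * s0) * (lab S k).card := by
  let I : LP × LP × LP → Finset Cd := fun x =>
    if h : ∃ I : Finset Cd, L ≤ I.card ∧ ∀ e ∈ I, m.Ok x e then h.choose else ∅
  have hI' : ∀ x ∈ A, L ≤ (I x).card ∧ ∀ e ∈ I x, m.Ok x e := by
    intro x hx
    have h := hI x hx
    simp only [I, dif_pos h]
    exact h.choose_spec
  let T : LP × LP × LP → Finset Cd := fun y =>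
    (y.2.1.toFinset ×ˢ y.2.1.toFinset ×ˢ range (tot y.2.1 + 1)).filter fun e =>
      tot (m.nw e) ≤ tot y.2.1 ∧ tot y.2.1 < tot (m.nw e) + s0
  refine card_codes A (lab S k) L _ m.app I T (fun x hx => (hI' x hx).1)
    (fun x hx e he => m.app_mem (hA hx) ((hI' x hx).2 e he)) ?_ ?_
    (fun x hx x' hx' e he he' h => m.app_inj ((hI' x hx).2 e he) ((hI' x' hx').2 e he') h)
  · intro x hx e he
    have h := (hI' x hx).2 e he
    have h1 := m.le e.1 e.2.1 e.2.2 h.p1 h.p2
    have h2 := hs x hx
    simp only [T, Mv.app, mem_filter, mem_product, Multiset.mem_toFinset, mem_range, tot_add]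
    refine ⟨⟨Multiset.mem_add.2 (Or.inr h.m1), Multiset.mem_add.2 (Or.inr h.m2), ?_⟩, ?_, ?_⟩
    · have h3 : (e.1, e.2.1, e.2.2) = e := rfl
      rw [h3] at h1
      omega
    · omega
    · omega
  · intro x hx e he
    have h := (hI' x hx).2 e he
    set y := m.app x e with hy
    have hypos : Pos y.2.1 := (mem_lab.1 (m.app_mem (hA hx) h)).pb
    have hcard : y.2.1.toFinset.card ≤ s0 + 2 := by
      have h1 : y.2.1.toFinset = x.2.1.toFinset ∪ (m.nw e).toFinset := by
        rw [hy, Mv.app]
        exact Multiset.toFinset_add _ _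
      rw [h1]
      have h2 := card_union_le x.2.1.toFinset (m.nw e).toFinset
      have h3 := m.two e
      have h4 := card_toFinset_le x.2.1
      have h5 := (mem_lab.1 (hA hx)).pb.card_le
      have h6 := hs x hx
      omega
    have h1 : (T y).card ≤ ((y.2.1.toFinset ×ˢ y.2.1.toFinset) ×ˢ range s0).card := by
      refine card_le_card_of_injOn
        (fun e => ((e.1, e.2.1), tot y.2.1 - tot (m.nw e))) ?_ ?_
      · intro e he
        rw [mem_coe] at he
        simp only [T, mem_filter, mem_product] at he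
        rw [mem_coe, mem_product, mem_product, mem_range]
        refine ⟨⟨he.1.1, he.1.2.1⟩, ?_⟩
        have h7 := he.2
        simp only
        omega
      · rintro ⟨p, q, t⟩ he ⟨p', q', t'⟩ he' heq
        rw [mem_coe] at he he'
        simp only [T, mem_filter, mem_product, Multiset.mem_toFinset] at he he'
        simp only [Prod.mk.injEq] at heq
        obtain ⟨⟨rfl, rfl⟩, h3⟩ := heq
        have h4 := m.inj p q t t' (hypos p he.1.1) (hypos q he.1.2.1) (by omega)
        rw [h4]
    refine h1.trans ?_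
    rw [card_product, card_product, card_range, sq]
    exact Nat.mul_le_mul_right _ (Nat.mul_le_mul hcard hcard)

/-- The dual of a move. -/
def Mv.dual (m : Mv) : Mv where
  ra := m.rc
  ad := m.ac
  nw := m.nw
  rc := m.ra
  ac := m.ad
  size := fun p q t hp hq i => by
    have := m.size p q t hp hq i
    omega
  deg := fun e => by
    have := m.deg e
    omega
  pos := fun p q t hp hq => ⟨(m.pos p q t hp hq).2.2, (m.pos p q t hp hq).2.1,
    (m.pos p q t hp hq).1⟩
  two := m.two
  inj := m.inj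
  le := m.le

theorem Mv.dual_ok {m : Mv} {x : LP × LP × LP} {e : Cd} (h : m.Ok (swp x) e) : m.dual.Ok x e :=
  ⟨h.p1, h.p2, h.m1, h.m2, h.l2, h.l1⟩

/-- A large part `(i, M)`, `M = q.2 + 1 + t`, is replaced by `(i, 1)`. -/
def mv1 : Mv where
  ra := fun e => {(e.1.1, e.1.2 + 1 + e.2.2)}
  ad := fun e => {(e.1.1, 1)}
  nw := fun e => {e.1} + Multiset.replicate e.2.2 (e.1.1, 1)
  rc := fun _ => 0
  ac := fun _ => 0
  size := fun p q t hp hq i => by
    rw [sz_single, sz_single, sz_add, sz_single, sz_replicate, sz_zero]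
    simp only
    split_ifs <;> omega
  deg := fun e => by simp
  pos := fun p q t hp hq => by
    refine ⟨pos_single le_rfl, (pos_single hp).add (pos_replicate le_rfl), pos_zero⟩
  two := fun e => by
    rw [Multiset.toFinset_add]
    refine (card_union_le _ _).trans ?_
    have h1 : (({e.1} : LP)).toFinset.card ≤ 1 := by
      rw [Multiset.toFinset_singleton, card_singleton]
    have h2 : (Multiset.replicate e.2.2 (e.1.1, 1)).toFinset.card ≤ 1 := by
      refine (card_le_card (t := {(e.1.1, 1)}) ?_).trans (by rw [card_singleton])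
      intro x hx
      rw [Multiset.mem_toFinset] at hx
      rw [mem_singleton]
      exact Multiset.eq_of_mem_replicate hx
    omega
  inj := fun p q t t' hp hq h => by
    simp only [tot_add, tot_single, tot_replicate] at h
    omega
  le := fun p q t hp hq => by
    simp only [tot_add, tot_single, tot_replicate]
    omega

/-- `t` parts `(i, s + 1)` are replaced by `(i, 1)`. -/
def mv3 : Mv where
  ra := fun e => Multiset.replicate e.2.2 (e.1.1, e.1.2 + 1)
  ad := fun e => Multiset.replicate e.2.2 (e.1.1, 1)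
  nw := fun e => Multiset.replicate e.2.2 e.1
  rc := fun _ => 0
  ac := fun _ => 0
  size := fun p q t hp hq i => by
    rw [sz_replicate, sz_replicate, sz_replicate, sz_zero]
    simp only
    split_ifs
    · ring
    · rfl
  deg := fun e => by simp
  pos := fun p q t hp hq => by
    refine ⟨pos_replicate le_rfl, pos_replicate hp, pos_zero⟩
  two := fun e => by
    have h2 : (Multiset.replicate e.2.2 e.1).toFinset.card ≤ 1 := by
      refine (card_le_card (t := {e.1}) ?_).trans (by rw [card_singleton])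
      intro x hx
      rw [Multiset.mem_toFinset] at hx
      rw [mem_singleton]
      exact Multiset.eq_of_mem_replicate hx
    omega
  inj := fun p q t t' hp hq h => by
    simp only [tot_replicate] at h
    exact Nat.eq_of_mul_eq_mul_right (by omega) h
  le := fun p q t hp hq => by
    simp only [tot_replicate]
    exact Nat.le_mul_of_pos_right _ hp

/-- `t` parts `p` of the first and `t` parts `q` of the last multiset are moved to the middle. -/
def mv4 : Mv where
  ra := fun e => Multiset.replicate e.2.2 e.1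
  ad := fun _ => 0
  nw := fun e => Multiset.replicate e.2.2 e.1 + Multiset.replicate e.2.2 e.2.1
  rc := fun e => Multiset.replicate e.2.2 e.2.1
  ac := fun _ => 0
  size := fun p q t hp hq i => by
    rw [sz_add, sz_zero]
    omega
  deg := fun e => by simp
  pos := fun p q t hp hq => by
    refine ⟨pos_zero, (pos_replicate hp).add (pos_replicate hq), pos_zero⟩
  two := fun e => by
    rw [Multiset.toFinset_add]
    refine (card_union_le _ _).trans ?_
    have h1 : (Multiset.replicate e.2.2 e.1).toFinset.card ≤ 1 := by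
      refine (card_le_card (t := {e.1}) ?_).trans (by rw [card_singleton])
      intro x hx
      rw [Multiset.mem_toFinset] at hx
      rw [mem_singleton]
      exact Multiset.eq_of_mem_replicate hx
    have h2 : (Multiset.replicate e.2.2 e.2.1).toFinset.card ≤ 1 := by
      refine (card_le_card (t := {e.2.1}) ?_).trans (by rw [card_singleton])
      intro x hx
      rw [Multiset.mem_toFinset] at hx
      rw [mem_singleton]
      exact Multiset.eq_of_mem_replicate hx
    omega
  inj := fun p q t t' hp hq h => by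
    simp only [tot_add, tot_replicate] at h
    rw [← mul_add, ← mul_add] at h
    exact Nat.eq_of_mul_eq_mul_right (by omega) h
  le := fun p q t hp hq => by
    simp only [tot_add, tot_replicate]
    have := Nat.le_mul_of_pos_right t hp
    omega

/-- Codes for a large part. -/
theorem codes1 {x : LP × LP × LP} {L : ℕ} (h : ∃ p ∈ x.1, L + 2 ≤ p.2) :
    ∃ I : Finset Cd, L ≤ I.card ∧ ∀ e ∈ I, mv1.Ok x e := by
  classical
  obtain ⟨p, hp, hL⟩ := h
  refine ⟨(range L).image fun t => ((p.1, p.2 - 1 - t), (p.1, p.2 - 1 - t), t), ?_, ?_⟩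
  · rw [card_image_of_injective, card_range]
    intro t t' h
    simp only [Prod.mk.injEq] at h
    exact h.2.2
  · intro e he
    obtain ⟨t, ht, rfl⟩ := mem_image.1 he
    rw [mem_range] at ht
    refine ⟨by simp only; omega, by simp only; omega, ?_, ?_, ?_, Multiset.zero_le _⟩
    · exact Multiset.mem_add.2 (Or.inl (Multiset.mem_singleton_self _))
    · exact Multiset.mem_add.2 (Or.inl (Multiset.mem_singleton_self _))
    · change ({(p.1, p.2 - 1 - t + 1 + t)} : LP) ≤ x.1
      rw [show p.2 - 1 - t + 1 + t = p.2 by omega, Multiset.singleton_le]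
      exact hp

/-- Codes for many parts of size at least two. -/
theorem codes3 {x : LP × LP × LP} {L : ℕ}
    (h : L ≤ Multiset.card (x.1.filter fun p => 2 ≤ p.2)) :
    ∃ I : Finset Cd, L ≤ I.card ∧ ∀ e ∈ I, mv3.Ok x e := by
  classical
  set a := x.1.filter fun p => 2 ≤ p.2 with ha
  have ha2 : ∀ p ∈ a, 2 ≤ p.2 := fun p hp => (Multiset.mem_filter.1 hp).2
  refine ⟨a.toEnumFinset.image fun z => ((z.1.1, z.1.2 - 1), (z.1.1, z.1.2 - 1), z.2 + 1),
    ?_, ?_⟩
  · rw [card_image_of_injOn, Multiset.card_toEnumFinset]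
    · exact h
    · rintro ⟨⟨i, s⟩, t⟩ hz ⟨⟨i', s'⟩, t'⟩ hz' he
      rw [mem_coe, Multiset.mem_toEnumFinset] at hz hz'
      have h1 := ha2 _ (Multiset.count_pos.1 (lt_of_le_of_lt (Nat.zero_le _) hz))
      have h2 := ha2 _ (Multiset.count_pos.1 (lt_of_le_of_lt (Nat.zero_le _) hz'))
      simp only [Prod.mk.injEq] at he h1 h2
      obtain ⟨⟨rfl, h3⟩, _, h4⟩ := he
      simp only [Prod.mk.injEq, true_and]
      omega
  · intro e he
    obtain ⟨⟨p, t⟩, hz, rfl⟩ := mem_image.1 he
    rw [Multiset.mem_toEnumFinset] at hz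
    simp only at hz
    have h1 := ha2 _ (Multiset.count_pos.1 (lt_of_le_of_lt (Nat.zero_le _) hz))
    refine ⟨by simp only; omega, by simp only; omega, ?_, ?_, ?_, Multiset.zero_le _⟩
    · exact Multiset.mem_replicate.2 ⟨by simp only; omega, rfl⟩
    · exact Multiset.mem_replicate.2 ⟨by simp only; omega, rfl⟩
    · change Multiset.replicate (t + 1) (p.1, p.2 - 1 + 1) ≤ x.1
      rw [show p.2 - 1 + 1 = p.2 by omega, ← Multiset.le_count_iff_replicate_le]
      exact hz.trans_le (Multiset.count_le_of_le _ (Multiset.filter_le _ _))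

/-- A multiset with `L ^ 2` elements has `L` types or a type of multiplicity `L`. -/
theorem big_or {a : LP} {L : ℕ} (h : L ^ 2 ≤ Multiset.card a) (h1 : a.toFinset.card < L) :
    ∃ p ∈ a, L ≤ a.count p := by
  classical
  by_contra hcon
  push Not at hcon
  have h2 := Multiset.toFinset_sum_count_eq a
  have h3 : ∑ p ∈ a.toFinset, a.count p ≤ a.toFinset.card * L := by
    rw [← smul_eq_mul]
    exact sum_le_card_nsmul _ _ _ fun p hp => (hcon p (Multiset.mem_toFinset.1 hp)).le
  have h4 : a.toFinset.card * L ≤ (L - 1) * L := Nat.mul_le_mul_right _ (by omega)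
  have h5 : (L - 1) * L < L ^ 2 := by
    rw [sq]
    exact Nat.mul_lt_mul_of_pos_right (by omega) (by omega)
  omega

/-- Codes for many parts in the first and in the last multiset. -/
theorem codes4 {x : LP × LP × LP} (hpa : Pos x.1) (hpc : Pos x.2.2) {L : ℕ} (hL : 1 ≤ L)
    (h : L ^ 2 ≤ Multiset.card x.1) (h' : L ^ 2 ≤ Multiset.card x.2.2) :
    ∃ I : Finset Cd, L ≤ I.card ∧ ∀ e ∈ I, mv4.Ok x e := by
  classical
  have hL2 : 1 ≤ L ^ 2 := Nat.one_le_pow _ _ hL
  have key : ∀ p q : ℕ × ℕ, ∀ t : ℕ, 1 ≤ t → p ∈ x.1 → q ∈ x.2.2 → t ≤ x.1.count p →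
      t ≤ x.2.2.count q → mv4.Ok x (p, q, t) := by
    intro p q t ht hp hq h1 h2
    refine ⟨hpa p hp, hpc q hq, ?_, ?_, ?_, ?_⟩
    · exact Multiset.mem_add.2 (Or.inl (Multiset.mem_replicate.2 ⟨by simp only; omega, rfl⟩))
    · exact Multiset.mem_add.2 (Or.inr (Multiset.mem_replicate.2 ⟨by simp only; omega, rfl⟩))
    · exact Multiset.le_count_iff_replicate_le.1 h1
    · exact Multiset.le_count_iff_replicate_le.1 h2
  obtain ⟨p0, hp0⟩ := Multiset.card_pos_iff_exists_mem.1 (show 0 < Multiset.card x.1 by omega)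
  obtain ⟨q0, hq0⟩ := Multiset.card_pos_iff_exists_mem.1 (show 0 < Multiset.card x.2.2 by omega)
  by_cases c1 : L ≤ x.1.toFinset.card
  · refine ⟨x.1.toFinset.image fun p => (p, q0, 1), ?_, ?_⟩
    · rw [card_image_of_injective]
      · exact c1
      · intro p p' h
        simp only [Prod.mk.injEq, and_true] at h
        exact h
    · intro e he
      obtain ⟨p, hp, rfl⟩ := mem_image.1 he
      rw [Multiset.mem_toFinset] at hp
      exact key p q0 1 le_rfl hp hq0 (Multiset.one_le_count_iff_mem.2 hp)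
        (Multiset.one_le_count_iff_mem.2 hq0)
  · by_cases c2 : L ≤ x.2.2.toFinset.card
    · refine ⟨x.2.2.toFinset.image fun q => (p0, q, 1), ?_, ?_⟩
      · rw [card_image_of_injective]
        · exact c2
        · intro p p' h
          simp only [Prod.mk.injEq, and_true, true_and] at h
          exact h
      · intro e he
        obtain ⟨q, hq, rfl⟩ := mem_image.1 he
        rw [Multiset.mem_toFinset] at hq
        exact key p0 q 1 le_rfl hp0 hq (Multiset.one_le_count_iff_mem.2 hp0)
          (Multiset.one_le_count_iff_mem.2 hq)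
    · obtain ⟨p, hp, hpL⟩ := big_or h (by omega)
      obtain ⟨q, hq, hqL⟩ := big_or h' (by omega)
      refine ⟨(Icc 1 L).image fun t => (p, q, t), ?_, ?_⟩
      · rw [card_image_of_injective, Nat.card_Icc]
        · omega
        · intro p p' h
          simp only [Prod.mk.injEq, true_and] at h
          exact h
      · intro e he
        obtain ⟨t, ht, rfl⟩ := mem_image.1 he
        rw [mem_Icc] at ht
        exact key p q t ht.1 hp hq (by omega) (by omega)

/-- The size of a multiset with small parts, few of them of size at least two. -/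
theorem tot_le_card {a : LP} {L : ℕ} (h1 : ∀ p ∈ a, p.2 < L + 2)
    (h2 : Multiset.card (a.filter fun p => 2 ≤ p.2) < L) :
    tot a ≤ Multiset.card a + L * (L + 2) := by
  have h3 : ∀ a : LP, tot a ≤ Multiset.card a + tot (a.filter fun p => 2 ≤ p.2) := by
    intro a
    induction a using Multiset.induction_on with
    | empty => simp [tot_zero]
    | cons p a ih =>
      have h5 : tot (p ::ₘ a) = p.2 + tot a := by
        rw [tot, Multiset.map_cons, Multiset.sum_cons, tot]
      rw [h5, Multiset.card_cons]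
      by_cases hp : 2 ≤ p.2
      · rw [Multiset.filter_cons_of_pos (p := fun p : ℕ × ℕ => 2 ≤ p.2) a hp]
        have h6 : tot (p ::ₘ (a.filter fun p => 2 ≤ p.2)) =
            p.2 + tot (a.filter fun p => 2 ≤ p.2) := by
          rw [tot, Multiset.map_cons, Multiset.sum_cons, tot]
        omega
      · rw [Multiset.filter_cons_of_neg (p := fun p : ℕ × ℕ => 2 ≤ p.2) a hp]
        omega
  have h4 : tot (a.filter fun p => 2 ≤ p.2) ≤
      Multiset.card (a.filter fun p => 2 ≤ p.2) * (L + 2) := by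
    have h5 := Multiset.sum_le_card_nsmul ((a.filter fun p => 2 ≤ p.2).map Prod.snd) (L + 2)
      (by
        intro s hs
        obtain ⟨p, hp, rfl⟩ := Multiset.mem_map.1 hs
        exact (h1 p (Multiset.mem_filter.1 hp).1).le)
    rw [Multiset.card_map, smul_eq_mul] at h5
    exact h5
  have h5 : Multiset.card (a.filter fun p => 2 ≤ p.2) * (L + 2) ≤ L * (L + 2) :=
    Nat.mul_le_mul_right _ h2.le
  have h6 := h3 a
  omega

open Classical in
/-- The labelled triples with a small middle part are rare. -/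
theorem lab_tot_rare (s0 K : ℕ) : ∃ c : ℕ, ∀ (S : Sizes) (k : ℕ), c ≤ k → k + c ≤ 2 * S.N →
    K * ((lab S k).filter fun x => tot x.2.1 < s0).card ≤ (lab S k).card := by
  set P := (s0 + 2) ^ 2 * s0 with hP
  set L := 5 * P * K + 1 with hL
  refine ⟨2 * (L * (L + 2)) + 2 * L ^ 2 + s0 + 1, fun S k h1 h2 => ?_⟩
  set X := (lab S k).filter fun x => tot x.2.1 < s0 with hX
  set A1 := X.filter fun x => ∃ p ∈ x.1, L + 2 ≤ p.2 with hA1
  set A2 := X.filter fun x => ∃ p ∈ x.2.2, L + 2 ≤ p.2 with hA2
  set A3 := X.filter fun x => L ≤ Multiset.card (x.1.filter fun p => 2 ≤ p.2) with hA3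
  set A4 := X.filter fun x => L ≤ Multiset.card (x.2.2.filter fun p => 2 ≤ p.2) with hA4
  set A5 := X.filter fun x => L ^ 2 ≤ Multiset.card x.1 ∧ L ^ 2 ≤ Multiset.card x.2.2 with hA5
  have hXs : ∀ Y : Finset (LP × LP × LP), Y ⊆ X → Y ⊆ lab S k ∧ ∀ x ∈ Y, tot x.2.1 < s0 :=
    fun Y hY => ⟨hY.trans (filter_subset _ _), fun x hx => (mem_filter.1 (hY hx)).2⟩
  have b1 : L * A1.card ≤ P * (lab S k).card := by
    obtain ⟨h3, h4⟩ := hXs A1 (filter_subset _ _)
    exact mv1.card_le S k s0 L A1 h3 h4 fun x hx => codes1 (mem_filter.1 hx).2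
  have b2 : L * A2.card ≤ P * (lab S k).card := by
    obtain ⟨h3, h4⟩ := hXs A2 (filter_subset _ _)
    refine mv1.dual.card_le S k s0 L A2 h3 h4 fun x hx => ?_
    obtain ⟨I, h5, h6⟩ := codes1 (x := swp x) (mem_filter.1 hx).2
    exact ⟨I, h5, fun e he => Mv.dual_ok (h6 e he)⟩
  have b3 : L * A3.card ≤ P * (lab S k).card := by
    obtain ⟨h3, h4⟩ := hXs A3 (filter_subset _ _)
    exact mv3.card_le S k s0 L A3 h3 h4 fun x hx => codes3 (mem_filter.1 hx).2
  have b4 : L * A4.card ≤ P * (lab S k).card := by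
    obtain ⟨h3, h4⟩ := hXs A4 (filter_subset _ _)
    refine mv3.dual.card_le S k s0 L A4 h3 h4 fun x hx => ?_
    obtain ⟨I, h5, h6⟩ := codes3 (x := swp x) (mem_filter.1 hx).2
    exact ⟨I, h5, fun e he => Mv.dual_ok (h6 e he)⟩
  have b5 : L * A5.card ≤ P * (lab S k).card := by
    obtain ⟨h3, h4⟩ := hXs A5 (filter_subset _ _)
    refine mv4.card_le S k s0 L A5 h3 h4 fun x hx => ?_
    have h5 := mem_lab.1 (h3 hx)
    exact codes4 h5.pa h5.pc (by omega) (mem_filter.1 hx).2.1 (mem_filter.1 hx).2.2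
  have hcov : X ⊆ A1 ∪ A2 ∪ A3 ∪ A4 ∪ A5 := by
    intro x hx
    by_contra hcon
    simp only [mem_union, not_or] at hcon
    obtain ⟨⟨⟨⟨n1, n2⟩, n3⟩, n4⟩, n5⟩ := hcon
    rw [hA1, mem_filter, not_and] at n1
    rw [hA2, mem_filter, not_and] at n2
    rw [hA3, mem_filter, not_and] at n3
    rw [hA4, mem_filter, not_and] at n4
    rw [hA5, mem_filter, not_and, not_and] at n5
    have n1' := n1 hx
    have n2' := n2 hx
    have n3' := n3 hx
    have n4' := n4 hx
    have n5' := n5 hx
    push Not at n1' n2' n3' n4' n5'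
    have g1 := tot_le_card n1' n3'
    have g2 := tot_le_card n2' n4'
    have hx' := mem_filter.1 hx
    have g3 := lab_tot (mem_lab.1 hx'.1)
    have g4 := (mem_lab.1 hx'.1).deg
    have g5 := hx'.2
    by_cases c1 : L ^ 2 ≤ Multiset.card x.1
    · have := n5' c1
      omega
    · omega
  have hc : X.card ≤ A1.card + A2.card + A3.card + A4.card + A5.card := by
    have f1 := (card_le_card hcov).trans (card_union_le _ _)
    have f2 := card_union_le (A1 ∪ A2 ∪ A3) A4
    have f3 := card_union_le (A1 ∪ A2) A3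
    have f4 := card_union_le A1 A2
    omega
  have hd : L * X.card ≤ 5 * P * (lab S k).card := by
    have := Nat.mul_le_mul_left L hc
    nlinarith
  rcases Nat.eq_zero_or_pos s0 with h0 | h0
  · have : X = ∅ := by
      rw [hX, filter_eq_empty_iff]
      intro x _ h
      omega
    rw [this, card_empty, mul_zero]
    exact Nat.zero_le _
  · have hPpos : 0 < 5 * P := by positivity
    refine Nat.le_of_mul_le_mul_left (c := 5 * P) ?_ hPpos
    calc 5 * P * (K * X.card) = (5 * P * K) * X.card := by ring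
      _ ≤ L * X.card := Nat.mul_le_mul_right _ (by omega)
      _ ≤ _ := hd

end Pool.Agent.ARC
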