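import Pool.Agent.ARC.CBulk

/-! # ARC, part C, module CUnif: domination in the middle degrees, uniformly in the lattice -/

set_option autoImplicit false

noncomputable section

namespace Pool.Agent.ARC

open Module Finset Pool.Agent.PGZ2

open Pool.Agent.PGZ (act act_apply)

/-! ### Finite subgroups of `GL_b(ℤ)` have at most `3 ^ (b ^ 2)` elements -/

section mink

variable {V : Type} [AddCommGroup V] [Module.Free ℤ V] [Module.Finite ℤ V]

private theorem mk_pow (x : Module.End ℤ V) (p : ℕ) :
    ∃ X : Module.End ℤ V, (1 + x) ^ p = 1 + (p : ℤ) • x + x * (x * X) := by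
  induction p with
  | zero => exact ⟨0, by simp⟩
  | succ p ih =>
    obtain ⟨X, hX⟩ := ih
    refine ⟨(p : ℤ) • 1 + X + X * x, ?_⟩
    rw [pow_succ, hX]
    simp only [mul_add, add_mul, mul_one, one_mul, Nat.cast_add, Nat.cast_one, add_smul,
      one_smul, smul_mul_assoc, mul_smul_comm, mul_assoc]
    abel

private theorem mk_cancel (n : ℤ) (hn : n ≠ 0) {x y : Module.End ℤ V} (h : n • x = n • y) :
    x = y := by
  ext v
  have h1 := LinearMap.congr_fun h v
  rw [LinearMap.smul_apply, LinearMap.smul_apply] at h1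
  exact smul_right_injective V hn h1

private theorem mk_step (p : ℕ) (hp : p.Prime) (a : ℕ) (h : Module.End ℤ V)
    (hg : (1 + ((3 : ℤ) ^ (a + 1)) • h) ^ p = 1) : ∃ h' : Module.End ℤ V, h = (3 : ℤ) • h' := by
  have hc0 : ((3 : ℤ) ^ (a + 1)) ≠ 0 := by positivity
  set c : ℤ := (3 : ℤ) ^ (a + 1) with hc
  have hc3 : c = 3 * 3 ^ a := by rw [hc, pow_succ, mul_comm]
  by_cases h3 : p = 3
  · subst h3
    have e1 : (1 + c • h) ^ 3 = 1 + (3 * c) • (h + c • (h * h) + (3 ^ a * c) • (h * (h * h))) := by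
      rw [pow_succ, pow_succ, pow_one]
      simp only [mul_add, add_mul, mul_one, one_mul, smul_add, smul_mul_assoc, mul_smul_comm,
        mul_assoc, smul_smul]
      rw [show 3 * (c * (3 ^ a * c)) = c * (c * c) by rw [hc3]; ring]
      module
    rw [e1] at hg
    have h1 : (3 * c) • (h + c • (h * h) + (3 ^ a * c) • (h * (h * h))) = (3 * c) • 0 := by
      rw [smul_zero]
      exact left_eq_add.1 hg.symm
    have h2 := mk_cancel _ (by positivity) h1
    refine ⟨-((3 : ℤ) ^ a • (h * h) + (3 ^ a * 3 ^ a) • (h * (h * h))), ?_⟩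
    have h4 : h = -(c • (h * h) + (3 ^ a * c) • (h * (h * h))) := by
      rw [eq_neg_iff_add_eq_zero, ← add_assoc]
      exact h2
    conv_lhs => rw [h4]
    rw [hc3]
    module
  · obtain ⟨X, hX⟩ := mk_pow (c • h) p
    rw [hg] at hX
    have h1 : c • ((p : ℤ) • h + c • (h * (h * X))) = c • 0 := by
      rw [smul_zero]
      have h2 : (p : ℤ) • c • h + c • h * (c • h * X) = 0 := by
        rw [add_assoc] at hX
        exact left_eq_add.1 hX
      rw [← h2, smul_add, smul_smul, smul_smul, smul_smul, smul_mul_assoc, smul_mul_assoc,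
        mul_smul_comm, smul_smul, mul_comm c (p : ℤ)]
    have h2 := mk_cancel _ hc0 h1
    have h3' : IsCoprime (p : ℤ) 3 := by
      have : Nat.Coprime p 3 := (Nat.coprime_primes hp Nat.prime_three).2 h3
      exact_mod_cast Nat.isCoprime_iff_coprime.2 this
    obtain ⟨u, v, huv⟩ := h3'
    have h4 : (p : ℤ) • h = -(c • (h * (h * X))) := by
      rw [eq_neg_iff_add_eq_zero]
      exact h2
    refine ⟨v • h - (u * 3 ^ a) • (h * (h * X)), ?_⟩
    have h5 : h = u • ((p : ℤ) • h) + (v * 3) • h := by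
      rw [smul_smul, ← add_smul, huv, one_smul]
    conv_lhs => rw [h5, h4]
    rw [hc3]
    module

private theorem mk_div (p : ℕ) (hp : p.Prime) (h : Module.End ℤ V)
    (hg : (1 + (3 : ℤ) • h) ^ p = 1) (a : ℕ) :
    ∃ h' : Module.End ℤ V, (3 : ℤ) • h = ((3 : ℤ) ^ (a + 1)) • h' := by
  induction a with
  | zero => exact ⟨h, by rw [zero_add, pow_one]⟩
  | succ a ih =>
    obtain ⟨h', hh'⟩ := ih
    rw [hh'] at hg
    obtain ⟨h'', hh''⟩ := mk_step p hp a h' hg
    refine ⟨h'', ?_⟩
    rw [hh', hh'', smul_smul, ← pow_succ]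

private theorem mk_prime (p : ℕ) (hp : p.Prime) (h : Module.End ℤ V)
    (hg : (1 + (3 : ℤ) • h) ^ p = 1) : h = 0 := by
  have h1 := mk_div p hp h hg
  let b := Module.Free.chooseBasis ℤ V
  refine b.ext fun i => ?_
  refine b.repr.injective (Finsupp.ext fun j => ?_)
  rw [LinearMap.zero_apply, map_zero, Finsupp.zero_apply]
  set t : ℤ := b.repr (h (b i)) j with ht
  obtain ⟨h', hh'⟩ := h1 (t.natAbs)
  have h2 : 3 * t = 3 ^ (t.natAbs + 1) * b.repr (h' (b i)) j := by
    have h5 := congrArg (fun f : Module.End ℤ V => b.repr (f (b i)) j) hh'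
    simp only [LinearMap.smul_apply, map_smul, Finsupp.smul_apply, smul_eq_mul] at h5
    exact h5
  by_contra hne
  have h3 : (3 : ℤ) ^ (t.natAbs) ∣ t := by
    refine ⟨b.repr (h' (b i)) j, ?_⟩
    have h4 : (3 : ℤ) * t = 3 * (3 ^ t.natAbs * b.repr (h' (b i)) j) := by rw [h2, pow_succ]; ring
    exact mul_left_cancel₀ (by norm_num) h4
  have h4 : 3 ^ t.natAbs ≤ t.natAbs := by
    have h5 := Int.natAbs_dvd_natAbs.2 h3
    rw [Int.natAbs_pow] at h5
    exact Nat.le_of_dvd (Int.natAbs_pos.2 hne) h5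
  exact absurd (Nat.lt_pow_self (by norm_num : 1 < 3)) (not_lt.2 h4)

private theorem mk_order (N : ℕ) : 0 < N → ∀ h : Module.End ℤ V,
    (1 + (3 : ℤ) • h) ^ N = 1 → h = 0 := by
  induction N using Nat.strong_induction_on with
  | _ N ih =>
    intro hN h hg
    rcases Nat.lt_or_ge 1 N with h1 | h1
    · obtain ⟨p, hp, q, hq⟩ := Nat.exists_prime_and_dvd h1.ne'
      obtain ⟨X, hX⟩ := mk_pow ((3 : ℤ) • h) p
      have hq0 : 0 < q := by
        rcases Nat.eq_zero_or_pos q with h2 | h2
        · rw [h2, mul_zero] at hq; omega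
        · exact h2
      have hqN : q < N := by
        rw [hq]
        exact lt_mul_of_one_lt_left hq0 hp.one_lt
      have h2 : (1 + (3 : ℤ) • h) ^ p = 1 + (3 : ℤ) • ((p : ℤ) • h + h * ((3 : ℤ) • h * X)) := by
        rw [hX]
        simp only [smul_add, smul_smul, smul_mul_assoc, mul_smul_comm]
        module
      rw [hq, pow_mul, h2] at hg
      have h3 := ih q hqN hq0 _ hg
      rw [h3, smul_zero, add_zero] at h2
      exact mk_prime p hp h h2
    · have h2 : N = 1 := by omega
      rw [h2, pow_one] at hg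
      have h3 : (3 : ℤ) • h = (3 : ℤ) • (0 : Module.End ℤ V) := by
        rw [smul_zero]
        exact add_eq_left.1 hg
      exact mk_cancel _ (by norm_num) h3

end mink

/-- A finite group acting faithfully on a lattice of rank `b` has at most `3 ^ (b ^ 2)` elements. -/
theorem card_le_mink (G : Type) [Group G] [Finite G] (V : Type) [AddCommGroup V]
    [Module.Free ℤ V] [Module.Finite ℤ V] [DistribMulAction G V]
    (hf : ∀ g : G, (∀ v : V, g • v = v) → g = 1) : Nat.card G ≤ 3 ^ (finrank ℤ V ^ 2) := by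
  classical
  let b := Module.finBasis ℤ V
  let f : G → (Fin (finrank ℤ V) × Fin (finrank ℤ V) → ZMod 3) := fun g ij =>
    ((b.repr (g • b ij.1) ij.2 : ℤ) : ZMod 3)
  have hinj : Function.Injective f := by
    intro g g' hgg
    have h1 : ∀ i j, ∃ t : ℤ, b.repr (g • b i) j - b.repr (g' • b i) j = 3 * t := by
      intro i j
      have h2 := congrFun hgg (i, j)
      have h3 := (ZMod.intCast_eq_intCast_iff_dvd_sub _ _ 3).1 h2.symm
      obtain ⟨t, ht⟩ := h3
      exact ⟨t, ht⟩
    choose t ht using h1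
    -- the element `g'⁻¹ g` is congruent to `1`
    let H : Module.End ℤ V := b.constr ℤ fun i => g'⁻¹ • ∑ j, t i j • b j
    have h4 : act V (g'⁻¹ * g) = 1 + (3 : ℤ) • H := by
      refine b.ext fun i => ?_
      rw [LinearMap.add_apply, LinearMap.smul_apply, Module.End.one_apply, act_apply,
        Basis.constr_basis, mul_smul]
      have h5 : g • b i = g' • b i + (3 : ℤ) • ∑ j, t i j • b j := by
        have h6 : ∀ j, b.repr (g • b i) j - b.repr (g' • b i) j = 3 * t i j := ht i
        generalize g • b i = x at h6 ⊢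
        generalize g' • b i = y at h6 ⊢
        refine b.repr.injective (Finsupp.ext fun j => ?_)
        have h7 : b.repr (∑ j, t i j • b j) j = t i j := by
          rw [b.repr_sum_self]
        rw [map_add, map_smul, Finsupp.add_apply, Finsupp.smul_apply, h7, smul_eq_mul, ← h6 j]
        ring
      rw [h5, smul_add, smul_smul, inv_mul_cancel, one_smul, smul_comm]
    have h6 : (act V (g'⁻¹ * g)) ^ (Nat.card G) = 1 := by
      rw [act_pow', pow_card_eq_one']
      ext x
      simp
    rw [h4] at h6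
    have h7 := mk_order (Nat.card G) Nat.card_pos H h6
    rw [h7, smul_zero, add_zero] at h4
    have h8 : g'⁻¹ * g = 1 := hf _ fun v => by
      have := LinearMap.congr_fun h4 v
      rwa [act_apply, Module.End.one_apply] at this
    exact (inv_mul_eq_one.1 h8).symm
  have h1 := Nat.card_le_card_of_injective f hinj
  refine h1.trans (le_of_eq ?_)
  rw [Nat.card_fun, Nat.card_prod, Nat.card_fin, Nat.card_zmod, sq]

/-! ### Finitely many characteristic polynomials -/

/-- The traces on the symmetric powers, as a function of the characteristic polynomial. -/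
private def sf (f : Polynomial ℤ) (q : ℕ) : ℤ :=
  PowerSeries.coeff q (PowerSeries.invOfUnit ((f.reverse : Polynomial ℤ) : PowerSeries ℤ) 1)

private theorem act_one' (G : Type) [Group G] (V : Type) [AddCommGroup V] [DistribMulAction G V] :
    act V (1 : G) = (1 : Module.End ℤ V) := by
  ext v
  rw [act_apply, one_smul, Module.End.one_apply]

private theorem sf_one (G : Type) [Group G] (V : Type) [AddCommGroup V] [Module.Free ℤ V]
    [Module.Finite ℤ V] [DistribMulAction G V] :
    symTr (act V (1 : G)) = sf ((Polynomial.X - 1) ^ finrank ℤ V) := by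
  rw [act_one']
  funext q
  change sf (LinearMap.charpoly (1 : Module.End ℤ V)) q = _
  rw [LinearMap.charpoly_one]

/-- The bound for one characteristic polynomial. -/
private theorem unif_one (b K : ℕ) (f : Polynomial ℤ) : ∃ A : ℕ, ∀ (G : Type) [Group G] [Finite G]
    (V : Type) [AddCommGroup V] [Module.Free ℤ V] [Module.Finite ℤ V] [DistribMulAction G V]
    (g : G), finrank ℤ V = b → (∃ v : V, v ≠ 0 ∧ ∀ g : G, g • v = v) → (∃ v : V, g • v ≠ v) →
    (act V g).charpoly = f → ∀ n k : ℕ, A ≤ k → k + A ≤ 2 * n →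
      (K : ℤ) * |gott (symTr (act V g)) n k| ≤ gott (symTr (act V (1 : G))) n k := by
  by_cases hex : ∃ (G : Type) (_ : Group G) (_ : Finite G) (V : Type) (_ : AddCommGroup V)
      (_ : Module.Free ℤ V) (_ : Module.Finite ℤ V) (_ : DistribMulAction G V) (g : G),
      finrank ℤ V = b ∧ (∃ v : V, v ≠ 0 ∧ ∀ g : G, g • v = v) ∧ (∃ v : V, g • v ≠ v) ∧
      (act V g).charpoly = f
  · obtain ⟨G0, _, _, V0, _, _, _, _, g0, hb, h0, hg, hf⟩ := hex
    obtain ⟨D, hD0, hmon, hD, hle, hlt⟩ := sym_bound G0 V0 h0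
    obtain ⟨A, hA⟩ := dom_abs (symTr (act V0 g0)) D hD0 hmon (hle g0) (hlt g0 hg).1
      (hlt g0 hg).2 K
    refine ⟨A, fun G _ _ V _ _ _ _ g hb' _ _ hf' n k h1 h2 => ?_⟩
    have e1 : symTr (act V g) = symTr (act V0 g0) := by
      funext q
      change sf (act V g).charpoly q = sf (act V0 g0).charpoly q
      rw [hf, hf']
    have e2 : symTr (act V (1 : G)) = fun q => (D q : ℤ) := by
      rw [← funext hD, sf_one, sf_one, hb, hb']
    rw [e1, e2]
    exact hA n k h1 h2
  · refine ⟨0, fun G _ iG V _ i1 i2 _ g h1 h2 h3 h4 => ?_⟩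
    exact absurd ⟨G, _, iG, V, _, i1, i2, _, g, h1, h2, h3, h4⟩ hex

/-- The polynomials of degree at most `b` with coefficients bounded by `B`. -/
private theorem finite_pol (b : ℕ) (B : ℤ) :
    {f : Polynomial ℤ | f.natDegree ≤ b ∧ ∀ i, |f.coeff i| ≤ B}.Finite := by
  have h1 : (Set.pi Set.univ fun _ : Fin (b + 1) => Set.Icc (-B) B).Finite :=
    Set.Finite.pi fun _ => Set.finite_Icc _ _
  refine Set.Finite.of_injOn (f := fun f : Polynomial ℤ => fun i : Fin (b + 1) => f.coeff i)
    ?_ ?_ h1
  · intro f hf i _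
    exact Set.mem_Icc.2 (abs_le.1 (hf.2 i))
  · intro f hf g hg hfg
    ext i
    by_cases hi : i ≤ b
    · exact congrFun hfg ⟨i, by omega⟩
    · rw [Polynomial.coeff_eq_zero_of_natDegree_lt (lt_of_le_of_lt hf.1 (not_le.1 hi)),
        Polynomial.coeff_eq_zero_of_natDegree_lt (lt_of_le_of_lt hg.1 (not_le.1 hi))]

private theorem charpoly_mem (G : Type) [Group G] [Finite G] (V : Type) [AddCommGroup V]
    [Module.Free ℤ V] [Module.Finite ℤ V] [DistribMulAction G V] (g : G) :
    (act V g).charpoly.natDegree ≤ finrank ℤ V ∧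
      ∀ i, |(act V g).charpoly.coeff i| ≤ 2 ^ finrank ℤ V := by
  have hdeg : (act V g).charpoly.natDegree = finrank ℤ V := LinearMap.charpoly_natDegree _
  refine ⟨hdeg.le, fun i => ?_⟩
  have hord : (act V g) ^ (Nat.card G) = 1 := by
    rw [act_pow', pow_card_eq_one']
    exact act_one' G V
  have h1 : ((act V g).charpoly.map (Int.castRingHom ℂ)).Splits :=
    IsAlgClosed.splits _
  have h2 := Polynomial.coeff_le_of_roots_le (f := Int.castRingHom ℂ) (p := (act V g).charpoly) i
    (B := 1) (LinearMap.charpoly_monic _) h1 (by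
      intro z hz
      have h3 : ((act V g).baseChange ℂ).charpoly =
          (act V g).charpoly.map (Int.castRingHom ℂ) := by
        rw [LinearMap.charpoly_baseChange]
        rfl
      have h4 : Module.End.HasEigenvalue ((act V g).baseChange ℂ) z := by
        rw [Module.End.hasEigenvalue_iff_isRoot_charpoly, h3]
        exact Polynomial.isRoot_of_mem_roots hz
      obtain ⟨v, hv⟩ := h4.exists_hasEigenvector
      have h5 := hv.pow_apply (Nat.card G)
      have h6 : ((act V g).baseChange ℂ) ^ (Nat.card G) = 1 := by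
        rw [← LinearMap.baseChange_pow, hord, Module.End.one_eq_id, LinearMap.baseChange_id]
        rfl
      rw [h6, Module.End.one_apply] at h5
      have h7 : (z ^ (Nat.card G) - 1) • v = 0 := by
        rw [sub_smul, one_smul, ← h5, sub_self]
      have h8 : z ^ (Nat.card G) = 1 := by
        rcases smul_eq_zero.1 h7 with h9 | h9
        · exact sub_eq_zero.1 h9
        · exact absurd h9 hv.2
      exact (Complex.norm_eq_one_of_pow_eq_one h8 Nat.card_pos.ne').le)
  rw [Polynomial.coeff_map, one_pow, one_mul, hdeg] at h2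
  have h3 : ((|(act V g).charpoly.coeff i| : ℤ) : ℝ) ≤ ((2 ^ finrank ℤ V : ℕ) : ℝ) := by
    refine le_trans ?_ (h2.trans ?_)
    · rw [Int.cast_abs, eq_intCast, Complex.norm_intCast]
    · exact_mod_cast Nat.choose_le_two_pow _ _
  exact_mod_cast h3

/-- Domination for Göttsche's formula in the middle degrees; the bound `A` depends only on the
rank of the lattice. -/
theorem bulk_unif (b : ℕ) : ∃ A : ℕ, ∀ (G : Type) [Group G] [Finite G] (V : Type)
    [AddCommGroup V] [Module.Free ℤ V] [Module.Finite ℤ V] [DistribMulAction G V],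
    finrank ℤ V = b → (∀ g : G, (∀ v : V, g • v = v) → g = 1) →
    (∃ v : V, v ≠ 0 ∧ ∀ g : G, g • v = v) → ∀ n k : ℕ, A ≤ k → A + k ≤ 2 * n →
      (∑ᶠ g : {g : G // g ≠ 1}, |gott (symTr (act V g.1)) n k|) ≤
        gott (symTr (act V (1 : G))) n k := by
  classical
  choose A hA using unif_one b (3 ^ (b ^ 2))
  set S := (finite_pol b (2 ^ b)).toFinset with hS
  refine ⟨∑ f ∈ S, A f, fun G _ _ V _ _ _ _ hb hf h0 n k h1 h2 => ?_⟩
  have hfin : Fintype G := Fintype.ofFinite G
  rw [finsum_eq_sum_of_fintype]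
  have h3 : ∀ g : {g : G // g ≠ 1}, ((3 ^ (b ^ 2) : ℕ) : ℤ) *
      |gott (symTr (act V g.1)) n k| ≤ gott (symTr (act V (1 : G))) n k := by
    intro g
    have hmem : (act V g.1).charpoly ∈ S := by
      rw [hS, Set.Finite.mem_toFinset]
      have := charpoly_mem G V g.1
      rw [hb] at this
      exact this
    have h4 : A (act V g.1).charpoly ≤ ∑ f ∈ S, A f :=
      single_le_sum (f := A) (fun _ _ => Nat.zero_le _) hmem
    refine hA _ G V g.1 hb h0 ?_ rfl n k (by omega) (by omega)
    by_contra hcon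
    push Not at hcon
    exact g.2 (hf g.1 hcon)
  have h4 : (0 : ℤ) < ((3 ^ (b ^ 2) : ℕ) : ℤ) := by positivity
  have h5 : ((3 ^ (b ^ 2) : ℕ) : ℤ) * ∑ g : {g : G // g ≠ 1},
      |gott (symTr (act V g.1)) n k| ≤
      ((3 ^ (b ^ 2) : ℕ) : ℤ) * gott (symTr (act V (1 : G))) n k := by
    rw [mul_sum]
    refine (sum_le_card_nsmul univ _ _ fun g _ => h3 g).trans ?_
    rw [nsmul_eq_mul]
    have h6 : 0 ≤ gott (symTr (act V (1 : G))) n k := by
      obtain ⟨D, _, _, hD, _, _⟩ := sym_bound G V h0
      rw [show (symTr (act V (1 : G))) = fun q => (D q : ℤ) from funext hD, gott]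
      exact sum_nonneg fun v _ => prod_nonneg fun i _ => by positivity
    refine mul_le_mul_of_nonneg_right ?_ h6
    have h7 := card_le_mink G V hf
    rw [hb, Nat.card_eq_fintype_card] at h7
    rw [card_univ]
    exact_mod_cast (Fintype.card_subtype_le _).trans h7
  exact le_of_mul_le_mul_left h5 h4

end Pool.Agent.ARC
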