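import Pool.Agent.ARC.CLabD
import Pool.Agent.ARC.CUnif
import Pool.Agent.ARC.CBlow

/-! # ARC, part C, module CLabU: domination in the middle degrees for products, uniformly -/

set_option autoImplicit false

noncomputable section

namespace Pool.Agent.ARC

open Module Finset Pool.Agent.PGZ2

open Pool.Agent.PGZ (act act_apply)

/-- The traces on the symmetric powers, as a function of the characteristic polynomial. -/
private def sg (f : Polynomial ℤ) (q : ℕ) : ℤ :=
  PowerSeries.coeff q (PowerSeries.invOfUnit ((f.reverse : Polynomial ℤ) : PowerSeries ℤ) 1)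

private theorem act_one1 (G : Type) [Group G] (V : Type) [AddCommGroup V] [DistribMulAction G V] :
    act V (1 : G) = (1 : Module.End ℤ V) := by
  ext v
  rw [act_apply, one_smul, Module.End.one_apply]

private theorem sg_one (G : Type) [Group G] (V : Type) [AddCommGroup V] [Module.Free ℤ V]
    [Module.Finite ℤ V] [DistribMulAction G V] :
    symTr (act V (1 : G)) = sg ((Polynomial.X - 1) ^ finrank ℤ V) := by
  rw [act_one1]
  funext q
  change sg (LinearMap.charpoly (1 : Module.End ℤ V)) q = _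
  rw [LinearMap.charpoly_one]

/-- The constants for one characteristic polynomial. -/
private theorem dm_one (K : ℕ) (z : ℕ × Polynomial ℤ) : ∃ (Q : ℕ) (r : ℝ) (M : ℕ → ℕ),
    0 ≤ r ∧ r < 1 ∧ ∀ (G : Type) [Group G] [Finite G]
    (V : Type) [AddCommGroup V] [Module.Free ℤ V] [Module.Finite ℤ V] [DistribMulAction G V]
    (g : G), finrank ℤ V = z.1 → (∃ v : V, v ≠ 0 ∧ ∀ g : G, g • v = v) → (∃ v : V, g • v ≠ v) →
    (act V g).charpoly = z.2 → ∃ D : ℕ → ℕ, Dm K Q r M (symTr (act V g)) D ∧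
      symTr (act V (1 : G)) = fun q => (D q : ℤ) := by
  obtain ⟨b, f⟩ := z
  by_cases hex : ∃ (G : Type) (_ : Group G) (_ : Finite G) (V : Type) (_ : AddCommGroup V)
      (_ : Module.Free ℤ V) (_ : Module.Finite ℤ V) (_ : DistribMulAction G V) (g : G),
      finrank ℤ V = b ∧ (∃ v : V, v ≠ 0 ∧ ∀ g : G, g • v = v) ∧ (∃ v : V, g • v ≠ v) ∧
      (act V g).charpoly = f
  · obtain ⟨G0, _, _, V0, _, _, _, _, g0, hb, h0, hg, hf⟩ := hex
    obtain ⟨D, hD0, hmon, hD, hle, hlt⟩ := sym_bound G0 V0 h0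
    obtain ⟨Q, r, hr0, hr1, hDm⟩ := dm_exists (symTr (act V0 g0)) D (symTr_zero _) hD0 hmon
      (hle g0) (hlt g0 hg).1 (hlt g0 hg).2 K
    refine ⟨Q, r, D, hr0, hr1, fun G _ _ V _ _ _ _ g hb' _ _ hf' => ⟨D, ?_, ?_⟩⟩
    · have e1 : symTr (act V g) = symTr (act V0 g0) := by
        funext q
        change sg (act V g).charpoly q = sg (act V0 g0).charpoly q
        simp only at hf'
        rw [hf, hf']
      rw [e1]
      exact hDm
    · simp only at hb'
      rw [← funext hD, sg_one, sg_one, hb, hb']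
  · refine ⟨0, 0, fun _ => 0, le_rfl, one_pos, fun G _ iG V _ i1 i2 _ g h1 h2 h3 h4 => ?_⟩
    exact absurd ⟨G, _, iG, V, _, i1, i2, _, g, h1, h2, h3, h4⟩ hex

/-- The polynomials of degree at most `b` with coefficients bounded by `B`. -/
private theorem finite_pol1 (b : ℕ) (B : ℤ) :
    {f : Polynomial ℤ | f.natDegree ≤ b ∧ ∀ i, |f.coeff i| ≤ B}.Finite := by
  have h1 : (Set.pi Set.univ fun _ : Fin (b + 1) => Set.Icc (-B) B).Finite :=
    Set.Finite.pi fun _ => Set.finite_Icc _ _
  refine Set.Finite.of_injOn (f := fun f : Polynomial ℤ => fun i : Fin (b + 1) => f.coeff i)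
    ?_ ?_ h1
  · intro f hf i _
    exact Set.mem_Icc.2 (abs_le.1 (hf.2 i))
  · intro f hf g hg hfg
    ext i
    by_cases hi : i ≤ b
    · exact congrFun hfg ⟨i, by omega⟩
    · rw [Polynomial.coeff_eq_zero_of_natDegree_lt (lt_of_le_of_lt hf.1 (not_le.1 hi)),
        Polynomial.coeff_eq_zero_of_natDegree_lt (lt_of_le_of_lt hg.1 (not_le.1 hi))]

private theorem charpoly_mem1 (G : Type) [Group G] [Finite G] (V : Type) [AddCommGroup V]
    [Module.Free ℤ V] [Module.Finite ℤ V] [DistribMulAction G V] (g : G) :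
    (act V g).charpoly.natDegree ≤ finrank ℤ V ∧
      ∀ i, |(act V g).charpoly.coeff i| ≤ 2 ^ finrank ℤ V := by
  have hdeg : (act V g).charpoly.natDegree = finrank ℤ V := LinearMap.charpoly_natDegree _
  refine ⟨hdeg.le, fun i => ?_⟩
  have hord : (act V g) ^ (Nat.card G) = 1 := by
    rw [act_pow', pow_card_eq_one']
    exact act_one1 G V
  have h1 : ((act V g).charpoly.map (Int.castRingHom ℂ)).Splits :=
    IsAlgClosed.splits _
  have h2 := Polynomial.coeff_le_of_roots_le (f := Int.castRingHom ℂ) (p := (act V g).charpoly) i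
    (B := 1) (LinearMap.charpoly_monic _) h1 (by
      intro z hz
      have h3 : ((act V g).baseChange ℂ).charpoly =
          (act V g).charpoly.map (Int.castRingHom ℂ) := by
        rw [LinearMap.charpoly_baseChange]
        rfl
      have h4 : Module.End.HasEigenvalue ((act V g).baseChange ℂ) z := by
        rw [Module.End.hasEigenvalue_iff_isRoot_charpoly, h3]
        exact Polynomial.isRoot_of_mem_roots hz
      obtain ⟨v, hv⟩ := h4.exists_hasEigenvector
      have h5 := hv.pow_apply (Nat.card G)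
      have h6 : ((act V g).baseChange ℂ) ^ (Nat.card G) = 1 := by
        rw [← LinearMap.baseChange_pow, hord, Module.End.one_eq_id, LinearMap.baseChange_id]
        rfl
      rw [h6, Module.End.one_apply] at h5
      have h7 : (z ^ (Nat.card G) - 1) • v = 0 := by
        rw [sub_smul, one_smul, ← h5, sub_self]
      have h8 : z ^ (Nat.card G) = 1 := by
        rcases smul_eq_zero.1 h7 with h9 | h9
        · exact sub_eq_zero.1 h9
        · exact absurd h9 hv.2
      exact (Complex.norm_eq_one_of_pow_eq_one h8 Nat.card_pos.ne').le)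
  rw [Polynomial.coeff_map, one_pow, one_mul, hdeg] at h2
  have h3 : ((|(act V g).charpoly.coeff i| : ℤ) : ℝ) ≤ ((2 ^ finrank ℤ V : ℕ) : ℝ) := by
    refine le_trans ?_ (h2.trans ?_)
    · rw [Int.cast_abs, eq_intCast, Complex.norm_intCast]
    · exact_mod_cast Nat.choose_le_two_pow _ _
  exact_mod_cast h3

private theorem exists_max {T : Type} [DecidableEq T] (S : Finset T) (r : T → ℝ)
    (h : ∀ x, r x < 1) :
    ∃ R : ℝ, 0 ≤ R ∧ R < 1 ∧ ∀ x ∈ S, r x ≤ R := by
  induction S using Finset.induction_on with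
  | empty => exact ⟨0, le_rfl, one_pos, fun x hx => absurd hx (notMem_empty x)⟩
  | insert a S _ ih =>
    obtain ⟨R, h1, h2, h3⟩ := ih
    refine ⟨max R (r a), h1.trans (le_max_left _ _), max_lt h2 (h a), fun x hx => ?_⟩
    rcases mem_insert.1 hx with rfl | hx
    · exact le_max_right _ _
    · exact (h3 x hx).trans (le_max_left _ _)

/-- Uniform constants for the lattices of rank at most `b`. -/
theorem dm_unif (b K : ℕ) : ∃ (Q : ℕ) (r : ℝ) (M : ℕ → ℕ), 0 ≤ r ∧ r < 1 ∧ ∀ (G : Type) [Group G]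
    [Finite G] (V : Type) [AddCommGroup V] [Module.Free ℤ V] [Module.Finite ℤ V]
    [DistribMulAction G V] (g : G), finrank ℤ V ≤ b → (∃ v : V, v ≠ 0 ∧ ∀ g : G, g • v = v) →
    (∃ v : V, g • v ≠ v) → ∃ D : ℕ → ℕ, Dm K Q r M (symTr (act V g)) D ∧
      symTr (act V (1 : G)) = fun q => (D q : ℤ) := by
  classical
  choose Q r M hr0 hr1 h using dm_one K
  set S := (range (b + 1)) ×ˢ (finite_pol1 b (2 ^ b)).toFinset with hS
  obtain ⟨R, hR0, hR1, hR⟩ := exists_max S r hr1
  refine ⟨∑ z ∈ S, Q z, R, fun q => ∑ z ∈ S, M z q, hR0, hR1,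
    fun G _ _ V _ _ _ _ g hb h0 hg => ?_⟩
  obtain ⟨D, hD, hD1⟩ := h (finrank ℤ V, (act V g).charpoly) G V g rfl h0 hg rfl
  have hmem : (finrank ℤ V, (act V g).charpoly) ∈ S := by
    rw [hS, mem_product, mem_range, Set.Finite.mem_toFinset]
    have h1 := charpoly_mem1 G V g
    refine ⟨by simp only; omega, h1.1.trans hb, fun i => (h1.2 i).trans ?_⟩
    exact pow_le_pow_right₀ (by norm_num) hb
  refine ⟨D, hD.weaken ?_ (hR _ hmem) fun q => ?_, hD1⟩
  · exact single_le_sum (f := Q) (fun _ _ => Nat.zero_le _) hmem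
  · exact single_le_sum (f := fun z => M z q) (fun _ _ => Nat.zero_le _) hmem

/-- Domination for products of Hilbert schemes of points in the middle degrees; the bound `A`
depends only on a bound for the ranks of the lattices. -/
theorem prod_unif (b : ℕ) : ∃ A : ℕ, ∀ (G : Type) [Group G] [Finite G] (ι : Type) [Fintype ι]
    (V : ι → Type) [∀ i, AddCommGroup (V i)] [∀ i, Module.Free ℤ (V i)]
    [∀ i, Module.Finite ℤ (V i)] [∀ i, DistribMulAction G (V i)],
    (∀ i, finrank ℤ (V i) ≤ b) → (∀ i, ∀ g : G, (∀ v : V i, g • v = v) → g = 1) →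
    (∀ i, ∃ v : V i, v ≠ 0 ∧ ∀ g : G, g • v = v) → ∀ (n : ι → ℕ) (k : ℕ), A ≤ k →
      A + k ≤ 2 * ∑ i, n i →
      (∑ᶠ g : {g : G // g ≠ 1}, |PowerSeries.coeff k (∏ i, PowerSeries.mk fun j =>
        gott (symTr (act (V i) g.1)) (n i) j)|) ≤
        PowerSeries.coeff k (∏ i, PowerSeries.mk fun j =>
          gott (symTr (act (V i) (1 : G))) (n i) j) := by
  classical
  obtain ⟨Q, r, M, hr0, hr1, hun⟩ := dm_unif b (3 ^ (b ^ 2))
  obtain ⟨c, hc⟩ := dom_prod (3 ^ (b ^ 2)) Q r hr0 hr1 M
  refine ⟨c + 1, fun G _ _ ι _ V _ _ _ _ hb hf h0 n k h1 h2 => ?_⟩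
  have hfin : Fintype G := Fintype.ofFinite G
  have hne : Nonempty ι := by
    by_contra hcon
    rw [not_nonempty_iff] at hcon
    rw [univ_eq_empty, sum_empty] at h2
    omega
  obtain ⟨i0⟩ := hne
  rw [finsum_eq_sum_of_fintype]
  have h3 : ∀ g : {g : G // g ≠ 1}, ((3 ^ (b ^ 2) : ℕ) : ℤ) *
      |PowerSeries.coeff k (∏ i, PowerSeries.mk fun j =>
        gott (symTr (act (V i) g.1)) (n i) j)| ≤
      PowerSeries.coeff k (∏ i, PowerSeries.mk fun j =>
        gott (symTr (act (V i) (1 : G))) (n i) j) := by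
    intro g
    have h4 : ∀ i, ∃ D : ℕ → ℕ, Dm (3 ^ (b ^ 2)) Q r M (symTr (act (V i) g.1)) D ∧
        symTr (act (V i) (1 : G)) = fun q => (D q : ℤ) := by
      intro i
      refine hun G (V i) g.1 (hb i) (h0 i) ?_
      by_contra hcon
      push Not at hcon
      exact g.2 (hf i g.1 hcon)
    choose D hD hD1 using h4
    have h5 := hc ι n (fun i => symTr (act (V i) g.1)) D hD k (by omega) (by omega)
    simp only [hD1]
    exact h5
  have h4 : (0 : ℤ) < ((3 ^ (b ^ 2) : ℕ) : ℤ) := by positivity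
  have h6 : 0 ≤ PowerSeries.coeff k (∏ i, PowerSeries.mk fun j =>
      gott (symTr (act (V i) (1 : G))) (n i) j) := by
    have h7 : ∀ i, ∃ D : ℕ → ℕ, symTr (act (V i) (1 : G)) = fun q => (D q : ℤ) := by
      intro i
      obtain ⟨D, _, _, hD, _, _⟩ := sym_bound G (V i) (h0 i)
      exact ⟨D, funext hD⟩
    choose D hD using h7
    have h8 : ∀ (s : Finset ι) (k : ℕ), 0 ≤ PowerSeries.coeff k (∏ i ∈ s,
        PowerSeries.mk fun j => gott (fun q => (D i q : ℤ)) (n i) j) := by
      intro s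
      induction s using Finset.induction_on with
      | empty =>
        intro k
        rw [prod_empty, PowerSeries.coeff_one]
        split_ifs
        · exact zero_le_one
        · exact le_rfl
      | insert a s ha ih =>
        intro k
        rw [prod_insert ha, PowerSeries.coeff_mul]
        refine sum_nonneg fun x _ => mul_nonneg ?_ (ih _)
        rw [PowerSeries.coeff_mk, gott]
        exact sum_nonneg fun v _ => prod_nonneg fun i _ => by positivity
    simp only [hD]
    exact h8 univ k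
  have h5 : ((3 ^ (b ^ 2) : ℕ) : ℤ) * ∑ g : {g : G // g ≠ 1},
      |PowerSeries.coeff k (∏ i, PowerSeries.mk fun j =>
        gott (symTr (act (V i) g.1)) (n i) j)| ≤
      ((3 ^ (b ^ 2) : ℕ) : ℤ) * PowerSeries.coeff k (∏ i, PowerSeries.mk fun j =>
        gott (symTr (act (V i) (1 : G))) (n i) j) := by
    rw [mul_sum]
    refine (sum_le_card_nsmul univ _ _ fun g _ => h3 g).trans ?_
    rw [nsmul_eq_mul]
    refine mul_le_mul_of_nonneg_right ?_ h6
    have h7 := card_le_mink G (V i0) (hf i0)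
    rw [Nat.card_eq_fintype_card] at h7
    rw [card_univ]
    have h8 : 3 ^ (finrank ℤ (V i0) ^ 2) ≤ 3 ^ (b ^ 2) :=
      Nat.pow_le_pow_right (by norm_num) (Nat.pow_le_pow_left (hb i0) 2)
    exact_mod_cast (Fintype.card_subtype_le _).trans (h7.trans h8)
  exact le_of_mul_le_mul_left h5 h4

end Pool.Agent.ARC
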