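import Pool.Agent.ARC.CDef

/-! # ARC, part C, module CMv: triples without middle parts are rare

For `c ≤ j ≤ 2 n - c` the number of triples `(α, 0, γ)` is at most `1 / K` of the number of all
triples: explicit injections. -/

set_option autoImplicit false

noncomputable section

namespace Pool.Agent.ARC

theorem card_inj {T : Type*} (X Y : Finset T) (K : ℕ) (f : T → ℕ → T)
    (h1 : ∀ x ∈ X, ∀ i < K, f x i ∈ Y)
    (h2 : ∀ x ∈ X, ∀ i < K, ∀ x' ∈ X, ∀ i' < K, f x i = f x' i' → x = x' ∧ i = i') :
    K * X.card ≤ Y.card := by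
  have h3 : (X ×ˢ Finset.range K).card ≤ Y.card := by
    refine Finset.card_le_card_of_injOn (fun z => f z.1 z.2) ?_ ?_
    · intro z hz
      rw [Finset.mem_coe, Finset.mem_product, Finset.mem_range] at hz
      exact h1 z.1 hz.1 z.2 hz.2
    · intro z hz z' hz' h
      rw [Finset.mem_coe, Finset.mem_product, Finset.mem_range] at hz hz'
      obtain ⟨h4, h5⟩ := h2 z.1 hz.1 z.2 hz.2 z'.1 hz'.1 z'.2 hz'.2 h
      exact Prod.ext h4 h5
  rw [Finset.card_product, Finset.card_range, mul_comm] at h3
  exact h3

/-- A submultiset with `i` elements. -/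
def tk (s : Multiset ℕ) (i : ℕ) : Multiset ℕ := (s.toList.take i : Multiset ℕ)

theorem tk_le (s : Multiset ℕ) (i : ℕ) : tk s i ≤ s := by
  conv_rhs => rw [← Multiset.coe_toList s]
  exact Multiset.coe_le.2 (List.take_sublist i s.toList).subperm

theorem card_tk {s : Multiset ℕ} {i : ℕ} (h : i ≤ Multiset.card s) :
    Multiset.card (tk s i) = i := by
  rw [tk, Multiset.coe_card, List.length_take, Multiset.length_toList]
  omega

theorem sum_map_succ (t : Multiset ℕ) : (t.map (· + 1)).sum = t.sum + Multiset.card t := by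
  rw [Multiset.sum_map_add]
  simp

theorem map_pred_succ {t : Multiset ℕ} (h : ∀ k ∈ t, 1 ≤ k) :
    (t.map (· - 1)).map (· + 1) = t := by
  rw [Multiset.map_map]
  conv_rhs => rw [← Multiset.map_id t]
  refine Multiset.map_congr rfl fun k hk => ?_
  have := h k hk
  simp only [Function.comp_apply, id]
  omega

theorem map_succ_pred (t : Multiset ℕ) : (t.map (· + 1)).map (· - 1) = t := by
  rw [Multiset.map_map]
  conv_rhs => rw [← Multiset.map_id t]
  refine Multiset.map_congr rfl fun k hk => ?_
  simp

theorem sum_map_pred {t : Multiset ℕ} (h : ∀ k ∈ t, 1 ≤ k) :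
    (t.map (· - 1)).sum + Multiset.card t = t.sum := by
  have h1 := sum_map_succ (t.map (· - 1))
  rw [map_pred_succ h, Multiset.card_map] at h1
  exact h1.symm

open Classical in
/-- A part of `α` of size at least `K + 2` is replaced by a part `1`. -/
theorem move1 (K n j : ℕ) :
    K * ((conf0 n j).filter fun x => ∃ m ∈ x.1, K + 2 ≤ m).card ≤ (conf n j).card := by
  classical
  let M : Multiset ℕ × Multiset ℕ × Multiset ℕ → ℕ := fun x =>
    if h : ∃ m ∈ x.1, K + 2 ≤ m then h.choose else 0
  have hM : ∀ x : Multiset ℕ × Multiset ℕ × Multiset ℕ, (∃ m ∈ x.1, K + 2 ≤ m) →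
      M x ∈ x.1 ∧ K + 2 ≤ M x := by
    intro x h
    simp only [M, dif_pos h]
    exact h.choose_spec
  refine card_inj _ _ K (fun x i => (1 ::ₘ x.1.erase (M x),
    (M x - 1 - i) ::ₘ Multiset.replicate i 1, x.2.2)) ?_ ?_
  · intro x hx i hi
    rw [Finset.mem_filter, mem_conf0] at hx
    obtain ⟨⟨hx, h0⟩, hm⟩ := hx
    obtain ⟨h1, h2⟩ := hM x hm
    rw [mem_conf]
    refine ⟨?_, ?_, hx.pc, ?_, ?_⟩
    · intro k hk
      rcases Multiset.mem_cons.1 hk with rfl | hk
      · exact le_rfl
      · exact hx.pa k (Multiset.mem_of_mem_erase hk)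
    · intro k hk
      change k ∈ (M x - 1 - i) ::ₘ Multiset.replicate i 1 at hk
      rcases Multiset.mem_cons.1 hk with rfl | hk
      · omega
      · rw [Multiset.eq_of_mem_replicate hk]
    · have h3 : M x + (x.1.erase (M x)).sum = x.1.sum := by
        rw [← Multiset.sum_cons, Multiset.cons_erase h1]
      have h4 := hx.sum
      rw [h0, Multiset.sum_zero] at h4
      simp only [Multiset.sum_cons, Multiset.sum_replicate, smul_eq_mul, mul_one]
      omega
    · have h3 : Multiset.card (x.1.erase (M x)) + 1 = Multiset.card x.1 := by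
        rw [← Multiset.card_cons, Multiset.cons_erase h1]
      have h4 := hx.deg
      simp only [Multiset.card_cons]
      omega
  · intro x hx i hi x' hx' i' hi' he
    rw [Finset.mem_filter, mem_conf0] at hx hx'
    obtain ⟨⟨hx, h0⟩, hm⟩ := hx
    obtain ⟨⟨hx', h0'⟩, hm'⟩ := hx'
    obtain ⟨h1, h2⟩ := hM x hm
    obtain ⟨h1', h2'⟩ := hM x' hm'
    simp only [Prod.mk.injEq] at he
    obtain ⟨e1, e2, e3⟩ := he
    have e4 := congrArg Multiset.sum e2
    simp only [Multiset.sum_cons, Multiset.sum_replicate, smul_eq_mul, mul_one] at e4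
    have e5 : M x = M x' := by omega
    have e6 := congrArg (Multiset.count 1) e2
    rw [Multiset.count_cons_of_ne (by omega), Multiset.count_cons_of_ne (by omega),
      Multiset.count_replicate_self, Multiset.count_replicate_self] at e6
    have e7 : x.1.erase (M x) = x'.1.erase (M x') := (Multiset.cons_inj_right _).1 e1
    refine ⟨?_, e6⟩
    have e8 : x.1 = x'.1 := by
      rw [← Multiset.cons_erase h1, ← Multiset.cons_erase h1', e7, e5]
    exact Prod.ext e8 (Prod.ext (h0.trans h0'.symm) e3)

/-- Some parts at least `2` of `α` are replaced by parts `1`. -/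
theorem move3 (K n j : ℕ) :
    K * ((conf0 n j).filter fun x => K ≤ Multiset.card (x.1.filter fun k => 2 ≤ k)).card ≤
      (conf n j).card := by
  classical
  refine card_inj _ _ K (fun x i => (x.1 - tk (x.1.filter fun k => 2 ≤ k) i +
    Multiset.replicate i 1, (tk (x.1.filter fun k => 2 ≤ k) i).map (· - 1), x.2.2)) ?_ ?_
  · intro x hx i hi
    rw [Finset.mem_filter, mem_conf0] at hx
    obtain ⟨⟨hx, h0⟩, hm⟩ := hx
    set t := tk (x.1.filter fun k => 2 ≤ k) i with ht
    have h1 : t ≤ x.1 := (tk_le _ _).trans (Multiset.filter_le _ _)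
    have h2 : ∀ k ∈ t, 2 ≤ k := fun k hk =>
      (Multiset.mem_filter.1 (Multiset.mem_of_le (tk_le _ _) hk)).2
    have h3 : Multiset.card t = i := card_tk (by omega)
    have h4 : x.1 - t + t = x.1 := Multiset.sub_add_cancel h1
    rw [mem_conf]
    refine ⟨?_, ?_, hx.pc, ?_, ?_⟩
    · intro k hk
      rcases Multiset.mem_add.1 hk with hk | hk
      · exact hx.pa k (Multiset.mem_of_le (Multiset.sub_le_self _ _) hk)
      · rw [Multiset.eq_of_mem_replicate hk]
    · intro k hk
      change k ∈ t.map (· - 1) at hk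
      obtain ⟨l, hl, rfl⟩ := Multiset.mem_map.1 hk
      have := h2 l hl
      omega
    · have h5 := congrArg Multiset.sum h4
      rw [Multiset.sum_add] at h5
      have h6 := hx.sum
      rw [h0, Multiset.sum_zero] at h6
      have h7 := sum_map_pred (t := t) (fun k hk => by have := h2 k hk; omega)
      simp only [Multiset.sum_add, Multiset.sum_replicate, smul_eq_mul, mul_one]
      omega
    · have h5 := congrArg Multiset.card h4
      rw [Multiset.card_add] at h5
      have h6 := hx.deg
      simp only [Multiset.card_add, Multiset.card_replicate]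
      omega
  · intro x hx i hi x' hx' i' hi' he
    rw [Finset.mem_filter, mem_conf0] at hx hx'
    obtain ⟨⟨hx, h0⟩, hm⟩ := hx
    obtain ⟨⟨hx', h0'⟩, hm'⟩ := hx'
    simp only [Prod.mk.injEq] at he
    set t := tk (x.1.filter fun k => 2 ≤ k) i with ht
    set t' := tk (x'.1.filter fun k => 2 ≤ k) i' with ht'
    obtain ⟨e1, e2, e3⟩ := he
    have h1 : t ≤ x.1 := (tk_le _ _).trans (Multiset.filter_le _ _)
    have h1' : t' ≤ x'.1 := (tk_le _ _).trans (Multiset.filter_le _ _)
    have h2 : ∀ k ∈ t, 1 ≤ k := fun k hk => by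
      have := (Multiset.mem_filter.1 (Multiset.mem_of_le (tk_le _ _) hk)).2
      omega
    have h2' : ∀ k ∈ t', 1 ≤ k := fun k hk => by
      have := (Multiset.mem_filter.1 (Multiset.mem_of_le (tk_le _ _) hk)).2
      omega
    have h3 : Multiset.card t = i := card_tk (by omega)
    have h3' : Multiset.card t' = i' := card_tk (by omega)
    have e4 : t = t' := by
      rw [← map_pred_succ h2, ← map_pred_succ h2', e2]
    have e5 : i = i' := by rw [← h3, ← h3', e4]
    refine ⟨?_, e5⟩
    rw [e5] at e1
    have e6 : x.1 - t = x'.1 - t' := add_right_cancel e1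
    have e8 : x.1 = x'.1 := by
      rw [← Multiset.sub_add_cancel h1, ← Multiset.sub_add_cancel h1', e6, e4]
    exact Prod.ext e8 (Prod.ext (h0.trans h0'.symm) e3)

/-- Some parts `l` of `γ` and parts `1` of `α` are replaced by middle parts `l + 1`. -/
theorem move4 (K n j : ℕ) :
    K * ((conf0 n j).filter fun x => K ≤ Multiset.card x.2.2 ∧ K ≤ Multiset.count 1 x.1).card ≤
      (conf n j).card := by
  classical
  refine card_inj _ _ K (fun x i => (x.1 - Multiset.replicate i 1,
    (tk x.2.2 i).map (· + 1), x.2.2 - tk x.2.2 i)) ?_ ?_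
  · intro x hx i hi
    rw [Finset.mem_filter, mem_conf0] at hx
    obtain ⟨⟨hx, h0⟩, hm, hm'⟩ := hx
    set t := tk x.2.2 i with ht
    have h1 : t ≤ x.2.2 := tk_le _ _
    have h3 : Multiset.card t = i := card_tk (by omega)
    have h4 : x.2.2 - t + t = x.2.2 := Multiset.sub_add_cancel h1
    have h5 : Multiset.replicate i 1 ≤ x.1 := Multiset.le_count_iff_replicate_le.1 (by omega)
    have h6 : x.1 - Multiset.replicate i 1 + Multiset.replicate i 1 = x.1 :=
      Multiset.sub_add_cancel h5
    rw [mem_conf]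
    refine ⟨?_, ?_, ?_, ?_, ?_⟩
    · intro k hk
      exact hx.pa k (Multiset.mem_of_le (Multiset.sub_le_self _ _) hk)
    · intro k hk
      change k ∈ t.map (· + 1) at hk
      obtain ⟨l, hl, rfl⟩ := Multiset.mem_map.1 hk
      omega
    · intro k hk
      exact hx.pc k (Multiset.mem_of_le (Multiset.sub_le_self _ _) hk)
    · have h7 := congrArg Multiset.sum h4
      have h8 := congrArg Multiset.sum h6
      rw [Multiset.sum_add] at h7 h8
      rw [Multiset.sum_replicate, smul_eq_mul, mul_one] at h8
      have h9 := hx.sum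
      rw [h0, Multiset.sum_zero] at h9
      have h10 := sum_map_succ t
      simp only
      omega
    · have h7 := congrArg Multiset.card h4
      have h8 := congrArg Multiset.card h6
      rw [Multiset.card_add] at h7 h8
      rw [Multiset.card_replicate] at h8
      have h9 := hx.deg
      simp only
      omega
  · intro x hx i hi x' hx' i' hi' he
    rw [Finset.mem_filter, mem_conf0] at hx hx'
    obtain ⟨⟨hx, h0⟩, hm, hn⟩ := hx
    obtain ⟨⟨hx', h0'⟩, hm', hn'⟩ := hx'
    simp only [Prod.mk.injEq] at he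
    set t := tk x.2.2 i with ht
    set t' := tk x'.2.2 i' with ht'
    obtain ⟨e1, e2, e3⟩ := he
    have h1 : t ≤ x.2.2 := tk_le _ _
    have h1' : t' ≤ x'.2.2 := tk_le _ _
    have h3 : Multiset.card t = i := card_tk (by omega)
    have h3' : Multiset.card t' = i' := card_tk (by omega)
    have h5 : Multiset.replicate i 1 ≤ x.1 := Multiset.le_count_iff_replicate_le.1 (by omega)
    have h5' : Multiset.replicate i' 1 ≤ x'.1 := Multiset.le_count_iff_replicate_le.1 (by omega)
    have e4 : t = t' := by
      rw [← map_succ_pred t, ← map_succ_pred t', e2]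
    have e5 : i = i' := by rw [← h3, ← h3', e4]
    refine ⟨?_, e5⟩
    have e8 : x.1 = x'.1 := by
      rw [← Multiset.sub_add_cancel h5, ← Multiset.sub_add_cancel h5', e1, e5]
    have e9 : x.2.2 = x'.2.2 := by
      rw [← Multiset.sub_add_cancel h1, ← Multiset.sub_add_cancel h1', e3, e4]
    exact Prod.ext e8 (Prod.ext (h0.trans h0'.symm) e9)

theorem card_swap {n j : ℕ} (hj : j ≤ 2 * n) : (conf n (2 * n - j)).card = (conf n j).card := by
  refine Finset.card_bij' (fun x _ => (x.2.2, x.2.1, x.1)) (fun x _ => (x.2.2, x.2.1, x.1))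
    ?_ ?_ (fun _ _ => rfl) (fun _ _ => rfl)
  · intro x hx
    rw [mem_conf] at hx ⊢
    have := hx.swap (by omega)
    rwa [show 2 * n - (2 * n - j) = j by omega] at this
  · intro x hx
    rw [mem_conf] at hx ⊢
    exact hx.swap hj

theorem card_swap_filter {n j : ℕ} (hj : j ≤ 2 * n)
    (p : Multiset ℕ × Multiset ℕ × Multiset ℕ → Prop) [DecidablePred p] [DecidablePred fun x : Multiset ℕ × Multiset ℕ × Multiset ℕ => p (x.2.2, x.2.1, x.1)] :
    ((conf0 n j).filter fun x => p (x.2.2, x.2.1, x.1)).card =
      ((conf0 n (2 * n - j)).filter p).card := by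
  refine Finset.card_bij' (fun x _ => (x.2.2, x.2.1, x.1)) (fun x _ => (x.2.2, x.2.1, x.1))
    ?_ ?_ (fun _ _ => rfl) (fun _ _ => rfl)
  · intro x hx
    rw [Finset.mem_filter, mem_conf0] at hx ⊢
    exact ⟨⟨hx.1.1.swap hj, hx.1.2⟩, hx.2⟩
  · intro x hx
    rw [Finset.mem_filter, mem_conf0] at hx ⊢
    refine ⟨⟨?_, hx.1.2⟩, hx.2⟩
    have := hx.1.1.swap (by omega)
    rwa [show 2 * n - (2 * n - j) = j by omega] at this

private theorem sum_le_mul {s : Multiset ℕ} {M : ℕ} (h : ∀ k ∈ s, k ≤ M) :
    s.sum ≤ Multiset.card s * M := by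
  have := Multiset.sum_le_card_nsmul s M h
  rwa [smul_eq_mul] at this

/-- Few large parts: bound for `∑ (k - 1)`. -/
private theorem sum_le_filter {s : Multiset ℕ} {M : ℕ} (h : ∀ k ∈ s, k ≤ M) :
    s.sum ≤ Multiset.card s + Multiset.card (s.filter fun k => 2 ≤ k) * M := by
  have h1 := Multiset.filter_add_not (fun k => 2 ≤ k) s
  have h2 := congrArg Multiset.sum h1
  have h3 := congrArg Multiset.card h1
  rw [Multiset.sum_add] at h2
  rw [Multiset.card_add] at h3
  have h4 : (s.filter fun k => 2 ≤ k).sum ≤ Multiset.card (s.filter fun k => 2 ≤ k) * M :=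
    sum_le_mul fun k hk => h k (Multiset.mem_filter.1 hk).1
  have h5 : (s.filter fun k => ¬ 2 ≤ k).sum ≤ Multiset.card (s.filter fun k => ¬ 2 ≤ k) * 1 :=
    sum_le_mul fun k hk => by
      have := (Multiset.mem_filter.1 hk).2
      omega
  omega

private theorem card_le_count {s : Multiset ℕ} (h : ∀ k ∈ s, 1 ≤ k) :
    Multiset.card s ≤ Multiset.count 1 s + Multiset.card (s.filter fun k => 2 ≤ k) := by
  have h1 := Multiset.filter_add_not (fun k => 2 ≤ k) s
  have h3 := congrArg Multiset.card h1
  rw [Multiset.card_add] at h3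
  have h4 : s.filter (fun k => ¬ 2 ≤ k) = s.filter (fun k => 1 = k) := by
    refine Multiset.filter_congr fun k hk => ?_
    have := h k hk
    omega
  have h5 : Multiset.count 1 s = Multiset.card (s.filter fun k => ¬ 2 ≤ k) := by
    rw [h4, Multiset.count, Multiset.countP_eq_card_filter]
  omega

/-- Triples without middle parts are rare. -/
theorem star (K : ℕ) : ∃ c : ℕ, ∀ n j : ℕ, c ≤ j → j + c ≤ 2 * n →
    K * (conf0 n j).card ≤ (conf n j).card := by
  classical
  refine ⟨2 * (6 * K) * (6 * K + 2) + 6 * K * (6 * K + 2) + 12 * K + 1, fun n j h1 h2 => ?_⟩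
  set L := 6 * K with hL
  have hj : j ≤ 2 * n := by omega
  let p1 : Multiset ℕ × Multiset ℕ × Multiset ℕ → Prop := fun x => ∃ m ∈ x.1, L + 2 ≤ m
  let p3 : Multiset ℕ × Multiset ℕ × Multiset ℕ → Prop := fun x =>
    L ≤ Multiset.card (x.1.filter fun k => 2 ≤ k)
  let p4 : Multiset ℕ × Multiset ℕ × Multiset ℕ → Prop := fun x =>
    L ≤ Multiset.card x.2.2 ∧ L ≤ Multiset.count 1 x.1
  have hcov : conf0 n j ⊆
      (((conf0 n j).filter p1 ∪ (conf0 n j).filter fun x => p1 (x.2.2, x.2.1, x.1)) ∪
      ((conf0 n j).filter p3 ∪ (conf0 n j).filter fun x => p3 (x.2.2, x.2.1, x.1))) ∪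
      ((conf0 n j).filter p4 ∪ (conf0 n j).filter fun x => p4 (x.2.2, x.2.1, x.1)) := by
    intro x hx
    simp only [Finset.mem_union, Finset.mem_filter, hx, true_and]
    by_contra hcon
    simp only [not_or] at hcon
    obtain ⟨⟨⟨c1, c2⟩, c3, c4⟩, c5, c6⟩ := hcon
    rw [mem_conf0] at hx
    obtain ⟨hx, h0⟩ := hx
    simp only [p1, not_exists, not_and, not_le] at c1 c2
    simp only [p3, not_le] at c3 c4
    simp only [p4, not_and, not_le] at c5 c6
    have s1 := sum_le_filter (s := x.1) (M := L + 1) (fun k hk => by have := c1 k hk; omega)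
    have s2 := sum_le_filter (s := x.2.2) (M := L + 1) (fun k hk => by have := c2 k hk; omega)
    have s3 := card_le_count hx.pa
    have s4 := card_le_count hx.pc
    have s5 := hx.sum
    rw [h0, Multiset.sum_zero] at s5
    have s6 := hx.deg
    have t1 : Multiset.card (x.1.filter fun k => 2 ≤ k) * (L + 1) ≤ L * (L + 1) :=
      Nat.mul_le_mul_right _ c3.le
    have t2 : Multiset.card (x.2.2.filter fun k => 2 ≤ k) * (L + 1) ≤ L * (L + 1) :=
      Nat.mul_le_mul_right _ c4.le
    have t3 : (L + 1) * L = L * (L + 1) := mul_comm _ _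
    have e1 : 2 * L * (L + 2) = 2 * (L * (L + 1)) + 2 * L := by ring
    have e2 : L * (L + 2) = L * (L + 1) + L := by ring
    rw [e1, e2] at h1 h2
    by_cases hc : L ≤ Multiset.card x.2.2
    · have u1 := c5 hc
      by_cases hc' : L ≤ Multiset.card x.1
      · have u2 := c6 hc'
        omega
      · omega
    · omega
  have m1 : L * ((conf0 n j).filter p1).card ≤ (conf n j).card := by
    convert move1 L n j
  have m1' : L * ((conf0 n (2 * n - j)).filter p1).card ≤ (conf n j).card := by
    rw [← card_swap hj]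
    convert move1 L n (2 * n - j)
  have m3 : L * ((conf0 n j).filter p3).card ≤ (conf n j).card := by
    convert move3 L n j
  have m3' : L * ((conf0 n (2 * n - j)).filter p3).card ≤ (conf n j).card := by
    rw [← card_swap hj]
    convert move3 L n (2 * n - j)
  have m4 : L * ((conf0 n j).filter p4).card ≤ (conf n j).card := by
    convert move4 L n j
  have m4' : L * ((conf0 n (2 * n - j)).filter p4).card ≤ (conf n j).card := by
    rw [← card_swap hj]
    convert move4 L n (2 * n - j)
  have w1 := card_swap_filter hj p1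
  have w3 := card_swap_filter hj p3
  have w4 := card_swap_filter hj p4
  have hle := Finset.card_le_card hcov
  have hu := Finset.card_union_le
    (((conf0 n j).filter p1 ∪ (conf0 n j).filter fun x => p1 (x.2.2, x.2.1, x.1)) ∪
      ((conf0 n j).filter p3 ∪ (conf0 n j).filter fun x => p3 (x.2.2, x.2.1, x.1)))
      ((conf0 n j).filter p4 ∪ (conf0 n j).filter fun x => p4 (x.2.2, x.2.1, x.1))
  have hu2 := Finset.card_union_le
    ((conf0 n j).filter p1 ∪ (conf0 n j).filter fun x => p1 (x.2.2, x.2.1, x.1))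
      ((conf0 n j).filter p3 ∪ (conf0 n j).filter fun x => p3 (x.2.2, x.2.1, x.1))
  have hu3 := Finset.card_union_le ((conf0 n j).filter p1)
    ((conf0 n j).filter fun x => p1 (x.2.2, x.2.1, x.1))
  have hu4 := Finset.card_union_le ((conf0 n j).filter p3)
    ((conf0 n j).filter fun x => p3 (x.2.2, x.2.1, x.1))
  have hu5 := Finset.card_union_le ((conf0 n j).filter p4)
    ((conf0 n j).filter fun x => p4 (x.2.2, x.2.1, x.1))
  rw [w1] at hu3
  rw [w3] at hu4
  rw [w4] at hu5
  set N := (conf n j).card
  set A := (conf0 n j).card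
  have hA : A ≤ (((conf0 n j).filter p1).card + ((conf0 n (2 * n - j)).filter p1).card) +
      (((conf0 n j).filter p3).card + ((conf0 n (2 * n - j)).filter p3).card) +
      (((conf0 n j).filter p4).card + ((conf0 n (2 * n - j)).filter p4).card) := by omega
  have hfin : L * A ≤ 6 * N := by
    calc L * A ≤ L * ((((conf0 n j).filter p1).card + ((conf0 n (2 * n - j)).filter p1).card) +
      (((conf0 n j).filter p3).card + ((conf0 n (2 * n - j)).filter p3).card) +
      (((conf0 n j).filter p4).card + ((conf0 n (2 * n - j)).filter p4).card)) :=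
          Nat.mul_le_mul_left _ hA
      _ = L * ((conf0 n j).filter p1).card + L * ((conf0 n (2 * n - j)).filter p1).card +
        (L * ((conf0 n j).filter p3).card + L * ((conf0 n (2 * n - j)).filter p3).card) +
        (L * ((conf0 n j).filter p4).card + L * ((conf0 n (2 * n - j)).filter p4).card) := by ring
      _ ≤ 6 * N := by
          have := m1
          omega
  have h6 : 6 * (K * A) ≤ 6 * N := by
    calc 6 * (K * A) = L * A := by rw [hL]; ring
      _ ≤ 6 * N := hfin
  omega

end Pool.Agent.ARC
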