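import Pool.Agent.ARC.CPowB
import Pool.Agent.ARC.CBlow

/-! # ARC, part C, module CPow: powers of varieties, domination -/

set_option autoImplicit false

noncomputable section

namespace Pool.Agent.ARC

open Module Finset Pool.Agent.PGZ2

open Pool.Agent.PGZ (act act_apply)

/-- The coefficient of `y ^ j` in `(∑_{i ≤ d} c i y ^ i) ^ n`. -/
def pwc (c : ℕ → ℤ) (d n j : ℕ) : ℤ :=
  ((∑ i ∈ range (d + 1), Polynomial.C (c i) * Polynomial.X ^ i) ^ n).coeff j

theorem pwc_eq (c : ℕ → ℤ) (d n j : ℕ) : pwc c d n j =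
    ∑ ν ∈ VV d n j, (Nat.multinomial (range (d + 1)) ν : ℤ) * ∏ t ∈ range (d + 1), c t ^ ν t := by
  rw [pwc, sum_pow_eq_sum_piAntidiag, Polynomial.finsetSum_coeff, VV, sum_filter]
  refine sum_congr rfl fun ν _ => ?_
  have h1 : ∏ t ∈ range (d + 1), (Polynomial.C (c t) * Polynomial.X ^ t) ^ ν t =
      Polynomial.C (∏ t ∈ range (d + 1), c t ^ ν t) *
        Polynomial.X ^ (∑ t ∈ range (d + 1), t * ν t) := by
    rw [map_prod, ← prod_pow_eq_pow_sum, ← prod_mul_distrib]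
    refine prod_congr rfl fun t _ => ?_
    rw [mul_pow, map_pow, ← pow_mul]
  have h2 : ((Nat.multinomial (range (d + 1)) ν : ℕ) : Polynomial ℤ) =
      Polynomial.C ((Nat.multinomial (range (d + 1)) ν : ℕ) : ℤ) := by
    rw [map_natCast]
  rw [h1, h2, ← mul_assoc, ← map_mul, Polynomial.coeff_C_mul, Polynomial.coeff_X_pow]
  by_cases h : j = ∑ t ∈ range (d + 1), t * ν t
  · rw [if_pos h, if_pos h.symm, mul_one]
  · rw [if_neg h, if_neg (fun h' => h h'.symm), mul_zero]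

/-- Reversal of an exponent. -/
def rvs (d : ℕ) (ν : ℕ → ℕ) : ℕ → ℕ := fun t => if t ≤ d then ν (d - t) else 0

theorem rvs_mem {d n j : ℕ} {ν : ℕ → ℕ} (h : ν ∈ VV d n j) : rvs d ν ∈ VV d n (d * n - j) := by
  rw [mem_VV] at h ⊢
  obtain ⟨⟨h1, h2⟩, h3⟩ := h
  have h4 : ∀ t ∈ range (d + 1), rvs d ν t = ν (d + 1 - 1 - t) := by
    intro t ht
    rw [mem_range] at ht
    rw [rvs, if_pos (by omega), Nat.add_sub_cancel]
  refine ⟨⟨?_, ?_⟩, ?_⟩
  · rw [sum_congr rfl h4, sum_range_reflect, h1]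
  · intro t ht
    by_contra hcon
    exact ht (by rw [rvs, if_neg hcon])
  · have h5 : ∑ t ∈ range (d + 1), t * rvs d ν t = ∑ t ∈ range (d + 1), (d - t) * ν t := by
      rw [← sum_range_reflect (fun t => t * rvs d ν t) (d + 1)]
      refine sum_congr rfl fun t ht => ?_
      rw [mem_range] at ht
      rw [Nat.add_sub_cancel, rvs, if_pos (by omega), show d - (d - t) = t by omega]
    have h6 : ∑ t ∈ range (d + 1), (d - t) * ν t + ∑ t ∈ range (d + 1), t * ν t = d * n := by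
      rw [← sum_add_distrib, ← h1, mul_sum]
      refine sum_congr rfl fun t ht => ?_
      rw [mem_range] at ht
      rw [← add_mul, show d - t + t = d by omega]
    omega

theorem rvs_rvs {d n j : ℕ} {ν : ℕ → ℕ} (h : ν ∈ VV d n j) : rvs d (rvs d ν) = ν := by
  rw [mem_VV] at h
  funext t
  by_cases ht : t ≤ d
  · rw [rvs, if_pos ht, rvs, if_pos (by omega), show d - (d - t) = t by omega]
  · rw [rvs, if_neg ht]
    by_contra hcon
    exact ht (h.1.2 t (fun h0 => hcon h0.symm))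

theorem deg_le {d n j : ℕ} {ν : ℕ → ℕ} (h : ν ∈ VV d n j) : j ≤ d * n := by
  rw [mem_VV] at h
  rw [← h.2, ← h.1.1, mul_sum]
  refine sum_le_sum fun t ht => ?_
  rw [mem_range] at ht
  exact Nat.mul_le_mul_right _ (by omega)

theorem pwc_symm (c : ℕ → ℤ) (d n j : ℕ) (hc : ∀ i ≤ d, c (d - i) = c i) (hj : j ≤ d * n) :
    pwc c d n (d * n - j) = pwc c d n j := by
  rw [pwc_eq, pwc_eq]
  refine sum_bij' (fun ν _ => rvs d ν) (fun ν _ => rvs d ν) ?_ ?_ ?_ ?_ ?_
  · intro ν hν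
    have := rvs_mem hν
    rwa [show d * n - (d * n - j) = j by omega] at this
  · intro ν hν
    exact rvs_mem hν
  · intro ν hν
    exact rvs_rvs hν
  · intro ν hν
    exact rvs_rvs hν
  · intro ν hν
    have h4 : ∀ t ∈ range (d + 1), rvs d ν t = ν (d + 1 - 1 - t) := by
      intro t ht
      rw [mem_range] at ht
      rw [rvs, if_pos (by omega), Nat.add_sub_cancel]
    congr 1
    · rw [Nat.multinomial, Nat.multinomial]
      congr 2
      · rw [sum_congr rfl h4, sum_range_reflect]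
      · rw [← prod_range_reflect (fun t => (rvs d ν t).factorial) (d + 1)]
        refine prod_congr rfl fun t ht => ?_
        rw [mem_range] at ht
        rw [Nat.add_sub_cancel, rvs, if_pos (by omega), show d - (d - t) = t by omega]
    · rw [← prod_range_reflect (fun t => c t ^ rvs d ν t) (d + 1)]
      refine prod_congr rfl fun t ht => ?_
      rw [mem_range] at ht
      rw [Nat.add_sub_cancel, rvs, if_pos (by omega), show d - (d - t) = t by omega,
        hc t (by omega)]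

theorem pwc_nat (b : ℕ → ℕ) (d n j : ℕ) :
    pwc (fun i => (b i : ℤ)) d n j = ((∑ ν ∈ VV d n j, TT d b ν : ℕ) : ℤ) := by
  rw [pwc_eq, Nat.cast_sum]
  refine sum_congr rfl fun ν _ => ?_
  rw [TT]
  push_cast
  rfl

/-- Domination for powers: one element. -/
theorem pow_dom (d m k : ℕ) (c : ℕ → ℤ) (b : ℕ → ℕ) (hb : ∀ t ≤ d, 1 ≤ b t)
    (hcb : ∀ t ≤ d, |c t| ≤ (b t : ℤ)) (hk1 : 1 ≤ k) (hkd : k < d) (hkm : k ≤ m)
    (hlt : |c k| < (b k : ℤ)) (hcs : ∀ i ≤ d, c (d - i) = c i) (hbs : ∀ i ≤ d, b (d - i) = b i)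
    (K : ℕ) : ∃ C : ℕ, ∀ n j : ℕ, 1 ≤ n → C * n ^ (m - 1) ≤ j ^ m →
      C * n ^ (m - 1) ≤ (d * n - j) ^ m →
      (K : ℤ) * |pwc c d n j| ≤ pwc (fun i => (b i : ℤ)) d n j := by
  classical
  obtain ⟨B, hB⟩ : ∃ B : ℕ, (2 * K : ℤ) * |c k| ^ B ≤ (b k : ℤ) ^ B := by
    have hbk : (0 : ℝ) < (b k : ℝ) := by
      have := hb k hkd.le
      exact_mod_cast this
    have h0 : (0 : ℝ) ≤ (|c k| : ℤ) / (b k : ℝ) := by positivity
    have h1 : ((|c k| : ℤ) : ℝ) / (b k : ℝ) < 1 := by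
      rw [div_lt_one hbk]
      exact_mod_cast hlt
    have h2 := (tendsto_pow_atTop_nhds_zero_of_lt_one h0 h1).const_mul (2 * K : ℝ)
    rw [mul_zero] at h2
    obtain ⟨B, hB⟩ := (h2.eventually_lt_const one_pos).exists
    refine ⟨B, ?_⟩
    rw [div_pow, mul_div_assoc', div_lt_one (by positivity)] at hB
    exact_mod_cast hB.le
  obtain ⟨C, hC⟩ := pw_bad d k m B (2 * K) b hb hk1 hkd hkm
  have main : ∀ n j : ℕ, 1 ≤ n → C * n ^ (m - 1) ≤ j ^ m → 2 * j ≤ d * n →
      (K : ℤ) * |pwc c d n j| ≤ pwc (fun i => (b i : ℤ)) d n j := by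
    intro n j hn hCn h2j
    have h1 := hC n j hn hCn h2j
    rw [pwc_nat]
    have e0 : |pwc c d n j| ≤ ∑ ν ∈ VV d n j, (Nat.multinomial (range (d + 1)) ν : ℤ) *
        ∏ t ∈ range (d + 1), |c t| ^ ν t := by
      rw [pwc_eq]
      refine (abs_sum_le_sum_abs _ _).trans (le_of_eq ?_)
      refine sum_congr rfl fun ν _ => ?_
      rw [abs_mul, Nat.abs_cast, abs_prod]
      congr 1
      exact prod_congr rfl fun t _ => abs_pow _ _
    have e1 := sum_filter_add_sum_filter_not (VV d n j) (fun ν => ν k < B)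
      (fun ν => (Nat.multinomial (range (d + 1)) ν : ℤ) * ∏ t ∈ range (d + 1), |c t| ^ ν t)
    have hterm : ∀ ν : ℕ → ℕ, (Nat.multinomial (range (d + 1)) ν : ℤ) *
        ∏ t ∈ range (d + 1), |c t| ^ ν t ≤ (TT d b ν : ℤ) := by
      intro ν
      rw [TT]
      push_cast
      refine mul_le_mul_of_nonneg_left ?_ (by positivity)
      refine prod_le_prod (fun t _ => by positivity) fun t ht => ?_
      rw [mem_range] at ht
      exact pow_le_pow_left₀ (abs_nonneg _) (hcb t (by omega)) _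
    have e2 : ∑ ν ∈ (VV d n j).filter (fun ν => ν k < B),
        (Nat.multinomial (range (d + 1)) ν : ℤ) * ∏ t ∈ range (d + 1), |c t| ^ ν t ≤
        ((∑ ν ∈ (VV d n j).filter (fun ν => ν k < B), TT d b ν : ℕ) : ℤ) := by
      rw [Nat.cast_sum]
      exact sum_le_sum fun ν _ => hterm ν
    have e3 : (2 * K : ℤ) * ∑ ν ∈ (VV d n j).filter (fun ν => ¬ ν k < B),
        (Nat.multinomial (range (d + 1)) ν : ℤ) * ∏ t ∈ range (d + 1), |c t| ^ ν t ≤
        ((∑ ν ∈ VV d n j, TT d b ν : ℕ) : ℤ) := by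
      rw [Nat.cast_sum, mul_sum]
      refine (sum_le_sum (g := fun ν => (TT d b ν : ℤ)) fun ν hν => ?_).trans
        (sum_le_sum_of_subset_of_nonneg (filter_subset _ _) fun ν _ _ => by positivity)
      rw [mem_filter, not_lt] at hν
      have mk : k ∈ range (d + 1) := mem_range.2 (by omega)
      rw [TT]
      push_cast
      rw [← mul_prod_erase (range (d + 1)) (fun t => |c t| ^ ν t) mk,
        ← mul_prod_erase (range (d + 1)) (fun t => (b t : ℤ) ^ ν t) mk]
      have h3 : (2 * K : ℤ) * |c k| ^ ν k ≤ (b k : ℤ) ^ ν k := by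
        obtain ⟨r, hr⟩ := Nat.exists_eq_add_of_le hν.2
        rw [hr, pow_add, pow_add, ← mul_assoc]
        exact mul_le_mul hB (pow_le_pow_left₀ (abs_nonneg _) hlt.le _) (by positivity)
          (by positivity)
      have h4 : ∏ t ∈ (range (d + 1)).erase k, |c t| ^ ν t ≤
          ∏ t ∈ (range (d + 1)).erase k, (b t : ℤ) ^ ν t := by
        refine prod_le_prod (fun t _ => by positivity) fun t ht => ?_
        have ht' := mem_range.1 (mem_of_mem_erase ht)
        exact pow_le_pow_left₀ (abs_nonneg _) (hcb t (by omega)) _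
      have h5 := mul_le_mul h3 h4 (prod_nonneg fun t _ => by positivity) (by positivity)
      have h6 := mul_le_mul_of_nonneg_left h5
        (by positivity : (0 : ℤ) ≤ (Nat.multinomial (range (d + 1)) ν : ℤ))
      calc (2 * K : ℤ) * ((Nat.multinomial (range (d + 1)) ν : ℤ) *
            (|c k| ^ ν k * ∏ t ∈ (range (d + 1)).erase k, |c t| ^ ν t))
          = (Nat.multinomial (range (d + 1)) ν : ℤ) * ((2 * K : ℤ) * |c k| ^ ν k *
            ∏ t ∈ (range (d + 1)).erase k, |c t| ^ ν t) := by ring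
        _ ≤ _ := h6
    have e4 : (2 * K : ℤ) * ((∑ ν ∈ (VV d n j).filter (fun ν => ν k < B), TT d b ν : ℕ) : ℤ) ≤
        ((∑ ν ∈ VV d n j, TT d b ν : ℕ) : ℤ) := by exact_mod_cast h1
    have hK : (0 : ℤ) ≤ 2 * K := by positivity
    have e5 := mul_le_mul_of_nonneg_left e2 hK
    have e6 := mul_le_mul_of_nonneg_left e0 hK
    rw [← e1, mul_add] at e6
    linarith
  refine ⟨C + 1, fun n j hn h1 h2 => ?_⟩
  have hCle : C * n ^ (m - 1) ≤ (C + 1) * n ^ (m - 1) := Nat.mul_le_mul_right _ (by omega)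
  have hpos : 0 < (C + 1) * n ^ (m - 1) := by positivity
  have hjle : j ≤ d * n := by
    by_contra hcon
    rw [show d * n - j = 0 by omega, zero_pow (by omega)] at h2
    omega
  by_cases hj : 2 * j ≤ d * n
  · exact main n j hn (hCle.trans h1) hj
  · have h3 := main n (d * n - j) hn (hCle.trans h2) (by omega)
    rw [pwc_symm c d n j hcs hjle, pwc_symm (fun i => (b i : ℤ)) d n j
      (fun i hi => by simp only [hbs i hi]) hjle] at h3
    exact h3

theorem symTr_one' {Λ : Type*} [AddCommGroup Λ] [Module.Free ℤ Λ] [Module.Finite ℤ Λ]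
    (φ : Λ →ₗ[ℤ] Λ) (N : ℕ) (hN : 0 < N) (h : φ ^ N = 1) :
    symTr φ 1 = LinearMap.trace ℤ Λ φ := by
  have h1 := newton_symTr φ N hN h 1
  rw [Icc_self, sum_singleton, pow_one, Nat.sub_self, symTr_zero, mul_one, Nat.cast_one,
    one_mul] at h1
  exact h1

/-- Domination for the powers of a variety with algebraic cohomology: `A i` is `H^{2i}(X)(i)`. -/
theorem pow_bulk (G : Type) [Group G] [Finite G] (d m : ℕ) (A : ℕ → Type)
    [∀ i, AddCommGroup (A i)] [∀ i, Module.Free ℤ (A i)] [∀ i, Module.Finite ℤ (A i)]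
    [∀ i, DistribMulAction G (A i)] (hmd : m < d)
    (hinv : ∀ i ≤ d, ∃ v : A i, v ≠ 0 ∧ ∀ g : G, g • v = v)
    (hdual : ∀ i ≤ d, ∀ g : G, LinearMap.trace ℤ (A (d - i)) (act (A (d - i)) g) =
      LinearMap.trace ℤ (A i) (act (A i) g))
    (hf : ∀ g : G, (∀ i, 1 ≤ i → i ≤ m → ∀ v : A i, g • v = v) → g = 1) :
    ∃ C : ℕ, ∀ n j : ℕ, 1 ≤ n → C * n ^ (m - 1) ≤ j ^ m → C * n ^ (m - 1) ≤ (d * n - j) ^ m →
      (∑ᶠ g : {g : G // g ≠ 1},
        |pwc (fun i => LinearMap.trace ℤ (A i) (act (A i) g.1)) d n j|) ≤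
        pwc (fun i => LinearMap.trace ℤ (A i) (act (A i) (1 : G))) d n j := by
  classical
  have hfin : Fintype G := Fintype.ofFinite G
  set b : ℕ → ℕ := fun i => finrank ℤ (A i) with hbdef
  have htr1 : ∀ i, LinearMap.trace ℤ (A i) (act (A i) (1 : G)) = (b i : ℤ) := by
    intro i
    have : act (A i) (1 : G) = 1 := by
      ext x
      simp
    rw [this, LinearMap.trace_one]
  have hb : ∀ t ≤ d, 1 ≤ b t := by
    intro t ht
    obtain ⟨v, hv, _⟩ := hinv t ht
    exact Module.finrank_pos_iff_exists_ne_zero.2 ⟨v, hv⟩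
  have hord : ∀ (i : ℕ) (g : G), (act (A i) g) ^ (Nat.card G) = 1 := by
    intro i g
    rw [act_pow', pow_card_eq_one']
    ext x
    simp
  have hcb : ∀ (g : G) (t : ℕ), |LinearMap.trace ℤ (A t) (act (A t) g)| ≤ (b t : ℤ) := by
    intro g t
    have := abs_trace_le (act (A t) g) (Nat.card G) Nat.card_pos (hord t g) 1
    rwa [pow_one] at this
  have hbs : ∀ i ≤ d, b (d - i) = b i := by
    intro i hi
    have := hdual i hi 1
    rw [htr1, htr1] at this
    exact_mod_cast this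
  have h1 : ∀ g : {g : G // g ≠ 1}, ∃ C : ℕ, ∀ n j : ℕ, 1 ≤ n → C * n ^ (m - 1) ≤ j ^ m →
      C * n ^ (m - 1) ≤ (d * n - j) ^ m →
      (Nat.card G : ℤ) * |pwc (fun i => LinearMap.trace ℤ (A i) (act (A i) g.1)) d n j| ≤
        pwc (fun i => (b i : ℤ)) d n j := by
    intro g
    have h2 : ∃ k, 1 ≤ k ∧ k ≤ m ∧ ∃ v : A k, g.1 • v ≠ v := by
      by_contra hcon
      push Not at hcon
      exact g.2 (hf g.1 fun i hi1 him v => hcon i hi1 him v)
    obtain ⟨k, hk1, hkm, hk⟩ := h2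
    refine pow_dom d m k _ b hb (fun t _ => hcb g.1 t) hk1 (by omega) hkm ?_
      (fun i hi => hdual i hi g.1) hbs (Nat.card G)
    obtain ⟨D, _, _, hD1, _, hD2⟩ := sym_bound G (A k) (hinv k (by omega))
    have h3 := (hD2 g.1 hk).1 1 le_rfl
    rw [symTr_one' _ (Nat.card G) Nat.card_pos (hord k g.1), ← hD1 1,
      symTr_one' _ (Nat.card G) Nat.card_pos (hord k 1), htr1] at h3
    exact h3
  choose C hC using h1
  refine ⟨∑ g, C g, fun n j hn h2 h3 => ?_⟩
  rw [finsum_eq_sum_of_fintype]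
  simp only [htr1]
  have h4 : ∀ g : {g : G // g ≠ 1},
      (Nat.card G : ℤ) * |pwc (fun i => LinearMap.trace ℤ (A i) (act (A i) g.1)) d n j| ≤
        pwc (fun i => (b i : ℤ)) d n j := by
    intro g
    have h5 : C g * n ^ (m - 1) ≤ (∑ g, C g) * n ^ (m - 1) :=
      Nat.mul_le_mul_right _ (single_le_sum (f := C) (fun _ _ => Nat.zero_le _) (mem_univ g))
    exact hC g n j hn (h5.trans h2) (h5.trans h3)
  have hc : (0 : ℤ) < (Nat.card G : ℤ) := by exact_mod_cast Nat.card_pos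
  have h5 : (Nat.card G : ℤ) * ∑ g : {g : G // g ≠ 1},
      |pwc (fun i => LinearMap.trace ℤ (A i) (act (A i) g.1)) d n j| ≤
      (Nat.card G : ℤ) * pwc (fun i => (b i : ℤ)) d n j := by
    rw [mul_sum]
    refine (sum_le_card_nsmul univ _ _ fun g _ => h4 g).trans ?_
    rw [nsmul_eq_mul]
    have h6 : 0 ≤ pwc (fun i => (b i : ℤ)) d n j := by
      rw [pwc_nat]
      positivity
    refine mul_le_mul_of_nonneg_right ?_ h6
    rw [card_univ, Nat.card_eq_fintype_card]
    exact_mod_cast Fintype.card_subtype_le _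
  exact le_of_mul_le_mul_left h5 hc

end Pool.Agent.ARC
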