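import Mathlib

/-! # ARC, part C, module CPowA: powers of varieties, moves between exponents -/

set_option autoImplicit false

noncomputable section

namespace Pool.Agent.ARC

open Finset

/-- The index `i` loses `a + b`, the indices `k`, `z` gain `a`, `b`. -/
def mvA (i k z a b : ℕ) (ν : ℕ → ℕ) : ℕ → ℕ := fun t =>
  if t = i then ν t - (a + b) else if t = k then ν t + a else if t = z then ν t + b else ν t

/-- The indices `i`, `z` lose `a`, `b`, the index `k` gains `a + b`. -/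
def mvB (i z k a b : ℕ) (ν : ℕ → ℕ) : ℕ → ℕ := fun t =>
  if t = i then ν t - a else if t = z then ν t - b else if t = k then ν t + (a + b) else ν t

section

variable {M : Type*} [CommMonoid M]

theorem prod_three {s : Finset ℕ} {i k z : ℕ} (hi : i ∈ s) (hk : k ∈ s) (hz : z ∈ s)
    (hik : k ≠ i) (hzi : z ≠ i) (hzk : z ≠ k) (f : ℕ → M) :
    ∏ t ∈ s, f t = f i * (f k * (f z * ∏ t ∈ ((s.erase i).erase k).erase z, f t)) := by
  rw [← mul_prod_erase s f hi, ← mul_prod_erase (s.erase i) f (mem_erase.2 ⟨hik, hk⟩),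
    ← mul_prod_erase ((s.erase i).erase k) f (mem_erase.2 ⟨hzk, mem_erase.2 ⟨hzi, hz⟩⟩)]

theorem prod_mvA {s : Finset ℕ} {i k z : ℕ} (hi : i ∈ s) (hk : k ∈ s) (hz : z ∈ s)
    (hik : k ≠ i) (hzi : z ≠ i) (hzk : z ≠ k) (a b : ℕ) (ν : ℕ → ℕ) (g : ℕ → ℕ → M) :
    ∏ t ∈ s, g t (mvA i k z a b ν t) = g i (ν i - (a + b)) * (g k (ν k + a) * (g z (ν z + b) *
      ∏ t ∈ ((s.erase i).erase k).erase z, g t (ν t))) := by
  rw [prod_three hi hk hz hik hzi hzk]
  have h1 : mvA i k z a b ν i = ν i - (a + b) := by simp [mvA]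
  have h2 : mvA i k z a b ν k = ν k + a := by simp [mvA, hik]
  have h3 : mvA i k z a b ν z = ν z + b := by simp [mvA, hzi, hzk]
  rw [h1, h2, h3]
  congr 3
  refine prod_congr rfl fun t ht => ?_
  simp only [mem_erase] at ht
  simp [mvA, ht.1, ht.2.1, ht.2.2.1]

theorem prod_mvB {s : Finset ℕ} {i z k : ℕ} (hi : i ∈ s) (hz : z ∈ s) (hk : k ∈ s)
    (hzi : z ≠ i) (hki : k ≠ i) (hkz : k ≠ z) (a b : ℕ) (ν : ℕ → ℕ) (g : ℕ → ℕ → M) :
    ∏ t ∈ s, g t (mvB i z k a b ν t) = g i (ν i - a) * (g z (ν z - b) * (g k (ν k + (a + b)) *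
      ∏ t ∈ ((s.erase i).erase z).erase k, g t (ν t))) := by
  rw [prod_three hi hz hk hzi hki hkz]
  have h1 : mvB i z k a b ν i = ν i - a := by simp [mvB]
  have h2 : mvB i z k a b ν z = ν z - b := by simp [mvB, hzi]
  have h3 : mvB i z k a b ν k = ν k + (a + b) := by simp [mvB, hki, hkz]
  rw [h1, h2, h3]
  congr 3
  refine prod_congr rfl fun t ht => ?_
  simp only [mem_erase] at ht
  simp [mvB, ht.1, ht.2.1, ht.2.2.1]

end

theorem sum_three {s : Finset ℕ} {i k z : ℕ} (hi : i ∈ s) (hk : k ∈ s) (hz : z ∈ s)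
    (hik : k ≠ i) (hzi : z ≠ i) (hzk : z ≠ k) (f : ℕ → ℕ) :
    ∑ t ∈ s, f t = f i + (f k + (f z + ∑ t ∈ ((s.erase i).erase k).erase z, f t)) := by
  rw [← add_sum_erase s f hi, ← add_sum_erase (s.erase i) f (mem_erase.2 ⟨hik, hk⟩),
    ← add_sum_erase ((s.erase i).erase k) f (mem_erase.2 ⟨hzk, mem_erase.2 ⟨hzi, hz⟩⟩)]

theorem sum_mvA {s : Finset ℕ} {i k z : ℕ} (hi : i ∈ s) (hk : k ∈ s) (hz : z ∈ s)
    (hik : k ≠ i) (hzi : z ≠ i) (hzk : z ≠ k) (a b : ℕ) (ν : ℕ → ℕ) (g : ℕ → ℕ → ℕ) :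
    ∑ t ∈ s, g t (mvA i k z a b ν t) = g i (ν i - (a + b)) + (g k (ν k + a) + (g z (ν z + b) +
      ∑ t ∈ ((s.erase i).erase k).erase z, g t (ν t))) := by
  rw [sum_three hi hk hz hik hzi hzk]
  have h1 : mvA i k z a b ν i = ν i - (a + b) := by simp [mvA]
  have h2 : mvA i k z a b ν k = ν k + a := by simp [mvA, hik]
  have h3 : mvA i k z a b ν z = ν z + b := by simp [mvA, hzi, hzk]
  rw [h1, h2, h3]
  congr 3
  refine sum_congr rfl fun t ht => ?_
  simp only [mem_erase] at ht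
  simp [mvA, ht.1, ht.2.1, ht.2.2.1]

theorem sum_mvB {s : Finset ℕ} {i z k : ℕ} (hi : i ∈ s) (hz : z ∈ s) (hk : k ∈ s)
    (hzi : z ≠ i) (hki : k ≠ i) (hkz : k ≠ z) (a b : ℕ) (ν : ℕ → ℕ) (g : ℕ → ℕ → ℕ) :
    ∑ t ∈ s, g t (mvB i z k a b ν t) = g i (ν i - a) + (g z (ν z - b) + (g k (ν k + (a + b)) +
      ∑ t ∈ ((s.erase i).erase z).erase k, g t (ν t))) := by
  rw [sum_three hi hz hk hzi hki hkz]
  have h1 : mvB i z k a b ν i = ν i - a := by simp [mvB]
  have h2 : mvB i z k a b ν z = ν z - b := by simp [mvB, hzi]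
  have h3 : mvB i z k a b ν k = ν k + (a + b) := by simp [mvB, hki, hkz]
  rw [h1, h2, h3]
  congr 3
  refine sum_congr rfl fun t ht => ?_
  simp only [mem_erase] at ht
  simp [mvB, ht.1, ht.2.1, ht.2.2.1]

/-- The exponents `ν` with `∑ ν t = n`, `∑ t ν t = j` (`t ≤ d`). -/
def VV (d n j : ℕ) : Finset (ℕ → ℕ) :=
  (piAntidiag (range (d + 1)) n).filter fun ν => ∑ t ∈ range (d + 1), t * ν t = j

theorem mem_VV {d n j : ℕ} {ν : ℕ → ℕ} : ν ∈ VV d n j ↔ (∑ t ∈ range (d + 1), ν t = n ∧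
    ∀ t, ν t ≠ 0 → t ≤ d) ∧ ∑ t ∈ range (d + 1), t * ν t = j := by
  rw [VV, mem_filter, mem_piAntidiag]
  simp only [mem_range, Nat.lt_succ_iff]

/-- The multinomial term. -/
def TT (d : ℕ) (b ν : ℕ → ℕ) : ℕ :=
  Nat.multinomial (range (d + 1)) ν * ∏ t ∈ range (d + 1), b t ^ ν t

theorem mvA_mem {d n j i k z a b : ℕ} {ν : ℕ → ℕ} (h : ν ∈ VV d n j) (hi : i ≤ d) (hk : k ≤ d)
    (hz : z ≤ d) (hik : k ≠ i) (hzi : z ≠ i) (hzk : z ≠ k) (hν : a + b ≤ ν i)
    (hab : i * (a + b) = k * a + z * b) : mvA i k z a b ν ∈ VV d n j := by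
  rw [mem_VV] at h ⊢
  obtain ⟨⟨h1, h2⟩, h3⟩ := h
  have mi : i ∈ range (d + 1) := mem_range.2 (by omega)
  have mk : k ∈ range (d + 1) := mem_range.2 (by omega)
  have mz : z ∈ range (d + 1) := mem_range.2 (by omega)
  refine ⟨⟨?_, ?_⟩, ?_⟩
  · rw [sum_mvA mi mk mz hik hzi hzk a b ν (fun _ x => x)]
    rw [sum_three mi mk mz hik hzi hzk] at h1
    omega
  · intro t ht
    by_contra hcon
    have h4 : ν t = 0 := by
      by_contra h5
      exact hcon (h2 t h5)
    have h5 : t ≠ i := fun h => hcon (h ▸ hi)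
    have h6 : t ≠ k := fun h => hcon (h ▸ hk)
    have h7 : t ≠ z := fun h => hcon (h ▸ hz)
    exact ht (by simp [mvA, h5, h6, h7, h4])
  · rw [sum_mvA mi mk mz hik hzi hzk a b ν (fun t x => t * x)]
    rw [sum_three mi mk mz hik hzi hzk] at h3
    have h4 : i * (ν i - (a + b)) + i * (a + b) = i * ν i := by
      rw [← mul_add, Nat.sub_add_cancel hν]
    have h5 : k * (ν k + a) = k * ν k + k * a := mul_add _ _ _
    have h6 : z * (ν z + b) = z * ν z + z * b := mul_add _ _ _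
    omega

theorem mvB_mem {d n j i z k a b : ℕ} {ν : ℕ → ℕ} (h : ν ∈ VV d n j) (hi : i ≤ d) (hz : z ≤ d)
    (hk : k ≤ d) (hzi : z ≠ i) (hki : k ≠ i) (hkz : k ≠ z) (hν : a ≤ ν i) (hν' : b ≤ ν z)
    (hab : i * a + z * b = k * (a + b)) : mvB i z k a b ν ∈ VV d n j := by
  rw [mem_VV] at h ⊢
  obtain ⟨⟨h1, h2⟩, h3⟩ := h
  have mi : i ∈ range (d + 1) := mem_range.2 (by omega)
  have mk : k ∈ range (d + 1) := mem_range.2 (by omega)
  have mz : z ∈ range (d + 1) := mem_range.2 (by omega)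
  refine ⟨⟨?_, ?_⟩, ?_⟩
  · rw [sum_mvB mi mz mk hzi hki hkz a b ν (fun _ x => x)]
    rw [sum_three mi mz mk hzi hki hkz] at h1
    omega
  · intro t ht
    by_contra hcon
    have h4 : ν t = 0 := by
      by_contra h5
      exact hcon (h2 t h5)
    have h5 : t ≠ i := fun h => hcon (h ▸ hi)
    have h6 : t ≠ k := fun h => hcon (h ▸ hk)
    have h7 : t ≠ z := fun h => hcon (h ▸ hz)
    exact ht (by simp [mvB, h5, h6, h7, h4])
  · rw [sum_mvB mi mz mk hzi hki hkz a b ν (fun t x => t * x)]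
    rw [sum_three mi mz mk hzi hki hkz] at h3
    have h4 : i * (ν i - a) + i * a = i * ν i := by
      rw [← mul_add, Nat.sub_add_cancel hν]
    have h5 : z * (ν z - b) + z * b = z * ν z := by
      rw [← mul_add, Nat.sub_add_cancel hν']
    have h6 : k * (ν k + (a + b)) = k * ν k + k * (a + b) := mul_add _ _ _
    omega

theorem mvA_inj {i k z a b : ℕ} {ν ν' : ℕ → ℕ} (hik : k ≠ i) (hzi : z ≠ i) (hzk : z ≠ k)
    (h1 : a + b ≤ ν i) (h2 : a + b ≤ ν' i) (h : mvA i k z a b ν = mvA i k z a b ν') : ν = ν' := by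
  funext t
  have h3 := congrFun h t
  simp only [mvA] at h3
  by_cases e1 : t = i
  · subst e1
    simp only [if_true] at h3
    omega
  · by_cases e2 : t = k
    · simp only [e1, e2, if_false, if_true, hik] at h3
      subst e2
      omega
    · by_cases e3 : t = z
      · simp only [e3, if_false, if_true, hzi, hzk] at h3
        subst e3
        omega
      · simpa only [e1, e2, e3, if_false] using h3

theorem mvB_inj {i z k a b : ℕ} {ν ν' : ℕ → ℕ} (hzi : z ≠ i) (hki : k ≠ i) (hkz : k ≠ z)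
    (h1 : a ≤ ν i) (h1' : b ≤ ν z) (h2 : a ≤ ν' i) (h2' : b ≤ ν' z)
    (h : mvB i z k a b ν = mvB i z k a b ν') : ν = ν' := by
  funext t
  have h3 := congrFun h t
  simp only [mvB] at h3
  by_cases e1 : t = i
  · subst e1
    simp only [if_true] at h3
    omega
  · by_cases e2 : t = z
    · simp only [e1, e2, if_false, if_true, hzi] at h3
      subst e2
      omega
    · by_cases e3 : t = k
      · simp only [e3, if_false, if_true, hki, hkz] at h3
        subst e3
        omega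
      · simpa only [e1, e2, e3, if_false] using h3

theorem fact_add_le (m n : ℕ) : (m + n).factorial ≤ m.factorial * (m + n) ^ n := by
  induction n with
  | zero => simp
  | succ n ih =>
    rw [← add_assoc, Nat.factorial_succ, pow_succ]
    calc (m + n + 1) * (m + n).factorial
        ≤ (m + n + 1) * (m.factorial * (m + n) ^ n) := Nat.mul_le_mul_left _ ih
      _ ≤ (m + n + 1) * (m.factorial * (m + n + 1) ^ n) :=
          Nat.mul_le_mul_left _ (Nat.mul_le_mul_left _ (Nat.pow_le_pow_left (by omega) n))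
      _ = _ := by ring

theorem fact_sub_le {m n : ℕ} (h : n ≤ m) :
    (m - n).factorial * (m - n + 1) ^ n ≤ m.factorial := by
  have := @Nat.factorial_mul_pow_le_factorial (m - n) n
  rwa [Nat.sub_add_cancel h] at this

/-- Comparison of two terms. -/
theorem TT_le_of {d n j K : ℕ} {b ν ν' : ℕ → ℕ} (h : ν ∈ VV d n j) (h' : ν' ∈ VV d n j)
    (hle : K * (∏ t ∈ range (d + 1), (ν' t).factorial) * ∏ t ∈ range (d + 1), b t ^ ν t ≤
      (∏ t ∈ range (d + 1), (ν t).factorial) * ∏ t ∈ range (d + 1), b t ^ ν' t) :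
    K * TT d b ν ≤ TT d b ν' := by
  rw [mem_VV] at h h'
  have h1 := Nat.multinomial_spec (range (d + 1)) ν
  have h2 := Nat.multinomial_spec (range (d + 1)) ν'
  rw [h.1.1] at h1
  rw [h'.1.1] at h2
  set F := ∏ t ∈ range (d + 1), (ν t).factorial with hF
  set F' := ∏ t ∈ range (d + 1), (ν' t).factorial with hF'
  have hF0 : 0 < F := prod_pos fun t _ => Nat.factorial_pos _
  have hF0' : 0 < F' := prod_pos fun t _ => Nat.factorial_pos _
  refine Nat.le_of_mul_le_mul_left (c := F * F') ?_ (Nat.mul_pos hF0 hF0')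
  unfold TT
  calc F * F' * (K * (Nat.multinomial (range (d + 1)) ν * ∏ t ∈ range (d + 1), b t ^ ν t))
      = (F * Nat.multinomial (range (d + 1)) ν) *
          (K * F' * ∏ t ∈ range (d + 1), b t ^ ν t) := by ring
    _ = (F' * Nat.multinomial (range (d + 1)) ν') *
          (K * F' * ∏ t ∈ range (d + 1), b t ^ ν t) := by rw [h1, h2]
    _ ≤ (F' * Nat.multinomial (range (d + 1)) ν') *
          (F * ∏ t ∈ range (d + 1), b t ^ ν' t) := Nat.mul_le_mul_left _ hle
    _ = _ := by ring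

theorem TT_mvA {d n j i k z a c K : ℕ} {b ν : ℕ → ℕ} (h : ν ∈ VV d n j) (hi : i ≤ d) (hk : k ≤ d)
    (hz : z ≤ d) (hik : k ≠ i) (hzi : z ≠ i) (hzk : z ≠ k) (hν : a + c ≤ ν i)
    (hab : i * (a + c) = k * a + z * c) (hb : ∀ t ≤ d, 1 ≤ b t)
    (hle : K * ((ν k + a) ^ a * (ν z + c) ^ c * b i ^ (a + c)) ≤ (ν i - (a + c) + 1) ^ (a + c)) :
    K * TT d b ν ≤ TT d b (mvA i k z a c ν) := by
  have mi : i ∈ range (d + 1) := mem_range.2 (by omega)
  have mk : k ∈ range (d + 1) := mem_range.2 (by omega)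
  have mz : z ∈ range (d + 1) := mem_range.2 (by omega)
  refine TT_le_of h (mvA_mem h hi hk hz hik hzi hzk hν hab) ?_
  rw [prod_mvA mi mk mz hik hzi hzk a c ν (fun _ x => x.factorial),
    prod_mvA mi mk mz hik hzi hzk a c ν (fun t x => b t ^ x),
    prod_three mi mk mz hik hzi hzk (fun t => b t ^ ν t),
    prod_three mi mk mz hik hzi hzk (fun t => (ν t).factorial)]
  set R := ∏ t ∈ (((range (d + 1)).erase i).erase k).erase z, (ν t).factorial
  set R' := ∏ t ∈ (((range (d + 1)).erase i).erase k).erase z, b t ^ ν t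
  have e1 : b i ^ ν i = b i ^ (ν i - (a + c)) * b i ^ (a + c) := by
    rw [← pow_add, Nat.sub_add_cancel hν]
  have e2 : b k ^ ν k ≤ b k ^ (ν k + a) := Nat.pow_le_pow_right (hb k hk) (by omega)
  have e3 : b z ^ ν z ≤ b z ^ (ν z + c) := Nat.pow_le_pow_right (hb z hz) (by omega)
  have f1 := fact_sub_le hν
  have f2 := fact_add_le (ν k) a
  have f3 := fact_add_le (ν z) c
  calc K * ((ν i - (a + c)).factorial * ((ν k + a).factorial * ((ν z + c).factorial * R))) *
        (b i ^ ν i * (b k ^ ν k * (b z ^ ν z * R')))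
      ≤ K * ((ν i - (a + c)).factorial * (((ν k).factorial * (ν k + a) ^ a) *
          (((ν z).factorial * (ν z + c) ^ c) * R))) *
        ((b i ^ (ν i - (a + c)) * b i ^ (a + c)) * (b k ^ (ν k + a) * (b z ^ (ν z + c) * R'))) := by
        rw [e1]
        gcongr
    _ = (K * ((ν k + a) ^ a * (ν z + c) ^ c * b i ^ (a + c))) *
        ((ν i - (a + c)).factorial * ((ν k).factorial * ((ν z).factorial * R)) *
        (b i ^ (ν i - (a + c)) * (b k ^ (ν k + a) * (b z ^ (ν z + c) * R')))) := by ring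
    _ ≤ (ν i - (a + c) + 1) ^ (a + c) *
        ((ν i - (a + c)).factorial * ((ν k).factorial * ((ν z).factorial * R)) *
        (b i ^ (ν i - (a + c)) * (b k ^ (ν k + a) * (b z ^ (ν z + c) * R')))) :=
        Nat.mul_le_mul_right _ hle
    _ = ((ν i - (a + c)).factorial * (ν i - (a + c) + 1) ^ (a + c)) *
        (((ν k).factorial * ((ν z).factorial * R)) *
        (b i ^ (ν i - (a + c)) * (b k ^ (ν k + a) * (b z ^ (ν z + c) * R')))) := by ring
    _ ≤ (ν i).factorial *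
        (((ν k).factorial * ((ν z).factorial * R)) *
        (b i ^ (ν i - (a + c)) * (b k ^ (ν k + a) * (b z ^ (ν z + c) * R')))) :=
        Nat.mul_le_mul_right _ f1
    _ = _ := by ring

theorem TT_mvB {d n j i z k a c K : ℕ} {b ν : ℕ → ℕ} (h : ν ∈ VV d n j) (hi : i ≤ d) (hz : z ≤ d)
    (hk : k ≤ d) (hzi : z ≠ i) (hki : k ≠ i) (hkz : k ≠ z) (hν : a ≤ ν i) (hν' : c ≤ ν z)
    (hab : i * a + z * c = k * (a + c)) (hb : ∀ t ≤ d, 1 ≤ b t)
    (hle : K * ((ν k + (a + c)) ^ (a + c) * (b i ^ a * b z ^ c)) ≤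
      (ν i - a + 1) ^ a * (ν z - c + 1) ^ c) :
    K * TT d b ν ≤ TT d b (mvB i z k a c ν) := by
  have mi : i ∈ range (d + 1) := mem_range.2 (by omega)
  have mk : k ∈ range (d + 1) := mem_range.2 (by omega)
  have mz : z ∈ range (d + 1) := mem_range.2 (by omega)
  refine TT_le_of h (mvB_mem h hi hz hk hzi hki hkz hν hν' hab) ?_
  rw [prod_mvB mi mz mk hzi hki hkz a c ν (fun _ x => x.factorial),
    prod_mvB mi mz mk hzi hki hkz a c ν (fun t x => b t ^ x),
    prod_three mi mz mk hzi hki hkz (fun t => b t ^ ν t),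
    prod_three mi mz mk hzi hki hkz (fun t => (ν t).factorial)]
  set R := ∏ t ∈ (((range (d + 1)).erase i).erase z).erase k, (ν t).factorial
  set R' := ∏ t ∈ (((range (d + 1)).erase i).erase z).erase k, b t ^ ν t
  have e1 : b i ^ ν i = b i ^ (ν i - a) * b i ^ a := by
    rw [← pow_add, Nat.sub_add_cancel hν]
  have e3 : b z ^ ν z = b z ^ (ν z - c) * b z ^ c := by
    rw [← pow_add, Nat.sub_add_cancel hν']
  have e2 : b k ^ ν k ≤ b k ^ (ν k + (a + c)) := Nat.pow_le_pow_right (hb k hk) (by omega)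
  have f1 := fact_sub_le hν
  have f2 := fact_add_le (ν k) (a + c)
  have f3 := fact_sub_le hν'
  calc K * ((ν i - a).factorial * ((ν z - c).factorial * ((ν k + (a + c)).factorial * R))) *
        (b i ^ ν i * (b z ^ ν z * (b k ^ ν k * R')))
      ≤ K * ((ν i - a).factorial * ((ν z - c).factorial *
          (((ν k).factorial * (ν k + (a + c)) ^ (a + c)) * R))) *
        ((b i ^ (ν i - a) * b i ^ a) * ((b z ^ (ν z - c) * b z ^ c) *
          (b k ^ (ν k + (a + c)) * R'))) := by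
        rw [e1, e3]
        gcongr
    _ = (K * ((ν k + (a + c)) ^ (a + c) * (b i ^ a * b z ^ c))) *
        ((ν i - a).factorial * ((ν z - c).factorial * ((ν k).factorial * R)) *
        (b i ^ (ν i - a) * (b z ^ (ν z - c) * (b k ^ (ν k + (a + c)) * R')))) := by ring
    _ ≤ ((ν i - a + 1) ^ a * (ν z - c + 1) ^ c) *
        ((ν i - a).factorial * ((ν z - c).factorial * ((ν k).factorial * R)) *
        (b i ^ (ν i - a) * (b z ^ (ν z - c) * (b k ^ (ν k + (a + c)) * R')))) :=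
        Nat.mul_le_mul_right _ hle
    _ = ((ν i - a).factorial * (ν i - a + 1) ^ a) * ((ν z - c).factorial * (ν z - c + 1) ^ c) *
        (((ν k).factorial * R) *
        (b i ^ (ν i - a) * (b z ^ (ν z - c) * (b k ^ (ν k + (a + c)) * R')))) := by ring
    _ ≤ (ν i).factorial * (ν z).factorial *
        (((ν k).factorial * R) *
        (b i ^ (ν i - a) * (b z ^ (ν z - c) * (b k ^ (ν k + (a + c)) * R')))) :=
        Nat.mul_le_mul_right _ (Nat.mul_le_mul f1 f3)
    _ = _ := by ring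

/-- Double counting with finitely many injective moves. -/
theorem sum_moves {X E : Type*} (V W : Finset X) (T : X → ℕ) (I : Finset E)
    (μ : E → X → X) (ok : E → X → Prop) (K : ℕ)
    (h1 : ∀ x ∈ W, ∃ e ∈ I, ok e x ∧ μ e x ∈ V ∧ K * T x ≤ T (μ e x))
    (h2 : ∀ e ∈ I, ∀ x y, ok e x → ok e y → μ e x = μ e y → x = y) :
    K * ∑ x ∈ W, T x ≤ I.card * ∑ x ∈ V, T x := by
  classical
  rw [mul_sum]
  have h3 : ∀ x ∈ W, K * T x ≤ ∑ e ∈ I.filter (fun e => ok e x ∧ μ e x ∈ V), T (μ e x) := by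
    intro x hx
    obtain ⟨e, he, ho, hm, hl⟩ := h1 x hx
    exact hl.trans (single_le_sum (f := fun e => T (μ e x)) (fun _ _ => Nat.zero_le _)
      (mem_filter.2 ⟨he, ho, hm⟩))
  refine (sum_le_sum h3).trans ?_
  have h4 : ∑ x ∈ W, ∑ e ∈ I.filter (fun e => ok e x ∧ μ e x ∈ V), T (μ e x) =
      ∑ e ∈ I, ∑ x ∈ W.filter (fun x => ok e x ∧ μ e x ∈ V), T (μ e x) := by
    simp only [sum_filter]
    exact sum_comm
  rw [h4, ← smul_eq_mul, ← sum_const]
  refine sum_le_sum fun e he => ?_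
  have h5 : ∑ x ∈ W.filter (fun x => ok e x ∧ μ e x ∈ V), T (μ e x) =
      ∑ y ∈ (W.filter (fun x => ok e x ∧ μ e x ∈ V)).image (μ e), T y := by
    rw [sum_image]
    intro x hx y hy h
    rw [mem_coe, mem_filter] at hx hy
    exact h2 e he x y hx.2.1 hy.2.1 h
  rw [h5]
  refine sum_le_sum_of_subset fun y hy => ?_
  obtain ⟨x, hx, rfl⟩ := mem_image.1 hy
  exact (mem_filter.1 hx).2.2

end Pool.Agent.ARC
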