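import Pool.Agent.ARC.CPowA

/-! # ARC, part C, module CPowB: terms with few factors of degree `k` are small -/

set_option autoImplicit false

noncomputable section

namespace Pool.Agent.ARC

open Finset

/-- The moves: `e.1` is the index which loses factors. -/
def mu (d k : ℕ) (e : ℕ × ℕ) : (ℕ → ℕ) → ℕ → ℕ :=
  if e.2 = 0 then mvA e.1 k 0 e.1 (k - e.1)
  else if e.2 = 1 then mvA e.1 k d (d - e.1) (e.1 - k)
  else mvB e.1 0 k k (e.1 - k)

/-- Admissibility of a move. -/
def muOk (d k : ℕ) (e : ℕ × ℕ) (ν : ℕ → ℕ) : Prop :=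
  if e.2 = 0 then 1 ≤ e.1 ∧ e.1 < k ∧ k ≤ ν e.1
  else if e.2 = 1 then k < e.1 ∧ e.1 < d ∧ d - k ≤ ν e.1
  else k < e.1 ∧ e.1 ≤ d ∧ k ≤ ν e.1 ∧ e.1 - k ≤ ν 0

theorem mu_inj {d k : ℕ} (hk : 1 ≤ k) (hkd : k < d) (e : ℕ × ℕ) (ν ν' : ℕ → ℕ)
    (h1 : muOk d k e ν) (h2 : muOk d k e ν') (h : mu d k e ν = mu d k e ν') : ν = ν' := by
  unfold mu at h
  unfold muOk at h1 h2
  split_ifs at h h1 h2 with c1 c2
  · exact mvA_inj (by omega) (by omega) (by omega) (by omega) (by omega) h
  · exact mvA_inj (by omega) (by omega) (by omega) (by omega) (by omega) h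
  · exact mvB_inj (by omega) (by omega) (by omega) (by omega) (by omega) (by omega) (by omega) h

private theorem pow_base_le {x y a d : ℕ} (hxy : x ≤ y) (hy : 1 ≤ y) (ha : a ≤ d) :
    x ^ a ≤ y ^ d :=
  (Nat.pow_le_pow_left hxy a).trans (Nat.pow_le_pow_right hy ha)

/-- Type 1 and 2 estimate. -/
private theorem est_big {W d n x r e : ℕ} (hd : 1 ≤ d) (hr : r ≤ d) (he : e < r)
    (hn : W * 2 ^ d * (16 * d) ^ d ≤ n) (hn1 : d ≤ n) (hx : n ≤ 16 * d * x) (hn0 : 1 ≤ n) :
    W * (n + d) ^ e ≤ x ^ r := by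
  have h1 : (16 * d) ^ r * (W * (n + d) ^ e) ≤ (16 * d) ^ r * x ^ r := by
    have h2 : (n + d) ^ e ≤ 2 ^ d * n ^ e := by
      calc (n + d) ^ e ≤ (2 * n) ^ e := Nat.pow_le_pow_left (by omega) e
        _ = 2 ^ e * n ^ e := mul_pow _ _ _
        _ ≤ 2 ^ d * n ^ e := Nat.mul_le_mul_right _ (Nat.pow_le_pow_right (by omega) (by omega))
    have h3 : (16 * d) ^ r ≤ (16 * d) ^ d := Nat.pow_le_pow_right (by omega) hr
    calc (16 * d) ^ r * (W * (n + d) ^ e) ≤ (16 * d) ^ d * (W * (2 ^ d * n ^ e)) := by gcongr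
      _ = (W * 2 ^ d * (16 * d) ^ d) * n ^ e := by ring
      _ ≤ n * n ^ e := Nat.mul_le_mul_right _ hn
      _ = n ^ (e + 1) := by rw [pow_succ]; ring
      _ ≤ n ^ r := Nat.pow_le_pow_right hn0 he
      _ ≤ (16 * d * x) ^ r := Nat.pow_le_pow_left hx r
      _ = (16 * d) ^ r * x ^ r := mul_pow _ _ _
  exact Nat.le_of_mul_le_mul_left h1 (by positivity)

/-- Type 1 estimate for small degree. -/
private theorem est_small {W d n j x k m i C : ℕ} (hd : 1 ≤ d) (hk : 1 ≤ k) (hkd : k ≤ d)
    (hkm : k ≤ m) (hi : 1 ≤ i) (hik : i < k) (hn1 : d ≤ n) (hn0 : 1 ≤ n) (hj : j ≤ d * n)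
    (hC : d ^ m * ((4 * d ^ 2) ^ d * W * 2 ^ d) ≤ C) (hCn : C * n ^ (m - 1) ≤ j ^ m)
    (hx : j ≤ 4 * d ^ 2 * x) : W * (n + d) ^ (k - i) ≤ x ^ k := by
  have h1 : (n + d) ^ (k - i) ≤ 2 ^ d * n ^ (k - 1) := by
    calc (n + d) ^ (k - i) ≤ (2 * n) ^ (k - i) := Nat.pow_le_pow_left (by omega) _
      _ ≤ (2 * n) ^ (k - 1) := Nat.pow_le_pow_right (by omega) (by omega)
      _ = 2 ^ (k - 1) * n ^ (k - 1) := mul_pow _ _ _
      _ ≤ 2 ^ d * n ^ (k - 1) :=
          Nat.mul_le_mul_right _ (Nat.pow_le_pow_right (by omega) (by omega))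
  have h2 : C * n ^ (k - 1) ≤ j ^ k * d ^ (m - k) := by
    have h3 : n ^ (m - k) * (C * n ^ (k - 1)) ≤ n ^ (m - k) * (j ^ k * d ^ (m - k)) := by
      calc n ^ (m - k) * (C * n ^ (k - 1)) = C * n ^ (m - 1) := by
            rw [show m - 1 = (m - k) + (k - 1) by omega, pow_add]
            ring
        _ ≤ j ^ m := hCn
        _ = j ^ k * j ^ (m - k) := by rw [← pow_add]; congr 1; omega
        _ ≤ j ^ k * (d * n) ^ (m - k) := Nat.mul_le_mul_left _ (Nat.pow_le_pow_left hj _)
        _ = n ^ (m - k) * (j ^ k * d ^ (m - k)) := by rw [mul_pow]; ring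
    exact Nat.le_of_mul_le_mul_left h3 (by positivity)
  have h4 : d ^ (m - k) * ((4 * d ^ 2) ^ k * (W * (n + d) ^ (k - i))) ≤
      d ^ (m - k) * ((4 * d ^ 2) ^ k * x ^ k) := by
    have h5 : (4 * d ^ 2) ^ k ≤ (4 * d ^ 2) ^ d := Nat.pow_le_pow_right (by positivity) hkd
    have h6 : d ^ (m - k) ≤ d ^ m := Nat.pow_le_pow_right hd (by omega)
    calc d ^ (m - k) * ((4 * d ^ 2) ^ k * (W * (n + d) ^ (k - i)))
        ≤ d ^ m * ((4 * d ^ 2) ^ d * (W * (2 ^ d * n ^ (k - 1)))) := by gcongr
      _ = (d ^ m * ((4 * d ^ 2) ^ d * W * 2 ^ d)) * n ^ (k - 1) := by ring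
      _ ≤ C * n ^ (k - 1) := Nat.mul_le_mul_right _ hC
      _ ≤ j ^ k * d ^ (m - k) := h2
      _ ≤ (4 * d ^ 2 * x) ^ k * d ^ (m - k) := Nat.mul_le_mul_right _ (Nat.pow_le_pow_left hx k)
      _ = d ^ (m - k) * ((4 * d ^ 2) ^ k * x ^ k) := by rw [mul_pow]; ring
  have h7 := Nat.le_of_mul_le_mul_left h4 (by positivity)
  exact Nat.le_of_mul_le_mul_left h7 (by positivity)

/-- Terms with few factors of degree `k` are small. -/
theorem pw_bad (d k m B K : ℕ) (b : ℕ → ℕ) (hb : ∀ t ≤ d, 1 ≤ b t) (hk1 : 1 ≤ k) (hkd : k < d)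
    (hkm : k ≤ m) : ∃ C : ℕ, ∀ n j : ℕ, 1 ≤ n → C * n ^ (m - 1) ≤ j ^ m → 2 * j ≤ d * n →
      K * ∑ ν ∈ (VV d n j).filter (fun ν => ν k < B), TT d b ν ≤ ∑ ν ∈ VV d n j, TT d b ν := by
  classical
  set β := ∑ t ∈ range (d + 1), b t with hβ
  have hbβ : ∀ t ≤ d, b t ≤ β := fun t ht =>
    single_le_sum (f := b) (fun _ _ => Nat.zero_le _) (mem_range.2 (by omega))
  have hβ1 : 1 ≤ β := (hb 0 (by omega)).trans (hbβ 0 (by omega))
  set K' := 3 * (d + 1) * K with hK'
  set W := K' * ((B + d) ^ d * β ^ d) with hW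
  set J0 := 2 * d * B + 4 * d ^ 3 + 4 * d ^ 2 * W + 1 with hJ0
  set N0 := W * 2 ^ d * (16 * d) ^ d + 16 * d ^ 2 + 4 * (B + d) + 1 with hN0
  set C := J0 ^ m + d ^ m * N0 + d ^ m * ((4 * d ^ 2) ^ d * W * 2 ^ d) with hC
  refine ⟨C, fun n j hn hCn h2j => ?_⟩
  have hd : 1 ≤ d := by omega
  have hm : 1 ≤ m := by omega
  have hjdn : j ≤ d * n := by omega
  -- thresholds
  have hjJ : J0 ≤ j := by
    by_contra hcon
    push Not at hcon
    have h1 : j ^ m < J0 ^ m := Nat.pow_lt_pow_left hcon (by omega)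
    have h2 : C ≤ C * n ^ (m - 1) := Nat.le_mul_of_pos_right _ (by positivity)
    have h3 : J0 ^ m ≤ C := by rw [hC]; omega
    omega
  have hnN : N0 ≤ n := by
    have h1 : C * n ^ (m - 1) ≤ d ^ m * n * n ^ (m - 1) := by
      calc C * n ^ (m - 1) ≤ j ^ m := hCn
        _ ≤ (d * n) ^ m := Nat.pow_le_pow_left hjdn m
        _ = d ^ m * n * n ^ (m - 1) := by
            rw [mul_pow, mul_assoc, ← pow_succ', show m - 1 + 1 = m by omega]
    have h2 : C ≤ d ^ m * n := Nat.le_of_mul_le_mul_right h1 (by positivity)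
    have h3 : d ^ m * N0 ≤ d ^ m * n := by
      refine le_trans ?_ h2
      rw [hC]
      omega
    exact Nat.le_of_mul_le_mul_left h3 (by positivity)
  have hnW : W * 2 ^ d * (16 * d) ^ d ≤ n := by omega
  have hn16 : 16 * d ^ 2 ≤ n := by omega
  have hnB : 4 * (B + d) ≤ n := by omega
  have hdn : d ≤ n := by
    have : d ≤ d ^ 2 := by nlinarith
    omega
  have hjW : 4 * d ^ 2 * W ≤ j := by omega
  have hjd : 4 * d ^ 3 ≤ j := by omega
  have hjB : 2 * d * B < j := by omega
  have hCd : d ^ m * ((4 * d ^ 2) ^ d * W * 2 ^ d) ≤ C := by rw [hC]; omega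
  -- each bad exponent has a good move
  have key : ∀ ν ∈ (VV d n j).filter (fun ν => ν k < B), ∃ e ∈ range (d + 1) ×ˢ range 3,
      muOk d k e ν ∧ mu d k e ν ∈ VV d n j ∧ K' * TT d b ν ≤ TT d b (mu d k e ν) := by
    intro ν hν
    rw [mem_filter] at hν
    obtain ⟨hν, hνk⟩ := hν
    have hmem := mem_VV.1 hν
    have hνn : ∀ t, t ≤ d → ν t ≤ n := fun t ht => by
      rw [← hmem.1.1]
      exact single_le_sum (f := ν) (fun _ _ => Nat.zero_le _) (mem_range.2 (by omega))
    have hBd : 1 ≤ B + d := by omega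
    -- type 1
    have T1 : ∀ i, 1 ≤ i → i < k → k ≤ ν i → W * (n + d) ^ (k - i) ≤ (ν i - k + 1) ^ k →
        ∃ e ∈ range (d + 1) ×ˢ range 3, muOk d k e ν ∧ mu d k e ν ∈ VV d n j ∧
          K' * TT d b ν ≤ TT d b (mu d k e ν) := by
      intro i hi1 hik hki hle
      have hsum : i + (k - i) = k := by omega
      have hok : muOk d k (i, 0) ν := by
        unfold muOk
        simp only [if_true]
        exact ⟨hi1, hik, hki⟩
      have hmu : mu d k (i, 0) ν = mvA i k 0 i (k - i) ν := by
        unfold mu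
        simp only [if_true]
      have hab : i * (i + (k - i)) = k * i + 0 * (k - i) := by
        rw [hsum]
        ring
      refine ⟨(i, 0), by simp only [mem_product, mem_range]; omega, hok, ?_, ?_⟩
      · rw [hmu]
        exact mvA_mem hν (by omega) (by omega) (by omega) (by omega) (by omega) (by omega)
          (by omega) hab
      · rw [hmu]
        refine TT_mvA hν (by omega) (by omega) (by omega) (by omega) (by omega) (by omega)
          (by omega) hab hb ?_
        rw [hsum]
        refine le_trans ?_ hle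
        have e1 : (ν k + i) ^ i ≤ (B + d) ^ d := pow_base_le (by omega) hBd (by omega)
        have e2 : b i ^ k ≤ β ^ d := pow_base_le (hbβ i (by omega)) hβ1 (by omega)
        have e3 : (ν 0 + (k - i)) ^ (k - i) ≤ (n + d) ^ (k - i) := by
          refine Nat.pow_le_pow_left ?_ _
          have := hνn 0 (by omega)
          omega
        calc K' * ((ν k + i) ^ i * (ν 0 + (k - i)) ^ (k - i) * b i ^ k)
            ≤ K' * ((B + d) ^ d * (n + d) ^ (k - i) * β ^ d) := by gcongr
          _ = W * (n + d) ^ (k - i) := by rw [hW]; ring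
    -- type 2
    have T2 : ∀ i, k < i → i < d → d - k ≤ ν i →
        W * (n + d) ^ (i - k) ≤ (ν i - (d - k) + 1) ^ (d - k) →
        ∃ e ∈ range (d + 1) ×ˢ range 3, muOk d k e ν ∧ mu d k e ν ∈ VV d n j ∧
          K' * TT d b ν ≤ TT d b (mu d k e ν) := by
      intro i hki hid hdk hle
      have hsum : (d - i) + (i - k) = d - k := by omega
      have hok : muOk d k (i, 1) ν := by
        unfold muOk
        simp only [if_true, one_ne_zero, if_false]
        exact ⟨hki, hid, hdk⟩
      have hmu : mu d k (i, 1) ν = mvA i k d (d - i) (i - k) ν := by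
        unfold mu
        simp only [if_true, one_ne_zero, if_false]
      have hab : i * ((d - i) + (i - k)) = k * (d - i) + d * (i - k) := by
        obtain ⟨u, rfl⟩ := Nat.exists_eq_add_of_lt hki
        obtain ⟨v, rfl⟩ := Nat.exists_eq_add_of_lt hid
        rw [show k + u + 1 + v + 1 - (k + u + 1) = v + 1 by omega,
          show k + u + 1 - k = u + 1 by omega]
        ring
      refine ⟨(i, 1), by simp only [mem_product, mem_range]; omega, hok, ?_, ?_⟩
      · rw [hmu]
        exact mvA_mem hν (by omega) (by omega) (by omega) (by omega) (by omega) (by omega)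
          (by omega) hab
      · rw [hmu]
        refine TT_mvA hν (by omega) (by omega) (by omega) (by omega) (by omega) (by omega)
          (by omega) hab hb ?_
        rw [hsum]
        refine le_trans ?_ hle
        have e1 : (ν k + (d - i)) ^ (d - i) ≤ (B + d) ^ d := pow_base_le (by omega) hBd (by omega)
        have e2 : b i ^ (d - k) ≤ β ^ d := pow_base_le (hbβ i (by omega)) hβ1 (by omega)
        have e3 : (ν d + (i - k)) ^ (i - k) ≤ (n + d) ^ (i - k) := by
          refine Nat.pow_le_pow_left ?_ _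
          have := hνn d le_rfl
          omega
        calc K' * ((ν k + (d - i)) ^ (d - i) * (ν d + (i - k)) ^ (i - k) * b i ^ (d - k))
            ≤ K' * ((B + d) ^ d * (n + d) ^ (i - k) * β ^ d) := by gcongr
          _ = W * (n + d) ^ (i - k) := by rw [hW]; ring
    -- type 3
    have T3 : ∀ i, k < i → i ≤ d → k ≤ ν i → i - k ≤ ν 0 → W ≤ ν i - k + 1 →
        ∃ e ∈ range (d + 1) ×ˢ range 3, muOk d k e ν ∧ mu d k e ν ∈ VV d n j ∧
          K' * TT d b ν ≤ TT d b (mu d k e ν) := by
      intro i hki hid hk' h0 hle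
      have hsum : k + (i - k) = i := by omega
      have hok : muOk d k (i, 2) ν := by
        unfold muOk
        simp only [OfNat.ofNat_ne_zero, OfNat.ofNat_ne_one, if_false]
        exact ⟨hki, hid, hk', h0⟩
      have hmu : mu d k (i, 2) ν = mvB i 0 k k (i - k) ν := by
        unfold mu
        simp only [OfNat.ofNat_ne_zero, OfNat.ofNat_ne_one, if_false]
      have hab : i * k + 0 * (i - k) = k * (k + (i - k)) := by
        rw [hsum]
        ring
      refine ⟨(i, 2), by simp only [mem_product, mem_range]; omega, hok, ?_, ?_⟩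
      · rw [hmu]
        exact mvB_mem hν hid (by omega) (by omega) (by omega) (by omega) (by omega) hk' h0 hab
      · rw [hmu]
        refine TT_mvB hν hid (by omega) (by omega) (by omega) (by omega) (by omega) hk' h0 hab
          hb ?_
        rw [hsum]
        have e1 : (ν k + i) ^ i ≤ (B + d) ^ d := pow_base_le (by omega) hBd hid
        have e2 : b i ^ k * b 0 ^ (i - k) ≤ β ^ d := by
          calc b i ^ k * b 0 ^ (i - k) ≤ β ^ k * β ^ (i - k) :=
                Nat.mul_le_mul (Nat.pow_le_pow_left (hbβ i hid) _)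
                  (Nat.pow_le_pow_left (hbβ 0 (by omega)) _)
            _ = β ^ i := by rw [← pow_add, hsum]
            _ ≤ β ^ d := Nat.pow_le_pow_right hβ1 hid
        calc K' * ((ν k + i) ^ i * (b i ^ k * b 0 ^ (i - k)))
            ≤ K' * ((B + d) ^ d * β ^ d) := by gcongr
          _ = W := hW.symm
          _ ≤ ν i - k + 1 := hle
          _ ≤ (ν i - k + 1) ^ k := Nat.le_self_pow (by omega) _
          _ ≤ (ν i - k + 1) ^ k * (ν 0 - (i - k) + 1) ^ (i - k) :=
              Nat.le_mul_of_pos_right _ (by positivity)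
    by_cases hA : ∃ i, 1 ≤ i ∧ i < d ∧ i ≠ k ∧ n ≤ 8 * d * ν i
    · obtain ⟨i, hi1, hid, hik, hni⟩ := hA
      have hd2 : d ^ 2 = d * d := sq d
      -- ν i ≥ 2 d
      have hνi : 2 * d ≤ ν i := by
        by_contra hcon
        push Not at hcon
        have h1 : 8 * d * ν i ≤ 8 * d * (2 * d - 1) := Nat.mul_le_mul_left _ (by omega)
        have h2 : 8 * d * (2 * d - 1) < 16 * d ^ 2 := by
          have : 8 * d * (2 * d - 1) + 8 * d = 16 * d ^ 2 := by
            rw [← Nat.mul_succ, show (2 * d - 1).succ = 2 * d by omega]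
            ring
          omega
        omega
      have hx : ∀ r, r ≤ d → n ≤ 16 * d * (ν i - r + 1) := by
        intro r hr
        have h1 : ν i ≤ 2 * (ν i - r + 1) := by omega
        calc n ≤ 8 * d * ν i := hni
          _ ≤ 8 * d * (2 * (ν i - r + 1)) := Nat.mul_le_mul_left _ h1
          _ = 16 * d * (ν i - r + 1) := by ring
      rcases Nat.lt_or_gt_of_ne hik with hlt | hgt
      · exact T1 i hi1 hlt (by omega)
          (est_big hd (by omega) (by omega) hnW hdn (hx k (by omega)) hn)
      · exact T2 i hgt hid (by omega)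
          (est_big hd (by omega) (by omega) hnW hdn (hx (d - k) (by omega)) hn)
    · push Not at hA
      -- ν 0 ≥ d
      have hν0 : d ≤ ν 0 := by
        have h1 : 8 * d * n ≤ 8 * d * (ν 0 + ν k + ν d) + (d + 1) * n := by
          have h2 : ∀ t ∈ range (d + 1), 8 * d * ν t ≤
              (if t = 0 then 8 * d * ν 0 else 0) + (if t = k then 8 * d * ν k else 0) +
                (if t = d then 8 * d * ν d else 0) + n := by
            intro t ht
            rw [mem_range] at ht
            by_cases h0 : t = 0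
            · subst h0
              simp only [if_true]
              omega
            · by_cases h1 : t = k
              · subst h1
                simp only [if_true]
                omega
              · by_cases h2 : t = d
                · subst h2
                  simp only [if_true]
                  omega
                · have := hA t (by omega) (by omega) h1
                  omega
          have h3 := sum_le_sum h2
          rw [← mul_sum, hmem.1.1, sum_add_distrib, sum_add_distrib, sum_add_distrib,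
            sum_ite_eq', sum_ite_eq', sum_ite_eq', if_pos (mem_range.2 (by omega)),
            if_pos (mem_range.2 (by omega)), if_pos (mem_range.2 (by omega)), sum_const,
            card_range, smul_eq_mul] at h3
          calc 8 * d * n ≤ 8 * d * ν 0 + 8 * d * ν k + 8 * d * ν d + (d + 1) * n := h3
            _ = _ := by ring
        have h2 : 2 * ν d ≤ n := by
          have h3 : d * ν d ≤ j := by
            rw [← hmem.2]
            exact single_le_sum (f := fun t => t * ν t) (fun _ _ => Nat.zero_le _)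
              (mem_range.2 (by omega))
          have h4 : d * (2 * ν d) ≤ d * n := by
            calc d * (2 * ν d) = 2 * (d * ν d) := by ring
              _ ≤ 2 * j := Nat.mul_le_mul_left _ h3
              _ ≤ d * n := h2j
          exact Nat.le_of_mul_le_mul_left h4 (by omega)
        have h5 : 2 * d * n ≤ 2 * d * (4 * ν 0 + 4 * B) := by
          have h6 : 8 * d * (ν 0 + ν k + ν d) ≤ 8 * d * ν 0 + 8 * d * B + 4 * d * n := by
            have h7 : 8 * d * ν k ≤ 8 * d * B := Nat.mul_le_mul_left _ hνk.le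
            have h8 : 4 * d * (2 * ν d) ≤ 4 * d * n := Nat.mul_le_mul_left _ h2
            calc 8 * d * (ν 0 + ν k + ν d) = 8 * d * ν 0 + 8 * d * ν k + 4 * d * (2 * ν d) := by
                  ring
              _ ≤ _ := by omega
          have h9 : (d + 1) * n ≤ 2 * d * n := Nat.mul_le_mul_right _ (by omega)
          have h10 : 8 * d * n = 2 * d * n + 4 * d * n + 2 * d * n := by ring
          have h11 : 2 * d * (4 * ν 0 + 4 * B) = 8 * d * ν 0 + 8 * d * B := by ring
          omega
        have h12 := Nat.le_of_mul_le_mul_left h5 (by omega)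
        omega
      -- some index with many factors
      obtain ⟨i, hi1, hid, hik, hji⟩ : ∃ i, 1 ≤ i ∧ i ≤ d ∧ i ≠ k ∧ j ≤ 2 * d ^ 2 * ν i := by
        by_contra hcon
        push Not at hcon
        have h1 : ∀ t ∈ range (d + 1), 2 * d ^ 2 * (t * ν t) ≤
            (if t = k then 2 * d ^ 2 * (d * B) else 0) + t * j := by
          intro t ht
          rw [mem_range] at ht
          by_cases h0 : t = 0
          · subst h0
            simp
          · by_cases h2 : t = k
            · subst h2
              rw [if_pos rfl]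
              have : 2 * d ^ 2 * (t * ν t) ≤ 2 * d ^ 2 * (d * B) :=
                Nat.mul_le_mul_left _ (Nat.mul_le_mul (by omega) hνk.le)
              omega
            · rw [if_neg h2, zero_add]
              have h3 := hcon t (by omega) (by omega) h2
              calc 2 * d ^ 2 * (t * ν t) = t * (2 * d ^ 2 * ν t) := by ring
                _ ≤ t * j := Nat.mul_le_mul_left _ h3.le
        have h2 := sum_le_sum h1
        rw [← mul_sum, hmem.2, sum_add_distrib, sum_ite_eq', if_pos (mem_range.2 (by omega)),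
          ← sum_mul] at h2
        have h3 : ∑ t ∈ range (d + 1), t ≤ d ^ 2 := by
          have h4 := Finset.sum_range_id_mul_two (d + 1)
          have h5 : (d + 1) * (d + 1 - 1) = d ^ 2 + d := by
            rw [Nat.add_sub_cancel]
            ring
          have h6 : d ≤ d ^ 2 := by nlinarith
          omega
        have h4 : (∑ t ∈ range (d + 1), t) * j ≤ d ^ 2 * j := Nat.mul_le_mul_right _ h3
        have h5 : d ^ 2 * j ≤ d ^ 2 * (2 * d * B) := by
          have h6 : 2 * d ^ 2 * j = d ^ 2 * j + d ^ 2 * j := by ring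
          have h7 : 2 * d ^ 2 * (d * B) = d ^ 2 * (2 * d * B) := by ring
          omega
        have h6 := Nat.le_of_mul_le_mul_left h5 (by positivity)
        omega
      have hd3 : d ^ 3 = d ^ 2 * d := by ring
      have hνi : 2 * d ≤ ν i := by
        have h1 : 2 * d ^ 2 * (2 * d) ≤ 2 * d ^ 2 * ν i := by
          calc 2 * d ^ 2 * (2 * d) = 4 * d ^ 3 := by ring
            _ ≤ j := hjd
            _ ≤ 2 * d ^ 2 * ν i := hji
        exact Nat.le_of_mul_le_mul_left h1 (by positivity)
      have hx : j ≤ 4 * d ^ 2 * (ν i - k + 1) := by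
        have h1 : ν i ≤ 2 * (ν i - k + 1) := by omega
        calc j ≤ 2 * d ^ 2 * ν i := hji
          _ ≤ 2 * d ^ 2 * (2 * (ν i - k + 1)) := Nat.mul_le_mul_left _ h1
          _ = 4 * d ^ 2 * (ν i - k + 1) := by ring
      rcases Nat.lt_or_gt_of_ne hik with hlt | hgt
      · exact T1 i hi1 hlt (by omega)
          (est_small hd hk1 hkd.le hkm hi1 hlt hdn hn hjdn hCd hCn hx)
      · refine T3 i hgt hid (by omega) (by omega) ?_
        have h1 : 4 * d ^ 2 * W ≤ 4 * d ^ 2 * (ν i - k + 1) := hjW.trans hx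
        exact Nat.le_of_mul_le_mul_left h1 (by positivity)
  have hfin := sum_moves (VV d n j) ((VV d n j).filter fun ν => ν k < B) (TT d b)
    (range (d + 1) ×ˢ range 3) (mu d k) (muOk d k) K' key
    (fun e _ x y hx hy h => mu_inj hk1 hkd e x y hx hy h)
  rw [card_product, card_range, card_range] at hfin
  refine Nat.le_of_mul_le_mul_left (c := 3 * (d + 1)) ?_ (by omega)
  calc 3 * (d + 1) * (K * ∑ ν ∈ (VV d n j).filter (fun ν => ν k < B), TT d b ν)
      = K' * ∑ ν ∈ (VV d n j).filter (fun ν => ν k < B), TT d b ν := by rw [hK']; ring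
    _ ≤ (d + 1) * 3 * ∑ ν ∈ VV d n j, TT d b ν := hfin
    _ = _ := by ring

end Pool.Agent.ARC
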