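import Mathlib
import Pool.Agent.PGZ.Defs
import Pool.Agent.helper4.RayChar

/-! # ARC: definitions -/

set_option autoImplicit false

noncomputable section

namespace Pool.Agent.ARC

open NumberField Module Pool.Agent.Helper4

/-- `ψ` is a character of the group of ideals prime to `M`, extended by zero, trivial on the
ray modulo `M` times all real places.  `RP K` is the type of real places, `rv w : K →+* ℝ` the
corresponding embedding (`Pool.Agent.helper4.RecipNF`). -/
structure Ray (K : Type*) [Field K] [NumberField K] (M : ℕ) (ψ : Ideal (𝓞 K) → ℂ) : Prop where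
  two_le : 2 ≤ M
  mul : ∀ a b : Ideal (𝓞 K), IsCoprime a (Ideal.span {(M : 𝓞 K)}) →
    IsCoprime b (Ideal.span {(M : 𝓞 K)}) → ψ (a * b) = ψ a * ψ b
  zero : ∀ a : Ideal (𝓞 K), ¬ IsCoprime a (Ideal.span {(M : 𝓞 K)}) → ψ a = 0
  norm : ∀ a : Ideal (𝓞 K), IsCoprime a (Ideal.span {(M : 𝓞 K)}) → ‖ψ a‖ = 1
  ray : ∀ x y : 𝓞 K, x = 1 + M * y → (∀ w : RP K, 0 < rv w (x : K)) → ψ (Ideal.span {x}) = 1

/-- An additive function on ideals with values in `ZMod n` which is trivial on the ray modulo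
`M` (and all real places). -/
structure RayLam (K : Type) [Field K] [NumberField K] (n M : ℕ) (lam : Ideal (𝓞 K) → ZMod n) :
    Prop where
  add : ∀ I J : Ideal (𝓞 K), I ≠ ⊥ → J ≠ ⊥ → lam (I * J) = lam I + lam J
  ray : ∀ x : 𝓞 K, x ≠ 0 → (M : 𝓞 K) ∣ x - 1 →
    (∀ w : RP K, 0 < rv w (x : K)) → lam (Ideal.span {x}) = 0

/-- The inertia groups of `F / K` at the primes which do not contain `M` are trivial. -/
def Unr (K F : Type) [Field K] [Field F] [Algebra K F] (M : ℕ) : Prop :=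
  ∀ Q : Ideal (𝓞 F), Q.IsPrime → (M : 𝓞 F) ∉ Q → ∀ g : F ≃ₐ[K] F, (∀ x : 𝓞 F, g • x - x ∈ Q) →
    g = 1

/-- `g` is a Frobenius element over `K` at the prime ideal `Q` of `F`. -/
def IsFrob (K F : Type) [Field K] [NumberField K] [Field F] [NumberField F] [Algebra K F]
    (Q : Ideal (𝓞 F)) (g : F ≃ₐ[K] F) : Prop :=
  ∀ x : 𝓞 F, g • x - x ^ Ideal.absNorm (Q.under (𝓞 K)) ∈ Q

/-- The function `a` on ideals is additive and is `e (Frobenius)` on the primes which do not
contain `M`. -/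
structure IsArt (K F : Type) [Field K] [NumberField K] [Field F] [NumberField F] [Algebra K F]
    (n M : ℕ) (e : (F ≃ₐ[K] F) →* Multiplicative (ZMod n)) (a : Ideal (𝓞 K) → ZMod n) : Prop where
  add : ∀ I J : Ideal (𝓞 K), I ≠ ⊥ → J ≠ ⊥ → a (I * J) = a I + a J
  frob : ∀ Q : Ideal (𝓞 F), Q.IsPrime → (M : 𝓞 F) ∉ Q → ∀ g : F ≃ₐ[K] F,
    IsFrob K F Q g → a (Q.under (𝓞 K)) = (e g).toAdd

/-- The extension by zero of a function on the subgroup `H`. -/
def extC {G : Type} [Group G] (H : Subgroup G) (f : H → ℂ) (x : G) : ℂ :=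
  open Classical in if h : x ∈ H then f ⟨x, h⟩ else 0

/-- The induced character: the sum of `f (x⁻¹ g x)` over the cosets `x H` fixed by `g`. -/
def indC {G : Type} [Group G] (H : Subgroup G) (f : H → ℂ) (g : G) : ℂ :=
  ∑ᶠ x : G ⧸ H, extC H f (x.out⁻¹ * g * x.out)

end Pool.Agent.ARC
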