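import Pool.Agent.ARC.BI

/-! # ARC: `brauer`, `heilb`, `artinQ` (part B) -/
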