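import Pool.Agent.PGZ.EEL

/-! # ARC / FEE: Euler factors of integral combinations

`EE_add`, `EE_sub`, `EE_sum` (PGZ/EEL).  `EE S g 0 T = 1` (all terms are `0`), `EE ≠ 0` (exponential).  `EE_nsmul'`: `EE_sum` for the constant family over `Fin N` (`∑ i : Fin N, f x = N * f x`).
`EE_zsmul'`: `z = N`: the previous one; `z = -N`: `EE_sub` with `f₁ = 0`.  `EE_zsum`: `EE_sum` and `EE_zsmul'`.
-/

set_option autoImplicit false

noncomputable section

namespace Pool.Agent.ARC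

open Pool.Agent.PGZ

variable {G : Type*} [Group G] [Finite G]

theorem EE_ne_zero (S : Subgroup G) (g : G) (f : G → ℂ) (T : ℂ) : EE S g f T ≠ 0 :=
  Complex.exp_ne_zero _

theorem EE_zero' (S : Subgroup G) (g : G) (T : ℂ) : EE S g (fun _ => 0) T = 1 := by
  simp [EE]

theorem EE_nsmul' (S : Subgroup G) (g : G) (f : G → ℂ) (N : ℕ) (T : ℂ) (hT : ‖T‖ < 1) :
    EE S g (fun x => (N : ℂ) * f x) T = EE S g f T ^ N := by
  have h := EE_sum S g (fun (_ : Fin N) => f) T hT
  simpa using h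

theorem EE_zsmul' (S : Subgroup G) (g : G) (f : G → ℂ) (z : ℤ) (T : ℂ) (hT : ‖T‖ < 1) :
    EE S g (fun x => (z : ℂ) * f x) T = EE S g f T ^ z := by
  obtain ⟨N, rfl | rfl⟩ := z.eq_nat_or_neg
  · rw [zpow_natCast, ← EE_nsmul' S g f N T hT]
    simp
  · rw [zpow_neg, zpow_natCast, ← EE_nsmul' S g f N T hT]
    have h := EE_sub S g (fun _ => 0) (fun x => (N : ℂ) * f x) T hT
    rw [EE_zero', one_mul] at h
    rw [← h]
    congr 1
    funext x
    push_cast
    ring

theorem EE_zsum {J : Type*} [Fintype J] (S : Subgroup G) (g : G) (z : J → ℤ) (f : J → G → ℂ) (T : ℂ)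
    (hT : ‖T‖ < 1) :
    EE S g (fun x => ∑ j, (z j : ℂ) * f j x) T = ∏ j, EE S g (f j) T ^ (z j) := by
  rw [EE_sum S g (fun j x => (z j : ℂ) * f j x) T hT]
  exact Finset.prod_congr rfl fun j _ => EE_zsmul' S g (f j) (z j) T hT

end Pool.Agent.ARC
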