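import Pool.Agent.PGZ.GLOB
import Pool.Agent.ARC.FEE

/-! # ARC / FDZ: Euler factors of a lattice and of Dedekind zeta functions

`θ g = trace (act W g)`, `N θ = ∑ a_j fH (H j)` (`hθ`).  So `θ (x⁻¹) = θ x`, `θ (x y) = θ (y x)` (`fH_inv`, `fH_comm`, `N ≠ 0`).
`eul_EE`: `locDet_eq` and `EE_inv` (`conj_inertia`), as in the proof of `glob` (PGZ/GLOB): `euler W hP hσ T = EE (inertia) σ θ T`.
`fdz`: `EE_nsmul'`, `hθ`, `EE_zsum`, `zl_eq_EE`.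
`fdi`: the average of `θ` over `σ ^ (k+1) * I` is `N⁻¹ ∑ a_j (number of ring homomorphisms 𝓞 (KH (H j)) → GaloisField p (k+1))` by `hom_count` (`Fact p.Prime`), which does not depend on `P`, `σ`; so the exponents in the definition of `EE` are equal.
-/

set_option autoImplicit false

noncomputable section

namespace Pool.Agent.ARC

open NumberField Pool.Agent.PGZ

section

variable (F : Type) [Field F] [NumberField F] [IsGalois ℚ F] (W : Type)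
    [AddCommGroup W] [Module.Free ℤ W] [Module.Finite ℤ W] [DistribMulAction (F ≃ₐ[ℚ] F) W] (N : ℕ)
    (hN : 0 < N) {J : Type} [Fintype J] (H : J → Subgroup (F ≃ₐ[ℚ] F)) (a : J → ℤ)
    (hθ : ∀ g : F ≃ₐ[ℚ] F, (N : ℂ) * ((LinearMap.trace ℤ W (act W g) : ℤ) : ℂ) =
      ∑ j, (a j : ℂ) * fH (H j) g)

include hN hθ

theorem eul_EE {P : Ideal (𝓞 F)} (hP : P.IsPrime) {σ : F ≃ₐ[ℚ] F} (hσ : IsArithFrobAt ℤ σ P) {T : ℂ}
    (hT : ‖T‖ < 1) : euler W hP hσ T =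
      EE (P.inertia (F ≃ₐ[ℚ] F)) σ (fun x => ((LinearMap.trace ℤ W (act W x) : ℤ) : ℂ)) T := by
  have hN' : (N : ℂ) ≠ 0 := by exact_mod_cast hN.ne'
  unfold euler
  rw [locDet_eq _ _ _ _ hT]
  refine EE_inv _ _ (fun t ht => conj_inertia hP hσ t ht) _ ?_ ?_ _
  · intro x
    refine mul_left_cancel₀ hN' ?_
    rw [hθ, hθ]
    exact Finset.sum_congr rfl fun j _ => by rw [fH_inv]
  · intro x y
    refine mul_left_cancel₀ hN' ?_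
    rw [hθ, hθ]
    exact Finset.sum_congr rfl fun j _ => by rw [fH_comm]

theorem fdz {P : Ideal (𝓞 F)} (hP : P.IsPrime) {p : ℕ} (hp : p.Prime) (hpP : ((p : ℕ) : 𝓞 F) ∈ P)
    {σ : F ≃ₐ[ℚ] F} (hσ : IsArithFrobAt ℤ σ P) {s : ℂ} (hs : 0 < s.re) :
    euler W hP hσ ((p : ℂ) ^ (-s)) ^ N = ∏ j, Helper4.zl (KH (H j)) s p ^ (a j) := by
  have hT : ‖(p : ℂ) ^ (-s)‖ < 1 := by
    rw [Complex.norm_natCast_cpow_of_pos hp.pos]
    apply Real.rpow_lt_one_of_one_lt_of_neg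
    · exact_mod_cast hp.one_lt
    · simpa using hs
  rw [eul_EE F W N hN H a hθ hP hσ hT, ← EE_nsmul' _ _ _ _ _ hT]
  have h1 : (fun x : F ≃ₐ[ℚ] F => (N : ℂ) * ((LinearMap.trace ℤ W (act W x) : ℤ) : ℂ)) =
      fun x => ∑ j, (a j : ℂ) * fH (H j) x := funext hθ
  rw [h1, EE_zsum _ _ _ _ _ hT]
  exact Finset.prod_congr rfl fun j _ => by rw [zl_eq_EE hP hp hpP hσ (H j) hs]

private theorem FDZ_avg {p : ℕ} (hp : p.Prime) {P : Ideal (𝓞 F)} (hP : P.IsPrime)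
    (hpP : ((p : ℕ) : 𝓞 F) ∈ P) {σ : F ≃ₐ[ℚ] F} (hσ : IsArithFrobAt ℤ σ P) (k : ℕ) :
    haveI : Fact p.Prime := ⟨hp⟩
    (N : ℂ) * ((Nat.card (P.inertia (F ≃ₐ[ℚ] F)) : ℂ)⁻¹ * ∑ᶠ s : P.inertia (F ≃ₐ[ℚ] F),
      ((LinearMap.trace ℤ W (act W (σ ^ (k + 1) * s)) : ℤ) : ℂ)) =
      ∑ j, (a j : ℂ) * (Nat.card (𝓞 (KH (H j)) →+* GaloisField p (k + 1)) : ℂ) := by
  classical
  have : Fact p.Prime := ⟨hp⟩
  have hfin : Fintype (P.inertia (F ≃ₐ[ℚ] F)) := Fintype.ofFinite _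
  have hc : (Nat.card (P.inertia (F ≃ₐ[ℚ] F)) : ℂ) ≠ 0 := by
    have : Nat.card (P.inertia (F ≃ₐ[ℚ] F)) ≠ 0 := Nat.card_pos.ne'
    exact_mod_cast this
  have h1 : ∀ j, (Nat.card (𝓞 (KH (H j)) →+* GaloisField p (k + 1)) : ℂ) =
      (Nat.card (P.inertia (F ≃ₐ[ℚ] F)) : ℂ)⁻¹ *
        ∑ s : P.inertia (F ≃ₐ[ℚ] F), fH (H j) (σ ^ (k + 1) * s) := by
    intro j
    rw [eq_inv_mul_iff_mul_eq₀ hc, hom_count hP hpP hσ (H j) (k + 1) (Nat.succ_pos k),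
      finsum_eq_sum_of_fintype]
  simp only [h1]
  rw [finsum_eq_sum_of_fintype, mul_left_comm, Finset.mul_sum]
  simp only [hθ]
  rw [Finset.sum_comm, Finset.mul_sum]
  refine Finset.sum_congr rfl fun j _ => ?_
  rw [← Finset.mul_sum]
  ring

theorem fdi {p : ℕ} (hp : p.Prime) {P P' : Ideal (𝓞 F)} (hP : P.IsPrime) (hP' : P'.IsPrime)
    (hpP : ((p : ℕ) : 𝓞 F) ∈ P) (hpP' : ((p : ℕ) : 𝓞 F) ∈ P') {σ σ' : F ≃ₐ[ℚ] F}
    (hσ : IsArithFrobAt ℤ σ P) (hσ' : IsArithFrobAt ℤ σ' P') {T : ℂ} (hT : ‖T‖ < 1) :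
    euler W hP hσ T = euler W hP' hσ' T := by
  have hN' : (N : ℂ) ≠ 0 := by exact_mod_cast hN.ne'
  rw [eul_EE F W N hN H a hθ hP hσ hT, eul_EE F W N hN H a hθ hP' hσ' hT]
  unfold EE
  congr 1
  refine tsum_congr fun k => ?_
  have h1 := FDZ_avg F W N hN H a hθ hp hP hpP hσ k
  have h2 := FDZ_avg F W N hN H a hθ hp hP' hpP' hσ' k
  rw [mul_left_cancel₀ hN' (h1.trans h2.symm)]

end

end Pool.Agent.ARC
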