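import Mathlib

/-! # ARC / FOD: orders of zeros of entire functions (Mathlib only)

`od f z` is the order of the zero of the entire function `f` at `z` (`analyticOrderAt f z : ℕ∞`; finite if `f` is not identically zero: identity theorem, `AnalyticOnNhd.eqOn_zero_of_preconnected_of_eventuallyEq_zero`, `analyticOrderAt_eq_top`).
`od_mul`: `analyticOrderAt_mul`.  `od_pow`: `analyticOrderAt_pow`.  `od_prod`: induction.  `od_sub_pow`: `(z - a) ^ n` has order `n` at `a` and `0` elsewhere.  `od_comp_sub`: order of `z ↦ f (1 - z)` at `z` is the order of `f` at `1 - z`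
(composition with an invertible affine map: from the local form `f w = (w - w₀) ^ n g w`, `g w₀ ≠ 0`; `AnalyticAt.analyticOrderAt_eq_natCast`).
`entire_quot`: the quotient `f / g` is meromorphic with order `≥ 0` at all points, so it extends to an entire function `q` (for instance `q := toMeromorphicNFOn (f / g) Set.univ`, `MeromorphicNFAt.meromorphicOrderAt_nonneg_iff_analyticAt`; or define `q z := limUnder (𝓝[≠] z) (f / g)` and use the local forms),
and `f = g * q` off the discrete set of zeros of `g`, so everywhere by continuity.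
`half_eq`: two entire functions which agree for `1 < re s` are equal.
-/

set_option autoImplicit false

noncomputable section

namespace Pool.Agent.ARC

/-- order of the zero of `f` at `z` -/
def od (f : ℂ → ℂ) (z : ℂ) : ℕ := (analyticOrderAt f z).toNat

/-- entire and not identically zero -/
structure Ent (f : ℂ → ℂ) : Prop where
  diff : Differentiable ℂ f
  ne : ∃ z, f z ≠ 0

private theorem FOD_an {f : ℂ → ℂ} (hf : Ent f) (z : ℂ) : AnalyticAt ℂ f z :=
  hf.diff.analyticAt z

private theorem FOD_ne_top {f : ℂ → ℂ} (hf : Ent f) (z : ℂ) : analyticOrderAt f z ≠ ⊤ := by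
  intro h
  rw [AnalyticOnNhd.analyticOrderAt_eq_top_iff_eq_zero z (fun w => FOD_an hf w)] at h
  obtain ⟨w, hw⟩ := hf.ne
  exact hw (by rw [h]; rfl)

private theorem FOD_ent {f : ℂ → ℂ} (hf : Differentiable ℂ f) {z : ℂ} (h : analyticOrderAt f z ≠ ⊤) :
    Ent f := by
  refine ⟨hf, ?_⟩
  by_contra hcon
  push Not at hcon
  apply h
  rw [AnalyticOnNhd.analyticOrderAt_eq_top_iff_eq_zero z (fun w => hf.analyticAt w)]
  funext w
  exact hcon w

private theorem FOD_coe {f : ℂ → ℂ} (hf : Ent f) (z : ℂ) : analyticOrderAt f z = ((od f z : ℕ) : ℕ∞) := by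
  rw [od, ENat.natCast_toNat (FOD_ne_top hf z)]

theorem Ent.mul {f g : ℂ → ℂ} (hf : Ent f) (hg : Ent g) : Ent fun z => f z * g z := by
  refine FOD_ent (z := 0) (hf.diff.mul hg.diff) ?_
  have h : analyticOrderAt (fun z => f z * g z) 0 = analyticOrderAt f 0 + analyticOrderAt g 0 :=
    analyticOrderAt_mul (FOD_an hf 0) (FOD_an hg 0)
  rw [h, FOD_coe hf, FOD_coe hg, ← Nat.cast_add]
  exact ENat.natCast_ne_top _

theorem Ent.pow {f : ℂ → ℂ} (hf : Ent f) (n : ℕ) : Ent fun z => f z ^ n := by
  obtain ⟨w, hw⟩ := hf.ne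
  exact ⟨hf.diff.pow n, w, pow_ne_zero _ hw⟩

theorem Ent.prod {J : Type*} (s : Finset J) {f : J → ℂ → ℂ} (hf : ∀ j, Ent (f j)) :
    Ent fun z => ∏ j ∈ s, f j z := by
  classical
  induction s using Finset.induction_on with
  | empty =>
    simp only [Finset.prod_empty]
    exact ⟨differentiable_const _, 0, one_ne_zero⟩
  | insert a s ha ih =>
    have h := Ent.mul (hf a) ih
    simpa only [Finset.prod_insert ha] using h

theorem Ent.sub_pow (a : ℂ) (n : ℕ) : Ent fun z => (z - a) ^ n := by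
  refine ⟨(differentiable_id.sub_const a).pow n, a + 1, ?_⟩
  simp

theorem Ent.comp_sub {f : ℂ → ℂ} (hf : Ent f) : Ent fun z => f (1 - z) := by
  obtain ⟨w, hw⟩ := hf.ne
  refine ⟨hf.diff.comp (differentiable_id.const_sub 1), 1 - w, ?_⟩
  simpa using hw

theorem od_eq_zero {f : ℂ → ℂ} (hf : Ent f) {z : ℂ} : od f z = 0 ↔ f z ≠ 0 := by
  rw [← (FOD_an hf z).analyticOrderAt_eq_zero, FOD_coe hf z]
  norm_cast

theorem od_mul {f g : ℂ → ℂ} (hf : Ent f) (hg : Ent g) (z : ℂ) :
    od (fun w => f w * g w) z = od f z + od g z := by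
  have h : analyticOrderAt (fun z => f z * g z) z = analyticOrderAt f z + analyticOrderAt g z :=
    analyticOrderAt_mul (FOD_an hf z) (FOD_an hg z)
  rw [FOD_coe hf, FOD_coe hg, FOD_coe (Ent.mul hf hg), ← Nat.cast_add] at h
  exact_mod_cast h

theorem od_pow {f : ℂ → ℂ} (hf : Ent f) (n : ℕ) (z : ℂ) : od (fun w => f w ^ n) z = n * od f z := by
  have h : analyticOrderAt (fun z => f z ^ n) z = n • analyticOrderAt f z :=
    analyticOrderAt_pow (FOD_an hf z) n
  rw [FOD_coe hf, FOD_coe (Ent.pow hf n), nsmul_eq_mul] at h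
  exact_mod_cast h

theorem od_prod {J : Type*} (s : Finset J) {f : J → ℂ → ℂ} (hf : ∀ j, Ent (f j)) (z : ℂ) :
    od (fun w => ∏ j ∈ s, f j w) z = ∑ j ∈ s, od (f j) z := by
  classical
  induction s using Finset.induction_on with
  | empty =>
    simp only [Finset.prod_empty, Finset.sum_empty]
    rw [od_eq_zero ⟨differentiable_const _, 0, one_ne_zero⟩]
    exact one_ne_zero
  | insert a s ha ih =>
    have h := od_mul (hf a) (Ent.prod s hf) z
    simp only [Finset.prod_insert ha, Finset.sum_insert ha]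
    rw [h, ih]

theorem od_sub_pow (a : ℂ) (n : ℕ) (z : ℂ) :
    od (fun w => (w - a) ^ n) z = open Classical in if z = a then n else 0 := by
  classical
  have h1 : Ent fun w : ℂ => (w - a) := by simpa using Ent.sub_pow a 1
  rw [od_pow h1 n z]
  split_ifs with h
  · subst h
    have h2 : analyticOrderAt (fun w : ℂ => w - z) z = 1 := by
      rw [show (1 : ℕ∞) = ((1 : ℕ) : ℕ∞) from rfl, (FOD_an h1 z).analyticOrderAt_eq_natCast]
      refine ⟨fun _ => 1, analyticAt_const, one_ne_zero, ?_⟩
      filter_upwards with w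
      simp
    have h3 : od (fun w : ℂ => w - z) z = 1 := by
      rw [od, h2]; rfl
    rw [h3, mul_one]
  · have h3 : od (fun w : ℂ => w - a) z = 0 := (od_eq_zero h1).2 (sub_ne_zero.2 h)
    rw [h3, mul_zero]

theorem od_comp_sub {f : ℂ → ℂ} (hf : Ent f) (z : ℂ) : od (fun w => f (1 - w)) z = od f (1 - z) := by
  have hg : AnalyticAt ℂ (fun w : ℂ => 1 - w) z := analyticAt_const.sub analyticAt_id
  have hd : deriv (fun w : ℂ => 1 - w) z ≠ 0 := by
    rw [deriv_const_sub, deriv_id'']
    norm_num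
  have h := analyticOrderAt_comp_of_deriv_ne_zero (f := f) hg hd
  rw [od, od, ← h]
  rfl

theorem entire_quot {f g : ℂ → ℂ} (hf : Ent f) (hg : Ent g) (h : ∀ z, od g z ≤ od f z) :
    ∃ q : ℂ → ℂ, Differentiable ℂ q ∧ ∀ z, f z = g z * q z := by
  have hfm : ∀ z, MeromorphicAt f z := fun z => (FOD_an hf z).meromorphicAt
  have hgm : ∀ z, MeromorphicAt g z := fun z => (FOD_an hg z).meromorphicAt
  have hm : MeromorphicOn (f / g) Set.univ := fun z _ => (hfm z).div (hgm z)
  have hnf := meromorphicNFOn_toMeromorphicNFOn (f / g) Set.univ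
  have hev : ∀ z, toMeromorphicNFOn (f / g) Set.univ =ᶠ[nhdsWithin z {z}ᶜ] (f / g) := fun z =>
    hm.toMeromorphicNFOn_eq_self_on_nhdsNE (Set.mem_univ z)
  have han : ∀ z, AnalyticAt ℂ (toMeromorphicNFOn (f / g) Set.univ) z := by
    intro z
    rw [← (hnf (Set.mem_univ z)).meromorphicOrderAt_nonneg_iff_analyticAt]
    rw [meromorphicOrderAt_congr (hev z), meromorphicOrderAt_div (hfm z) (hgm z),
      (FOD_an hf z).meromorphicOrderAt_eq, (FOD_an hg z).meromorphicOrderAt_eq, FOD_coe hf z,
      FOD_coe hg z, ENat.map_natCast, ENat.map_natCast]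
    have h1 : (0 : ℤ) ≤ (od f z : ℤ) - (od g z : ℤ) := by
      have := h z
      omega
    have h2 : ((0 : ℤ) : WithTop ℤ) ≤ (((od f z : ℤ) - (od g z : ℤ) : ℤ) : WithTop ℤ) :=
      WithTop.coe_le_coe.2 h1
    exact h2
  refine ⟨toMeromorphicNFOn (f / g) Set.univ, fun z => (han z).differentiableAt, fun z => ?_⟩
  have hgne : ∀ᶠ w in nhdsWithin z {z}ᶜ, g w ≠ 0 := by
    rcases (FOD_an hg z).eventually_eq_zero_or_eventually_ne_zero with h0 | h0
    · exact absurd (analyticOrderAt_eq_top.2 h0) (FOD_ne_top hg z)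
    · exact h0
  have hEq : f =ᶠ[nhdsWithin z {z}ᶜ] fun w => g w * toMeromorphicNFOn (f / g) Set.univ w := by
    filter_upwards [hgne, hev z] with w hw1 hw2
    rw [hw2, Pi.div_apply, mul_div_cancel₀ _ hw1]
  have t1 : Filter.Tendsto f (nhdsWithin z {z}ᶜ) (nhds (f z)) :=
    (hf.diff.continuous.tendsto z).mono_left nhdsWithin_le_nhds
  have t2 : Filter.Tendsto (fun w => g w * toMeromorphicNFOn (f / g) Set.univ w) (nhdsWithin z {z}ᶜ)
      (nhds (g z * toMeromorphicNFOn (f / g) Set.univ z)) :=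
    (((hg.diff.continuous.continuousAt (x := z)).mul (han z).continuousAt).tendsto).mono_left
      nhdsWithin_le_nhds
  exact tendsto_nhds_unique (t1.congr' hEq) t2

theorem half_eq {f g : ℂ → ℂ} (hf : Differentiable ℂ f) (hg : Differentiable ℂ g)
    (h : ∀ s : ℂ, 1 < s.re → f s = g s) : f = g := by
  have hf' : AnalyticOnNhd ℂ f Set.univ := fun z _ => hf.analyticAt z
  have hg' : AnalyticOnNhd ℂ g Set.univ := fun z _ => hg.analyticAt z
  refine hf'.eq_of_eventuallyEq hg' (z₀ := 2) ?_
  have hop : IsOpen {s : ℂ | 1 < s.re} := isOpen_lt continuous_const Complex.continuous_re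
  filter_upwards [hop.mem_nhds (show (2 : ℂ) ∈ {s : ℂ | 1 < s.re} by norm_num [Set.mem_ofPred_eq])] with s hs
  exact h s hs

end Pool.Agent.ARC
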