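import Pool.Agent.PGZ.LOC
import Pool.Agent.PGZ.EEL
import Pool.Agent.ARC.FOD

/-! # ARC / FLE: local Euler factors of a lattice

`fle`: `locDet` is `det (1 - T φ)` for an endomorphism `φ` of a finite dimensional complex space with `φ ^ n = 1` (`n = |G|`, see the beginning of the proof of `locDet_eq` in PGZ/LOC).  It is a polynomial in `T` (`LinearMap.charpoly` reversed, or `Matrix.det` of a matrix with polynomial
entries), so `s ↦ locDet (p ^ (-s))` is entire.  If it vanishes at `T`, there is `v ≠ 0` with `T φ v = v`, so `T ^ n φ ^ n v = v`, `T ^ n = 1`, `‖T‖ = 1`, and `‖p ^ (-s)‖ = p ^ (- re s) = 1` iff `re s = 0`.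
-/

set_option autoImplicit false

noncomputable section

namespace Pool.Agent.ARC

open Pool.Agent.PGZ

private theorem FLE_pow {G : Type*} [Group G] {Λ : Type*} [AddCommGroup Λ]
    [DistribMulAction G Λ] (S : Subgroup G) (g : G)
    (h : ∀ x ∈ fixS Λ S, act Λ g x ∈ fixS Λ S) (n : ℕ) (x : fixS Λ S) :
    (((((act Λ g).restrict h) ^ n) x : fixS Λ S) : Λ) = g ^ n • (x : Λ) := by
  induction n with
  | zero => simp
  | succ n ih =>
    rw [pow_succ', Module.End.mul_apply, LinearMap.coe_restrict_apply, act_apply, ih, smul_smul,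
      ← pow_succ']

private theorem FLE_one {G : Type*} [Group G] [Finite G] {Λ : Type*} [AddCommGroup Λ]
    [DistribMulAction G Λ] (S : Subgroup G) (g : G)
    (h : ∀ x ∈ fixS Λ S, act Λ g x ∈ fixS Λ S) :
    (((act Λ g).restrict h).baseChange ℂ) ^ (Nat.card G) = 1 := by
  rw [← LinearMap.baseChange_pow]
  have : ((act Λ g).restrict h) ^ (Nat.card G) = 1 := by
    ext x
    rw [FLE_pow, pow_card_eq_one', one_smul]
    rfl
  rw [this, Module.End.one_eq_id, LinearMap.baseChange_id]
  rfl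

private theorem FLE_diff {V : Type*} [AddCommGroup V] [Module ℂ V] [FiniteDimensional ℂ V]
    (φ : V →ₗ[ℂ] V) : Differentiable ℂ fun T : ℂ => LinearMap.det (LinearMap.id - T • φ) := by
  classical
  have b := Module.finBasis ℂ V
  have h1 : (fun T : ℂ => LinearMap.det (LinearMap.id - T • φ)) = fun T =>
      ((1 : Matrix (Fin (Module.finrank ℂ V)) (Fin (Module.finrank ℂ V)) ℂ) -
        T • LinearMap.toMatrix b b φ).det := by
    funext T
    rw [← LinearMap.det_toMatrix b, map_sub, LinearMap.toMatrix_id, map_smul]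
  rw [h1]
  simp only [Matrix.det_apply, Matrix.sub_apply, Matrix.smul_apply, smul_eq_mul]
  refine Differentiable.fun_sum fun σ _ => ?_
  refine Differentiable.const_smul ?_ _
  refine Differentiable.fun_finsetProd fun i _ => ?_
  exact (differentiable_const _).sub (differentiable_id.mul_const _)

private theorem FLE_root {V : Type*} [AddCommGroup V] [Module ℂ V] [FiniteDimensional ℂ V]
    (φ : V →ₗ[ℂ] V) (n : ℕ) (hn : 0 < n) (hφ : φ ^ n = 1) (T : ℂ)
    (hT : LinearMap.det (LinearMap.id - T • φ) = 0) : ‖T‖ = 1 := by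
  have h1 := LinearMap.bot_lt_ker_of_det_eq_zero hT
  obtain ⟨v, hv, hv0⟩ := (Submodule.ne_bot_iff _).1 h1.ne'
  have h2 : v = T • φ v := by
    have := LinearMap.mem_ker.1 hv
    rw [LinearMap.sub_apply, LinearMap.id_apply, LinearMap.smul_apply, sub_eq_zero] at this
    exact this
  have h3 : ∀ k : ℕ, v = T ^ k • (φ ^ k) v := by
    intro k
    induction k with
    | zero => simp
    | succ k ih =>
      have h4 : T ^ (k + 1) • (φ ^ (k + 1)) v = T ^ k • (φ ^ k) (T • φ v) := by
        rw [map_smul, pow_succ, pow_succ, Module.End.mul_apply, smul_smul]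
      rw [h4, ← h2]
      exact ih
  have h5 := h3 n
  rw [hφ, Module.End.one_apply] at h5
  have h6 : T ^ n = 1 := by
    have h7 : (T ^ n - 1) • v = 0 := by
      rw [sub_smul, one_smul, ← h5, sub_self]
    rcases smul_eq_zero.1 h7 with h | h
    · exact sub_eq_zero.1 h
    · exact absurd h hv0
  have h8 : ‖T‖ ^ n = 1 := by rw [← norm_pow, h6, norm_one]
  exact (pow_eq_one_iff_of_nonneg (norm_nonneg _) hn.ne').1 h8

theorem fle {G : Type*} [Group G] [Finite G] {Λ : Type*} [AddCommGroup Λ]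
    [DistribMulAction G Λ] [Module.Free ℤ Λ] [Module.Finite ℤ Λ] (S : Subgroup G) (g : G)
    (h : ∀ x ∈ fixS Λ S, act Λ g x ∈ fixS Λ S) (p : ℕ) (hp : p.Prime) :
    Ent (fun s : ℂ => locDet Λ S g h ((p : ℂ) ^ (-s))) ∧
      ∀ s : ℂ, s.re ≠ 0 → locDet Λ S g h ((p : ℂ) ^ (-s)) ≠ 0 := by
  have h2 : ∀ s : ℂ, s.re ≠ 0 → locDet Λ S g h ((p : ℂ) ^ (-s)) ≠ 0 := by
    intro s hs h0
    have h1 := FLE_root _ (Nat.card G) Nat.card_pos (FLE_one S g h) _ h0
    rw [Complex.norm_natCast_cpow_of_pos hp.pos] at h1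
    have h3 : (1 : ℝ) < (p : ℝ) := by exact_mod_cast hp.one_lt
    rcases lt_or_gt_of_ne hs with h4 | h4
    · have := Real.one_lt_rpow h3 (show 0 < (-s).re by simpa using h4)
      rw [h1] at this
      exact lt_irrefl _ this
    · have := Real.rpow_lt_one_of_one_lt_of_neg h3 (show (-s).re < 0 by simpa using h4)
      rw [h1] at this
      exact lt_irrefl _ this
  refine ⟨⟨?_, 1, h2 1 (by simp)⟩, h2⟩
  have h1 : Differentiable ℂ fun T : ℂ => locDet Λ S g h T := FLE_diff _
  have hp0 : (p : ℂ) ≠ 0 := by exact_mod_cast hp.ne_zero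
  have h3 : Differentiable ℂ fun s : ℂ => (p : ℂ) ^ (-s) := fun s =>
    (differentiableAt_id.neg).const_cpow (Or.inl hp0)
  exact h1.comp h3

end Pool.Agent.ARC
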