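import Pool.Agent.ARC.FPL
import Pool.Agent.ARC.FDZ
import Pool.Agent.ARC.FLE

/-! # ARC / FFP: the complete Euler product

`P0, σ0` a fixed family (`fex`), `B p s := locDet W (inertia (P0 p)) (σ0 p)⁻¹ _ (p ^ (-s))`, so that `euler W (hP0 p) (hσ0 p) (p ^ (-s)) = (B p s)⁻¹` (definition).  For any family `P, σ`: for `p ∤ m` the inertia group is trivial (`hm`), so the factor is `EE ⊥ (σ p) θ` (`eul_EE`, rewrite
`P.inertia = ⊥`); for `p ∣ m` the factor is `(B p s)⁻¹` (`fdi`).  So the complete product is the product of the partial product (`fpl` for `θ = ∑ z_j f_j`) and of a finite product (`HasProd.mul`, `hasProd_prod_of_ne_finset_one`; the primes dividing `m ≠ 0` are a finite set, given as the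
`Finset` `S` of `Nat.Primes` with `hS`).
-/

set_option autoImplicit false

noncomputable section

namespace Pool.Agent.ARC

open NumberField Pool.Agent.PGZ

/-- the inverse Euler factor at `p` as a function of `s` -/
def BB (F : Type) [Field F] [NumberField F] (W : Type) [AddCommGroup W] [DistribMulAction (F ≃ₐ[ℚ] F) W]
    (P : Nat.Primes → Ideal (𝓞 F)) (σ : Nat.Primes → (F ≃ₐ[ℚ] F)) (hP : ∀ p, (P p).IsPrime)
    (hσ : ∀ p, IsArithFrobAt ℤ (σ p) (P p)) (p : Nat.Primes) (s : ℂ) : ℂ :=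
  locDet W ((P p).inertia (F ≃ₐ[ℚ] F)) (σ p)⁻¹ (frob_fix W (hP p) (hσ p)) ((p : ℂ) ^ (-s))

private theorem FFP_norm (p : Nat.Primes) (s : ℂ) (hs : 1 < s.re) : ‖((p : ℂ) ^ (-s))‖ < 1 := by
  rw [Complex.norm_natCast_cpow_of_pos p.2.pos, Complex.neg_re]
  refine Real.rpow_lt_one_of_one_lt_of_neg ?_ (by linarith)
  exact_mod_cast p.2.one_lt

theorem ffp (F : Type) [Field F] [NumberField F] [IsGalois ℚ F] (W : Type)
    [AddCommGroup W] [Module.Free ℤ W] [Module.Finite ℤ W] [DistribMulAction (F ≃ₐ[ℚ] F) W] (N : ℕ)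
    (hN : 0 < N) {I : Type} [Fintype I] (H : I → Subgroup (F ≃ₐ[ℚ] F)) (a : I → ℤ)
    (hθ : ∀ g : F ≃ₐ[ℚ] F, (N : ℂ) * ((LinearMap.trace ℤ W (act W g) : ℤ) : ℂ) =
      ∑ j, (a j : ℂ) * fH (H j) g)
    (m : ℕ) (hm0 : m ≠ 0)
    (hm : ∀ (p : ℕ) (P : Ideal (𝓞 F)), p.Prime → ¬ p ∣ m → P.IsPrime → ((p : ℕ) : 𝓞 F) ∈ P →
      P.inertia (F ≃ₐ[ℚ] F) = ⊥)
    (S : Finset Nat.Primes) (hS : ∀ p : Nat.Primes, p ∈ S ↔ (p : ℕ) ∣ m)
    {J : Type} [Fintype J] (f : J → (F ≃ₐ[ℚ] F) → ℂ) (D : J → ℂ → ℂ) (h : ∀ j, RayE F m (f j) (D j))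
    (z : J → ℤ)
    (hz : ∀ g : F ≃ₐ[ℚ] F, ((LinearMap.trace ℤ W (act W g) : ℤ) : ℂ) = ∑ j, (z j : ℂ) * f j g)
    (P₀ : Nat.Primes → Ideal (𝓞 F)) (σ₀ : Nat.Primes → (F ≃ₐ[ℚ] F)) (hP₀ : ∀ p, (P₀ p).IsPrime)
    (hpP₀ : ∀ p : Nat.Primes, ((p : ℕ) : 𝓞 F) ∈ P₀ p) (hσ₀ : ∀ p, IsArithFrobAt ℤ (σ₀ p) (P₀ p))
    (P : Nat.Primes → Ideal (𝓞 F)) (σ : Nat.Primes → (F ≃ₐ[ℚ] F)) (hP : ∀ p, (P p).IsPrime)
    (hpP : ∀ p : Nat.Primes, ((p : ℕ) : 𝓞 F) ∈ P p) (hσ : ∀ p, IsArithFrobAt ℤ (σ p) (P p))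
    (s : ℂ) (hs : 1 < s.re) :
    HasProd (fun p : Nat.Primes => euler W (hP p) (hσ p) ((p : ℂ) ^ (-s)))
      ((∏ j, (D j s / (s - 1)) ^ (z j)) * ∏ p ∈ S, (BB F W P₀ σ₀ hP₀ hσ₀ p s)⁻¹) := by
  classical
  have h1 := fpl F m f D h z P σ hP hpP hσ s hs
  have h2 : HasProd (fun p : Nat.Primes => if p ∈ S then (BB F W P₀ σ₀ hP₀ hσ₀ p s)⁻¹ else 1)
      (∏ p ∈ S, (BB F W P₀ σ₀ hP₀ hσ₀ p s)⁻¹) := by
    have h3 : HasProd (fun p : Nat.Primes => if p ∈ S then (BB F W P₀ σ₀ hP₀ hσ₀ p s)⁻¹ else 1)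
        (∏ p ∈ S, if p ∈ S then (BB F W P₀ σ₀ hP₀ hσ₀ p s)⁻¹ else 1) :=
      hasProd_prod_of_ne_finset_one (fun b hb => if_neg hb)
    rwa [Finset.prod_congr rfl (fun p hp => if_pos hp)] at h3
  have h4 := h1.mul h2
  convert h4 using 1
  funext p
  by_cases hp : (p : ℕ) ∣ m
  · rw [if_pos hp, if_pos ((hS p).2 hp), one_mul]
    exact fdi F W N hN H a hθ p.2 (hP p) (hP₀ p) (hpP p) (hpP₀ p) (hσ p) (hσ₀ p) (FFP_norm p s hs)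
  · rw [if_neg hp, if_neg (fun h' => hp ((hS p).1 h')), mul_one,
      eul_EE F W N hN H a hθ (hP p) (hσ p) (FFP_norm p s hs),
      hm p (P p) p.2 hp (hP p) (hpP p)]
    congr 1
    funext x
    exact hz x

end Pool.Agent.ARC
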