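import Pool.Agent.PGZ.EEL

/-! # ARC / FCV: convergence and non-vanishing of Euler products

`fcv`: `T = p ^ (-s)`, `‖T‖ = p ^ (-σ) ≤ 1/2`, `σ = re s > 1`.  The exponent `ℓ p = ∑' k, (|S|⁻¹ ∑ f (g ^ (k+1) s)) * T ^ (k+1) / (k+1)` satisfies `‖ℓ p‖ ≤ ∑ C ‖T‖ ^ (k+1) ≤ 2 C p ^ (-σ)` (the average of values of norm `≤ C` has norm `≤ C`), so `ℓ` is
summable over the primes (`Nat.Primes.summable_rpow` or `Real.summable_nat_rpow` restricted to the primes), and `HasProd (fun p => exp (ℓ p)) (exp (∑' ℓ p))` (`HasSum` composed with `Complex.exp`: finite products of exponentials are exponentials of sums, continuity; Mathlib `HasSum.cexp` or similar).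
`hasProd_inv'`: finite products of inverses are inverses of finite products, continuity of the inverse at `a ≠ 0`.  `hasProd_zpow'`: powers (`HasProd.pow`-type by induction or continuity of `x ↦ x ^ n` at `a ≠ 0`, finite products commute with powers).
-/

set_option autoImplicit false

noncomputable section

namespace Pool.Agent.ARC

open Pool.Agent.PGZ

theorem hasProd_inv' {X : Type*} {f : X → ℂ} {a : ℂ} (h : HasProd f a) (ha : a ≠ 0) :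
    HasProd (fun x => (f x)⁻¹) a⁻¹ := by
  have h1 := Filter.Tendsto.inv₀ (f := fun s : Finset X => ∏ x ∈ s, f x) h ha
  refine h1.congr fun s => ?_
  exact (Finset.prod_inv_distrib _).symm

theorem hasProd_zpow' {X : Type*} {f : X → ℂ} {a : ℂ} (h : HasProd f a) (ha : a ≠ 0) (n : ℤ) :
    HasProd (fun x => f x ^ n) (a ^ n) := by
  have h1 := Filter.Tendsto.zpow₀ (f := fun s : Finset X => ∏ x ∈ s, f x) h n (Or.inl ha)
  refine h1.congr fun s => ?_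
  exact (Finset.prod_zpow _ _ _).symm

private theorem FCV_term {G : Type*} [Group G] [Finite G] (S : Subgroup G) (g : G) (f : G → ℂ) (C : ℝ)
    (hC : ∀ x, ‖f x‖ ≤ C) (T : ℂ) (k : ℕ) :
    ‖((Nat.card S : ℂ)⁻¹ * ∑ᶠ s : S, f (g ^ (k + 1) * s)) * T ^ (k + 1) / ((k : ℂ) + 1)‖ ≤
      C * ‖T‖ * ‖T‖ ^ k := by
  classical
  haveI : Fintype G := Fintype.ofFinite G
  haveI : Fintype S := Fintype.ofFinite S
  have hC0 : 0 ≤ C := (norm_nonneg _).trans (hC 1)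
  rw [norm_div, norm_mul, norm_mul, norm_pow, finsum_eq_sum_of_fintype]
  have h3 : ‖∑ s : S, f (g ^ (k + 1) * s)‖ ≤ (Nat.card S : ℝ) * C := by
    refine (norm_sum_le _ _).trans ?_
    refine (Finset.sum_le_sum (fun s _ => hC _)).trans ?_
    rw [Finset.sum_const, Finset.card_univ, nsmul_eq_mul, Nat.card_eq_fintype_card]
  have h4 : (1 : ℝ) ≤ ‖((k : ℂ) + 1)‖ := by
    have h5 : ((k : ℂ) + 1) = ((k + 1 : ℕ) : ℂ) := by push_cast; ring
    rw [h5, Complex.norm_natCast]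
    exact_mod_cast Nat.succ_le_succ (Nat.zero_le k)
  have hcard : (0 : ℝ) < (Nat.card S : ℝ) := by
    exact_mod_cast Nat.card_pos
  have h5 : ‖(Nat.card S : ℂ)⁻¹‖ * ‖∑ s : S, f (g ^ (k + 1) * s)‖ ≤ C := by
    rw [norm_inv, Complex.norm_natCast]
    calc (Nat.card S : ℝ)⁻¹ * ‖∑ s : S, f (g ^ (k + 1) * s)‖
        ≤ (Nat.card S : ℝ)⁻¹ * ((Nat.card S : ℝ) * C) :=
          mul_le_mul_of_nonneg_left h3 (inv_nonneg.2 hcard.le)
      _ = C := by field_simp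
  refine (div_le_self (by positivity) h4).trans ?_
  calc ‖(Nat.card S : ℂ)⁻¹‖ * ‖∑ s : S, f (g ^ (k + 1) * s)‖ * ‖T‖ ^ (k + 1)
      ≤ C * ‖T‖ ^ (k + 1) := mul_le_mul_of_nonneg_right h5 (by positivity)
    _ = C * ‖T‖ * ‖T‖ ^ k := by rw [pow_succ]; ring

private theorem FCV_bound {G : Type*} [Group G] [Finite G] (S : Subgroup G) (g : G) (f : G → ℂ) (C : ℝ)
    (hC : ∀ x, ‖f x‖ ≤ C) (T : ℂ) (hT : ‖T‖ ≤ 1 / 2) :
    ‖∑' k : ℕ, ((Nat.card S : ℂ)⁻¹ * ∑ᶠ s : S, f (g ^ (k + 1) * s)) * T ^ (k + 1) / ((k : ℂ) + 1)‖ ≤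
      2 * C * ‖T‖ := by
  have hC0 : 0 ≤ C := (norm_nonneg _).trans (hC 1)
  have hT1 : ‖T‖ < 1 := lt_of_le_of_lt hT (by norm_num)
  have hsum : HasSum (fun k : ℕ => C * ‖T‖ * ‖T‖ ^ k) (C * ‖T‖ * (1 - ‖T‖)⁻¹) :=
    (hasSum_geometric_of_lt_one (norm_nonneg _) hT1).mul_left _
  refine (tsum_of_norm_bounded hsum (fun k => FCV_term S g f C hC T k)).trans ?_
  have h1 : (1 - ‖T‖)⁻¹ ≤ 2 := by
    rw [inv_le_comm₀ (by linarith) (by norm_num)]
    linarith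
  calc C * ‖T‖ * (1 - ‖T‖)⁻¹ ≤ C * ‖T‖ * 2 := mul_le_mul_of_nonneg_left h1 (by positivity)
    _ = 2 * C * ‖T‖ := by ring

theorem fcv {G : Type*} [Group G] [Finite G] (S : Nat.Primes → Subgroup G) (σ : Nat.Primes → G)
    (f : Nat.Primes → G → ℂ) (C : ℝ) (hC : ∀ p g, ‖f p g‖ ≤ C) (s : ℂ) (hs : 1 < s.re) :
    ∃ v : ℂ, v ≠ 0 ∧ HasProd (fun p : Nat.Primes => EE (S p) (σ p) (f p) ((p : ℂ) ^ (-s))) v := by
  have hnorm : ∀ p : Nat.Primes, ‖((p : ℕ) : ℂ) ^ (-s)‖ = ((p : ℕ) : ℝ) ^ (-s.re) := by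
    intro p
    rw [Complex.norm_natCast_cpow_of_pos p.2.pos, Complex.neg_re]
  have hhalf : ∀ p : Nat.Primes, ‖((p : ℕ) : ℂ) ^ (-s)‖ ≤ 1 / 2 := by
    intro p
    rw [hnorm p]
    have hp2 : (2 : ℝ) ≤ ((p : ℕ) : ℝ) := by exact_mod_cast p.2.two_le
    calc ((p : ℕ) : ℝ) ^ (-s.re) ≤ ((p : ℕ) : ℝ) ^ (-(1 : ℝ)) :=
          Real.rpow_le_rpow_of_exponent_le (by linarith) (by linarith)
      _ = (((p : ℕ) : ℝ))⁻¹ := by rw [Real.rpow_neg_one]
      _ ≤ 1 / 2 := by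
          rw [one_div]
          exact inv_anti₀ (by norm_num) hp2
  have hsummable : Summable fun p : Nat.Primes =>
      ∑' k : ℕ, ((Nat.card (S p) : ℂ)⁻¹ * ∑ᶠ t : (S p), f p (σ p ^ (k + 1) * t)) *
        (((p : ℕ) : ℂ) ^ (-s)) ^ (k + 1) / ((k : ℂ) + 1) := by
    have h1 : Summable fun p : Nat.Primes => ((p : ℕ) : ℝ) ^ (-s.re) :=
      (Nat.Primes.summable_rpow).2 (by linarith)
    refine Summable.of_norm_bounded (h1.mul_left (2 * C)) fun p => ?_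
    rw [← hnorm p]
    exact FCV_bound (S p) (σ p) (f p) C (hC p) _ (hhalf p)
  refine ⟨Complex.exp (∑' p : Nat.Primes, ∑' k : ℕ, ((Nat.card (S p) : ℂ)⁻¹ *
    ∑ᶠ t : (S p), f p (σ p ^ (k + 1) * t)) * (((p : ℕ) : ℂ) ^ (-s)) ^ (k + 1) / ((k : ℂ) + 1)),
    Complex.exp_ne_zero _, ?_⟩
  exact hsummable.hasSum.cexp

end Pool.Agent.ARC
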