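import Pool.Agent.PGZ.Defs

/-! # ARC / FUR: finitely many ramified primes; existence of Frobenius elements

`fur`: for `g ≠ 1` choose `x` in `𝓞 F` with `g • x ≠ x` (`g` is determined by its values on `𝓞 F`: `F` is the fraction field) and let `N g := |norm_ℚ (g • x - x)| ≠ 0` (`Ideal.absNorm (span {g • x - x})` or `Algebra.norm ℤ`); `g • x - x` divides `N g` in `𝓞 F`
(`Ideal.absNorm_mem`, or `Algebra.dvd_norm`-type).  `m₀ := ∏ g ≠ 1, N g`.  If `p ∤ m₀`, `p ∈ P` prime, `g ∈ P.inertia`, `g ≠ 1`: `g • x - x ∈ P`, so `N g ∈ P`, so `p ∣ N g` (`P ∩ ℤ = (p)`), contradiction.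
`fex`: above every `p` there is a prime ideal of `𝓞 F` (`Ideal.exists_ideal_over_prime_of_isIntegral` or a maximal ideal containing `p`), and a Frobenius element (`IsArithFrobAt.exists_of_isInvariant` for `G = F ≃ₐ[ℚ] F`; `𝓞 F ⧸ P` is finite).
-/

set_option autoImplicit false

noncomputable section

namespace Pool.Agent.ARC

open Pool.Agent.PGZ NumberField

private theorem FUR_coe {F : Type} [Field F] [NumberField F] (g : F ≃ₐ[ℚ] F) (x : 𝓞 F) :
    ((g • x : 𝓞 F) : F) = g (x : F) := rfl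

private theorem FUR_exists {F : Type} [Field F] [NumberField F] (g : F ≃ₐ[ℚ] F) (hg : g ≠ 1) :
    ∃ x : 𝓞 F, g • x ≠ x := by
  by_contra hcon
  push Not at hcon
  apply hg
  ext y
  obtain ⟨a, b, hb, rfl⟩ := IsFractionRing.div_surjective (A := 𝓞 F) y
  have h1 : ∀ x : 𝓞 F, g (algebraMap (𝓞 F) F x) = algebraMap (𝓞 F) F x := fun x =>
    congrArg (fun z : 𝓞 F => (z : F)) (hcon x)
  rw [map_div₀, h1, h1]
  rfl

private theorem FUR_N {F : Type} [Field F] [NumberField F] (g : F ≃ₐ[ℚ] F) :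
    ∃ N : ℕ, N ≠ 0 ∧ (g ≠ 1 → ∀ P : Ideal (𝓞 F), g ∈ P.inertia (F ≃ₐ[ℚ] F) →
      ((N : ℕ) : 𝓞 F) ∈ P) := by
  by_cases hg : g = 1
  · exact ⟨1, one_ne_zero, fun h => absurd hg h⟩
  obtain ⟨x, hx⟩ := FUR_exists g hg
  refine ⟨Ideal.absNorm (Ideal.span {g • x - x}), ?_, ?_⟩
  · rw [Ne, Ideal.absNorm_eq_zero_iff, Ideal.span_singleton_eq_bot, sub_eq_zero]
    exact hx
  · intro _ P hP
    have h1 := Ideal.absNorm_mem (Ideal.span {g • x - x})
    have h2 : Ideal.span {g • x - x} ≤ P := by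
      rw [Ideal.span_singleton_le_iff_mem]
      exact hP x
    exact h2 h1

theorem fur (F : Type) [Field F] [NumberField F] : ∃ m₀ : ℕ, m₀ ≠ 0 ∧
    ∀ (p : ℕ) (P : Ideal (𝓞 F)), p.Prime → ¬ p ∣ m₀ → P.IsPrime → ((p : ℕ) : 𝓞 F) ∈ P →
      P.inertia (F ≃ₐ[ℚ] F) = ⊥ := by
  classical
  choose N hN0 hN using fun g : F ≃ₐ[ℚ] F => FUR_N g
  refine ⟨∏ g, N g, Finset.prod_ne_zero_iff.2 fun g _ => hN0 g, ?_⟩
  intro p P hp hpm hP hpP
  rw [Subgroup.eq_bot_iff_forall]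
  intro g hg
  by_contra hg1
  have h1 := hN g hg1 P hg
  have h2 : ¬ p ∣ N g := fun h => hpm (h.trans (Finset.dvd_prod_of_mem N (Finset.mem_univ g)))
  have h3 : Nat.Coprime p (N g) := (Nat.Prime.coprime_iff_not_dvd hp).2 h2
  obtain ⟨u, v, huv⟩ : ∃ u v : ℤ, u * p + v * N g = 1 := by
    have := Nat.isCoprime_iff_coprime.2 h3
    obtain ⟨u, v, h⟩ := this
    exact ⟨u, v, h⟩
  apply hP.ne_top
  rw [Ideal.eq_top_iff_one]
  have h4 : (1 : 𝓞 F) = (u : 𝓞 F) * ((p : ℕ) : 𝓞 F) + (v : 𝓞 F) * ((N g : ℕ) : 𝓞 F) := by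
    have := congrArg (fun z : ℤ => (z : 𝓞 F)) huv
    push_cast at this
    exact this.symm
  rw [h4]
  exact P.add_mem (P.mul_mem_left _ hpP) (P.mul_mem_left _ h1)

private theorem FUR_inv (F : Type) [Field F] [NumberField F] [IsGalois ℚ F] :
    Algebra.IsInvariant ℤ (𝓞 F) (F ≃ₐ[ℚ] F) := by
  constructor
  intro b hb
  have h1 : (b : F) ∈ (⊥ : IntermediateField ℚ F) := by
    rw [IsGalois.mem_bot_iff_fixed]
    intro g
    exact congrArg (fun z : 𝓞 F => (z : F)) (hb g)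
  obtain ⟨q, hq⟩ := IntermediateField.mem_bot.1 h1
  have h2 : IsIntegral ℤ q := by
    have h3 : IsIntegral ℤ (algebraMap ℚ F q) := by
      rw [hq]
      exact b.isIntegral_coe
    exact (isIntegral_algebraMap_iff (algebraMap ℚ F).injective).1 h3
  obtain ⟨n, hn⟩ := IsIntegrallyClosed.isIntegral_iff.1 h2
  refine ⟨n, ?_⟩
  apply RingOfIntegers.coe_injective
  change algebraMap (𝓞 F) F (algebraMap ℤ (𝓞 F) n) = (b : F)
  rw [← hq, ← hn]
  simp

theorem fex (F : Type) [Field F] [NumberField F] [IsGalois ℚ F] :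
    ∃ (P : Nat.Primes → Ideal (𝓞 F)) (σ : Nat.Primes → (F ≃ₐ[ℚ] F)), (∀ p, (P p).IsPrime) ∧
      (∀ p : Nat.Primes, ((p : ℕ) : 𝓞 F) ∈ P p) ∧ ∀ p, IsArithFrobAt ℤ (σ p) (P p) := by
  have h : ∀ p : Nat.Primes, ∃ (P : Ideal (𝓞 F)) (σ : F ≃ₐ[ℚ] F), P.IsPrime ∧
      ((p : ℕ) : 𝓞 F) ∈ P ∧ IsArithFrobAt ℤ σ P := by
    intro p
    have h1 : Ideal.span {((p : ℕ) : 𝓞 F)} ≠ ⊤ := by
      rw [Ne, Ideal.span_singleton_eq_top]
      intro hu
      have h2 : IsUnit ((p : ℕ) : ℤ) := by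
        obtain ⟨y, hy⟩ := isUnit_iff_exists_inv.1 hu
        have h3 := congrArg (fun z : 𝓞 F => Algebra.norm ℤ z) hy
        simp only [map_mul, map_one] at h3
        have h4 : Algebra.norm ℤ (((p : ℕ) : 𝓞 F)) = (p : ℤ) ^ Module.finrank ℤ (𝓞 F) := by
          have := Algebra.norm_algebraMap (R := ℤ) (S := 𝓞 F) ((p : ℕ) : ℤ)
          rw [← this]
          congr 1
          simp
        rw [h4] at h3
        have h5 : IsUnit ((p : ℤ) ^ Module.finrank ℤ (𝓞 F)) := IsUnit.of_mul_eq_one _ h3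
        have h6 : Module.finrank ℤ (𝓞 F) ≠ 0 := by
          have : 0 < Module.finrank ℤ (𝓞 F) := Module.finrank_pos
          exact this.ne'
        exact (isUnit_pow_iff h6).1 h5
      rw [Int.isUnit_iff] at h2
      have h3 := p.2.one_lt
      rcases h2 with h2 | h2 <;> omega
    obtain ⟨P, hPm, hP⟩ := Ideal.exists_le_maximal _ h1
    have hpP : ((p : ℕ) : 𝓞 F) ∈ P := hP (Ideal.mem_span_singleton_self _)
    have hP0 : P ≠ ⊥ := by
      rintro rfl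
      rw [Ideal.mem_bot] at hpP
      exact p.2.ne_zero (by exact_mod_cast hpP)
    have hfin : Finite (𝓞 F ⧸ P) := Ideal.finiteQuotientOfFreeOfNeBot P hP0
    have hprime : P.IsPrime := hPm.isPrime
    have hinv := FUR_inv F
    obtain ⟨σ, hσ⟩ := IsArithFrobAt.exists_of_isInvariant ℤ (F ≃ₐ[ℚ] F) P
    exact ⟨P, σ, hprime, hpP, hσ⟩
  choose P σ h1 h2 h3 using h
  exact ⟨P, σ, h1, h2, h3⟩

end Pool.Agent.ARC
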