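import Pool.Agent.ARC.FDZ
import Pool.Agent.ARC.FCV
import Pool.Agent.ARC.FUR

/-! # ARC / FFZ: the complete Euler product and Dedekind zeta functions

`ded_ne`: take `P, σ` from `fex`; `Helper4.hasProd_dedekind` has the factors `Helper4.zl (KH H) s p = EE (inertia) (σ p) (fH H) (p ^ (-s))` (`zl_eq_EE`; `zl` is by definition the expression in `hasProd_dedekind`), and by `fcv` (`f p = fH H`, bounded by `|G|`) the
product has a non-zero value; `HasProd.unique`.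
`ffz`: `fcv` for `euler W .. = EE .. θ` (`eul_EE`): the product converges to some `v ≠ 0`.  Its `N`-th power: `fdz`, `hasProd_zpow'` for the zeta products, finite products of products (`hasProd_prod`, see PGZ/GLOB), `HasProd.unique`.
-/

set_option autoImplicit false

noncomputable section

namespace Pool.Agent.ARC

open NumberField Pool.Agent.PGZ

private theorem FFZ_bdd {G : Type*} [Finite G] (f : G → ℂ) : ∃ C : ℝ, ∀ x : G, ‖f x‖ ≤ C := by
  haveI : Fintype G := Fintype.ofFinite G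
  refine ⟨∑ x : G, ‖f x‖, fun x => ?_⟩
  exact Finset.single_le_sum (f := fun x => ‖f x‖) (fun y _ => norm_nonneg (f y))
    (Finset.mem_univ x)

private theorem FFZ_norm (p : Nat.Primes) {s : ℂ} (hs : 0 < s.re) :
    ‖((p : ℕ) : ℂ) ^ (-s)‖ < 1 := by
  rw [Complex.norm_natCast_cpow_of_pos p.2.pos]
  apply Real.rpow_lt_one_of_one_lt_of_neg
  · exact_mod_cast p.2.one_lt
  · simpa using hs

theorem ded_ne (F : Type) [Field F] [NumberField F] [IsGalois ℚ F] (H : Subgroup (F ≃ₐ[ℚ] F)) (s : ℂ)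
    (hs : 1 < s.re) : Helper4.HDed (KH H) s ≠ 0 := by
  have hs0 : 0 < s.re := by linarith
  obtain ⟨P, σ, hP, hpP, hσ⟩ := fex F
  have h1 := Helper4.hasProd_dedekind (KH H) hs
  obtain ⟨C, hC⟩ := FFZ_bdd (fH H)
  obtain ⟨v, hv, hv'⟩ := fcv (fun p => (P p).inertia (F ≃ₐ[ℚ] F)) σ (fun _ => fH H) C
    (fun _ g => hC g) s hs
  have h2 : (fun p : Nat.Primes => EE ((P p).inertia (F ≃ₐ[ℚ] F)) (σ p) (fH H)
      (((p : ℕ) : ℂ) ^ (-s))) = fun p : Nat.Primes => Helper4.zl (KH H) s p := by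
    funext p
    exact (zl_eq_EE (hP p) p.2 (hpP p) (hσ p) H hs0).symm
  have h3 : HasProd (fun p : Nat.Primes => Helper4.zl (KH H) s p) v := by
    rw [← h2]
    exact hv'
  have h4 : Helper4.HDed (KH H) s / (s - 1) = v := h1.unique h3
  intro h0
  rw [h0, zero_div] at h4
  exact hv h4.symm

theorem ffz (F : Type) [Field F] [NumberField F] [IsGalois ℚ F] (W : Type)
    [AddCommGroup W] [Module.Free ℤ W] [Module.Finite ℤ W] [DistribMulAction (F ≃ₐ[ℚ] F) W] (N : ℕ)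
    (hN : 0 < N) {J : Type} [Fintype J] (H : J → Subgroup (F ≃ₐ[ℚ] F)) (a : J → ℤ)
    (hθ : ∀ g : F ≃ₐ[ℚ] F, (N : ℂ) * ((LinearMap.trace ℤ W (act W g) : ℤ) : ℂ) =
      ∑ j, (a j : ℂ) * fH (H j) g)
    (P : Nat.Primes → Ideal (𝓞 F)) (σ : Nat.Primes → (F ≃ₐ[ℚ] F))
    (hP : ∀ p, (P p).IsPrime) (hpP : ∀ p : Nat.Primes, ((p : ℕ) : 𝓞 F) ∈ P p)
    (hσ : ∀ p, IsArithFrobAt ℤ (σ p) (P p)) (s : ℂ) (hs : 1 < s.re) :
    ∃ v : ℂ, v ≠ 0 ∧ HasProd (fun p : Nat.Primes => euler W (hP p) (hσ p) ((p : ℂ) ^ (-s))) v ∧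
      v ^ N = ∏ j, (Helper4.HDed (KH (H j)) s / (s - 1)) ^ (a j) := by
  have hs0 : 0 < s.re := by linarith
  obtain ⟨C, hC⟩ := FFZ_bdd (fun x : F ≃ₐ[ℚ] F => ((LinearMap.trace ℤ W (act W x) : ℤ) : ℂ))
  obtain ⟨v, hv, hv'⟩ := fcv (fun p => (P p).inertia (F ≃ₐ[ℚ] F)) σ
    (fun _ x => ((LinearMap.trace ℤ W (act W x) : ℤ) : ℂ)) C (fun _ g => hC g) s hs
  have h1 : (fun p : Nat.Primes => euler W (hP p) (hσ p) ((p : ℂ) ^ (-s))) =
      fun p : Nat.Primes => EE ((P p).inertia (F ≃ₐ[ℚ] F)) (σ p)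
        (fun x => ((LinearMap.trace ℤ W (act W x) : ℤ) : ℂ)) ((p : ℂ) ^ (-s)) := by
    funext p
    exact eul_EE F W N hN H a hθ (hP p) (hσ p) (FFZ_norm p hs0)
  have h2 : HasProd (fun p : Nat.Primes => euler W (hP p) (hσ p) ((p : ℂ) ^ (-s))) v := by
    rw [h1]
    exact hv'
  refine ⟨v, hv, h2, ?_⟩
  have h3 := Helper4.hasProd_pow h2 N
  have h4 : (fun p : Nat.Primes => euler W (hP p) (hσ p) ((p : ℂ) ^ (-s)) ^ N) =
      fun p : Nat.Primes => ∏ j, Helper4.zl (KH (H j)) s p ^ (a j) := by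
    funext p
    exact fdz F W N hN H a hθ (hP p) p.2 (hpP p) (hσ p) hs0
  rw [h4] at h3
  have hs1 : s - 1 ≠ 0 := by
    intro h
    have : s = 1 := sub_eq_zero.1 h
    rw [this] at hs
    simp at hs
  have h5 : HasProd (fun p : Nat.Primes => ∏ j, Helper4.zl (KH (H j)) s p ^ (a j))
      (∏ j, (Helper4.HDed (KH (H j)) s / (s - 1)) ^ (a j)) :=
    hasProd_prod fun j _ => hasProd_zpow' (Helper4.hasProd_dedekind (KH (H j)) hs)
      (div_ne_zero (ded_ne F (H j) s hs) hs1) (a j)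
  exact h3.unique h5

end Pool.Agent.ARC
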