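import Pool.Agent.helper4.DedFE
import Pool.Agent.helper4.HDedOne
import Pool.Agent.helper4.GammaQuot
import Pool.Agent.ARC.FOD

/-! # ARC / FHD: zeros of the Dedekind zeta function on the imaginary axis -/

set_option autoImplicit false

noncomputable section

namespace Pool.Agent.ARC

open NumberField

theorem fhd_ent (K : Type) [Field K] [NumberField K] : Ent (Helper4.HDed K) :=
  ⟨Helper4.differentiable_HDed K, ⟨1, Helper4.HDed_one_ne_zero K⟩⟩

private theorem fhd_igam_ent (K : Type) [Field K] [NumberField K] : Ent (Helper4.igam K) :=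
  ⟨Helper4.differentiable_igam K, ⟨1, Helper4.igam_ne_zero K (by norm_num)⟩⟩

private theorem fhd_const_ent {c : ℂ} (hc : c ≠ 0) : Ent (fun _ : ℂ => c) :=
  ⟨differentiable_const c, ⟨0, hc⟩⟩

private theorem fhd_exp_ent (K : Type) [Field K] [NumberField K] :
    Ent (fun s : ℂ => Helper4.Cc K * Complex.exp (s * Helper4.Lc K)) :=
  ⟨by fun_prop, ⟨0, mul_ne_zero (Helper4.Cc_ne_zero K) (Complex.exp_ne_zero _)⟩⟩

private theorem fhd_neg_ent : Ent (fun s : ℂ => -s) :=
  ⟨by fun_prop, ⟨1, by norm_num⟩⟩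

/-- comparison of the orders in the functional equation -/
private theorem fhd_cmp (K : Type) [Field K] [NumberField K] (z : ℂ) :
    od (Helper4.igam K) z + (od (fun s : ℂ => (s - 1) ^ 1) z + od (Helper4.HDed K) (1 - z))
      = od (Helper4.igam K) (1 - z) + (od (fun s : ℂ => -s) z + od (Helper4.HDed K) z) := by
  have hA := fhd_igam_ent K
  have hG := fhd_ent K
  have hB := Ent.sub_pow 1 1
  have hC := hG.comp_sub
  have hE := hA.comp_sub
  have hD := fhd_exp_ent K
  have hF := fhd_neg_ent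
  have e1 : od (fun s : ℂ => Helper4.igam K s * ((s - 1) ^ 1 * Helper4.HDed K (1 - s))) z
      = od (Helper4.igam K) z + (od (fun s : ℂ => (s - 1) ^ 1) z + od (Helper4.HDed K) (1 - z)) := by
    rw [od_mul hA (hB.mul hC), od_mul hB hC, od_comp_sub hG]
  have e2 : od (fun s : ℂ => (Helper4.Cc K * Complex.exp (s * Helper4.Lc K)) *
        (Helper4.igam K (1 - s) * (-s * Helper4.HDed K s))) z
      = od (fun s : ℂ => Helper4.Cc K * Complex.exp (s * Helper4.Lc K)) z +
        (od (Helper4.igam K) (1 - z) + (od (fun s : ℂ => -s) z + od (Helper4.HDed K) z)) := by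
    rw [od_mul hD (hE.mul (hF.mul hG)), od_mul hE (hF.mul hG), od_mul hF hG, od_comp_sub hA]
  have e3 : od (fun s : ℂ => Helper4.Cc K * Complex.exp (s * Helper4.Lc K)) z = 0 :=
    (od_eq_zero hD).2 (mul_ne_zero (Helper4.Cc_ne_zero K) (Complex.exp_ne_zero _))
  rw [e3, zero_add] at e2
  rw [← e1, ← e2]
  congr 1
  funext s
  rw [pow_one]
  exact Helper4.dedekind_FE K s

private theorem fhd_igam_ne (K : Type) [Field K] [NumberField K] (z : ℂ) (hz : z.re = 0)
    (hz0 : z ≠ 0) : Helper4.igam K z ≠ 0 := by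
  unfold Helper4.igam
  refine Finset.prod_ne_zero_iff.2 fun v _ => inv_ne_zero (Complex.Gamma_ne_zero fun m hm => ?_)
  have hmult : ((InfinitePlace.mult v : ℕ) : ℂ) ≠ 0 := by
    exact_mod_cast (InfinitePlace.mult_pos (w := v)).ne'
  have hre : (((InfinitePlace.mult v : ℕ) : ℂ) * z / 2).re = 0 := by
    simp [hz]
  rw [hm] at hre
  have hm0 : m = 0 := by
    simpa using hre
  rw [hm0] at hm
  have h0 : ((InfinitePlace.mult v : ℕ) : ℂ) * z / 2 = 0 := by simpa using hm
  have h1 : ((InfinitePlace.mult v : ℕ) : ℂ) * z = 0 := by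
    have h2 := (div_eq_zero_iff.1 h0)
    rcases h2 with h2 | h2
    · exact h2
    · norm_num at h2
  rcases mul_eq_zero.1 h1 with h | h
  · exact hmult h
  · exact hz0 h

theorem fhd_im (K : Type) [Field K] [NumberField K] (z : ℂ) (hz : z.re = 0) (hz0 : z ≠ 0) :
    od (Helper4.HDed K) z = od (Helper4.HDed K) (1 - z) := by
  have h := fhd_cmp K z
  have h1 : od (Helper4.igam K) z = 0 :=
    (od_eq_zero (fhd_igam_ent K)).2 (fhd_igam_ne K z hz hz0)
  have hz1 : z ≠ 1 := by
    rintro rfl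
    norm_num at hz
  have h2 : od (fun s : ℂ => (s - 1) ^ 1) z = 0 := by
    rw [od_sub_pow, if_neg hz1]
  have h3 : od (Helper4.igam K) (1 - z) = 0 :=
    (od_eq_zero (fhd_igam_ent K)).2 (Helper4.igam_ne_zero K (by simp [hz]))
  have h4 : od (fun s : ℂ => -s) z = 0 := (od_eq_zero fhd_neg_ent).2 (neg_ne_zero.2 hz0)
  rw [h1, h2, h3, h4] at h
  omega

private theorem fhd_factor (c : ℂ) (hc : c ≠ 0) :
    Ent (fun s : ℂ => (Complex.Gamma (c * s / 2))⁻¹) ∧
      od (fun s : ℂ => (Complex.Gamma (c * s / 2))⁻¹) 0 = 1 := by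
  have hc2 : c / 2 ≠ 0 := div_ne_zero hc two_ne_zero
  have hf : (fun s : ℂ => (Complex.Gamma (c * s / 2))⁻¹)
      = fun s : ℂ => (c / 2 * (s - 0) ^ 1) * (Complex.Gamma (c * s / 2 + 1))⁻¹ := by
    funext s
    rw [sub_zero, pow_one]
    by_cases hs : c * s / 2 = 0
    · have hs0 : s = 0 := by
        have h1 : c / 2 * s = 0 := by rw [← hs]; ring
        exact (mul_eq_zero.1 h1).resolve_left hc2
      rw [hs, hs0, Complex.Gamma_zero]
      simp
    · rw [Complex.Gamma_add_one _ hs, mul_inv]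
      have h1 : c / 2 * s = c * s / 2 := by ring
      rw [h1, ← mul_assoc, mul_inv_cancel₀ hs, one_mul]
  have hE1 := fhd_const_ent hc2
  have hE2 := Ent.sub_pow 0 1
  have hg : Ent (fun s : ℂ => (Complex.Gamma (c * s / 2 + 1))⁻¹) := by
    refine ⟨?_, ⟨0, ?_⟩⟩
    · have h := Complex.differentiable_one_div_Gamma
      exact h.comp (by fun_prop : Differentiable ℂ (fun s : ℂ => c * s / 2 + 1))
    · simp [Complex.Gamma_one]
  have hg0 : od (fun s : ℂ => (Complex.Gamma (c * s / 2 + 1))⁻¹) 0 = 0 :=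
    (od_eq_zero hg).2 (by simp [Complex.Gamma_one])
  refine ⟨?_, ?_⟩
  · rw [hf]
    exact (hE1.mul hE2).mul hg
  · rw [hf, od_mul (hE1.mul hE2) hg, od_mul hE1 hE2, hg0, (od_eq_zero hE1).2 hc2, od_sub_pow,
      if_pos rfl]

theorem fhd_zero (K : Type) [Field K] [NumberField K] :
    od (Helper4.HDed K) 0 + 1 = Fintype.card (InfinitePlace K) := by
  have h := fhd_cmp K 0
  have h1 : od (Helper4.igam K) 0 = Fintype.card (InfinitePlace K) := by
    have hmult : ∀ v : InfinitePlace K, ((InfinitePlace.mult v : ℕ) : ℂ) ≠ 0 := fun v => by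
      exact_mod_cast (InfinitePlace.mult_pos (w := v)).ne'
    have h2 : od (fun s : ℂ => ∏ v ∈ (Finset.univ : Finset (InfinitePlace K)),
        (Complex.Gamma (((InfinitePlace.mult v : ℕ) : ℂ) * s / 2))⁻¹) 0
        = ∑ v ∈ (Finset.univ : Finset (InfinitePlace K)),
          od (fun s : ℂ => (Complex.Gamma (((InfinitePlace.mult v : ℕ) : ℂ) * s / 2))⁻¹) 0 :=
      od_prod Finset.univ
        (f := fun (v : InfinitePlace K) (s : ℂ) =>
          (Complex.Gamma (((InfinitePlace.mult v : ℕ) : ℂ) * s / 2))⁻¹)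
        (fun v => (fhd_factor _ (hmult v)).1) 0
    have h3 : ∀ v ∈ (Finset.univ : Finset (InfinitePlace K)),
        od (fun s : ℂ => (Complex.Gamma (((InfinitePlace.mult v : ℕ) : ℂ) * s / 2))⁻¹) 0 = 1 :=
      fun v _ => (fhd_factor _ (hmult v)).2
    rw [Finset.sum_congr rfl h3, Finset.sum_const, smul_eq_mul, mul_one, Finset.card_univ] at h2
    rw [← h2]
    rfl
  have h2 : od (fun s : ℂ => (s - 1) ^ 1) 0 = 0 := by
    rw [od_sub_pow, if_neg (by norm_num)]
  have h3 : od (Helper4.igam K) (1 - 0) = 0 :=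
    (od_eq_zero (fhd_igam_ent K)).2 (Helper4.igam_ne_zero K (by norm_num))
  have h4 : od (fun s : ℂ => -s) 0 = 1 := by
    have h5 : (fun s : ℂ => -s) = fun s : ℂ => (-1) * (s - 0) ^ 1 := by
      funext s
      ring
    have hE1 := fhd_const_ent (c := -1) (by norm_num)
    rw [h5, od_mul hE1 (Ent.sub_pow 0 1), (od_eq_zero hE1).2 (by norm_num), od_sub_pow, if_pos rfl]
  have h5 : od (Helper4.HDed K) (1 - 0) = 0 :=
    (od_eq_zero (fhd_ent K)).2 (by rw [sub_zero]; exact Helper4.HDed_one_ne_zero K)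
  rw [h1, h2, h3, h4, h5] at h
  omega

end Pool.Agent.ARC
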