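import Pool.Agent.PGZ.LOC
import Pool.Agent.PGZ.EEL

/-! # ARC / FPI: infinite places

`G = F ≃ₐ[ℚ] F`, `X = InfinitePlace F` a finite transitive `G`-set (`InfinitePlace.isPretransitive`-type result in Mathlib, `NumberTheory/NumberField/InfinitePlace/Ramification.lean`), `χ g` = number of fixed points of `g` in `X`.
(1) The number of infinite places of `KH H` is the number of `H`-orbits in `X` (`InfinitePlace.orbitRelEquiv` for `k = KH H`, `K = F`; the group `F ≃ₐ[KH H] F` is `H`: `IntermediateField.fixingSubgroupEquiv`, `IsGalois`/`IntermediateField.fixingSubgroup_fixedField`), so `|H| * card = ∑_{h ∈ H} χ h` (Burnside: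
`MulAction.sum_card_fixedBy_eq_card_orbits_mul_card_group`).
(2) Frobenius: for a class function `φ` on `G`: `|H| * ∑_g fH H g * φ g = |G| * ∑_{h ∈ H} φ h` (`fH H g * |H|` is the number of `x ∈ G` with `x⁻¹ g x ∈ H`; exchange the sums).
(3) With `φ = χ - 1` and `N θ = ∑ a_j fH (H j)`: `|G| * ∑_j a_j (card (InfinitePlace (KH (H j))) - 1) = N * ∑_g θ g * (χ g - 1)`.
(4) `χ = fH D`, `D` the stabilizer of a point (`MulAction.equivQuotientStabilizer`-type), so by (2) `|D| * ∑_g θ g χ g = |G| * ∑_{d ∈ D} θ d = |G| * |D| * rank W^D` and `∑_g θ g = |G| * rank W^G` (`trace_fixS` with `g = 1`: `|S| * rank (fixS W S) = ∑_{s ∈ S} θ s`).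
`rank W^G ≤ rank W^D` (`W^G ⊆ W^D`, submodules of a free module).  So the right hand side of (3) is `N * |G| * (rank W^D - rank W^G) ≥ 0`.
-/

set_option autoImplicit false

noncomputable section

namespace Pool.Agent.ARC

open NumberField Pool.Agent.PGZ

private theorem FPI_card {G : Type*} [Group G] [Finite G] (H : Subgroup G) (g : G) :
    Nat.card {k : G // k⁻¹ * g * k ∈ H} = Nat.card H * Nat.card {x : G ⧸ H // g • x = x} := by
  have h := Nat.card_congr (QuotientGroup.preimageMkEquivSubgroupProdSet H {x : G ⧸ H | g • x = x})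
  rw [Nat.card_prod] at h
  refine Eq.trans ?_ h
  refine Nat.card_congr (Equiv.subtypeEquivRight fun k => ?_)
  show k⁻¹ * g * k ∈ H ↔ g • ((k : G) : G ⧸ H) = ((k : G) : G ⧸ H)
  rw [MulAction.Quotient.smul_coe, smul_eq_mul, eq_comm, QuotientGroup.eq, mul_assoc]

private theorem FPI_frob {G : Type*} [Group G] [Fintype G] (H : Subgroup G) (φ : G → ℂ)
    (hφ : ∀ x y, φ (x * y * x⁻¹) = φ y) :
    (Nat.card H : ℂ) * ∑ g, fH H g * φ g = (Fintype.card G : ℂ) * ∑ᶠ h : H, φ h := by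
  classical
  have h1 : ∀ g : G, (Nat.card H : ℂ) * fH H g =
      ∑ k : G, if k⁻¹ * g * k ∈ H then (1 : ℂ) else 0 := by
    intro g
    rw [fH, ← Nat.cast_mul, ← FPI_card, Nat.card_eq_fintype_card, Fintype.card_subtype,
      Finset.sum_boole]
  rw [Finset.mul_sum]
  simp_rw [← mul_assoc, h1, Finset.sum_mul]
  rw [Finset.sum_comm]
  have h2 : ∀ k : G, ∑ g : G, (if k⁻¹ * g * k ∈ H then (1 : ℂ) else 0) * φ g =
      ∑ᶠ h : H, φ h := by
    intro k
    rw [finsum_eq_sum_of_fintype]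
    have h3 : ∑ g : G, (if k⁻¹ * g * k ∈ H then (1 : ℂ) else 0) * φ g =
        ∑ g : G, if g ∈ H then φ g else 0 := by
      refine (Fintype.sum_equiv (MulAut.conj k).toEquiv _ _ ?_).symm
      intro g
      have e1 : (MulAut.conj k).toEquiv g = k * g * k⁻¹ := rfl
      have e2 : k⁻¹ * (k * g * k⁻¹) * k = g := by group
      rw [e1, e2, hφ]
      split_ifs <;> simp
    rw [h3, ← Finset.sum_filter]
    exact Finset.sum_subtype _ (fun x => by simp) φ
  rw [Finset.sum_congr rfl (fun k _ => h2 k), Finset.sum_const, Finset.card_univ, nsmul_eq_mul]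

private theorem FPI_rank {G : Type*} [Group G] [Finite G] {Λ : Type*} [AddCommGroup Λ]
    [DistribMulAction G Λ] [Module.Free ℤ Λ] [Module.Finite ℤ Λ] (S : Subgroup G) :
    (Nat.card S : ℤ) * (Module.finrank ℤ (fixS Λ S) : ℤ) =
      ∑ᶠ s : S, LinearMap.trace ℤ Λ (act Λ (s : G)) := by
  have h : ∀ x ∈ fixS Λ S, act Λ (1 : G) x ∈ fixS Λ S := by
    intro x hx
    rw [act_apply, one_smul]
    exact hx
  have h1 := trace_fixS S (1 : G) h
  have h2 : (act Λ (1 : G)).restrict h = LinearMap.id := by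
    ext x
    show (1 : G) • (x : Λ) = x
    exact one_smul _ _
  rw [h2, LinearMap.trace_id] at h1
  simpa only [one_mul] using h1

private theorem FPI_act_mul {G : Type*} [Group G] {Λ : Type*} [AddCommGroup Λ]
    [DistribMulAction G Λ] (x y : G) : act Λ (x * y) = act Λ x ∘ₗ act Λ y := by
  ext v
  exact mul_smul x y v

private theorem FPI_cls {G : Type*} [Group G] {Λ : Type*} [AddCommGroup Λ]
    [DistribMulAction G Λ] [Module.Free ℤ Λ] [Module.Finite ℤ Λ] (x y : G) : LinearMap.trace ℤ Λ (act Λ (x * y * x⁻¹)) =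
      LinearMap.trace ℤ Λ (act Λ y) := by
  rw [FPI_act_mul, LinearMap.trace_comp_comm', ← FPI_act_mul, ← mul_assoc, inv_mul_cancel, one_mul]

private theorem FPI_orb {F : Type} [Field F] [NumberField F] [IsGalois ℚ F]
    (H : Subgroup (F ≃ₐ[ℚ] F)) :
    (Nat.card H : ℂ) * (Fintype.card (InfinitePlace (KH H)) : ℂ) =
      ∑ᶠ h : H, (Nat.card {w : InfinitePlace F // (h : F ≃ₐ[ℚ] F) • w = w} : ℂ) := by
  classical
  haveI : Fintype (F ≃ₐ[KH H] F) := Fintype.ofFinite _
  haveI : Fintype (Quotient (MulAction.orbitRel (F ≃ₐ[KH H] F) (InfinitePlace F))) :=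
    Fintype.ofFinite _
  have h1 := MulAction.sum_card_fixedBy_eq_card_orbits_mul_card_group (F ≃ₐ[KH H] F)
    (InfinitePlace F)
  have h2 : Fintype.card (Quotient (MulAction.orbitRel (F ≃ₐ[KH H] F) (InfinitePlace F))) =
      Fintype.card (InfinitePlace (KH H)) := Fintype.card_congr InfinitePlace.orbitRelEquiv
  have h3 : Fintype.card (F ≃ₐ[KH H] F) = Nat.card H := by
    rw [← Nat.card_eq_fintype_card]
    exact (Nat.card_congr (IntermediateField.subgroupEquivAlgEquiv H).toEquiv).symm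
  rw [h2, h3] at h1
  rw [← Nat.cast_mul, mul_comm (Nat.card H), ← h1, finsum_eq_sum_of_fintype, Nat.cast_sum]
  refine (Fintype.sum_equiv (IntermediateField.subgroupEquivAlgEquiv H).toEquiv _ _ ?_).symm
  intro h
  congr 1
  rw [← Nat.card_eq_fintype_card]
  rfl

private theorem FPI_chi {F : Type} [Field F] [NumberField F] [IsGalois ℚ F] (w₀ : InfinitePlace F)
    (g : F ≃ₐ[ℚ] F) :
    (Nat.card {w : InfinitePlace F // g • w = w} : ℂ) =
      fH (MulAction.stabilizer (F ≃ₐ[ℚ] F) w₀) g := by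
  unfold fH
  congr 1
  refine (Nat.card_congr (Equiv.subtypeEquiv (Equiv.ofBijective
    (MulAction.ofQuotientStabilizer (F ≃ₐ[ℚ] F) w₀) ⟨MulAction.injective_ofQuotientStabilizer _ _,
      ?_⟩) ?_)).symm
  · intro w
    obtain ⟨σ, hσ⟩ := InfinitePlace.exists_smul_eq_of_comap_eq (k := ℚ) (w := w₀) (w' := w)
      (Subsingleton.elim _ _)
    exact ⟨QuotientGroup.mk σ, hσ⟩
  · intro x
    show g • x = x ↔ g • MulAction.ofQuotientStabilizer (F ≃ₐ[ℚ] F) w₀ x =
      MulAction.ofQuotientStabilizer (F ≃ₐ[ℚ] F) w₀ x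
    rw [← MulAction.ofQuotientStabilizer_smul]
    exact (MulAction.injective_ofQuotientStabilizer _ _).eq_iff.symm

theorem fpi (F : Type) [Field F] [NumberField F] [IsGalois ℚ F] (W : Type)
    [AddCommGroup W] [Module.Free ℤ W] [Module.Finite ℤ W] [DistribMulAction (F ≃ₐ[ℚ] F) W] (N : ℕ)
    {J : Type} [Fintype J] (H : J → Subgroup (F ≃ₐ[ℚ] F)) (a : J → ℤ)
    (hθ : ∀ g : F ≃ₐ[ℚ] F, (N : ℂ) * ((LinearMap.trace ℤ W (act W g) : ℤ) : ℂ) =
      ∑ j, (a j : ℂ) * fH (H j) g) :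
    0 ≤ ∑ j, a j * ((Fintype.card (InfinitePlace (KH (H j))) : ℤ) - 1) := by
  classical
  haveI : Fintype (F ≃ₐ[ℚ] F) := Fintype.ofFinite _
  obtain ⟨w₀⟩ : Nonempty (InfinitePlace F) := inferInstance
  set D := MulAction.stabilizer (F ≃ₐ[ℚ] F) w₀ with hD
  set G0 : ℂ := (Fintype.card (F ≃ₐ[ℚ] F) : ℂ) with hG0
  have hG : G0 ≠ 0 := by
    rw [hG0]
    exact_mod_cast Fintype.card_ne_zero
  have hcard : ∀ K : Subgroup (F ≃ₐ[ℚ] F), (Nat.card K : ℂ) ≠ 0 := fun K => by
    exact_mod_cast Nat.card_pos.ne'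
  set θ : (F ≃ₐ[ℚ] F) → ℂ := fun g => ((LinearMap.trace ℤ W (act W g) : ℤ) : ℂ) with hθd
  have hcls : ∀ x y, θ (x * y * x⁻¹) = θ y := fun x y => by
    rw [hθd]
    show ((LinearMap.trace ℤ W (act W (x * y * x⁻¹)) : ℤ) : ℂ) = _
    rw [FPI_cls]
  have hfcls : ∀ x y, fH D (x * y * x⁻¹) = fH D y := fun x y => by
    rw [fH_comm, ← mul_assoc, inv_mul_cancel, one_mul]
  -- the number of places
  have hA : ∀ K : Subgroup (F ≃ₐ[ℚ] F), G0 * ((Fintype.card (InfinitePlace (KH K)) : ℂ) - 1) =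
      ∑ g, fH K g * (fH D g - 1) := by
    intro K
    have h1 := FPI_frob K (fun g => fH D g - 1) (fun x y => by rw [hfcls])
    have h2 := FPI_orb K
    have h3 : ∑ᶠ h : K, (fH D (h : F ≃ₐ[ℚ] F) - 1) =
        (Nat.card K : ℂ) * ((Fintype.card (InfinitePlace (KH K)) : ℂ) - 1) := by
      rw [mul_sub, h2, finsum_eq_sum_of_fintype, finsum_eq_sum_of_fintype, Finset.sum_sub_distrib]
      congr 1
      · refine Finset.sum_congr rfl (fun h _ => ?_)
        rw [FPI_chi w₀]
      · rw [Finset.sum_const, Finset.card_univ, nsmul_eq_mul, Nat.card_eq_fintype_card]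
    rw [h3] at h1
    refine mul_left_cancel₀ (hcard K) ?_
    rw [h1]
    ring
  have hB : ∀ K : Subgroup (F ≃ₐ[ℚ] F), ∑ᶠ h : K, θ h =
      (Nat.card K : ℂ) * (Module.finrank ℤ (fixS W K) : ℂ) := by
    intro K
    have h1 := FPI_rank (Λ := W) K
    have h2 := congrArg (Int.cast : ℤ → ℂ) h1
    rw [Int.cast_mul, Int.cast_natCast, Int.cast_natCast] at h2
    rw [h2, finsum_eq_sum_of_fintype, finsum_eq_sum_of_fintype, Int.cast_sum]
  have hC : ∑ g, fH D g * θ g = G0 * (Module.finrank ℤ (fixS W D) : ℂ) := by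
    have h1 := FPI_frob D θ hcls
    rw [hB D] at h1
    refine mul_left_cancel₀ (hcard D) ?_
    rw [h1]
    ring
  have hE : ∑ g, θ g = G0 * (Module.finrank ℤ (fixS W (⊤ : Subgroup (F ≃ₐ[ℚ] F))) : ℂ) := by
    have h1 := hB ⊤
    rw [finsum_eq_sum_of_fintype] at h1
    have h2 : (Nat.card (⊤ : Subgroup (F ≃ₐ[ℚ] F)) : ℂ) = G0 := by
      rw [hG0, ← Nat.card_eq_fintype_card, Subgroup.card_top]
    rw [h2] at h1
    rw [← h1]
    exact Fintype.sum_equiv Subgroup.topEquiv.symm.toEquiv _ _ (fun g => rfl)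
  have hT : G0 * (∑ j, (a j : ℂ) * ((Fintype.card (InfinitePlace (KH (H j))) : ℂ) - 1)) =
      G0 * ((N : ℂ) * ((Module.finrank ℤ (fixS W D) : ℂ) -
        (Module.finrank ℤ (fixS W (⊤ : Subgroup (F ≃ₐ[ℚ] F))) : ℂ))) := by
    calc G0 * (∑ j, (a j : ℂ) * ((Fintype.card (InfinitePlace (KH (H j))) : ℂ) - 1))
        = ∑ j, (a j : ℂ) * ∑ g, fH (H j) g * (fH D g - 1) := by
          rw [Finset.mul_sum]
          refine Finset.sum_congr rfl (fun j _ => ?_)
          rw [← hA]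
          ring
      _ = ∑ g, (∑ j, (a j : ℂ) * fH (H j) g) * (fH D g - 1) := by
          simp_rw [Finset.mul_sum, Finset.sum_mul]
          rw [Finset.sum_comm]
          refine Finset.sum_congr rfl (fun g _ => Finset.sum_congr rfl (fun j _ => ?_))
          ring
      _ = (N : ℂ) * (∑ g, fH D g * θ g - ∑ g, θ g) := by
          rw [← Finset.sum_sub_distrib, Finset.mul_sum]
          refine Finset.sum_congr rfl (fun g _ => ?_)
          rw [← hθ g]
          ring
      _ = _ := by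
          rw [hC, hE]
          ring
  have hU := mul_left_cancel₀ hG hT
  have hV : (∑ j, a j * ((Fintype.card (InfinitePlace (KH (H j))) : ℤ) - 1) : ℤ) =
      (N : ℤ) * ((Module.finrank ℤ (fixS W D) : ℤ) -
        (Module.finrank ℤ (fixS W (⊤ : Subgroup (F ≃ₐ[ℚ] F))) : ℤ)) := by
    exact_mod_cast hU
  rw [hV]
  have hle : fixS W (⊤ : Subgroup (F ≃ₐ[ℚ] F)) ≤ fixS W D := fun x hx g _ =>
    hx g (Subgroup.mem_top g)
  have hfr := Submodule.finrank_mono hle
  have : (0 : ℤ) ≤ (Module.finrank ℤ (fixS W D) : ℤ) -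
        (Module.finrank ℤ (fixS W (⊤ : Subgroup (F ≃ₐ[ℚ] F))) : ℤ) := by
    have := (Nat.cast_le (α := ℤ)).2 hfr
    linarith
  positivity

end Pool.Agent.ARC
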