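import Pool.Agent.ARC.FHB
import Pool.Agent.ARC.FFP
import Pool.Agent.ARC.FFZ
import Pool.Agent.ARC.FHD
import Pool.Agent.ARC.FPI
import Pool.Agent.ARC.FBI
import Pool.Agent.ARC.FRI

/-! # ARC / FAS: the criterion

`θ g = trace (act W g)`.  `brauer`: `J, H, psi, z`; `heilb`: `N', J', H', psi', a'`; `artinQ`: `N, I, H'', a`.  `fur`: `m₀`; `ray_euler'` for all `(H j, psi j)`, `(H' j, psi' j)`: moduli; `m :=` the product of all of them (`≠ 0`, a multiple of each: `Finset.dvd_prod_of_mem`); `D j`, `D' j` with `RayE F m (indC ..) ..`.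
`m₀ ∣ m`, so `hm` of `ffp` holds.  `S := ` the finset of primes dividing `m` (`Nat.Primes`: finite, `Set.Finite.toFinset`, e.g. the preimage of `m.primeFactors` under the injective coercion).  `P₀, σ₀` from `fex`; `B p := BB ..` is entire and non-zero off `re s = 0` (`fle`).
Put `μ w := ∑_j z_j od (D j) w - ∑_{p ∈ S} od (B p) w`.  Claim: `0 ≤ μ w` for all `w ≠ 1`.
 `re w ≠ 0`: `od (B p) w = 0` (`od_eq_zero`, `fle`), `fhb`.
 (Z) for `w ≠ 1`: `N μ w = ∑_i a_i od (HDed (KH (H'' i))) w`: for `re s > 1` the value `v` of the complete product (family `P₀, σ₀`) is given by `ffp` and by `ffz` (`HasProd.unique`): `(∏ (D j s/(s-1))^{z_j} ∏ (B p s)⁻¹)^N = ∏ (HDed s / (s-1))^{a_i}`; `frl` for the family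
   `J ⊕ S ⊕ I` with exponents `N z_j`, `-N`, `-a_i` (`fpl_ne`, `fle`, `ded_ne` for the non-vanishing, `fhd_ent`).
 `re w = 0`, `w ≠ 0`: (Z) at `w` and at `1 - w` (`1 - w ≠ 1`), `fhd_im`: `N μ w = N μ (1 - w) ≥ 0` by the first case (`re (1 - w) = 1`).
 `w = 0`: (Z), `fhd_zero`: `N μ 0 = ∑ a_i (card (InfinitePlace ..) - 1) ≥ 0` (`fpi`).
Now `r := ∑_{p} od (B p) 1 + ∑_j zm_j od (D j) 1`, `f := (∏ D j ^ zp_j) * (s - 1) ^ r`, `g := (∏ D j ^ zm_j) * ∏ B p` (`zp_j = (z_j).toNat`, `zm_j = (-z_j).toNat`): `od g w ≤ od f w` for all `w`; `entire_quot`: `q`, `f = g q`.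
For `re s > 1` the value in `ffp` is `f / (g (s-1)^r) * (s-1)^(-k) = q s * (s - 1) ^ (-(r + k))`, `k = ∑ z_j`.  `n := r + k.natAbs`, `D s := q s * (s - 1) ^ (n - (r + k)).toNat`.
-/

set_option autoImplicit false

noncomputable section

namespace Pool.Agent.ARC

open NumberField Pool.Agent.PGZ

private theorem FAS_zsum {J : Type*} (s : Finset J) (z : J → ℤ) (u : ℂ) (hu : u ≠ 0) :
    ∏ j ∈ s, u ^ (z j) = u ^ (∑ j ∈ s, z j) := by
  classical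
  induction s using Finset.induction_on with
  | empty => simp
  | insert a s ha ih => rw [Finset.prod_insert ha, Finset.sum_insert ha, ih, zpow_add₀ hu]

private theorem FAS_div {J : Type*} [Fintype J] (x : J → ℂ) (z : J → ℤ) (u : ℂ) (hu : u ≠ 0) :
    ∏ j, (x j / u) ^ (z j) = (∏ j, x j ^ (z j)) * u ^ (-∑ j, z j) := by
  rw [zpow_neg, ← FAS_zsum _ _ _ hu, ← div_eq_mul_inv, ← Finset.prod_div_distrib]
  exact Finset.prod_congr rfl fun j _ => div_zpow _ _ _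

private theorem FAS_pow {J : Type*} [Fintype J] (x : J → ℂ) (z : J → ℤ) (N : ℕ) :
    (∏ j, x j ^ (z j)) ^ N = ∏ j, x j ^ ((N : ℤ) * z j) := by
  rw [← Finset.prod_pow]
  refine Finset.prod_congr rfl fun j _ => ?_
  rw [← zpow_natCast, ← zpow_mul, mul_comm]

private theorem FAS_Z {J I P : Type} [Fintype J] [Fintype I] (S : Finset P) (D : J → ℂ → ℂ)
    (B : P → ℂ → ℂ) (E : I → ℂ → ℂ) (hD : ∀ j, Ent (D j)) (hD0 : ∀ j (s : ℂ), 1 < s.re → D j s ≠ 0)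
    (hB : ∀ p, Ent (B p)) (hB0 : ∀ p (s : ℂ), 1 < s.re → B p s ≠ 0)
    (hE : ∀ i, Ent (E i)) (hE0 : ∀ i (s : ℂ), 1 < s.re → E i s ≠ 0) (z : J → ℤ) (a : I → ℤ) (N : ℕ)
    (h : ∀ s : ℂ, 1 < s.re → ((∏ j, (D j s / (s - 1)) ^ (z j)) * ∏ p ∈ S, (B p s)⁻¹) ^ N =
      ∏ i, (E i s / (s - 1)) ^ (a i)) (w : ℂ) (hw : w ≠ 1) :
    (N : ℤ) * (∑ j, z j * (od (D j) w : ℤ) - ∑ p ∈ S, (od (B p) w : ℤ)) =
      ∑ i, a i * (od (E i) w : ℤ) := by
  classical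
  have key := frl (J := J ⊕ (S ⊕ I))
    (Sum.elim D (Sum.elim (fun p : S => B p.1) E))
    (by
      rintro (j | p | i)
      · exact hD j
      · exact hB p.1
      · exact hE i)
    (by
      rintro (j | p | i) s hs
      · exact hD0 j s hs
      · exact hB0 p.1 s hs
      · exact hE0 i s hs)
    (Sum.elim (fun j => (N : ℤ) * z j) (Sum.elim (fun _ => -(N : ℤ)) (fun i => -a i)))
    (∑ i, a i - (N : ℤ) * ∑ j, z j)
    (by
      intro s hs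
      have hu : s - 1 ≠ 0 := by
        intro h0
        rw [sub_eq_zero] at h0
        rw [h0] at hs
        simp at hs
      have h1 := h s hs
      rw [FAS_div _ _ _ hu, FAS_div _ _ _ hu, mul_pow, mul_pow, FAS_pow] at h1
      rw [Fintype.prod_sum_type, Fintype.prod_sum_type]
      simp only [Sum.elim_inl, Sum.elim_inr]
      have h2 : ∏ p : S, B p.1 s ^ (-(N : ℤ)) = (∏ p ∈ S, (B p s)⁻¹) ^ N := by
        rw [← Finset.prod_pow, ← Finset.prod_coe_sort S]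
        refine Finset.prod_congr rfl fun p _ => ?_
        rw [zpow_neg, zpow_natCast, inv_pow]
      have h3 : ∏ i, E i s ^ (-a i) = (∏ i, E i s ^ (a i))⁻¹ := by
        rw [← Finset.prod_inv_distrib]
        exact Finset.prod_congr rfl fun i _ => zpow_neg _ _
      have h4 : (s - 1) ^ (∑ i, a i - (N : ℤ) * ∑ j, z j) =
          ((s - 1) ^ (-∑ i, a i))⁻¹ * ((s - 1) ^ (-∑ j, z j)) ^ N := by
        rw [zpow_neg, inv_inv, ← zpow_natCast, ← zpow_mul, ← zpow_add₀ hu]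
        congr 1
        ring
      have h5 : (∏ i, E i s ^ (a i)) ≠ 0 :=
        Finset.prod_ne_zero_iff.2 fun i _ => zpow_ne_zero _ (hE0 i s hs)
      have h6 : ((s - 1) ^ (-∑ i, a i)) ≠ 0 := zpow_ne_zero _ hu
      rw [h2, h3, h4]
      calc _ = ((∏ j, D j s ^ ((N : ℤ) * z j)) * ((s - 1) ^ (-∑ j, z j)) ^ N *
            (∏ p ∈ S, (B p s)⁻¹) ^ N) * ((∏ i, E i s ^ (a i)) * (s - 1) ^ (-∑ i, a i))⁻¹ := by
            rw [mul_inv]; ring
        _ = 1 := by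
            rw [h1]
            exact mul_inv_cancel₀ (mul_ne_zero h5 h6)) w hw
  rw [Fintype.sum_sum_type, Fintype.sum_sum_type] at key
  simp only [Sum.elim_inl, Sum.elim_inr] at key
  have k2 : ∑ p : S, -(N : ℤ) * (od (B p.1) w : ℤ) = -(N : ℤ) * ∑ p ∈ S, (od (B p) w : ℤ) := by
    rw [← Finset.mul_sum, ← Finset.sum_coe_sort S]
  have k1 : ∑ j, (N : ℤ) * z j * (od (D j) w : ℤ) = (N : ℤ) * ∑ j, z j * (od (D j) w : ℤ) := by
    rw [Finset.mul_sum]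
    exact Finset.sum_congr rfl fun j _ => by ring
  have k3 : ∑ i, -a i * (od (E i) w : ℤ) = -∑ i, a i * (od (E i) w : ℤ) := by
    rw [← Finset.sum_neg_distrib]
    exact Finset.sum_congr rfl fun j _ => by ring
  rw [k1, k2, k3] at key
  linarith

private theorem FAS_fin {J P : Type} [Fintype J] (S : Finset P) (D : J → ℂ → ℂ)
    (B : P → ℂ → ℂ) (hD : ∀ j, Ent (D j)) (hD0 : ∀ j (s : ℂ), 1 < s.re → D j s ≠ 0)
    (hB : ∀ p, Ent (B p)) (hB0 : ∀ p (s : ℂ), 1 < s.re → B p s ≠ 0) (z : J → ℤ)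
    (hmu : ∀ w : ℂ, w ≠ 1 → 0 ≤ ∑ j, z j * (od (D j) w : ℤ) - ∑ p ∈ S, (od (B p) w : ℤ)) :
    ∃ (Q : ℂ → ℂ) (n : ℕ), Differentiable ℂ Q ∧ ∀ s : ℂ, 1 < s.re →
      (∏ j, (D j s / (s - 1)) ^ (z j)) * ∏ p ∈ S, (B p s)⁻¹ = Q s / (s - 1) ^ n := by
  classical
  obtain ⟨r, hr⟩ : ∃ r : ℕ, r = ∑ p ∈ S, od (B p) 1 + ∑ j, (-z j).toNat * od (D j) 1 := ⟨_, rfl⟩
  have hf1 : Ent (fun s => ∏ j, (fun j s => D j s ^ (z j).toNat) j s) :=
    Ent.prod Finset.univ fun j => (hD j).pow _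
  have hf2 : Ent (fun s : ℂ => (s - 1) ^ r) := Ent.sub_pow 1 r
  have hf : Ent (fun s => (∏ j, (fun j s => D j s ^ (z j).toNat) j s) * (s - 1) ^ r) := hf1.mul hf2
  have hg1 : Ent (fun s => ∏ j, (fun j s => D j s ^ (-z j).toNat) j s) :=
    Ent.prod Finset.univ fun j => (hD j).pow _
  have hg2 : Ent (fun s => ∏ p ∈ S, B p s) := Ent.prod S hB
  have hg : Ent (fun s => (∏ j, (fun j s => D j s ^ (-z j).toNat) j s) * ∏ p ∈ S, B p s) :=
    hg1.mul hg2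
  have hle : ∀ w, od (fun s => (∏ j, (fun j s => D j s ^ (-z j).toNat) j s) * ∏ p ∈ S, B p s) w ≤
      od (fun s => (∏ j, (fun j s => D j s ^ (z j).toNat) j s) * (s - 1) ^ r) w := by
    intro w
    rw [od_mul hg1 hg2, od_mul hf1 hf2, od_prod _ (fun j => (hD j).pow _),
      od_prod _ (fun j => (hD j).pow _), od_prod _ hB, od_sub_pow]
    simp only [od_pow (hD _)]
    by_cases hw : w = 1
    · rw [if_pos hw, hw, hr]
      omega
    · rw [if_neg hw, add_zero]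
      have h1 := hmu w hw
      have h2 : ∑ j, z j * (od (D j) w : ℤ) =
          ((∑ j, (z j).toNat * od (D j) w : ℕ) : ℤ) - ((∑ j, (-z j).toNat * od (D j) w : ℕ) : ℤ) := by
        push_cast
        rw [← Finset.sum_sub_distrib]
        refine Finset.sum_congr rfl fun j _ => ?_
        rw [← sub_mul]
        congr 1
        omega
      have h3 : ∑ p ∈ S, (od (B p) w : ℤ) = ((∑ p ∈ S, od (B p) w : ℕ) : ℤ) := by
        push_cast
        rfl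
      rw [h2, h3] at h1
      omega
  obtain ⟨q, hq, hfq⟩ := entire_quot hf hg hle
  obtain ⟨k, hk⟩ : ∃ k : ℤ, k = ∑ j, z j := ⟨_, rfl⟩
  refine ⟨fun s => q s * (s - 1) ^ ((k.natAbs : ℤ) - k).toNat, r + k.natAbs, ?_, ?_⟩
  · exact hq.mul ((differentiable_id.sub_const 1).pow _)
  · intro s hs
    have hu : s - 1 ≠ 0 := by
      intro h0
      rw [sub_eq_zero] at h0
      rw [h0] at hs
      simp at hs
    have e1 := hfq s
    simp only at e1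
    have hBn : ∏ p ∈ S, B p s ≠ 0 := Finset.prod_ne_zero_iff.2 fun p _ => hB0 p s hs
    have hDn : ∏ j, D j s ^ (-z j).toNat ≠ 0 :=
      Finset.prod_ne_zero_iff.2 fun j _ => pow_ne_zero _ (hD0 j s hs)
    have e2 : ∏ j, D j s ^ (z j) = (∏ j, D j s ^ (z j).toNat) * (∏ j, D j s ^ (-z j).toNat)⁻¹ := by
      rw [← Finset.prod_inv_distrib, ← Finset.prod_mul_distrib]
      refine Finset.prod_congr rfl fun j _ => ?_
      rw [← zpow_natCast, ← zpow_natCast, ← zpow_neg, ← zpow_add₀ (hD0 j s hs)]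
      congr 1
      omega
    have e3 : (s - 1) ^ ((k.natAbs : ℤ) - k).toNat = (s - 1) ^ k.natAbs * (s - 1) ^ (-k) := by
      rw [← zpow_natCast, ← zpow_natCast, ← zpow_add₀ hu]
      congr 1
      omega
    change _ = q s * (s - 1) ^ ((k.natAbs : ℤ) - k).toNat / (s - 1) ^ (r + k.natAbs)
    rw [FAS_div _ _ _ hu, ← hk, e2, Finset.prod_inv_distrib, e3]
    rw [div_eq_mul_inv, pow_add, mul_inv]
    have e4 : q s = (∏ j, D j s ^ (z j).toNat) * (s - 1) ^ r *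
        ((∏ j, D j s ^ (-z j).toNat)⁻¹ * (∏ p ∈ S, B p s)⁻¹) := by
      rw [e1]
      field_simp
    rw [e4]
    have h1 : (s - 1) ^ r ≠ 0 := pow_ne_zero _ hu
    have h2 : (s - 1) ^ k.natAbs ≠ 0 := pow_ne_zero _ hu
    field_simp

theorem criterion (F : Type) [Field F] [NumberField F] [IsGalois ℚ F] (W : Type) [AddCommGroup W]
    [Module.Free ℤ W] [Module.Finite ℤ W] [DistribMulAction (F ≃ₐ[ℚ] F) W]
    (hW : (∑ᶠ g : {g : F ≃ₐ[ℚ] F // g ≠ 1}, |LinearMap.trace ℤ W (act W g.1)|) ≤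
      LinearMap.trace ℤ W (act W (1 : F ≃ₐ[ℚ] F))) :
    ∃ (D : ℂ → ℂ) (n : ℕ), Differentiable ℂ D ∧
      ∀ (P : Nat.Primes → Ideal (𝓞 F)) (σ : Nat.Primes → (F ≃ₐ[ℚ] F))
        (hP : ∀ p, (P p).IsPrime) (_ : ∀ p : Nat.Primes, ((p : ℕ) : 𝓞 F) ∈ P p)
        (hσ : ∀ p, IsArithFrobAt ℤ (σ p) (P p)) (s : ℂ), 1 < s.re →
        HasProd (fun p : Nat.Primes => euler W (hP p) (hσ p) ((p : ℂ) ^ (-s)))
          (D s / (s - 1) ^ n) := by
  classical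
  obtain ⟨J, hJ, H, psi, z, hz⟩ := brauer (F ≃ₐ[ℚ] F) W
  obtain ⟨N', hN', J', hJ', H', psi', a', ha'⟩ := heilb (F ≃ₐ[ℚ] F) W hW
  obtain ⟨N, hN, I, hI, H'', a, hθ⟩ := artinQ (F ≃ₐ[ℚ] F) W
  obtain ⟨m₀, hm₀, hfur⟩ := fur F
  choose mj hmj hD using fun j => ray_euler' F (H j) (psi j)
  choose mj' hmj' hD' using fun j => ray_euler' F (H' j) (psi' j)
  obtain ⟨m, hmdef⟩ : ∃ m : ℕ, m = m₀ * (∏ j, mj j) * ∏ j, mj' j := ⟨_, rfl⟩
  have hm : m ≠ 0 := by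
    rw [hmdef]
    exact mul_ne_zero (mul_ne_zero hm₀ (Finset.prod_ne_zero_iff.2 fun j _ => hmj j))
      (Finset.prod_ne_zero_iff.2 fun j _ => hmj' j)
  have hd0 : m₀ ∣ m := by
    rw [hmdef, mul_assoc]
    exact dvd_mul_right _ _
  have hdj : ∀ j, mj j ∣ m := by
    intro j
    rw [hmdef]
    exact Dvd.dvd.mul_right ((Finset.dvd_prod_of_mem _ (Finset.mem_univ j)).mul_left _) _
  have hdj' : ∀ j, mj' j ∣ m := by
    intro j
    rw [hmdef]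
    exact (Finset.dvd_prod_of_mem _ (Finset.mem_univ j)).mul_left _
  choose D hDD using fun j => hD j m hm (hdj j)
  choose D' hDD' using fun j => hD' j m hm (hdj' j)
  have hR : ∀ j, RayE F m (indC (H j) fun h => (psi j h : ℂ)) (D j) := fun j => hDD j
  have hR' : ∀ j, RayE F m (indC (H' j) fun h => (psi' j h : ℂ)) (D' j) := fun j => hDD' j
  have hfin : {p : Nat.Primes | (p : ℕ) ∣ m}.Finite := by
    refine ((Nat.divisors m).finite_toSet.preimage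
      Subtype.coe_injective.injOn).subset ?_
    intro p hp
    rw [Set.mem_preimage, Finset.mem_coe, Nat.mem_divisors]
    exact ⟨hp, hm⟩
  obtain ⟨S, hS⟩ : ∃ S : Finset Nat.Primes, ∀ p, p ∈ S ↔ (p : ℕ) ∣ m :=
    ⟨hfin.toFinset, fun p => by rw [Set.Finite.mem_toFinset]; rfl⟩
  obtain ⟨P₀, σ₀, hP₀, hpP₀, hσ₀⟩ := fex F
  have hB : ∀ p, Ent (BB F W P₀ σ₀ hP₀ hσ₀ p) := fun p =>
    (fle ((P₀ p).inertia (F ≃ₐ[ℚ] F)) (σ₀ p)⁻¹ (frob_fix W (hP₀ p) (hσ₀ p)) p p.2).1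
  have hB0 : ∀ p (s : ℂ), s.re ≠ 0 → BB F W P₀ σ₀ hP₀ hσ₀ p s ≠ 0 := fun p =>
    (fle ((P₀ p).inertia (F ≃ₐ[ℚ] F)) (σ₀ p)⁻¹ (frob_fix W (hP₀ p) (hσ₀ p)) p p.2).2
  have hB1 : ∀ p (s : ℂ), 1 < s.re → BB F W P₀ σ₀ hP₀ hσ₀ p s ≠ 0 := fun p s hs =>
    hB0 p s (by linarith [hs] : s.re ≠ 0)
  have hDE : ∀ j, Ent (D j) := fun j => (fpl_ne F m _ _ (hR j)).1
  have hD0 : ∀ j (s : ℂ), 1 < s.re → D j s ≠ 0 := fun j => (fpl_ne F m _ _ (hR j)).2
  have hffp := fun (P : Nat.Primes → Ideal (𝓞 F)) (σ : Nat.Primes → (F ≃ₐ[ℚ] F))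
      (hP : ∀ p, (P p).IsPrime) (hpP : ∀ p : Nat.Primes, ((p : ℕ) : 𝓞 F) ∈ P p)
      (hσ : ∀ p, IsArithFrobAt ℤ (σ p) (P p)) (s : ℂ) (hs : 1 < s.re) =>
    ffp F W N hN H'' a hθ m hm (fun p P hp hpm hP hpP => hfur p P hp
      (fun h => hpm (h.trans hd0)) hP hpP) S hS _ D hR z hz P₀ σ₀ hP₀ hpP₀ hσ₀ P σ hP hpP hσ s hs
  have hZ : ∀ w : ℂ, w ≠ 1 → (N : ℤ) * (∑ j, z j * (od (D j) w : ℤ) -
      ∑ p ∈ S, (od (BB F W P₀ σ₀ hP₀ hσ₀ p) w : ℤ)) =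
      ∑ i, a i * (od (Helper4.HDed (KH (H'' i))) w : ℤ) := by
    intro w hw
    refine FAS_Z S D (fun p => BB F W P₀ σ₀ hP₀ hσ₀ p) (fun i => Helper4.HDed (KH (H'' i))) hDE hD0
      hB hB1 (fun i => fhd_ent _) (fun i s hs => ded_ne F (H'' i) s hs) z a N ?_ w hw
    intro s hs
    obtain ⟨v, hv0, hv, hvN⟩ := ffz F W N hN H'' a hθ P₀ σ₀ hP₀ hpP₀ hσ₀ s hs
    have h1 := hffp P₀ σ₀ hP₀ hpP₀ hσ₀ s hs
    rw [← hvN, h1.unique hv]
  have hmu1 : ∀ w : ℂ, w ≠ 1 → w.re ≠ 0 → 0 ≤ ∑ j, z j * (od (D j) w : ℤ) -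
      ∑ p ∈ S, (od (BB F W P₀ σ₀ hP₀ hσ₀ p) w : ℤ) := by
    intro w hw hwre
    have h1 : ∑ p ∈ S, (od (BB F W P₀ σ₀ hP₀ hσ₀ p) w : ℤ) = 0 := by
      refine Finset.sum_eq_zero fun p _ => ?_
      rw [(od_eq_zero (hB p)).2 (hB0 p w hwre)]
      rfl
    rw [h1, sub_zero]
    refine fhb F m (fun j => indC (H j) fun h => (psi j h : ℂ)) D hR z
      (fun j => indC (H' j) fun h => (psi' j h : ℂ)) D' hR' a' N' hN' ?_ w hw
    intro x
    rw [← hz x]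
    exact ha' x
  have hNpos : (0 : ℤ) < (N : ℤ) := by exact_mod_cast hN
  have hmu : ∀ w : ℂ, w ≠ 1 → 0 ≤ ∑ j, z j * (od (D j) w : ℤ) -
      ∑ p ∈ S, (od (BB F W P₀ σ₀ hP₀ hσ₀ p) w : ℤ) := by
    intro w hw
    by_cases hre : w.re = 0
    · by_cases hw0 : w = 0
      · refine nonneg_of_mul_nonneg_right ?_ hNpos
        rw [hZ w hw, hw0]
        have h1 := fpi F W N H'' a hθ
        refine h1.trans (le_of_eq (Finset.sum_congr rfl fun i _ => ?_))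
        have h2 := fhd_zero (KH (H'' i))
        rw [← h2]
        push_cast
        ring
      · refine nonneg_of_mul_nonneg_right ?_ hNpos
        rw [hZ w hw]
        have h1 : ∑ i, a i * (od (Helper4.HDed (KH (H'' i))) w : ℤ) =
            ∑ i, a i * (od (Helper4.HDed (KH (H'' i))) (1 - w) : ℤ) :=
          Finset.sum_congr rfl fun i _ => by rw [fhd_im _ w hre hw0]
        have h2 : (1 : ℂ) - w ≠ 1 := by
          intro h
          apply hw0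
          linear_combination -h
        rw [h1, ← hZ (1 - w) h2]
        refine mul_nonneg hNpos.le (hmu1 _ h2 ?_)
        rw [Complex.sub_re, hre]
        simp
    · exact hmu1 w hw hre
  obtain ⟨Q, n, hQ, hQs⟩ := FAS_fin S D (fun p => BB F W P₀ σ₀ hP₀ hσ₀ p) hDE hD0 hB hB1 z hmu
  refine ⟨Q, n, hQ, fun P σ hP hpP hσ s hs => ?_⟩
  have h1 := hffp P σ hP hpP hσ s hs
  rw [hQs s hs] at h1
  exact h1

end Pool.Agent.ARC
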