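import Pool.Agent.ARC.FPL

/-! # ARC / FHB: relations between entire functions; Heilbronn's inequality

`frl`: let `zp j = (z j).toNat`, `zm j = (-z j).toNat` and `k = kp - km`.  The entire functions `(∏ E j ^ zp j) * (s - 1) ^ kp` and `(∏ E j ^ zm j) * (s - 1) ^ km` agree for `re s > 1` (multiply the hypothesis; `s ≠ 1`), so they are equal (`half_eq`).  Compare the orders at `w ≠ 1` (`od_prod`, `od_pow`, `od_mul`, `od_sub_pow`).
`fhb`: `θ = ∑ z_j f_j`, `N θ = ∑ a_i f'_i`.  Take `P, σ` from `fex`.  For `re s > 1`: `v := ∏ (D j s / (s-1)) ^ z_j` is the value of the partial product of `θ` (`fpl`).  `N θ`: `EE_nsmul'`, so `v ^ N` is the value of the partial product of `N θ = ∑ a_i f'_i`, which by `fpl` is `∏ (D' i s / (s - 1)) ^ (a i)` (`HasProd.unique`).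
So `∏ (D j s) ^ (N z_j) * ∏ (D' i s) ^ (- a_i) * (s - 1) ^ k = 1`; `frl` for `J ⊕ J'`: `N ∑ z_j od (D j) w = ∑ a_i od (D' i) w ≥ 0`.
-/

set_option autoImplicit false

noncomputable section

namespace Pool.Agent.ARC

open NumberField Pool.Agent.PGZ

private theorem FHB_s1 {s : ℂ} (hs : 1 < s.re) : s - 1 ≠ 0 := by
  intro h
  have h1 : s = 1 := sub_eq_zero.1 h
  rw [h1, Complex.one_re] at hs
  exact lt_irrefl _ hs

private theorem FHB_zpow {a : ℂ} (ha : a ≠ 0) (n : ℤ) : a ^ n = a ^ n.toNat / a ^ (-n).toNat := by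
  conv_lhs => rw [← Int.toNat_sub_toNat_neg n]
  rw [zpow_sub₀ ha, zpow_natCast, zpow_natCast]

private theorem FHB_norm (p : Nat.Primes) {s : ℂ} (hs : 1 < s.re) : ‖((p : ℕ) : ℂ) ^ (-s)‖ < 1 := by
  have hp : (1 : ℝ) < ((p : ℕ) : ℝ) := by exact_mod_cast p.2.one_lt
  have hp0 : 0 < (p : ℕ) := p.2.pos
  rw [Complex.norm_natCast_cpow_of_pos hp0, Complex.neg_re]
  exact Real.rpow_lt_one_of_one_lt_of_neg hp (by linarith)

theorem frl {J : Type*} [Fintype J] (E : J → ℂ → ℂ) (hE : ∀ j, Ent (E j))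
    (h0 : ∀ j (s : ℂ), 1 < s.re → E j s ≠ 0) (z : J → ℤ) (k : ℤ)
    (h : ∀ s : ℂ, 1 < s.re → (∏ j, E j s ^ (z j)) * (s - 1) ^ k = 1) (w : ℂ) (hw : w ≠ 1) :
    ∑ j, z j * (od (E j) w : ℤ) = 0 := by
  classical
  have key : ∀ s : ℂ, 1 < s.re →
      (∏ j, E j s ^ (z j).toNat) * (s - 1) ^ k.toNat =
        (∏ j, E j s ^ (-z j).toNat) * (s - 1) ^ (-k).toNat := by
    intro s hs
    have hs1 : s - 1 ≠ 0 := FHB_s1 hs
    have e1 : ∀ j, E j s ^ (z j) = E j s ^ (z j).toNat / E j s ^ (-z j).toNat := by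
      intro j
      exact FHB_zpow (h0 j s hs) (z j)
    have h1 := h s hs
    rw [FHB_zpow hs1 k] at h1
    rw [Finset.prod_congr rfl fun j _ => e1 j, Finset.prod_div_distrib] at h1
    have h2 : (∏ j, E j s ^ (-z j).toNat) ≠ 0 :=
      Finset.prod_ne_zero_iff.2 fun j _ => pow_ne_zero _ (h0 j s hs)
    have h3 : (s - 1) ^ (-k).toNat ≠ 0 := pow_ne_zero _ hs1
    field_simp at h1
    linear_combination h1
  have hEp : ∀ (e : J → ℕ) (n : ℕ), Ent fun s => (∏ j, E j s ^ e j) * (s - 1) ^ n := fun e n =>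
    (Ent.prod Finset.univ (f := fun j s => E j s ^ e j) fun j => (hE j).pow (e j)).mul
      (Ent.sub_pow 1 n)
  have hod : ∀ (e : J → ℕ) (n : ℕ), od (fun s => (∏ j, E j s ^ e j) * (s - 1) ^ n) w =
      ∑ j, e j * od (E j) w := by
    intro e n
    rw [od_mul (f := fun s => ∏ j, E j s ^ e j)
      (Ent.prod Finset.univ (f := fun j s => E j s ^ e j) fun j => (hE j).pow (e j))
      (Ent.sub_pow 1 n) w]
    rw [od_prod Finset.univ (f := fun j s => E j s ^ e j) (fun j => (hE j).pow (e j)) w]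
    rw [od_sub_pow 1 n w, if_neg hw, add_zero]
    exact Finset.sum_congr rfl fun j _ => od_pow (hE j) (e j) w
  have heq := half_eq (hEp (fun j => (z j).toNat) k.toNat).diff
    (hEp (fun j => (-z j).toNat) (-k).toNat).diff key
  have h4 : ∑ j, (z j).toNat * od (E j) w = ∑ j, (-z j).toNat * od (E j) w := by
    rw [← hod (fun j => (z j).toNat) k.toNat, ← hod (fun j => (-z j).toNat) (-k).toNat, heq]
  have h5 : ∑ j, (((z j).toNat : ℤ) * (od (E j) w : ℤ)) =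
      ∑ j, (((-z j).toNat : ℤ) * (od (E j) w : ℤ)) := by
    exact_mod_cast h4
  have h6 : ∑ j, z j * (od (E j) w : ℤ) = ∑ j, (((z j).toNat : ℤ) * (od (E j) w : ℤ)) -
      ∑ j, (((-z j).toNat : ℤ) * (od (E j) w : ℤ)) := by
    rw [← Finset.sum_sub_distrib]
    refine Finset.sum_congr rfl fun j _ => ?_
    rw [← sub_mul, Int.toNat_sub_toNat_neg]
  rw [h6, h5, sub_self]

private theorem FHB_prod_zpow {a : ℂ} (ha : a ≠ 0) {J : Type*} [Fintype J] (z : J → ℤ) :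
    ∏ j, a ^ (z j) = a ^ (∑ j, z j) := by
  classical
  refine Finset.induction_on (Finset.univ : Finset J) ?_ ?_
  · simp
  · intro j t hj ih
    rw [Finset.prod_insert hj, Finset.sum_insert hj, zpow_add₀ ha, ih]

theorem fhb (F : Type) [Field F] [NumberField F] [IsGalois ℚ F] (m : ℕ) {J J' : Type} [Fintype J]
    [Fintype J'] (f : J → (F ≃ₐ[ℚ] F) → ℂ) (D : J → ℂ → ℂ) (h : ∀ j, RayE F m (f j) (D j)) (z : J → ℤ)
    (f' : J' → (F ≃ₐ[ℚ] F) → ℂ) (D' : J' → ℂ → ℂ) (h' : ∀ j, RayE F m (f' j) (D' j)) (a : J' → ℕ)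
    (N : ℕ) (hN : 0 < N)
    (hf : ∀ x, (N : ℂ) * ∑ j, (z j : ℂ) * f j x = ∑ j, (a j : ℂ) * f' j x) (w : ℂ) (hw : w ≠ 1) :
    0 ≤ ∑ j, z j * (od (D j) w : ℤ) := by
  classical
  obtain ⟨P, σ, hP, hpP, hσ⟩ := fex F
  have key : ∀ s : ℂ, 1 < s.re →
      (∏ j, (D j s / (s - 1)) ^ (z j)) ^ N = ∏ i, (D' i s / (s - 1)) ^ ((a i : ℕ) : ℤ) := by
    intro s hs
    have hs1 : s - 1 ≠ 0 := FHB_s1 hs
    have hv : (∏ j, (D j s / (s - 1)) ^ (z j)) ≠ 0 :=
      Finset.prod_ne_zero_iff.2 fun j _ => zpow_ne_zero _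
        (div_ne_zero ((fpl_ne F m (f j) (D j) (h j)).2 s hs) hs1)
    have h1 := hasProd_zpow' (fpl F m f D h z P σ hP hpP hσ s hs) hv (N : ℤ)
    have h2 := fpl F m f' D' h' (fun i => ((a i : ℕ) : ℤ)) P σ hP hpP hσ s hs
    have h3 : (fun p : Nat.Primes => (if (p : ℕ) ∣ m then (1 : ℂ) else
        EE ⊥ (σ p) (fun x => ∑ j, (z j : ℂ) * f j x) ((p : ℂ) ^ (-s))) ^ (N : ℤ)) =
        fun p : Nat.Primes => if (p : ℕ) ∣ m then (1 : ℂ) else
        EE ⊥ (σ p) (fun x => ∑ j, (((a j : ℕ) : ℤ) : ℂ) * f' j x) ((p : ℂ) ^ (-s)) := by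
      funext p
      split_ifs with hp
      · exact one_zpow _
      · rw [zpow_natCast, ← EE_nsmul' ⊥ (σ p) (fun x => ∑ j, (z j : ℂ) * f j x) N _ (FHB_norm p hs)]
        congr 1
        funext x
        rw [hf x]
        exact Finset.sum_congr rfl fun j _ => by rw [Int.cast_natCast]
    have h4 := h2.unique (h3 ▸ h1)
    rw [zpow_natCast] at h4
    exact h4.symm
  have hent : ∀ i : J ⊕ J', Ent (Sum.elim D D' i) := by
    rintro (j | i)
    · exact (fpl_ne F m (f j) (D j) (h j)).1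
    · exact (fpl_ne F m (f' i) (D' i) (h' i)).1
  have hne : ∀ (i : J ⊕ J') (s : ℂ), 1 < s.re → Sum.elim D D' i s ≠ 0 := by
    rintro (j | i) s hs
    · exact (fpl_ne F m (f j) (D j) (h j)).2 s hs
    · exact (fpl_ne F m (f' i) (D' i) (h' i)).2 s hs
  have hrel := frl (Sum.elim D D') hent hne
    (Sum.elim (fun j => (N : ℤ) * z j) (fun i => -((a i : ℕ) : ℤ)))
    (-((N : ℤ) * ∑ j, z j) + ∑ i, ((a i : ℕ) : ℤ)) ?_ w hw
  · rw [Fintype.sum_sum_type] at hrel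
    simp only [Sum.elim_inl, Sum.elim_inr] at hrel
    have h5 : (N : ℤ) * ∑ j, z j * (od (D j) w : ℤ) = ∑ i, ((a i : ℕ) : ℤ) * (od (D' i) w : ℤ) := by
      rw [Finset.mul_sum]
      have h6 : ∑ j, (N : ℤ) * (z j * (od (D j) w : ℤ)) = ∑ j, (N : ℤ) * z j * (od (D j) w : ℤ) :=
        Finset.sum_congr rfl fun j _ => by ring
      rw [h6]
      have h7 : ∑ i, -((a i : ℕ) : ℤ) * (od (D' i) w : ℤ) = -∑ i, ((a i : ℕ) : ℤ) * (od (D' i) w : ℤ) := by
        rw [← Finset.sum_neg_distrib]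
        exact Finset.sum_congr rfl fun i _ => by ring
      rw [h7] at hrel
      linarith
    have h8 : 0 ≤ (N : ℤ) * ∑ j, z j * (od (D j) w : ℤ) := by
      rw [h5]
      positivity
    have hN' : (0 : ℤ) < N := by exact_mod_cast hN
    exact nonneg_of_mul_nonneg_right h8 hN'
  · intro s hs
    have hs1 : s - 1 ≠ 0 := FHB_s1 hs
    have hk := key s hs
    rw [Fintype.prod_sum_type]
    simp only [Sum.elim_inl, Sum.elim_inr]
    have e1 : (∏ j, (D j s / (s - 1)) ^ (z j)) = (∏ j, D j s ^ (z j)) * ((s - 1) ^ (∑ j, z j))⁻¹ := by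
      rw [← FHB_prod_zpow hs1, ← Finset.prod_inv_distrib, ← Finset.prod_mul_distrib]
      refine Finset.prod_congr rfl fun j _ => ?_
      rw [div_zpow, div_eq_mul_inv]
    have e2 : (∏ i, (D' i s / (s - 1)) ^ ((a i : ℕ) : ℤ)) =
        (∏ i, D' i s ^ ((a i : ℕ) : ℤ)) * ((s - 1) ^ (∑ i, ((a i : ℕ) : ℤ)))⁻¹ := by
      rw [← FHB_prod_zpow hs1, ← Finset.prod_inv_distrib, ← Finset.prod_mul_distrib]
      refine Finset.prod_congr rfl fun j _ => ?_
      rw [div_zpow, div_eq_mul_inv]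
    have e3 : (∏ j, D j s ^ ((N : ℤ) * z j)) = (∏ j, D j s ^ (z j)) ^ N := by
      rw [← Finset.prod_pow]
      refine Finset.prod_congr rfl fun j _ => ?_
      rw [mul_comm, zpow_mul, zpow_natCast]
    have e4 : (∏ i, D' i s ^ (-((a i : ℕ) : ℤ))) = (∏ i, D' i s ^ ((a i : ℕ) : ℤ))⁻¹ := by
      rw [← Finset.prod_inv_distrib]
      refine Finset.prod_congr rfl fun j _ => ?_
      rw [zpow_neg]
    have hA : (∏ i, D' i s ^ ((a i : ℕ) : ℤ)) ≠ 0 :=
      Finset.prod_ne_zero_iff.2 fun i _ => zpow_ne_zero _ ((fpl_ne F m (f' i) (D' i) (h' i)).2 s hs)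
    rw [e1, e2, mul_pow] at hk
    rw [e3, e4, zpow_add₀ hs1, zpow_neg, mul_comm (N : ℤ), zpow_mul, zpow_natCast]
    have hB : (s - 1) ^ (∑ i, ((a i : ℕ) : ℤ)) ≠ 0 := zpow_ne_zero _ hs1
    have hC : (s - 1) ^ (∑ j, z j) ≠ 0 := zpow_ne_zero _ hs1
    generalize (∏ j, D j s ^ (z j)) ^ N = X at hk ⊢
    generalize (∏ i, D' i s ^ ((a i : ℕ) : ℤ)) = A at hk hA ⊢
    generalize (s - 1) ^ (∑ i, ((a i : ℕ) : ℤ)) = B at hk hB ⊢
    generalize (s - 1) ^ (∑ j, z j) = C at hk hC ⊢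
    have hk' : X * (C ^ N)⁻¹ = A * B⁻¹ := by rw [← inv_pow]; exact hk
    calc X * A⁻¹ * ((C ^ N)⁻¹ * B) = (X * (C ^ N)⁻¹) * A⁻¹ * B := by ring
      _ = A * B⁻¹ * A⁻¹ * B := by rw [hk']
      _ = 1 := by field_simp

end Pool.Agent.ARC
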