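import Pool.Agent.ARC.FEE
import Pool.Agent.ARC.FCV
import Pool.Agent.ARC.FUR
import Pool.Agent.ARC.FOD
import Pool.Agent.ARC.Defs

/-! # ARC / FPL: the partial Euler product of a virtual monomial character

`fpl_ne`: `fex` gives `P, σ`; `fcv` with `S p = ⊥`, `f p = if p ∣ m then 0 else f` (`EE .. 0 = 1`: `EE_zero'`): the product has a non-zero value, which is `D s / (s - 1)` (`HasProd.unique`); so `D s ≠ 0`, and `D` is not identically zero.
`fpl`: factors: `EE_zsum` (`‖p ^ (-s)‖ < 1`), `hasProd_zpow'`, `hasProd_prod`-type finite product of `HasProd`s.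
`fpl_pow`: similarly for `N f = ∑ a_j f_j`: `EE_nsmul'` and `EE_zsum`: for `Re s > 1` the value `v` of the partial product of `f` satisfies `v ^ N = ∏ (D' j s / (s - 1)) ^ (a j)`.
-/

set_option autoImplicit false

noncomputable section

namespace Pool.Agent.ARC

open NumberField Pool.Agent.PGZ

/-- the partial Euler product (primes not dividing `m`) of the class function `f` is `D s / (s - 1)`, `D` entire -/
def RayE (F : Type) [Field F] [NumberField F] (m : ℕ) (f : (F ≃ₐ[ℚ] F) → ℂ) (D : ℂ → ℂ) : Prop :=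
  Differentiable ℂ D ∧
    ∀ (P : Nat.Primes → Ideal (𝓞 F)) (σ : Nat.Primes → (F ≃ₐ[ℚ] F)) (_ : ∀ p, (P p).IsPrime)
      (_ : ∀ p : Nat.Primes, ((p : ℕ) : 𝓞 F) ∈ P p) (_ : ∀ p, IsArithFrobAt ℤ (σ p) (P p))
      (s : ℂ), 1 < s.re →
      HasProd (fun p : Nat.Primes => open Classical in if (p : ℕ) ∣ m then 1 else
        EE ⊥ (σ p) f ((p : ℂ) ^ (-s))) (D s / (s - 1))

private theorem FPL_sub {s : ℂ} (hs : 1 < s.re) : s - 1 ≠ 0 := by
  intro h
  have h1 : s = 1 := sub_eq_zero.1 h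
  rw [h1, Complex.one_re] at hs
  exact lt_irrefl _ hs

private theorem FPL_norm (p : Nat.Primes) {s : ℂ} (hs : 1 < s.re) : ‖(p : ℂ) ^ (-s)‖ < 1 := by
  rw [Complex.norm_natCast_cpow_of_pos p.2.pos, Complex.neg_re]
  exact Real.rpow_lt_one_of_one_lt_of_neg (by exact_mod_cast p.2.one_lt) (by linarith)

theorem fpl_ne (F : Type) [Field F] [NumberField F] [IsGalois ℚ F] (m : ℕ) (f : (F ≃ₐ[ℚ] F) → ℂ)
    (D : ℂ → ℂ) (h : RayE F m f D) : Ent D ∧ ∀ s : ℂ, 1 < s.re → D s ≠ 0 := by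
  classical
  have key : ∀ s : ℂ, 1 < s.re → D s ≠ 0 := by
    intro s hs
    obtain ⟨P, σ, hP, hpP, hσ⟩ := fex F
    have h1 := h.2 P σ hP hpP hσ s hs
    obtain ⟨C, hC⟩ := (Set.finite_range fun g => ‖f g‖).bddAbove
    obtain ⟨v, hv, h2⟩ := fcv (fun _ : Nat.Primes => (⊥ : Subgroup (F ≃ₐ[ℚ] F))) σ
      (fun p => if (p : ℕ) ∣ m then (fun _ => 0) else f) (max C 0) (by
        intro p g
        split_ifs
        · simp
        · exact (hC ⟨g, rfl⟩).trans (le_max_left _ _)) s hs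
    have h3 : (fun p : Nat.Primes => EE (⊥ : Subgroup (F ≃ₐ[ℚ] F)) (σ p)
        (if (p : ℕ) ∣ m then (fun _ => 0) else f) ((p : ℂ) ^ (-s))) =
        fun p : Nat.Primes => if (p : ℕ) ∣ m then 1 else EE ⊥ (σ p) f ((p : ℂ) ^ (-s)) := by
      funext p
      split_ifs
      · exact EE_zero' _ _ _
      · rfl
    rw [h3] at h2
    have h4 : v = D s / (s - 1) := by
      refine HasProd.unique h2 ?_
      convert h1
    intro h0
    rw [h0, zero_div] at h4
    exact hv h4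
  exact ⟨⟨h.1, ⟨2, key 2 (by norm_num)⟩⟩, key⟩

theorem fpl (F : Type) [Field F] [NumberField F] [IsGalois ℚ F] (m : ℕ) {J : Type} [Fintype J]
    (f : J → (F ≃ₐ[ℚ] F) → ℂ) (D : J → ℂ → ℂ) (h : ∀ j, RayE F m (f j) (D j)) (z : J → ℤ)
    (P : Nat.Primes → Ideal (𝓞 F)) (σ : Nat.Primes → (F ≃ₐ[ℚ] F)) (hP : ∀ p, (P p).IsPrime)
    (hpP : ∀ p : Nat.Primes, ((p : ℕ) : 𝓞 F) ∈ P p) (hσ : ∀ p, IsArithFrobAt ℤ (σ p) (P p))
    (s : ℂ) (hs : 1 < s.re) :
    HasProd (fun p : Nat.Primes => open Classical in if (p : ℕ) ∣ m then 1 else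
      EE ⊥ (σ p) (fun x => ∑ j, (z j : ℂ) * f j x) ((p : ℂ) ^ (-s))) (∏ j, (D j s / (s - 1)) ^ (z j)) := by
  classical
  have h1 : ∀ j ∈ (Finset.univ : Finset J), HasProd (fun p : Nat.Primes =>
      (if (p : ℕ) ∣ m then 1 else EE ⊥ (σ p) (f j) ((p : ℂ) ^ (-s))) ^ (z j))
      ((D j s / (s - 1)) ^ (z j)) := by
    intro j _
    have h2 := (h j).2 P σ hP hpP hσ s hs
    refine hasProd_zpow' ?_ (div_ne_zero ((fpl_ne F m (f j) (D j) (h j)).2 s hs) (FPL_sub hs)) _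
    convert h2
  have h3 := hasProd_prod h1
  convert h3 using 1
  funext p
  split_ifs with hp
  · simp
  · exact EE_zsum ⊥ (σ p) z f _ (FPL_norm p hs)

end Pool.Agent.ARC
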