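import Pool.Agent.ARC.FAS
import Pool.Agent.ARC.CUnif

/-! # ARC: middle degrees of Hilbert schemes of points -/

set_option autoImplicit false

noncomputable section

namespace Pool.Agent.ARC

open NumberField Module Pool.Agent.PGZ Pool.Agent.PGZ2

theorem middle (b : ℕ) : ∃ A : ℕ, ∀ (F : Type) [Field F] [NumberField F] [IsGalois ℚ F]
    (V : Type) [AddCommGroup V] [Module.Free ℤ V] [Module.Finite ℤ V]
    [DistribMulAction (F ≃ₐ[ℚ] F) V], finrank ℤ V = b →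
    (∀ g : F ≃ₐ[ℚ] F, (∀ v : V, g • v = v) → g = 1) →
    (∃ v : V, v ≠ 0 ∧ ∀ g : F ≃ₐ[ℚ] F, g • v = v) →
    ∀ n k : ℕ, A ≤ k → A + k ≤ 2 * n →
    ∀ (W : Type) [AddCommGroup W] [Module.Free ℤ W] [Module.Finite ℤ W]
      [DistribMulAction (F ≃ₐ[ℚ] F) W],
      (∀ g : F ≃ₐ[ℚ] F, LinearMap.trace ℤ W (act W g) = gott (symTr (act V g)) n k) →
    ∃ (D : ℂ → ℂ) (r : ℕ), Differentiable ℂ D ∧
      ∀ (P : Nat.Primes → Ideal (𝓞 F)) (σ : Nat.Primes → (F ≃ₐ[ℚ] F))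
        (hP : ∀ p, (P p).IsPrime) (_ : ∀ p : Nat.Primes, ((p : ℕ) : 𝓞 F) ∈ P p)
        (hσ : ∀ p, IsArithFrobAt ℤ (σ p) (P p)) (s : ℂ), (k : ℝ) + 1 < s.re →
        HasProd (fun p : Nat.Primes => euler W (hP p) (hσ p) ((p : ℂ) ^ ((k : ℂ) - s)))
          (D s / (s - ((k : ℂ) + 1)) ^ r) := by
  obtain ⟨A, hA⟩ := bulk_unif b
  refine ⟨A, fun F _ _ _ V _ _ _ _ hb hf h0 n k h1 h2 W _ _ _ _ hW => ?_⟩
  obtain ⟨D, r, hD, h⟩ := criterion F W (by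
    have := hA (F ≃ₐ[ℚ] F) V hb hf h0 n k h1 h2
    simpa only [hW] using this)
  refine ⟨fun s => D (s - k), r, hD.comp (differentiable_id.sub_const _), ?_⟩
  intro P σ hP hpP hσ s hs
  have h3 := h P σ hP hpP hσ (s - k) (by
    rw [Complex.sub_re, Complex.natCast_re]; linarith)
  have e1 : s - (k : ℂ) - 1 = s - ((k : ℂ) + 1) := by ring
  have e2 : -(s - (k : ℂ)) = (k : ℂ) - s := by ring
  rw [e1, e2] at h3
  exact h3

end Pool.Agent.ARC
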