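import Pool.Agent.ARC.HDefs

/-! # ARC, part H, module HOP

Properties of the semi-local ring `OP L M`.
`OP_unit`: `x = z / s`, `z` integral, `s` prime to `M`. Put `y = s + M z`, so `1 + M x = y / s`.
The ideals `(y)` and `(M)` are coprime (`s a + M b = 1` gives `y a + M (b - z a) = 1`), `y ≠ 0` since
`M` is not a unit. There is a natural number `r` prime to `M` with `r ∈ (y)`: the smallest positive
natural number in `(y)`; if a prime `p` divides `M` and `r = p r'` then `r' ∈ (y)` (as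
`1 = y a + M c`, `r' = y (a r') + (M / p) c r`), contradiction. So `r / y` is integral and
`(1 + M x)⁻¹ = s (r / y) / r` is in `OP L M`.
`OP_sat`: `s x` and `M ^ k x` integral, `s`, `M ^ k` coprime.
`OP_approx`: `x = z / s`, `s s' = 1 + M ^ k c`: `x = z s' - M ^ k c x`.
 -/

set_option autoImplicit false

noncomputable section

set_option linter.unusedSectionVars false

namespace Pool.Agent.ARC.PH

open NumberField Module IsDedekindDomain nonZeroDivisors

variable {K L : Type} [Field K] [NumberField K] [Field L] [NumberField L] [Algebra K L]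


theorem OP_of_integral {M : ℕ} {x : L} (hx : IsIntegral ℤ x) : x ∈ OP L M :=
  ⟨1, Nat.coprime_one_left M, by simpa using hx⟩

theorem OP_map_iff {M : ℕ} {x : K} : algebraMap K L x ∈ OP L M ↔ x ∈ OP K M := by
  have key : ∀ s : ℕ, IsIntegral ℤ ((s : L) * algebraMap K L x) ↔ IsIntegral ℤ ((s : K) * x) := by
    intro s
    have e : (s : L) * algebraMap K L x = algebraMap K L ((s : K) * x) := by
      rw [map_mul, map_natCast]
    rw [e]
    exact isIntegral_algebraMap_iff (algebraMap K L).injective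
  constructor
  · rintro ⟨s, hs, h⟩
    exact ⟨s, hs, (key s).1 h⟩
  · rintro ⟨s, hs, h⟩
    exact ⟨s, hs, (key s).2 h⟩

theorem OP_gal {M : ℕ} (g : L ≃ₐ[K] L) {x : L} (hx : x ∈ OP L M) : g x ∈ OP L M := by
  obtain ⟨s, hs, h⟩ := hx
  refine ⟨s, hs, ?_⟩
  have h1 := h.map (g.toAlgHom.restrictScalars ℤ)
  have e : (g.toAlgHom.restrictScalars ℤ) ((s : L) * x) = (s : L) * g x := by
    show g ((s : L) * x) = _
    rw [map_mul, map_natCast]
  rwa [e] at h1

private theorem hop_natCast_not_unit {M : ℕ} (hM : 2 ≤ M) (b : 𝓞 L) : (M : 𝓞 L) * b ≠ 1 := by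
  intro h
  have h1 := congrArg (Algebra.norm ℤ) h
  rw [map_mul, map_one] at h1
  have h2 : Algebra.norm ℤ (M : 𝓞 L) = (M : ℤ) ^ Module.finrank ℤ (𝓞 L) := by
    have := Algebra.norm_algebraMap (S := 𝓞 L) (M : ℤ)
    simpa using this
  rw [h2] at h1
  have h3 : IsUnit ((M : ℤ) ^ Module.finrank ℤ (𝓞 L)) := IsUnit.of_mul_eq_one _ h1
  have h4 : Module.finrank ℤ (𝓞 L) ≠ 0 := by
    rw [RingOfIntegers.rank]
    exact Module.finrank_pos.ne'
  have h5 := (isUnit_pow_iff h4).1 h3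
  have h6 := Int.isUnit_iff.1 h5
  omega

theorem OP_unit {M : ℕ} (hM : 2 ≤ M) {x : L} (hx : x ∈ OP L M) :
    ∃ y ∈ OP L M, (1 + (M : L) * x) * y = 1 := by
  obtain ⟨s, hs, hz⟩ := hx
  obtain ⟨z, hz'⟩ : ∃ z : 𝓞 L, (z : L) = (s : L) * x := ⟨⟨_, hz⟩, rfl⟩
  obtain ⟨a, b, hab⟩ : ∃ a b : ℤ, (s : ℤ) * a + M * b = 1 := by
    have h := Nat.gcd_eq_gcd_ab s M
    rw [hs.gcd_eq_one] at h
    exact ⟨_, _, by simpa using h.symm⟩
  have hab' : (s : 𝓞 L) * a + (M : 𝓞 L) * b = 1 := by exact_mod_cast congrArg (Int.cast : ℤ → 𝓞 L) hab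
  obtain ⟨y, hy⟩ : ∃ y : 𝓞 L, y = (s : 𝓞 L) + M * z := ⟨_, rfl⟩
  have h1 : y * a + (M : 𝓞 L) * (b - z * a) = 1 := by
    rw [← hab', hy]
    ring
  have hy0 : y ≠ 0 := by
    intro h
    rw [h, zero_mul, zero_add] at h1
    exact hop_natCast_not_unit hM _ h1
  have hex : ∃ r : ℕ, 0 < r ∧ (r : 𝓞 L) ∈ Ideal.span {y} := by
    refine ⟨Ideal.absNorm (Ideal.span {y}), ?_, Ideal.absNorm_mem _⟩
    rw [Nat.pos_iff_ne_zero, Ideal.absNorm_ne_zero_iff_mem_nonZeroDivisors]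
    rw [mem_nonZeroDivisors_iff_ne_zero]
    intro h
    exact hy0 (Ideal.span_singleton_eq_bot.1 h)
  classical
  obtain ⟨hr0, hr⟩ := Nat.find_spec hex
  have hmin := fun m (hm : m < Nat.find hex) => Nat.find_min hex hm
  obtain ⟨r, hrdef⟩ : ∃ r, r = Nat.find hex := ⟨_, rfl⟩
  rw [← hrdef] at hr0 hr hmin
  have hcop : r.Coprime M := by
    by_contra hnc
    obtain ⟨p, hp, hpr, hpM⟩ := Nat.Prime.not_coprime_iff_dvd.1 hnc
    obtain ⟨r', rfl⟩ := hpr
    obtain ⟨m, hm⟩ := hpM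
    have hr'0 : 0 < r' := Nat.pos_of_mul_pos_left hr0
    have hlt : r' < p * r' := lt_mul_of_one_lt_left hr'0 hp.one_lt
    refine hmin r' hlt ⟨hr'0, ?_⟩
    have e : (r' : 𝓞 L) = y * (a * r') + ((m : 𝓞 L) * (b - z * a)) * ((p * r' : ℕ) : 𝓞 L) := by
      have e1 : (r' : 𝓞 L) = (y * a + (M : 𝓞 L) * (b - z * a)) * r' := by rw [h1, one_mul]
      rw [hm] at e1
      push_cast at e1 ⊢
      calc (r' : 𝓞 L) = _ := e1
        _ = _ := by ring
    rw [e]
    exact Ideal.add_mem _ (Ideal.mul_mem_right _ _ (Ideal.mem_span_singleton_self y)) (Ideal.mul_mem_left _ _ hr)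
  obtain ⟨c, hc⟩ := Ideal.mem_span_singleton'.1 hr
  have hrL : (r : L) ≠ 0 := Nat.cast_ne_zero.2 hr0.ne'
  have hs0 : (s : L) ≠ 0 := by
    rw [Nat.cast_ne_zero]
    rintro rfl
    have := (Nat.coprime_zero_left M).1 hs
    omega
  refine ⟨(s : L) * c / r, ⟨r, hcop, ?_⟩, ?_⟩
  · have e : (r : L) * ((s : L) * c / r) = ((s * c : 𝓞 L) : L) := by
      rw [mul_div_cancel₀ _ hrL]
      push_cast
      rfl
    rw [e]
    exact RingOfIntegers.isIntegral_coe _
  · have hcL : (c : L) * (y : L) = r := by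
      have := congrArg (algebraMap (𝓞 L) L) hc
      simpa using this
    have hyL : (y : L) = s + M * z := by
      rw [hy]
      push_cast
      rfl
    rw [hyL, hz'] at hcL
    field_simp
    linear_combination hcL

theorem OP_sat {M : ℕ} (k : ℕ) {x : L} (hx : x ∈ OP L M)
    (h : IsIntegral ℤ ((M : L) ^ k * x)) : IsIntegral ℤ x := by
  obtain ⟨s, hs, hz⟩ := hx
  have hs' : s.Coprime (M ^ k) := Nat.Coprime.pow_right k hs
  obtain ⟨a, b, hab⟩ : ∃ a b : ℤ, (s : ℤ) * a + (M ^ k : ℕ) * b = 1 := by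
    have h := Nat.gcd_eq_gcd_ab s (M ^ k)
    rw [hs'.gcd_eq_one] at h
    exact ⟨_, _, by simpa using h.symm⟩
  have hab' : (s : L) * a + (M : L) ^ k * b = 1 := by exact_mod_cast congrArg (Int.cast : ℤ → L) hab
  have e : x = (a : L) * ((s : L) * x) + (b : L) * ((M : L) ^ k * x) := by
    calc x = ((s : L) * a + (M : L) ^ k * b) * x := by rw [hab', one_mul]
      _ = _ := by ring
  rw [e]
  exact ((isIntegral_intCast a).mul hz).add ((isIntegral_intCast b).mul h)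

theorem OP_approx {M : ℕ} (k : ℕ) {x : L} (hx : x ∈ OP L M) :
    ∃ (z : 𝓞 L), ∃ y ∈ OP L M, x = (z : L) + (M : L) ^ k * y := by
  have hx0 := hx
  obtain ⟨s, hs, hz⟩ := hx
  have hs' : s.Coprime (M ^ k) := Nat.Coprime.pow_right k hs
  obtain ⟨a, b, hab⟩ : ∃ a b : ℤ, (s : ℤ) * a + (M ^ k : ℕ) * b = 1 := by
    have h := Nat.gcd_eq_gcd_ab s (M ^ k)
    rw [hs'.gcd_eq_one] at h
    exact ⟨_, _, by simpa using h.symm⟩
  have hab' : (s : L) * a + (M : L) ^ k * b = 1 := by exact_mod_cast congrArg (Int.cast : ℤ → L) hab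
  refine ⟨⟨(a : L) * ((s : L) * x), (isIntegral_intCast a).mul hz⟩, (b : L) * x,
    mul_mem (OP_of_integral (isIntegral_intCast b)) hx0, ?_⟩
  show x = (a : L) * ((s : L) * x) + (M : L) ^ k * ((b : L) * x)
  calc x = ((s : L) * a + (M : L) ^ k * b) * x := by rw [hab', one_mul]
    _ = _ := by ring

end Pool.Agent.ARC.PH
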