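import Pool.Agent.ARC.HDefs
import Pool.Agent.ARC.HOP

/-! # ARC, part H, module HAA

The set `{u : u = 1 + M ^ k x, x ∈ Lam}` is a group for `k ≥ 1`: `Lam` is contained in `OP L M`,
`M * OP L M` in `Lam`. Product: `(1 + M^k x)(1 + M^k y) = 1 + M^k (x + y + M^k x y)`,
`M^k x y = M (M^(k-1) x y)`. Inverse: `u` is a unit of `OP L M` (`OP_unit`), `1 / u = 1 - M^k x / u`,
`x / u = x - M^k x^2 / u`. Use `Subgroup.closure_induction`.
 -/

set_option autoImplicit false

noncomputable section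

set_option linter.unusedSectionVars false

namespace Pool.Agent.ARC.PH

open NumberField Module IsDedekindDomain nonZeroDivisors

variable {K L : Type} [Field K] [NumberField K] [Field L] [NumberField L] [Algebra K L]


variable {θ : L} {M : ℕ}

theorem Lam_sub_OP (h : Good K L θ M) {x : L} (hx : x ∈ Lam K L θ M) : x ∈ OP L M := by
  obtain ⟨c, hc, rfl⟩ := hx
  refine sum_mem fun g _ => mul_mem (OP_map_iff.2 (hc g)) ?_
  exact OP_gal g (OP_of_integral h.integral)

private theorem haa_pow (k : ℕ) : (M : L) ^ k ∈ OP L M :=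
  pow_mem (natCast_mem _ _) _

private theorem haa_inv (h : Good K L θ M) (k : ℕ) (hk : 1 ≤ k) (u : Lˣ) (x : L) (hx : x ∈ OP L M)
    (hu : (u : L) = 1 + (M : L) ^ k * x) : ((u⁻¹ : Lˣ) : L) ∈ OP L M := by
  obtain ⟨k, rfl⟩ := Nat.exists_eq_add_of_le' hk
  obtain ⟨y, hy, hy'⟩ := OP_unit (L := L) (M := M) (by have := h.three_le; omega)
    (mul_mem (haa_pow k) hx)
  have e : (u : L) * y = 1 := by
    rw [hu]
    linear_combination hy'
  have e2 : ((u⁻¹ : Lˣ) : L) = y := by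
    rw [Units.val_inv_eq_inv_val]
    exact inv_eq_of_mul_eq_one_right e
  rw [e2]
  exact hy

theorem mem_AA (h : Good K L θ M) (k : ℕ) (hk : 1 ≤ k) (u : Lˣ) :
    u ∈ AA K L θ M k ↔ ∃ x ∈ Lam K L θ M, (u : L) = 1 + (M : L) ^ k * x := by
  constructor
  · intro hu
    unfold AA at hu
    induction hu using Subgroup.closure_induction with
    | mem u hu => exact hu
    | one => exact ⟨0, zero_mem _, by simp⟩
    | mul u v _ _ hu hv =>
      obtain ⟨x, hx, hx'⟩ := hu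
      obtain ⟨y, hy, hy'⟩ := hv
      obtain ⟨k, rfl⟩ := Nat.exists_eq_add_of_le' hk
      refine ⟨x + y + (M : L) * ((M : L) ^ k * (x * y)), add_mem (add_mem hx hy) (h.sub _ ?_), ?_⟩
      · exact mul_mem (haa_pow k) (mul_mem (Lam_sub_OP h hx) (Lam_sub_OP h hy))
      · rw [Units.val_mul, hx', hy']
        ring
    | inv u _ hu =>
      obtain ⟨x, hx, hx'⟩ := hu
      have hw := haa_inv h k hk u x (Lam_sub_OP h hx) hx'
      obtain ⟨k, rfl⟩ := Nat.exists_eq_add_of_le' hk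
      refine ⟨-(x - (M : L) * ((M : L) ^ k * (x * x * ((u⁻¹ : Lˣ) : L)))), neg_mem (sub_mem hx (h.sub _ ?_)), ?_⟩
      · exact mul_mem (haa_pow k) (mul_mem (mul_mem (Lam_sub_OP h hx) (Lam_sub_OP h hx)) hw)
      · have e : (u : L) * ((u⁻¹ : Lˣ) : L) = 1 := by rw [← Units.val_mul, mul_inv_cancel, Units.val_one]
        rw [hx'] at e
        generalize ((u⁻¹ : Lˣ) : L) = w at e ⊢
        linear_combination (1 - (M : L) ^ (k + 1) * x) * e
  · intro hu
    exact Subgroup.subset_closure hu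

theorem mem_AA_of_OP (h : Good K L θ M) (k : ℕ) (hk : 1 ≤ k) (u : Lˣ) (x : L)
    (hx : x ∈ OP L M) (hu : (u : L) = 1 + (M : L) ^ (k + 1) * x) : u ∈ AA K L θ M k := by
  rw [mem_AA h k hk]
  refine ⟨(M : L) * x, h.sub x hx, ?_⟩
  rw [hu]
  ring

theorem AA_le_OPx (h : Good K L θ M) (k : ℕ) (hk : 1 ≤ k) : AA K L θ M k ≤ OPx L M := by
  intro u hu
  obtain ⟨x, hx, hx'⟩ := (mem_AA h k hk u).1 hu
  refine mem_OPx.2 ⟨?_, haa_inv h k hk u x (Lam_sub_OP h hx) hx'⟩
  rw [hx']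
  exact add_mem (one_mem _) (mul_mem (haa_pow k) (Lam_sub_OP h hx))

end Pool.Agent.ARC.PH
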