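import Pool.Agent.ARC.HDefs

/-! # ARC, part H, module HAbs

The abstract index lemma. Indices are `relIndex` (zero if infinite). Write `AG = Ker (tA - 1)`,
`IG = Ker (tI - 1)`, `E = ker dv` (the range of `ι`), `P = range dv`, `N` the norms, `D = dv B + N I`.
The main tool is `AddSubgroup.relIndex_comap`.
(a) `[P ⊓ IG : dv AG] = hh1 tE`: both are the index of `AG + E` in `A' = {a : (tA - 1) a ∈ E}`
  (apply `relIndex_comap` to `dv` and to `tA - 1`, the image of `A'` under `tA - 1` is `E ⊓ ker N`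
  by `h1`).
(b) `[AG : B] = [dv AG : dv B] * [E ⊓ AG : E ⊓ B]`.
(c) `[N I : N I ⊓ dv B]` is at most `[IG : P ⊓ IG] * [E ⊓ B : N E]`: it is the index in `I` of the
  preimage of `dv B` under `N`, which contains `P + (tI - 1) I`; `[I : P + (tI - 1) I] = [I' : P]`,
  `I' = {i : (tI - 1) i ∈ P}`, and `[I' : P] = [I' : IG + P] [IG + P : P]`, where
  `[I' : IG + P] = [P ⊓ (tI - 1) I : (tI - 1) P] ≤ [P ⊓ ker N : (tI - 1) P] ≤ [E ⊓ B : N E]`
  (`dv a ↦ N a`).
(d) combine.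
 -/

set_option autoImplicit false

noncomputable section

set_option linter.unusedSectionVars false

namespace Pool.Agent.ARC.PH

open NumberField Module IsDedekindDomain nonZeroDivisors

section habs

variable {E A I : Type} [AddCommGroup E] [AddCommGroup A] [AddCommGroup I]

private theorem habs_NS {n : ℕ} {t : AddMonoid.End A} (h : t ^ n = 1) (a : A) :
    Nm n t ((t - 1) a) = 0 := by
  have h1 : Nm n t * (t - 1) = 0 := by
    unfold Nm
    rw [geom_sum_mul, h, sub_self]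
  exact DFunLike.congr_fun h1 a

private theorem habs_SN {n : ℕ} {t : AddMonoid.End A} (h : t ^ n = 1) (a : A) :
    (t - 1) (Nm n t a) = 0 := by
  have h1 : (t - 1) * Nm n t = 0 := by
    unfold Nm
    rw [mul_geom_sum, h, sub_self]
  exact DFunLike.congr_fun h1 a

private theorem habs_sub (t : AddMonoid.End A) (a : A) : (t - 1) a = t a - a := rfl

private theorem habs_pow {t : AddMonoid.End A} {s : AddMonoid.End I} {f : A →+ I}
    (h : ∀ a, f (t a) = s (f a)) (i : ℕ) (a : A) : f ((t ^ i) a) = (s ^ i) (f a) := by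
  induction i generalizing a with
  | zero => rfl
  | succ k ih =>
    rw [pow_succ, pow_succ]
    change f ((t ^ k) (t a)) = (s ^ k) (s (f a))
    rw [ih, h]

private theorem habs_Nm {t : AddMonoid.End A} {s : AddMonoid.End I} {f : A →+ I}
    (h : ∀ a, f (t a) = s (f a)) (n : ℕ) (a : A) : f (Nm n t a) = Nm n s (f a) := by
  rw [Nm_apply, Nm_apply, map_sum]
  exact Finset.sum_congr rfl fun i _ => habs_pow h i a

private theorem habs_one {t : AddMonoid.End A} {s : AddMonoid.End I} {f : A →+ I}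
    (h : ∀ a, f (t a) = s (f a)) (a : A) : f ((t - 1) a) = (s - 1) (f a) := by
  rw [habs_sub, habs_sub, map_sub, h]

private theorem habs_cm (f : A →+ I) (H K : AddSubgroup A) :
    (H.map f).relIndex (K.map f) = (H ⊔ f.ker).relIndex K := by
  rw [← AddSubgroup.relIndex_comap, AddSubgroup.comap_map_eq]

variable (n : ℕ) (tE : AddMonoid.End E) (tA : AddMonoid.End A) (tI : AddMonoid.End I)
    (hA : tA ^ n = 1) (hI : tI ^ n = 1)
    (ι : E →+ A) (hι : Function.Injective ι) (hιt : ∀ e, ι (tE e) = tA (ι e))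
    (dv : A →+ I) (hdv : ∀ a, dv (tA a) = tI (dv a)) (hex : ∀ a, dv a = 0 ↔ a ∈ ι.range)
    (h1 : ∀ a, Nm n tA a = 0 → ∃ b, a = (tA - 1) b)

include hex in
private theorem habs_ker : dv.ker = ι.range := by
  ext a
  rw [AddMonoidHom.mem_ker, hex]

include hA hι hιt hdv hex h1 in
private theorem habs_a :
    ((Ker (tA - 1)).map dv).relIndex (dv.range ⊓ Ker (tI - 1)) = hh1 n tE := by
  have hk := habs_ker ι dv hex
  have e1 : dv.range ⊓ Ker (tI - 1) = ((ι.range).comap (tA - 1)).map dv := by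
    ext i
    constructor
    · rintro ⟨⟨a, rfl⟩, h⟩
      refine ⟨a, ?_, rfl⟩
      change (tA - 1) a ∈ ι.range
      rw [← hex, habs_one hdv]
      exact h
    · rintro ⟨a, ha, rfl⟩
      refine ⟨⟨a, rfl⟩, ?_⟩
      change (tI - 1) (dv a) = 0
      rw [← habs_one hdv, hex]
      exact ha
  have e2 : ((ι.range).comap (tA - 1)).map (tA - 1) = (Ker (Nm n tE)).map ι := by
    ext a
    constructor
    · rintro ⟨b, ⟨e, he⟩, hb⟩
      refine ⟨e, ?_, he.trans hb⟩
      change Nm n tE e = 0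
      apply hι
      rw [map_zero, habs_Nm hιt, he]
      exact habs_NS hA b
    · rintro ⟨e, he, rfl⟩
      have h2 : Nm n tA (ι e) = 0 := by
        rw [← habs_Nm hιt, mem_Ker.1 he, map_zero]
      obtain ⟨b, hb⟩ := h1 _ h2
      exact ⟨b, ⟨e, hb⟩, hb.symm⟩
  have e3 : (ι.range).map (tA - 1) = (Rng (tE - 1)).map ι := by
    ext a
    constructor
    · rintro ⟨b, ⟨e, rfl⟩, hb⟩
      refine ⟨(tE - 1) e, ⟨e, rfl⟩, ?_⟩
      rw [habs_one hιt]
      exact hb
    · rintro ⟨f, ⟨e, rfl⟩, hb⟩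
      refine ⟨ι e, ⟨e, rfl⟩, ?_⟩
      rw [← hb]
      exact (habs_one hιt e).symm
  rw [e1, habs_cm, hk, hh1, ← AddSubgroup.relIndex_map_map_of_injective _ _ hι, ← e2, ← e3,
    habs_cm, sup_comm]
  rfl

include hιt hex in
private theorem habs_b (B : AddSubgroup A) (hB : B ≤ Ker (tA - 1)) :
    B.relIndex (Ker (tA - 1)) = (B.map dv).relIndex ((Ker (tA - 1)).map dv) *
      B.relIndex (ι.range ⊓ Ker (tA - 1)) := by
  have hk := habs_ker ι dv hex
  rw [habs_cm, hk]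
  have e1 : (B ⊔ ι.range) ⊓ Ker (tA - 1) = B ⊔ ι.range ⊓ Ker (tA - 1) :=
    (sup_inf_assoc_of_le _ hB)
  have e2 : B.relIndex (ι.range ⊓ Ker (tA - 1)) = B.relIndex (B ⊔ ι.range ⊓ Ker (tA - 1)) := by
    rw [AddSubgroup.relIndex_sup_left]
  rw [e2, ← e1, mul_comm, ← AddSubgroup.inf_relIndex_right (B ⊔ ι.range),
    AddSubgroup.relIndex_mul_relIndex _ _ _ _ inf_le_right]
  exact le_inf le_sup_left hB

include hA hdv hex h1 in
private theorem habs_c (B : AddSubgroup A) (hNB : ∀ a, Nm n tA a ∈ B)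
    (hI : tI ^ n = 1) (hP : dv.range.FiniteIndex)
    (hm : ((ι.range).map (Nm n tA)).relIndex (ι.range ⊓ B) ≠ 0) :
    (B.map dv).relIndex (Rng (Nm n tI)) ≠ 0 ∧
    (B.map dv).relIndex (Rng (Nm n tI)) ≤ dv.range.relIndex (Ker (tI - 1)) *
      ((ι.range).map (Nm n tA)).relIndex (ι.range ⊓ B) := by
  have hk := habs_ker ι dv hex
  set P := dv.range with hPdef
  set R := Rng (tI - 1) with hR
  set I' := P.comap (tI - 1) with hI'
  have hP0 : P.index ≠ 0 := hP.index_ne_zero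
  have hPst : P ≤ I' := by
    rintro _ ⟨a, rfl⟩
    exact ⟨(tA - 1) a, habs_one hdv a⟩
  have hGst : Ker (tI - 1) ≤ I' := by
    intro i hi
    change (tI - 1) i ∈ P
    rw [mem_Ker.1 hi]
    exact zero_mem _
  -- the first equality
  have e1 : (B.map dv).relIndex (Rng (Nm n tI)) = ((B.map dv).comap (Nm n tI)).index :=
    (AddSubgroup.index_comap _ _).symm
  have hle : P ⊔ R ≤ (B.map dv).comap (Nm n tI) := by
    rw [sup_le_iff]
    constructor
    · rintro _ ⟨a, rfl⟩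
      exact ⟨Nm n tA a, hNB a, habs_Nm hdv n a⟩
    · rintro _ ⟨i, rfl⟩
      change Nm n tI ((tI - 1) i) ∈ B.map dv
      rw [habs_NS hI]
      exact zero_mem _
  have hPR0 : (P ⊔ R).index ≠ 0 := fun h => hP0 (by
    rw [← AddSubgroup.relIndex_mul_index (le_sup_left : P ≤ P ⊔ R), h, mul_zero])
  have e2 : ((B.map dv).comap (Nm n tI)).index ∣ (P ⊔ R).index := AddSubgroup.index_dvd_of_le hle
  have e3 : (P ⊔ R).index = P.relIndex I' := by
    have h2 := AddSubgroup.relIndex_mul_index (le_sup_left : P ≤ P ⊔ R)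
    have h3 := AddSubgroup.relIndex_mul_index hPst
    have h4 : P.relIndex (P ⊔ R) = I'.index := by
      rw [AddSubgroup.relIndex_sup_left]
      exact (AddSubgroup.index_comap _ _).symm
    have h5 : I'.index ≠ 0 := fun h => hP0 (by rw [← h3, h, mul_zero])
    rw [h4, ← h3, mul_comm] at h2
    exact Nat.eq_of_mul_eq_mul_right (Nat.pos_of_ne_zero h5) h2
  have e4 : P.relIndex I' = P.relIndex (Ker (tI - 1)) * (P ⊔ Ker (tI - 1)).relIndex I' := by
    rw [← AddSubgroup.relIndex_mul_relIndex _ _ _ (le_sup_left : P ≤ P ⊔ Ker (tI - 1))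
      (sup_le hPst hGst), AddSubgroup.relIndex_sup_left]
  have e5 : (P ⊔ Ker (tI - 1)).relIndex I' = (P.map (tI - 1)).relIndex (I'.map (tI - 1)) := by
    rw [habs_cm]
    rfl
  have e6 : I'.map (tI - 1) ≤ P ⊓ Ker (Nm n tI) := by
    rintro _ ⟨i, hi, rfl⟩
    exact ⟨hi, habs_NS hI i⟩
  have e7 : P ⊓ Ker (Nm n tI) = ((ι.range).comap (Nm n tA)).map dv := by
    ext i
    constructor
    · rintro ⟨⟨a, rfl⟩, h⟩
      refine ⟨a, ?_, rfl⟩
      change Nm n tA a ∈ ι.range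
      rw [← hex, habs_Nm hdv]
      exact h
    · rintro ⟨a, ha, rfl⟩
      refine ⟨⟨a, rfl⟩, ?_⟩
      change Nm n tI (dv a) = 0
      rw [← habs_Nm hdv, hex]
      exact ha
  have e8 : P.map (tI - 1) = (Rng (tA - 1)).map dv := by
    ext i
    constructor
    · rintro ⟨_, ⟨a, rfl⟩, h⟩
      exact ⟨(tA - 1) a, ⟨a, rfl⟩, by rw [← h]; exact habs_one hdv a⟩
    · rintro ⟨_, ⟨a, rfl⟩, h⟩
      exact ⟨dv a, ⟨a, rfl⟩, by rw [← h]; exact (habs_one hdv a).symm⟩
  have e9 : Rng (tA - 1) = AddMonoidHom.ker (Nm n tA) := by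
    ext a
    constructor
    · rintro ⟨b, rfl⟩
      exact habs_NS hA b
    · intro h
      obtain ⟨b, hb⟩ := h1 a h
      exact ⟨b, hb.symm⟩
  have e10 : (P.map (tI - 1)).relIndex (P ⊓ Ker (Nm n tI)) =
      ((ι.range).map (Nm n tA)).relIndex (((ι.range).comap (Nm n tA)).map (Nm n tA)) := by
    rw [e8, e7, habs_cm, hk, habs_cm, e9, sup_comm]
  have e11 : ((ι.range).comap (Nm n tA)).map (Nm n tA) ≤ ι.range ⊓ B := by
    rintro _ ⟨a, ha, rfl⟩
    exact ⟨ha, hNB a⟩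
  have e12 : (P.map (tI - 1)).relIndex (P ⊓ Ker (Nm n tI)) ≤
      ((ι.range).map (Nm n tA)).relIndex (ι.range ⊓ B) := by
    rw [e10]
    exact AddSubgroup.relIndex_le_of_le_right e11 hm
  have e13 : (P.map (tI - 1)).relIndex (P ⊓ Ker (Nm n tI)) ≠ 0 := by
    rw [e10]
    exact fun h => hm (AddSubgroup.relIndex_eq_zero_of_le_right e11 h)
  have e14 : (P ⊔ Ker (tI - 1)).relIndex I' ≤
      ((ι.range).map (Nm n tA)).relIndex (ι.range ⊓ B) := by
    rw [e5]
    exact (AddSubgroup.relIndex_le_of_le_right e6 e13).trans e12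
  rw [e1]
  constructor
  · exact fun h => hPR0 (by rw [h] at e2; exact Nat.eq_zero_of_zero_dvd e2)
  · refine (Nat.le_of_dvd (Nat.pos_of_ne_zero hPR0) e2).trans ?_
    rw [e3, e4]
    exact Nat.mul_le_mul_left _ e14

end habs

theorem abs_index {E A I : Type} [AddCommGroup E] [AddCommGroup A] [AddCommGroup I] (n : ℕ)
    (tE : AddMonoid.End E) (tA : AddMonoid.End A) (tI : AddMonoid.End I)
    (hA : tA ^ n = 1) (hI : tI ^ n = 1)
    (ι : E →+ A) (hι : Function.Injective ι) (hιt : ∀ e, ι (tE e) = tA (ι e))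
    (dv : A →+ I) (hdv : ∀ a, dv (tA a) = tI (dv a)) (hex : ∀ a, dv a = 0 ↔ a ∈ ι.range)
    (hP : dv.range.FiniteIndex) (B : AddSubgroup A) (hB : B ≤ Ker (tA - 1))
    (hNB : ∀ a, Nm n tA a ∈ B) (hBf : B.relIndex (Ker (tA - 1)) ≠ 0)
    (h1 : ∀ a, Nm n tA a = 0 → ∃ b, a = (tA - 1) b)
    (hE0 : hh0 n tE ≠ 0) (hE1 : hh1 n tE ≠ 0) :
    (B.map dv ⊔ Rng (Nm n tI)).relIndex (Ker (tI - 1)) ≠ 0 ∧
      hh1 n tE * B.relIndex (Ker (tA - 1)) ≤
        (B.map dv ⊔ Rng (Nm n tI)).relIndex (Ker (tI - 1)) * hh0 n tE := by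
  have ha := habs_a n tE tA tI hA ι hι hιt dv hdv hex h1
  have hb := habs_b tE tA ι hιt dv hex B hB
  set AG := Ker (tA - 1) with hAG
  set IG := Ker (tI - 1) with hIG
  set P := dv.range with hPd
  set DB := B.map dv with hDB
  set NE := (ι.range).map (Nm n tA) with hNE
  have eB : B.relIndex (ι.range ⊓ AG) = (ι.range ⊓ B).relIndex (ι.range ⊓ AG) := by
    rw [← AddSubgroup.inf_relIndex_right]
    congr 1
    ext a
    constructor
    · rintro ⟨h2, h3, h4⟩
      exact ⟨h3, h2⟩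
    · rintro ⟨h2, h3⟩
      exact ⟨h3, h2, hB h3⟩
  have e0 : hh0 n tE = NE.relIndex (ι.range ⊓ B) * (ι.range ⊓ B).relIndex (ι.range ⊓ AG) := by
    have h2 : (Ker (tE - 1)).map ι = ι.range ⊓ AG := by
      ext a
      constructor
      · rintro ⟨e, he, rfl⟩
        refine ⟨⟨e, rfl⟩, ?_⟩
        change (tA - 1) (ι e) = 0
        rw [← habs_one hιt, mem_Ker.1 he, map_zero]
      · rintro ⟨⟨e, rfl⟩, h⟩
        refine ⟨e, ?_, rfl⟩
        change (tE - 1) e = 0
        apply hι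
        rw [habs_one hιt, map_zero]
        exact h
    have h3 : (Rng (Nm n tE)).map ι = NE := by
      ext a
      constructor
      · rintro ⟨_, ⟨e, rfl⟩, rfl⟩
        exact ⟨ι e, ⟨e, rfl⟩, (habs_Nm hιt n e).symm⟩
      · rintro ⟨_, ⟨e, rfl⟩, rfl⟩
        exact ⟨Nm n tE e, ⟨e, rfl⟩, habs_Nm hιt n e⟩
    rw [hh0, ← AddSubgroup.relIndex_map_map_of_injective _ _ hι, h2, h3,
      AddSubgroup.relIndex_mul_relIndex]
    · rintro _ ⟨_, ⟨e, rfl⟩, rfl⟩
      exact ⟨⟨Nm n tE e, habs_Nm hιt n e⟩, hNB _⟩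
    · exact inf_le_inf_left _ hB
  have hm : NE.relIndex (ι.range ⊓ B) ≠ 0 := fun h => hE0 (by rw [e0, h, zero_mul])
  obtain ⟨hy0, hy⟩ := habs_c n tA tI hA ι dv hdv hex h1 B hNB hI hP hm
  have hDAB : AG.map dv ≤ P ⊓ IG := by
    rintro _ ⟨a, ha2, rfl⟩
    refine ⟨⟨a, rfl⟩, ?_⟩
    change (tI - 1) (dv a) = 0
    rw [← habs_one hdv, mem_Ker.1 ha2, map_zero]
  have e1 : DB.relIndex IG = DB.relIndex (AG.map dv) * hh1 n tE * P.relIndex IG := by
    rw [← ha, AddSubgroup.relIndex_mul_relIndex _ _ _ (AddSubgroup.map_mono hB) hDAB,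
      ← AddSubgroup.inf_relIndex_right P, AddSubgroup.relIndex_mul_relIndex _ _ _
      ((AddSubgroup.map_mono hB).trans hDAB) inf_le_right]
  have hNI : Rng (Nm n tI) ≤ IG := by
    rintro _ ⟨i, rfl⟩
    exact habs_SN hI i
  have e2 : DB.relIndex IG = DB.relIndex (Rng (Nm n tI)) *
      (DB ⊔ Rng (Nm n tI)).relIndex IG := by
    rw [← AddSubgroup.relIndex_mul_relIndex _ _ _ (le_sup_left : DB ≤ DB ⊔ Rng (Nm n tI))
      (sup_le ((AddSubgroup.map_mono hB).trans (hDAB.trans inf_le_right)) hNI),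
      AddSubgroup.relIndex_sup_left]
  have hp0 : P.relIndex IG ≠ 0 := fun h => hP.index_ne_zero
    (AddSubgroup.index_eq_zero_of_relIndex_eq_zero h)
  have hd0 : DB.relIndex (AG.map dv) ≠ 0 := fun h => hBf (by rw [hb, h, zero_mul])
  have hx0 : (DB ⊔ Rng (Nm n tI)).relIndex IG ≠ 0 := by
    intro h
    rw [h, mul_zero] at e2
    rw [e2] at e1
    have := e1.symm
    simp only [mul_eq_zero] at this
    tauto
  refine ⟨hx0, ?_⟩
  set x := (DB ⊔ Rng (Nm n tI)).relIndex IG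
  set y := DB.relIndex (Rng (Nm n tI))
  set m := NE.relIndex (ι.range ⊓ B)
  set p := P.relIndex IG
  set d := DB.relIndex (AG.map dv)
  have h3 : hh1 n tE * d ≤ x * m := by
    have h4 : p * (hh1 n tE * d) ≤ p * (x * m) := by
      calc p * (hh1 n tE * d) = d * hh1 n tE * p := by ring
        _ = y * x := by rw [← e1, e2]
        _ ≤ p * m * x := Nat.mul_le_mul_right _ hy
        _ = p * (x * m) := by ring
    exact Nat.le_of_mul_le_mul_left h4 (Nat.pos_of_ne_zero hp0)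
  calc hh1 n tE * B.relIndex AG = hh1 n tE * d * B.relIndex (ι.range ⊓ AG) := by rw [hb]; ring
    _ ≤ x * m * B.relIndex (ι.range ⊓ AG) := Nat.mul_le_mul_right _ h3
    _ = x * hh0 n tE := by rw [e0, eB]; ring

end Pool.Agent.ARC.PH
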