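import Pool.Agent.ARC.HDefs
import Pool.Agent.ARC.HAA
import Pool.Agent.ARC.HOP

/-! # ARC, part H, module HCa

`AA 2` has finite index in the units of `OP L M`: for `y` in `OPx L M` choose `r y ∈ 𝓞 L` with
`y - r y ∈ M^3 OP L M` (`OP_approx`). If `r y = r y'` modulo `M^3 𝓞 L` then `y - y' ∈ M^3 OP L M`,
`y / y' = 1 + M^3 (...)`, in `AA 2` by `mem_AA_of_OP`. So the quotient `OPx / AA 2` injects into the
finite set `𝓞 L / (M^3)`.
 -/

set_option autoImplicit false

noncomputable section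

set_option linter.unusedSectionVars false

namespace Pool.Agent.ARC.PH

open NumberField Module IsDedekindDomain nonZeroDivisors

variable {K L : Type} [Field K] [NumberField K] [Field L] [NumberField L] [Algebra K L]


variable {θ : L} {M : ℕ}

theorem AA_relIndex (h : Good K L θ M) : (AA K L θ M 2).relIndex (OPx L M) ≠ 0 := by
  classical
  have hM : (M : L) ≠ 0 := by
    have := h.three_le
    exact_mod_cast (by omega : M ≠ 0)
  have hM' : (M : 𝓞 L) ≠ 0 := by
    have := h.three_le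
    exact_mod_cast (by omega : M ≠ 0)
  have hI : (Ideal.span {((M : 𝓞 L)) ^ 3} : Ideal (𝓞 L)) ≠ ⊥ := by
    rw [Ne, Ideal.span_singleton_eq_bot]
    exact pow_ne_zero _ hM'
  haveI : Finite (𝓞 L ⧸ (Ideal.span {((M : 𝓞 L)) ^ 3} : Ideal (𝓞 L))) :=
    Ideal.finiteQuotientOfFreeOfNeBot _ hI
  have hap : ∀ u : OPx L M, ∃ z : 𝓞 L, ∃ y ∈ OP L M,
      ((u : Lˣ) : L) = (z : L) + (M : L) ^ 3 * y := fun u => OP_approx 3 u.2.1
  choose r y hy hr using hap
  have key : ∀ u v : OPx L M,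
      Ideal.Quotient.mk (Ideal.span {((M : 𝓞 L)) ^ 3} : Ideal (𝓞 L)) (r u) =
        Ideal.Quotient.mk (Ideal.span {((M : 𝓞 L)) ^ 3} : Ideal (𝓞 L)) (r v) →
      u⁻¹ * v ∈ (AA K L θ M 2).subgroupOf (OPx L M) := by
    intro u v huv
    rw [Ideal.Quotient.eq] at huv
    obtain ⟨c, hc⟩ := Ideal.mem_span_singleton'.1 huv
    rw [Subgroup.mem_subgroupOf]
    have hc' : (c : L) * (M : L) ^ 3 = (r u : L) - (r v : L) := by
      have h1 := congrArg (fun a : 𝓞 L => (a : L)) hc
      simpa using h1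
    refine mem_AA_of_OP h 2 (by norm_num) _
      ((((u : Lˣ)⁻¹ : Lˣ) : L) * (y v - y u - (c : L))) ?_ ?_
    · exact mul_mem u.2.2 (sub_mem (sub_mem (hy v) (hy u)) (OP_of_integral c.isIntegral_coe))
    · have hu0 : ((u : Lˣ) : L) ≠ 0 := Units.ne_zero _
      have e1 : (((u⁻¹ * v : OPx L M) : Lˣ) : L) = (((u : Lˣ)⁻¹ : Lˣ) : L) * ((v : Lˣ) : L) := by
        simp
      rw [e1]
      have e2 : ((v : Lˣ) : L) = ((u : Lˣ) : L) + (M : L) ^ 3 * (y v - y u - (c : L)) := by
        rw [hr v, hr u]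
        linear_combination hc'
      rw [e2, Units.val_inv_eq_inv_val, mul_add, inv_mul_cancel₀ hu0]
      ring
  have hinj : Function.Injective (fun q : OPx L M ⧸ (AA K L θ M 2).subgroupOf (OPx L M) =>
      Ideal.Quotient.mk (Ideal.span {((M : 𝓞 L)) ^ 3} : Ideal (𝓞 L)) (r q.out)) := by
    intro q q' hq
    have h1 := key q.out q'.out hq
    rw [← QuotientGroup.eq, QuotientGroup.out_eq', QuotientGroup.out_eq'] at h1
    exact h1
  haveI : Finite (OPx L M ⧸ (AA K L θ M 2).subgroupOf (OPx L M)) := Finite.of_injective _ hinj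
  exact Subgroup.index_ne_zero_of_finite

end Pool.Agent.ARC.PH
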