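import Pool.Agent.ARC.HDefs

/-! # ARC, part H, module HOrd

Orders and the ring `OP L M`.
`ordv_nonneg_of_integral`: `spanSingleton x` is an integral ideal (`count_coe_nonneg`).
`integral_of_ordv`: a fractional ideal with nonnegative counts is integral (`finprod` factorization,
or: valuations; `IsDedekindDomain.HeightOneSpectrum` intersection of the localizations).
`ordv_of_OP`: `s x` is integral and `ordv v s = 0` (`s ∉ v` since `s` is prime to `M ∈ v`).
`OP_of_ordv`: the ideal `𝔞 = {y ∈ 𝓞 L : y x integral}` is not contained in any `v` containing `M`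
(choose `y` in the product of the `w ^ (- ordv w x)` over the `w` with `ordv w x < 0`, `y ∉ v`), so
`𝔞 + (M) = 1`; the smallest positive natural number in `𝔞` is prime to `M` (as in `OP_unit`).
 -/

set_option autoImplicit false

noncomputable section

set_option linter.unusedSectionVars false

namespace Pool.Agent.ARC.PH

open NumberField Module IsDedekindDomain nonZeroDivisors

variable {L : Type} [Field L] [NumberField L]


private theorem HOrd_le_one {F : FractionalIdeal (𝓞 L)⁰ L} (hF : F ≠ 0)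
    (h : ∀ v : HeightOneSpectrum (𝓞 L), 0 ≤ FractionalIdeal.count L v F) : F ≤ 1 := by
  rw [← FractionalIdeal.finprod_heightOneSpectrum_factorization' (K := L) hF]
  refine finprod_induction (p := fun J : FractionalIdeal (𝓞 L)⁰ L => J ≤ 1) le_rfl ?_ ?_
  · intro a b ha hb
    calc a * b ≤ 1 * 1 := mul_le_mul' ha hb
      _ = 1 := one_mul 1
  · intro v
    obtain ⟨n, hn⟩ := Int.eq_ofNat_of_zero_le (h v)
    rw [hn]
    simp only [zpow_natCast]
    rw [← FractionalIdeal.coeIdeal_pow]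
    exact FractionalIdeal.coeIdeal_le_one

private theorem HOrd_int_of_mem {x : L} (h : x ∈ (1 : FractionalIdeal (𝓞 L)⁰ L)) : IsIntegral ℤ x := by
  obtain ⟨y, rfl⟩ := (FractionalIdeal.mem_one_iff (𝓞 L)⁰).1 h
  exact RingOfIntegers.isIntegral_coe y

private theorem HOrd_ne (x : Lˣ) : FractionalIdeal.spanSingleton (𝓞 L)⁰ (x : L) ≠ 0 :=
  FractionalIdeal.spanSingleton_ne_zero_iff.2 x.ne_zero

theorem ordv_nonneg_of_integral (v : HeightOneSpectrum (𝓞 L)) (x : Lˣ)
    (hx : IsIntegral ℤ (x : L)) : 0 ≤ ordv v x := by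
  obtain ⟨y, hy⟩ : ∃ y : 𝓞 L, (y : L) = x := ⟨⟨x, hx⟩, rfl⟩
  unfold ordv
  have h : FractionalIdeal.spanSingleton (𝓞 L)⁰ (x : L) =
      ((Ideal.span {y} : Ideal (𝓞 L)) : FractionalIdeal (𝓞 L)⁰ L) := by
    rw [FractionalIdeal.coeIdeal_span_singleton, ← hy]
  rw [h]
  exact FractionalIdeal.count_coe_nonneg L v _

theorem integral_of_ordv (x : Lˣ) (h : ∀ v : HeightOneSpectrum (𝓞 L), 0 ≤ ordv v x) :
    IsIntegral ℤ (x : L) :=
  HOrd_int_of_mem (HOrd_le_one (HOrd_ne x) h (FractionalIdeal.mem_spanSingleton_self _ _))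

private theorem HOrd_zero (v : HeightOneSpectrum (𝓞 L)) (x : Lˣ) (y : 𝓞 L) (hy : (y : L) = x)
    (hv : y ∉ v.asIdeal) : ordv v x = 0 := by
  classical
  unfold ordv
  have h : FractionalIdeal.spanSingleton (𝓞 L)⁰ (x : L) =
      ((Ideal.span {y} : Ideal (𝓞 L)) : FractionalIdeal (𝓞 L)⁰ L) := by
    rw [FractionalIdeal.coeIdeal_span_singleton, ← hy]
  have hy0 : y ≠ 0 := by
    rintro rfl
    exact hv (zero_mem _)
  have hJ : (Ideal.span {y} : Ideal (𝓞 L)) ≠ 0 := by
    rw [Ne, Ideal.zero_eq_bot, Ideal.span_singleton_eq_bot]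
    exact hy0
  rw [h, FractionalIdeal.count_coe L v hJ]
  by_contra hc
  have h1 : (Associates.mk v.asIdeal).count (Associates.mk (Ideal.span {y})).factors ≠ 0 := by
    intro h0
    exact hc (by rw [h0]; rfl)
  rw [Associates.count_ne_zero_iff_dvd hJ v.irreducible, Ideal.dvd_span_singleton] at h1
  exact hv h1

private theorem HOrd_not_mem {M s : ℕ} (hs : s.Coprime M) (v : HeightOneSpectrum (𝓞 L))
    (hv : (M : 𝓞 L) ∈ v.asIdeal) : (s : 𝓞 L) ∉ v.asIdeal := by
  intro h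
  have h1 := Nat.gcd_eq_gcd_ab s M
  rw [Nat.Coprime.gcd_eq_one hs] at h1
  have h2 : (1 : 𝓞 L) = (s : 𝓞 L) * ((s.gcdA M : ℤ) : 𝓞 L) + (M : 𝓞 L) * ((s.gcdB M : ℤ) : 𝓞 L) := by
    exact_mod_cast congrArg (Int.cast : ℤ → 𝓞 L) h1
  apply v.isPrime.ne_top
  rw [Ideal.eq_top_iff_one, h2]
  exact add_mem (Ideal.mul_mem_right _ _ h) (Ideal.mul_mem_right _ _ hv)

theorem ordv_of_OP {M : ℕ} (x : Lˣ) (hx : (x : L) ∈ OP L M) (v : HeightOneSpectrum (𝓞 L))
    (hv : (M : 𝓞 L) ∈ v.asIdeal) : 0 ≤ ordv v x := by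
  obtain ⟨s, hs, h⟩ := hx
  have h1 := HOrd_not_mem hs v hv
  have hs0 : (s : L) ≠ 0 := by
    intro h0
    have : s = 0 := by exact_mod_cast h0
    rw [this, Nat.cast_zero] at h1
    exact h1 (zero_mem _)
  have h2 := ordv_nonneg_of_integral v (Units.mk0 (s : L) hs0 * x) (by
    rw [Units.val_mul, Units.val_mk0]
    exact h)
  rw [ordv_mul, HOrd_zero v (Units.mk0 (s : L) hs0) (s : 𝓞 L) (by simp) h1, zero_add] at h2
  exact h2

private theorem HOrd_key (x : Lˣ) (v : HeightOneSpectrum (𝓞 L)) (hv : 0 ≤ ordv v x) :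
    ∃ y : 𝓞 L, y ∉ v.asIdeal ∧ IsIntegral ℤ ((y : L) * x) := by
  classical
  obtain ⟨S, hS⟩ : ∃ S : Finset (HeightOneSpectrum (𝓞 L)), ∀ w, w ∈ S ↔ ordv w x < 0 := by
    have h1 := FractionalIdeal.finite_factors
      (FractionalIdeal.spanSingleton (𝓞 L)⁰ (x : L))
    rw [Filter.eventually_cofinite] at h1
    have h2 : {w : HeightOneSpectrum (𝓞 L) | ordv w x < 0}.Finite :=
      h1.subset fun w hw h0 => absurd h0 (ne_of_lt hw)
    exact ⟨h2.toFinset, fun w => h2.mem_toFinset⟩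
  obtain ⟨J, hJ⟩ : ∃ J : Ideal (𝓞 L), J = ∏ w ∈ S, w.asIdeal ^ (-ordv w x).toNat := ⟨_, rfl⟩
  have hJ0 : J ≠ 0 := by
    rw [hJ]
    exact Finset.prod_ne_zero_iff.2 fun w _ => pow_ne_zero _ w.ne_bot
  have hJv : ¬ J ≤ v.asIdeal := by
    intro hle
    rw [hJ, v.isPrime.prod_le] at hle
    obtain ⟨w, hw, hle⟩ := hle
    have h1 : w.asIdeal ≤ v.asIdeal := v.isPrime.le_of_pow_le hle
    have h2 : w.asIdeal = v.asIdeal := w.isMaximal.eq_of_le v.isPrime.ne_top h1
    have h3 : w = v := HeightOneSpectrum.ext h2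
    rw [h3, hS] at hw
    omega
  obtain ⟨y, hyJ, hyv⟩ := Set.not_subset.1 hJv
  refine ⟨y, hyv, ?_⟩
  have hcJ : ∀ u : HeightOneSpectrum (𝓞 L), FractionalIdeal.count L u (J : FractionalIdeal (𝓞 L)⁰ L) =
      if u ∈ S then -ordv u x else 0 := by
    intro u
    have e : (J : FractionalIdeal (𝓞 L)⁰ L) =
        ∏ w ∈ S, (w.asIdeal : FractionalIdeal (𝓞 L)⁰ L) ^ (-ordv w x).toNat := by
      rw [hJ]
      refine (map_prod (FractionalIdeal.coeIdealHom (𝓞 L)⁰ L) _ _).trans ?_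
      refine Finset.prod_congr rfl fun w _ => ?_
      exact map_pow (FractionalIdeal.coeIdealHom (𝓞 L)⁰ L) _ _
    rw [e, FractionalIdeal.count_prod L u S _ (fun w _ => pow_ne_zero _
      (FractionalIdeal.coeIdeal_ne_zero.2 w.ne_bot))]
    simp only [FractionalIdeal.count_pow, FractionalIdeal.count_maximal, mul_ite, mul_one, mul_zero]
    rw [Finset.sum_ite_eq' S u]
    split_ifs with h
    · rw [hS] at h
      rw [Int.toNat_of_nonneg (by omega)]
    · rfl
  have hprod : (J : FractionalIdeal (𝓞 L)⁰ L) * FractionalIdeal.spanSingleton (𝓞 L)⁰ (x : L) ≤ 1 := by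
    refine HOrd_le_one (mul_ne_zero (FractionalIdeal.coeIdeal_ne_zero.2 hJ0) (HOrd_ne x)) fun u => ?_
    rw [FractionalIdeal.count_mul L u (FractionalIdeal.coeIdeal_ne_zero.2 hJ0) (HOrd_ne x), hcJ u]
    change 0 ≤ _ + ordv u x
    split_ifs with h
    · omega
    · rw [hS] at h
      omega
  exact HOrd_int_of_mem (hprod (FractionalIdeal.mul_mem_mul (FractionalIdeal.mem_coeIdeal_of_mem _ hyJ)
    (FractionalIdeal.mem_spanSingleton_self _ _)))

theorem OP_of_ordv {M : ℕ} (hM : M ≠ 0) (x : Lˣ)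
    (h : ∀ v : HeightOneSpectrum (𝓞 L), (M : 𝓞 L) ∈ v.asIdeal → 0 ≤ ordv v x) :
    (x : L) ∈ OP L M := by
  classical
  obtain ⟨A, hA⟩ : ∃ A : Ideal (𝓞 L), ∀ y : 𝓞 L, y ∈ A ↔ IsIntegral ℤ ((y : L) * x) := by
    refine ⟨{ carrier := {y | IsIntegral ℤ ((y : L) * x)}
              add_mem' := ?_
              zero_mem' := ?_
              smul_mem' := ?_ }, fun y => Iff.rfl⟩
    · intro a b ha hb
      simp only [Set.mem_ofPred_eq] at ha hb ⊢
      have e : ((a + b : 𝓞 L) : L) * x = (a : L) * x + (b : L) * x := by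
        push_cast
        ring
      rw [e]
      exact ha.add hb
    · simp only [Set.mem_ofPred_eq]
      have e : ((0 : 𝓞 L) : L) * (x : L) = 0 := by simp
      rw [e]
      exact isIntegral_zero
    · intro c a ha
      simp only [Set.mem_ofPred_eq] at ha ⊢
      have e : ((c • a : 𝓞 L) : L) * x = (c : L) * ((a : L) * x) := by
        rw [smul_eq_mul]
        push_cast
        ring
      rw [e]
      exact (RingOfIntegers.isIntegral_coe c).mul ha
  -- a positive natural number in `A`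
  have hex : ∃ s : ℕ, 0 < s ∧ (s : 𝓞 L) ∈ A := by
    have halg : IsAlgebraic ℤ (x : L) := by
      have : Algebra.IsAlgebraic ℤ L := (IsFractionRing.comap_isAlgebraic_iff (K := ℚ)).2 inferInstance
      exact Algebra.IsAlgebraic.isAlgebraic _
    obtain ⟨y, hy, hint⟩ := halg.exists_integral_multiple
    refine ⟨y.natAbs, Int.natAbs_pos.2 hy, (hA _).2 ?_⟩
    have e : (((y.natAbs : ℕ) : 𝓞 L) : L) = ((y.natAbs : ℤ) : L) := by simp
    rw [e]
    rw [zsmul_eq_mul] at hint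
    rcases Int.natAbs_eq y with h1 | h1
    · rw [← h1]
      exact hint
    · have e2 : ((y.natAbs : ℤ) : L) = -((y : ℤ) : L) := by
        have : (y.natAbs : ℤ) = -y := by omega
        rw [this]
        push_cast
        ring
      rw [e2, neg_mul]
      exact hint.neg
  obtain ⟨s, ⟨hs0, hsA⟩, hmin⟩ := Nat.findX hex
  have htop : A ⊔ Ideal.span {(M : 𝓞 L)} = ⊤ := by
    by_contra hne
    obtain ⟨m, hm, hle⟩ := Ideal.exists_le_maximal _ hne
    have hMm : (M : 𝓞 L) ∈ m := hle (Ideal.mem_sup_right (Ideal.mem_span_singleton_self _))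
    have hm0 : m ≠ ⊥ := by
      rintro rfl
      rw [Ideal.mem_bot] at hMm
      exact hM (by exact_mod_cast hMm)
    obtain ⟨y, hy, hint⟩ := HOrd_key x ⟨m, hm.isPrime, hm0⟩ (h ⟨m, hm.isPrime, hm0⟩ hMm)
    exact hy (hle (Ideal.mem_sup_left ((hA y).2 hint)))
  have hone : (1 : 𝓞 L) ∈ A ⊔ Ideal.span {(M : 𝓞 L)} := by
    rw [htop]
    exact Submodule.mem_top
  obtain ⟨a, ha, b', hb', hab⟩ := Submodule.mem_sup.1 hone
  obtain ⟨b, rfl⟩ := Ideal.mem_span_singleton'.1 hb'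
  refine ⟨s, ?_, ?_⟩
  · by_contra hc
    obtain ⟨p, hp, hps, hpM⟩ := Nat.Prime.not_coprime_iff_dvd.1 hc
    obtain ⟨r, rfl⟩ := hps
    obtain ⟨M', rfl⟩ := hpM
    have hr0 : 0 < r := Nat.pos_of_ne_zero (by rintro rfl; simp at hs0)
    have hrA : (r : 𝓞 L) ∈ A := by
      have e : (r : 𝓞 L) = (r : 𝓞 L) * a + (M' : 𝓞 L) * b * ((p * r : ℕ) : 𝓞 L) := by
        have e1 : (r : 𝓞 L) = (r : 𝓞 L) * 1 := (mul_one _).symm
        calc (r : 𝓞 L) = (r : 𝓞 L) * (a + b * ((p * M' : ℕ) : 𝓞 L)) := by rw [hab, mul_one]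
          _ = _ := by
            push_cast
            ring
      rw [e]
      exact add_mem (Ideal.mul_mem_left _ _ ha) (Ideal.mul_mem_left _ _ hsA)
    have hlt : r < p * r := by
      have := hp.two_le
      nlinarith
    exact hmin r hlt ⟨hr0, hrA⟩
  · have := (hA _).1 hsA
    simpa using this

end Pool.Agent.ARC.PH
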