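import Pool.Agent.ARC.HDefs
import Pool.Agent.ARC.HOrd

/-! # ARC, part H, module HCb

The divisors of the units of `OP L M` have finite index: let `c` be the homomorphism from the
divisors to the class group, `i ↦ ∏ v ^ (i v)`. If `c i = 1` then the fractional ideal
`∏ v ^ (i v)` is generated by `y ∈ Lˣ`; the order of `y` is `i v` for `v` not containing `M`
and `0` for the others (`FractionalIdeal.count_finsuppProd`), so `y ∈ OPx L M` (`OP_of_ordv`) and
`dv M y = i`. So the kernel of `c` is contained in the image; the class group is finite.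
 -/

set_option autoImplicit false

noncomputable section

set_option linter.unusedSectionVars false

namespace Pool.Agent.ARC.PH

open NumberField Module IsDedekindDomain nonZeroDivisors

variable {L : Type} [Field L] [NumberField L]


/-- a prime as an invertible fractional ideal -/
private def HCb_U {M : ℕ} (v : PM L M) : (FractionalIdeal (𝓞 L)⁰ L)ˣ :=
  Units.mk0 (v.1.asIdeal : FractionalIdeal (𝓞 L)⁰ L)
    (FractionalIdeal.coeIdeal_ne_zero.mpr v.1.ne_bot)

/-- the fractional ideal of a divisor -/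
private def HCb_phi (L : Type) [Field L] [NumberField L] (M : ℕ) :
    (PM L M →₀ ℤ) →+ Additive (FractionalIdeal (𝓞 L)⁰ L)ˣ :=
  Finsupp.liftAddHom fun v => zmultiplesHom _ (Additive.ofMul (HCb_U v))

private theorem HCb_phi_single {M : ℕ} (v : PM L M) (n : ℤ) :
    HCb_phi L M (Finsupp.single v n) = Additive.ofMul (HCb_U v ^ n) := by
  unfold HCb_phi
  rw [Finsupp.liftAddHom_apply_single, zmultiplesHom_apply, ofMul_zpow]

/-- the order at `w` as a homomorphism -/
private def HCb_cnt (w : HeightOneSpectrum (𝓞 L)) :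
    Additive (FractionalIdeal (𝓞 L)⁰ L)ˣ →+ ℤ where
  toFun u := FractionalIdeal.count L w ((u.toMul : (FractionalIdeal (𝓞 L)⁰ L)ˣ) :
    FractionalIdeal (𝓞 L)⁰ L)
  map_zero' := by
    rw [toMul_zero, Units.val_one]
    exact FractionalIdeal.count_one L w
  map_add' u v := by
    rw [toMul_add, Units.val_mul, FractionalIdeal.count_mul L w (Units.ne_zero _) (Units.ne_zero _)]

private theorem HCb_cnt_apply (w : HeightOneSpectrum (𝓞 L))
    (u : Additive (FractionalIdeal (𝓞 L)⁰ L)ˣ) : HCb_cnt w u =
      FractionalIdeal.count L w ((u.toMul : (FractionalIdeal (𝓞 L)⁰ L)ˣ) :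
        FractionalIdeal (𝓞 L)⁰ L) := rfl

private theorem HCb_count {M : ℕ} (w : PM L M) (i : PM L M →₀ ℤ) :
    HCb_cnt w.1 (HCb_phi L M i) = i w := by
  have h : (HCb_cnt w.1).comp (HCb_phi L M) = Finsupp.applyAddHom w := by
    refine Finsupp.addHom_ext fun v n => ?_
    rw [AddMonoidHom.comp_apply, HCb_phi_single, HCb_cnt_apply, toMul_ofMul,
      Units.val_zpow_eq_zpow_val, FractionalIdeal.count_zpow]
    show n * FractionalIdeal.count L w.1 (v.1.asIdeal : FractionalIdeal (𝓞 L)⁰ L) =
      Finsupp.single v n w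
    classical
    rw [Finsupp.single_apply]
    by_cases hvw : v = w
    · rw [if_pos hvw, hvw, FractionalIdeal.count_self, mul_one]
    · rw [if_neg hvw, FractionalIdeal.count_maximal_coprime L w.1
        (fun h' => hvw (Subtype.ext h')), mul_zero]
  exact DFunLike.congr_fun h i

private theorem HCb_count' {M : ℕ} (w : HeightOneSpectrum (𝓞 L)) (hw : (M : 𝓞 L) ∈ w.asIdeal)
    (i : PM L M →₀ ℤ) : HCb_cnt w (HCb_phi L M i) = 0 := by
  have h : (HCb_cnt w).comp (HCb_phi L M) = 0 := by
    refine Finsupp.addHom_ext fun v n => ?_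
    rw [AddMonoidHom.comp_apply, HCb_phi_single, HCb_cnt_apply, toMul_ofMul,
      Units.val_zpow_eq_zpow_val, FractionalIdeal.count_zpow]
    show n * FractionalIdeal.count L w (v.1.asIdeal : FractionalIdeal (𝓞 L)⁰ L) = 0
    have hne : v.1 ≠ w := fun h' => v.2 (by rw [h']; exact hw)
    rw [FractionalIdeal.count_maximal_coprime L w hne, mul_zero]
  exact DFunLike.congr_fun h i

/-- the class of a divisor -/
private def HCb_c (L : Type) [Field L] [NumberField L] (M : ℕ) :
    (PM L M →₀ ℤ) →+ Additive (ClassGroup (𝓞 L)) :=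
  (MonoidHom.toAdditive (ClassGroup.mk (R := 𝓞 L) L)).comp (HCb_phi L M)

theorem dv_OPx_finiteIndex {M : ℕ} (hM : M ≠ 0) :
    ((Subgroup.toAddSubgroup (OPx L M)).map (dv M)).FiniteIndex := by
  have hle : (HCb_c L M).ker ≤ (Subgroup.toAddSubgroup (OPx L M)).map (dv M) := by
    intro i hi
    have h1 : ClassGroup.mk (R := 𝓞 L) L (HCb_phi L M i).toMul = 1 := hi
    rw [ClassGroup.mk_eq_one_iff, FractionalIdeal.isPrincipal_iff] at h1
    obtain ⟨y, hy⟩ := h1
    have hy0 : y ≠ 0 := by
      rintro rfl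
      rw [FractionalIdeal.spanSingleton_zero] at hy
      exact Units.ne_zero _ hy
    have hord : ∀ w : HeightOneSpectrum (𝓞 L), ordv w (Units.mk0 y hy0) =
        HCb_cnt w (HCb_phi L M i) := by
      intro w
      rw [HCb_cnt_apply, hy]
      rfl
    have hordinv : ∀ w : HeightOneSpectrum (𝓞 L), ordv w (Units.mk0 y hy0)⁻¹ =
        - HCb_cnt w (HCb_phi L M i) := by
      intro w
      have h2 := ordv_mul w (Units.mk0 y hy0) (Units.mk0 y hy0)⁻¹
      rw [mul_inv_cancel, ordv_one, hord] at h2
      linarith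
    refine ⟨Additive.ofMul (Units.mk0 y hy0), ?_, ?_⟩
    · show Units.mk0 y hy0 ∈ OPx L M
      rw [mem_OPx]
      refine ⟨OP_of_ordv hM _ fun w hw => ?_, OP_of_ordv hM _ fun w hw => ?_⟩
      · rw [hord, HCb_count' w hw]
      · rw [hordinv, HCb_count' w hw, neg_zero]
    · ext v
      rw [dv_apply, toMul_ofMul, hord, HCb_count]
  have hfin : Finite (HCb_c L M).range := inferInstance
  have h3 : (HCb_c L M).ker.FiniteIndex := AddSubgroup.finiteIndex_ker _
  exact AddSubgroup.finiteIndex_of_le hle

end Pool.Agent.ARC.PH
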