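import Pool.Agent.ARC.HDefs
import Pool.Agent.ARC.HCa
import Pool.Agent.ARC.HCb

/-! # ARC, part H, module HC

`[I : dv A] = [I : dv OPx] [dv OPx : dv A]`, and `[dv OPx : dv A] ≤ [OPx : A]`.
 -/

set_option autoImplicit false

noncomputable section

set_option linter.unusedSectionVars false

namespace Pool.Agent.ARC.PH

open NumberField Module IsDedekindDomain nonZeroDivisors

variable {K L : Type} [Field K] [NumberField K] [Field L] [NumberField L] [Algebra K L]


variable {θ : L} {M : ℕ}

theorem dA_finiteIndex (h : Good K L θ M) : (dA (K := K) θ M).range.FiniteIndex := by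
  have hM : M ≠ 0 := by
    have := h.three_le
    omega
  have e1 : (dA (K := K) θ M).range =
      (Subgroup.toAddSubgroup (AA K L θ M 2)).map (dv M) := by
    ext i
    simp only [AddMonoidHom.mem_range, AddSubgroup.mem_map]
    constructor
    · rintro ⟨a, rfl⟩
      exact ⟨incl (AA K L θ M 2) a, (a.toMul : AA K L θ M 2).2, rfl⟩
    · rintro ⟨u, hu, rfl⟩
      exact ⟨Additive.ofMul ⟨u.toMul, hu⟩, rfl⟩
  have hle : Subgroup.toAddSubgroup (AA K L θ M 2) ≤ Subgroup.toAddSubgroup (OPx L M) :=
    fun u hu => AA_le_OPx h 2 (by norm_num) hu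
  have h1 : (Subgroup.toAddSubgroup (AA K L θ M 2)).relIndex (Subgroup.toAddSubgroup (OPx L M)) ≠ 0 := by
    rw [Subgroup.relIndex_toAddSubgroup]
    exact AA_relIndex h
  have h2 : ((Subgroup.toAddSubgroup (AA K L θ M 2)).map (dv M)).relIndex
      ((Subgroup.toAddSubgroup (OPx L M)).map (dv M)) ≠ 0 := by
    rw [AddSubgroup.relIndex_map_map]
    have e2 : Subgroup.toAddSubgroup (OPx L M) ⊔ (dv M).ker =
        Subgroup.toAddSubgroup (OPx L M) ⊔
          (Subgroup.toAddSubgroup (AA K L θ M 2) ⊔ (dv M).ker) := by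
      rw [← sup_assoc, sup_eq_left.2 hle]
    rw [e2, AddSubgroup.relIndex_sup_right]
    intro h3
    exact h1 (AddSubgroup.relIndex_eq_zero_of_le_left le_sup_left h3)
  haveI := dv_OPx_finiteIndex (L := L) hM
  rw [e1]
  refine ⟨?_⟩
  rw [← AddSubgroup.relIndex_mul_index (AddSubgroup.map_mono hle)]
  exact mul_ne_zero h2 AddSubgroup.FiniteIndex.index_ne_zero

end Pool.Agent.ARC.PH
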