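import Mathlib
import Pool.Agent.ARC.Defs

/-! # ARC, part H (first inequality): definitions

`L / K` is a Galois extension of number fields with cyclic group generated by `t`. -/

set_option autoImplicit false

noncomputable section

set_option linter.unusedSectionVars false

namespace Pool.Agent.ARC.PH

open NumberField Module IsDedekindDomain nonZeroDivisors

/-! ## Endomorphisms of abelian groups -/

section abs

variable {A : Type} [AddCommGroup A]

/-- The kernel of an endomorphism. -/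
def Ker (f : AddMonoid.End A) : AddSubgroup A := AddMonoidHom.ker f

/-- The range of an endomorphism. -/
def Rng (f : AddMonoid.End A) : AddSubgroup A := AddMonoidHom.range f

theorem mem_Ker {f : AddMonoid.End A} {a : A} : a ∈ Ker f ↔ f a = 0 := AddMonoidHom.mem_ker

theorem mem_Rng {f : AddMonoid.End A} {a : A} : a ∈ Rng f ↔ ∃ b, f b = a := AddMonoidHom.mem_range

/-- The norm `1 + t + ... + t ^ (n - 1)`. -/
def Nm (n : ℕ) (t : AddMonoid.End A) : AddMonoid.End A := ∑ i ∈ Finset.range n, t ^ i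

theorem Nm_apply (n : ℕ) (t : AddMonoid.End A) (a : A) :
    Nm n t a = ∑ i ∈ Finset.range n, (t ^ i) a := by
  unfold Nm
  exact AddMonoidHom.finsetSum_apply _ _ _

/-- The order of `ker (t - 1) / N A` (zero if infinite). -/
def hh0 (n : ℕ) (t : AddMonoid.End A) : ℕ := (Rng (Nm n t)).relIndex (Ker (t - 1))

/-- The order of `ker N / (t - 1) A` (zero if infinite). -/
def hh1 (n : ℕ) (t : AddMonoid.End A) : ℕ := (Rng (t - 1)).relIndex (Ker (Nm n t))

end abs

/-! ## The rings and lattices -/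

/-- The semi-local ring at `M`: the elements `x` of `L` such that `s x` is integral for some
natural number `s` prime to `M`. -/
def OP (L : Type) [Field L] (M : ℕ) : Subring L where
  carrier := {x | ∃ s : ℕ, s.Coprime M ∧ IsIntegral ℤ ((s : L) * x)}
  mul_mem' := by
    rintro x y ⟨s, hs, hx⟩ ⟨r, hr, hy⟩
    refine ⟨s * r, Nat.Coprime.mul_left hs hr, ?_⟩
    have h := hx.mul hy
    have e : ((s * r : ℕ) : L) * (x * y) = s * x * (r * y) := by push_cast; ring
    rw [e]
    exact h
  one_mem' := ⟨1, Nat.coprime_one_left M, by simpa using isIntegral_one⟩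
  add_mem' := by
    rintro x y ⟨s, hs, hx⟩ ⟨r, hr, hy⟩
    refine ⟨s * r, Nat.Coprime.mul_left hs hr, ?_⟩
    have h1 : IsIntegral ℤ (r : L) := isIntegral_natCast _
    have h2 : IsIntegral ℤ (s : L) := isIntegral_natCast _
    have h := (hx.mul h1).add (hy.mul h2)
    have e : ((s * r : ℕ) : L) * (x + y) = s * x * r + r * y * s := by push_cast; ring
    rw [e]
    exact h
  zero_mem' := ⟨1, Nat.coprime_one_left M, by simpa using isIntegral_zero⟩
  neg_mem' := by
    rintro x ⟨s, hs, hx⟩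
    refine ⟨s, hs, ?_⟩
    have h := hx.neg
    rwa [← mul_neg] at h

section KL

variable (K L : Type) [Field K] [NumberField K] [Field L] [NumberField L] [Algebra K L]

/-- The lattice of all combinations of the conjugates of `θ` with coefficients in `OP K M`. -/
def Lam (θ : L) (M : ℕ) : AddSubgroup L where
  carrier := {x | ∃ c : (L ≃ₐ[K] L) → K, (∀ g, c g ∈ OP K M) ∧
    x = ∑ g : L ≃ₐ[K] L, algebraMap K L (c g) * g θ}
  add_mem' := by
    rintro x y ⟨c, hc, rfl⟩ ⟨d, hd, rfl⟩
    refine ⟨fun g => c g + d g, fun g => add_mem (hc g) (hd g), ?_⟩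
    rw [← Finset.sum_add_distrib]
    refine Finset.sum_congr rfl fun g _ => ?_
    rw [map_add, add_mul]
  zero_mem' := ⟨fun _ => 0, fun _ => zero_mem _, by simp⟩
  neg_mem' := by
    rintro x ⟨c, hc, rfl⟩
    refine ⟨fun g => - c g, fun g => neg_mem (hc g), ?_⟩
    rw [← Finset.sum_neg_distrib]
    refine Finset.sum_congr rfl fun g _ => ?_
    rw [map_neg, neg_mul]

/-- The hypotheses on `θ` and `M`. -/
structure Good (θ : L) (M : ℕ) : Prop where
  /-- normal basis -/
  indep : LinearIndependent K (fun g : L ≃ₐ[K] L => g θ)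
  integral : IsIntegral ℤ θ
  sub : ∀ x ∈ OP L M, (M : L) * x ∈ Lam K L θ M
  three_le : 3 ≤ M
  dvd : finrank K L ∣ M
  unr : Unr K L M

/-- The group of all `1 + M ^ k x`, `x` in the lattice (defined as a closure; see `mem_AA`). -/
def AA (θ : L) (M k : ℕ) : Subgroup Lˣ :=
  Subgroup.closure {u : Lˣ | ∃ x ∈ Lam K L θ M, (u : L) = 1 + (M : L) ^ k * x}

/-- The units in `AA`. -/
def EE (θ : L) (M : ℕ) : Subgroup Lˣ :=
  AA K L θ M 2 ⊓ (Units.map (algebraMap (𝓞 L) L : 𝓞 L →* L)).range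

/-- `w` is ramified in `L`. -/
def Ram (w : Helper4.RP K) : Prop :=
  ∃ u : InfinitePlace L, u.comap (algebraMap K L) = w.1 ∧ u.IsComplex

/-- The elements of `K` which are positive at the ramified real places. -/
def BB : Subgroup Lˣ where
  carrier := {u | ∃ x : K, algebraMap K L x = u ∧ ∀ w : Helper4.RP K, Ram K L w →
    0 < Helper4.rv w x}
  mul_mem' := by
    rintro u v ⟨x, hx, hx'⟩ ⟨y, hy, hy'⟩
    refine ⟨x * y, by rw [map_mul, hx, hy, Units.val_mul], fun w hw => ?_⟩
    rw [map_mul]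
    exact mul_pos (hx' w hw) (hy' w hw)
  one_mem' := ⟨1, by simp, fun w _ => by rw [map_one]; exact one_pos⟩
  inv_mem' := by
    rintro u ⟨x, hx, hx'⟩
    refine ⟨x⁻¹, by rw [map_inv₀, hx, Units.val_inv_eq_inv_val], fun w hw => ?_⟩
    rw [map_inv₀]
    exact inv_pos.2 (hx' w hw)

variable {K L}

/-- The action of `t` on the multiplicative group of `L`. -/
def tU (t : L ≃ₐ[K] L) : Lˣ →* Lˣ := Units.map (t : L →* L)

theorem tU_val (t : L ≃ₐ[K] L) (u : Lˣ) : ((tU t u : Lˣ) : L) = t (u : L) := rfl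

/-- The restriction of `t` to a stable subgroup of the multiplicative group, written
additively. -/
def rs (t : L ≃ₐ[K] L) (H : Subgroup Lˣ) (hH : ∀ u ∈ H, tU t u ∈ H) :
    AddMonoid.End (Additive H) :=
  MonoidHom.toAdditive (((tU t).comp H.subtype).codRestrict H fun u => hH u u.2)

theorem rs_val (t : L ≃ₐ[K] L) (H : Subgroup Lˣ) (hH : ∀ u ∈ H, tU t u ∈ H) (u : Additive H) :
    (((rs t H hH u).toMul : H) : Lˣ) = tU t ((u.toMul : H) : Lˣ) := rfl

theorem Lam_stable (t : L ≃ₐ[K] L) (θ : L) (M : ℕ) {x : L} (hx : x ∈ Lam K L θ M) :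
    t x ∈ Lam K L θ M := by
  obtain ⟨c, hc, rfl⟩ := hx
  refine ⟨fun g => c (t⁻¹ * g), fun g => hc _, ?_⟩
  rw [map_sum, ← Equiv.sum_comp (Equiv.mulLeft t)
    (fun g => algebraMap K L (c (t⁻¹ * g)) * g θ)]
  refine Finset.sum_congr rfl fun g _ => ?_
  simp

theorem AA_stable (t : L ≃ₐ[K] L) (θ : L) (M k : ℕ) : ∀ u ∈ AA K L θ M k,
    tU t u ∈ AA K L θ M k := by
  intro u hu
  have h : AA K L θ M k ≤ (AA K L θ M k).comap (tU t) := by
    conv_lhs => rw [AA]
    rw [Subgroup.closure_le]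
    rintro v ⟨x, hx, hv⟩
    refine Subgroup.subset_closure ⟨t x, Lam_stable t θ M hx, ?_⟩
    rw [tU_val, hv]
    simp
  exact h hu

theorem EE_stable (t : L ≃ₐ[K] L) (θ : L) (M : ℕ) : ∀ u ∈ EE K L θ M, tU t u ∈ EE K L θ M := by
  rintro u ⟨hu, e, he⟩
  refine ⟨AA_stable t θ M 2 u hu, Units.map (MulSemiringAction.toRingHom (L ≃ₐ[K] L) (𝓞 L) t :
    𝓞 L →* 𝓞 L) e, ?_⟩
  rw [← he]
  ext
  rfl

/-- `t` on `A = AA K L θ M 2`. -/
def tA (t : L ≃ₐ[K] L) (θ : L) (M : ℕ) : AddMonoid.End (Additive (AA K L θ M 2)) :=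
  rs t (AA K L θ M 2) (AA_stable t θ M 2)

/-- `t` on `E`. -/
def tE (t : L ≃ₐ[K] L) (θ : L) (M : ℕ) : AddMonoid.End (Additive (EE K L θ M)) :=
  rs t (EE K L θ M) (EE_stable t θ M)

/-- The inclusion of a subgroup, additively. -/
def incl (H : Subgroup Lˣ) : Additive H →+ Additive Lˣ := MonoidHom.toAdditive H.subtype

variable (K) in
/-- The inclusion of `E` in `A`. -/
def iEA (θ : L) (M : ℕ) : Additive (EE K L θ M) →+ Additive (AA K L θ M 2) :=
  MonoidHom.toAdditive (Subgroup.inclusion inf_le_left)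

variable (K) in
/-- The group `B` as a subgroup of `A`. -/
def BA (θ : L) (M : ℕ) : AddSubgroup (Additive (AA K L θ M 2)) :=
  (Subgroup.toAddSubgroup (BB K L)).comap (incl (AA K L θ M 2))

theorem mem_BA {θ : L} {M : ℕ} {a : Additive (AA K L θ M 2)} :
    a ∈ BA K θ M ↔ ((a.toMul : AA K L θ M 2) : Lˣ) ∈ BB K L := Iff.rfl

end KL

/-- The logarithmic map on the multiplicative group of `L` (all infinite places). -/
def Lg (L : Type) [Field L] [NumberField L] : Additive Lˣ →+ (InfinitePlace L → ℝ) where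
  toFun u w := w.mult * Real.log (w ((u.toMul : Lˣ) : L))
  map_zero' := by
    ext w
    simp
  map_add' u v := by
    ext w
    have h1 : w ((u.toMul : Lˣ) : L) ≠ 0 := (map_ne_zero w).2 (Units.ne_zero _)
    have h2 : w ((v.toMul : Lˣ) : L) ≠ 0 := (map_ne_zero w).2 (Units.ne_zero _)
    rw [Pi.add_apply, ← mul_add, toMul_add, Units.val_mul, map_mul, Real.log_mul h1 h2]

theorem Lg_apply (L : Type) [Field L] [NumberField L] (u : Additive Lˣ) (w : InfinitePlace L) :
    Lg L u w = w.mult * Real.log (w ((u.toMul : Lˣ) : L)) := rfl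

/-- The units of the ring `OP L M`. -/
def OPx (L : Type) [Field L] (M : ℕ) : Subgroup Lˣ where
  carrier := {u | (u : L) ∈ OP L M ∧ ((u⁻¹ : Lˣ) : L) ∈ OP L M}
  mul_mem' := by
    rintro u v ⟨h1, h2⟩ ⟨h3, h4⟩
    refine ⟨by rw [Units.val_mul]; exact mul_mem h1 h3, ?_⟩
    rw [mul_inv, Units.val_mul]
    exact mul_mem h2 h4
  one_mem' := ⟨by rw [Units.val_one]; exact one_mem _, by
    rw [inv_one, Units.val_one]
    exact one_mem _⟩
  inv_mem' := by
    rintro u ⟨h1, h2⟩
    exact ⟨h2, by rwa [inv_inv]⟩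

theorem mem_OPx {L : Type} [Field L] {M : ℕ} {u : Lˣ} :
    u ∈ OPx L M ↔ (u : L) ∈ OP L M ∧ ((u⁻¹ : Lˣ) : L) ∈ OP L M := Iff.rfl

/-! ## Divisors -/

/-- The primes of `L` which do not contain `M`. -/
abbrev PM (L : Type) [Field L] [NumberField L] (M : ℕ) : Type :=
  {v : HeightOneSpectrum (𝓞 L) // (M : 𝓞 L) ∉ v.asIdeal}

/-- The order of `u` at the prime `v`. -/
def ordv {L : Type} [Field L] [NumberField L] (v : HeightOneSpectrum (𝓞 L)) (u : Lˣ) : ℤ :=
  FractionalIdeal.count L v (FractionalIdeal.spanSingleton (𝓞 L)⁰ (u : L))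

theorem ordv_one {L : Type} [Field L] [NumberField L] (v : HeightOneSpectrum (𝓞 L)) :
    ordv v (1 : Lˣ) = 0 := by
  unfold ordv
  rw [Units.val_one, FractionalIdeal.spanSingleton_one, FractionalIdeal.count_one]

theorem ordv_mul {L : Type} [Field L] [NumberField L] (v : HeightOneSpectrum (𝓞 L)) (u w : Lˣ) :
    ordv v (u * w) = ordv v u + ordv v w := by
  unfold ordv
  rw [Units.val_mul, ← FractionalIdeal.spanSingleton_mul_spanSingleton, FractionalIdeal.count_mul]
  · exact FractionalIdeal.spanSingleton_ne_zero_iff.2 u.ne_zero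
  · exact FractionalIdeal.spanSingleton_ne_zero_iff.2 w.ne_zero

theorem ordv_finite {L : Type} [Field L] [NumberField L] (M : ℕ) (u : Lˣ) :
    (Function.support fun v : PM L M => ordv v.1 u).Finite := by
  have h := FractionalIdeal.finite_factors
    (FractionalIdeal.spanSingleton (𝓞 L)⁰ (u : L))
  rw [Filter.eventually_cofinite] at h
  exact (h.preimage Subtype.val_injective.injOn).subset fun v hv => hv

/-- The divisor of `u` outside `M`. -/
def dv {L : Type} [Field L] [NumberField L] (M : ℕ) : Additive Lˣ →+ (PM L M →₀ ℤ) where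
  toFun u := Finsupp.ofSupportFinite (fun v => ordv v.1 u.toMul) (ordv_finite M _)
  map_zero' := by
    ext v
    exact ordv_one v.1
  map_add' u w := by
    ext v
    exact ordv_mul v.1 _ _

theorem dv_apply {L : Type} [Field L] [NumberField L] (M : ℕ) (u : Additive Lˣ) (v : PM L M) :
    dv M u v = ordv v.1 u.toMul := rfl

/-- The divisor of an ideal outside `M`. -/
def dI {K : Type} [Field K] [NumberField K] (M : ℕ) (a : Ideal (𝓞 K)) : PM K M →₀ ℤ :=
  Finsupp.ofSupportFinite (fun v => FractionalIdeal.count K v.1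
    (a : FractionalIdeal (𝓞 K)⁰ K)) (by
    have h := FractionalIdeal.finite_factors (a : FractionalIdeal (𝓞 K)⁰ K)
    rw [Filter.eventually_cofinite] at h
    exact (h.preimage Subtype.val_injective.injOn).subset fun v hv => hv)

theorem dI_apply {K : Type} [Field K] [NumberField K] (M : ℕ) (a : Ideal (𝓞 K)) (v : PM K M) :
    dI M a v = FractionalIdeal.count K v.1 (a : FractionalIdeal (𝓞 K)⁰ K) := rfl

section KL2

variable {K L : Type} [Field K] [NumberField K] [Field L] [NumberField L] [Algebra K L]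

open scoped Pointwise in
/-- The action of the Galois group on the primes of `L` which do not contain `M`. -/
instance instActPM (M : ℕ) : MulAction (L ≃ₐ[K] L) (PM L M) where
  smul g v := ⟨⟨g • v.1.asIdeal, Ideal.IsPrime.smul (H := v.1.isPrime) g, fun h => v.1.ne_bot (by
      have h2 := congrArg (fun I => g⁻¹ • I) h
      simpa using h2)⟩, fun h => v.2 (by
      have h2 := (Ideal.mem_pointwise_smul_iff_inv_smul_mem).1 h
      have e : g⁻¹ • (M : 𝓞 L) = (M : 𝓞 L) :=
        map_natCast (MulSemiringAction.toRingHom (L ≃ₐ[K] L) (𝓞 L) g⁻¹) M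
      rwa [e] at h2)⟩
  one_smul v := Subtype.ext (HeightOneSpectrum.ext (one_smul _ _))
  mul_smul g h v := Subtype.ext (HeightOneSpectrum.ext (mul_smul _ _ _))

open scoped Pointwise in
theorem act_asIdeal {M : ℕ} (g : L ≃ₐ[K] L) (v : PM L M) :
    (g • v).1.asIdeal = g • v.1.asIdeal := rfl

/-- The action of `g` on divisors. -/
def tI (M : ℕ) (g : L ≃ₐ[K] L) : AddMonoid.End (PM L M →₀ ℤ) :=
  (Finsupp.domCongr (M := ℤ) (MulAction.toPerm (α := L ≃ₐ[K] L) (β := PM L M) g)).toAddMonoidHom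

theorem tI_apply (M : ℕ) (g : L ≃ₐ[K] L) (i : PM L M →₀ ℤ) (v : PM L M) :
    tI M g i v = i (g⁻¹ • v) := rfl

variable (K) in
/-- The prime of `K` under a prime of `L`. -/
def pr {M : ℕ} (v : PM L M) : PM K M :=
  ⟨HeightOneSpectrum.under (𝓞 K) v.1, fun h => v.2 (by
    have h2 := Ideal.mem_comap.1 h
    simpa using h2)⟩

variable (K) in
theorem pr_finite {M : ℕ} (q : PM K M) : {v : PM L M | pr K v = q}.Finite := by
  have hm : q.1.asIdeal.IsMaximal := q.1.isMaximal
  have h := IsDedekindDomain.primesOver_finite q.1.asIdeal (𝓞 L)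
  refine (h.preimage (f := fun v : PM L M => v.1.asIdeal) ?_).subset ?_
  · intro v _ w _ e
    exact Subtype.ext (HeightOneSpectrum.ext e)
  · intro v hv
    exact ⟨v.1.isPrime, ⟨(congrArg (fun r : PM K M => r.1.asIdeal) hv).symm⟩⟩

variable (K L) in
/-- Extension of divisors from `K` to `L` (all primes are unramified). -/
def eK (M : ℕ) : (PM K M →₀ ℤ) →+ (PM L M →₀ ℤ) where
  toFun j := Finsupp.ofSupportFinite (fun v => j (pr K v)) (by
    have h : (⋃ q ∈ j.support, {v : PM L M | pr K v = q}).Finite :=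
      Set.Finite.biUnion (Finset.finite_toSet _) fun q _ => pr_finite K q
    refine h.subset fun v hv => ?_
    rw [Set.mem_iUnion₂]
    exact ⟨pr K v, Finsupp.mem_support_iff.2 hv, rfl⟩)
  map_zero' := by
    ext v
    rfl
  map_add' i j := by
    ext v
    rfl

theorem eK_apply (M : ℕ) (j : PM K M →₀ ℤ) (v : PM L M) : eK K L M j v = j (pr K v) := rfl

/-- `div` on `A`. -/
def dA (θ : L) (M : ℕ) : Additive (AA K L θ M 2) →+ (PM L M →₀ ℤ) :=
  (dv M).comp (incl (AA K L θ M 2))

variable (K) in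
/-- The subgroup `div B + N I`. -/
def DD (t : L ≃ₐ[K] L) (θ : L) (M : ℕ) : AddSubgroup (PM L M →₀ ℤ) :=
  (BA K θ M).map (dA θ M) ⊔ Rng (Nm (finrank K L) (tI M t))

end KL2

end Pool.Agent.ARC.PH
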