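import Pool.Agent.ARC.HDefs

/-! # ARC, part H, module HE1

For a prime `Q` of `L` not containing `M`, `q` under it: the inertia group is trivial (`Unr`), so the
ramification index is `1` (`Ideal.card_inertia_eq_ramificationIdxIn`,
`Ideal.ramificationIdxIn_eq_ramificationIdx`; relate to `Ideal.ramificationIdx'` for the second
statement).
 -/

set_option autoImplicit false

noncomputable section

set_option linter.unusedSectionVars false

namespace Pool.Agent.ARC.PH

open NumberField Module IsDedekindDomain nonZeroDivisors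

variable {K L : Type} [Field K] [NumberField K] [Field L] [NumberField L] [Algebra K L]


theorem ramIn_one [IsGalois K L] {M : ℕ} (hU : Unr K L M) (Q : PM L M) :
    Ideal.ramificationIdxIn (pr K Q).1.asIdeal (𝓞 L) = 1 := by
  have hp := (pr K Q).1.isPrime
  have hm : (pr K Q).1.asIdeal.IsMaximal := (pr K Q).1.isMaximal
  have hQ := Q.1.isPrime
  have hl : Q.1.asIdeal.LiesOver (pr K Q).1.asIdeal := ⟨rfl⟩
  have hfin : Finite (𝓞 K ⧸ (pr K Q).1.asIdeal) := Ideal.finiteQuotientOfFreeOfNeBot _ (pr K Q).1.ne_bot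
  have hfin' : Finite (pr K Q).1.asIdeal.ResidueField :=
    Finite.of_surjective _ (Ideal.bijective_algebraMap_quotient_residueField (pr K Q).1.asIdeal).surjective
  rw [← Ideal.card_inertia_eq_ramificationIdxIn (G := L ≃ₐ[K] L) (pr K Q).1.asIdeal Q.1.asIdeal]
  have h : Ideal.inertia (L ≃ₐ[K] L) Q.1.asIdeal = ⊥ := by
    rw [eq_bot_iff]
    intro g hg
    exact Subgroup.mem_bot.2 (hU Q.1.asIdeal hQ Q.2 g hg)
  rw [h]
  exact Nat.card_unique

theorem map_not_le_sq [IsGalois K L] {M : ℕ} (hU : Unr K L M) (Q : PM L M) :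
    ¬ (Ideal.map (algebraMap (𝓞 K) (𝓞 L)) (pr K Q).1.asIdeal ≤ Q.1.asIdeal ^ 2) := by
  intro hle
  have hp := (pr K Q).1.isPrime
  have hQ := Q.1.isPrime
  have hl : Q.1.asIdeal.LiesOver (pr K Q).1.asIdeal := ⟨rfl⟩
  have h1 := ramIn_one hU Q
  rw [Ideal.ramificationIdxIn_eq_ramificationIdx (pr K Q).1.asIdeal Q.1.asIdeal (L ≃ₐ[K] L),
    ← Ideal.ramificationIdx'_eq_ramificationIdx (pr K Q).1.asIdeal Q.1.asIdeal (pr K Q).1.ne_bot] at h1
  have h2 : Ideal.ramificationIdx' (pr K Q).1.asIdeal Q.1.asIdeal = 1 := h1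
  have hb : BddAbove {n : ℕ | Ideal.map (algebraMap (𝓞 K) (𝓞 L)) (pr K Q).1.asIdeal ≤ Q.1.asIdeal ^ n} := by
    by_contra hb
    rw [not_bddAbove_iff] at hb
    have h3 := Ideal.ramificationIdx'_eq_zero (p := (pr K Q).1.asIdeal) (P := Q.1.asIdeal) fun n => by
      obtain ⟨k, hk, hk'⟩ := hb n
      exact ⟨k, hk, hk'⟩
    rw [h2] at h3
    exact one_ne_zero h3
  have h3 : 2 ≤ Ideal.ramificationIdx' (pr K Q).1.asIdeal Q.1.asIdeal := le_csSup hb hle
  omega

end Pool.Agent.ARC.PH
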