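import Pool.Agent.ARC.HDefs
import Pool.Agent.ARC.HE1

/-! # ARC, part H, module HDk

For `x ∈ K`: the order of `x` at `Q` is the order at `q = Q ⊓ K` times the ramification index, which is
`1`. For integral `x`: `(x) = ∏ q ^ (ord_q x)`, extended to `L`.
 -/

set_option autoImplicit false

noncomputable section

set_option linter.unusedSectionVars false

namespace Pool.Agent.ARC.PH

open NumberField Module IsDedekindDomain nonZeroDivisors

variable {K L : Type} [Field K] [NumberField K] [Field L] [NumberField L] [Algebra K L]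


private theorem HDk_le {F : Type} [Field F] [NumberField F] (v : HeightOneSpectrum (𝓞 F))
    {J : Ideal (𝓞 F)} (hJ : J ≠ 0) (n : ℕ) : J ≤ v.asIdeal ^ n ↔
      (n : ℤ) ≤ FractionalIdeal.count F v (J : FractionalIdeal (𝓞 F)⁰ F) := by
  rw [FractionalIdeal.count_coe F v hJ, Nat.cast_le,
    ← Associates.prime_pow_dvd_iff_le (Associates.mk_ne_zero.2 hJ)
      ((Associates.irreducible_mk).2 v.irreducible), ← Associates.mk_pow, Associates.mk_le_mk_iff_dvd,
    Ideal.dvd_iff_le]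

private theorem HDk_zero {F : Type} [Field F] [NumberField F] (v : HeightOneSpectrum (𝓞 F))
    {J : Ideal (𝓞 F)} (hJ : J ≠ 0) (h : ¬ J ≤ v.asIdeal) :
    FractionalIdeal.count F v (J : FractionalIdeal (𝓞 F)⁰ F) = 0 := by
  have h1 := FractionalIdeal.count_coe_nonneg F v J
  by_contra h2
  apply h
  have h3 := (HDk_le v hJ 1).2 (by push_cast; omega)
  rwa [pow_one] at h3

private theorem HDk_int [IsGalois K L] {M : ℕ} (hU : Unr K L M) (Q : PM L M) {a : 𝓞 K} (ha : a ≠ 0) :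
    FractionalIdeal.count L Q.1 ((Ideal.span {algebraMap (𝓞 K) (𝓞 L) a} : Ideal (𝓞 L)) :
      FractionalIdeal (𝓞 L)⁰ L) =
    FractionalIdeal.count K (pr K Q).1 ((Ideal.span {a} : Ideal (𝓞 K)) :
      FractionalIdeal (𝓞 K)⁰ K) := by
  have hJ : (Ideal.span {a} : Ideal (𝓞 K)) ≠ 0 := by
    rw [Ne, Ideal.zero_eq_bot, Ideal.span_singleton_eq_bot]
    exact ha
  obtain ⟨n, hn⟩ := Int.eq_ofNat_of_zero_le (FractionalIdeal.count_coe_nonneg K (pr K Q).1
    (Ideal.span {a} : Ideal (𝓞 K)))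
  have h1 : (Ideal.span {a} : Ideal (𝓞 K)) ≤ (pr K Q).1.asIdeal ^ n := (HDk_le _ hJ n).2 (by rw [hn])
  have h2 : ¬ (Ideal.span {a} : Ideal (𝓞 K)) ≤ (pr K Q).1.asIdeal ^ (n + 1) := by
    rw [HDk_le _ hJ, hn]
    push_cast
    omega
  obtain ⟨J', hJ'⟩ := Ideal.dvd_iff_le.2 h1
  have h3 : ¬ J' ≤ (pr K Q).1.asIdeal := by
    intro h
    apply h2
    rw [hJ', pow_succ]
    exact Ideal.mul_mono le_rfl h
  have hq : (pr K Q).1.asIdeal = Ideal.comap (algebraMap (𝓞 K) (𝓞 L)) Q.1.asIdeal := rfl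
  have h4 : ¬ Ideal.map (algebraMap (𝓞 K) (𝓞 L)) J' ≤ Q.1.asIdeal := by
    rw [Ideal.map_le_iff_le_comap, ← hq]
    exact h3
  have h5 : Ideal.map (algebraMap (𝓞 K) (𝓞 L)) (pr K Q).1.asIdeal ≤ Q.1.asIdeal := by
    rw [Ideal.map_le_iff_le_comap, ← hq]
  obtain ⟨R, hR⟩ := Ideal.dvd_iff_le.2 h5
  have h6 : ¬ R ≤ Q.1.asIdeal := by
    intro h
    apply map_not_le_sq hU Q
    rw [hR, pow_two]
    exact Ideal.mul_mono le_rfl h
  have h7 : (Ideal.span {algebraMap (𝓞 K) (𝓞 L) a} : Ideal (𝓞 L)) =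
      Q.1.asIdeal ^ n * (R ^ n * Ideal.map (algebraMap (𝓞 K) (𝓞 L)) J') := by
    have h8 := congrArg (Ideal.map (algebraMap (𝓞 K) (𝓞 L))) hJ'
    rw [Ideal.map_span, Set.image_singleton, Ideal.map_mul, Ideal.map_pow, hR, mul_pow,
      mul_assoc] at h8
    exact h8
  have hI : (Ideal.span {algebraMap (𝓞 K) (𝓞 L) a} : Ideal (𝓞 L)) ≠ 0 := by
    rw [Ne, Ideal.zero_eq_bot, Ideal.span_singleton_eq_bot]
    exact fun h => ha (FaithfulSMul.algebraMap_injective (𝓞 K) (𝓞 L) (by rw [h, map_zero]))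
  rw [h7] at hI
  have hI2 : R ^ n * Ideal.map (algebraMap (𝓞 K) (𝓞 L)) J' ≠ 0 := right_ne_zero_of_mul hI
  have hI1 : Q.1.asIdeal ^ n ≠ 0 := left_ne_zero_of_mul hI
  have h9 : ¬ (R ^ n * Ideal.map (algebraMap (𝓞 K) (𝓞 L)) J' ≤ Q.1.asIdeal) := by
    intro h
    rcases (Q.1.isPrime.mul_le).1 h with h10 | h10
    · exact h6 (Q.1.isPrime.le_of_pow_le h10)
    · exact h4 h10
  rw [hn, h7, FractionalIdeal.coeIdeal_mul, FractionalIdeal.count_mul,
    HDk_zero Q.1 hI2 h9, FractionalIdeal.coeIdeal_pow, FractionalIdeal.count_pow,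
    FractionalIdeal.count_self]
  · simp
  · exact FractionalIdeal.coeIdeal_ne_zero.2 hI1
  · exact FractionalIdeal.coeIdeal_ne_zero.2 hI2

private theorem HDk_ord [IsGalois K L] {M : ℕ} (hU : Unr K L M) (Q : PM L M) (u : Kˣ) {a : 𝓞 K}
    (ha : algebraMap (𝓞 K) K a = u) :
    ordv Q.1 (Units.map (algebraMap K L : K →* L) u) = ordv (pr K Q).1 u := by
  have ha0 : a ≠ 0 := by
    rintro rfl
    rw [map_zero] at ha
    exact u.ne_zero ha.symm
  have h := HDk_int hU Q ha0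
  rw [FractionalIdeal.coeIdeal_span_singleton, FractionalIdeal.coeIdeal_span_singleton, ha] at h
  unfold ordv
  rw [← h]
  congr 2
  rw [← IsScalarTower.algebraMap_apply (𝓞 K) (𝓞 L) L, IsScalarTower.algebraMap_apply (𝓞 K) K L, ha]
  rfl

theorem dv_map [IsGalois K L] {M : ℕ} (hU : Unr K L M) (x : Kˣ) :
    dv M (Additive.ofMul (Units.map (algebraMap K L : K →* L) x)) =
      eK K L M (dv M (Additive.ofMul x)) := by
  ext Q
  rw [eK_apply, dv_apply, dv_apply]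
  show ordv Q.1 (Units.map (algebraMap K L : K →* L) x) = ordv (pr K Q).1 x
  obtain ⟨a, b, hb, hab⟩ := IsFractionRing.div_surjective (A := 𝓞 K) (x : K)
  have hb0 : algebraMap (𝓞 K) K b ≠ 0 :=
    (map_ne_zero_iff _ (FaithfulSMul.algebraMap_injective (𝓞 K) K)).2 (nonZeroDivisors.ne_zero hb)
  have ha0 : algebraMap (𝓞 K) K a ≠ 0 := by
    intro h
    rw [h, zero_div] at hab
    exact x.ne_zero hab.symm
  have e : x * Units.mk0 _ hb0 = Units.mk0 _ ha0 := by
    ext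
    rw [Units.val_mul, Units.val_mk0, Units.val_mk0, ← hab, div_mul_cancel₀ _ hb0]
  have h1 := HDk_ord hU Q (Units.mk0 _ hb0) (a := b) rfl
  have h2 := HDk_ord hU Q (Units.mk0 _ ha0) (a := a) rfl
  rw [← e, map_mul, ordv_mul, ordv_mul, h1] at h2
  exact add_right_cancel h2

end Pool.Agent.ARC.PH
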