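import Pool.Agent.ARC.HDefs

/-! # ARC, part H, module HDt

`ordv (g v) (g u) = ordv v u`. For `u` integral: the count of `g v` in the ideal `(g u)` is the
count of `v` in `(u)`, `g` being a ring automorphism; in general `u = a / b`. Or: transport the
fractional ideal / the valuation.
 -/

set_option autoImplicit false

noncomputable section

set_option linter.unusedSectionVars false

namespace Pool.Agent.ARC.PH

open NumberField Module IsDedekindDomain nonZeroDivisors

variable {K L : Type} [Field K] [NumberField K] [Field L] [NumberField L] [Algebra K L]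

private theorem HDt_le {v : HeightOneSpectrum (𝓞 L)} {u : Lˣ} {x : 𝓞 L} (hx : (x : L) = u)
    (n : ℕ) : ((n : ℤ) ≤ ordv v u) ↔ x ∈ v.asIdeal ^ n := by
  have hx0 : x ≠ 0 := by
    rintro rfl
    exact u.ne_zero (by rw [← hx]; simp)
  have hs : Ideal.span {x} ≠ 0 := by
    rw [Ne, Ideal.zero_eq_bot, Ideal.span_singleton_eq_bot]
    exact hx0
  unfold ordv
  rw [← hx, ← FractionalIdeal.coeIdeal_span_singleton, FractionalIdeal.count_coe L v hs,
    Int.ofNat_le, ← Associates.prime_pow_dvd_iff_le (Associates.mk_ne_zero.2 hs)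
      v.associates_irreducible, ← Associates.mk_pow, Associates.mk_le_mk_iff_dvd,
    Ideal.dvd_span_singleton]

open scoped Pointwise in
private theorem HDt_int (M : ℕ) (g : L ≃ₐ[K] L) (v : PM L M) {u : Lˣ} {x : 𝓞 L}
    (hx : (x : L) = u) : ordv (g • v).1 (tU g u) = ordv v.1 u := by
  have hgx : ((g • x : 𝓞 L) : L) = tU g u := by
    rw [tU_val, ← hx]
    rfl
  have h1 : ∀ n : ℕ, ((n : ℤ) ≤ ordv (g • v).1 (tU g u)) ↔ ((n : ℤ) ≤ ordv v.1 u) := by
    intro n
    rw [HDt_le hgx, HDt_le hx, act_asIdeal, ← smul_pow', Ideal.smul_mem_pointwise_smul_iff]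
  have h2 : (0 : ℤ) ≤ ordv v.1 u := by
    have := (HDt_le (v := v.1) hx 0).2 (by simp)
    simpa using this
  have h3 : (0 : ℤ) ≤ ordv (g • v).1 (tU g u) := by
    have := (HDt_le (v := (g • v).1) hgx 0).2 (by simp)
    simpa using this
  obtain ⟨a, ha⟩ := Int.eq_ofNat_of_zero_le h2
  obtain ⟨b, hb⟩ := Int.eq_ofNat_of_zero_le h3
  rw [ha, hb] at h1 ⊢
  have h4 := (h1 a).2 le_rfl
  have h5 := (h1 b).1 le_rfl
  omega

private theorem HDt_all (M : ℕ) (g : L ≃ₐ[K] L) (v : PM L M) (u : Lˣ) :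
    ordv (g • v).1 (tU g u) = ordv v.1 u := by
  obtain ⟨x, y, hy, hxy0⟩ := IsFractionRing.div_surjective (A := 𝓞 L) (u : L)
  have hxy : (x : L) / (y : L) = u := hxy0
  have hy0 : (y : L) ≠ 0 := by
    intro h
    rw [h, div_zero] at hxy
    exact u.ne_zero hxy.symm
  have hx0 : (x : L) ≠ 0 := by
    intro h
    rw [h, zero_div] at hxy
    exact u.ne_zero hxy.symm
  have hu : Units.mk0 (x : L) hx0 = u * Units.mk0 (y : L) hy0 := by
    ext
    rw [Units.val_mul, Units.val_mk0, Units.val_mk0, ← hxy, div_mul_cancel₀ _ hy0]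
  have hX := HDt_int M g v (u := Units.mk0 (x : L) hx0) (x := x) rfl
  have hY := HDt_int M g v (u := Units.mk0 (y : L) hy0) (x := y) rfl
  rw [hu, map_mul, ordv_mul, ordv_mul, hY] at hX
  exact add_right_cancel hX

theorem dv_gal (M : ℕ) (g : L ≃ₐ[K] L) (u : Additive Lˣ) :
    dv M (Additive.ofMul (tU g u.toMul)) = tI M g (dv M u) := by
  ext v
  rw [tI_apply, dv_apply, dv_apply, ← HDt_all M g (g⁻¹ • v), smul_inv_smul]
  rfl

end Pool.Agent.ARC.PH
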