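import Pool.Agent.ARC.HDefs

/-! # ARC, part H, module HDual

`X = J / D` is a finite abelian group, killed by `n`, of order at least `n`. The characters of `X`
with values in the complex numbers are as many as the elements of `X`
(`CommGroup.monoidHom_mulEquiv_of_hasEnoughRootsOfUnity` or `AddChar` duality) and have values in the
`n`-th roots of unity, a cyclic group of order `n`, isomorphic to `ZMod n`.
 -/

set_option autoImplicit false

noncomputable section

set_option linter.unusedSectionVars false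

namespace Pool.Agent.ARC.PH

open NumberField Module IsDedekindDomain nonZeroDivisors

private theorem HDual_e (n : ℕ) (hn : 0 < n) : ∃ e : rootsOfUnity n ℂ ≃* Multiplicative (ZMod n), True := by
  haveI : NeZero n := ⟨hn.ne'⟩
  haveI : IsCyclic (rootsOfUnity n ℂ) := rootsOfUnity.isCyclic ℂ n
  have hc : Nat.card (rootsOfUnity n ℂ) = Nat.card (Multiplicative (ZMod n)) := by
    rw [Complex.card_rootsOfUnity, Nat.card_eq_fintype_card, Fintype.card_multiplicative, ZMod.card]
  exact ⟨mulEquivOfCyclicCardEq hc, trivial⟩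

theorem dual_count {J : Type} [AddCommGroup J] (n : ℕ) (hn : 0 < n) (D : AddSubgroup J)
    (hD : D.index ≠ 0) (h1 : n ≤ D.index) (h2 : ∀ j : J, n • j ∈ D) :
    ∃ T : Finset (J →+ ZMod n), n ≤ T.card ∧ ∀ χ ∈ T, ∀ j ∈ D, χ j = 0 := by
  classical
  obtain ⟨e, -⟩ := HDual_e n hn
  have hfin : Finite (J ⧸ D) := Nat.finite_of_card_ne_zero hD
  have hne : NeZero ((Monoid.exponent (Multiplicative (J ⧸ D)) : ℕ) : ℂ) :=
    ⟨by exact_mod_cast Monoid.exponent_ne_zero_of_finite⟩
  have hcard : Nat.card (Multiplicative (J ⧸ D) →* ℂˣ) = D.index := by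
    rw [CommGroup.card_monoidHom_of_hasEnoughRootsOfUnity (Multiplicative (J ⧸ D)) ℂ]
    rfl
  have hfin2 : Finite (Multiplicative (J ⧸ D) →* ℂˣ) := Nat.finite_of_card_ne_zero (by rw [hcard]; exact hD)
  haveI : Fintype (Multiplicative (J ⧸ D) →* ℂˣ) := Fintype.ofFinite _
  have hpow : ∀ x : Multiplicative (J ⧸ D), x ^ n = 1 := by
    intro x
    obtain ⟨j, hj⟩ := QuotientAddGroup.mk_surjective (s := D) x.toAdd
    have h3 : n • x.toAdd = 0 := by
      rw [← hj, ← QuotientAddGroup.mk_nsmul]
      exact (QuotientAddGroup.eq_zero_iff _).2 (h2 j)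
    apply Multiplicative.toAdd.injective
    rw [toAdd_pow, h3]
    rfl
  have hroot : ∀ (φ : Multiplicative (J ⧸ D) →* ℂˣ) (x : Multiplicative (J ⧸ D)), φ x ∈ rootsOfUnity n ℂ := by
    intro φ x
    rw [mem_rootsOfUnity, ← map_pow, hpow, map_one]
  let Φ : (Multiplicative (J ⧸ D) →* ℂˣ) → (J →+ ZMod n) := fun φ =>
    (AddMonoidHom.toMultiplicative.symm (e.toMonoidHom.comp (φ.codRestrict (rootsOfUnity n ℂ) (hroot φ)))).comp
      (QuotientAddGroup.mk' D)
  have hΦ : ∀ φ j, Φ φ j = (e ⟨φ (Multiplicative.ofAdd (QuotientAddGroup.mk' D j)), hroot φ _⟩).toAdd :=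
    fun φ j => rfl
  have hinj : Function.Injective Φ := by
    intro φ ψ h
    refine MonoidHom.ext fun x => ?_
    obtain ⟨j, hj⟩ := QuotientAddGroup.mk_surjective (s := D) x.toAdd
    have h3 : Φ φ j = Φ ψ j := by rw [h]
    rw [hΦ, hΦ] at h3
    have h4 := e.injective (Multiplicative.toAdd.injective h3)
    have h5 := congrArg Subtype.val h4
    have h6 : Multiplicative.ofAdd (QuotientAddGroup.mk' D j) = x := by
      apply Multiplicative.toAdd.injective
      exact hj
    simpa only [h6] using h5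
  refine ⟨Finset.univ.image Φ, ?_, ?_⟩
  · rw [Finset.card_image_of_injective _ hinj, Finset.card_univ, ← Nat.card_eq_fintype_card, hcard]
    exact h1
  · intro χ hχ j hj
    obtain ⟨φ, -, rfl⟩ := Finset.mem_image.1 hχ
    change AddMonoidHom.toMultiplicative.symm _ (QuotientAddGroup.mk' D j) = 0
    have h3 : QuotientAddGroup.mk' D j = 0 := (QuotientAddGroup.eq_zero_iff _).2 hj
    rw [h3, map_zero]

end Pool.Agent.ARC.PH
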