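import Pool.Agent.ARC.HDefs
import Pool.Agent.ARC.HAA
import Pool.Agent.ARC.HOrd

/-! # ARC, part H, module HDz

`a ∈ A` is a unit of `OP L M` (`AA_le_OPx`), so its order at the `v` containing `M` is zero
(`ordv_of_OP` for `a` and `a⁻¹`). If the divisor outside `M` is zero all orders are zero and `a`, `a⁻¹`
are integral (`integral_of_ordv`). Conversely a unit has all orders zero.
 -/

set_option autoImplicit false

noncomputable section

set_option linter.unusedSectionVars false

namespace Pool.Agent.ARC.PH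

open NumberField Module IsDedekindDomain nonZeroDivisors

variable {K L : Type} [Field K] [NumberField K] [Field L] [NumberField L] [Algebra K L]


variable {θ : L} {M : ℕ}

private theorem HDz_inv (v : HeightOneSpectrum (𝓞 L)) (u : Lˣ) : ordv v u⁻¹ = - ordv v u := by
  have h := ordv_mul v u u⁻¹
  rw [mul_inv_cancel, ordv_one] at h
  omega

theorem dA_eq_zero (h : Good K L θ M) (a : Additive (AA K L θ M 2)) :
    dA θ M a = 0 ↔ a ∈ (iEA K θ M).range := by
  constructor
  · intro h0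
    obtain ⟨u, hu⟩ : ∃ u : Lˣ, u = ((a.toMul : AA K L θ M 2) : Lˣ) := ⟨_, rfl⟩
    have huA : u ∈ AA K L θ M 2 := hu ▸ (a.toMul).2
    have hOP := AA_le_OPx h 2 (by norm_num) huA
    rw [mem_OPx] at hOP
    have h1 : ∀ v : HeightOneSpectrum (𝓞 L), ordv v u = 0 := by
      intro v
      by_cases hv : (M : 𝓞 L) ∈ v.asIdeal
      · have e1 := ordv_of_OP u hOP.1 v hv
        have e2 := ordv_of_OP u⁻¹ hOP.2 v hv
        rw [HDz_inv] at e2
        omega
      · have e1 := DFunLike.congr_fun h0 (⟨v, hv⟩ : PM L M)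
        rw [hu]
        exact e1
    have i1 : IsIntegral ℤ (u : L) := integral_of_ordv u fun v => (h1 v).ge
    have i2 : IsIntegral ℤ ((u⁻¹ : Lˣ) : L) := integral_of_ordv u⁻¹ fun v => by
      rw [HDz_inv, h1 v, neg_zero]
    have hE : u ∈ EE K L θ M := by
      refine ⟨huA, ⟨⟨(u : L), i1⟩, ⟨((u⁻¹ : Lˣ) : L), i2⟩, ?_, ?_⟩, ?_⟩
      · apply Subtype.ext
        change (u : L) * ((u⁻¹ : Lˣ) : L) = 1
        rw [← Units.val_mul, mul_inv_cancel, Units.val_one]
      · apply Subtype.ext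
        change ((u⁻¹ : Lˣ) : L) * (u : L) = 1
        rw [← Units.val_mul, inv_mul_cancel, Units.val_one]
      · apply Units.ext
        rfl
    refine ⟨Additive.ofMul ⟨u, hE⟩, ?_⟩
    apply Additive.toMul.injective
    apply Subtype.ext
    exact hu
  · rintro ⟨x, rfl⟩
    ext v
    obtain ⟨u, hu⟩ : ∃ u : Lˣ, u = ((x.toMul : EE K L θ M) : Lˣ) := ⟨_, rfl⟩
    have huE : u ∈ EE K L θ M := hu ▸ (x.toMul).2
    obtain ⟨_, e, he⟩ := huE
    have i1 : IsIntegral ℤ (u : L) := by
      rw [← he]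
      exact (e : 𝓞 L).2
    have i2 : IsIntegral ℤ ((u⁻¹ : Lˣ) : L) := by
      rw [← he, ← map_inv]
      exact ((e⁻¹ : (𝓞 L)ˣ) : 𝓞 L).2
    have e1 := ordv_nonneg_of_integral v.1 u i1
    have e2 := ordv_nonneg_of_integral v.1 u⁻¹ i2
    rw [HDz_inv] at e2
    change ordv v.1 ((x.toMul : EE K L θ M) : Lˣ) = 0
    rw [← hu]
    omega

end Pool.Agent.ARC.PH
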