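import Pool.Agent.ARC.HDefs

/-! # ARC, part H, module HEk

The primes of `L` over a prime `q` of `K` exist (`pr_surjective`) and are conjugate under the group
(`Ideal.exists_smul_eq_of_isGaloisGroup` or `IsInvariant.exists_smul_of_under_eq`), which is generated
by `t`. A divisor fixed by `t` is constant on the fibres of `pr`, so it is `eK j`.
 -/

set_option autoImplicit false

noncomputable section

set_option linter.unusedSectionVars false

namespace Pool.Agent.ARC.PH

open NumberField Module IsDedekindDomain nonZeroDivisors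

variable {K L : Type} [Field K] [NumberField K] [Field L] [NumberField L] [Algebra K L]


theorem pr_surjective {M : ℕ} (q : PM K M) : ∃ Q : PM L M, pr K Q = q := by
  haveI : q.1.asIdeal.IsMaximal := q.1.isMaximal
  obtain ⟨P, hP, hPq⟩ := Ideal.exists_maximal_ideal_liesOver_of_isIntegral (S := 𝓞 L) q.1.asIdeal
  have hu : P.under (𝓞 K) = q.1.asIdeal := hPq.over.symm
  have hne : P ≠ ⊥ := by
    intro h
    apply q.1.ne_bot
    rw [← hu, h]
    exact Ideal.under_bot _ _
  have hMP : (M : 𝓞 L) ∉ P := by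
    intro h
    apply q.2
    rw [← hu, Ideal.mem_comap]
    simpa using h
  refine ⟨⟨⟨P, hP.isPrime, hne⟩, hMP⟩, ?_⟩
  exact Subtype.ext (HeightOneSpectrum.ext hu)

theorem pr_eq_iff [IsGalois K L] {M : ℕ} (Q Q' : PM L M) :
    pr K Q = pr K Q' ↔ ∃ g : L ≃ₐ[K] L, g • Q = Q' := by
  constructor
  · intro h
    have h1 : Q.1.asIdeal.under (𝓞 K) = Q'.1.asIdeal.under (𝓞 K) :=
      congrArg (fun r : PM K M => r.1.asIdeal) h
    have := Q.1.isPrime
    have := Q'.1.isPrime
    obtain ⟨g, hg⟩ := Algebra.IsInvariant.exists_smul_of_under_eq (𝓞 K) (𝓞 L) (L ≃ₐ[K] L)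
      Q.1.asIdeal Q'.1.asIdeal h1
    exact ⟨g, Subtype.ext (HeightOneSpectrum.ext (by rw [act_asIdeal, hg]))⟩
  · rintro ⟨g, rfl⟩
    refine Subtype.ext (HeightOneSpectrum.ext ?_)
    change Q.1.asIdeal.under (𝓞 K) = (g • Q).1.asIdeal.under (𝓞 K)
    rw [act_asIdeal, Ideal.under_smul]

theorem eK_injective {M : ℕ} : Function.Injective (eK K L M) := by
  intro i j h
  ext q
  obtain ⟨Q, rfl⟩ := pr_surjective (L := L) q
  have h1 := DFunLike.congr_fun h Q
  rwa [eK_apply, eK_apply] at h1

private theorem HEk_mul {M : ℕ} (g h : L ≃ₐ[K] L) : tI M (g * h) = tI M g * tI M h := by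
  ext1 i
  ext v
  change i ((g * h)⁻¹ • v) = i (h⁻¹ • (g⁻¹ • v))
  rw [mul_inv_rev, mul_smul]

private theorem HEk_one {M : ℕ} : tI M (1 : L ≃ₐ[K] L) = 1 := by
  ext1 i
  ext v
  change i ((1 : L ≃ₐ[K] L)⁻¹ • v) = i v
  rw [inv_one, one_smul]

private theorem HEk_pow {M : ℕ} (g : L ≃ₐ[K] L) (n : ℕ) : tI M (g ^ n) = tI M g ^ n := by
  induction n with
  | zero => rw [pow_zero, pow_zero, HEk_one]
  | succ n ih => rw [pow_succ, pow_succ, HEk_mul, ih]

theorem ker_tI [IsGalois K L] {M : ℕ} (t : L ≃ₐ[K] L) (ht : ∀ g, g ∈ Subgroup.zpowers t) :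
    Ker (tI M t - 1) = (eK K L M).range := by
  classical
  ext i
  rw [mem_Ker, AddMonoidHom.mem_range]
  constructor
  · intro hi
    have hi' : tI M t i = i := by
      have h1 : tI M t i - i = 0 := hi
      exact sub_eq_zero.1 h1
    have h2 : ∀ v : PM L M, i (t⁻¹ • v) = i v := fun v => DFunLike.congr_fun hi' v
    have h3 : ∀ (g : L ≃ₐ[K] L) (v : PM L M), i (g • v) = i v := by
      intro g v
      have h4 : ∀ (n : ℕ) (v : PM L M), i ((t⁻¹) ^ n • v) = i v := by
        intro n
        induction n with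
        | zero => intro v; rw [pow_zero, one_smul]
        | succ n ih => intro v; rw [pow_succ', mul_smul, h2, ih]
      haveI : Finite (L ≃ₐ[K] L) := inferInstance
      obtain ⟨n, hn⟩ := Subgroup.mem_zpowers_iff.1 (ht g)
      obtain ⟨m, hm⟩ : ∃ m : ℕ, (t⁻¹) ^ m = g := by
        have h5 : g ∈ Submonoid.powers (t⁻¹) := by
          rw [mem_powers_iff_mem_zpowers, Subgroup.zpowers_inv]
          exact ht g
        exact h5
      rw [← hm]
      exact h4 m v
    have hs := fun q : PM K M => pr_surjective (L := L) q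
    choose sec hsec using hs
    have hval : ∀ v : PM L M, i (sec (pr K v)) = i v := by
      intro v
      obtain ⟨g, hg⟩ := (pr_eq_iff v (sec (pr K v))).1 (hsec (pr K v)).symm
      rw [← hg, h3]
    refine ⟨Finsupp.ofSupportFinite (fun q => i (sec q)) ?_, ?_⟩
    · refine ((i.support.image (pr K)).finite_toSet).subset ?_
      intro q hq
      rw [Finset.mem_coe, Finset.mem_image]
      exact ⟨sec q, Finsupp.mem_support_iff.2 hq, hsec q⟩
    · ext v
      rw [eK_apply]
      exact hval v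
  · rintro ⟨j, rfl⟩
    have h1 : tI M t (eK K L M j) = eK K L M j := by
      ext v
      rw [tI_apply, eK_apply, eK_apply]
      congr 1
      exact (pr_eq_iff _ _).2 ⟨t, smul_inv_smul t v⟩
    change tI M t (eK K L M j) - eK K L M j = 0
    rw [h1, sub_self]

theorem tI_pow [IsGalois K L] {M : ℕ} (t : L ≃ₐ[K] L) : tI M t ^ (finrank K L) = 1 := by
  rw [← HEk_pow, ← IsGalois.card_aut_eq_finrank K L, pow_card_eq_one', HEk_one]

end Pool.Agent.ARC.PH
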