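import Pool.Agent.ARC.HDefs
import Pool.Agent.ARC.HOP

/-! # ARC, part H, module HGood

`θ`: multiply `IsGalois.normalBasis K L 1` by a nonzero natural number to make it integral. The
`g θ` are a `K`-basis of `L`. `𝓞 L` is a finitely generated `ℤ`-module; write the generators in the
basis `g θ`, with coefficients in `K`, and let `d ≠ 0` be a natural number such that `d` times all
these coefficients is integral. Then `d z` is a combination of the `g θ` with integral coefficients
for all `z ∈ 𝓞 L`. `M = 3 * n * d * M0`. If `x ∈ OP L M`, `s x = z`: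
`M x = (M / d) ∑ (c_g / s) g θ`, and `c_g / s ∈ OP K M`. `Unr` for `M`: if `M ∉ Q` then `M0 ∉ Q`.
 -/

set_option autoImplicit false

noncomputable section

set_option linter.unusedSectionVars false

namespace Pool.Agent.ARC.PH

open NumberField Module IsDedekindDomain nonZeroDivisors

variable {K L : Type} [Field K] [NumberField K] [Field L] [NumberField L] [Algebra K L]


private theorem hgood_mult {F : Type} [Field F] [NumberField F] (s : Finset F) :
    ∃ d : ℕ, 0 < d ∧ ∀ x ∈ s, IsIntegral ℤ ((d : F) * x) := by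
  have halg : Algebra.IsAlgebraic ℤ F :=
    ⟨fun x => (IsFractionRing.isAlgebraic_iff ℤ ℚ F).2 (Algebra.IsAlgebraic.isAlgebraic x)⟩
  obtain ⟨y, hy, h⟩ := Algebra.IsAlgebraic.exists_integral_multiples ℤ s
  refine ⟨y.natAbs, Int.natAbs_pos.2 hy, fun x hx => ?_⟩
  have h1 := h x hx
  rw [zsmul_eq_mul] at h1
  rcases Int.natAbs_eq y with h2 | h2
  · rw [h2] at h1
    simpa using h1
  · rw [h2] at h1
    have h3 := h1.neg
    simpa using h3

variable (K L) in
theorem exists_good [IsGalois K L] (M0 : ℕ) (hM0 : M0 ≠ 0) (hU : Unr K L M0) :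
    ∃ (θ : L) (M : ℕ), M0 ∣ M ∧ Good K L θ M := by
  classical
  obtain ⟨d0, hd0, hint0⟩ := hgood_mult ({IsGalois.normalBasis K L 1} : Finset L)
  obtain ⟨θ, hθ⟩ : ∃ θ : L, θ = (d0 : L) * IsGalois.normalBasis K L 1 := ⟨_, rfl⟩
  have hθi : IsIntegral ℤ θ := by
    rw [hθ]
    exact hint0 _ (Finset.mem_singleton_self _)
  have hd0K : IsUnit (d0 : K) := isUnit_iff_ne_zero.2 (Nat.cast_ne_zero.2 hd0.ne')
  obtain ⟨b, hb⟩ : ∃ b : Basis (L ≃ₐ[K] L) K L, ∀ g, b g = g θ := by
    refine ⟨(IsGalois.normalBasis K L).isUnitSMul (w := fun _ => (d0 : K)) (fun _ => hd0K),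
      fun g => ?_⟩
    rw [Basis.isUnitSMul_apply, IsGalois.normalBasis_apply, hθ, map_mul, map_natCast,
      Algebra.smul_def, map_natCast]
  have hlin : LinearIndependent K (fun g : L ≃ₐ[K] L => g θ) := by
    have h := b.linearIndependent
    have e : (b : (L ≃ₐ[K] L) → L) = fun g => g θ := funext hb
    rwa [e] at h
  -- the common denominator
  obtain ⟨d, hd, hint⟩ := hgood_mult (Finset.univ.image fun p : Free.ChooseBasisIndex ℤ (𝓞 L) ×
    (L ≃ₐ[K] L) => b.repr ((RingOfIntegers.basis L p.1 : 𝓞 L) : L) p.2)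
  have hcoef : ∀ (z : 𝓞 L) (g : L ≃ₐ[K] L), IsIntegral ℤ ((d : K) * b.repr (z : L) g) := by
    intro z g
    have e : (z : L) = ∑ i, ((RingOfIntegers.basis L).repr z i : ℤ) •
        ((RingOfIntegers.basis L i : 𝓞 L) : L) := by
      have h1 := congrArg (algebraMap (𝓞 L) L) ((RingOfIntegers.basis L).sum_repr z)
      rw [map_sum] at h1
      exact h1.symm.trans (Finset.sum_congr rfl fun i _ => by rw [map_zsmul])
    have e2 : (d : K) * b.repr (z : L) g = ∑ i, ((RingOfIntegers.basis L).repr z i : ℤ) •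
        ((d : K) * b.repr ((RingOfIntegers.basis L i : 𝓞 L) : L) g) := by
      conv_lhs => rw [e]
      rw [map_sum, Finsupp.coe_finsetSum, Finset.sum_apply, Finset.mul_sum]
      refine Finset.sum_congr rfl fun i _ => ?_
      rw [map_zsmul, Finsupp.smul_apply, mul_smul_comm]
    rw [e2]
    refine IsIntegral.sum _ fun i _ => ?_
    rw [zsmul_eq_mul]
    refine (isIntegral_intCast _).mul (hint _ ?_)
    exact Finset.mem_image.2 ⟨(i, g), Finset.mem_univ _, rfl⟩
  have hn : 0 < finrank K L := finrank_pos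
  have hM0' : 0 < M0 := Nat.pos_of_ne_zero hM0
  refine ⟨θ, 3 * finrank K L * d * M0, ⟨3 * finrank K L * d, by ring⟩, ?_⟩
  refine ⟨hlin, hθi, ?_, ?_, ⟨3 * d * M0, by ring⟩, ?_⟩
  · rintro x ⟨s, hs, hz⟩
    refine ⟨fun g => ((3 * finrank K L * d * M0 : ℕ) : K) * b.repr x g, fun g => ?_, ?_⟩
    · refine ⟨s, hs, ?_⟩
      obtain ⟨z, hz'⟩ : ∃ z : 𝓞 L, (z : L) = (s : L) * x := ⟨⟨_, hz⟩, rfl⟩
      have e3 : b.repr (z : L) g = (s : K) * b.repr x g := by
        have e4 : (z : L) = (s : K) • x := by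
          rw [hz', Algebra.smul_def, map_natCast]
        rw [e4, map_smul, Finsupp.smul_apply, smul_eq_mul]
      have e5 : (s : K) * (((3 * finrank K L * d * M0 : ℕ) : K) * b.repr x g) =
          ((3 * finrank K L * M0 : ℕ) : K) * ((d : K) * b.repr (z : L) g) := by
        rw [e3]
        push_cast
        ring
      rw [e5]
      exact (isIntegral_natCast _).mul (hcoef z g)
    · have e6 := b.sum_repr x
      conv_lhs => rw [← e6]
      rw [Finset.mul_sum]
      refine Finset.sum_congr rfl fun g _ => ?_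
      rw [hb, Algebra.smul_def, map_mul, map_natCast]
      ring
  · have h1 : 1 ≤ finrank K L * d * M0 := Nat.mul_pos (Nat.mul_pos hn hd) hM0'
    calc 3 = 3 * 1 := rfl
      _ ≤ 3 * (finrank K L * d * M0) := Nat.mul_le_mul_left 3 h1
      _ = _ := by ring
  · intro Q hQ hM g hx
    refine hU Q hQ (fun h1 => hM ?_) g hx
    rw [Nat.cast_mul]
    exact Ideal.mul_mem_left _ _ h1

end Pool.Agent.ARC.PH
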