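import Pool.Agent.ARC.HDefs
import Pool.Agent.ARC.HAA
import Pool.Agent.ARC.HOP

/-! # ARC, part H, module HH1a: first step of `H^1 (A) = 0` -/

set_option autoImplicit false

noncomputable section

set_option linter.unusedSectionVars false

namespace Pool.Agent.ARC.PH

open NumberField Module IsDedekindDomain nonZeroDivisors

variable {K L : Type} [Field K] [NumberField K] [Field L] [NumberField L] [Algebra K L]


variable {θ : L} {M : ℕ}

private theorem HH1a_prod {ι : Type} (s : Finset ι) (f : ι → L) (hf : ∀ i, f i ∈ OP L M)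
    (c : L) (hc : c ∈ OP L M) : ∃ z ∈ OP L M,
      ∏ i ∈ s, (1 + c * f i) = 1 + c * ∑ i ∈ s, f i + c ^ 2 * z := by
  classical
  induction s using Finset.induction_on with
  | empty => exact ⟨0, zero_mem _, by simp⟩
  | insert a s ha ih =>
    obtain ⟨z, hz, h⟩ := ih
    have hs : ∑ i ∈ s, f i ∈ OP L M := sum_mem fun i _ => hf i
    refine ⟨f a * ∑ i ∈ s, f i + z + c * f a * z,
      add_mem (add_mem (mul_mem (hf a) hs) hz) (mul_mem (mul_mem hc (hf a)) hz), ?_⟩
    rw [Finset.prod_insert ha, Finset.sum_insert ha, h]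
    ring

private theorem HH1a_smul {c : K} (hc : c ∈ OP K M) {x : L} (hx : x ∈ Lam K L θ M) :
    algebraMap K L c * x ∈ Lam K L θ M := by
  obtain ⟨d, hd, rfl⟩ := hx
  refine ⟨fun g => c * d g, fun g => mul_mem hc (hd g), ?_⟩
  rw [Finset.mul_sum]
  refine Finset.sum_congr rfl fun g _ => ?_
  rw [map_mul, mul_assoc]

private theorem HH1a_theta : θ ∈ Lam K L θ M := by
  classical
  refine ⟨Pi.single 1 1, fun g => ?_, ?_⟩
  · by_cases h : g = 1
    · subst h
      rw [Pi.single_eq_same]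
      exact one_mem _
    · rw [Pi.single_eq_of_ne h]
      exact zero_mem _
  · rw [Finset.sum_eq_single 1]
    · simp
    · intro g _ hg
      rw [Pi.single_eq_of_ne hg, map_zero, zero_mul]
    · intro h
      exact absurd (Finset.mem_univ _) h

private theorem HH1a_zpow (t : L ≃ₐ[K] L) (g : L ≃ₐ[K] L) (k : ℕ) (hk : t ^ k = g) :
    ∃ y ∈ Lam K L θ M, g θ - θ = t y - y := by
  subst hk
  induction k with
  | zero => exact ⟨0, zero_mem _, by simp⟩
  | succ k ih =>
    obtain ⟨y, hy, h⟩ := ih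
    refine ⟨y + (t ^ k) θ, add_mem hy (Lam_stable (t ^ k) θ M HH1a_theta), ?_⟩
    have e : (t ^ (k + 1)) θ = t ((t ^ k) θ) := by
      rw [pow_succ']
      rfl
    rw [e, map_add]
    linear_combination h

private theorem HH1a_sum [IsGalois K L] (t : L ≃ₐ[K] L) (ht : ∀ g, g ∈ Subgroup.zpowers t)
    (f : (L ≃ₐ[K] L) → L) :
    ∑ g : L ≃ₐ[K] L, f g = ∑ i ∈ Finset.range (finrank K L), f (t ^ i) := by
  classical
  have hn : orderOf t = finrank K L := by
    rw [orderOf_eq_card_of_forall_mem_zpowers ht]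
    exact IsGalois.card_aut_eq_finrank K L
  rw [← IsCyclic.image_range_orderOf ht, Finset.sum_image, hn]
  intro i hi j hj hij
  have hi' : i < orderOf t := by simpa using hi
  have hj' : j < orderOf t := by simpa using hj
  exact pow_injOn_Iio_orderOf hi' hj' hij

theorem h1_step [IsGalois K L] (h : Good K L θ M) (t : L ≃ₐ[K] L)
    (ht : ∀ g, g ∈ Subgroup.zpowers t) (u : Lˣ) (hu : u ∈ AA K L θ M 2)
    (hN : ∏ i ∈ Finset.range (finrank K L), (t ^ i) (u : L) = 1) :
    ∃ v ∈ AA K L θ M 2, u * tU t v * v⁻¹ ∈ AA K L θ M 3 := by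
  classical
  have hM0 : (M : L) ≠ 0 := by
    have := h.three_le
    exact_mod_cast (by omega : M ≠ 0)
  have hMOP : (M : L) ∈ OP L M := natCast_mem _ M
  obtain ⟨x, hx, hux⟩ := (mem_AA h 2 (by norm_num) u).1 hu
  have hxOP : x ∈ OP L M := Lam_sub_OP h hx
  -- the trace of `x`
  obtain ⟨z, hz, hprod⟩ := HH1a_prod (M := M) (Finset.range (finrank K L)) (fun i => (t ^ i) x)
    (fun i => OP_gal (t ^ i) hxOP) ((M : L) ^ 2) (pow_mem hMOP 2)
  have hTr1 : ∑ i ∈ Finset.range (finrank K L), (t ^ i) x = (M : L) ^ 2 * (-z) := by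
    have e1 : ∏ i ∈ Finset.range (finrank K L), (t ^ i) (u : L)
        = ∏ i ∈ Finset.range (finrank K L), (1 + (M : L) ^ 2 * (t ^ i) x) := by
      refine Finset.prod_congr rfl fun i _ => ?_
      rw [hux, map_add, map_mul, map_pow, map_natCast, map_one]
    rw [e1, hprod] at hN
    have h2 : (M : L) ^ 2 ≠ 0 := pow_ne_zero 2 hM0
    apply mul_left_cancel₀ h2
    linear_combination hN
  have hTr2 : ∑ g : L ≃ₐ[K] L, g x = (M : L) ^ 2 * (-z) := by
    rw [HH1a_sum t ht (fun g => g x), hTr1]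
  set r : L := -z with hr
  have hrOP : r ∈ OP L M := neg_mem hz
  have hrfix : ∀ g : L ≃ₐ[K] L, g r = r := by
    intro g
    have h2 : (M : L) ^ 2 ≠ 0 := pow_ne_zero 2 hM0
    apply mul_left_cancel₀ h2
    have e1 : (M : L) ^ 2 * g r = g ((M : L) ^ 2 * r) := by simp
    rw [e1, ← hTr2, map_sum, ← Equiv.sum_comp (Equiv.mulLeft g) (fun g => g x)]
    rfl
  -- coordinates of `x` and `M r`
  obtain ⟨c, hc, hxc⟩ := hx
  obtain ⟨d, hd, hrd⟩ := h.sub r hrOP
  have hdconst : ∀ g : L ≃ₐ[K] L, d g = d 1 := by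
    intro g
    have e1 : ∑ k : L ≃ₐ[K] L, (d (g * k) - d k) • (k θ) = 0 := by
      have e2 : ∑ k : L ≃ₐ[K] L, algebraMap K L (d (g * k)) * k θ = (M : L) * r := by
        have e3 : g⁻¹ ((M : L) * r) = (M : L) * r := by
          rw [map_mul, map_natCast, hrfix]
        rw [← e3, hrd, map_sum, ← Equiv.sum_comp (Equiv.mulLeft g)
          (fun k => g⁻¹ (algebraMap K L (d k) * k θ))]
        refine Finset.sum_congr rfl fun k _ => ?_
        rw [map_mul, AlgEquiv.commutes, Equiv.coe_mulLeft]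
        have e4 : g⁻¹ ((g * k) θ) = k θ := by
          rw [← AlgEquiv.mul_apply, inv_mul_cancel_left]
        rw [e4]
      have e5 : ∀ k : L ≃ₐ[K] L, (d (g * k) - d k) • (k θ)
          = algebraMap K L (d (g * k)) * k θ - algebraMap K L (d k) * k θ := by
        intro k
        rw [Algebra.smul_def, map_sub, sub_mul]
      rw [Finset.sum_congr rfl fun k _ => e5 k, Finset.sum_sub_distrib, e2, ← hrd, sub_self]
    have e6 := Fintype.linearIndependent_iff.1 h.indep _ e1 1
    rw [mul_one] at e6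
    exact sub_eq_zero.1 e6
  set T : L := ∑ g : L ≃ₐ[K] L, g θ with hT
  have hT0 : T ≠ 0 := by
    intro hT0
    have e1 : ∑ k : L ≃ₐ[K] L, (1 : K) • (k θ) = 0 := by
      simpa using hT0
    have e2 := Fintype.linearIndependent_iff.1 h.indep _ e1 1
    exact one_ne_zero e2
  have hMr : (M : L) * r = algebraMap K L (d 1) * T := by
    rw [hrd, hT, Finset.mul_sum]
    refine Finset.sum_congr rfl fun g _ => ?_
    rw [hdconst g]
  have hTx : ∑ g : L ≃ₐ[K] L, g x = algebraMap K L (∑ g, c g) * T := by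
    have e1 : ∀ g : L ≃ₐ[K] L, g x = ∑ k : L ≃ₐ[K] L, algebraMap K L (c k) * (g * k) θ := by
      intro g
      rw [hxc, map_sum]
      refine Finset.sum_congr rfl fun k _ => ?_
      rw [map_mul, AlgEquiv.commutes, AlgEquiv.mul_apply]
    rw [Finset.sum_congr rfl fun g _ => e1 g, Finset.sum_comm, map_sum, Finset.sum_mul]
    refine Finset.sum_congr rfl fun k _ => ?_
    rw [← Finset.mul_sum, hT, ← Equiv.sum_comp (Equiv.mulRight k) (fun g => g θ)]
    rfl
  have hcsum : algebraMap K L (∑ g, c g) = (M : L) * algebraMap K L (d 1) := by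
    apply mul_right_cancel₀ hT0
    rw [← hTx, hTr2, mul_assoc, ← hMr]
    ring
  -- `x = M c' θ + (t y - y)`
  have hy : ∃ y ∈ Lam K L θ M, x - algebraMap K L (∑ g, c g) * θ = t y - y := by
    have e1 : ∀ g : L ≃ₐ[K] L, ∃ y ∈ Lam K L θ M, g θ - θ = t y - y := by
      intro g
      obtain ⟨k, hk⟩ := (mem_powers_iff_mem_zpowers.2 (ht g))
      exact HH1a_zpow t g k hk
    choose w hw hw2 using e1
    refine ⟨∑ g, algebraMap K L (c g) * w g, sum_mem fun g _ => HH1a_smul (hc g) (hw g), ?_⟩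
    rw [map_sum, map_sum, Finset.sum_mul, hxc, ← Finset.sum_sub_distrib, ← Finset.sum_sub_distrib]
    refine Finset.sum_congr rfl fun g _ => ?_
    rw [map_mul, AlgEquiv.commutes]
    linear_combination (algebraMap K L (c g)) * hw2 g
  obtain ⟨y, hy, hxy⟩ := hy
  have hyOP : y ∈ OP L M := Lam_sub_OP h hy
  -- the unit `v = 1 - M ^ 2 y`
  obtain ⟨w, hw, hvw⟩ := OP_unit (M := M) (by have := h.three_le; omega)
    (neg_mem (mul_mem hMOP hyOP))
  have hv0 : (1 + (M : L) * -((M : L) * y)) ≠ 0 := left_ne_zero_of_mul_eq_one hvw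
  let v : Lˣ := ⟨1 + (M : L) * -((M : L) * y), w, hvw, by rw [mul_comm]; exact hvw⟩
  have hv : (v : L) = 1 + (M : L) ^ 2 * (-y) := by
    change 1 + (M : L) * -((M : L) * y) = _
    ring
  have hvinv : ((v⁻¹ : Lˣ) : L) = w := rfl
  refine ⟨v, (mem_AA h 2 (by norm_num) v).2 ⟨-y, neg_mem hy, hv⟩, ?_⟩
  rw [mem_AA h 3 (by norm_num)]
  set e : L := x - t y + y with he
  have he2 : e = (M : L) * algebraMap K L (d 1) * θ := by
    rw [← hcsum, he]
    linear_combination hxy
  have hz' : (y * e - x * t y) * w ∈ OP L M := by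
    have htyOP : t y ∈ OP L M := OP_gal t hyOP
    exact mul_mem (sub_mem (mul_mem hyOP (add_mem (sub_mem hxOP htyOP) hyOP))
      (mul_mem hxOP htyOP)) hw
  refine ⟨algebraMap K L (d 1) * θ + (M : L) * ((y * e - x * t y) * w),
    add_mem (HH1a_smul (hd 1) HH1a_theta) (h.sub _ hz'), ?_⟩
  have hvw' : (v : L) * w = 1 := hvw
  have htv : t (v : L) = 1 + (M : L) ^ 2 * (-(t y)) := by
    rw [hv]
    simp
  rw [Units.val_mul, Units.val_mul, tU_val, hvinv, htv, hux]
  have hw1 : w = 1 + (M : L) ^ 2 * y * w := by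
    rw [hv] at hvw'
    linear_combination hvw'
  have key : (1 + (M : L) ^ 2 * x) * (1 + (M : L) ^ 2 * (-(t y)))
      = (v : L) + (M : L) ^ 2 * e - (M : L) ^ 4 * (x * t y) := by
    rw [hv, he]
    ring
  rw [key]
  have step : ((v : L) + (M : L) ^ 2 * e - (M : L) ^ 4 * (x * t y)) * w
      = 1 + (M : L) ^ 2 * e + (M : L) ^ 4 * ((y * e - x * t y) * w) := by
    linear_combination hvw' + (M : L) ^ 2 * e * hw1
  rw [step]
  have e3 : (M : L) ^ 2 * e = (M : L) ^ 3 * (algebraMap K L (d 1) * θ) := by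
    rw [he2]
    ring
  rw [e3]
  ring

end Pool.Agent.ARC.PH
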