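import Pool.Agent.ARC.HDefs
import Pool.Agent.ARC.HAA

/-! # ARC, part H, module HH1b

Second step. `α = 1 + u + u t(u) + ... + u t(u) ... t^(n-2)(u)` (`n` terms): `u t(α) = α` by
`N u = 1`. All terms are in `AA 3` (a stable group), so `α = n + M^3 z`, `z ∈ Lam`, and
`v = α / n = 1 + M^2 ((M / n) z)` (`α ≠ 0`: `α / n ∈ 1 + M * OP`, a unit) is in `AA 2`,
`u t(v) = v`.
 -/

set_option autoImplicit false

noncomputable section

set_option linter.unusedSectionVars false

namespace Pool.Agent.ARC.PH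

open NumberField Module IsDedekindDomain nonZeroDivisors

variable {K L : Type} [Field K] [NumberField K] [Field L] [NumberField L] [Algebra K L]


variable {θ : L} {M : ℕ}

theorem h1_step2 [IsGalois K L] (h : Good K L θ M) (t : L ≃ₐ[K] L)
    (ht : ∀ g, g ∈ Subgroup.zpowers t) (u : Lˣ) (hu : u ∈ AA K L θ M 3)
    (hN : ∏ i ∈ Finset.range (finrank K L), (t ^ i) (u : L) = 1) :
    ∃ v ∈ AA K L θ M 2, u * tU t v = v := by
  classical
  have hn0 : finrank K L ≠ 0 := finrank_pos.ne'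
  have hnL : ((finrank K L : ℕ) : L) ≠ 0 := by exact_mod_cast hn0
  obtain ⟨m, hm⟩ := h.dvd
  have hP : ∀ k : ℕ, (∏ i ∈ Finset.range k, tU (t ^ i) u) ∈ AA K L θ M 3 := fun k =>
    Subgroup.prod_mem _ fun i _ => AA_stable (t ^ i) θ M 3 u hu
  have hPv : ∀ k : ℕ, (((∏ i ∈ Finset.range k, tU (t ^ i) u : Lˣ)) : L) =
      ∏ i ∈ Finset.range k, (t ^ i) (u : L) := by
    intro k
    rw [Units.coe_prod]
    rfl
  have hx : ∀ k : ℕ, ∃ x ∈ Lam K L θ M, ∏ i ∈ Finset.range k, (t ^ i) (u : L) = 1 + (M : L) ^ 3 * x := by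
    intro k
    obtain ⟨x, hx, hxe⟩ := (mem_AA h 3 (by norm_num) _).1 (hP k)
    exact ⟨x, hx, by rw [← hPv]; exact hxe⟩
  choose x hxL hxe using hx
  have hz : (m : L) * ∑ k ∈ Finset.range (finrank K L), x k ∈ Lam K L θ M := by
    rw [← nsmul_eq_mul]
    exact AddSubgroup.nsmul_mem _ (AddSubgroup.sum_mem _ fun k _ => hxL k) m
  have hα : ∑ k ∈ Finset.range (finrank K L), ∏ i ∈ Finset.range k, (t ^ i) (u : L) =
      (finrank K L : L) + (M : L) ^ 3 * ∑ k ∈ Finset.range (finrank K L), x k := by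
    rw [Finset.sum_congr rfl fun k _ => hxe k, Finset.sum_add_distrib, Finset.sum_const, Finset.card_range,
      nsmul_one, Finset.mul_sum]
  have hMn : (M : L) = (finrank K L : L) * m := by
    rw [← Nat.cast_mul, ← hm]
  have hαn : (∑ k ∈ Finset.range (finrank K L), ∏ i ∈ Finset.range k, (t ^ i) (u : L)) / (finrank K L : L) =
      1 + (M : L) ^ 2 * ((m : L) * ∑ k ∈ Finset.range (finrank K L), x k) := by
    rw [hα, div_eq_iff hnL]
    linear_combination (M : L) ^ 2 * (∑ k ∈ Finset.range (finrank K L), x k) * hMn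
  have hv0 : (∑ k ∈ Finset.range (finrank K L), ∏ i ∈ Finset.range k, (t ^ i) (u : L)) /
      (finrank K L : L) ≠ 0 := by
    intro h0
    have hM2 : 2 ≤ M := le_trans (by norm_num) h.three_le
    have hOP : (M : L) * ((m : L) * ∑ k ∈ Finset.range (finrank K L), x k) ∈ OP L M :=
      mul_mem (natCast_mem _ _) (Lam_sub_OP h hz)
    obtain ⟨y, -, hy⟩ := OP_unit hM2 hOP
    have h1 : (1 + (M : L) * ((M : L) * ((m : L) * ∑ k ∈ Finset.range (finrank K L), x k))) = 0 := by
      rw [← h0, hαn]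
      ring
    rw [h1, zero_mul] at hy
    exact zero_ne_one hy
  refine ⟨Units.mk0 _ hv0, Subgroup.subset_closure ⟨_, hz, hαn⟩, ?_⟩
  apply Units.ext
  rw [Units.val_mul, tU_val, Units.val_mk0, map_div₀, map_natCast, ← mul_div_assoc]
  congr 1
  rw [map_sum, Finset.mul_sum]
  have hstep : ∀ k : ℕ, (u : L) * t (∏ i ∈ Finset.range k, (t ^ i) (u : L)) =
      ∏ i ∈ Finset.range (k + 1), (t ^ i) (u : L) := by
    intro k
    rw [Finset.prod_range_succ', map_prod, mul_comm]
    congr 1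
    refine Finset.prod_congr rfl fun i _ => ?_
    rw [pow_succ', AlgEquiv.mul_apply]
  rw [Finset.sum_congr rfl fun k _ => hstep k]
  have h1 := Finset.sum_range_succ (fun k => ∏ i ∈ Finset.range k, (t ^ i) (u : L)) (finrank K L)
  have h2 := Finset.sum_range_succ' (fun k => ∏ i ∈ Finset.range k, (t ^ i) (u : L)) (finrank K L)
  rw [hN] at h1
  rw [Finset.prod_range_zero] at h2
  rw [h1] at h2
  exact (add_right_cancel h2).symm

end Pool.Agent.ARC.PH
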