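import Pool.Agent.ARC.HDefs
import Pool.Agent.ARC.HH1a
import Pool.Agent.ARC.HH1b

/-! # ARC, part H, module HH1

`tA_pow`: `t ^ n = 1`. `Nm_tA_val`: the norm of `a` is the product of the `t^i a`.
`h1_zero`: from `h1_step`, `h1_step2`: `u = v2 v1 / (t v2 t v1)`, `b = - (v1 v2)`.
 -/

set_option autoImplicit false

noncomputable section

set_option linter.unusedSectionVars false

namespace Pool.Agent.ARC.PH

open NumberField Module IsDedekindDomain nonZeroDivisors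

variable {K L : Type} [Field K] [NumberField K] [Field L] [NumberField L] [Algebra K L]


variable {θ : L} {M : ℕ}

private theorem HH1_pow (t : L ≃ₐ[K] L) (k : ℕ) (a : Additive (AA K L θ M 2)) :
    ((((tA t θ M ^ k) a).toMul : AA K L θ M 2) : Lˣ) = tU (t ^ k) ((a.toMul : AA K L θ M 2) : Lˣ) := by
  induction k with
  | zero =>
    rw [pow_zero, pow_zero]
    apply Units.ext
    rfl
  | succ k ih =>
    have e : (tA t θ M ^ (k + 1)) a = tA t θ M ((tA t θ M ^ k) a) := by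
      rw [pow_succ']
      rfl
    rw [e, tA, rs_val, ← tA, ih, pow_succ']
    apply Units.ext
    rfl

private theorem HH1_tn [IsGalois K L] (t : L ≃ₐ[K] L) : t ^ (finrank K L) = 1 := by
  rw [← IsGalois.card_aut_eq_finrank K L]
  exact pow_card_eq_one'

theorem tA_pow [IsGalois K L] (t : L ≃ₐ[K] L) : tA t θ M ^ (finrank K L) = 1 := by
  ext a
  have h1 := HH1_pow (θ := θ) (M := M) t (finrank K L) a
  rw [HH1_tn] at h1
  exact congrArg Units.val h1

theorem Nm_tA_val (t : L ≃ₐ[K] L) (n : ℕ) (a : Additive (AA K L θ M 2)) :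
    ((((Nm n (tA t θ M) a).toMul : AA K L θ M 2) : Lˣ) : L) =
      ∏ i ∈ Finset.range n, (t ^ i) (((a.toMul : AA K L θ M 2) : Lˣ) : L) := by
  rw [Nm_apply, toMul_sum, Subgroup.val_finsetProd, Units.coe_prod]
  refine Finset.prod_congr rfl fun i _ => ?_
  rw [HH1_pow]
  rfl

theorem h1_zero [IsGalois K L] (h : Good K L θ M) (t : L ≃ₐ[K] L)
    (ht : ∀ g, g ∈ Subgroup.zpowers t) (a : Additive (AA K L θ M 2))
    (ha : Nm (finrank K L) (tA t θ M) a = 0) : ∃ b, a = (tA t θ M - 1) b := by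
  have hN : ∏ i ∈ Finset.range (finrank K L), (t ^ i) (((a.toMul : AA K L θ M 2) : Lˣ) : L) = 1 := by
    rw [← Nm_tA_val, ha]
    rfl
  obtain ⟨v1, hv1, hu1⟩ := h1_step h t ht ((a.toMul : AA K L θ M 2) : Lˣ) (a.toMul).2 hN
  have hN1 : ∏ i ∈ Finset.range (finrank K L), (t ^ i)
      ((((a.toMul : AA K L θ M 2) : Lˣ) * tU t v1 * v1⁻¹ : Lˣ) : L) = 1 := by
    have h1 : ∀ i : ℕ, (t ^ i) ((((a.toMul : AA K L θ M 2) : Lˣ) * tU t v1 * v1⁻¹ : Lˣ) : L) =
        (t ^ i) (((a.toMul : AA K L θ M 2) : Lˣ) : L) * (t ^ (i + 1)) (v1 : L) * ((t ^ i) (v1 : L))⁻¹ := by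
      intro i
      rw [Units.val_mul, Units.val_mul, Units.val_inv_eq_inv_val, map_mul, map_mul, map_inv₀, tU_val,
        pow_succ, AlgEquiv.mul_apply]
    rw [Finset.prod_congr rfl fun i _ => h1 i, Finset.prod_mul_distrib, Finset.prod_mul_distrib, hN, one_mul,
      Finset.prod_inv_distrib]
    have h2 := Finset.prod_range_succ (fun i => (t ^ i) (v1 : L)) (finrank K L)
    have h3 := Finset.prod_range_succ' (fun i => (t ^ i) (v1 : L)) (finrank K L)
    rw [h2, HH1_tn, pow_zero] at h3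
    have h4 : (1 : L ≃ₐ[K] L) (v1 : L) ≠ 0 := v1.ne_zero
    have h5 := mul_right_cancel₀ h4 h3
    rw [← h5]
    apply mul_inv_cancel₀
    rw [Finset.prod_ne_zero_iff]
    intro i _
    exact (map_ne_zero _).2 v1.ne_zero
  obtain ⟨v2, hv2, hu2⟩ := h1_step2 h t ht _ hu1 hN1
  refine ⟨Additive.ofMul ⟨(v1 * v2)⁻¹, inv_mem (mul_mem hv1 hv2)⟩, ?_⟩
  apply Additive.toMul.injective
  apply Subtype.ext
  have h6 : ((((tA t θ M - 1) (Additive.ofMul ⟨(v1 * v2)⁻¹, inv_mem (mul_mem hv1 hv2)⟩)).toMul :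
      AA K L θ M 2) : Lˣ) = tU t (v1 * v2)⁻¹ * ((v1 * v2)⁻¹)⁻¹ := by
    have e : (tA t θ M - 1) (Additive.ofMul ⟨(v1 * v2)⁻¹, inv_mem (mul_mem hv1 hv2)⟩) =
        tA t θ M (Additive.ofMul ⟨(v1 * v2)⁻¹, inv_mem (mul_mem hv1 hv2)⟩) -
        Additive.ofMul ⟨(v1 * v2)⁻¹, inv_mem (mul_mem hv1 hv2)⟩ := rfl
    rw [e, toMul_sub, Subgroup.coe_div, div_eq_mul_inv]
    rfl
  rw [h6, map_inv, inv_inv, map_mul]
  have h7 : ((a.toMul : AA K L θ M 2) : Lˣ) * (tU t v1 * tU t v2) = v1 * v2 := by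
    calc ((a.toMul : AA K L θ M 2) : Lˣ) * (tU t v1 * tU t v2)
        = v1 * ((((a.toMul : AA K L θ M 2) : Lˣ) * tU t v1 * v1⁻¹) * tU t v2) := by
          rw [mul_comm (((a.toMul : AA K L θ M 2) : Lˣ) * tU t v1) v1⁻¹, mul_assoc v1⁻¹, mul_inv_cancel_left,
            mul_assoc]
      _ = v1 * v2 := by rw [hu2]
  rw [← h7, mul_comm, mul_assoc, mul_inv_cancel, mul_one]

end Pool.Agent.ARC.PH
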