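import Mathlib
import Pool.Agent.ARC.HDefs

/-! # ARC, part H (2): the lattice lemma -/

set_option autoImplicit false

noncomputable section

namespace Pool.Agent.ARC.PH

open Module Polynomial

section idx

variable {M : Type*} [AddCommGroup M] [Module.Free ℤ M] [Module.Finite ℤ M]

/-- the index of the image of an injective endomorphism is the absolute value of its
determinant. -/
lemma index_range_eq (f : M →ₗ[ℤ] M) (hf : Function.Injective f) :
    f.toAddMonoidHom.range.index = (LinearMap.det f).natAbs := by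
  have h := Submodule.natAbs_det_equiv (LinearMap.range f) (LinearEquiv.ofInjective f hf)
  have h1 : (LinearMap.range f).subtype ∘ₗ AddMonoidHom.toIntLinearMap
      ((LinearEquiv.ofInjective f hf : M ≃ₗ[ℤ] LinearMap.range f) : M →+ LinearMap.range f) = f := by
    ext x
    rfl
  rw [h1] at h
  rw [h]
  rfl

lemma det_ne_zero_of_injective (f : M →ₗ[ℤ] M) (hf : Function.Injective f) :
    LinearMap.det f ≠ 0 := by
  intro h0
  rw [LinearMap.det_eq_zero_iff_ker_ne_bot] at h0
  exact h0 (LinearMap.ker_eq_bot.mpr hf)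

end idx

/-- comparing powers of `X - 1` -/
lemma pow_X_sub_one_cancel (p q : ℤ[X]) (a b : ℕ) (hp : p.eval 1 ≠ 0) (hq : q.eval 1 ≠ 0)
    (h : p * (X - 1) ^ a = q * (X - 1) ^ b) : a = b ∧ p = q := by
  have hX : (X - 1 : ℤ[X]) ≠ 0 := by
    have := X_sub_C_ne_zero (1 : ℤ)
    simpa using this
  have key : ∀ (p q : ℤ[X]) (a b : ℕ), p.eval 1 ≠ 0 → q.eval 1 ≠ 0 → a ≤ b →
      p * (X - 1) ^ a = q * (X - 1) ^ b → a = b ∧ p = q := by
    intro p q a b hp hq hab h
    obtain ⟨c, rfl⟩ := Nat.exists_eq_add_of_le hab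
    have h1 : p = q * (X - 1) ^ c := by
      apply mul_right_cancel₀ (pow_ne_zero a hX)
      rw [h, pow_add]
      ring
    rcases Nat.eq_zero_or_pos c with h0 | h0
    · subst h0
      exact ⟨rfl, by simpa using h1⟩
    · exfalso
      apply hp
      rw [h1]
      simp [h0.ne']
  rcases le_total a b with hab | hab
  · exact key p q a b hp hq hab h
  · obtain ⟨h1, h2⟩ := key q p b a hq hp hab h.symm
    exact ⟨h1.symm, h2.symm⟩

variable {E : Type*} [AddCommGroup E] [Module.Free ℤ E] [Module.Finite ℤ E]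

/-- **Lattice lemma.** -/
theorem lattice_lemma (t : E →ₗ[ℤ] E) (n : ℕ) (hn : 0 < n) (ht : t ^ n = 1)
    {V : Type*} [Fintype V] (o : V → ℕ) (ho : ∀ v, 0 < o v)
    (hc : t.charpoly * (X - 1) = ∏ v, ((X : ℤ[X]) ^ o v - 1)) :
    (t - 1).toAddMonoidHom.range.relIndex (∑ i ∈ Finset.range n, t ^ i).toAddMonoidHom.ker ≠ 0 ∧
    (∑ i ∈ Finset.range n, t ^ i).toAddMonoidHom.range.relIndex (t - 1).toAddMonoidHom.ker ≠ 0 ∧
    (t - 1).toAddMonoidHom.range.relIndex (∑ i ∈ Finset.range n, t ^ i).toAddMonoidHom.ker *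
        n ^ (Fintype.card V - 1) =
      (∑ i ∈ Finset.range n, t ^ i).toAddMonoidHom.range.relIndex (t - 1).toAddMonoidHom.ker *
        ∏ v, o v := by
  obtain ⟨N, hN⟩ : ∃ N : E →ₗ[ℤ] E, N = ∑ i ∈ Finset.range n, t ^ i := ⟨_, rfl⟩
  rw [← hN]
  have hNt : N * (t - 1) = 0 := by
    rw [hN, geom_sum_mul, ht, sub_self]
  have htN : (t - 1) * N = 0 := by
    rw [hN, mul_geom_sum, ht, sub_self]
  have hNt' : ∀ x, N ((t - 1) x) = 0 := fun x => by
    have := congrArg (fun f : E →ₗ[ℤ] E => f x) hNt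
    simpa using this
  have htN' : ∀ x, (t - 1) (N x) = 0 := fun x => by
    have := congrArg (fun f : E →ₗ[ℤ] E => f x) htN
    simpa using this
  have hN0 : ∀ x, (t - 1) x = 0 → N x = (n : ℤ) • x := by
    intro x hx
    have h1 : t x = x := by
      have : t x - x = 0 := by simpa using hx
      exact sub_eq_zero.mp this
    have h2 : ∀ i : ℕ, (t ^ i) x = x := by
      intro i
      induction i with
      | zero => simp
      | succ i ih => rw [pow_succ, Module.End.mul_apply, h1, ih]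
    rw [hN, LinearMap.sum_apply]
    simp_rw [h2]
    simp
  have hNN : ∀ x, N (N x) = (n : ℤ) • N x := fun x => hN0 (N x) (htN' x)
  have hn0 : (n : ℤ) ≠ 0 := by exact_mod_cast hn.ne'
  -- the two subgroups
  obtain ⟨u, hu⟩ : ∃ u : E →+ E, u = (t - 1).toAddMonoidHom := ⟨_, rfl⟩
  obtain ⟨NA, hNA⟩ : ∃ NA : E →+ E, NA = N.toAddMonoidHom := ⟨_, rfl⟩
  rw [← hu, ← hNA]
  have hua : ∀ x, u x = t x - x := fun x => by rw [hu]; simp
  have hNa : ∀ x, NA x = N x := fun x => by rw [hNA]; rfl
  have huN : ∀ x, u (N x) = 0 := fun x => by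
    have := htN' x
    rw [hua]
    simpa using this
  have hNu : ∀ x, N (u x) = 0 := fun x => by
    have := hNt' x
    rw [hua]
    simpa using this
  have hS1E0 : NA.range ≤ u.ker := by
    rintro y ⟨x, rfl⟩
    rw [AddMonoidHom.mem_ker, hNa, huN]
  have hS0E1 : u.range ≤ NA.ker := by
    rintro y ⟨x, rfl⟩
    rw [AddMonoidHom.mem_ker, hNa, hNu]
  have hu0 : ∀ x, u x = 0 → N x = (n : ℤ) • x := by
    intro x hx
    apply hN0
    rw [hua] at hx
    simpa using hx
  have hdisj : NA.ker ⊓ u.ker = ⊥ := by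
    rw [eq_bot_iff]
    intro x hx
    rw [AddSubgroup.mem_inf, AddMonoidHom.mem_ker, AddMonoidHom.mem_ker, hNa] at hx
    have h1 := hu0 x hx.2
    rw [hx.1] at h1
    rw [AddSubgroup.mem_bot]
    exact (smul_eq_zero.mp h1.symm).resolve_left hn0
  -- the quotient by the kernel of the norm
  let W : Submodule ℤ E := LinearMap.ker N
  have hfreeQ : Module.Free ℤ (E ⧸ W) :=
    Module.Free.of_equiv (N.quotKerEquivRange).symm
  have hQ : Module.Finite ℤ (E ⧸ W) := inferInstance
  set a0 := Module.finrank ℤ (E ⧸ W) with ha0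
  have i1 : (NA.range ⊔ NA.ker).index = n ^ a0 := by
    let f : (E ⧸ W) →ₗ[ℤ] (E ⧸ W) := (n : ℤ) • LinearMap.id
    have hf : Function.Injective f := by
      intro x y hxy
      have h1 : (n : ℤ) • (x - y) = 0 := by
        rw [smul_sub]
        exact sub_eq_zero.mpr hxy
      exact sub_eq_zero.mp ((smul_eq_zero.mp h1).resolve_left hn0)
    have h1 := index_range_eq f hf
    have h2 : (LinearMap.det f).natAbs = n ^ a0 := by
      rw [LinearMap.det_smul, LinearMap.det_id, mul_one, Int.natAbs_pow, Int.natAbs_natCast]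
    rw [h2] at h1
    have h3 : (f.toAddMonoidHom.range.comap W.mkQ.toAddMonoidHom).index
        = f.toAddMonoidHom.range.index :=
      AddSubgroup.index_comap_of_surjective _ (Submodule.mkQ_surjective W)
    rw [← h1, ← h3]
    congr 1
    ext x
    rw [AddSubgroup.mem_sup, AddSubgroup.mem_comap]
    constructor
    · rintro ⟨y, ⟨z, rfl⟩, w, hw, rfl⟩
      refine ⟨W.mkQ z, ?_⟩
      change (n : ℤ) • W.mkQ z = W.mkQ (NA z + w)
      rw [← map_smul, ← sub_eq_zero, ← map_sub, Submodule.mkQ_apply,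
        Submodule.Quotient.mk_eq_zero]
      rw [AddMonoidHom.mem_ker, hNa] at hw
      change N ((n : ℤ) • z - (NA z + w)) = 0
      rw [map_sub, map_smul, map_add, hw, add_zero, hNa, hNN, sub_self]
    · rintro ⟨y, hy⟩
      obtain ⟨z, rfl⟩ := Submodule.mkQ_surjective W y
      have hy' : (n : ℤ) • W.mkQ z = W.mkQ x := hy
      rw [← map_smul, ← sub_eq_zero, ← map_sub, Submodule.mkQ_apply,
        Submodule.Quotient.mk_eq_zero] at hy'
      have hy2 : N ((n : ℤ) • z - x) = 0 := hy'
      refine ⟨NA z, ⟨z, rfl⟩, x - NA z, ?_, by abel⟩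
      rw [AddMonoidHom.mem_ker, hNa, hNa, map_sub, hNN, ← map_smul, ← map_sub]
      have h5 : x - (n : ℤ) • z = -((n : ℤ) • z - x) := by abel
      rw [h5, map_neg, hy2, neg_zero]
  set J := (u.ker ⊔ NA.ker).index with hJ
  have i2 : NA.range.relIndex u.ker * J = n ^ a0 := by
    have h1 : NA.range ⊔ NA.ker ≤ u.ker ⊔ NA.ker := sup_le_sup_right hS1E0 _
    have h2 := AddSubgroup.relIndex_mul_index h1
    have h3 : (NA.range ⊔ NA.ker).relIndex (u.ker ⊔ NA.ker) = NA.range.relIndex u.ker := by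
      have e4 : u.ker ⊔ NA.ker = u.ker ⊔ (NA.range ⊔ NA.ker) := by
        rw [← sup_assoc, sup_eq_left.mpr hS1E0]
      rw [e4, AddSubgroup.relIndex_sup_right, ← AddSubgroup.inf_relIndex_right,
        sup_inf_assoc_of_le NA.ker hS1E0, hdisj, sup_bot_eq]
    rw [← i1, ← h2, h3]
  -- the restriction to the kernel of the norm
  have htW : ∀ x ∈ W, t x ∈ W := by
    intro x hx
    have h1 := hNu x
    rw [hua, map_sub] at h1
    have hx' : N x = 0 := hx
    change N (t x) = 0
    rw [← sub_eq_zero]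
    rw [hx'] at h1
    exact h1
  let tW : W →ₗ[ℤ] W := t.restrict htW
  let f1 : W →ₗ[ℤ] W := algebraMap ℤ (Module.End ℤ W) 1 - tW
  have hf1a : ∀ x : W, ((f1 x : W) : E) = x - t x := by
    intro x
    simp [f1, tW]
  have hf1 : Function.Injective f1 := by
    rw [← LinearMap.ker_eq_bot, eq_bot_iff]
    intro x hx
    rw [LinearMap.mem_ker] at hx
    have h1 : ((f1 x : W) : E) = 0 := by rw [hx]; rfl
    rw [hf1a] at h1
    have h2 : (x : E) ∈ NA.ker ⊓ u.ker := by
      rw [AddSubgroup.mem_inf, AddMonoidHom.mem_ker, AddMonoidHom.mem_ker, hNa, hua]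
      refine ⟨x.2, ?_⟩
      rw [← neg_eq_zero, neg_sub]
      exact h1
    rw [hdisj, AddSubgroup.mem_bot] at h2
    rw [Submodule.mem_bot]
    exact Subtype.ext h2
  have i3 : (NA.ker.map u).relIndex NA.ker = (LinearMap.det f1).natAbs := by
    rw [← index_range_eq f1 hf1]
    change ((NA.ker.map u).addSubgroupOf NA.ker).index = _
    let e : W →+ NA.ker :=
      { toFun := fun x => ⟨x.1, by rw [AddMonoidHom.mem_ker, hNa]; exact x.2⟩
        map_zero' := rfl
        map_add' := fun x y => rfl }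
    have he : Function.Surjective e := by
      rintro ⟨x, hx⟩
      rw [AddMonoidHom.mem_ker, hNa] at hx
      exact ⟨⟨x, hx⟩, rfl⟩
    rw [← AddSubgroup.index_comap_of_surjective _ he]
    congr 1
    ext x
    rw [AddSubgroup.mem_comap, AddSubgroup.mem_addSubgroupOf]
    change (x : E) ∈ NA.ker.map u ↔ _
    rw [AddSubgroup.mem_map]
    constructor
    · rintro ⟨y, hy, hyx⟩
      rw [AddMonoidHom.mem_ker, hNa] at hy
      refine ⟨-⟨y, hy⟩, ?_⟩
      apply Subtype.ext
      change ((f1 (-⟨y, hy⟩) : W) : E) = x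
      rw [hf1a, ← hyx, hua]
      simp
      abel
    · rintro ⟨y, rfl⟩
      refine ⟨-(y : E), ?_, ?_⟩
      · rw [AddMonoidHom.mem_ker, hNa, map_neg]
        have : N (y : E) = 0 := y.2
        rw [this, neg_zero]
      · change u (-(y : E)) = ((f1 y : W) : E)
        rw [hf1a, hua, map_neg]
        abel
  have i4 : (NA.ker.map u).relIndex u.range = J := by
    have h1 := AddSubgroup.relIndex_map_map u NA.ker ⊤
    rw [← AddMonoidHom.range_eq_map, top_sup_eq, AddSubgroup.relIndex_top_right, sup_comm] at h1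
    exact h1
  have i5 : u.range.relIndex NA.ker * J = (LinearMap.det f1).natAbs := by
    rw [← i3, ← i4, mul_comm]
    refine AddSubgroup.relIndex_mul_relIndex _ _ _ ?_ hS0E1
    rintro y ⟨x, -, rfl⟩
    exact ⟨x, rfl⟩
  have hd0 : (LinearMap.det f1).natAbs ≠ 0 := by
    rw [Int.natAbs_ne_zero]
    exact det_ne_zero_of_injective f1 hf1
  have hJ0 : J ≠ 0 := by
    intro h0
    rw [h0, mul_zero] at i5
    exact hd0 i5.symm
  -- the characteristic polynomial
  have i6 : t.charpoly = tW.charpoly * (X - 1) ^ a0 := by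
    apply Polynomial.funext
    intro T
    rw [eval_mul, LinearMap.eval_charpoly, LinearMap.eval_charpoly]
    have hW2 : W ≤ W.comap (algebraMap ℤ (Module.End ℤ E) T - t) := by
      intro x hx
      rw [Submodule.mem_comap]
      exact W.sub_mem (W.smul_mem T hx) (htW x hx)
    rw [LinearMap.det_eq_det_mul_det W _ hW2]
    congr 1
    have h1 : W.mapQ W (algebraMap ℤ (Module.End ℤ E) T - t) hW2 = (T - 1) • LinearMap.id := by
      apply LinearMap.ext
      intro y
      obtain ⟨x, rfl⟩ := Submodule.mkQ_surjective W y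
      rw [Submodule.mkQ_apply, Submodule.mapQ_apply]
      change W.mkQ ((algebraMap ℤ (Module.End ℤ E) T - t) x) = (T - 1) • W.mkQ x
      rw [← map_smul, ← sub_eq_zero, ← map_sub, Submodule.mkQ_apply,
        Submodule.Quotient.mk_eq_zero]
      change N ((algebraMap ℤ (Module.End ℤ E) T - t) x - (T - 1) • x) = 0
      have h2 : (algebraMap ℤ (Module.End ℤ E) T - t) x - (T - 1) • x = -(u x) := by
        rw [hua, LinearMap.sub_apply, Module.algebraMap_end_apply, sub_smul, one_smul]
        abel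
      rw [h2, map_neg, hNu, neg_zero]
    rw [h1, LinearMap.det_smul, LinearMap.det_id, mul_one]
    simp [ha0]
  have i7 : ∏ v, ((X : ℤ[X]) ^ o v - 1) = (∏ v, ∑ i ∈ Finset.range (o v), (X : ℤ[X]) ^ i) *
      (X - 1) ^ Fintype.card V := by
    rw [← Finset.card_univ, ← Finset.prod_const, ← Finset.prod_mul_distrib]
    exact Finset.prod_congr rfl fun v _ => (geom_sum_mul _ _).symm
  have i8 : tW.charpoly.eval 1 = LinearMap.det f1 := LinearMap.eval_charpoly _ _
  have i9 : (∏ v, ∑ i ∈ Finset.range (o v), (X : ℤ[X]) ^ i).eval 1 = ((∏ v, o v : ℕ) : ℤ) := by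
    rw [eval_prod]
    push_cast
    exact Finset.prod_congr rfl fun v _ => by simp [eval_finsetSum]
  have i10 := pow_X_sub_one_cancel tW.charpoly (∏ v, ∑ i ∈ Finset.range (o v), (X : ℤ[X]) ^ i)
    (a0 + 1) (Fintype.card V) (by
      rw [i8]; exact det_ne_zero_of_injective f1 hf1) (by
      rw [i9]
      exact_mod_cast (Finset.prod_pos fun v _ => ho v).ne') (by
      rw [← i7, ← hc, i6, pow_succ, mul_assoc])
  have i11 : (LinearMap.det f1).natAbs = ∏ v, o v := by
    rw [← i8, i10.2, i9, Int.natAbs_natCast]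
  have i12 : Fintype.card V - 1 = a0 := by rw [← i10.1]; simp
  rw [i12]
  refine ⟨?_, ?_, ?_⟩
  · intro h0
    rw [h0, zero_mul] at i5
    exact hd0 i5.symm
  · intro h0
    rw [h0, zero_mul] at i2
    exact (pow_pos hn a0).ne i2
  · apply Nat.eq_of_mul_eq_mul_right (Nat.pos_of_ne_zero hJ0)
    calc u.range.relIndex NA.ker * n ^ a0 * J = (u.range.relIndex NA.ker * J) * n ^ a0 := by ring
      _ = (∏ v, o v) * (NA.range.relIndex u.ker * J) := by rw [i5, i11, i2]
      _ = NA.range.relIndex u.ker * (∏ v, o v) * J := by ring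

theorem lattice_index {E V : Type} [AddCommGroup E] [Module.Free ℤ E] [Module.Finite ℤ E]
    [Fintype V] (n : ℕ) (hn : 0 < n) (t : AddMonoid.End E) (ht : t ^ n = 1) (o : V → ℕ)
    (ho : ∀ v, 0 < o v)
    (hch : (AddMonoidHom.toIntLinearMap t).charpoly * (X - 1) = ∏ v, (X ^ o v - 1)) :
    hh0 n t ≠ 0 ∧ hh1 n t ≠ 0 ∧
      hh1 n t * n ^ (Fintype.card V - 1) = hh0 n t * ∏ v, o v := by
  set T : E →ₗ[ℤ] E := AddMonoidHom.toIntLinearMap t with hT
  have hpow : ∀ i : ℕ, ∀ x, (T ^ i) x = (t ^ i) x := by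
    intro i
    induction i with
    | zero => intro x; simp
    | succ i ih =>
      intro x
      rw [pow_succ, pow_succ, Module.End.mul_apply, ih]
      rfl
  have hTn : T ^ n = 1 := by
    apply LinearMap.ext
    intro x
    rw [hpow, ht]
    rfl
  have e1 : (T - 1).toAddMonoidHom = (t - 1 : AddMonoid.End E) := by
    ext x
    rfl
  have e2 : (∑ i ∈ Finset.range n, T ^ i).toAddMonoidHom = Nm n t := by
    refine AddMonoidHom.ext fun x => ?_
    have e3 : (∑ i ∈ Finset.range n, T ^ i).toAddMonoidHom x = ∑ i ∈ Finset.range n, (t ^ i) x := by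
      change (∑ i ∈ Finset.range n, T ^ i) x = _
      rw [LinearMap.sum_apply]
      exact Finset.sum_congr rfl fun i _ => hpow i x
    exact e3.trans (Nm_apply n t x).symm
  obtain ⟨h1, h2, h3⟩ := lattice_lemma T n hn hTn o ho hch
  rw [e1, e2] at h1 h2 h3
  exact ⟨h2, h1, h3⟩

end Pool.Agent.ARC.PH
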