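import Pool.Agent.ARC.HDefs
import Pool.Agent.ARC.HH1

/-! # ARC, part H, module HSg1

Norms are positive at the ramified real places. `N a = ∏ t^i a` is fixed by the group, so it is
`x ∈ K`. Let `w` be a real place of `K`, `φ : L →+* ℂ` an embedding of a complex place over it;
`φ` on `K` is the real embedding `rv w`. The conjugate of `φ` is `φ ∘ c` for an element `c ≠ 1` of
the group (`InfinitePlace.isUnramified_mk_iff_forall_isConj` or
`ComplexEmbedding.exists_comp_symm_eq_of_comp_eq`), `c^2 = 1`. `rv w x = φ (N a) = ∏_g φ (g a)`; the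
involution `g ↦ c g` has no fixed points and conjugates `φ (g a)`: the product of the
`φ (g a) / |φ (g a)|` is `1` (`Finset.prod_involution`), so `φ (N a) = ∏ |φ (g a)| > 0`.
 -/

set_option autoImplicit false

noncomputable section

set_option linter.unusedSectionVars false

namespace Pool.Agent.ARC.PH

open NumberField Module IsDedekindDomain nonZeroDivisors

variable {K L : Type} [Field K] [NumberField K] [Field L] [NumberField L] [Algebra K L]


variable {θ : L} {M : ℕ}

private theorem hsg1_prod [IsGalois K L] (t : L ≃ₐ[K] L) (ht : ∀ g, g ∈ Subgroup.zpowers t)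
    (a : L) : ∏ i ∈ Finset.range (finrank K L), (t ^ i) a = ∏ g : L ≃ₐ[K] L, g a := by
  classical
  have hc : orderOf t = finrank K L := by
    rw [← IsGalois.card_aut_eq_finrank K L]
    exact orderOf_eq_card_of_forall_mem_zpowers ht
  have him : (Finset.univ : Finset (L ≃ₐ[K] L)) =
      (Finset.range (finrank K L)).image fun i => t ^ i := by
    symm
    rw [Finset.eq_univ_iff_forall]
    intro g
    obtain ⟨k, hk, hg⟩ := (mem_powers_iff_mem_range_orderOf (x := t) (y := g)).1
      (mem_powers_iff_mem_zpowers.2 (ht g)) |> fun h => by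
        simpa using h
    rw [Finset.mem_image]
    exact ⟨k, Finset.mem_range.2 (hc ▸ hk), hg⟩
  rw [him, Finset.prod_image]
  intro i hi j hj hij
  rw [← hc] at hi hj
  exact pow_injOn_Iio_orderOf (by simpa using hi) (by simpa using hj) hij

private theorem hsg1_norm [IsGalois K L] (t : L ≃ₐ[K] L) (ht : ∀ g, g ∈ Subgroup.zpowers t)
    (a : L) : ∏ i ∈ Finset.range (finrank K L), (t ^ i) a = algebraMap K L (Algebra.norm K a) := by
  rw [hsg1_prod t ht, Algebra.norm_eq_prod_automorphisms]

private theorem hsg1_pos [IsGalois K L] (w : Helper4.RP K) (hw : Ram K L w) (a : L) (ha : a ≠ 0) :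
    0 < Helper4.rv w (Algebra.norm K a) := by
  classical
  obtain ⟨u, huw, hu⟩ := hw
  set ψ : L →+* ℂ := u.embedding with hψ
  have hψr : ψ.comp (algebraMap K L) = w.1.embedding := by
    have h1 : InfinitePlace.mk (ψ.comp (algebraMap K L)) = w.1 := by
      rw [← huw, ← InfinitePlace.comap_mk, hψ, InfinitePlace.mk_embedding]
    rw [← InfinitePlace.mk_embedding w.1, InfinitePlace.mk_eq_iff] at h1
    rcases h1 with h1 | h1
    · exact h1
    · have h2 := InfinitePlace.isReal_iff.1 w.2
      have h3 := ComplexEmbedding.isReal_iff.1 h2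
      rw [← h1] at h3
      rw [ComplexEmbedding.involutive_conjugate] at h3
      rw [h3, h1]
  have hrv : ∀ x : K, ((Helper4.rv w x : ℝ) : ℂ) = ψ (algebraMap K L x) := by
    intro x
    have h1 : ((Helper4.rv w x : ℝ) : ℂ) = w.1.embedding x :=
      InfinitePlace.embedding_of_isReal_apply w.2 x
    rw [h1, ← hψr]
    rfl
  have hcomp : ψ.comp (algebraMap K L) = (ComplexEmbedding.conjugate ψ).comp (algebraMap K L) := by
    ext x
    have h1 := hrv x
    change ψ (algebraMap K L x) = star (ψ (algebraMap K L x))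
    rw [← h1]
    exact (Complex.conj_ofReal _).symm
  obtain ⟨σ, hσ⟩ := ComplexEmbedding.exists_comp_symm_eq_of_comp_eq ψ _ hcomp
  have hcv : ∀ y : L, ψ (σ.symm y) = (starRingEnd ℂ) (ψ y) := fun y => RingHom.congr_fun hσ y
  have hc2 : ∀ y : L, σ.symm (σ.symm y) = y := by
    intro y
    apply ψ.injective
    rw [hcv, hcv, Complex.conj_conj]
  have hc1 : σ.symm ≠ 1 := by
    intro h1
    have h2 : ComplexEmbedding.IsReal ψ := by
      rw [ComplexEmbedding.isReal_iff, ← hσ, h1]
      rfl
    exact (InfinitePlace.isComplex_iff.1 hu) h2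
  set c : L ≃ₐ[K] L := σ.symm with hc
  have hcc : c * c = 1 := by
    ext y
    exact hc2 y
  have hne : ∀ g : L ≃ₐ[K] L, ψ (g a) ≠ 0 := by
    intro g
    rw [map_ne_zero, Ne, EmbeddingLike.map_eq_zero_iff]
    exact ha
  have hprod : ∏ g : L ≃ₐ[K] L, (ψ (g a) / (‖ψ (g a)‖ : ℂ)) = 1 := by
    refine Finset.prod_involution (fun g _ => c * g) ?_ ?_ (fun g _ => Finset.mem_univ _) ?_
    · intro g _
      have h1 : ψ ((c * g) a) = (starRingEnd ℂ) (ψ (g a)) := hcv (g a)
      have h2 : (‖ψ (g a)‖ : ℂ) ≠ 0 := by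
        rw [Ne, Complex.ofReal_eq_zero, norm_eq_zero]
        exact hne g
      rw [h1, RCLike.norm_conj, div_mul_div_comm, Complex.mul_conj, Complex.normSq_eq_norm_sq]
      rw [div_eq_one_iff_eq (mul_ne_zero h2 h2)]
      push_cast
      ring
    · intro g _ _ h1
      exact hc1 (mul_eq_right.1 h1)
    · intro g _
      rw [← mul_assoc, hcc, one_mul]
  have hfin : ((Helper4.rv w (Algebra.norm K a) : ℝ) : ℂ) =
      ((∏ g : L ≃ₐ[K] L, ‖ψ (g a)‖ : ℝ) : ℂ) := by
    rw [hrv, Algebra.norm_eq_prod_automorphisms, map_prod]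
    push_cast
    rw [Finset.prod_div_distrib, div_eq_one_iff_eq] at hprod
    · exact hprod
    · rw [Finset.prod_ne_zero_iff]
      intro g _
      rw [Ne, Complex.ofReal_eq_zero, norm_eq_zero]
      exact hne g
  rw [Complex.ofReal_inj.1 hfin]
  exact Finset.prod_pos fun g _ => norm_pos_iff.2 (hne g)

theorem Nm_mem_BA [IsGalois K L] (t : L ≃ₐ[K] L) (ht : ∀ g, g ∈ Subgroup.zpowers t)
    (a : Additive (AA K L θ M 2)) : Nm (finrank K L) (tA t θ M) a ∈ BA K θ M := by
  rw [mem_BA]
  refine ⟨Algebra.norm K (((a.toMul : AA K L θ M 2) : Lˣ) : L), ?_, fun w hw => ?_⟩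
  · rw [Nm_tA_val, hsg1_norm t ht]
  · exact hsg1_pos w hw _ (Units.ne_zero _)

theorem BA_le [IsGalois K L] (t : L ≃ₐ[K] L) : BA K θ M ≤ Ker (tA t θ M - 1) := by
  intro a ha
  obtain ⟨x, hx, -⟩ := mem_BA.1 ha
  rw [mem_Ker]
  have h1 : tA t θ M a = a := by
    apply Additive.toMul.injective
    apply Subtype.ext
    apply Units.ext
    have h2 : ((((tA t θ M) a).toMul : AA K L θ M 2) : Lˣ) =
      tU t ((a.toMul : AA K L θ M 2) : Lˣ) := rs_val t _ _ a
    rw [h2, tU_val, ← hx]
    exact t.commutes x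
  change tA t θ M a - a = 0
  rw [h1, sub_self]

end Pool.Agent.ARC.PH
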