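import Pool.Agent.ARC.HDefs
import Pool.Agent.ARC.HAA

/-! # ARC, part H, module HSg2

The group `AG = Ker (tA - 1)` consists of the elements of `K` in `A`. The signs at the ramified real
places give a homomorphism from `AG` to `{±1} ^ Ram` with kernel `BA`; it is surjective: for every
real place `w` there is `π = 1 + M^3 y`, `y ∈ 𝓞 K`, negative exactly at `w`
(`Pool.Agent.Helper4.exists_neg_at`), in `A` by `mem_AA_of_OP`; multiply them.
 -/

set_option autoImplicit false

noncomputable section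

set_option linter.unusedSectionVars false

namespace Pool.Agent.ARC.PH

open NumberField Module IsDedekindDomain nonZeroDivisors

variable {K L : Type} [Field K] [NumberField K] [Field L] [NumberField L] [Algebra K L]


variable {θ : L} {M : ℕ}

private theorem hsg2_fix [IsGalois K L] (t : L ≃ₐ[K] L) (ht : ∀ g, g ∈ Subgroup.zpowers t)
    (x : L) (hx : t x = x) : ∃ y : K, algebraMap K L y = x := by
  have h : x ∈ Set.range (algebraMap K L) := by
    rw [IsGalois.mem_range_algebraMap_iff_fixed]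
    intro g
    have h1 : Subgroup.zpowers t ≤ MulAction.stabilizer (L ≃ₐ[K] L) x := by
      rw [Subgroup.zpowers_le]
      exact hx
    exact h1 (ht g)
  exact h

/-- the sign in `ZMod 2` -/
private def hsg2_s (w : Helper4.RP K) (x : K) : ZMod 2 :=
  open Classical in if 0 < Helper4.rv w x then 0 else 1

private theorem hsg2_s_eq_zero (w : Helper4.RP K) (x : K) :
    hsg2_s w x = 0 ↔ 0 < Helper4.rv w x := by
  unfold hsg2_s
  split_ifs with h
  · simp [h]
  · simp [h]

private theorem hsg2_s_mul (w : Helper4.RP K) {x y : K} (hx : x ≠ 0) (hy : y ≠ 0) :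
    hsg2_s w (x * y) = hsg2_s w x + hsg2_s w y := by
  have h1 := Helper4.rv_ne_zero w hx
  have h2 := Helper4.rv_ne_zero w hy
  unfold hsg2_s
  rw [map_mul]
  rcases lt_or_gt_of_ne h1 with h3 | h3 <;> rcases lt_or_gt_of_ne h2 with h4 | h4
  · rw [if_pos (mul_pos_of_neg_of_neg h3 h4), if_neg (not_lt.2 h3.le), if_neg (not_lt.2 h4.le)]
    decide
  · rw [if_neg (not_lt.2 (mul_neg_of_neg_of_pos h3 h4).le), if_neg (not_lt.2 h3.le), if_pos h4]
    decide
  · rw [if_neg (not_lt.2 (mul_neg_of_pos_of_neg h3 h4).le), if_neg (not_lt.2 h4.le), if_pos h3]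
    decide
  · rw [if_pos (mul_pos h3 h4), if_pos h3, if_pos h4]
    decide

private theorem hsg2_ex [IsGalois K L] (t : L ≃ₐ[K] L) (ht : ∀ g, g ∈ Subgroup.zpowers t)
    (a : Ker (tA t θ M - 1)) :
    ∃ y : K, algebraMap K L y = (((a : Additive (AA K L θ M 2)).toMul : AA K L θ M 2) : Lˣ) := by
  apply hsg2_fix t ht
  have h1 : tA t θ M (a : Additive (AA K L θ M 2)) - (a : Additive (AA K L θ M 2)) = 0 :=
    mem_Ker.1 a.2
  have h2 := sub_eq_zero.1 h1
  exact congrArg (fun b : Additive (AA K L θ M 2) => (((b.toMul : AA K L θ M 2) : Lˣ) : L)) h2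

/-- the element of `K` -/
private def hsg2_x [IsGalois K L] (t : L ≃ₐ[K] L) (ht : ∀ g, g ∈ Subgroup.zpowers t)
    (a : Ker (tA t θ M - 1)) : K := (hsg2_ex t ht a).choose

private theorem hsg2_x_spec [IsGalois K L] (t : L ≃ₐ[K] L) (ht : ∀ g, g ∈ Subgroup.zpowers t)
    (a : Ker (tA t θ M - 1)) : algebraMap K L (hsg2_x t ht a) =
      (((a : Additive (AA K L θ M 2)).toMul : AA K L θ M 2) : Lˣ) :=
  (hsg2_ex t ht a).choose_spec

private theorem hsg2_x_ne [IsGalois K L] (t : L ≃ₐ[K] L) (ht : ∀ g, g ∈ Subgroup.zpowers t)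
    (a : Ker (tA t θ M - 1)) : hsg2_x t ht a ≠ 0 := by
  intro h
  have h1 := hsg2_x_spec t ht a
  rw [h, map_zero] at h1
  exact Units.ne_zero _ h1.symm

/-- the signs -/
private def hsg2_f [IsGalois K L] (t : L ≃ₐ[K] L) (ht : ∀ g, g ∈ Subgroup.zpowers t) :
    Ker (tA t θ M - 1) →+ ({w : Helper4.RP K // Ram K L w} → ZMod 2) :=
  AddMonoidHom.mk' (fun a w => hsg2_s w.1 (hsg2_x t ht a)) (fun a b => by
    ext w
    have h : hsg2_x t ht (a + b) = hsg2_x t ht a * hsg2_x t ht b := by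
      apply (algebraMap K L).injective
      rw [map_mul, hsg2_x_spec, hsg2_x_spec, hsg2_x_spec]
      rfl
    rw [Pi.add_apply, h, hsg2_s_mul _ (hsg2_x_ne t ht a) (hsg2_x_ne t ht b)])

private theorem hsg2_ker [IsGalois K L] (t : L ≃ₐ[K] L) (ht : ∀ g, g ∈ Subgroup.zpowers t) :
    (BA K θ M).addSubgroupOf (Ker (tA t θ M - 1)) = (hsg2_f (θ := θ) (M := M) t ht).ker := by
  ext a
  rw [AddSubgroup.mem_addSubgroupOf, mem_BA, AddMonoidHom.mem_ker]
  constructor
  · rintro ⟨x, hx, hx'⟩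
    have h : hsg2_x t ht a = x := (algebraMap K L).injective (by rw [hsg2_x_spec, hx])
    ext w
    change hsg2_s w.1 (hsg2_x t ht a) = 0
    rw [h, hsg2_s_eq_zero]
    exact hx' w.1 w.2
  · intro h
    refine ⟨hsg2_x t ht a, hsg2_x_spec t ht a, fun w hw => ?_⟩
    rw [← hsg2_s_eq_zero]
    exact congrFun h ⟨w, hw⟩

private theorem hsg2_prod (m : ℕ) {ι : Type} (s : Finset ι) (f : ι → 𝓞 K)
    (h : ∀ i ∈ s, ∃ y : 𝓞 K, f i = 1 + (m : 𝓞 K) * y) :
    ∃ y : 𝓞 K, ∏ i ∈ s, f i = 1 + (m : 𝓞 K) * y := by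
  classical
  induction s using Finset.induction_on with
  | empty => exact ⟨0, by simp⟩
  | insert a s ha ih =>
    obtain ⟨y, hy⟩ := ih fun i hi => h i (Finset.mem_insert_of_mem hi)
    obtain ⟨z, hz⟩ := h a (Finset.mem_insert_self _ _)
    refine ⟨z + y + (m : 𝓞 K) * z * y, ?_⟩
    rw [Finset.prod_insert ha, hy, hz]
    ring

private theorem hsg2_surj [IsGalois K L] (h : Good K L θ M) (t : L ≃ₐ[K] L)
    (ht : ∀ g, g ∈ Subgroup.zpowers t) :
    Function.Surjective (hsg2_f (θ := θ) (M := M) t ht) := by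
  classical
  intro ε
  have hM : M ^ 3 ≠ 0 := pow_ne_zero _ (by have := h.three_le; omega)
  choose π hπ1 hπneg hπpos using fun w : Helper4.RP K => Helper4.exists_neg_at (M ^ 3) hM w
  set P : Finset {w : Helper4.RP K // Ram K L w} := Finset.univ.filter fun w => ε w = 1 with hP
  obtain ⟨y, hy⟩ := hsg2_prod (M ^ 3) P (fun w => π w.1) (fun w _ => hπ1 w.1)
  set x : 𝓞 K := ∏ w ∈ P, π w.1 with hx
  have hrv : ∀ w : {w : Helper4.RP K // Ram K L w},
      Helper4.rv w.1 (x : K) = ∏ w' ∈ P, Helper4.rv w.1 (π w'.1 : K) := by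
    intro w
    rw [hx]
    have e : ((∏ w ∈ P, π w.1 : 𝓞 K) : K) = ∏ w ∈ P, (π w.1 : K) := by
      exact map_prod (algebraMap (𝓞 K) K) _ _
    rw [e, map_prod]
  have hx0 : (x : K) ≠ 0 := by
    have e : (x : K) = ∏ w ∈ P, (π w.1 : K) := by
      rw [hx]
      exact map_prod (algebraMap (𝓞 K) K) _ _
    rw [e, Finset.prod_ne_zero_iff]
    intro w _ h0
    have := hπneg w.1
    rw [h0, map_zero] at this
    exact lt_irrefl _ this
  have hu0 : algebraMap K L (x : K) ≠ 0 := by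
    rw [Ne, map_eq_zero]
    exact hx0
  have hmem : Units.mk0 (algebraMap K L (x : K)) hu0 ∈ AA K L θ M 2 := by
    refine mem_AA_of_OP h 2 (by norm_num) _ (algebraMap K L (y : K)) ?_ ?_
    · refine OP_of_integral ?_
      exact (y.isIntegral_coe).map ((algebraMap K L).toIntAlgHom)
    · rw [Units.val_mk0, hy]
      have e : (((1 + ((M ^ 3 : ℕ) : 𝓞 K) * y : 𝓞 K)) : K) = 1 + (M : K) ^ 3 * (y : K) := by
        push_cast
        rfl
      rw [e, map_add, map_mul, map_pow, map_one, map_natCast]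
  have hker : (Additive.ofMul (⟨_, hmem⟩ : AA K L θ M 2)) ∈ Ker (tA t θ M - 1) := by
    rw [mem_Ker]
    change tA t θ M _ - _ = 0
    rw [sub_eq_zero]
    apply Additive.toMul.injective
    apply Subtype.ext
    apply Units.ext
    change t (algebraMap K L (x : K)) = algebraMap K L (x : K)
    exact t.commutes _
  refine ⟨⟨_, hker⟩, ?_⟩
  have hxx : hsg2_x t ht ⟨_, hker⟩ = (x : K) := by
    apply (algebraMap K L).injective
    rw [hsg2_x_spec]
    rfl
  ext w
  change hsg2_s w.1 (hsg2_x t ht ⟨_, hker⟩) = ε w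
  rw [hxx]
  by_cases hw : ε w = 1
  · have hwP : w ∈ P := by
      rw [hP, Finset.mem_filter]
      exact ⟨Finset.mem_univ _, hw⟩
    have hneg : Helper4.rv w.1 (x : K) < 0 := by
      rw [hrv, ← Finset.mul_prod_erase _ _ hwP]
      refine mul_neg_of_neg_of_pos (hπneg w.1) (Finset.prod_pos fun w' hw' => ?_)
      refine hπpos w'.1 w.1 fun e => ?_
      exact (Finset.ne_of_mem_erase hw') (Subtype.ext e.symm)
    rw [hw]
    unfold hsg2_s
    rw [if_neg (not_lt.2 hneg.le)]
  · have hw0 : ε w = 0 := by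
      have : ∀ z : ZMod 2, z ≠ 1 → z = 0 := by decide
      exact this _ hw
    rw [hw0, hsg2_s_eq_zero, hrv]
    refine Finset.prod_pos fun w' hw' => ?_
    refine hπpos w'.1 w.1 fun e => hw ?_
    rw [hP, Finset.mem_filter] at hw'
    rw [show w = w' from Subtype.ext e]
    exact hw'.2

theorem BA_relIndex [IsGalois K L] (h : Good K L θ M) (t : L ≃ₐ[K] L)
    (ht : ∀ g, g ∈ Subgroup.zpowers t) :
    (BA K θ M).relIndex (Ker (tA t θ M - 1)) =
      2 ^ Nat.card {w : Helper4.RP K // Ram K L w} := by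
  classical
  rw [AddSubgroup.relIndex, hsg2_ker t ht, AddSubgroup.index_ker,
    AddMonoidHom.range_eq_top.2 (hsg2_surj h t ht), Nat.card_congr AddSubgroup.topEquiv.toEquiv,
    Nat.card_fun, Nat.card_zmod]

end Pool.Agent.ARC.PH
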