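import Pool.Agent.ARC.HDefs

/-! # ARC, part H, module HSg3

For every place `v` of `K`: (number of places above `v`) * (2 if `v` is real and ramified, else 1) =
`[L : K]` (orbit-stabilizer, `InfinitePlace.card_stabilizer`, transitivity on the places above
`v`; a place above a complex place is unramified, a place above a real place is ramified iff it is
complex). Take the product over all `v`.
 -/

set_option autoImplicit false

noncomputable section

set_option linter.unusedSectionVars false

namespace Pool.Agent.ARC.PH

open NumberField Module IsDedekindDomain nonZeroDivisors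

variable {K L : Type} [Field K] [NumberField K] [Field L] [NumberField L] [Algebra K L]

open scoped Classical in
private theorem card_above [IsGalois K L] (v : InfinitePlace K) :
    Nat.card {w : InfinitePlace L // w.comap (algebraMap K L) = v} *
      (if v.IsUnramifiedIn L then 1 else 2) = finrank K L := by
  obtain ⟨w, rfl⟩ := InfinitePlace.comap_surjective (K := L) v
  have e : {w' : InfinitePlace L // w'.comap (algebraMap K L) = w.comap (algebraMap K L)} ≃
      MulAction.orbit (L ≃ₐ[K] L) w :=
    Equiv.subtypeEquivRight fun w' => by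
      rw [InfinitePlace.mem_orbit_iff]
      exact eq_comm
  rw [Nat.card_congr e, ← IsGalois.card_aut_eq_finrank, InfinitePlace.isUnramifiedIn_comap,
    ← InfinitePlace.card_stabilizer, Nat.card_eq_fintype_card, Nat.card_eq_fintype_card,
    Nat.card_eq_fintype_card, MulAction.card_orbit_mul_card_stabilizer_eq_card_group]

private theorem ram_iff [IsGalois K L] (v : InfinitePlace K) :
    ¬ v.IsUnramifiedIn L ↔ v.IsReal ∧
      ∃ u : InfinitePlace L, u.comap (algebraMap K L) = v ∧ u.IsComplex := by
  constructor
  · intro h
    obtain ⟨w, rfl⟩ := InfinitePlace.comap_surjective (K := L) v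
    rw [InfinitePlace.isUnramifiedIn_comap, InfinitePlace.not_isUnramified_iff] at h
    exact ⟨h.2, w, rfl, h.1⟩
  · rintro ⟨hr, u, rfl, hu⟩
    rw [InfinitePlace.isUnramifiedIn_comap, InfinitePlace.not_isUnramified_iff]
    exact ⟨hu, hr⟩

variable (K L) in
theorem prod_places [IsGalois K L] :
    (∏ v : InfinitePlace K,
      Nat.card {w : InfinitePlace L // w.comap (algebraMap K L) = v}) *
        2 ^ Nat.card {w : Helper4.RP K // Ram K L w} =
      finrank K L ^ Fintype.card (InfinitePlace K) := by
  classical
  have h1 : Nat.card {w : Helper4.RP K // Ram K L w} =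
      (Finset.univ.filter fun v : InfinitePlace K => ¬ v.IsUnramifiedIn L).card := by
    have e : {w : Helper4.RP K // Ram K L w} ≃ {v : InfinitePlace K // ¬ v.IsUnramifiedIn L} :=
      { toFun := fun w => ⟨w.1.1, (ram_iff w.1.1).2 ⟨w.1.2, w.2⟩⟩
        invFun := fun v => ⟨⟨v.1, ((ram_iff v.1).1 v.2).1⟩, ((ram_iff v.1).1 v.2).2⟩
        left_inv := fun _ => rfl
        right_inv := fun _ => rfl }
    rw [Nat.card_congr e, Nat.card_eq_fintype_card, Fintype.card_subtype]
  have h2 : 2 ^ Nat.card {w : Helper4.RP K // Ram K L w} =
      ∏ v : InfinitePlace K, (if v.IsUnramifiedIn L then 1 else 2) := by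
    rw [h1, Finset.prod_ite]
    simp
  rw [h2, ← Finset.prod_mul_distrib, Finset.prod_congr rfl fun v _ => card_above v]
  simp

end Pool.Agent.ARC.PH
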