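import Pool.Agent.ARC.HDefs

/-! # ARC, part H, module HLin

The matrix of `T` in the basis `B` is block diagonal with blocks the matrix of `t` in the basis `b`
(mapped to the reals) and `(1)`: `T (B (some i)) = T (f (b i)) = f (t (b i)) = ∑ a_ji f (b j)`.
Use `LinearMap.charpoly_toMatrix`, `Matrix.charpoly_fromBlocks_zero₂₁`, `Matrix.charpoly_map`.
 -/

set_option autoImplicit false

noncomputable section

set_option linter.unusedSectionVars false

namespace Pool.Agent.ARC.PH

open NumberField Module IsDedekindDomain nonZeroDivisors Polynomial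

theorem charpoly_extend {E ι V : Type} [AddCommGroup E] [Module.Free ℤ E] [Module.Finite ℤ E]
    [Fintype ι] (b : Basis ι ℤ E) [AddCommGroup V] [Module ℝ V] [Module.Finite ℝ V] (f : E →+ V)
    (v1 : V) (B : Basis (Option ι) ℝ V) (h1 : ∀ i, B (some i) = f (b i)) (h2 : B none = v1)
    (t : E →ₗ[ℤ] E) (T : V →ₗ[ℝ] V) (hT : ∀ e, T (f e) = f (t e)) (hT1 : T v1 = v1) :
    T.charpoly = t.charpoly.map (Int.castRingHom ℝ) * (X - 1) := by
  classical
  let B' : Basis (ι ⊕ PUnit.{1}) ℝ V := B.reindex (Equiv.optionEquivSumPUnit ι)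
  have hB1 : ∀ i, B' (Sum.inl i) = f (b i) := by
    intro i
    simp [B', h1]
  have hB2 : ∀ u, B' (Sum.inr u) = v1 := by
    intro u
    simp [B', h2]
  have hM : LinearMap.toMatrix B' B' T =
      Matrix.fromBlocks ((LinearMap.toMatrix b b t).map (Int.castRingHom ℝ)) 0 0
        (1 : Matrix PUnit.{1} PUnit.{1} ℝ) := by
    ext i j
    rw [LinearMap.toMatrix_apply]
    rcases j with j | j
    · have e1 : T (B' (Sum.inl j)) =
          ∑ k, ((LinearMap.toMatrix b b t k j : ℤ) : ℝ) • B' (Sum.inl k) := by
        rw [hB1, hT]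
        conv_lhs => rw [← b.sum_repr (t (b j))]
        rw [map_sum]
        refine Finset.sum_congr rfl fun k _ => ?_
        rw [hB1, map_zsmul, LinearMap.toMatrix_apply, Int.cast_smul_eq_zsmul]
      rw [e1, map_sum, Finset.sum_apply']
      rcases i with i | i
      · simp [Finsupp.single_apply]
      · simp [Finsupp.single_apply]
    · rw [hB2, hT1, ← hB2 j, Basis.repr_self]
      rcases i with i | i
      · simp [Finsupp.single_apply]
      · simp [Finsupp.single_apply]
  rw [← LinearMap.charpoly_toMatrix T B', hM, Matrix.charpoly_fromBlocks_zero₂₁,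
    Matrix.charpoly_map, LinearMap.charpoly_toMatrix]
  congr 1
  simp [Matrix.charpoly, Matrix.charmatrix]

end Pool.Agent.ARC.PH
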