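import Pool.Agent.ARC.HDefs

/-! # ARC, part H, module HLog

Dirichlet's unit theorem for a subgroup `E` of finite exponent of the units, torsion free.
`ℓ = logEmbedding L : Additive (𝓞 L)ˣ →+ logSpace L` (the coordinates of `Lg` at the places other
than `w₀`), with kernel the torsion. The image `Λ` of `E` (as a `ℤ`-submodule of the log space) is
contained in `unitLattice L`, hence discrete, and spans the space since `d x ∈ Λ` for
`x ∈ unitLattice L` (`instZLattice_unitLattice`). So `Λ` is a `ZLattice`: free of finite rank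
(`ZLattice.module_free`, `ZLattice.module_finite`), with `ℤ`-basis also an `ℝ`-basis
(`Basis.ofZLatticeBasis`). `E ≃ Λ`. The vectors `Lg (b i)` together with the constant vector `1`
are a basis of the space of functions on the places: all `Lg (b i)` have coordinate sum zero
(`prod_eq_abs_norm`), the sum of the constant vector is not zero, and the coordinates outside `w₀`
of the `Lg (b i)` are independent; the number of vectors is the dimension.
 -/

set_option autoImplicit false

noncomputable section

set_option linter.unusedSectionVars false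

namespace Pool.Agent.ARC.PH

open NumberField Module IsDedekindDomain nonZeroDivisors

variable {L : Type} [Field L] [NumberField L]


theorem log_basis (E : Subgroup Lˣ)
    (hE : E ≤ (Units.map (algebraMap (𝓞 L) L : 𝓞 L →* L)).range)
    (htf : ∀ e ∈ E, ∀ k : ℕ, 0 < k → e ^ k = 1 → e = 1) (d : ℕ) (hd : 0 < d)
    (hexp : ∀ e : (𝓞 L)ˣ, (Units.map (algebraMap (𝓞 L) L : 𝓞 L →* L) e) ^ d ∈ E) :
    ∃ (ι : Type) (_ : Fintype ι) (b : Basis ι ℤ (Additive E))
      (B : Basis (Option ι) ℝ (InfinitePlace L → ℝ)),
      (∀ i, B (some i) = Lg L (incl E (b i))) ∧ B none = fun _ => 1 := by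
  classical
  have hu : ∀ e : Additive E, ∃ u : (𝓞 L)ˣ,
      Units.map (algebraMap (𝓞 L) L : 𝓞 L →* L) u = ((e.toMul : E) : Lˣ) := fun e =>
    hE (e.toMul : E).2
  choose u hu using hu
  have hlog : ∀ (e : Additive E) (w : InfinitePlace L),
      Lg L (incl E e) w = w.mult * Real.log (w ((u e : 𝓞 L) : L)) := by
    intro e w
    rw [Lg_apply]
    have h1 := congrArg (fun z : Lˣ => (z : L)) (hu e)
    have h2 : (((incl E e).toMul : Lˣ) : L) = ((u e : 𝓞 L) : L) := h1.symm
    rw [h2]
  let f : Additive E →ₗ[ℤ] Units.dirichletUnitTheorem.logSpace L :=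
    (AddMonoidHom.mk' (fun e w => Lg L (incl E e) w.1) (by
      intro a b
      ext w
      rw [map_add, map_add]
      rfl)).toIntLinearMap
  have hf : ∀ e w, f e w = Lg L (incl E e) w.1 := fun e w => rfl
  have hf' : ∀ e, f e = Units.logEmbedding L (Additive.ofMul (u e)) := by
    intro e
    ext w
    rw [hf, hlog, Units.dirichletUnitTheorem.logEmbedding_component]
  have hinj : Function.Injective f := by
    rw [injective_iff_map_eq_zero]
    intro e he
    rw [hf', Units.dirichletUnitTheorem.logEmbedding_eq_zero_iff, Units.torsion,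
      CommGroup.mem_torsion, isOfFinOrder_iff_pow_eq_one] at he
    obtain ⟨k, hk, hk1⟩ := he
    have h1 : ((e.toMul : E) : Lˣ) ^ k = 1 := by rw [← hu, ← map_pow, hk1, map_one]
    have h2 := htf _ (e.toMul : E).2 k hk h1
    exact Additive.toMul.injective (Subtype.ext h2)
  obtain ⟨Λ, hΛ⟩ : ∃ Λ : Submodule ℤ (Units.dirichletUnitTheorem.logSpace L), Λ = LinearMap.range f :=
    ⟨_, rfl⟩
  have hΛ1 : (Λ : Set (Units.dirichletUnitTheorem.logSpace L)) ⊆ Units.unitLattice L := by
    intro x hx
    rw [hΛ] at hx
    obtain ⟨e, rfl⟩ := hx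
    rw [hf']
    exact ⟨Additive.ofMul (u e), trivial, rfl⟩
  have : DiscreteTopology Λ := DiscreteTopology.of_subset
    (s := (Units.unitLattice L : Set (Units.dirichletUnitTheorem.logSpace L)))
    (Units.instDiscrete_unitLattice L) hΛ1
  have hsp : Submodule.span ℝ (Λ : Set (Units.dirichletUnitTheorem.logSpace L)) = ⊤ := by
    rw [eq_top_iff, ← Units.dirichletUnitTheorem.unitLattice_span_eq_top L,
      Submodule.span_le]
    rintro x ⟨v, -, rfl⟩
    obtain ⟨v, rfl⟩ := Additive.ofMul.surjective v
    have h1 : (d : ℝ) • ((Units.logEmbedding L).toIntLinearMap (Additive.ofMul v)) ∈ Λ := by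
      rw [hΛ]
      refine ⟨Additive.ofMul ⟨_, hexp v⟩, ?_⟩
      ext w
      rw [hf, Lg_apply]
      have h2 : (((incl E (Additive.ofMul ⟨_, hexp v⟩)).toMul : Lˣ) : L) = ((v : 𝓞 L) : L) ^ d := rfl
      rw [h2, map_pow, Real.log_pow, Pi.smul_apply, smul_eq_mul, AddMonoidHom.coe_toIntLinearMap,
        Units.dirichletUnitTheorem.logEmbedding_component]
      ring
    have h3 : (Units.logEmbedding L).toIntLinearMap (Additive.ofMul v) =
        (d : ℝ)⁻¹ • ((d : ℝ) • ((Units.logEmbedding L).toIntLinearMap (Additive.ofMul v))) := by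
      rw [smul_smul, inv_mul_cancel₀ (by exact_mod_cast hd.ne'), one_smul]
    rw [SetLike.mem_coe, h3]
    exact Submodule.smul_mem _ _ (Submodule.subset_span h1)
  have : IsZLattice ℝ Λ := ⟨hsp⟩
  have : Module.Finite ℤ Λ := ZLattice.module_finite ℝ Λ
  have : Module.Free ℤ Λ := ZLattice.module_free ℝ Λ
  let ι := Module.Free.ChooseBasisIndex ℤ Λ
  let b0 : Basis ι ℤ Λ := Module.Free.chooseBasis ℤ Λ
  let eqv : Additive E ≃ₗ[ℤ] Λ := (LinearEquiv.ofInjective f hinj).trans
    (LinearEquiv.ofEq _ _ hΛ.symm)
  let b : Basis ι ℤ (Additive E) := b0.map eqv.symm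
  have hb : ∀ i, f (b i) = b0 i := by
    intro i
    have h1 : eqv (b i) = b0 i := by
      rw [Basis.map_apply, LinearEquiv.apply_symm_apply]
    rw [← h1]
    rfl
  let B0 : Basis ι ℝ (Units.dirichletUnitTheorem.logSpace L) := b0.ofZLatticeBasis ℝ Λ
  have hB0 : ∀ i, B0 i = f (b i) := fun i => by rw [hb]; exact b0.ofZLatticeBasis_apply ℝ Λ i
  let v : Option ι → (InfinitePlace L → ℝ) := fun o =>
    o.elim (fun _ => 1) (fun i => Lg L (incl E (b i)))
  have hpos : 0 < Fintype.card (InfinitePlace L) := Fintype.card_pos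
  have hli : LinearIndependent ℝ v := by
    rw [Fintype.linearIndependent_iff]
    intro g hg
    rw [Fintype.sum_option] at hg
    have hco : ∀ w, g none + ∑ i, g (some i) * Lg L (incl E (b i)) w = 0 := by
      intro w
      have h1 := congrFun hg w
      simp only [Pi.add_apply, Pi.smul_apply, Finset.sum_apply, smul_eq_mul, Pi.zero_apply] at h1
      have h2 : v none w = 1 := rfl
      rw [h2, mul_one] at h1
      exact h1
    have h0 : g none = 0 := by
      have h1 : ∑ w : InfinitePlace L, (g none + ∑ i, g (some i) * Lg L (incl E (b i)) w) = 0 :=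
        Finset.sum_eq_zero fun w _ => hco w
      rw [Finset.sum_add_distrib, Finset.sum_comm] at h1
      have h2 : ∀ i, ∑ w, g (some i) * Lg L (incl E (b i)) w = 0 := by
        intro i
        rw [← Finset.mul_sum]
        have h3 : ∑ w, Lg L (incl E (b i)) w = 0 := by
          rw [← Units.sum_mult_mul_log (u (b i))]
          exact Finset.sum_congr rfl fun w _ => hlog _ _
        rw [h3, mul_zero]
      rw [Finset.sum_eq_zero fun i _ => h2 i, add_zero, Finset.sum_const, Finset.card_univ,
        nsmul_eq_mul] at h1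
      rcases mul_eq_zero.1 h1 with h4 | h4
      · exact absurd h4 (by exact_mod_cast hpos.ne')
      · exact h4
    have h1 : ∑ i, g (some i) • B0 i = 0 := by
      ext w
      have h2 := hco w.1
      rw [h0, zero_add] at h2
      simp only [Finset.sum_apply, Pi.smul_apply, smul_eq_mul, hB0, hf, Pi.zero_apply]
      exact h2
    have h2 := Fintype.linearIndependent_iff.1 B0.linearIndependent _ h1
    intro o
    cases o with
    | none => exact h0
    | some i => exact h2 i
  have hcard : Fintype.card (Option ι) = finrank ℝ (InfinitePlace L → ℝ) := by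
    rw [Fintype.card_option, ← finrank_eq_card_basis B0,
      Units.finrank_eq_rank, Module.finrank_fintype_fun_eq_card,
      Units.rank]
    omega
  refine ⟨ι, inferInstance, b, basisOfLinearIndependentOfCardEqFinrank hli hcard, fun i => ?_, ?_⟩
  · rw [coe_basisOfLinearIndependentOfCardEqFinrank]
    rfl
  · rw [coe_basisOfLinearIndependentOfCardEqFinrank]
    rfl

end Pool.Agent.ARC.PH
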