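import Pool.Agent.ARC.HDefs

/-! # ARC, part H, module HPerm

The characteristic polynomial of a permutation. Let `P f = f ∘ σ`. The matrix of `P` (or of its
inverse) is block diagonal for the fibres of `b` (`Matrix.BlockTriangular.charpoly` with a linear
order on `V`, for instance pulled back from `Fin`; or split the space). On one fibre of size `o`,
with `e` the indicator of a point `w`, the vectors `e, P e, ..., P ^ (o - 1) e` are the indicators
of the points of the fibre (linearly independent) and `P ^ o = 1`. Let `q = charpoly - (X ^ o - 1)`: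
degree `< o` (both are monic of degree `o`) and `q (P) = 0` by Cayley-Hamilton, so
`∑ q_i P ^ i e = 0` and `q = 0`.
 -/

set_option autoImplicit false

noncomputable section

set_option linter.unusedSectionVars false

namespace Pool.Agent.ARC.PH

open NumberField Module IsDedekindDomain nonZeroDivisors Polynomial

private theorem HPerm_card {F : Type} [Fintype F] (τ : Equiv.Perm F)
    (htr : ∀ x y, ∃ k : ℕ, (τ ^ k) x = y) (x : F) {d : ℕ} (hd : 0 < d) (h : (τ ^ d) x = x) :
    Fintype.card F ≤ d := by
  classical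
  have h1 : ∀ m : ℕ, ((τ ^ d) ^ m) x = x := by
    intro m
    induction m with
    | zero => rfl
    | succ m ih => rw [pow_succ, Equiv.Perm.mul_apply, h, ih]
  have h2 : ∀ k : ℕ, (τ ^ k) x = (τ ^ (k % d)) x := by
    intro k
    conv_lhs => rw [← Nat.mod_add_div k d, pow_add, Equiv.Perm.mul_apply, pow_mul, h1]
  have h3 : (Finset.univ : Finset F) ⊆ (Finset.range d).image fun k => (τ ^ k) x := by
    intro y _
    obtain ⟨k, hk⟩ := htr x y
    rw [Finset.mem_image]
    exact ⟨k % d, Finset.mem_range.2 (Nat.mod_lt _ hd), by rw [← h2, hk]⟩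
  calc Fintype.card F = (Finset.univ : Finset F).card := rfl
    _ ≤ _ := Finset.card_le_card h3
    _ ≤ (Finset.range d).card := Finset.card_image_le
    _ = d := Finset.card_range d

private theorem HPerm_diff {F : Type} (τ : Equiv.Perm F) (x : F) {i j : ℕ} (hij : i < j)
    (h : (τ ^ i) x = (τ ^ j) x) : (τ ^ (j - i)) x = x := by
  have h1 : j = i + (j - i) := by omega
  rw [h1, pow_add, Equiv.Perm.mul_apply] at h
  exact ((τ ^ i).injective h).symm

private theorem HPerm_inj {F : Type} [Fintype F] (τ : Equiv.Perm F)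
    (htr : ∀ x y, ∃ k : ℕ, (τ ^ k) x = y) (x : F) {i j : ℕ} (hi : i < Fintype.card F)
    (hj : j < Fintype.card F) (h : (τ ^ i) x = (τ ^ j) x) : i = j := by
  rcases lt_trichotomy i j with h1 | h1 | h1
  · have := HPerm_card τ htr x (by omega) (HPerm_diff τ x h1 h)
    omega
  · exact h1
  · have := HPerm_card τ htr x (by omega) (HPerm_diff τ x h1 h.symm)
    omega

private theorem HPerm_one {F : Type} [Fintype F] (τ : Equiv.Perm F)
    (htr : ∀ x y, ∃ k : ℕ, (τ ^ k) x = y) (x : F) : (τ ^ (Fintype.card F)) x = x := by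
  classical
  obtain ⟨i, hi, j, hj, hne, h⟩ := Finset.exists_ne_map_eq_of_card_lt_of_maps_to
    (s := Finset.range (Fintype.card F + 1)) (t := (Finset.univ : Finset F))
    (by rw [Finset.card_range]; exact Nat.lt_succ_self _) (f := fun k => (τ ^ k) x)
    (fun _ _ => Finset.mem_univ _)
  rw [Finset.mem_range] at hi hj
  have key : ∀ i j : ℕ, i < j → j < Fintype.card F + 1 → (τ ^ i) x = (τ ^ j) x →
      (τ ^ (Fintype.card F)) x = x := by
    intro i j h1 h2 h3
    have h4 := HPerm_diff τ x h1 h3
    have h5 := HPerm_card τ htr x (by omega) h4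
    have h6 : j - i = Fintype.card F := by omega
    rw [← h6]
    exact h4
  rcases lt_or_gt_of_ne hne with h1 | h1
  · exact key i j h1 hj h
  · exact key j i h1 hi h.symm

private theorem HPerm_block {R F : Type} [CommRing R] [Nontrivial R] [Fintype F] [DecidableEq F]
    [Nonempty F] (τ : Equiv.Perm F) (htr : ∀ x y, ∃ k : ℕ, (τ ^ k) x = y) :
    (Matrix.of fun i j => if τ i = j then (1 : R) else 0 : Matrix F F R).charpoly =
      X ^ Fintype.card F - 1 := by
  obtain ⟨A, hA⟩ : ∃ A : Matrix F F R, A = Matrix.of fun i j => if τ i = j then (1 : R) else 0 :=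
    ⟨_, rfl⟩
  rw [← hA]
  have hpow : ∀ (k : ℕ) (i j : F), (A ^ k) i j = if (τ ^ k) i = j then 1 else 0 := by
    intro k
    induction k with
    | zero =>
      intro i j
      rw [pow_zero, pow_zero, Matrix.one_apply]
      rfl
    | succ k ih =>
      intro i j
      rw [pow_succ, Matrix.mul_apply]
      have h1 : ∀ l, (A ^ k) i l * A l j = if (τ ^ k) i = l then (if τ l = j then 1 else 0) else 0 := by
        intro l
        rw [ih, hA, Matrix.of_apply]
        by_cases h : (τ ^ k) i = l <;> simp [h]
      rw [Finset.sum_congr rfl fun l _ => h1 l, Finset.sum_ite_eq]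
      simp only [Finset.mem_univ, if_true]
      rw [pow_succ', Equiv.Perm.mul_apply]
  have hone : A ^ Fintype.card F = 1 := by
    ext i j
    rw [hpow, HPerm_one τ htr, Matrix.one_apply]
  have hc0 : 0 < Fintype.card F := Fintype.card_pos
  obtain ⟨q, hq⟩ : ∃ q : R[X], q = A.charpoly - (X ^ Fintype.card F - 1) := ⟨_, rfl⟩
  have hq0 : aeval A q = 0 := by
    rw [hq, map_sub, Matrix.aeval_self_charpoly, map_sub, map_pow, aeval_X, hone, map_one, sub_self,
      sub_zero]
  have hdeg : q.degree < Fintype.card F := by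
    have h1 : (X ^ Fintype.card F - 1 : R[X]) = X ^ Fintype.card F - C 1 := by rw [map_one]
    have h2 : A.charpoly.degree = (X ^ Fintype.card F - 1 : R[X]).degree := by
      rw [A.charpoly_degree_eq_dim, h1, degree_X_pow_sub_C hc0]
    have h3 := degree_sub_lt_left h2 A.charpoly_monic.ne_zero (by
      rw [h1, A.charpoly_monic.leadingCoeff, (monic_X_pow_sub_C (1 : R) hc0.ne').leadingCoeff])
    rw [← hq, A.charpoly_degree_eq_dim] at h3
    exact h3
  have hz : q = 0 := by
    by_contra hne
    have hnat : q.natDegree < Fintype.card F := (natDegree_lt_iff_degree_lt hne).2 hdeg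
    apply hne
    ext k
    rw [coeff_zero]
    by_cases hk : k < Fintype.card F
    · obtain ⟨x⟩ := ‹Nonempty F›
      have h1 := congrArg (fun Z : Matrix F F R => Z x ((τ ^ k) x)) hq0
      simp only [aeval_eq_sum_range' hnat, Matrix.sum_apply, Matrix.smul_apply, smul_eq_mul, hpow,
        Matrix.zero_apply] at h1
      rw [Finset.sum_eq_single k] at h1
      · simpa using h1
      · intro i hi hik
        rw [if_neg, mul_zero]
        intro h
        exact hik (HPerm_inj τ htr x (Finset.mem_range.1 hi) hk h)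
      · intro h
        exact absurd (Finset.mem_range.2 hk) h
    · exact coeff_eq_zero_of_natDegree_lt (by omega)
  exact sub_eq_zero.1 (hq.symm.trans hz)

theorem charpoly_perm {R S V : Type} [CommRing R] [Nontrivial R] [Fintype S] [Fintype V]
    (σ : Equiv.Perm S) (b : S → V) (hsurj : Function.Surjective b)
    (hb : ∀ w w', b w = b w' ↔ ∃ k : ℕ, (σ ^ k) w = w') :
    (LinearMap.funLeft R R σ).charpoly = ∏ v : V, (X ^ (Nat.card {w // b w = v}) - 1) := by
  classical
  let _ : LinearOrder V := LinearOrder.lift' (Fintype.equivFin V) (Fintype.equivFin V).injective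
  have hbσ : ∀ w, b (σ w) = b w := fun w => ((hb w (σ w)).2 ⟨1, by rw [pow_one]⟩).symm
  obtain ⟨M, hM⟩ : ∃ M : Matrix S S R, M = LinearMap.toMatrix' (LinearMap.funLeft R R σ) := ⟨_, rfl⟩
  have hM' : ∀ i j, M i j = if σ i = j then 1 else 0 := by
    intro i j
    rw [hM, LinearMap.toMatrix'_apply, LinearMap.funLeft_apply, Pi.single_apply]
  have hMc : (LinearMap.funLeft R R σ).charpoly = M.charpoly := by
    rw [hM, ← LinearMap.toMatrix_eq_toMatrix', LinearMap.charpoly_toMatrix]
  have hbt : M.BlockTriangular b := by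
    intro i j hij
    rw [hM', if_neg]
    intro h
    rw [← h, hbσ] at hij
    exact lt_irrefl _ hij
  rw [hMc, hbt.charpoly, Finset.image_univ_of_surjective hsurj]
  refine Finset.prod_congr rfl fun v _ => ?_
  have hst : ∀ w, b (σ w) = v ↔ b w = v := fun w => by rw [hbσ]
  obtain ⟨τ, hτ⟩ : ∃ τ : Equiv.Perm {w // b w = v}, τ = σ.subtypePerm hst := ⟨_, rfl⟩
  have hτ1 : ∀ (k : ℕ) (w : {w // b w = v}), ((τ ^ k) w : S) = (σ ^ k) w := by
    intro k
    induction k with
    | zero => exact fun w => rfl
    | succ k ih =>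
      intro w
      rw [pow_succ', pow_succ', Equiv.Perm.mul_apply, Equiv.Perm.mul_apply, ← ih, hτ]
      rfl
  have htr : ∀ x y, ∃ k : ℕ, (τ ^ k) x = y := by
    intro x y
    obtain ⟨k, hk⟩ := (hb x y).1 (x.2.trans y.2.symm)
    exact ⟨k, Subtype.ext (by rw [hτ1, hk])⟩
  have : Nonempty {w // b w = v} := by
    obtain ⟨w, hw⟩ := hsurj v
    exact ⟨⟨w, hw⟩⟩
  rw [Nat.card_eq_fintype_card, ← HPerm_block (R := R) τ htr]
  congr 1
  ext i j
  rw [Matrix.toSquareBlock_def, Matrix.of_apply, Matrix.of_apply, hM', hτ]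
  have h1 : (σ i = j) ↔ (σ.subtypePerm hst i = j) := by
    rw [Subtype.ext_iff]
    rfl
  by_cases h : σ i = j
  · rw [if_pos h, if_pos (h1.1 h)]
  · rw [if_neg h, if_neg (fun h' => h (h1.2 h'))]

end Pool.Agent.ARC.PH
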