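import Pool.Agent.ARC.HDefs

/-! # ARC, part H, module HTor

`e` is a root of unity, so `w (M y) = w (e - 1) ≤ 2` and `w y ≤ 2 / 3 < 1` for all infinite places
`w`. If `y ≠ 0` this contradicts `InfinitePlace.one_le_of_lt_one`. So `y = 0`.
 -/

set_option autoImplicit false

noncomputable section

set_option linter.unusedSectionVars false

namespace Pool.Agent.ARC.PH

open NumberField Module IsDedekindDomain nonZeroDivisors

variable {L : Type} [Field L] [NumberField L]


theorem eq_one_of_torsion {M : ℕ} (hM : 3 ≤ M) (e : L) (y : 𝓞 L)
    (he : e = 1 + (M : L) * (y : L)) (k : ℕ) (hk : 0 < k) (h : e ^ k = 1) : e = 1 := by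
  have hlt : ∀ w : InfinitePlace L, w (y : L) < 1 := by
    intro w
    have h1 : w e = 1 := by
      have h2 : w e ^ k = 1 := by rw [← map_pow, h, map_one]
      exact (pow_eq_one_iff_of_nonneg (apply_nonneg w e) hk.ne').1 h2
    have h3 : w ((M : L) * (y : L)) ≤ 2 := by
      have e1 : (M : L) * (y : L) = e - 1 := by
        rw [he]
        ring
      rw [e1]
      calc w (e - 1) ≤ w e + w 1 := by
            have := w.1.add_le e (-1)
            rw [← sub_eq_add_neg] at this
            refine this.trans ?_
            have e2 : w.1 (-1) = w.1 1 := w.1.map_neg 1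
            rw [e2]
            rfl
        _ = 2 := by
          rw [h1, map_one]
          norm_num
    rw [map_mul] at h3
    have h4 : w (M : L) = (M : ℝ) := by
      have := w.norm_embedding_eq (M : L)
      rw [← this]
      simp
    rw [h4] at h3
    have h5 : (3 : ℝ) ≤ M := by exact_mod_cast hM
    have h6 : 0 ≤ w (y : L) := apply_nonneg w _
    nlinarith
  by_cases hy : y = 0
  · rw [he, hy]
    simp
  · exfalso
    obtain ⟨w⟩ : Nonempty (InfinitePlace L) := inferInstance
    have := InfinitePlace.one_le_of_lt_one (w := w) hy fun z _ => hlt z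
    exact absurd (hlt w) (not_lt.2 this)

end Pool.Agent.ARC.PH
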