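import Pool.Agent.ARC.HDefs
import Pool.Agent.ARC.HAA
import Pool.Agent.ARC.HTor

/-! # ARC, part H, module HUn

`EE_exp`: `d` the order of the (finite) unit group of `𝓞 L / (M ^ 3)`: `e ^ d = 1 + M^3 y`,
`y ∈ 𝓞 L`, use `mem_AA_of_OP`.
`EE_torsion_free`: `e = 1 + M^2 x`, `x ∈ OP L M`, `e` integral, so `x` is integral (`OP_sat`), and
`eq_one_of_torsion` applies with `y = M x`.
 -/

set_option autoImplicit false

noncomputable section

set_option linter.unusedSectionVars false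

namespace Pool.Agent.ARC.PH

open NumberField Module IsDedekindDomain nonZeroDivisors

variable {K L : Type} [Field K] [NumberField K] [Field L] [NumberField L] [Algebra K L]


variable {θ : L} {M : ℕ}

theorem EE_exp (h : Good K L θ M) : ∃ d : ℕ, 0 < d ∧ ∀ e : (𝓞 L)ˣ,
    (Units.map (algebraMap (𝓞 L) L : 𝓞 L →* L) e) ^ d ∈ EE K L θ M := by
  have hM : (M : 𝓞 L) ≠ 0 := by
    have := h.three_le
    exact_mod_cast (by omega : M ≠ 0)
  set I : Ideal (𝓞 L) := Ideal.span {(M : 𝓞 L) ^ 3} with hI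
  have hI0 : I ≠ ⊥ := by
    rw [hI, Ne, Ideal.span_singleton_eq_bot]
    exact pow_ne_zero 3 hM
  haveI : Finite (𝓞 L ⧸ I) := Ideal.finiteQuotientOfFreeOfNeBot I hI0
  haveI : Fintype (𝓞 L ⧸ I) := Fintype.ofFinite _
  haveI : Fintype (𝓞 L ⧸ I)ˣ := Fintype.ofFinite _
  refine ⟨Fintype.card (𝓞 L ⧸ I)ˣ, Fintype.card_pos, fun e => ?_⟩
  set d := Fintype.card (𝓞 L ⧸ I)ˣ with hd
  have h1 : (Units.map (Ideal.Quotient.mk I : 𝓞 L →* 𝓞 L ⧸ I) e) ^ d = 1 := pow_card_eq_one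
  have h2 : Ideal.Quotient.mk I ((e : 𝓞 L) ^ d) = 1 := by
    have := congrArg Units.val h1
    simpa using this
  have h3 : (e : 𝓞 L) ^ d - 1 ∈ I := by
    rw [← Ideal.Quotient.eq, h2, map_one]
  rw [hI, Ideal.mem_span_singleton] at h3
  obtain ⟨y, hy⟩ := h3
  refine ⟨?_, ?_⟩
  · refine mem_AA_of_OP h 2 (by norm_num) _ (y : L) (OP_of_integral y.2) ?_
    have h4 : (e : 𝓞 L) ^ d = 1 + (M : 𝓞 L) ^ 3 * y := by
      rw [← hy]
      ring
    have h5 := congrArg (algebraMap (𝓞 L) L) h4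
    rw [map_pow, map_add, map_one, map_mul, map_pow, map_natCast] at h5
    rw [Units.val_pow_eq_pow_val]
    exact h5
  · exact ⟨e ^ d, map_pow _ _ _⟩

theorem EE_torsion_free (h : Good K L θ M) (e : Lˣ) (he : e ∈ EE K L θ M) (k : ℕ) (hk : 0 < k)
    (h1 : e ^ k = 1) : e = 1 := by
  obtain ⟨heA, u, hu⟩ := he
  obtain ⟨x, hx, hex⟩ := (mem_AA h 2 (by norm_num) e).1 heA
  have hint : IsIntegral ℤ (e : L) := by
    rw [← hu]
    exact (u : 𝓞 L).2
  have h2 : IsIntegral ℤ ((M : L) ^ 2 * x) := by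
    have : (M : L) ^ 2 * x = (e : L) - 1 := by
      rw [hex]
      ring
    rw [this]
    exact hint.sub isIntegral_one
  have h3 := OP_sat 2 (Lam_sub_OP h hx) h2
  have h4 : IsIntegral ℤ ((M : L) * x) := (isIntegral_natCast M).mul h3
  apply Units.ext
  rw [Units.val_one]
  refine eq_one_of_torsion h.three_le (e : L) ⟨(M : L) * x, h4⟩ ?_ k hk ?_
  · rw [hex]
    change 1 + (M : L) ^ 2 * x = 1 + (M : L) * ((M : L) * x)
    ring
  · have := congrArg Units.val h1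
    simpa using this

end Pool.Agent.ARC.PH
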