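import Pool.Agent.ARC.HDefs
import Pool.Agent.ARC.HUn
import Pool.Agent.ARC.HLog
import Pool.Agent.ARC.HLin
import Pool.Agent.ARC.HPerm

/-! # ARC, part H, module HUch

`log_basis` for `E = EE K L θ M` (`EE_exp`, `EE_torsion_free`), `charpoly_extend` with
`T = funLeft σ`, `σ w = w.comap t` (`Lg (t u) w = Lg u (w.comap t)`), and `charpoly_perm` with
`b w = w.comap (algebraMap K L)`: surjective (`InfinitePlace.comap_surjective`), and two places with
the same restriction are conjugate under the group generated by `t`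
(`InfinitePlace.exists_smul_eq_of_comap_eq` or similar). Conclude by injectivity of
`Polynomial.map (Int.castRingHom ℝ)`.
 -/

set_option autoImplicit false

noncomputable section

set_option linter.unusedSectionVars false

namespace Pool.Agent.ARC.PH

open NumberField Module IsDedekindDomain nonZeroDivisors Polynomial

variable {K L : Type} [Field K] [NumberField K] [Field L] [NumberField L] [Algebra K L]


variable {θ : L} {M : ℕ}

private theorem HUch_mult (g : L ≃ₐ[K] L) (w : InfinitePlace L) :
    (g • w).mult = w.mult := by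
  unfold InfinitePlace.mult
  by_cases hw : w.IsReal
  · rw [if_pos hw, if_pos (InfinitePlace.isReal_smul_iff.mpr hw)]
  · rw [if_neg hw, if_neg (fun h' => hw (InfinitePlace.isReal_smul_iff.mp h'))]

private theorem HUch_Lg (t : L ≃ₐ[K] L) (u : Additive (EE K L θ M)) (w : InfinitePlace L) :
    Lg L (incl _ u) (t⁻¹ • w) = Lg L (incl _ (tE t θ M u)) w := by
  rw [Lg_apply, Lg_apply, HUch_mult]
  rfl

theorem units_charpoly [IsGalois K L] (h : Good K L θ M) (t : L ≃ₐ[K] L)
    (ht : ∀ g, g ∈ Subgroup.zpowers t) :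
    ∃ (_ : Module.Free ℤ (Additive (EE K L θ M))) (_ : Module.Finite ℤ (Additive (EE K L θ M))),
      (AddMonoidHom.toIntLinearMap (tE t θ M)).charpoly * (X - 1) =
        ∏ v : InfinitePlace K,
          (X ^ (Nat.card {w : InfinitePlace L // w.comap (algebraMap K L) = v}) - 1) := by
  classical
  obtain ⟨d, hd, hexp⟩ := EE_exp h
  have hE : EE K L θ M ≤ (Units.map (algebraMap (𝓞 L) L : 𝓞 L →* L)).range := inf_le_right
  obtain ⟨ι, hι, b, B, hB1, hB2⟩ := log_basis (EE K L θ M) hE
    (fun e he k hk h1 => EE_torsion_free h e he k hk h1) d hd hexp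
  have hfree : Module.Free ℤ (Additive (EE K L θ M)) := Module.Free.of_basis b
  have hfin : Module.Finite ℤ (Additive (EE K L θ M)) := Module.Finite.of_basis b
  refine ⟨hfree, hfin, ?_⟩
  set σ : Equiv.Perm (InfinitePlace L) :=
    MulAction.toPermHom (L ≃ₐ[K] L) (InfinitePlace L) t⁻¹ with hσ
  have h1 := charpoly_extend b ((Lg L).comp (incl (EE K L θ M))) (fun _ => (1 : ℝ)) B
    (fun i => hB1 i) hB2 (AddMonoidHom.toIntLinearMap (tE t θ M))
    (LinearMap.funLeft ℝ ℝ σ)
    (fun e => by
      funext w
      exact HUch_Lg t e w)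
    (by
      funext w
      rfl)
  have h2 := charpoly_perm (R := ℝ) σ (fun w : InfinitePlace L => w.comap (algebraMap K L))
    InfinitePlace.comap_surjective (fun w w' => by
      show w.comap (algebraMap K L) = w'.comap (algebraMap K L) ↔ ∃ k : ℕ, (σ ^ k) w = w'
      rw [← InfinitePlace.mem_orbit_iff]
      constructor
      · rintro ⟨g, hg⟩
        have hg2 : g ∈ Subgroup.zpowers t⁻¹ := by
          rw [Subgroup.zpowers_inv]
          exact ht g
        obtain ⟨k, hk⟩ := (mem_powers_iff_mem_zpowers.mpr hg2 : g ∈ Submonoid.powers t⁻¹)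
        refine ⟨k, ?_⟩
        rw [hσ, ← map_pow]
        have hk' : t⁻¹ ^ k = g := hk
        rw [hk']
        exact hg
      · rintro ⟨k, hk⟩
        rw [hσ, ← map_pow] at hk
        exact ⟨t⁻¹ ^ k, hk⟩)
  rw [h2] at h1
  refine Polynomial.map_injective (Int.castRingHom ℝ) (RingHom.injective_int _) ?_
  rw [Polynomial.map_mul, Polynomial.map_sub, Polynomial.map_X, Polynomial.map_one, ← h1,
    Polynomial.map_prod]
  refine Finset.prod_congr rfl fun v _ => ?_
  rw [Polynomial.map_sub, Polynomial.map_pow, Polynomial.map_X, Polynomial.map_one]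

end Pool.Agent.ARC.PH
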