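import Pool.Agent.ARC.HDefs
import Pool.Agent.ARC.HAbs
import Pool.Agent.ARC.HLat
import Pool.Agent.ARC.HH1
import Pool.Agent.ARC.HUch
import Pool.Agent.ARC.HSg1
import Pool.Agent.ARC.HSg2
import Pool.Agent.ARC.HSg3
import Pool.Agent.ARC.HDt
import Pool.Agent.ARC.HDz
import Pool.Agent.ARC.HC
import Pool.Agent.ARC.HEk

/-! # ARC, part H, module HMain

`abs_index` for `E = EE`, `A = AA 2`, `I` the divisors: `[IG : D] hh0 ≥ hh1 2^ρ`, `lattice_index`:
`hh1 n^(|V|-1) = hh0 ∏ o_v`, `prod_places`: `∏ o_v 2^ρ = n^|V|`. So `hh1 2^ρ = n hh0` and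
`[IG : D] ≥ n`. `IG = range eK`, so `[IG : D]` is the index of `D.comap eK`.
 -/

set_option autoImplicit false

noncomputable section

set_option linter.unusedSectionVars false

namespace Pool.Agent.ARC.PH

open NumberField Module IsDedekindDomain nonZeroDivisors

variable {K L : Type} [Field K] [NumberField K] [Field L] [NumberField L] [Algebra K L]


variable {θ : L} {M : ℕ}

private theorem hmain_pow (t : L ≃ₐ[K] L) (i : ℕ) (e : Additive (EE K L θ M)) :
    iEA K θ M ((tE t θ M ^ i) e) = (tA t θ M ^ i) (iEA K θ M e) := by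
  induction i generalizing e with
  | zero => rfl
  | succ k ih =>
    rw [pow_succ, pow_succ]
    change iEA K θ M ((tE t θ M ^ k) (tE t θ M e)) = (tA t θ M ^ k) (tA t θ M (iEA K θ M e))
    rw [ih]
    rfl

private theorem hmain_inj : Function.Injective (iEA K θ M : Additive (EE K L θ M) →+ _) := by
  intro a b hab
  exact Subgroup.inclusion_injective inf_le_left hab

private theorem hmain_tE [IsGalois K L] (t : L ≃ₐ[K] L) : tE t θ M ^ (finrank K L) = 1 := by
  refine AddMonoidHom.ext fun e => hmain_inj ?_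
  change iEA K θ M ((tE t θ M ^ finrank K L) e) = iEA K θ M e
  rw [hmain_pow, tA_pow]
  rfl

theorem index_ge [IsGalois K L] (h : Good K L θ M) (t : L ≃ₐ[K] L)
    (ht : ∀ g, g ∈ Subgroup.zpowers t) :
    ((DD K t θ M).comap (eK K L M)).index ≠ 0 ∧
      finrank K L ≤ ((DD K t θ M).comap (eK K L M)).index := by
  obtain ⟨hf, hfin, hch⟩ := units_charpoly h t ht
  have hn : 0 < finrank K L := finrank_pos
  obtain ⟨l0, l1, l2⟩ := lattice_index (finrank K L) hn (tE t θ M) (hmain_tE t)
    (fun v : InfinitePlace K =>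
      Nat.card {w : InfinitePlace L // w.comap (algebraMap K L) = v})
    (fun v => by
      obtain ⟨w, hw⟩ := InfinitePlace.comap_surjective (k := K) (K := L) v
      haveI : Nonempty {w : InfinitePlace L // w.comap (algebraMap K L) = v} := ⟨⟨w, hw⟩⟩
      exact Nat.card_pos) hch
  have hB := BA_relIndex h t ht
  have ha := abs_index (finrank K L) (tE t θ M) (tA t θ M) (tI M t) (tA_pow t) (tI_pow t)
    (iEA K θ M) hmain_inj (fun e => rfl) (dA θ M) (fun a => dv_gal M t (incl _ a))
    (dA_eq_zero h) (dA_finiteIndex h) (BA K θ M) (BA_le t) (Nm_mem_BA t ht)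
    (by rw [hB]; positivity) (h1_zero h t ht) l0 l1
  obtain ⟨ha0, ha1⟩ := ha
  have hc : ((DD K t θ M).comap (eK K L M)).index =
      ((BA K θ M).map (dA θ M) ⊔ Rng (Nm (finrank K L) (tI M t))).relIndex
        (Ker (tI M t - 1)) := by
    rw [AddSubgroup.index_comap, ker_tI t ht]
    rfl
  rw [hc]
  refine ⟨ha0, ?_⟩
  have hp := prod_places K L
  have hcard : 0 < Fintype.card (InfinitePlace K) := Fintype.card_pos
  set o := ∏ v : InfinitePlace K, Nat.card {w : InfinitePlace L // w.comap (algebraMap K L) = v}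
  have h3 : hh1 (finrank K L) (tE t θ M) * 2 ^ Nat.card {w : Helper4.RP K // Ram K L w} =
      hh0 (finrank K L) (tE t θ M) * finrank K L := by
    have h4 : 0 < finrank K L ^ (Fintype.card (InfinitePlace K) - 1) := by positivity
    refine Nat.eq_of_mul_eq_mul_right h4 ?_
    calc hh1 (finrank K L) (tE t θ M) * 2 ^ Nat.card {w : Helper4.RP K // Ram K L w} *
          finrank K L ^ (Fintype.card (InfinitePlace K) - 1)
        = hh1 (finrank K L) (tE t θ M) * finrank K L ^ (Fintype.card (InfinitePlace K) - 1) *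
          2 ^ Nat.card {w : Helper4.RP K // Ram K L w} := by ring
      _ = hh0 (finrank K L) (tE t θ M) *
          (o * 2 ^ Nat.card {w : Helper4.RP K // Ram K L w}) := by rw [l2]; ring
      _ = hh0 (finrank K L) (tE t θ M) * (finrank K L *
          finrank K L ^ (Fintype.card (InfinitePlace K) - 1)) := by
        rw [hp, ← pow_succ', Nat.sub_add_cancel hcard]
      _ = _ := by ring
  rw [hB, h3, mul_comm] at ha1
  exact Nat.le_of_mul_le_mul_right ha1 (Nat.pos_of_ne_zero l0)

end Pool.Agent.ARC.PH
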