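import Pool.Agent.ARC.HDefs
import Pool.Agent.ARC.HE1
import Pool.Agent.ARC.HEk

/-! # ARC, part H, module HNq

`N [Q] = ∑ [t^i Q]`; its value at `Q'` over `q` is the number of `i < n` with `t^i Q = Q'`, the order
of the stabilizer of `Q`, which is `e f = f` (`Ideal.card_stabilizer_eq`); zero at the other
primes. And the absolute norm of `Q` is `N q ^ f`, `f` the inertia degree, `N q ≥ 2`. `f` divides
`n = [L : K]` as the order of a subgroup.
 -/

set_option autoImplicit false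

noncomputable section

set_option linter.unusedSectionVars false

namespace Pool.Agent.ARC.PH

open NumberField Module IsDedekindDomain nonZeroDivisors

variable {K L : Type} [Field K] [NumberField K] [Field L] [NumberField L] [Algebra K L]

private theorem hnq_norm [IsGalois K L] {M : ℕ} (Q : PM L M) :
    Ideal.absNorm Q.1.asIdeal = Ideal.absNorm (pr K Q).1.asIdeal ^
      (Q.1.asIdeal.inertiaDeg (𝓞 K)) := by
  have h1 := Q.1.isMaximal
  have h2 := (pr K Q).1.isMaximal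
  have hl : Q.1.asIdeal.LiesOver (pr K Q).1.asIdeal := ⟨rfl⟩
  rw [Ideal.absNorm_eq_pow_inertiaDeg'_of_liesOver Q.1.asIdeal (pr K Q).1.asIdeal
    (pr K Q).1.isPrime (pr K Q).1.ne_bot, Ideal.inertiaDeg'_eq_inertiaDeg]

private theorem hnq_two {M : ℕ} (q : PM K M) : 2 ≤ Ideal.absNorm q.1.asIdeal := by
  have h0 : Ideal.absNorm q.1.asIdeal ≠ 0 := by
    rw [Ne, Ideal.absNorm_eq_zero_iff]
    exact q.1.ne_bot
  have h1 : Ideal.absNorm q.1.asIdeal ≠ 1 := by
    rw [Ne, Ideal.absNorm_eq_one_iff]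
    exact q.1.isPrime.ne_top
  omega

private theorem hnq_pow {M : ℕ} (t : L ≃ₐ[K] L) (i : ℕ) (x : PM L M →₀ ℤ) (v : PM L M) :
    ((tI M t) ^ i) x v = x ((t ^ i)⁻¹ • v) := by
  induction i generalizing v with
  | zero => simp
  | succ i ih =>
    have h : ((tI M t) ^ (i + 1)) x v = (tI M t (((tI M t) ^ i) x)) v := by
      rw [pow_succ']
      rfl
    rw [h, tI_apply, ih, pow_succ', mul_inv_rev, mul_smul]

private theorem hnq_range [IsGalois K L] (t : L ≃ₐ[K] L) (ht : ∀ g, g ∈ Subgroup.zpowers t)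
    (F : (L ≃ₐ[K] L) → ℤ) : ∑ i ∈ Finset.range (finrank K L), F (t ^ i) = ∑ g, F g := by
  classical
  have h1 : orderOf t = finrank K L := by
    rw [orderOf_eq_card_of_forall_mem_zpowers ht, IsGalois.card_aut_eq_finrank]
  rw [← h1, ← IsCyclic.image_range_orderOf ht, Finset.sum_image]
  intro i hi j hj hij
  exact pow_injOn_Iio_orderOf (Finset.mem_range.1 hi) (Finset.mem_range.1 hj) hij

open scoped Pointwise in
private theorem hnq_stab [IsGalois K L] {M : ℕ} (hU : Unr K L M) (Q : PM L M) (f : ℕ)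
    (hf' : f = Q.1.asIdeal.inertiaDeg (𝓞 K)) :
    Nat.card (MulAction.stabilizer (L ≃ₐ[K] L) Q) = f := by
  have hp := (pr K Q).1.isPrime
  have hP := Q.1.isPrime
  have hl : Q.1.asIdeal.LiesOver (pr K Q).1.asIdeal := ⟨rfl⟩
  have h1 : Nat.card (MulAction.stabilizer (L ≃ₐ[K] L) Q.1.asIdeal) = f := by
    rw [Ideal.card_stabilizer_eq (G := L ≃ₐ[K] L) (pr K Q).1.asIdeal Q.1.asIdeal, ramIn_one hU Q,
      one_mul, Ideal.inertiaDegIn_eq_inertiaDeg (pr K Q).1.asIdeal Q.1.asIdeal (L ≃ₐ[K] L), hf']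
  have h2 : MulAction.stabilizer (L ≃ₐ[K] L) Q = MulAction.stabilizer (L ≃ₐ[K] L) Q.1.asIdeal := by
    ext g
    rw [MulAction.mem_stabilizer_iff, MulAction.mem_stabilizer_iff]
    constructor
    · intro h
      rw [← act_asIdeal, h]
    · intro h
      apply Subtype.ext
      apply HeightOneSpectrum.ext
      rw [act_asIdeal, h]
  rw [h2, h1]

theorem Nm_single [IsGalois K L] {M : ℕ} (hU : Unr K L M) (t : L ≃ₐ[K] L)
    (ht : ∀ g, g ∈ Subgroup.zpowers t) (Q : PM L M) (f : ℕ)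
    (hf : Ideal.absNorm Q.1.asIdeal = Ideal.absNorm (pr K Q).1.asIdeal ^ f) :
    Nm (finrank K L) (tI M t) (Finsupp.single Q 1) =
      f • eK K L M (Finsupp.single (pr K Q) 1) := by
  classical
  have hf' : f = Q.1.asIdeal.inertiaDeg (𝓞 K) := by
    rw [hnq_norm (K := K) Q] at hf
    exact (Nat.pow_right_injective (hnq_two (pr K Q)) hf).symm
  have hp := (pr K Q).1.isPrime
  have hP := Q.1.isPrime
  have hl : Q.1.asIdeal.LiesOver (pr K Q).1.asIdeal := ⟨rfl⟩
  have hst : Nat.card (MulAction.stabilizer (L ≃ₐ[K] L) Q) = f := hnq_stab hU Q f hf'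
  ext Q'
  rw [Nm_apply, Finsupp.coe_finsetSum, Finset.sum_apply]
  have h3 : ∀ i ∈ Finset.range (finrank K L), ((tI M t) ^ i) (Finsupp.single Q 1) Q' =
      (fun g : L ≃ₐ[K] L => if g • Q = Q' then (1 : ℤ) else 0) (t ^ i) := by
    intro i _
    rw [hnq_pow, Finsupp.single_apply]
    have : (Q = (t ^ i)⁻¹ • Q') ↔ ((t ^ i) • Q = Q') := by
      constructor
      · intro h
        rw [h, smul_inv_smul]
      · intro h
        rw [← h, inv_smul_smul]
    simp only [this]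
  rw [Finset.sum_congr rfl h3, hnq_range t ht (fun g : L ≃ₐ[K] L => if g • Q = Q' then (1 : ℤ) else 0),
    Finsupp.smul_apply, eK_apply, Finsupp.single_apply]
  by_cases hQ : pr K Q = pr K Q'
  · rw [if_pos hQ]
    obtain ⟨g0, hg0⟩ := (pr_eq_iff Q Q').1 hQ
    rw [← Equiv.sum_comp (Equiv.mulLeft g0)]
    have h4 : ∀ g : L ≃ₐ[K] L, ((g0 * g) • Q = Q') ↔ g • Q = Q := by
      intro g
      rw [← hg0, mul_smul]
      exact smul_left_cancel_iff g0
    have h5 : ∑ g : L ≃ₐ[K] L, (if (Equiv.mulLeft g0 g) • Q = Q' then (1 : ℤ) else 0) =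
        ∑ g : L ≃ₐ[K] L, (if g • Q = Q then (1 : ℤ) else 0) := by
      refine Finset.sum_congr rfl fun g _ => ?_
      simp only [Equiv.coe_mulLeft, h4]
    rw [h5, ← hst, Finset.sum_boole]
    simp only [nsmul_eq_mul, mul_one]
    congr 1
    rw [Nat.card_eq_fintype_card, Fintype.card_subtype]
    rfl
  · rw [if_neg hQ, smul_zero]
    apply Finset.sum_eq_zero
    intro g _
    rw [if_neg]
    intro h
    exact hQ ((pr_eq_iff Q Q').2 ⟨g, h⟩)

theorem exists_deg [IsGalois K L] {M : ℕ} (hU : Unr K L M) (Q : PM L M) :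
    ∃ f : ℕ, f ∣ finrank K L ∧
      Ideal.absNorm Q.1.asIdeal = Ideal.absNorm (pr K Q).1.asIdeal ^ f := by
  have hp := (pr K Q).1.isPrime
  have hP := Q.1.isPrime
  have hl : Q.1.asIdeal.LiesOver (pr K Q).1.asIdeal := ⟨rfl⟩
  refine ⟨Q.1.asIdeal.inertiaDeg (𝓞 K), ?_, hnq_norm Q⟩
  have h := Ideal.ncard_primesOver_mul_ramificationIdxIn_mul_inertiaDegIn (pr K Q).1.asIdeal (𝓞 L)
    (L ≃ₐ[K] L)
  rw [Ideal.inertiaDegIn_eq_inertiaDeg (pr K Q).1.asIdeal Q.1.asIdeal (L ≃ₐ[K] L),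
    IsGalois.card_aut_eq_finrank] at h
  rw [← h, ← mul_assoc]
  exact dvd_mul_left _ _

end Pool.Agent.ARC.PH
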