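import Pool.Agent.ARC.HDefs

/-! # ARC, part H, module HdI

`FractionalIdeal.count_mul`, `count_self`, `count_maximal`, `count_zero`; for a principal ideal
`coeIdeal (span {x}) = spanSingleton x`.
 -/

set_option autoImplicit false

noncomputable section

set_option linter.unusedSectionVars false

namespace Pool.Agent.ARC.PH

open NumberField Module IsDedekindDomain nonZeroDivisors

variable {K : Type} [Field K] [NumberField K]

theorem dI_bot (M : ℕ) : dI M (⊥ : Ideal (𝓞 K)) = 0 := by
  ext v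
  rw [dI_apply, FractionalIdeal.coeIdeal_bot, FractionalIdeal.count_zero]
  rfl

theorem dI_mul (M : ℕ) (a b : Ideal (𝓞 K)) (ha : a ≠ ⊥) (hb : b ≠ ⊥) :
    dI M (a * b) = dI M a + dI M b := by
  ext v
  rw [dI_apply, Finsupp.add_apply, dI_apply, dI_apply, FractionalIdeal.coeIdeal_mul,
    FractionalIdeal.count_mul K v.1 (FractionalIdeal.coeIdeal_ne_zero.mpr ha)
      (FractionalIdeal.coeIdeal_ne_zero.mpr hb)]

theorem dI_span (M : ℕ) (x : 𝓞 K) (u : Kˣ) (hu : (u : K) = (x : K)) :
    dI M (Ideal.span {x}) = dv M (Additive.ofMul u) := by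
  ext v
  rw [dI_apply, dv_apply, FractionalIdeal.coeIdeal_span_singleton]
  unfold ordv
  rw [toMul_ofMul, hu]

theorem dI_prime {M : ℕ} (q : PM K M) : dI M q.1.asIdeal = Finsupp.single q 1 := by
  classical
  ext v
  rw [dI_apply, FractionalIdeal.count_maximal, Finsupp.single_apply]
  by_cases h : q = v
  · rw [if_pos (congrArg Subtype.val h), if_pos h]
  · rw [if_neg (fun h' => h (Subtype.ext h')), if_neg h]

theorem dI_prime_mem {M : ℕ} (q : Ideal (𝓞 K)) (hq : q.IsPrime) (h : (M : 𝓞 K) ∈ q) :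
    dI M q = 0 := by
  by_cases hb : q = ⊥
  · rw [hb]
    exact dI_bot M
  · ext v
    have hne : (⟨q, hq, hb⟩ : HeightOneSpectrum (𝓞 K)) ≠ v.1 := by
      intro he
      exact v.2 (he ▸ h)
    rw [dI_apply]
    exact FractionalIdeal.count_maximal_coprime K v.1 hne

end Pool.Agent.ARC.PH
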