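import Pool.Agent.ARC.HDefs
import Pool.Agent.ARC.HGood
import Pool.Agent.ARC.HAA
import Pool.Agent.ARC.HMain
import Pool.Agent.ARC.HDual
import Pool.Agent.ARC.HdI
import Pool.Agent.ARC.HDk
import Pool.Agent.ARC.HNq

/-! # ARC, part H, module HFin

Take `θ`, `M'` from `exists_good`, `m = M'^3`. The divisors outside `M'`; `T` from `dual_count` for
`J` the divisors of `K` outside `M'` and `D = (DD).comap eK` (`n j ∈ D`: for `j` a prime `q`,
`n = (n / f) f` and `f q ∈ D` by `Nm_single`); the image of `T` under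
`χ ↦ (fun a => χ (dI M' a))` (injective: `dI_prime`). Ray: if `x = 1 + m y` is totally positive,
`x ∈ A` (`mem_AA_of_OP`), `x ∈ B`, so `eK (dI (x)) = dv x ∈ D` (`dv_map`, `dI_span`).
 -/

set_option autoImplicit false

noncomputable section

set_option linter.unusedSectionVars false

namespace Pool.Agent.ARC

open NumberField Module IsDedekindDomain nonZeroDivisors Pool.Agent.ARC.PH

section

variable {K L : Type} [Field K] [NumberField K] [Field L] [NumberField L] [Algebra K L]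

private theorem hFin_exists_over {M : ℕ} (q : PM K M) : ∃ Q : PM L M, pr K Q = q := by
  have hp : q.1.asIdeal.IsPrime := q.1.isPrime
  obtain ⟨Q, -, hQp, hQ⟩ := Ideal.exists_ideal_over_prime_of_isIntegral (S := 𝓞 L) q.1.asIdeal ⊥ (by
    intro x hx
    have h1 : algebraMap (𝓞 K) (𝓞 L) x = 0 := by simpa using hx
    have h2 : x = 0 := by
      apply FaithfulSMul.algebraMap_injective (𝓞 K) (𝓞 L)
      rw [h1, map_zero]
    rw [h2]
    exact zero_mem _)
  have hb : Q ≠ ⊥ := by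
    rintro rfl
    apply q.1.ne_bot
    rw [← hQ]
    exact Ideal.under_bot (𝓞 K) (𝓞 L)
  have hM : (M : 𝓞 L) ∉ Q := by
    intro h
    apply q.2
    rw [← hQ, Ideal.mem_comap]
    simpa using h
  exact ⟨⟨⟨Q, hQp, hb⟩, hM⟩, Subtype.ext (HeightOneSpectrum.ext hQ)⟩

end

private theorem hFin_raw (K L : Type) [Field K] [NumberField K] [Field L] [NumberField L]
    [Algebra K L] [IsGalois K L] (t : L ≃ₐ[K] L) (ht : ∀ g, g ∈ Subgroup.zpowers t) (M : ℕ)
    (hM : M ≠ 0) (hU : Unr K L M) :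
    ∃ m : ℕ, M ∣ m ∧ 2 ≤ m ∧ ∃ T : Finset (Ideal (𝓞 K) → ZMod (finrank K L)),
      finrank K L ≤ T.card ∧ ∀ lam ∈ T, RayLam K (finrank K L) m lam ∧ lam ⊥ = 0 ∧
        (∀ q : Ideal (𝓞 K), q.IsPrime → (m : 𝓞 K) ∈ q → lam q = 0) ∧
        ∀ Q : Ideal (𝓞 L), Q.IsPrime → (m : 𝓞 L) ∉ Q → ∀ f : ℕ,
          Ideal.absNorm Q = Ideal.absNorm (Q.under (𝓞 K)) ^ f →
            (f : ZMod (finrank K L)) * lam (Q.under (𝓞 K)) = 0 := by
  classical
  obtain ⟨θ, M', hMM', hG⟩ := exists_good K L M hM hU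
  set n := finrank K L with hn
  have hn0 : 0 < n := finrank_pos
  obtain ⟨hD0, hDn⟩ := index_ge hG t ht
  set D := (DD K t θ M').comap (eK K L M') with hDdef
  -- multiples by `n`
  have hsingle : ∀ q : PM K M', n • (Finsupp.single q (1 : ℤ)) ∈ D := by
    intro q
    obtain ⟨Q, hQ⟩ := hFin_exists_over (L := L) q
    obtain ⟨f, ⟨k, hk⟩, hf⟩ := exists_deg hG.unr Q
    have h1 := Nm_single hG.unr t ht Q f hf
    rw [hQ] at h1
    have h2 : eK K L M' (n • Finsupp.single q (1 : ℤ)) =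
        k • Nm (finrank K L) (tI M' t) (Finsupp.single Q 1) := by
      rw [h1, map_nsmul, hn, hk, smul_smul, mul_comm]
    rw [hDdef, AddSubgroup.mem_comap, h2]
    exact AddSubgroup.nsmul_mem _ (AddSubgroup.mem_sup_right (mem_Rng.2 ⟨_, rfl⟩)) _
  have hall : ∀ j : PM K M' →₀ ℤ, n • j ∈ D := by
    intro j
    induction j using Finsupp.induction_linear with
    | zero =>
      rw [smul_zero]
      exact zero_mem _
    | add f g hf hg =>
      rw [smul_add]
      exact add_mem hf hg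
    | single q c =>
      have h1 : n • Finsupp.single q c = c • (n • Finsupp.single q (1 : ℤ)) := by
        ext v
        simp only [Finsupp.smul_apply, Finsupp.single_apply]
        split_ifs
        · simp only [smul_eq_mul, nsmul_eq_mul]
          ring
        · simp
      rw [h1]
      exact AddSubgroup.zsmul_mem _ (hsingle q) _
  obtain ⟨T', hT'n, hT'⟩ := dual_count n hn0 D hD0 hDn hall
  have hinj : Function.Injective (fun (χ : (PM K M' →₀ ℤ) →+ ZMod n) (a : Ideal (𝓞 K)) =>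
      χ (dI M' a)) := by
    intro χ χ' h
    refine Finsupp.addHom_ext' fun q => ?_
    refine AddMonoidHom.ext_int ?_
    have h1 := congrFun h q.1.asIdeal
    simp only [dI_prime] at h1
    simpa using h1
  have h3 : 3 ≤ M' := hG.three_le
  refine ⟨M' ^ 3, hMM'.trans (dvd_pow_self M' (by norm_num)), ?_,
    T'.image (fun (χ : (PM K M' →₀ ℤ) →+ ZMod n) (a : Ideal (𝓞 K)) => χ (dI M' a)), ?_, ?_⟩
  · calc 2 ≤ M' := by omega
      _ ≤ M' ^ 3 := Nat.le_self_pow (by norm_num) _
  · rw [Finset.card_image_of_injective _ hinj]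
    exact hT'n
  intro lam hlam
  obtain ⟨χ, hχ, rfl⟩ := Finset.mem_image.1 hlam
  have hχD : ∀ j ∈ D, χ j = 0 := hT' χ hχ
  refine ⟨⟨?_, ?_⟩, ?_, ?_, ?_⟩
  · intro I J hI hJ
    change χ (dI M' (I * J)) = χ (dI M' I) + χ (dI M' J)
    rw [dI_mul M' I J hI hJ, map_add]
  · intro x hx hdvd hpos
    change χ (dI M' (Ideal.span {x})) = 0
    have hxK : (x : K) ≠ 0 := by
      intro h
      exact hx (RingOfIntegers.ext h)
    set u : Kˣ := Units.mk0 (x : K) hxK with hu
    rw [dI_span M' x u rfl]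
    apply hχD
    rw [hDdef, AddSubgroup.mem_comap, ← dv_map hG.unr]
    set v : Lˣ := Units.map (algebraMap K L : K →* L) u with hv
    have hvA : v ∈ AA K L θ M' 2 := by
      obtain ⟨y, hy⟩ := hdvd
      refine mem_AA_of_OP hG 2 (by norm_num) v (algebraMap K L (y : K)) ?_ ?_
      · refine ⟨1, Nat.coprime_one_left _, ?_⟩
        rw [Nat.cast_one, one_mul]
        exact (RingOfIntegers.isIntegral_coe y).map (IsScalarTower.toAlgHom ℤ K L)
      · have h4 : (x : K) = 1 + (M' : K) ^ 3 * (y : K) := by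
          have h5 : x = 1 + (M' : 𝓞 K) ^ 3 * y := by
            push_cast at hy
            rw [← hy]
            ring
          rw [h5]
          push_cast
          simp
        rw [hv]
        change algebraMap K L (x : K) = _
        rw [h4]
        simp
    have hvB : v ∈ BB K L := ⟨x, rfl, fun w _ => hpos w⟩
    refine AddSubgroup.mem_sup_left ?_
    refine ⟨Additive.ofMul ⟨v, hvA⟩, ?_, rfl⟩
    exact mem_BA.2 hvB
  · change χ (dI M' ⊥) = 0
    rw [dI_bot, map_zero]
  · intro q hq hmq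
    change χ (dI M' q) = 0
    have h4 : (M' : 𝓞 K) ∈ q := by
      push_cast at hmq
      exact hq.mem_of_pow_mem 3 hmq
    rw [dI_prime_mem q hq h4, map_zero]
  · intro Q hQ hmQ f hf
    change (f : ZMod n) * χ (dI M' (Q.under (𝓞 K))) = 0
    by_cases hbot : Q = ⊥
    · have h4 : Q.under (𝓞 K) = ⊥ := by
        rw [hbot]
        exact Ideal.under_bot (𝓞 K) (𝓞 L)
      rw [h4, dI_bot, map_zero, mul_zero]
    have h5 : (M' : 𝓞 L) ∉ Q := by
      intro h
      apply hmQ
      push_cast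
      exact Q.pow_mem_of_mem h 3 (by norm_num)
    let v : PM L M' := ⟨⟨Q, hQ, hbot⟩, h5⟩
    have h6 := Nm_single hG.unr t ht v f hf
    have h7 : dI M' (Q.under (𝓞 K)) = Finsupp.single (pr K v) 1 := dI_prime (pr K v)
    have h8 : f • Finsupp.single (pr K v) (1 : ℤ) ∈ D := by
      rw [hDdef, AddSubgroup.mem_comap, map_nsmul, ← h6]
      exact AddSubgroup.mem_sup_right (mem_Rng.2 ⟨_, rfl⟩)
    have h9 := hχD _ h8
    rw [map_nsmul, nsmul_eq_mul] at h9
    rw [h7]
    exact h9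

/-- First inequality (form of the interface). -/
theorem first_inequality (K L : Type) [Field K] [NumberField K] [Field L] [NumberField L]
    [Algebra K L] [IsGalois K L] (t : L ≃ₐ[K] L) (ht : ∀ g, g ∈ Subgroup.zpowers t)
    (n : ℕ) (hn : finrank K L = n) (M : ℕ) (hM : M ≠ 0) (hU : Unr K L M) :
    ∃ m : ℕ, M ∣ m ∧ 2 ≤ m ∧ ∃ T : Finset (Ideal (𝓞 K) → ZMod n),
      n ≤ T.card ∧ ∀ lam ∈ T, RayLam K n m lam ∧ lam ⊥ = 0 ∧
        (∀ q : Ideal (𝓞 K), q.IsPrime → (m : 𝓞 K) ∈ q → lam q = 0) ∧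
        ∀ Q : Ideal (𝓞 L), Q.IsPrime → (m : 𝓞 L) ∉ Q → ∀ f : ℕ,
          Ideal.absNorm Q = Ideal.absNorm (Q.under (𝓞 K)) ^ f →
            (f : ZMod n) * lam (Q.under (𝓞 K)) = 0 := by
  subst hn
  exact hFin_raw K L t ht M hM hU

end Pool.Agent.ARC
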