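import Mathlib
import Pool.Agent.helper4.HDedOne
import Pool.Agent.helper4.HessMain

/-! # ARC, part S2: prime sums near `s = 1`

`pS T s` is the sum of `N q ^ (-s)` over the primes `q ∈ T`; `DensLE T d` and `DensGE T d` compare it
with `d * log (1 / (s - 1))` for `1 < s ≤ 2`. -/

noncomputable section

namespace Pool.Agent.ARC

open Filter Topology NumberField nonZeroDivisors IsDedekindDomain Pool.Agent.Helper4

open scoped Classical

variable {K : Type*} [Field K] [NumberField K]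

/-- the norm of a prime, as a real number -/
def Np (q : PK K) : ℝ := (Ideal.absNorm q.asIdeal : ℝ)

lemma two_le_Np (q : PK K) : 2 ≤ Np q := by
  unfold Np
  exact_mod_cast two_le_absNorm q

lemma Np_pos (q : PK K) : 0 < Np q := by linarith [two_le_Np q]

lemma norm_absNorm_cpow (q : PK K) (s : ℝ) :
    ‖(Ideal.absNorm q.asIdeal : ℂ) ^ (-(s : ℂ))‖ = Np q ^ (-s) := by
  have h := two_le_absNorm q
  rw [Complex.norm_natCast_cpow_of_pos (by omega)]
  simp [Np]

lemma absNorm_cpow_eq (q : PK K) (s : ℝ) :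
    (Ideal.absNorm q.asIdeal : ℂ) ^ (-(s : ℂ)) = ((Np q ^ (-s) : ℝ) : ℂ) := by
  have h := Np_pos q
  rw [Complex.ofReal_cpow h.le]
  simp [Np]

variable (K) in
lemma summable_Np {s : ℝ} (hs : 1 < s) : Summable (fun q : PK K => Np q ^ (-s)) := by
  have h := (hasSum_HDed K (s := (s : ℂ)) (by simpa using hs)).summable.norm
  have h2 := h.comp_injective
    (i := fun q : PK K =>
      (⟨q.asIdeal, mem_nonZeroDivisors_of_ne_zero q.ne_bot⟩ : (Ideal (𝓞 K))⁰)) (by
      intro q q' hqq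
      exact HeightOneSpectrum.ext (congrArg Subtype.val hqq))
  refine h2.congr fun q => ?_
  simp only [Function.comp_apply]
  exact norm_absNorm_cpow q s

lemma Np_rpow_nonneg (q : PK K) (s : ℝ) : 0 ≤ Np q ^ (-s) := Real.rpow_nonneg (Np_pos q).le _

lemma Np_rpow_le_half (q : PK K) {s : ℝ} (hs : 1 < s) : Np q ^ (-s) ≤ 1 / 2 := by
  have h := two_le_Np q
  calc Np q ^ (-s) ≤ Np q ^ (-1 : ℝ) :=
        Real.rpow_le_rpow_of_exponent_le (by linarith) (by linarith)
    _ = (Np q)⁻¹ := Real.rpow_neg_one _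
    _ ≤ 1 / 2 := by
        rw [one_div]
        exact inv_anti₀ (by norm_num) h

lemma Np_rpow_sq_le (q : PK K) {s : ℝ} (hs : 1 < s) : (Np q ^ (-s)) ^ 2 ≤ Np q ^ (-2 : ℝ) := by
  have h := two_le_Np q
  rw [← Real.rpow_natCast, ← Real.rpow_mul (Np_pos q).le]
  apply Real.rpow_le_rpow_of_exponent_le (by linarith)
  push_cast
  linarith

variable (K) in
/-- the universal error -/
def cK : ℝ := ∑' q : PK K, Np q ^ (-2 : ℝ)

variable (K) in
lemma cK_nonneg : 0 ≤ cK K := tsum_nonneg fun q => Np_rpow_nonneg q 2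

lemma log_bound {z : ℂ} (hz : ‖z‖ ≤ 1 / 2) : |Real.log ‖(1 - z)⁻¹‖ - z.re| ≤ ‖z‖ ^ 2 := by
  have h1 := Complex.norm_log_one_sub_inv_sub_self_le (z := z) (by linarith)
  have h2 : Real.log ‖(1 - z)⁻¹‖ - z.re = (Complex.log (1 - z)⁻¹ - z).re := by
    rw [Complex.sub_re, Complex.log_re]
  rw [h2]
  refine (Complex.abs_re_le_norm _).trans (h1.trans ?_)
  have h3 : (1 - ‖z‖)⁻¹ ≤ 2 := by
    rw [inv_le_comm₀ (by linarith) (by norm_num)]
    linarith
  have h4 : 0 ≤ ‖z‖ ^ 2 := sq_nonneg _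
  nlinarith

/-- logarithm of the absolute value of an Euler product -/
lemma log_norm_prod (x : PK K → ℂ) {s : ℝ} (hs : 1 < s) (hx : ∀ q, ‖x q‖ ≤ Np q ^ (-s)) {a : ℂ}
    (ha : HasProd (fun q => (1 - x q)⁻¹) a) :
    a ≠ 0 ∧ |Real.log ‖a‖ - ∑' q, (x q).re| ≤ cK K := by
  have hx2 : ∀ q, ‖x q‖ ≤ 1 / 2 := fun q => (hx q).trans (Np_rpow_le_half q hs)
  have hxs : Summable (fun q => ‖x q‖) :=
    Summable.of_nonneg_of_le (fun _ => norm_nonneg _) hx (summable_Np K hs)
  have hre : Summable (fun q => (x q).re) :=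
    Summable.of_norm_bounded hxs fun q => Complex.abs_re_le_norm _
  have hb : ∀ q, |Real.log ‖(1 - x q)⁻¹‖ - (x q).re| ≤ Np q ^ (-2 : ℝ) := by
    intro q
    refine (log_bound (hx2 q)).trans ?_
    refine le_trans ?_ (Np_rpow_sq_le q hs)
    exact pow_le_pow_left₀ (norm_nonneg _) (hx q) 2
  have h2s : Summable (fun q : PK K => Np q ^ (-2 : ℝ)) := summable_Np K (by norm_num)
  have hd : Summable (fun q => Real.log ‖(1 - x q)⁻¹‖ - (x q).re) :=
    Summable.of_norm_bounded h2s fun q => by rw [Real.norm_eq_abs]; exact hb q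
  have hl : Summable (fun q => Real.log ‖(1 - x q)⁻¹‖) := by
    have := hd.add hre
    refine this.congr fun q => by ring
  have hne : ∀ q, (1 - x q)⁻¹ ≠ 0 := by
    intro q
    apply inv_ne_zero
    intro h0
    have : x q = 1 := by linear_combination -h0
    have h1 := hx2 q
    rw [this, norm_one] at h1
    norm_num at h1
  have hp : ∀ q, 0 < ‖(1 - x q)⁻¹‖ := fun q => norm_pos_iff.mpr (hne q)
  have h3 := Real.hasProd_of_hasSum_log hp hl.hasSum
  have h4 := ha.norm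
  have h5 : ‖a‖ = Real.exp (∑' q, Real.log ‖(1 - x q)⁻¹‖) := h4.unique h3
  constructor
  · rw [← norm_pos_iff, h5]
    exact Real.exp_pos _
  · rw [h5, Real.log_exp, ← hl.tsum_sub hre]
    have h6 := norm_tsum_le_tsum_norm (f := fun q => Real.log ‖(1 - x q)⁻¹‖ - (x q).re)
      (by simpa [Real.norm_eq_abs] using hd.norm)
    rw [Real.norm_eq_abs] at h6
    refine h6.trans ?_
    unfold cK
    refine Summable.tsum_le_tsum (fun q => ?_) hd.norm h2s
    rw [Real.norm_eq_abs]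
    exact hb q

/-- A continuous function on `[1, 2]` is bounded. -/
lemma exists_bound (f : ℝ → ℝ) (hf : ContinuousOn f (Set.Icc 1 2)) :
    ∃ C, ∀ s ∈ Set.Icc (1 : ℝ) 2, |f s| ≤ C := by
  obtain ⟨C, hC⟩ := isCompact_Icc.exists_bound_of_continuousOn hf
  exact ⟨C, fun s hs => by simpa using hC s hs⟩

variable (K) in
/-- **The prime sum of a number field.** -/
theorem primeSum_univ : ∃ C : ℝ, ∀ s : ℝ, 1 < s → s ≤ 2 →
    |∑' q : PK K, Np q ^ (-s) - Real.log (1 / (s - 1))| ≤ C := by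
  have key : ∀ s : ℝ, 1 < s → HDed K s / ((s : ℂ) - 1) ≠ 0 ∧
      |Real.log ‖HDed K s / ((s : ℂ) - 1)‖ - ∑' q : PK K, Np q ^ (-s)| ≤ cK K := by
    intro s hs
    have h1 : HasProd (fun q : PK K => (1 - (Ideal.absNorm q.asIdeal : ℂ) ^ (-(s : ℂ)))⁻¹)
        (HDed K s / ((s : ℂ) - 1)) := by
      apply hasProd_ideal _ _ _ _ (hasSum_HDed K (s := (s : ℂ)) (by simpa using hs))
      · intro q
        exact norm_cpow_lt_one q (by simp; linarith)
      · intro m
        rw [← cpow_prod, ← absNorm_prodM]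
    have h2 := log_norm_prod (fun q : PK K => (Ideal.absNorm q.asIdeal : ℂ) ^ (-(s : ℂ))) hs
      (fun q => (norm_absNorm_cpow q s).le) h1
    refine ⟨h2.1, ?_⟩
    have h3 : ∀ q : PK K, ((Ideal.absNorm q.asIdeal : ℂ) ^ (-(s : ℂ))).re = Np q ^ (-s) := by
      intro q
      rw [absNorm_cpow_eq, Complex.ofReal_re]
    simp_rw [h3] at h2
    exact h2.2
  have hne : ∀ s ∈ Set.Icc (1 : ℝ) 2, HDed K (s : ℂ) ≠ 0 := by
    intro s hs
    rcases eq_or_lt_of_le hs.1 with h | h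
    · rw [← h]
      simpa using HDed_one_ne_zero K
    · have := (key s h).1
      intro h0
      rw [h0, zero_div] at this
      exact this rfl
  have hc : ContinuousOn (fun s : ℝ => Real.log ‖HDed K (s : ℂ)‖) (Set.Icc 1 2) := by
    apply ContinuousOn.log
    · have h1 : Continuous (HDed K) := (differentiable_HDed K).continuous
      exact (h1.comp Complex.continuous_ofReal).norm.continuousOn
    · intro s hs
      exact norm_ne_zero_iff.mpr (hne s hs)
  obtain ⟨C, hC⟩ := exists_bound _ hc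
  refine ⟨C + cK K, fun s hs hs2 => ?_⟩
  have h1 := (key s hs).2
  have h2 := hC s ⟨hs.le, hs2⟩
  have h3 : Real.log ‖HDed K s / ((s : ℂ) - 1)‖
      = Real.log ‖HDed K (s : ℂ)‖ + Real.log (1 / (s - 1)) := by
    rw [norm_div, Real.log_div (norm_ne_zero_iff.mpr (hne s ⟨hs.le, hs2⟩))]
    · have h4 : ‖(s : ℂ) - 1‖ = s - 1 := by
        rw [← Complex.ofReal_one, ← Complex.ofReal_sub, Complex.norm_real, Real.norm_eq_abs,
          abs_of_pos (by linarith)]
      rw [h4, one_div, Real.log_inv]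
      ring
    · rw [norm_ne_zero_iff, sub_ne_zero]
      intro h0
      have : s = 1 := by exact_mod_cast h0
      linarith
  rw [h3] at h1
  rw [abs_le] at h1 h2 ⊢
  constructor <;> linarith [h1.1, h1.2, h2.1, h2.2]

/-- `f` is given by the Euler product with coefficients `c` on `(1, 2]` -/
def IsEuler (c : PK K → ℂ) (f : ℂ → ℂ) : Prop :=
  ∀ s : ℝ, 1 < s → s ≤ 2 →
    HasProd (fun q : PK K => (1 - c q * (Ideal.absNorm q.asIdeal : ℂ) ^ (-(s : ℂ)))⁻¹) (f s)

lemma norm_coef (c : PK K → ℂ) (hc : ∀ q, ‖c q‖ ≤ 1) (s : ℝ) (q : PK K) :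
    ‖c q * (Ideal.absNorm q.asIdeal : ℂ) ^ (-(s : ℂ))‖ ≤ Np q ^ (-s) := by
  rw [norm_mul, norm_absNorm_cpow]
  have := Np_rpow_nonneg q s
  nlinarith [hc q, norm_nonneg (c q)]

lemma re_coef (c : PK K → ℂ) (s : ℝ) (q : PK K) :
    (c q * (Ideal.absNorm q.asIdeal : ℂ) ^ (-(s : ℂ))).re = (c q).re * Np q ^ (-s) := by
  rw [absNorm_cpow_eq, Complex.re_mul_ofReal]

lemma summable_coef (c : PK K → ℂ) (hc : ∀ q, ‖c q‖ ≤ 1) {s : ℝ} (hs : 1 < s) :
    Summable (fun q : PK K => (c q).re * Np q ^ (-s)) := by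
  refine Summable.of_norm_bounded (summable_Np K hs) fun q => ?_
  rw [norm_mul, Real.norm_eq_abs, Real.norm_eq_abs, abs_of_nonneg (Np_rpow_nonneg q s)]
  have h1 := (Complex.abs_re_le_norm (c q)).trans (hc q)
  have := Np_rpow_nonneg q s
  nlinarith [abs_nonneg (c q).re]

/-- **Upper bound**: an L-function which stays bounded near `1`. -/
theorem primeSum_le (c : PK K → ℂ) (hc : ∀ q, ‖c q‖ ≤ 1) (f : ℂ → ℂ) (hf : Continuous f)
    (h : IsEuler c f) : ∃ C : ℝ, ∀ s : ℝ, 1 < s → s ≤ 2 →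
      ∑' q : PK K, (c q).re * Np q ^ (-s) ≤ C := by
  have h0 : ContinuousOn (fun s : ℝ => ‖f (s : ℂ)‖) (Set.Icc 1 2) :=
    (hf.comp Complex.continuous_ofReal).norm.continuousOn
  obtain ⟨B, hB⟩ := exists_bound _ h0
  refine ⟨B + cK K, fun s hs hs2 => ?_⟩
  have h1 := log_norm_prod _ hs (norm_coef c hc s) (h s hs hs2)
  simp_rw [re_coef] at h1
  have h2 := abs_le.mp h1.2
  have h3 : Real.log ‖f (s : ℂ)‖ ≤ ‖f (s : ℂ)‖ - 1 :=
    Real.log_le_sub_one_of_pos (norm_pos_iff.mpr h1.1)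
  have h4 := hB s ⟨hs.le, hs2⟩
  rw [abs_of_nonneg (norm_nonneg _)] at h4
  linarith [h2.1, h2.2]

/-- **Two sided bound**: an L-function which is finite and non-zero at `1`. -/
theorem primeSum_bounded (c : PK K → ℂ) (hc : ∀ q, ‖c q‖ ≤ 1) (f : ℂ → ℂ) (hf : Continuous f)
    (h : IsEuler c f) (h1 : f 1 ≠ 0) : ∃ C : ℝ, ∀ s : ℝ, 1 < s → s ≤ 2 →
      |∑' q : PK K, (c q).re * Np q ^ (-s)| ≤ C := by
  have key : ∀ s : ℝ, 1 < s → s ≤ 2 → f (s : ℂ) ≠ 0 ∧
      |Real.log ‖f (s : ℂ)‖ - ∑' q : PK K, (c q).re * Np q ^ (-s)| ≤ cK K := by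
    intro s hs hs2
    have h1 := log_norm_prod _ hs (norm_coef c hc s) (h s hs hs2)
    simp_rw [re_coef] at h1
    exact h1
  have hne : ∀ s ∈ Set.Icc (1 : ℝ) 2, f (s : ℂ) ≠ 0 := by
    intro s hs
    rcases eq_or_lt_of_le hs.1 with h' | h'
    · rw [← h']
      simpa using h1
    · exact (key s h' hs.2).1
  have hc : ContinuousOn (fun s : ℝ => Real.log ‖f (s : ℂ)‖) (Set.Icc 1 2) := by
    apply ContinuousOn.log
    · exact (hf.comp Complex.continuous_ofReal).norm.continuousOn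
    · intro s hs
      exact norm_ne_zero_iff.mpr (hne s hs)
  obtain ⟨B, hB⟩ := exists_bound _ hc
  refine ⟨B + cK K, fun s hs hs2 => ?_⟩
  have h2 := abs_le.mp (key s hs hs2).2
  have h4 := abs_le.mp (hB s ⟨hs.le, hs2⟩)
  rw [abs_le]
  constructor <;> linarith [h2.1, h2.2, h4.1, h4.2]

/-! ### Densities -/

/-- prime sum over a set of primes -/
def pS (T : Set (PK K)) (s : ℝ) : ℝ := ∑' q : PK K, T.indicator (fun q => Np q ^ (-s)) q

lemma summable_pS (T : Set (PK K)) {s : ℝ} (hs : 1 < s) :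
    Summable (T.indicator (fun q : PK K => Np q ^ (-s))) := (summable_Np K hs).indicator T

lemma pS_nonneg (T : Set (PK K)) (s : ℝ) : 0 ≤ pS T s :=
  tsum_nonneg fun q => Set.indicator_nonneg (fun q _ => Np_rpow_nonneg q s) q

lemma pS_mono {S T : Set (PK K)} (h : S ⊆ T) {s : ℝ} (hs : 1 < s) : pS S s ≤ pS T s :=
  Summable.tsum_le_tsum (fun q => Set.indicator_le_indicator_of_subset h
    (fun q => Np_rpow_nonneg q s) q) (summable_pS S hs) (summable_pS T hs)

lemma pS_union_le (S T : Set (PK K)) {s : ℝ} (hs : 1 < s) : pS (S ∪ T) s ≤ pS S s + pS T s := by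
  unfold pS
  rw [← (summable_pS S hs).tsum_add (summable_pS T hs)]
  refine Summable.tsum_le_tsum (fun q => ?_) (summable_pS _ hs)
    ((summable_pS S hs).add (summable_pS T hs))
  have h1 := Np_rpow_nonneg q s
  by_cases hS : q ∈ S <;> by_cases hT : q ∈ T <;> simp [hS, hT, h1]

lemma pS_union {S T : Set (PK K)} (h : Disjoint S T) {s : ℝ} (hs : 1 < s) :
    pS (S ∪ T) s = pS S s + pS T s := by
  unfold pS
  rw [← (summable_pS S hs).tsum_add (summable_pS T hs), Set.indicator_union_of_disjoint h]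

lemma pS_univ (s : ℝ) : pS (Set.univ : Set (PK K)) s = ∑' q : PK K, Np q ^ (-s) := by
  unfold pS
  simp

/-- the sum over `T` is at most `d log (1 / (s - 1)) + O(1)` -/
def DensLE (T : Set (PK K)) (d : ℝ) : Prop :=
  ∃ C : ℝ, ∀ s : ℝ, 1 < s → s ≤ 2 → pS T s ≤ d * Real.log (1 / (s - 1)) + C

/-- the sum over `T` is at least `d log (1 / (s - 1)) - O(1)` -/
def DensGE (T : Set (PK K)) (d : ℝ) : Prop :=
  ∃ C : ℝ, ∀ s : ℝ, 1 < s → s ≤ 2 → d * Real.log (1 / (s - 1)) - C ≤ pS T s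

lemma DensLE.mono {S T : Set (PK K)} {d : ℝ} (h : S ⊆ T) (hT : DensLE T d) : DensLE S d := by
  obtain ⟨C, hC⟩ := hT
  exact ⟨C, fun s hs hs2 => (pS_mono h hs).trans (hC s hs hs2)⟩

lemma DensGE.mono {S T : Set (PK K)} {d : ℝ} (h : S ⊆ T) (hS : DensGE S d) : DensGE T d := by
  obtain ⟨C, hC⟩ := hS
  exact ⟨C, fun s hs hs2 => (hC s hs hs2).trans (pS_mono h hs)⟩

lemma densLE_univ : DensLE (Set.univ : Set (PK K)) 1 := by
  obtain ⟨C, hC⟩ := primeSum_univ K
  refine ⟨C, fun s hs hs2 => ?_⟩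
  rw [pS_univ]
  linarith [(abs_le.mp (hC s hs hs2)).2]

lemma densGE_univ : DensGE (Set.univ : Set (PK K)) 1 := by
  obtain ⟨C, hC⟩ := primeSum_univ K
  refine ⟨C, fun s hs hs2 => ?_⟩
  rw [pS_univ]
  linarith [(abs_le.mp (hC s hs hs2)).1]

/-- a set with bounded prime sum -/
def Negligible (T : Set (PK K)) : Prop := ∃ C : ℝ, ∀ s : ℝ, 1 < s → s ≤ 2 → pS T s ≤ C

lemma negligible_of_finite {T : Set (PK K)} (h : T.Finite) : Negligible T := by
  refine ⟨h.toFinset.card, fun s hs _ => ?_⟩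
  unfold pS
  rw [tsum_eq_sum (s := h.toFinset)]
  · calc ∑ q ∈ h.toFinset, T.indicator (fun q => Np q ^ (-s)) q
        ≤ ∑ q ∈ h.toFinset, (1 : ℝ) := by
          refine Finset.sum_le_sum fun q _ => ?_
          refine (Set.indicator_le_self' (fun _ _ => Np_rpow_nonneg _ _) q).trans ?_
          linarith [Np_rpow_le_half q hs]
      _ = _ := by simp
  · intro q hq
    rw [Set.Finite.mem_toFinset] at hq
    exact Set.indicator_of_notMem hq _

/-- primes with a bound on `∑ 1 / N` -/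
lemma negligible_of_summable {T : Set (PK K)}
    (h : Summable (T.indicator (fun q : PK K => Np q ^ (-1 : ℝ)))) : Negligible T := by
  refine ⟨∑' q, T.indicator (fun q : PK K => Np q ^ (-1 : ℝ)) q, fun s hs _ => ?_⟩
  unfold pS
  refine Summable.tsum_le_tsum (fun q => ?_) (summable_pS T hs) h
  refine Set.indicator_le_indicator ?_
  exact Real.rpow_le_rpow_of_exponent_le (by linarith [two_le_Np q]) (by linarith)

lemma Negligible.union {S T : Set (PK K)} (hS : Negligible S) (hT : Negligible T) :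
    Negligible (S ∪ T) := by
  obtain ⟨C, hC⟩ := hS
  obtain ⟨C', hC'⟩ := hT
  exact ⟨C + C', fun s hs hs2 => (pS_union_le S T hs).trans (add_le_add (hC s hs hs2) (hC' s hs hs2))⟩

lemma Negligible.mono {S T : Set (PK K)} (h : S ⊆ T) (hT : Negligible T) : Negligible S := by
  obtain ⟨C, hC⟩ := hT
  exact ⟨C, fun s hs hs2 => (pS_mono h hs).trans (hC s hs hs2)⟩

lemma DensLE.union {S T : Set (PK K)} {d e : ℝ} (hS : DensLE S d) (hT : DensLE T e) :
    DensLE (S ∪ T) (d + e) := by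
  obtain ⟨C, hC⟩ := hS
  obtain ⟨C', hC'⟩ := hT
  refine ⟨C + C', fun s hs hs2 => ?_⟩
  have := pS_union_le S T hs
  linarith [hC s hs hs2, hC' s hs hs2]

lemma DensLE.of_subset_union {S T N : Set (PK K)} {d : ℝ} (h : S ⊆ T ∪ N) (hT : DensLE T d)
    (hN : Negligible N) : DensLE S d := by
  obtain ⟨C, hC⟩ := hT
  obtain ⟨C', hC'⟩ := hN
  refine ⟨C + C', fun s hs hs2 => ?_⟩
  have h1 := pS_mono h hs
  have h2 := pS_union_le T N hs
  linarith [hC s hs hs2, hC' s hs hs2]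

lemma DensGE.of_subset_union {S T N : Set (PK K)} {d : ℝ} (h : S ⊆ T ∪ N) (hS : DensGE S d)
    (hN : Negligible N) : DensGE T d := by
  obtain ⟨C, hC⟩ := hS
  obtain ⟨C', hC'⟩ := hN
  refine ⟨C + C', fun s hs hs2 => ?_⟩
  have h1 := pS_mono h hs
  have h2 := pS_union_le T N hs
  linarith [hC s hs hs2, hC' s hs hs2]

lemma DensGE.union {S T : Set (PK K)} {d e : ℝ} (h : Disjoint S T) (hS : DensGE S d)
    (hT : DensGE T e) : DensGE (S ∪ T) (d + e) := by
  obtain ⟨C, hC⟩ := hS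
  obtain ⟨C', hC'⟩ := hT
  refine ⟨C + C', fun s hs hs2 => ?_⟩
  rw [pS_union h hs]
  linarith [hC s hs hs2, hC' s hs hs2]

/-- comparison of densities -/
theorem le_of_dens {T : Set (PK K)} {d e : ℝ} (h1 : DensGE T d) (h2 : DensLE T e) : d ≤ e := by
  obtain ⟨C, hC⟩ := h1
  obtain ⟨C', hC'⟩ := h2
  by_contra hlt
  push Not at hlt
  -- choose `s` with `log (1 / (s - 1))` large
  set L : ℝ := max 0 ((C + C' + 1) / (d - e)) with hL
  have hL0 : 0 ≤ L := le_max_left _ _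
  set s : ℝ := 1 + Real.exp (-L) with hs
  have h1s : 1 < s := by rw [hs]; linarith [Real.exp_pos (-L)]
  have h2s : s ≤ 2 := by
    have : Real.exp (-L) ≤ 1 := by
      rw [Real.exp_le_one_iff]; linarith
    rw [hs]; linarith
  have hlog : Real.log (1 / (s - 1)) = L := by
    rw [hs, add_sub_cancel_left, one_div, ← Real.exp_neg, neg_neg, Real.log_exp]
  have e1 := hC s h1s h2s
  have e2 := hC' s h1s h2s
  rw [hlog] at e1 e2
  have hde : 0 < d - e := by linarith
  have h3 : (C + C' + 1) / (d - e) ≤ L := le_max_right _ _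
  rw [div_le_iff₀ hde] at h3
  nlinarith

lemma Negligible.densLE {T : Set (PK K)} (h : Negligible T) : DensLE T 0 := by
  obtain ⟨C, hC⟩ := h
  exact ⟨C, fun s hs hs2 => by rw [zero_mul, zero_add]; exact hC s hs hs2⟩

/-- a set of positive density is infinite -/
theorem infinite_of_densGE {T : Set (PK K)} {d : ℝ} (hd : 0 < d) (h : DensGE T d) : T.Infinite := by
  intro hfin
  have := le_of_dens h (negligible_of_finite hfin).densLE
  linarith

end Pool.Agent.ARC
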