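import Mathlib
import Pool.Agent.ARC.Defs
import Pool.Agent.PGZ.HOMC
import Pool.Agent.helper4.LocalFactor

/-! # ARC / RA: primes of the fixed field of `H` over an unramified prime and cosets of `H` -/

set_option autoImplicit false

noncomputable section

namespace Pool.Agent.ARC

open NumberField Module IsDedekindDomain Pool.Agent.Helper4 Pool.Agent.PGZ
open scoped Pointwise

/-- Fixed points of a power of Frobenius in a finite field. -/
theorem ra_fin {κ : Type*} [Field κ] [Finite κ] {p f : ℕ} (hp : p.Prime) [CharP κ p]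
    (hf : Nat.card κ = p ^ f) (k : ℕ) : (∀ y : κ, y ^ p ^ k = y) ↔ f ∣ k := by
  have : Fact p.Prime := ⟨hp⟩
  let _ : Algebra (ZMod p) κ := ZMod.algebra _ p
  have h1 : finrank (ZMod p) κ = f := by
    apply Nat.pow_right_injective hp.one_lt
    simp only
    rw [← hf, FiniteField.pow_finrank_eq_natCard]
  rw [← h1, ← FiniteField.orderOf_frobeniusAlgHom (ZMod p) κ, orderOf_dvd_iff_pow_eq_one,
    DFunLike.ext_iff]
  refine forall_congr' fun y => ?_
  rw [AlgHom.coe_pow, FiniteField.coe_frobeniusAlgHom, pow_iterate, ZMod.card, AlgHom.one_apply]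

variable {F : Type} [Field F] [NumberField F] {P : Ideal (𝓞 F)} (hP : P.IsPrime) {p : ℕ}
  (hp : p.Prime) (hpP : ((p : ℕ) : 𝓞 F) ∈ P)

include hP hp hpP

theorem ra_under : P.under ℤ = Ideal.span {(p : ℤ)} := by
  have hmax : (Ideal.span {(p : ℤ)}).IsMaximal :=
    PrincipalIdealRing.isMaximal_of_irreducible (Nat.prime_iff_prime_int.1 hp).irreducible
  symm
  apply hmax.eq_of_le
  · exact (Ideal.IsPrime.under ℤ P).ne_top
  · rw [Ideal.span_singleton_le_iff_mem]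
    change algebraMap ℤ (𝓞 F) (p : ℤ) ∈ P
    simpa using hpP

theorem ra_ne_bot : P ≠ ⊥ := by
  rintro rfl
  rw [Ideal.mem_bot, Nat.cast_eq_zero] at hpP
  exact hp.ne_zero hpP

variable [IsGalois ℚ F]

theorem ra_frob {σ : F ≃ₐ[ℚ] F} (hσ : IsArithFrobAt ℤ σ P) (k : ℕ) (y : 𝓞 F) :
    σ ^ k • y - y ^ p ^ k ∈ P := by
  have hc : Nat.card (ℤ ⧸ P.under ℤ) = p := by
    rw [ra_under hP hp hpP, Nat.card_congr (Int.quotientSpanNatEquivZMod p).toEquiv, Nat.card_zmod]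
  have key : ∀ y : 𝓞 F, Ideal.Quotient.mk P (σ • y) = (Ideal.Quotient.mk P y) ^ p := by
    intro y
    have := hσ.mk_apply y
    rw [hc] at this
    exact this
  rw [← Ideal.Quotient.eq, map_pow]
  induction k with
  | zero => simp
  | succ k ih => rw [pow_succ' σ, mul_smul, key, ih, ← pow_mul, pow_succ]

/-- The kernel of the homomorphism `x ↦ g x mod P` is `g⁻¹ P`. -/
theorem ra_ker (H : Subgroup (F ≃ₐ[ℚ] F)) (g : F ≃ₐ[ℚ] F) :
    RingHom.ker (Phi P H g) = (g⁻¹ • P).under (𝓞 (KH H)) := by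
  ext x
  rw [RingHom.mem_ker, Phi_apply, Ideal.Quotient.eq_zero_iff_mem, Ideal.mem_comap,
    Ideal.mem_inv_pointwise_smul_iff]

/-- The prime of the fixed field of `H` attached to `g`. -/
def raQ (H : Subgroup (F ≃ₐ[ℚ] F)) (g : F ≃ₐ[ℚ] F) : Over (KH H) p :=
  ⟨⟨RingHom.ker (Phi P H g), by
      have := Ideal.Quotient.isDomain P
      exact RingHom.ker_isPrime _, by
      intro h0
      have h1 : ((p : ℕ) : 𝓞 (KH H)) ∈ RingHom.ker (Phi P H g) := by
        rw [RingHom.mem_ker, map_natCast, ← map_natCast (Ideal.Quotient.mk P),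
          Ideal.Quotient.eq_zero_iff_mem]
        exact hpP
      rw [h0, Ideal.mem_bot, Nat.cast_eq_zero] at h1
      exact hp.ne_zero h1⟩, by
      change ((p : ℕ) : 𝓞 (KH H)) ∈ RingHom.ker (Phi P H g)
      rw [RingHom.mem_ker, map_natCast, ← map_natCast (Ideal.Quotient.mk P),
        Ideal.Quotient.eq_zero_iff_mem]
      exact hpP⟩

theorem raQ_asIdeal (H : Subgroup (F ≃ₐ[ℚ] F)) (g : F ≃ₐ[ℚ] F) :
    (raQ hP hp hpP H g).1.asIdeal = RingHom.ker (Phi P H g) := rfl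

variable (hI : P.inertia (F ≃ₐ[ℚ] F) = ⊥)

include hI

theorem ra_fiber (H : Subgroup (F ≃ₐ[ℚ] F)) (g g' : F ≃ₐ[ℚ] F) :
    Phi P H g = Phi P H g' ↔ g⁻¹ * g' ∈ H := by
  rw [Phi_fiber hP hp hpP H g g', hI]
  constructor
  · rintro ⟨i, hi, h, hh, rfl⟩
    rw [Subgroup.mem_bot] at hi
    rw [hi, one_mul, inv_mul_cancel_left]
    exact hh
  · intro h
    exact ⟨1, Subgroup.mem_bot.2 rfl, _, h, by group⟩

/-- Powers of Frobenius in `H` -/
theorem ra_mem {σ : F ≃ₐ[ℚ] F} (hσ : IsArithFrobAt ℤ σ P) (H : Subgroup (F ≃ₐ[ℚ] F))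
    (g : F ≃ₐ[ℚ] F) (k : ℕ) :
    g⁻¹ * σ ^ k * g ∈ H ↔ resDeg p (raQ hP hp hpP H g).1 ∣ k := by
  set q := raQ hP hp hpP H g with hq
  have := Ideal.Quotient.isDomain P
  have e1 : g⁻¹ * σ ^ k * g ∈ H ↔ Phi P H (σ ^ k * g) = Phi P H g := by
    rw [eq_comm, ra_fiber hP hp hpP hI H g, mul_assoc]
  have := finite_quot q.1
  have := charP_quot hp q.1 q.2
  let _ : Field (𝓞 (KH H) ⧸ q.1.asIdeal) := @Ideal.Quotient.field _ _ q.1.asIdeal q.1.isMaximal
  rw [e1, ← ra_fin hp (κ := 𝓞 (KH H) ⧸ q.1.asIdeal) (by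
    rw [← absNorm_eq_card]
    exact (absNorm_eq_pow hp q.1 q.2).1) k]
  constructor
  · intro h y
    obtain ⟨x, rfl⟩ := Ideal.Quotient.mk_surjective y
    rw [← map_pow, Ideal.Quotient.eq]
    change _ ∈ RingHom.ker (Phi P H g)
    rw [RingHom.mem_ker, map_sub, map_pow, ← Phi_frob hP hp hpP hσ H k g x, h, sub_self]
  · intro h
    ext x
    have h1 := h (Ideal.Quotient.mk _ x)
    rw [← map_pow, Ideal.Quotient.eq] at h1
    change _ ∈ RingHom.ker (Phi P H g) at h1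
    rw [RingHom.mem_ker, map_sub, map_pow, ← Phi_frob hP hp hpP hσ H k g x, sub_eq_zero] at h1
    exact h1

end Pool.Agent.ARC
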