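import Mathlib
import Pool.Agent.ARC.RA

/-! # ARC / RB: the local identity between the primes over an unramified prime and the induced
character -/

set_option autoImplicit false

noncomputable section

namespace Pool.Agent.ARC

open NumberField Module IsDedekindDomain Pool.Agent.Helper4 Pool.Agent.PGZ
open scoped Pointwise

variable {F : Type} [Field F] [NumberField F] [IsGalois ℚ F]

theorem rb_int (a : 𝓞 F) (ha : ∀ g : F ≃ₐ[ℚ] F, g • a = a) : ∃ n : ℤ, (n : 𝓞 F) = a := by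
  have h1 : (a : F) ∈ (⊥ : IntermediateField ℚ F) := by
    rw [← IsGalois.fixedField_top (F := ℚ) (E := F)]
    intro g
    exact congrArg (fun x : 𝓞 F => (x : F)) (ha g)
  obtain ⟨q, hq⟩ := IntermediateField.mem_bot.1 h1
  have h2 : IsIntegral ℤ q := by
    have h3 : IsIntegral ℤ (algebraMap ℚ F q) := hq ▸ a.isIntegral_coe
    exact (isIntegral_algebraMap_iff (algebraMap ℚ F).injective).1 h3
  obtain ⟨n, hn⟩ := IsIntegrallyClosed.isIntegral_iff.1 h2
  refine ⟨n, ?_⟩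
  ext
  rw [← hq, ← hn]
  simp

variable {P : Ideal (𝓞 F)} (hP : P.IsPrime) {p : ℕ}
  (hp : p.Prime) (hpP : ((p : ℕ) : 𝓞 F) ∈ P)

include hP hp hpP

/-- Every prime of the fixed field over `p` is the kernel of some `Phi`. -/
theorem rb_exists (H : Subgroup (F ≃ₐ[ℚ] F)) (q : Over (KH H) p) :
    ∃ g : F ≃ₐ[ℚ] F, RingHom.ker (Phi P H g) = q.1.asIdeal := by
  have hq := q.1.isPrime
  obtain ⟨⟨Q, hQ1, hQ2⟩⟩ := q.1.asIdeal.nonempty_primesOver (S := 𝓞 F)
  have hQp : ((p : ℕ) : 𝓞 F) ∈ Q := by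
    have h1 : ((p : ℕ) : 𝓞 (KH H)) ∈ Q.under (𝓞 (KH H)) := by
      rw [← hQ2.over]
      exact q.2
    rw [Ideal.mem_comap, map_natCast] at h1
    exact h1
  have hinv : Algebra.IsInvariant ℤ (𝓞 F) (F ≃ₐ[ℚ] F) := ⟨fun a ha => by
    obtain ⟨n, hn⟩ := rb_int a ha
    exact ⟨n, by rw [← hn]; simp⟩⟩
  obtain ⟨g, hg⟩ := Algebra.IsInvariant.exists_smul_of_under_eq ℤ (𝓞 F) (F ≃ₐ[ℚ] F) P Q
    (by rw [ra_under hP hp hpP, ra_under hQ1 hp hQp])
  refine ⟨g⁻¹, ?_⟩
  rw [ra_ker hP hp hpP, inv_inv, ← hg, ← hQ2.over]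

variable (hI : P.inertia (F ≃ₐ[ℚ] F) = ⊥)

include hI

theorem rb_count (H : Subgroup (F ≃ₐ[ℚ] F)) (q : Over (KH H) p) :
    Nat.card {x : (F ≃ₐ[ℚ] F) ⧸ H // raQ hP hp hpP H x.out = q} = resDeg p q.1 := by
  have hfp : Fact p.Prime := ⟨hp⟩
  have hdomF := Ideal.Quotient.isDomain P
  have hfinq := finite_quot q.1
  have hcharq := charP_quot hp q.1 q.2
  let PF : PK F := ⟨P, hP, ra_ne_bot hP hp hpP⟩
  have hfinP : Finite (𝓞 F ⧸ P) := finite_quot PF
  have hcharP : CharP (𝓞 F ⧸ P) p := charP_quot hp PF hpP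
  let _ : Field (𝓞 (KH H) ⧸ q.1.asIdeal) := @Ideal.Quotient.field _ _ q.1.asIdeal q.1.isMaximal
  let _ : Field (𝓞 F ⧸ P) := @Ideal.Quotient.field _ _ P PF.isMaximal
  have hout : ∀ g : F ≃ₐ[ℚ] F, Phi P H ((g : (F ≃ₐ[ℚ] F) ⧸ H)).out = Phi P H g := by
    intro g
    obtain ⟨h, hh⟩ := QuotientGroup.mk_out_eq_mul H g
    rw [hh, eq_comm, ra_fiber hP hp hpP hI H g, inv_mul_cancel_left]
    exact h.2
  have hker : ∀ x : {x : (F ≃ₐ[ℚ] F) ⧸ H // raQ hP hp hpP H x.out = q},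
      RingHom.ker (Phi P H x.1.out) = q.1.asIdeal := by
    intro x
    rw [← raQ_asIdeal hP hp hpP, x.2]
  have e1 : Nat.card {x : (F ≃ₐ[ℚ] F) ⧸ H // raQ hP hp hpP H x.out = q} =
      Nat.card ((𝓞 (KH H) ⧸ q.1.asIdeal) →+* (𝓞 F ⧸ P)) := by
    refine Nat.card_eq_of_bijective (fun x => Ideal.Quotient.lift q.1.asIdeal (Phi P H x.1.out)
      (fun a ha => by
        rw [← hker x, RingHom.mem_ker] at ha
        exact ha)) ⟨?_, ?_⟩
    · intro x y hxy
      simp only at hxy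
      have h1 : Phi P H x.1.out = Phi P H y.1.out := by
        ext a
        have := RingHom.congr_fun hxy (Ideal.Quotient.mk _ a)
        simpa using this
      rw [ra_fiber hP hp hpP hI H] at h1
      apply Subtype.ext
      rw [← QuotientGroup.out_eq' x.1, ← QuotientGroup.out_eq' y.1]
      exact QuotientGroup.eq.2 h1
    · intro φ
      obtain ⟨g, hg⟩ := Phi_surj hP hp hpP H (φ.comp (Ideal.Quotient.mk q.1.asIdeal))
      refine ⟨⟨(g : (F ≃ₐ[ℚ] F) ⧸ H), ?_⟩, ?_⟩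
      · apply Subtype.ext
        apply HeightOneSpectrum.ext
        rw [raQ_asIdeal, hout, hg]
        ext x
        rw [RingHom.mem_ker, RingHom.comp_apply, map_eq_zero_iff φ φ.injective,
          Ideal.Quotient.eq_zero_iff_mem]
      · apply Ideal.Quotient.ringHom_ext
        ext a
        simp only [RingHom.comp_apply, Ideal.Quotient.lift_mk]
        rw [hout, hg]
        rfl
  have e2 := card_hom_finite (p := p) (𝓞 (KH H) ⧸ q.1.asIdeal) (𝓞 F ⧸ P) (resDeg p q.1)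
    (resDeg p PF) (by
      rw [← absNorm_eq_card]
      exact (absNorm_eq_pow hp q.1 q.2).1) (by
      have h1 := absNorm_eq_card PF
      rw [(absNorm_eq_pow hp PF hpP).1] at h1
      exact h1.symm)
  rw [e1]
  by_cases hd : resDeg p q.1 ∣ resDeg p PF
  · rw [e2, if_pos hd]
  · rw [if_neg hd] at e2
    exfalso
    obtain ⟨g, hg⟩ := rb_exists hP hp hpP H q
    have hfin : Finite ((𝓞 (KH H) ⧸ q.1.asIdeal) →+* (𝓞 F ⧸ P)) := by
      have : Module.Finite ℤ (𝓞 (KH H) ⧸ q.1.asIdeal) := inferInstance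
      exact finite_hom _ _
    have hem : IsEmpty ((𝓞 (KH H) ⧸ q.1.asIdeal) →+* (𝓞 F ⧸ P)) := by
      rcases Nat.card_eq_zero.1 e2 with h | h
      · exact h
      · exact absurd hfin (by rwa [not_finite_iff_infinite])
    exact hem.false (Ideal.Quotient.lift q.1.asIdeal (Phi P H g) (fun a ha => by
        rw [← hg, RingHom.mem_ker] at ha
        exact ha))

/-- The value of the character on the powers of Frobenius. -/
theorem rb_val {σ : F ≃ₐ[ℚ] F} (hσ : IsArithFrobAt ℤ σ P) (H : Subgroup (F ≃ₐ[ℚ] F))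
    (psi : H →* ℂˣ) (c : Ideal (𝓞 (KH H)) → ℂ) (m₁ : ℕ) (hpm : ¬ p ∣ m₁)
    (hfrob : ∀ Q : Ideal (𝓞 F), Q.IsPrime → (m₁ : 𝓞 F) ∉ Q → ∀ g : F ≃ₐ[KH H] F,
      IsFrob (KH H) F Q g → c (Q.under (𝓞 (KH H))) =
        psi ((IntermediateField.subgroupEquivAlgEquiv H).symm g)) (g : F ≃ₐ[ℚ] F) (k : ℕ) :
    extC H (fun h => (psi h : ℂ)) (g⁻¹ * σ ^ k * g) =
      if resDeg p (raQ hP hp hpP H g).1 ∣ k then
        c (raQ hP hp hpP H g).1.asIdeal ^ (k / resDeg p (raQ hP hp hpP H g).1) else 0 := by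
  set q := raQ hP hp hpP H g with hq
  have hf0 : 0 < resDeg p q.1 := (absNorm_eq_pow hp q.1 q.2).2
  have hmem := ra_mem hP hp hpP hI hσ H g
  rw [← hq] at hmem
  unfold extC
  by_cases hd : resDeg p q.1 ∣ k
  · rw [dif_pos ((hmem k).2 hd), if_pos hd]
    obtain ⟨j, rfl⟩ := hd
    rw [Nat.mul_div_cancel_left j hf0]
    have h0 : g⁻¹ * σ ^ (resDeg p q.1) * g ∈ H := (hmem _).2 (dvd_refl _)
    have e1 : (⟨g⁻¹ * σ ^ (resDeg p q.1 * j) * g, (hmem _).2 (Dvd.intro j rfl)⟩ : H) =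
        ⟨g⁻¹ * σ ^ (resDeg p q.1) * g, h0⟩ ^ j := by
      apply Subtype.ext
      rw [SubmonoidClass.coe_pow]
      have := conj_pow (a := g⁻¹) (b := σ ^ (resDeg p q.1)) (i := j)
      rw [inv_inv] at this
      rw [this, ← pow_mul]
    rw [e1]
    change ((psi (_ ^ j) : ℂˣ) : ℂ) = _
    rw [map_pow, Units.val_pow_eq_pow_val]
    congr 1
    set h : H := ⟨g⁻¹ * σ ^ (resDeg p q.1) * g, h0⟩ with hh
    have hQprime : (g⁻¹ • P).IsPrime := hP.smul _
    have hunder : (g⁻¹ • P).under (𝓞 (KH H)) = q.1.asIdeal := by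
      rw [← ra_ker hP hp hpP H g]
      rfl
    have key := hfrob (g⁻¹ • P) hQprime (by
      intro hm
      rw [Ideal.mem_inv_pointwise_smul_iff] at hm
      have e4 : g • (m₁ : 𝓞 F) = (m₁ : 𝓞 F) :=
        map_natCast (MulSemiringAction.toRingHom (F ≃ₐ[ℚ] F) (𝓞 F) g) m₁
      have hm' : (m₁ : 𝓞 F) ∈ P := by
        rw [e4] at hm
        exact hm
      have hcop : IsCoprime (p : ℤ) (m₁ : ℤ) :=
        Nat.isCoprime_iff_coprime.2 ((Nat.Prime.coprime_iff_not_dvd hp).2 hpm)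
      obtain ⟨a, b, hab⟩ := hcop
      apply hP.ne_top
      rw [Ideal.eq_top_iff_one]
      have h1 : ((a * (p : ℤ) + b * (m₁ : ℤ) : ℤ) : 𝓞 F) = 1 := by rw [hab]; simp
      rw [← h1]
      push_cast
      exact P.add_mem (P.mul_mem_left _ hpP) (P.mul_mem_left _ hm'))
      (IntermediateField.subgroupEquivAlgEquiv H h) (by
        intro x
        rw [hunder, (absNorm_eq_pow hp q.1 q.2).1, Ideal.mem_inv_pointwise_smul_iff, smul_sub,
          smul_pow']
        have e2 : (IntermediateField.subgroupEquivAlgEquiv H h) • x =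
            (g⁻¹ * σ ^ (resDeg p q.1) * g) • x := by
          ext
          rfl
        rw [e2, smul_smul]
        have e3 : g * (g⁻¹ * σ ^ (resDeg p q.1) * g) = σ ^ (resDeg p q.1) * g := by group
        rw [e3, mul_smul]
        exact ra_frob hP hp hpP hσ _ _)
    rw [hunder, MulEquiv.symm_apply_apply] at key
    exact key.symm
  · rw [dif_neg (fun h => hd ((hmem k).1 h)), if_neg hd]

/-- The local identity. -/
theorem rb_sum {σ : F ≃ₐ[ℚ] F} (hσ : IsArithFrobAt ℤ σ P) (H : Subgroup (F ≃ₐ[ℚ] F))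
    (psi : H →* ℂˣ) (c : Ideal (𝓞 (KH H)) → ℂ) (m₁ : ℕ) (hpm : ¬ p ∣ m₁)
    (hfrob : ∀ Q : Ideal (𝓞 F), Q.IsPrime → (m₁ : 𝓞 F) ∉ Q → ∀ g : F ≃ₐ[KH H] F,
      IsFrob (KH H) F Q g → c (Q.under (𝓞 (KH H))) =
        psi ((IntermediateField.subgroupEquivAlgEquiv H).symm g)) (k : ℕ) :
    ((specF (KH H) p (fun q => c q.asIdeal)).map (fun α => α ^ k)).sum =
      indC H (fun h => (psi h : ℂ)) (σ ^ k) := by
  classical
  have := finite_Over (K := KH H) p hp.ne_zero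
  have : Fintype (Over (KH H) p) := Fintype.ofFinite _
  have : Fintype ((F ≃ₐ[ℚ] F) ⧸ H) := Fintype.ofFinite _
  rw [sum_pow_specF hp]
  unfold indC
  rw [finsum_eq_sum_of_fintype]
  simp only [rb_val hP hp hpP hI hσ H psi c m₁ hpm hfrob]
  rw [← Finset.sum_fiberwise Finset.univ (fun x : (F ≃ₐ[ℚ] F) ⧸ H => raQ hP hp hpP H x.out)]
  refine Finset.sum_congr rfl fun q _ => ?_
  rw [Finset.sum_congr rfl (g := fun _ => if resDeg p q.1 ∣ k then
    c q.1.asIdeal ^ (k / resDeg p q.1) else 0) (fun x hx => by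
      have : raQ hP hp hpP H x.out = q := by simpa using hx
      rw [this])]
  rw [Finset.sum_const, ← Fintype.card_subtype, ← Nat.card_eq_fintype_card,
    rb_count hP hp hpP hI H q, nsmul_eq_mul]
  split_ifs <;> simp

end Pool.Agent.ARC
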