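import Mathlib
import Pool.Agent.helper4.HeckeH
import Pool.Agent.helper4.LEuler
import Pool.Agent.ARC.Defs

/-! # ARC, part S1a: ray class characters, sign set and periodic function -/

set_option autoImplicit false
set_option linter.unusedSectionVars false

noncomputable section

namespace Pool.Agent.ARC

open NumberField NumberField.InfinitePlace nonZeroDivisors IsDedekindDomain Pool.Agent.Helper4

variable {K : Type*} [Field K] [NumberField K] {M : ℕ} {ψ : Ideal (𝓞 K) → ℂ}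

open scoped Classical

namespace Ray

lemma mul_all (h : Ray K M ψ) (a b : Ideal (𝓞 K)) : ψ (a * b) = ψ a * ψ b := by
  by_cases ha : IsCoprime a (Ideal.span {(M : 𝓞 K)})
  · by_cases hb : IsCoprime b (Ideal.span {(M : 𝓞 K)})
    · exact h.mul a b ha hb
    · rw [h.zero b hb, mul_zero, h.zero]
      exact fun h' => hb h'.of_mul_left_right
  · rw [h.zero a ha, zero_mul, h.zero]
    exact fun h' => ha h'.of_mul_left_left

lemma ne_zero (h : Ray K M ψ) {a : Ideal (𝓞 K)} (ha : IsCoprime a (Ideal.span {(M : 𝓞 K)})) :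
    ψ a ≠ 0 := by
  intro h0
  have := h.norm a ha
  rw [h0, norm_zero] at this
  exact zero_ne_one this

lemma one (h : Ray K M ψ) : ψ 1 = 1 := by
  have h1 : ψ (1 * 1) = ψ 1 * ψ 1 := h.mul_all 1 1
  rw [mul_one] at h1
  have h2 : ψ 1 ≠ 0 := h.ne_zero isCoprime_one_left
  exact (mul_left_cancel₀ h2 (by rw [mul_one]; exact h1)).symm

lemma norm_le (h : Ray K M ψ) (a : Ideal (𝓞 K)) : ‖ψ a‖ ≤ 1 := by
  by_cases ha : IsCoprime a (Ideal.span {(M : 𝓞 K)})
  · exact (h.norm a ha).le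
  · rw [h.zero a ha, norm_zero]; exact zero_le_one

lemma span_one (h : Ray K M ψ) : ψ (Ideal.span {(1 : 𝓞 K)}) = 1 := by
  rw [Ideal.span_singleton_one, ← Ideal.one_eq_top]; exact h.one

lemma span_mul (h : Ray K M ψ) (x y : 𝓞 K) :
    ψ (Ideal.span {x * y}) = ψ (Ideal.span {x}) * ψ (Ideal.span {y}) := by
  rw [← Ideal.span_singleton_mul_span_singleton, h.mul_all]

lemma span_pow (h : Ray K M ψ) (x : 𝓞 K) (n : ℕ) :
    ψ (Ideal.span {x ^ n}) = ψ (Ideal.span {x}) ^ n := by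
  induction n with
  | zero => rw [pow_zero, pow_zero, h.span_one]
  | succ n ih => rw [pow_succ, h.span_mul, ih, pow_succ]

lemma span_prod (h : Ray K M ψ) {ι : Type*} (s : Finset ι) (f : ι → 𝓞 K) :
    ψ (Ideal.span {∏ i ∈ s, f i}) = ∏ i ∈ s, ψ (Ideal.span {f i}) := by
  induction s using Finset.induction_on with
  | empty => simp only [Finset.prod_empty]; exact h.span_one
  | insert a s ha ih => rw [Finset.prod_insert ha, Finset.prod_insert ha, h.span_mul, ih]

lemma span_zero_of_not (h : Ray K M ψ) {x : 𝓞 K} (hx : ¬ IsCoprime x (M : 𝓞 K)) :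
    ψ (Ideal.span {x}) = 0 := by
  apply h.zero
  rwa [Ideal.isCoprime_span_singleton_iff]

lemma span_norm (h : Ray K M ψ) {x : 𝓞 K} (hx : IsCoprime x (M : 𝓞 K)) :
    ‖ψ (Ideal.span {x})‖ = 1 := by
  apply h.norm
  rwa [Ideal.isCoprime_span_singleton_iff]

lemma span_unit_mul (h : Ray K M ψ) (x : 𝓞 K) (ε : (𝓞 K)ˣ) :
    ψ (Ideal.span {(ε : 𝓞 K) * x}) = ψ (Ideal.span {x}) := by
  rw [h.span_mul, Ideal.span_singleton_eq_top.mpr ε.isUnit, ← Ideal.one_eq_top, h.one, one_mul]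

end Ray

/-- the relation between the coefficients -/
structure RelG (R : Finset (RP K)) (M : ℕ) (ψ : Ideal (𝓞 K) → ℂ) (χ : 𝓞 K → ℂ) : Prop where
  ray : Ray K M ψ
  per : ∀ x y, χ (x + M * y) = χ x
  norm_le : ∀ x, ‖χ x‖ ≤ 1
  zero : χ 0 = 0
  eq : ∀ x : 𝓞 K, ψ (Ideal.span {x}) = χ x * ∏ w ∈ R, sgv w (x : K)
  mul : ∀ x y, χ (x * y) = χ x * χ y
  norm : ∀ x, IsCoprime x (M : 𝓞 K) → ‖χ x‖ = 1
  zero_of_not : ∀ x, ¬ IsCoprime x (M : 𝓞 K) → χ x = 0

theorem exists_relG (h : Ray K M ψ) : ∃ (R : Finset (RP K)) (χ : 𝓞 K → ℂ), RelG R M ψ χ := by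
  have hM : 2 ≤ M := h.two_le
  have hM0 : M ≠ 0 := by omega
  choose π hπ1 hπneg hπpos using fun w : RP K => exists_neg_at (K := K) M hM0 w
  have hcop1 : ∀ x : 𝓞 K, (∃ y : 𝓞 K, x = 1 + M * y) → IsCoprime x (M : 𝓞 K) := by
    rintro x ⟨y, rfl⟩
    exact ⟨1, -y, by ring⟩
  have hmul1 : ∀ x x' : 𝓞 K, (∃ y : 𝓞 K, x = 1 + M * y) → (∃ y : 𝓞 K, x' = 1 + M * y) →
      ∃ y : 𝓞 K, x * x' = 1 + M * y := by
    rintro x x' ⟨y, rfl⟩ ⟨y', rfl⟩
    exact ⟨y + y' + M * y * y', by ring⟩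
  have hprod1 : ∀ P : Finset (RP K), ∃ y : 𝓞 K, ∏ w ∈ P, π w = 1 + M * y := by
    intro P
    induction P using Finset.induction_on with
    | empty => exact ⟨0, by simp⟩
    | insert a s ha ih =>
      rw [Finset.prod_insert ha]
      exact hmul1 _ _ (hπ1 a) ih
  have hsq : ∀ v : 𝓞 K, (∃ y : 𝓞 K, v = 1 + M * y) →
      ψ (Ideal.span {v}) * ψ (Ideal.span {v}) = 1 := by
    intro v hv
    rw [← h.span_mul]
    obtain ⟨y, hy⟩ := hmul1 v v hv hv
    refine h.ray _ y hy fun w => ?_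
    have hv0 : v ≠ 0 := ne_zero_of_coprime hM (hcop1 v hv)
    have hvK : (v : K) ≠ 0 := by exact_mod_cast hv0
    have h2 : ((v * v : 𝓞 K) : K) = (v : K) * (v : K) := map_mul (algebraMap (𝓞 K) K) _ _
    rw [h2, map_mul]
    exact mul_self_pos.mpr (rv_ne_zero w hvK)
  set R : Finset (RP K) := Finset.univ.filter (fun w => ψ (Ideal.span {π w}) = -1) with hR
  have hCπ : ∀ w, ψ (Ideal.span {π w}) = if w ∈ R then -1 else 1 := by
    intro w
    split_ifs with h'
    · exact (Finset.mem_filter.mp h').2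
    · rcases mul_self_eq_one_iff.mp (hsq _ (hπ1 w)) with h2 | h2
      · exact h2
      · exact absurd (by rw [hR, Finset.mem_filter]; exact ⟨Finset.mem_univ _, h2⟩ : w ∈ R) h'
  -- the basic lemma
  have hH : ∀ v : 𝓞 K, (∃ y : 𝓞 K, v = 1 + M * y) →
      ψ (Ideal.span {v}) = ∏ w ∈ R, sgv w (v : K) := by
    intro v hv
    have hv0 : v ≠ 0 := ne_zero_of_coprime hM (hcop1 v hv)
    have hvK : (v : K) ≠ 0 := by exact_mod_cast hv0
    set P : Finset (RP K) := Finset.univ.filter (fun w => rv w (v : K) < 0) with hP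
    have hsgv : ∀ w, sgv w (v : K) = if w ∈ P then -1 else 1 := by
      intro w
      split_ifs with h
      · exact sgv_neg w (Finset.mem_filter.mp h).2
      · apply sgv_pos
        rcases lt_or_gt_of_ne (rv_ne_zero w hvK) with h1 | h1
        · exact absurd (by rw [hP, Finset.mem_filter]; exact ⟨Finset.mem_univ _, h1⟩ : w ∈ P) h
        · exact h1
    set u : 𝓞 K := v * ∏ w ∈ P, π w with hu
    have hu1 : ∃ y : 𝓞 K, u = 1 + M * y := hmul1 _ _ hv (hprod1 P)
    have hu0 : u ≠ 0 := ne_zero_of_coprime hM (hcop1 u hu1)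
    have huK : (u : K) ≠ 0 := by exact_mod_cast hu0
    have hupos : ∀ w, 0 < rv w (u : K) := by
      intro w
      have h1 : sgv w (u : K) = 1 := by
        have h2 : (u : K) = (v : K) * ((∏ w ∈ P, π w : 𝓞 K) : K) :=
          map_mul (algebraMap (𝓞 K) K) _ _
        rw [h2, sgv_mul, sgv_finprod, hsgv]
        have h3 : ∀ w' ∈ P, sgv w (π w' : K) = if w' = w then -1 else 1 := by
          intro w' _
          split_ifs with h
          · subst h; exact sgv_neg _ (hπneg w')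
          · exact sgv_pos _ (hπpos w' w (fun h' => h h'.symm))
        rw [Finset.prod_congr rfl h3, Finset.prod_ite_eq' P w (fun _ => (-1 : ℂ))]
        split_ifs <;> norm_num
      rcases lt_or_gt_of_ne (rv_ne_zero w huK) with h2 | h2
      · rw [sgv_neg w h2] at h1
        norm_num at h1
      · exact h2
    obtain ⟨yu, hyu⟩ := hu1
    have h1 := h.ray u yu hyu hupos
    rw [hu, h.span_mul, h.span_prod] at h1
    have h2 := hsq v hv
    have h3 : ψ (Ideal.span {v}) = ∏ w ∈ P, ψ (Ideal.span {π w}) := by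
      have h4 : ψ (Ideal.span {v}) * (ψ (Ideal.span {v}) * ∏ w ∈ P, ψ (Ideal.span {π w}))
        = ψ (Ideal.span {v}) := by rw [h1, mul_one]
      rw [← h4, ← mul_assoc, h2, one_mul]
    rw [h3]
    simp_rw [hCπ, hsgv]
    rw [Finset.prod_ite_mem, Finset.prod_ite_mem, Finset.inter_comm]
  set χ : 𝓞 K → ℂ := fun x => ψ (Ideal.span {x}) * ∏ w ∈ R, sgv w (x : K) with hχ
  have hχ0 : ∀ x, ¬ IsCoprime x (M : 𝓞 K) → χ x = 0 := by
    intro x hx
    rw [hχ]; simp only; rw [h.span_zero_of_not hx, zero_mul]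
  have hcopper : ∀ x y : 𝓞 K, IsCoprime (x + M * y) (M : 𝓞 K) ↔ IsCoprime x (M : 𝓞 K) :=
    fun x y => IsCoprime.add_mul_left_left_iff
  have hsgn1 : ∀ x : 𝓞 K, x ≠ 0 → ‖∏ w ∈ R, sgv w (x : K)‖ = 1 := by
    intro x hx
    have hx0 : (x : K) ≠ 0 := by exact_mod_cast hx
    have h1 := sgv_prod_sq R hx0
    have h2 : ‖∏ w ∈ R, sgv w (x : K)‖ * ‖∏ w ∈ R, sgv w (x : K)‖ = 1 := by
      rw [← norm_mul, h1, norm_one]
    have h3 : 0 ≤ ‖∏ w ∈ R, sgv w (x : K)‖ := norm_nonneg _
    nlinarith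
  have hχn : ∀ x, IsCoprime x (M : 𝓞 K) → ‖χ x‖ = 1 := by
    intro x hx
    rw [hχ]; simp only
    rw [norm_mul, h.span_norm hx, hsgn1 x (ne_zero_of_coprime hM hx), one_mul]
  refine ⟨R, χ, h, ?_, ?_, ?_, ?_, ?_, hχn, hχ0⟩
  · intro x y
    by_cases hx : IsCoprime x (M : 𝓞 K)
    · have hx' : IsCoprime (x + M * y) (M : 𝓞 K) := (hcopper x y).mpr hx
      -- a power of `x` congruent to one
      obtain ⟨k, hk, z, hz⟩ : ∃ k : ℕ, 0 < k ∧ ∃ z : 𝓞 K, x ^ k = 1 + M * z := by
        have hspan : Ideal.span {(M : 𝓞 K)} ≠ ⊥ := by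
          rw [Ne, Ideal.span_singleton_eq_bot]
          exact_mod_cast hM0
        have := finite_quotI hspan
        have hu : IsUnit (Ideal.Quotient.mk (Ideal.span {(M : 𝓞 K)}) x) := by
          obtain ⟨a, b, hab⟩ := hx
          refine IsUnit.of_mul_eq_one (Ideal.Quotient.mk _ a) ?_
          rw [← map_mul, ← map_one (Ideal.Quotient.mk (Ideal.span {(M : 𝓞 K)})),
            Ideal.Quotient.eq, Ideal.mem_span_singleton]
          exact ⟨-b, by linear_combination hab⟩
        obtain ⟨U, hU⟩ := hu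
        obtain ⟨k, hk, hk1⟩ := (isOfFinOrder_of_finite U).exists_pow_eq_one
        refine ⟨k, hk, ?_⟩
        have h1 : Ideal.Quotient.mk (Ideal.span {(M : 𝓞 K)}) (x ^ k)
            = Ideal.Quotient.mk (Ideal.span {(M : 𝓞 K)}) 1 := by
          rw [map_pow, ← hU, ← Units.val_pow_eq_pow_val, hk1, map_one]
          simp
        rw [Ideal.Quotient.eq, Ideal.mem_span_singleton] at h1
        obtain ⟨z, hz⟩ := h1
        exact ⟨z, by rw [← hz]; ring⟩
      set v : 𝓞 K := (x + M * y) * x ^ (k - 1) with hv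
      have hxk : x ^ k = x * x ^ (k - 1) := by
        rw [← pow_succ']; congr 1; omega
      have hv1 : ∃ z : 𝓞 K, v = 1 + M * z := by
        refine ⟨z + y * x ^ (k - 1), ?_⟩
        rw [hv, add_mul, ← hxk, hz]
        ring
      have h1 := hH v hv1
      have h0 := hH (x ^ k) ⟨z, hz⟩
      rw [hv, h.span_mul, h.span_pow] at h1
      rw [hxk, h.span_mul, h.span_pow] at h0
      have h2 : (((x + M * y) * x ^ (k - 1) : 𝓞 K) : K)
          = ((x + M * y : 𝓞 K) : K) * (x : K) ^ (k - 1) := by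
        simp only [RingOfIntegers.coe_eq_algebraMap, map_mul, map_pow]
      have h2' : ((x * x ^ (k - 1) : 𝓞 K) : K) = (x : K) * (x : K) ^ (k - 1) := by
        simp only [RingOfIntegers.coe_eq_algebraMap, map_mul, map_pow]
      rw [h2, sgv_prod_mul, sgv_prod_pow] at h1
      rw [h2', sgv_prod_mul, sgv_prod_pow] at h0
      have hx0 : x ≠ 0 := ne_zero_of_coprime hM hx
      have hx0' : x + M * y ≠ 0 := ne_zero_of_coprime hM hx'
      have hxK : (x : K) ≠ 0 := by exact_mod_cast hx0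
      have hxK' : ((x + M * y : 𝓞 K) : K) ≠ 0 := by exact_mod_cast hx0'
      have h7 := sgv_prod_sq R hxK
      have h8 := sgv_prod_sq R hxK'
      have hB : ψ (Ideal.span {x}) ≠ 0 := by
        intro h'
        have := h.span_norm hx
        rw [h', norm_zero] at this
        exact zero_ne_one this
      have hT : ∏ w ∈ R, sgv w (x : K) ≠ 0 := by
        intro h'
        rw [h', zero_mul] at h7
        exact zero_ne_one h7
      rw [hχ]
      simp only
      set A := ψ (Ideal.span {x + M * y})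
      set B := ψ (Ideal.span {x})
      set S := ∏ w ∈ R, sgv w ((x + M * y : 𝓞 K) : K)
      set T := ∏ w ∈ R, sgv w (x : K)
      -- h1 : A * B^(k-1) = S * T^(k-1), h0 : B * B^(k-1) = T * T^(k-1)
      have hTk : T ^ (k - 1) ≠ 0 := pow_ne_zero _ hT
      have hBk : B ^ (k - 1) ≠ 0 := pow_ne_zero _ hB
      have h9 : A * T = S * B := by
        apply mul_right_cancel₀ hBk
        apply mul_right_cancel₀ hTk
        calc A * T * B ^ (k - 1) * T ^ (k - 1) = (A * B ^ (k - 1)) * (T * T ^ (k - 1)) := by ring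
          _ = (S * T ^ (k - 1)) * (B * B ^ (k - 1)) := by rw [h1, h0]
          _ = S * B * B ^ (k - 1) * T ^ (k - 1) := by ring
      calc A * S = (A * T) * T * S := by rw [mul_assoc A T T, h7, mul_one]
        _ = (S * S) * (B * T) := by rw [h9]; ring
        _ = B * T := by rw [h8, one_mul]
    · rw [hχ0 x hx, hχ0 _ (fun h => hx ((hcopper x y).mp h))]
  · intro x
    by_cases hx : IsCoprime x (M : 𝓞 K)
    · exact (hχn x hx).le
    · rw [hχ0 x hx, norm_zero]
      exact zero_le_one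
  · apply hχ0
    intro h
    exact ne_zero_of_coprime hM h rfl
  · intro x
    by_cases hx : IsCoprime x (M : 𝓞 K)
    · have hx0 : (x : K) ≠ 0 := by exact_mod_cast ne_zero_of_coprime hM hx
      rw [hχ]
      simp only
      rw [mul_assoc, sgv_prod_sq R hx0, mul_one]
    · rw [hχ0 x hx, zero_mul, h.span_zero_of_not hx]
  · intro x y
    rw [hχ]
    simp only
    have h2' : ((x * y : 𝓞 K) : K) = (x : K) * (y : K) := map_mul (algebraMap (𝓞 K) K) _ _
    rw [h.span_mul, h2', sgv_prod_mul]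
    ring

end Pool.Agent.ARC
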