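import Mathlib
import Pool.Agent.ARC.S1a

/-! # ARC, part S1b: partial L-functions of ray class characters -/

set_option autoImplicit false
set_option linter.unusedSectionVars false

open MeasureTheory Filter Topology Set

noncomputable section

namespace Pool.Agent.ARC

open NumberField NumberField.Units NumberField.InfinitePlace NumberField.mixedEmbedding
  NumberField.Units.dirichletUnitTheorem nonZeroDivisors Pool.Agent.Helper4

open scoped Classical

variable (K : Type*) [Field K] [NumberField K]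
variable (b : (Ideal (𝓞 K))⁰) {R : Finset (RP K)}
variable {M : ℕ} {ψ : Ideal (𝓞 K) → ℂ} {χ : 𝓞 K → ℂ} (hχ : RelG R M ψ χ)

include hχ in
lemma coef_mulG (x : 𝓞 K) :
    χ x * ((∏ w ∈ R, rv w (x : K) : ℝ) : ℂ)
      = ψ (Ideal.span {x}) * ((∏ w ∈ R, w.1 (x : K) : ℝ) : ℂ) := by
  rw [hχ.eq x, mul_assoc]
  congr 1
  push_cast
  rw [← Finset.prod_mul_distrib]
  refine Finset.prod_congr rfl fun w _ => ?_
  rw [← abs_rv]
  exact (sgv_mul_abs w (x : K)).symm

include hχ in
lemma norm_acoefG (m : index K → ℤ) : ‖acoef K b χ m‖ ≤ 1 := hχ.norm_le _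

include hχ in
lemma acoef_perG (m k : index K → ℤ) : acoef K b χ (m + (M : ℤ) • k) = acoef K b χ m := by
  unfold acoef
  rw [eltO_add_smul]
  exact hχ.per _ _

variable [NeZero M]

/-- the FE-pair of an ideal and a character -/
def charPairG : WeakFEPair ℂ :=
  hPair (BB K b) (BB_det K b) (Jset R) (lam K) (DD K) (DD_bounded K) (DD_measurable K) (sum_lam K)
    M (acoef K b χ) (norm_acoefG K b hχ) (acoef_perG K b hχ)

include hχ in
lemma mellinTerm_charG (w : ℂ) (m : {m : index K → ℤ // m ≠ 0}) (a : ℝ) :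
    Real.exp a • ((((Real.exp a : ℝ) : ℂ) ^ (w - 1)) •
      (acoef K b χ m.1 * ((ttI (BB K b) (Jset R) (lam K) (DD K) (castVec m.1) (Real.exp a) : ℝ) : ℂ)))
      = ∫ u in DD K, ψ (Ideal.span {(coordEquiv K b m).1}) *
        Ker K R ((coordEquiv K b m).1 : K) w (a, u) := by
  set x : 𝓞 K := (coordEquiv K b m).1 with hx
  have hxe : (x : K) = elt K b m.1 := coordEquiv_coe K b m
  unfold ttI acoef
  rw [eltO_eq, ← hx, cpow_exp, Complex.real_smul, smul_eq_mul, ← mul_assoc, Complex.ofReal_exp,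
    ← Complex.exp_add]
  have e1 : (a : ℂ) + (w - 1) * a = w * a := by ring
  rw [e1]
  have e2 : (((∫ u in DD K, tt (BB K b) (Jset R) (lam K) (Real.exp a) u (castVec m.1) : ℝ)) : ℂ)
      = ∫ u in DD K, ((tt (BB K b) (Jset R) (lam K) (Real.exp a) u (castVec m.1) : ℝ) : ℂ) :=
    (integral_ofReal (𝕜 := ℂ)).symm
  rw [e2, ← integral_const_mul, ← integral_const_mul]
  congr 1
  ext u
  rw [tt_BB, ← hxe]
  unfold Ker
  have h3 := coef_mulG K hχ x
  have h4 : (∏ v ∈ R, (Real.exp (ell K v.1 u / 2) * rv v (x : K)))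
      = (∏ v ∈ R, Real.exp (ell K v.1 u / 2)) * ∏ v ∈ R, rv v (x : K) :=
    Finset.prod_mul_distrib
  have h5 : (∏ v ∈ R, (Real.exp (ell K v.1 u / 2) * v.1 (x : K)))
      = (∏ v ∈ R, Real.exp (ell K v.1 u / 2)) * ∏ v ∈ R, v.1 (x : K) :=
    Finset.prod_mul_distrib
  simp only
  rw [h4, h5]
  push_cast at h3 ⊢
  linear_combination (Complex.exp (w * a) * (∏ v ∈ R, Complex.exp ((ell K v.1 u : ℂ) / 2)) *
    Complex.exp (-(Real.pi : ℂ) * (Complex.exp a * (QQ K (x : K) u : ℂ)))) * h3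

variable (R ψ) in
/-- the integrals attached to elements of the ideal -/
def TTG (w : ℂ) (x : 𝓞 K) (a : ℝ) : ℂ :=
  ∫ u in DD K, ψ (Ideal.span {x}) * Ker K R (x : K) w (a, u)

lemma hasSum_NZ_charG {w : ℂ} (hw : (Module.finrank ℚ K : ℝ) / 2 + (R.card : ℝ) / 2 < w.re) :
    HasSum (fun x : NZ K b => ∫ a, TTG K R ψ w x.1 a) ((charPairG K b hχ).Λ w) := by
  have h := hasSum_mellin_ttI (BB K b) (BB_det K b) (Jset R) (lam K) (DD K) (DD_bounded K)
    (DD_measurable K) (sum_lam K) M (acoef K b χ) (norm_acoefG K b hχ)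
    (acoef_perG K b hχ) (w := w) (region K R w hw)
  rw [← (coordEquiv K b).hasSum_iff]
  refine h.congr_fun ?_ |> fun h => h
  intro m
  rw [← integral_exp_subst]
  simp only [Function.comp_apply]
  congr 1
  ext a
  exact (mellinTerm_charG K b hχ w m a).symm

include hχ in
lemma summable_NZ_charG {w : ℂ} (hw : (Module.finrank ℚ K : ℝ) / 2 + (R.card : ℝ) / 2 < w.re) :
    Summable (fun x : NZ K b => ∫ a, ‖TTG K R ψ w x.1 a‖) := by
  have h := summable_mellin_ttI (BB K b) (BB_det K b) (Jset R) (lam K) (DD K) (DD_bounded K)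
    (acoef K b χ) (norm_acoefG K b hχ) (w := w) (region K R w hw)
  rw [← (coordEquiv K b).summable_iff]
  refine h.congr ?_
  intro m
  rw [← integral_exp_subst]
  simp only [Function.comp_apply]
  congr 1
  ext a
  have h2 := mellinTerm_charG K b hχ w m a
  unfold TTG
  rw [← h2, _root_.norm_smul (Real.exp a), Real.norm_eq_abs,
    abs_of_pos (Real.exp_pos _), smul_eq_mul]

omit [NeZero M] in
include hχ in
lemma TT_unitG (w : ℂ) (x : 𝓞 K) (ε : (𝓞 K)ˣ) (a : ℝ) :
    TTG K R ψ w ((ε : 𝓞 K) * x) a = ∫ u in DD K, ψ (Ideal.span {x}) *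
      Ker K R (x : K) w (a, u + logEmbedding K (Additive.ofMul ε)) := by
  unfold TTG
  congr 1
  ext u
  rw [hχ.ray.span_unit_mul]
  have h1 : (((ε : 𝓞 K) * x : 𝓞 K) : K) = (ε : K) * (x : K) := map_mul (algebraMap (𝓞 K) K) _ _
  rw [h1, Ker_unit]

/-- Sum over the ideals of a class. -/
lemma hasSum_ideals_charG {s : ℂ} (hs : 1 < s.re) :
    HasSum (fun I : JJ K b => (Nat.card (torsion K) : ℂ) * (ψ (Ideal.span {gen K b I}) *
      (((cst K : ℝ) : ℂ) * (piR K R s * gamR K R s *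
        Complex.exp (-(s * Real.log |(Algebra.norm ℚ (gen K b I : K) : ℝ)|))))))
      ((charPairG K b hχ).Λ
        ((Module.finrank ℚ K : ℂ) * s / 2 + ((∑ v, delta R v : ℝ) : ℂ) / 2)) := by
  set w : ℂ := (Module.finrank ℚ K : ℂ) * s / 2 + ((∑ v, delta R v : ℝ) : ℂ) / 2 with hw
  have hs0 : 0 < s.re := by linarith
  have hwre : (Module.finrank ℚ K : ℝ) / 2 + (R.card : ℝ) / 2 < w.re := by
    have h1 : w = s * (((Module.finrank ℚ K : ℝ) / 2 : ℝ) : ℂ)
        + (((∑ v, delta R v) / 2 : ℝ) : ℂ) := by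
      rw [hw]; push_cast; ring
    rw [h1, Complex.add_re, Complex.re_mul_ofReal, Complex.ofReal_re, sum_delta]
    have := finrank_pos_real K
    have h2 : 0 < (Module.finrank ℚ K : ℝ) / 2 := by positivity
    nlinarith
  have hs1 := (idealUnitEquiv K b).summable_iff.mpr (summable_NZ_charG K b hχ hwre)
  have hh1 := (idealUnitEquiv K b).hasSum_iff.mpr (hasSum_NZ_charG K b hχ hwre)
  have hval : ∀ p : JJ K b × (𝓞 K)ˣ, ∀ a, TTG K R ψ w ((idealUnitEquiv K b) p).1 a
      = ∫ u in DD K, ψ (Ideal.span {gen K b p.1}) *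
      Ker K R (gen K b p.1 : K) w (a, u + logEmbedding K (Additive.ofMul p.2)) := by
    intro p a
    exact TT_unitG K hχ w (gen K b p.1) p.2 a
  have hs2 : Summable fun p : JJ K b × (𝓞 K)ˣ => ∫ a, ‖∫ u in DD K, ψ (Ideal.span {gen K b p.1}) *
      Ker K R (gen K b p.1 : K) w (a, u + logEmbedding K (Additive.ofMul p.2))‖ := by
    refine hs1.congr fun p => ?_
    simp only [Function.comp_apply]
    congr 1
    ext a
    rw [hval]
  have hh2 : HasSum (fun p : JJ K b × (𝓞 K)ˣ => ∫ a, ∫ u in DD K, ψ (Ideal.span {gen K b p.1}) *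
      Ker K R (gen K b p.1 : K) w (a, u + logEmbedding K (Additive.ofMul p.2)))
      ((charPairG K b hχ).Λ w) := by
    refine hh1.congr_fun ?_ |> fun h => h
    intro p
    simp only [Function.comp_apply]
    congr 1
    ext a
    rw [hval]
  refine hh2.prod_fiberwise fun I => ?_
  have hgen := gen_coe_ne_zero K b I
  have h3 : Integrable (fun p => ψ (Ideal.span {gen K b I}) * Ker K R (gen K b I : K) w p) :=
    (integrable_Ker K R hgen hs0).const_mul _
  have h4 : Summable fun ε : (𝓞 K)ˣ => ∫ a, ‖∫ u in DD K, ψ (Ideal.span {gen K b I}) *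
      Ker K R (gen K b I : K) w (a, u + logEmbedding K (Additive.ofMul ε))‖ :=
    hs2.comp_injective (i := fun ε : (𝓞 K)ˣ => ((I, ε) : JJ K b × (𝓞 K)ˣ))
      (fun ε ε' h => (Prod.ext_iff.mp h).2)
  have h5 := hasSum_unfold_units K (fun p => ψ (Ideal.span {gen K b I}) * Ker K R (gen K b I : K) w p)
    h3 h4
  rw [integral_const_mul, integral_Ker K R hgen hs0] at h5
  exact h5

end Pool.Agent.ARC
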