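import Mathlib
import Pool.Agent.ARC.S1b
import Pool.Agent.helper4.DedDual

/-! # ARC, part S1c: continuation of L-functions of ray class characters -/

set_option autoImplicit false
set_option linter.unusedSectionVars false

open MeasureTheory Filter Topology Set

noncomputable section

namespace Pool.Agent.ARC

open NumberField NumberField.Units NumberField.InfinitePlace NumberField.mixedEmbedding
  NumberField.Units.dirichletUnitTheorem nonZeroDivisors Pool.Agent.Helper4

open scoped Classical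

variable (K : Type*) [Field K] [NumberField K]
variable (b : (Ideal (𝓞 K))⁰) {R : Finset (RP K)}
variable {M : ℕ} {ψ : Ideal (𝓞 K) → ℂ} {χ : 𝓞 K → ℂ} (hχ : RelG R M ψ χ) [NeZero M]

/-- The entire function attached to an ideal class and a character. -/
def HCcG (s : ℂ) : ℂ :=
  ((Nat.card (torsion K) : ℂ) * ((cst K : ℝ) : ℂ) * ψ (b : Ideal (𝓞 K)))⁻¹ *
    (Ideal.absNorm (b : Ideal (𝓞 K)) : ℂ) ^ s *
    Complex.exp (((Module.finrank ℚ K : ℂ) * s / 2 + (R.card : ℂ) / 2) * Real.log Real.pi) *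
    igamR K R s *
    ((s - 1) * (charPairG K b hχ).Λ₀ (wR K R s)
      + 2 * ((charPairG K b hχ).ε * (charPairG K b hχ).g₀) /
        (Module.finrank ℚ K : ℂ))

lemma differentiable_HCcG : Differentiable ℂ (HCcG K b hχ) := by
  unfold HCcG
  have h1 := differentiable_igamR K R
  have h3 : Differentiable ℂ (fun s : ℂ => (charPairG K b hχ).Λ₀ (wR K R s)) :=
    (charPairG K b hχ).differentiable_Λ₀.comp (by unfold wR; fun_prop)
  have hb : (Ideal.absNorm (b : Ideal (𝓞 K)) : ℂ) ≠ 0 := by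
    exact_mod_cast (absNorm_pos K b).ne'
  have h4 : Differentiable ℂ (fun s : ℂ => (Ideal.absNorm (b : Ideal (𝓞 K)) : ℂ) ^ s) := by
    intro s
    exact (differentiableAt_id).const_cpow (Or.inl hb)
  fun_prop

omit [NeZero M] in
include hχ in
lemma psi_gen (I : JJ K b) : ψ (Ideal.span {gen K b I})
    = ψ (I.1 : Ideal (𝓞 K)) * ψ (b : Ideal (𝓞 K)) := by
  rw [span_gen, hχ.ray.mul_all]

lemma HCcG_eq (hb : IsCoprime (b : Ideal (𝓞 K)) (Ideal.span {(M : 𝓞 K)})) {s : ℂ} (hs : 1 < s.re) :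
    HasSum (fun I : JJ K b => ψ (I.1 : Ideal (𝓞 K)) *
      (Ideal.absNorm (I.1 : Ideal (𝓞 K)) : ℂ) ^ (-s))
      (HCcG K b hχ s / (s - 1)) := by
  have h := hasSum_ideals_charG K b hχ hs
  have hs0 : 0 < s.re := by linarith
  have hcb : ψ (b : Ideal (𝓞 K)) ≠ 0 := hχ.ray.ne_zero hb
  set A : ℂ := (Nat.card (torsion K) : ℂ) * ((cst K : ℝ) : ℂ) * piR K R s * gamR K R s *
      (Ideal.absNorm (b : Ideal (𝓞 K)) : ℂ) ^ (-s) * ψ (b : Ideal (𝓞 K)) with hA
  have hb : (Ideal.absNorm (b : Ideal (𝓞 K)) : ℂ) ≠ 0 := by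
    exact_mod_cast (absNorm_pos K b).ne'
  have hgam : gamR K R s ≠ 0 := by
    intro h0
    have := gamR_mul_igamR K R s hs0
    rw [h0, zero_mul] at this
    exact zero_ne_one this
  have hA0 : A ≠ 0 := by
    rw [hA]
    refine mul_ne_zero (mul_ne_zero (mul_ne_zero (mul_ne_zero (mul_ne_zero
      (card_torsion_ne_zero K) (cst_ne_zero K)) (Complex.exp_ne_zero _)) hgam) ?_) hcb
    rw [Ne, Complex.cpow_eq_zero_iff]
    tauto
  have h2 := h.mul_left A⁻¹
  have hs1 : s - 1 ≠ 0 := by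
    intro h0
    have : s = 1 := by linear_combination h0
    rw [this] at hs
    simp at hs
  have h3 : HCcG K b hχ s / (s - 1)
      = A⁻¹ * (charPairG K b hχ).Λ (wR K R s) := by
    set P := charPairG K b hχ with hP
    have hn := finrank_ne_zero_complex K
    have hf0 : P.f₀ = 0 := by
      rw [hP]
      unfold charPairG hPair acoef
      simp only
      rw [eltO_zero, hχ.zero, zero_mul, zero_mul]
    have hΛ : P.Λ (wR K R s) = P.Λ₀ (wR K R s)
          + 2 * (P.ε * P.g₀) / ((Module.finrank ℚ K : ℂ) * (s - 1)) := by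
      rw [WeakFEPair.Λ, hf0, smul_zero, sub_zero, smul_eq_mul]
      by_cases hR : R = ∅
      · have hk : (P.k : ℂ) = (Module.finrank ℚ K : ℂ) / 2 := by
          have : P.k = (Fintype.card (index K) : ℝ) / 2 + ((Jset R).card : ℝ) := rfl
          rw [this, card_index, card_Jset, hR]
          push_cast
          simp
        have hw : wR K R s = (Module.finrank ℚ K : ℂ) * s / 2 := by
          unfold wR
          rw [sum_delta, hR]
          simp
        rw [hk, hw]
        have e1 : (Module.finrank ℚ K : ℂ) / 2 - (Module.finrank ℚ K : ℂ) * s / 2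
            = -((Module.finrank ℚ K : ℂ) * (s - 1) / 2) := by ring
        rw [e1]
        field_simp
        ring
      · have hg0 : P.g₀ = 0 := by
          rw [hP]
          unfold charPairG hPair eJ
          simp only
          rw [if_neg]
          · ring
          · intro h0
            apply hR
            rw [Jset, Finset.map_eq_empty] at h0
            exact h0
        rw [hg0]
        ring
    have hAinv : A⁻¹ = ((Nat.card (torsion K) : ℂ) * ((cst K : ℝ) : ℂ) *
        ψ (b : Ideal (𝓞 K)))⁻¹ *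
        (Ideal.absNorm (b : Ideal (𝓞 K)) : ℂ) ^ s *
        Complex.exp (((Module.finrank ℚ K : ℂ) * s / 2 + (R.card : ℂ) / 2) * Real.log Real.pi) *
        igamR K R s := by
      have e1 : (Ideal.absNorm (b : Ideal (𝓞 K)) : ℂ) ^ (-s)
          = ((Ideal.absNorm (b : Ideal (𝓞 K)) : ℂ) ^ s)⁻¹ := Complex.cpow_neg _ _
      have e2 : piR K R s = (Complex.exp (((Module.finrank ℚ K : ℂ) * s / 2 + (R.card : ℂ) / 2) *
          Real.log Real.pi))⁻¹ := by
        rw [piR, Complex.exp_neg]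
      have e3 : gamR K R s = (igamR K R s)⁻¹ :=
        eq_inv_of_mul_eq_one_left (gamR_mul_igamR K R s hs0)
      rw [hA, e1, e2, e3]
      simp only [mul_inv, inv_inv]
      ring
    rw [hΛ, hAinv, HCcG, ← hP]
    generalize P.Λ₀ (wR K R s) = z1
    generalize P.g₀ = z2
    generalize P.ε = z3
    field_simp
  rw [h3]
  refine h2.congr_fun ?_ |> fun h => h
  intro I
  rw [psi_gen K b hχ, abs_norm_gen, natCast_cpow_neg _ (absNorm_pos K I.1)]
  have hI : (0 : ℝ) < Ideal.absNorm (I.1 : Ideal (𝓞 K)) := by exact_mod_cast absNorm_pos K I.1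
  have hb' : (0 : ℝ) < Ideal.absNorm (b : Ideal (𝓞 K)) := by exact_mod_cast absNorm_pos K b
  have e5 : Complex.exp (-(s * Real.log ((Ideal.absNorm (I.1 : Ideal (𝓞 K)) : ℝ) *
      (Ideal.absNorm (b : Ideal (𝓞 K)) : ℝ))))
      = Complex.exp (-(s * Real.log (Ideal.absNorm (I.1 : Ideal (𝓞 K))))) *
        (Ideal.absNorm (b : Ideal (𝓞 K)) : ℂ) ^ (-s) := by
    rw [natCast_cpow_neg _ (absNorm_pos K b), ← Complex.exp_add, Real.log_mul hI.ne' hb'.ne']
    congr 1
    push_cast
    ring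
  rw [e5]
  have e6 : (Nat.card (torsion K) : ℂ) * (ψ (I.1 : Ideal (𝓞 K)) * ψ (b : Ideal (𝓞 K)) *
      (((cst K : ℝ) : ℂ) * (piR K R s * gamR K R s *
        (Complex.exp (-(s * Real.log (Ideal.absNorm (I.1 : Ideal (𝓞 K))))) *
        (Ideal.absNorm (b : Ideal (𝓞 K)) : ℂ) ^ (-s)))))
      = A * (ψ (I.1 : Ideal (𝓞 K)) *
        Complex.exp (-(s * Real.log (Ideal.absNorm (I.1 : Ideal (𝓞 K)))))) := by
    rw [hA]; ring
  rw [e6, ← mul_assoc, inv_mul_cancel₀ hA0, one_mul]

/-- The entire function `(s - 1) L(s, ψ)`. -/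
def HLG (s : ℂ) : ℂ := ∑ C : ClassGroup (𝓞 K), HCcG K (repC K M C) hχ s

theorem differentiable_HLG : Differentiable ℂ (HLG K hχ) := by
  unfold HLG
  exact Differentiable.fun_sum fun C _ => differentiable_HCcG K _ hχ

theorem hasSum_HLG {s : ℂ} (hs : 1 < s.re) :
    HasSum (fun I : (Ideal (𝓞 K))⁰ => ψ (I : Ideal (𝓞 K)) *
      (Ideal.absNorm (I : Ideal (𝓞 K)) : ℂ) ^ (-s)) (HLG K hχ s / (s - 1)) := by
  unfold HLG
  rw [Finset.sum_div]
  have h1 : ∀ C : ClassGroup (𝓞 K), HasSum (fun I : (Ideal (𝓞 K))⁰ =>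
      if ClassGroup.mk0 I = C then ψ (I : Ideal (𝓞 K)) *
        (Ideal.absNorm (I : Ideal (𝓞 K)) : ℂ) ^ (-s) else 0)
      (HCcG K (repC K M C) hχ s / (s - 1)) := by
    intro C
    have h := HCcG_eq K (repC K M C) hχ (coprime_repC K M C) hs
    have h2 := (hasSum_subtype_iff_indicator (s := {I : (Ideal (𝓞 K))⁰ |
      ClassGroup.mk0 I * ClassGroup.mk0 (repC K M C) = 1})
      (f := fun I : (Ideal (𝓞 K))⁰ => ψ (I : Ideal (𝓞 K)) *
        (Ideal.absNorm (I : Ideal (𝓞 K)) : ℂ) ^ (-s))).mp h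
    refine h2.congr_fun ?_ |> fun h => h
    intro I
    have hiff : (I ∈ {I : (Ideal (𝓞 K))⁰ |
        ClassGroup.mk0 I * ClassGroup.mk0 (repC K M C) = 1}) ↔ ClassGroup.mk0 I = C := by
      rw [Set.mem_ofPred_eq, mk0_repC, mul_inv_eq_one]
    by_cases hI : ClassGroup.mk0 I = C
    · rw [if_pos hI, Set.indicator_of_mem (hiff.mpr hI)]
    · rw [if_neg hI, Set.indicator_of_notMem (fun h => hI (hiff.mp h))]
  have h3 := hasSum_sum (s := Finset.univ) (fun C _ => h1 C)
  refine h3.congr_fun ?_ |> fun h => h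
  intro I
  rw [Finset.sum_ite_eq]
  simp

end Pool.Agent.ARC
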