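import Mathlib
import Pool.Agent.ARC.S1c

/-! # ARC, part S1d: the value at one -/

set_option autoImplicit false
set_option linter.unusedSectionVars false

open MeasureTheory Filter Topology Set

noncomputable section

namespace Pool.Agent.ARC

open NumberField NumberField.Units NumberField.InfinitePlace NumberField.mixedEmbedding
  NumberField.Units.dirichletUnitTheorem nonZeroDivisors IsDedekindDomain Pool.Agent.Helper4

open scoped Classical

variable (K : Type*) [Field K] [NumberField K]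
variable (b : (Ideal (𝓞 K))⁰) {R : Finset (RP K)}
variable {M : ℕ} {ψ : Ideal (𝓞 K) → ℂ} {χ : 𝓞 K → ℂ} (hχ : RelG R M ψ χ) [NeZero M]

/-! ### the value at one -/

lemma eltO_mem (m : index K → ℤ) : eltO K b m ∈ (b : Ideal (𝓞 K)) :=
  (elt_mem K b m).choose_spec.1

lemma eltO_sub (m k : index K → ℤ) : eltO K b (m - k) = eltO K b m - eltO K b k := by
  apply RingOfIntegers.coe_injective
  have h1 : elt K b m = elt K b (m - k) + elt K b k := by rw [← elt_add, sub_add_cancel]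
  have h2 : ((eltO K b (m - k) : 𝓞 K) : K)
      = ((eltO K b m : 𝓞 K) : K) - ((eltO K b k : 𝓞 K) : K) := by
    rw [eltO_coe, eltO_coe, eltO_coe, h1, add_sub_cancel_right]
  simp only [RingOfIntegers.coe_eq_algebraMap, map_sub] at h2 ⊢
  exact h2

/-- residue of the integer with coordinates `r` -/
def resMap (M : ℕ) (r : index K → Fin M) : 𝓞 K ⧸ Ideal.span {(M : 𝓞 K)} :=
  Ideal.Quotient.mk _ (eltO K b (repM r))

lemma resMap_injective (hb : IsCoprime (b : Ideal (𝓞 K)) (Ideal.span {(M : 𝓞 K)})) :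
    Function.Injective (resMap K b M) := by
  intro r r' h
  unfold resMap at h
  rw [Ideal.Quotient.eq, ← eltO_sub] at h
  have h1 : eltO K b (repM r - repM r') ∈ (b : Ideal (𝓞 K)) ⊓ Ideal.span {(M : 𝓞 K)} :=
    ⟨eltO_mem K b _, h⟩
  rw [← (Ideal.isCoprime_iff_sup_eq.mp hb |> fun h' => Ideal.mul_eq_inf_of_coprime h'),
    Ideal.mem_mul_span_singleton] at h1
  obtain ⟨z, hz, hzM⟩ := h1
  obtain ⟨k, hk⟩ := exists_elt K b z hz
  have h2 : elt K b (repM r - repM r') = elt K b ((M : ℤ) • k) := by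
    rw [elt_smul, hk, ← eltO_coe, ← hzM]
    simp only [RingOfIntegers.coe_eq_algebraMap, map_mul, map_natCast]
    push_cast
    ring
  have h3 := elt_injective K b h2
  funext i
  have h4 := congrFun h3 i
  simp only [Pi.sub_apply, Pi.smul_apply, smul_eq_mul, repM] at h4
  have h5 := (r i).2
  have h6 := (r' i).2
  have hM : 0 < (M : ℤ) := by exact_mod_cast Nat.pos_of_ne_zero (NeZero.ne M)
  apply Fin.ext
  have h7 : k i = 0 := by
    by_contra hne
    rcases lt_or_gt_of_ne hne with h8 | h8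
    · nlinarith
    · nlinarith
  rw [h7, mul_zero] at h4
  omega

lemma card_quot_span : Nat.card (𝓞 K ⧸ Ideal.span {(M : 𝓞 K)}) = M ^ Module.finrank ℚ K := by
  have h := Ideal.absNorm_span_natCast (S := 𝓞 K) M
  rw [Ideal.absNorm_apply, Submodule.cardQuot_apply, RingOfIntegers.rank] at h
  exact h

lemma finite_quot_span : Finite (𝓞 K ⧸ Ideal.span {(M : 𝓞 K)}) := by
  apply Nat.finite_of_card_ne_zero
  rw [card_quot_span]
  exact pow_ne_zero _ (NeZero.ne M)

lemma resMap_bijective (hb : IsCoprime (b : Ideal (𝓞 K)) (Ideal.span {(M : 𝓞 K)})) :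
    Function.Bijective (resMap K b M) := by
  have := finite_quot_span K (M := M)
  have : Fintype (𝓞 K ⧸ Ideal.span {(M : 𝓞 K)}) := Fintype.ofFinite _
  rw [Fintype.bijective_iff_injective_and_card]
  refine ⟨resMap_injective K b hb, ?_⟩
  rw [← Nat.card_eq_fintype_card (α := 𝓞 K ⧸ Ideal.span {(M : 𝓞 K)}), card_quot_span,
    Fintype.card_fun, Fintype.card_fin, card_index]

variable (χ M) in
/-- `χ` on the residue ring -/
def chiQ (q : 𝓞 K ⧸ Ideal.span {(M : 𝓞 K)}) : ℂ := χ (Quotient.out q)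

omit [NeZero M] in
include hχ in
lemma chiQ_mk (x : 𝓞 K) : chiQ K M χ (Ideal.Quotient.mk _ x) = χ x := by
  unfold chiQ
  have h1 : Ideal.Quotient.mk (Ideal.span {(M : 𝓞 K)})
      (Quotient.out (Ideal.Quotient.mk (Ideal.span {(M : 𝓞 K)}) x)) = Ideal.Quotient.mk _ x :=
    Quotient.out_eq _
  rw [Ideal.Quotient.eq, Ideal.mem_span_singleton] at h1
  obtain ⟨z, hz⟩ := h1
  have h2 : Quotient.out (Ideal.Quotient.mk (Ideal.span {(M : 𝓞 K)}) x) = x + M * z := by
    linear_combination hz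
  rw [h2, hχ.per]

variable (χ M) in
/-- sum of `χ` over the residues -/
def sumQ : ℂ := ∑ᶠ q : 𝓞 K ⧸ Ideal.span {(M : 𝓞 K)}, chiQ K M χ q

include hχ in
lemma ahat_zero_eq (hb : IsCoprime (b : Ideal (𝓞 K)) (Ideal.span {(M : 𝓞 K)})) :
    ahat M (acoef K b χ) 0 = ((M : ℂ) ^ Module.finrank ℚ K)⁻¹ * sumQ K M χ := by
  unfold ahat
  rw [card_index]
  congr 1
  have := finite_quot_span K (M := M)
  have : Fintype (𝓞 K ⧸ Ideal.span {(M : 𝓞 K)}) := Fintype.ofFinite _
  unfold sumQ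
  rw [finsum_eq_sum_of_fintype, ← Function.Bijective.sum_comp (resMap_bijective K b hb)]
  refine Finset.sum_congr rfl fun r _ => ?_
  have h1 : phase (0 : index K → ℤ) ((M : ℝ)⁻¹ • castVec (repM r)) = 1 := by
    unfold phase; simp
  rw [h1, mul_one, resMap, chiQ_mk K hχ]
  rfl

/-- constant in the value at one -/
def cOne (R : Finset (RP K)) : ℂ :=
  ((Nat.card (torsion K) : ℂ) * ((cst K : ℝ) : ℂ))⁻¹ *
    Complex.exp (((Module.finrank ℚ K : ℂ) * 1 / 2 + (R.card : ℂ) / 2) * Real.log Real.pi) *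
    igamR K R 1 * (2 * ((-Complex.I) ^ (Jset R).card *
      (((exists_covol K).choose⁻¹ : ℝ) : ℂ) *
      (((M : ℂ) ^ Module.finrank ℚ K)⁻¹ * sumQ K M χ * eJ (Jset R) *
        ((volume.real (DD K) : ℝ) : ℂ))) / (Module.finrank ℚ K : ℂ))

lemma HCcG_one (hb : IsCoprime (b : Ideal (𝓞 K)) (Ideal.span {(M : 𝓞 K)})) :
    HCcG K b hχ 1 = cOne K (M := M) (χ := χ) R * (ψ (b : Ideal (𝓞 K)))⁻¹ := by
  unfold HCcG cOne
  have hg : (charPairG K b hχ).g₀ = ahat M (acoef K b χ) 0 * eJ (Jset R) *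
      ((volume.real (DD K) : ℝ) : ℂ) := rfl
  have he : (charPairG K b hχ).ε = rootN (BB K b) (Jset R) := rfl
  rw [hg, he, ahat_zero_eq K b hχ hb]
  unfold rootN
  rw [(exists_covol K).choose_spec.2 b]
  have hbN : (Ideal.absNorm (b : Ideal (𝓞 K)) : ℂ) ≠ 0 := by
    exact_mod_cast (absNorm_pos K b).ne'
  rw [Complex.cpow_one, sub_self, zero_mul, zero_add]
  push_cast
  simp only [mul_inv]
  field_simp

lemma HLG_one_of_sumQ (h : sumQ K M χ * eJ (Jset R) = 0) : HLG K hχ 1 = 0 := by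
  unfold HLG
  apply Finset.sum_eq_zero
  intro C _
  rw [HCcG_one K _ hχ (coprime_repC K M C)]
  unfold cOne
  have h2 : ((M : ℂ) ^ Module.finrank ℚ K)⁻¹ * sumQ K M χ * eJ (Jset R) = 0 := by
    rw [mul_assoc, h, mul_zero]
  rw [h2]
  ring

include hχ in
lemma sumQ_eq_zero {x : 𝓞 K} (hx : IsCoprime x (M : 𝓞 K)) (hx1 : χ x ≠ 1) : sumQ K M χ = 0 := by
  have := finite_quot_span K (M := M)
  have : Fintype (𝓞 K ⧸ Ideal.span {(M : 𝓞 K)}) := Fintype.ofFinite _
  have hu : IsUnit (Ideal.Quotient.mk (Ideal.span {(M : 𝓞 K)}) x) := by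
    obtain ⟨a, b, hab⟩ := hx
    refine IsUnit.of_mul_eq_one (Ideal.Quotient.mk _ a) ?_
    rw [← map_mul, ← map_one (Ideal.Quotient.mk (Ideal.span {(M : 𝓞 K)})),
      Ideal.Quotient.eq, Ideal.mem_span_singleton]
    exact ⟨-b, by linear_combination hab⟩
  have hmul : ∀ q : 𝓞 K ⧸ Ideal.span {(M : 𝓞 K)},
      chiQ K M χ (Ideal.Quotient.mk _ x * q) = χ x * chiQ K M χ q := by
    intro q
    obtain ⟨y, rfl⟩ := Ideal.Quotient.mk_surjective q
    rw [← map_mul, chiQ_mk K hχ, chiQ_mk K hχ, hχ.mul]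
  have h1 : sumQ K M χ = χ x * sumQ K M χ := by
    conv_lhs => unfold sumQ
    rw [finsum_eq_sum_of_fintype, ← Function.Bijective.sum_comp (hu.unit.mulLeft_bijective)]
    unfold sumQ
    rw [finsum_eq_sum_of_fintype, Finset.mul_sum]
    refine Finset.sum_congr rfl fun q _ => ?_
    exact hmul q
  have h2 : (1 - χ x) * sumQ K M χ = 0 := by linear_combination h1
  rcases mul_eq_zero.mp h2 with h3 | h3
  · exact absurd (by linear_combination -h3 : χ x = 1) hx1
  · exact h3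

include hχ in
/-- if `χ = 1` and `R` is empty then `ψ` is a class group character. -/
lemma psi_repC (hR : R = ∅) (h1 : ∀ x : 𝓞 K, IsCoprime x (M : 𝓞 K) → χ x = 1)
    (I : (Ideal (𝓞 K))⁰) (hI : IsCoprime (I : Ideal (𝓞 K)) (Ideal.span {(M : 𝓞 K)})) :
    ψ (I : Ideal (𝓞 K)) * ψ (repC K M (ClassGroup.mk0 I) : Ideal (𝓞 K)) = 1 := by
  have h2 : ClassGroup.mk0 (I * repC K M (ClassGroup.mk0 I)) = 1 := by
    rw [map_mul, mk0_repC, mul_inv_cancel]
  rw [ClassGroup.mk0_eq_one_iff (I * repC K M (ClassGroup.mk0 I)).2] at h2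
  obtain ⟨x, hx⟩ := h2.principal
  rw [← hχ.ray.mul_all]
  have h3 : (I : Ideal (𝓞 K)) * (repC K M (ClassGroup.mk0 I) : Ideal (𝓞 K)) = Ideal.span {x} := hx
  have h4 : IsCoprime (Ideal.span {x}) (Ideal.span {(M : 𝓞 K)}) := by
    rw [← h3]; exact hI.mul_left (coprime_repC K M _)
  rw [h3, hχ.eq x, hR, Finset.prod_empty, mul_one, h1]
  rwa [← Ideal.isCoprime_span_singleton_iff]

theorem HLG_one (hn : ∃ a : Ideal (𝓞 K), IsCoprime a (Ideal.span {(M : 𝓞 K)}) ∧ ψ a ≠ 1) :
    HLG K hχ 1 = 0 := by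
  by_cases hR : R = ∅
  · by_cases h1 : ∀ x : 𝓞 K, IsCoprime x (M : 𝓞 K) → χ x = 1
    · obtain ⟨a, ha, ha1⟩ := hn
      have ha0 : a ≠ 0 := by
        rintro rfl
        have h2 := hχ.ray.norm 0 ha
        have h3 : ψ 0 = 0 := by
          have h4 := hχ.eq 0
          rw [hχ.zero, zero_mul, Ideal.span_singleton_eq_bot.mpr rfl] at h4
          exact h4
        rw [h3, norm_zero] at h2
        exact zero_ne_one h2
      set a' : (Ideal (𝓞 K))⁰ := ⟨a, mem_nonZeroDivisors_of_ne_zero ha0⟩ with ha'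
      -- the class function
      have hf : ∀ C : ClassGroup (𝓞 K),
          (ψ (repC K M (C * ClassGroup.mk0 a') : Ideal (𝓞 K)))⁻¹
            = ψ a * (ψ (repC K M C : Ideal (𝓞 K)))⁻¹ := by
        intro C
        -- an ideal in the class `C`
        obtain ⟨c, hc, hcc⟩ := exists_coprime_rep (K := K) M (NeZero.ne M) C
        have e1 := psi_repC K hχ hR h1 c hcc
        have e2 := psi_repC K hχ hR h1 (c * a') (hcc.mul_left ha)
        rw [hc] at e1
        rw [map_mul, hc] at e2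
        have e3 : ψ ((c * a' : (Ideal (𝓞 K))⁰) : Ideal (𝓞 K)) = ψ (c : Ideal (𝓞 K)) * ψ a :=
          hχ.ray.mul_all _ _
        rw [e3] at e2
        have hP : (ψ (repC K M C : Ideal (𝓞 K)))⁻¹ = ψ (c : Ideal (𝓞 K)) :=
          (eq_inv_of_mul_eq_one_left e1).symm
        have hQ : (ψ (repC K M (C * ClassGroup.mk0 a') : Ideal (𝓞 K)))⁻¹
            = ψ (c : Ideal (𝓞 K)) * ψ a := (eq_inv_of_mul_eq_one_left e2).symm
        rw [hP, hQ, mul_comm]
      have hval : HLG K hχ 1 = cOne K (M := M) (χ := χ) R *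
          ∑ C : ClassGroup (𝓞 K), (ψ (repC K M C : Ideal (𝓞 K)))⁻¹ := by
        unfold HLG
        rw [Finset.mul_sum]
        exact Finset.sum_congr rfl fun C _ => HCcG_one K _ hχ (coprime_repC K M C)
      have hsum : ∑ C : ClassGroup (𝓞 K), (ψ (repC K M C : Ideal (𝓞 K)))⁻¹ = ψ a *
          ∑ C : ClassGroup (𝓞 K), (ψ (repC K M C : Ideal (𝓞 K)))⁻¹ := by
        conv_lhs => rw [← Equiv.sum_comp (Equiv.mulRight (ClassGroup.mk0 a'))]
        rw [Finset.mul_sum]
        exact Finset.sum_congr rfl fun C _ => hf C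
      have h0 : ∑ C : ClassGroup (𝓞 K), (ψ (repC K M C : Ideal (𝓞 K)))⁻¹ = 0 := by
        have h2 : (1 - ψ a) * ∑ C : ClassGroup (𝓞 K), (ψ (repC K M C : Ideal (𝓞 K)))⁻¹ = 0 := by
          linear_combination hsum
        rcases mul_eq_zero.mp h2 with h3 | h3
        · exact absurd (by linear_combination -h3 : ψ a = 1) ha1
        · exact h3
      rw [hval, h0, mul_zero]
    · push Not at h1
      obtain ⟨x, hx, hx1⟩ := h1
      apply HLG_one_of_sumQ
      rw [sumQ_eq_zero K hχ hx hx1, zero_mul]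
  · apply HLG_one_of_sumQ
    have : eJ (Jset R) = 0 := by
      unfold eJ
      rw [if_neg]
      intro h0
      apply hR
      rw [Jset, Finset.map_eq_empty] at h0
      exact h0
    rw [this, mul_zero]

end Pool.Agent.ARC
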