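import Mathlib
import Pool.Agent.ARC.S1d

/-! # ARC, part S1: Hecke L-functions of ray class characters -/

set_option autoImplicit false
set_option linter.unusedSectionVars false

open Filter Topology Set

noncomputable section

namespace Pool.Agent.ARC

open NumberField NumberField.InfinitePlace nonZeroDivisors IsDedekindDomain Pool.Agent.Helper4

variable {K : Type*} [Field K] [NumberField K] {M : ℕ} {ψ : Ideal (𝓞 K) → ℂ}

/-- Euler product of a function with sum over the ideals. -/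
theorem hasProd_of_ray (h : Ray K M ψ) {s : ℂ} (hs : 1 < s.re) {a : ℂ}
    (ha : HasSum (fun I : (Ideal (𝓞 K))⁰ => ψ (I : Ideal (𝓞 K)) *
      (Ideal.absNorm (I : Ideal (𝓞 K)) : ℂ) ^ (-s)) a) :
    HasProd (fun q : PK K => (1 - ψ q.asIdeal *
      (Ideal.absNorm q.asIdeal : ℂ) ^ (-s))⁻¹) a := by
  apply hasProd_ideal _ _ _ _ ha
  · intro q
    rw [norm_mul]
    have h1 := norm_cpow_lt_one q (s := s) (by linarith)
    have h2 := h.norm_le q.asIdeal
    nlinarith [norm_nonneg (ψ q.asIdeal), norm_nonneg ((Ideal.absNorm q.asIdeal : ℂ) ^ (-s))]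
  · intro m
    rw [Multiset.prod_map_mul, ← cpow_prod, ← absNorm_prodM]
    congr 1
    induction m using Multiset.induction_on with
    | empty =>
      have : (prodM (0 : Multiset (PK K)) : Ideal (𝓞 K)) = 1 := by
        change (Multiset.map (fun q : PK K => q.asIdeal) 0).prod = 1
        simp
      rw [this, h.one]
      simp
    | cons a m ih =>
      have : (prodM (a ::ₘ m) : Ideal (𝓞 K)) = a.asIdeal * (prodM m : Ideal (𝓞 K)) := by
        change (Multiset.map (fun q : PK K => q.asIdeal) (a ::ₘ m)).prod = _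
        rw [Multiset.map_cons, Multiset.prod_cons]
        rfl
      rw [this, h.mul_all, Multiset.map_cons, Multiset.prod_cons, ih]

/-- Hecke: `(s - 1) L(s, ψ)` is entire (any `ψ`, the trivial one included). -/
theorem hecke (h : Ray K M ψ) : ∃ H : ℂ → ℂ, Differentiable ℂ H ∧
    (∀ s : ℂ, 1 < s.re → HasSum (fun I : (Ideal (𝓞 K))⁰ => ψ (I : Ideal (𝓞 K)) *
      (Ideal.absNorm (I : Ideal (𝓞 K)) : ℂ) ^ (-s)) (H s / (s - 1))) ∧
    (∀ s : ℂ, 1 < s.re → HasProd (fun q : PK K => (1 - ψ q.asIdeal *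
      (Ideal.absNorm q.asIdeal : ℂ) ^ (-s))⁻¹) (H s / (s - 1))) ∧
    ((∃ a : Ideal (𝓞 K), IsCoprime a (Ideal.span {(M : 𝓞 K)}) ∧ ψ a ≠ 1) → H 1 = 0) := by
  have : NeZero M := ⟨by have := h.two_le; omega⟩
  obtain ⟨R, χ, hχ⟩ := exists_relG h
  exact ⟨HLG K hχ, differentiable_HLG K hχ, fun s hs => hasSum_HLG K hχ hs,
    fun s hs => hasProd_of_ray h hs (hasSum_HLG K hχ hs), HLG_one K hχ⟩

/-- Hecke: `L(s, ψ)` is entire for nontrivial `ψ`. -/
theorem hecke_entire (h : Ray K M ψ)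
    (hn : ∃ a : Ideal (𝓞 K), IsCoprime a (Ideal.span {(M : 𝓞 K)}) ∧ ψ a ≠ 1) :
    ∃ L : ℂ → ℂ, Differentiable ℂ L ∧
    (∀ s : ℂ, 1 < s.re → HasSum (fun I : (Ideal (𝓞 K))⁰ => ψ (I : Ideal (𝓞 K)) *
      (Ideal.absNorm (I : Ideal (𝓞 K)) : ℂ) ^ (-s)) (L s)) ∧
    (∀ s : ℂ, 1 < s.re → HasProd (fun q : PK K => (1 - ψ q.asIdeal *
      (Ideal.absNorm q.asIdeal : ℂ) ^ (-s))⁻¹) (L s)) := by
  obtain ⟨H, hH, hs, hp, h1⟩ := hecke h
  have h1' := h1 hn
  refine ⟨dslope H 1, ?_, ?_, ?_⟩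
  · rw [← differentiableOn_univ] at hH ⊢
    exact (Complex.differentiableOn_dslope (Filter.univ_mem)).mpr hH
  all_goals
    intro s hs1
    have hne : s ≠ 1 := by
      rintro rfl
      simp at hs1
    have e : dslope H 1 s = H s / (s - 1) := by
      rw [dslope_of_ne _ hne, slope_def_field, h1', sub_zero]
    rw [e]
  · exact hs s hs1
  · exact hp s hs1

end Pool.Agent.ARC
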