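import Mathlib
import Pool.Agent.ARC.RB
import Pool.Agent.ARC.S1

/-! # ARC / RC: Euler products of ray characters and induced characters -/

set_option autoImplicit false

noncomputable section

namespace Pool.Agent.ARC

open NumberField Module IsDedekindDomain Pool.Agent.Helper4 Pool.Agent.PGZ

theorem rc_hasSum {z : ℂ} (hz : ‖z‖ < 1) :
    HasSum (fun k : ℕ => z ^ (k + 1) / ((k : ℂ) + 1)) (-Complex.log (1 - z)) := by
  have h1 := Complex.hasSum_taylorSeries_neg_log hz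
  have h2 := (hasSum_nat_add_iff' (f := fun n : ℕ => z ^ n / (n : ℂ)) 1).2 h1
  simpa using h2

theorem rc_multiset (S : Multiset ℂ) (T : ℂ) (hT : ‖T‖ < 1) (hS : ∀ α ∈ S, ‖α‖ = 1) :
    ∃ a : ℂ, HasSum (fun k : ℕ => (S.map (fun α => α ^ (k + 1))).sum * T ^ (k + 1) / ((k : ℂ) + 1))
      a ∧ (S.map (fun α => (1 - α * T)⁻¹)).prod = Complex.exp a := by
  induction S using Multiset.induction_on with
  | empty =>
    refine ⟨0, ?_, by simp⟩
    simp only [Multiset.map_zero, Multiset.sum_zero, zero_mul, zero_div]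
    exact hasSum_zero
  | cons α S ih =>
    obtain ⟨a, ha, he⟩ := ih (fun β hβ => hS β (Multiset.mem_cons_of_mem hβ))
    have hα : ‖α‖ = 1 := hS α (Multiset.mem_cons_self α S)
    have hz : ‖α * T‖ < 1 := by rw [norm_mul, hα, one_mul]; exact hT
    refine ⟨-Complex.log (1 - α * T) + a, ?_, ?_⟩
    · have h1 := (rc_hasSum hz).add ha
      refine h1.congr_fun ?_ |> id
      intro k
      simp only [Multiset.map_cons, Multiset.sum_cons]
      rw [mul_pow]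
      ring
    · have h0 : (1 : ℂ) - α * T ≠ 0 := by
        intro h
        have : α * T = 1 := (sub_eq_zero.1 h).symm
        rw [this, norm_one] at hz
        exact lt_irrefl _ hz
      rw [Multiset.map_cons, Multiset.prod_cons, he, Complex.exp_add, Complex.exp_neg,
        Complex.exp_log h0]

/-- Restriction of a ray character to the ideals prime to a multiple of the modulus. -/
def rcR {K : Type*} [Field K] [NumberField K] (m : ℕ) (c : Ideal (𝓞 K) → ℂ)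
    (a : Ideal (𝓞 K)) : ℂ := open Classical in if IsCoprime a (Ideal.span {(m : 𝓞 K)}) then c a else 0

theorem rc_coprime {K : Type*} [Field K] [NumberField K] {m₁ m : ℕ} (hd : m₁ ∣ m)
    {a : Ideal (𝓞 K)} (ha : IsCoprime a (Ideal.span {(m : 𝓞 K)})) :
    IsCoprime a (Ideal.span {(m₁ : 𝓞 K)}) := by
  refine ha.of_isCoprime_of_dvd_right ?_
  obtain ⟨j, rfl⟩ := hd
  refine ⟨Ideal.span {(j : 𝓞 K)}, ?_⟩
  rw [Ideal.span_singleton_mul_span_singleton, Nat.cast_mul]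

theorem rc_ray {K : Type*} [Field K] [NumberField K] {m₁ m : ℕ} {c : Ideal (𝓞 K) → ℂ}
    (hc : Ray K m₁ c) (hm : m ≠ 0) (hd : m₁ ∣ m) : Ray K m (rcR m c) := by
  classical
  refine ⟨hc.two_le.trans (Nat.le_of_dvd (Nat.pos_of_ne_zero hm) hd), ?_, ?_, ?_, ?_⟩
  · intro a b ha hb
    rw [rcR, rcR, rcR, if_pos ha, if_pos hb, if_pos (ha.mul_left hb),
      hc.mul a b (rc_coprime hd ha) (rc_coprime hd hb)]
  · intro a ha
    rw [rcR, if_neg ha]
  · intro a ha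
    rw [rcR, if_pos ha]
    exact hc.norm a (rc_coprime hd ha)
  · intro x y hxy hw
    have hcop : IsCoprime (Ideal.span {x}) (Ideal.span {(m : 𝓞 K)}) := by
      rw [Ideal.isCoprime_span_singleton_iff]
      exact ⟨1, -y, by rw [hxy]; ring⟩
    rw [rcR, if_pos hcop]
    obtain ⟨j, rfl⟩ := hd
    exact hc.ray x (j * y) (by rw [hxy]; push_cast; ring) hw

variable {F : Type} [Field F] [NumberField F] [IsGalois ℚ F]

theorem rc_dvd {K : Type*} [Field K] [NumberField K] {m p : ℕ} (hp : p ∣ m) (q : PK K)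
    (hq : (p : 𝓞 K) ∈ q.asIdeal) : ¬ IsCoprime q.asIdeal (Ideal.span {(m : 𝓞 K)}) := by
  intro h
  rw [Ideal.isCoprime_iff_sup_eq] at h
  apply q.isPrime.ne_top
  rw [← h]
  symm
  rw [sup_eq_left, Ideal.span_singleton_le_iff_mem]
  obtain ⟨j, rfl⟩ := hp
  rw [Nat.cast_mul]
  exact q.asIdeal.mul_mem_right _ hq

theorem rc_ndvd {K : Type*} [Field K] [NumberField K] {m p : ℕ} (hpp : p.Prime) (hp : ¬ p ∣ m)
    (q : PK K) (hq : (p : 𝓞 K) ∈ q.asIdeal) : IsCoprime q.asIdeal (Ideal.span {(m : 𝓞 K)}) := by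
  rw [Ideal.isCoprime_iff_sup_eq, Ideal.eq_top_iff_one]
  have hcop : IsCoprime (p : ℤ) (m : ℤ) :=
    Nat.isCoprime_iff_coprime.2 ((Nat.Prime.coprime_iff_not_dvd hpp).2 hp)
  obtain ⟨a, b, hab⟩ := hcop
  have h1 : ((a * (p : ℤ) + b * (m : ℤ) : ℤ) : 𝓞 K) = 1 := by rw [hab]; simp
  rw [← h1]
  push_cast
  exact Ideal.add_mem _ (Ideal.mem_sup_left (Ideal.mul_mem_left _ _ hq))
    (Ideal.mem_sup_right (Ideal.mul_mem_left _ _ (Ideal.mem_span_singleton_self _)))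

/-- The Euler factor at a prime not dividing the modulus. -/
theorem rc_local {P : Ideal (𝓞 F)} (hP : P.IsPrime) {p : ℕ} (hp : p.Prime)
    (hpP : ((p : ℕ) : 𝓞 F) ∈ P) (hI : P.inertia (F ≃ₐ[ℚ] F) = ⊥) {σ : F ≃ₐ[ℚ] F}
    (hσ : IsArithFrobAt ℤ σ P) (H : Subgroup (F ≃ₐ[ℚ] F))
    (psi : H →* ℂˣ) (c : Ideal (𝓞 (KH H)) → ℂ) (m₁ : ℕ) (hpm : ¬ p ∣ m₁) (hc : Ray (KH H) m₁ c)
    (hfrob : ∀ Q : Ideal (𝓞 F), Q.IsPrime → (m₁ : 𝓞 F) ∉ Q → ∀ g : F ≃ₐ[KH H] F,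
      IsFrob (KH H) F Q g → c (Q.under (𝓞 (KH H))) =
        psi ((IntermediateField.subgroupEquivAlgEquiv H).symm g)) {s : ℂ} (hs : 0 < s.re) :
    locF (fun q : PK (KH H) => c q.asIdeal * (Ideal.absNorm q.asIdeal : ℂ) ^ (-s)) p =
      EE ⊥ σ (indC H fun h => (psi h : ℂ)) ((p : ℂ) ^ (-s)) := by
  have hT : ‖(p : ℂ) ^ (-s)‖ < 1 := by
    rw [Complex.norm_natCast_cpow_of_pos hp.pos, Complex.neg_re]
    exact Real.rpow_lt_one_of_one_lt_of_neg (by exact_mod_cast hp.one_lt) (by linarith)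
  obtain ⟨a, ha, he⟩ := rc_multiset (specF (KH H) p (fun q => c q.asIdeal)) ((p : ℂ) ^ (-s)) hT
    (fun α hα => norm_of_mem_specF hp (fun q hq => hc.norm _ (rc_ndvd hp hpm q hq)) hα)
  rw [← prod_specF hp, he, EE]
  congr 1
  rw [← ha.tsum_eq]
  apply tsum_congr
  intro k
  rw [rb_sum hP hp hpP hI hσ H psi c m₁ hpm hfrob]
  have h1 : ∑ᶠ t : (⊥ : Subgroup (F ≃ₐ[ℚ] F)), indC H (fun h => (psi h : ℂ)) (σ ^ (k + 1) * t) =
      indC H (fun h => (psi h : ℂ)) (σ ^ (k + 1)) := by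
    rw [finsum_eq_sum_of_fintype, Fintype.sum_unique]
    have h2 : ((default : (⊥ : Subgroup (F ≃ₐ[ℚ] F))) : F ≃ₐ[ℚ] F) = 1 := rfl
    rw [h2, mul_one]
  rw [h1]
  simp

/-- Part R, from a reciprocity character. -/
theorem rcore (H : Subgroup (F ≃ₐ[ℚ] F)) (psi : H →* ℂˣ) (c : Ideal (𝓞 (KH H)) → ℂ) (m₁ : ℕ)
    (hI : ∀ (p : ℕ) (P : Ideal (𝓞 F)), p.Prime → ¬ p ∣ m₁ → P.IsPrime → ((p : ℕ) : 𝓞 F) ∈ P →
      P.inertia (F ≃ₐ[ℚ] F) = ⊥) (hc : Ray (KH H) m₁ c)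
    (hfrob : ∀ Q : Ideal (𝓞 F), Q.IsPrime → (m₁ : 𝓞 F) ∉ Q → ∀ g : F ≃ₐ[KH H] F,
      IsFrob (KH H) F Q g → c (Q.under (𝓞 (KH H))) =
        psi ((IntermediateField.subgroupEquivAlgEquiv H).symm g)) (m : ℕ) (hm : m ≠ 0)
    (hd : m₁ ∣ m) : ∃ D : ℂ → ℂ, Differentiable ℂ D ∧
      ∀ (P : Nat.Primes → Ideal (𝓞 F)) (σ : Nat.Primes → (F ≃ₐ[ℚ] F)) (_ : ∀ p, (P p).IsPrime)
        (_ : ∀ p : Nat.Primes, ((p : ℕ) : 𝓞 F) ∈ P p) (_ : ∀ p, IsArithFrobAt ℤ (σ p) (P p))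
        (s : ℂ), 1 < s.re →
        HasProd (fun p : Nat.Primes => open Classical in if (p : ℕ) ∣ m then 1 else
          EE ⊥ (σ p) (indC H fun h => (psi h : ℂ)) ((p : ℂ) ^ (-s))) (D s / (s - 1)) := by
  classical
  obtain ⟨D, hD, -, hprod, -⟩ := hecke (rc_ray hc hm hd)
  refine ⟨D, hD, fun P σ hP hpP hσ s hs => ?_⟩
  have h1 := hasProd_locF _ (hprod s hs)
  refine h1.congr_fun ?_ |> id
  intro p
  have := finite_Over (K := KH H) p p.2.ne_zero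
  have : Fintype (Over (KH H) p) := Fintype.ofFinite _
  by_cases hpm : (p : ℕ) ∣ m
  · rw [if_pos hpm, locF, finprod_eq_prod_of_fintype]
    symm
    refine Finset.prod_eq_one fun q _ => ?_
    rw [rcR, if_neg (rc_dvd hpm q.1 q.2), zero_mul, sub_zero, inv_one]
  · rw [if_neg hpm]
    have hpm₁ : ¬ (p : ℕ) ∣ m₁ := fun h => hpm (h.trans hd)
    rw [← rc_local (hP p) p.2 (hpP p) (hI p (P p) p.2 hpm₁ (hP p) (hpP p)) (hσ p) H psi c m₁ hpm₁ hc
      hfrob (by linarith)]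
    rw [locF, locF, finprod_eq_prod_of_fintype, finprod_eq_prod_of_fintype]
    refine Finset.prod_congr rfl fun q _ => ?_
    rw [rcR, if_pos (rc_ndvd p.2 hpm q.1 q.2)]

end Pool.Agent.ARC
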