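import Mathlib
import Pool.Agent.ARC.RC
import Pool.Agent.ARC.FUR

/-! # ARC / RD: part R from reciprocity -/

set_option autoImplicit false

noncomputable section

namespace Pool.Agent.ARC

open NumberField Pool.Agent.PGZ

/-- Part R, with weak reciprocity for `F` over the fixed field of `H` as a hypothesis. -/
theorem ray_euler_of (F : Type) [Field F] [NumberField F] [IsGalois ℚ F]
    (H : Subgroup (F ≃ₐ[ℚ] F)) (psi : H →* ℂˣ)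
    (hrec : ∀ (psi' : (F ≃ₐ[KH H] F) →* ℂˣ) (M : ℕ), M ≠ 0 →
      ∃ (m : ℕ) (c : Ideal (𝓞 (KH H)) → ℂ), M ∣ m ∧ Ray (KH H) m c ∧ ∀ Q : Ideal (𝓞 F), Q.IsPrime →
        (m : 𝓞 F) ∉ Q → ∀ g : F ≃ₐ[KH H] F, IsFrob (KH H) F Q g →
          c (Q.under (𝓞 (KH H))) = psi' g) :
    ∃ m₀ : ℕ, m₀ ≠ 0 ∧ ∀ m : ℕ, m ≠ 0 → m₀ ∣ m → ∃ D : ℂ → ℂ, Differentiable ℂ D ∧
      ∀ (P : Nat.Primes → Ideal (𝓞 F)) (σ : Nat.Primes → (F ≃ₐ[ℚ] F)) (_ : ∀ p, (P p).IsPrime)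
        (_ : ∀ p : Nat.Primes, ((p : ℕ) : 𝓞 F) ∈ P p) (_ : ∀ p, IsArithFrobAt ℤ (σ p) (P p))
        (s : ℂ), 1 < s.re →
        HasProd (fun p : Nat.Primes => open Classical in if (p : ℕ) ∣ m then 1 else
          EE ⊥ (σ p) (indC H fun h => (psi h : ℂ)) ((p : ℂ) ^ (-s))) (D s / (s - 1)) := by
  obtain ⟨M, hM, hI⟩ := fur F
  obtain ⟨m₁, c, hd, hc, hfrob⟩ := hrec
    (psi.comp (IntermediateField.subgroupEquivAlgEquiv H).symm.toMonoidHom) M hM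
  refine ⟨m₁, by have := hc.two_le; omega, fun m hm hdm => ?_⟩
  exact rcore H psi c m₁ (fun p P hp hpm hP hpP => hI p P hp (fun h => hpm (h.trans hd)) hP hpP) hc
    (fun Q hQ hmQ g hg => hfrob Q hQ hmQ g hg) m hm hdm

end Pool.Agent.ARC
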