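import Mathlib
import Pool.Agent.ARC.Defs

/-! # ARC WFrA: basic facts on Frobenius elements (`IsFrob` of Defs) -/

set_option autoImplicit false

noncomputable section

namespace Pool.Agent.ARC

open NumberField Module nonZeroDivisors Pool.Agent.Helper4

variable (K F : Type) [Field K] [NumberField K] [Field F] [NumberField F] [Algebra K F]

private theorem WFrA_smul_coe (g : F ≃ₐ[K] F) (x : 𝓞 F) : ((g • x : 𝓞 F) : F) = g (x : F) := rfl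

private theorem WFrA_smul_algebraMap (g : F ≃ₐ[K] F) (a : 𝓞 K) :
    g • (algebraMap (𝓞 K) (𝓞 F) a) = algebraMap (𝓞 K) (𝓞 F) a := by
  apply RingOfIntegers.ext
  rw [WFrA_smul_coe]
  have h : ((algebraMap (𝓞 K) (𝓞 F) a : 𝓞 F) : F) = algebraMap K F (a : K) := rfl
  rw [h, AlgEquiv.commutes]

private theorem WFrA_comm : SMulCommClass (F ≃ₐ[K] F) (𝓞 K) (𝓞 F) := by
  refine ⟨fun g a x => ?_⟩
  rw [Algebra.smul_def, Algebra.smul_def, smul_mul', WFrA_smul_algebraMap]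

private theorem WFrA_inv [IsGalois K F] : Algebra.IsInvariant (𝓞 K) (𝓞 F) (F ≃ₐ[K] F) := by
  refine ⟨fun b hb => ?_⟩
  have h1 : (b : F) ∈ Set.range (algebraMap K F) := by
    rw [IsGalois.mem_range_algebraMap_iff_fixed]
    intro g
    rw [← WFrA_smul_coe, hb g]
  obtain ⟨a, ha⟩ := h1
  have h2 : IsIntegral ℤ a := by
    have h3 : IsIntegral ℤ (algebraMap K F a) := by
      rw [ha]
      exact RingOfIntegers.isIntegral_coe b
    exact (isIntegral_algebraMap_iff (algebraMap K F).injective).1 h3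
  refine ⟨⟨a, h2⟩, ?_⟩
  apply RingOfIntegers.ext
  exact ha

theorem frob_ne_bot (Q : Ideal (𝓞 F)) (g : F ≃ₐ[K] F) (hg : IsFrob K F Q g) : Q ≠ ⊥ := by
  rintro rfl
  have h := hg 0
  have h1 : (⊥ : Ideal (𝓞 F)).under (𝓞 K) = ⊥ := by
    rw [Ideal.under_def]
    exact Ideal.comap_bot_of_injective _ (FaithfulSMul.algebraMap_injective (𝓞 K) (𝓞 F))
  rw [h1, Ideal.absNorm_bot, pow_zero, smul_zero, Ideal.mem_bot] at h
  norm_num at h

theorem frob_exists [IsGalois K F] (Q : Ideal (𝓞 F)) (hQ : Q.IsPrime) (h0 : Q ≠ ⊥) :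
    ∃ g : F ≃ₐ[K] F, IsFrob K F Q g := by
  have := WFrA_comm K F
  have := WFrA_inv K F
  have : Finite (𝓞 F ⧸ Q) := Ideal.finiteQuotientOfFreeOfNeBot Q h0
  obtain ⟨g, hg⟩ := IsArithFrobAt.exists_of_isInvariant (𝓞 K) (F ≃ₐ[K] F) Q
  refine ⟨g, fun x => ?_⟩
  have h := hg x
  rw [Ideal.absNorm_apply, Submodule.cardQuot_apply]
  exact h

theorem frob_conj (Q : Ideal (𝓞 F)) (hQ : Q.IsPrime) (g : F ≃ₐ[K] F) (hg : IsFrob K F Q g)
    (Q' : Ideal (𝓞 F)) (t : F ≃ₐ[K] F) (hQ' : ∀ x : 𝓞 F, t • x ∈ Q' ↔ x ∈ Q) :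
    Q'.under (𝓞 K) = Q.under (𝓞 K) ∧ IsFrob K F Q' (t * g * t⁻¹) := by
  have h1 : Q'.under (𝓞 K) = Q.under (𝓞 K) := by
    ext a
    rw [Ideal.mem_comap, Ideal.mem_comap, ← hQ', WFrA_smul_algebraMap]
  refine ⟨h1, fun x => ?_⟩
  have h2 := (hQ' (g • (t⁻¹ • x) - (t⁻¹ • x) ^ Ideal.absNorm (Q.under (𝓞 K)))).2 (hg (t⁻¹ • x))
  rw [smul_sub, smul_pow', smul_inv_smul, ← mul_smul, ← mul_smul] at h2
  rw [h1]
  exact h2

theorem frob_unique (M : ℕ) (hU : Unr K F M) (Q : Ideal (𝓞 F)) (hQ : Q.IsPrime)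
    (hM : (M : 𝓞 F) ∉ Q) (g g' : F ≃ₐ[K] F) (hg : IsFrob K F Q g) (hg' : IsFrob K F Q g') :
    g = g' := by
  have h := hU Q hQ hM (g * g'⁻¹) (fun x => ?_)
  · exact mul_inv_eq_one.1 h
  · have h1 := sub_mem (hg (g'⁻¹ • x)) (hg' (g'⁻¹ • x))
    rw [sub_sub_sub_cancel_right, smul_inv_smul, ← mul_smul] at h1
    exact h1

theorem frob_trans [IsGalois K F] (Q Q' : Ideal (𝓞 F)) (hQ : Q.IsPrime) (hQ' : Q'.IsPrime)
    (h : Q.under (𝓞 K) = Q'.under (𝓞 K)) : ∃ t : F ≃ₐ[K] F, ∀ x : 𝓞 F, t • x ∈ Q' ↔ x ∈ Q := by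
  have := WFrA_comm K F
  have := WFrA_inv K F
  obtain ⟨t, ht⟩ := Algebra.IsInvariant.exists_smul_of_under_eq (𝓞 K) (𝓞 F) (F ≃ₐ[K] F) Q Q' h
  refine ⟨t, fun x => ?_⟩
  rw [ht]
  exact Ideal.smul_mem_pointwise_smul_iff

theorem prime_above (q : Ideal (𝓞 K)) (hq : q.IsPrime) :
    ∃ Q : Ideal (𝓞 F), Q.IsPrime ∧ Q.under (𝓞 K) = q := by
  have h : RingHom.ker (algebraMap (𝓞 K) (𝓞 F)) ≤ q := by
    rw [(RingHom.injective_iff_ker_eq_bot _).1 (FaithfulSMul.algebraMap_injective (𝓞 K) (𝓞 F))]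
    exact bot_le
  obtain ⟨Q, -, hQ, hQq⟩ := Ideal.exists_ideal_over_prime_of_isIntegral (S := 𝓞 F) q ⊥ h
  exact ⟨Q, hQ, hQq⟩

theorem frob_root (Q : Ideal (𝓞 F)) (hQ : Q.IsPrime) (g : F ≃ₐ[K] F) (hg : IsFrob K F Q g)
    (z : F) (q : ℕ) (hz : z ^ q = 1) (hq : (q : 𝓞 F) ∉ Q) :
    g z = z ^ Ideal.absNorm (Q.under (𝓞 K)) := by
  have := WFrA_comm K F
  have hq0 : q ≠ 0 := by
    rintro rfl
    exact hq (by simp)
  have hint : IsIntegral ℤ z := IsIntegral.of_pow (Nat.pos_of_ne_zero hq0) (by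
    rw [hz]
    exact isIntegral_one)
  have hfr : IsArithFrobAt (𝓞 K) g Q := by
    intro x
    have h := hg x
    rw [Ideal.absNorm_apply, Submodule.cardQuot_apply] at h
    exact h
  have hz1 : (⟨z, hint⟩ : 𝓞 F) ^ q = 1 := by
    apply RingOfIntegers.ext
    exact hz
  have h := AlgHom.IsArithFrobAt.apply_of_pow_eq_one hfr hz1 hq
  have h2 := congrArg (fun y : 𝓞 F => (y : F)) h
  rw [Ideal.absNorm_apply, Submodule.cardQuot_apply]
  exact h2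

end Pool.Agent.ARC
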