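import Mathlib
import Pool.Agent.ARC.Defs
import Pool.Agent.ARC.WFrA

/-! # ARC WArt
Existence of the Artin map. For a prime q ≠ ⊥ of 𝓞 K with M ∉ q choose Q above q (prime_above; Q ≠ ⊥) and a Frobenius
element g at Q (frob_exists); a0 q := (e g).toAdd; a0 q := 0 for the other q. a I := sum of a0 over UniqueFactorizationMonoid.normalizedFactors
I (additive on nonzero ideals; a ⊥ = 0; a q = a0 q for a prime q ≠ ⊥). frob: Q ≠ ⊥ by frob_ne_bot, q = Q.under (𝓞 K), M ∉ q; the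
chosen Q0 and Q are conjugate (frob_trans), t g0 t⁻¹ is a Frobenius element at Q (frob_conj), equal to g by frob_unique, and e has
values in a commutative group.
-/

set_option autoImplicit false

noncomputable section

namespace Pool.Agent.ARC

open NumberField Module nonZeroDivisors Pool.Agent.Helper4

variable (K F : Type) [Field K] [NumberField K] [Field F] [NumberField F] [Algebra K F]

private theorem WArt_ex [IsGalois K F] (q : Ideal (𝓞 K)) (hq : q.IsPrime) (h0 : q ≠ ⊥) :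
    ∃ p : Ideal (𝓞 F) × (F ≃ₐ[K] F), p.1.IsPrime ∧ p.1.under (𝓞 K) = q ∧ IsFrob K F p.1 p.2 := by
  obtain ⟨Q, hQ, hQq⟩ := prime_above K F q hq
  have hQ0 : Q ≠ ⊥ := by
    rintro rfl
    apply h0
    rw [← hQq]
    exact Ideal.comap_bot_of_injective _ (FaithfulSMul.algebraMap_injective (𝓞 K) (𝓞 F))
  obtain ⟨g, hg⟩ := frob_exists K F Q hQ hQ0
  exact ⟨(Q, g), hQ, hQq, hg⟩

private def WArt_a0 [IsGalois K F] (n M : ℕ) (e : (F ≃ₐ[K] F) →* Multiplicative (ZMod n))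
    (q : Ideal (𝓞 K)) : ZMod n :=
  open Classical in
  if h : q.IsPrime ∧ q ≠ ⊥ ∧ (M : 𝓞 K) ∉ q then
    (e (WArt_ex K F q h.1 h.2.1).choose.2).toAdd else 0

private def WArt_a [IsGalois K F] (n M : ℕ) (e : (F ≃ₐ[K] F) →* Multiplicative (ZMod n))
    (I : Ideal (𝓞 K)) : ZMod n :=
  (Multiset.map (WArt_a0 K F n M e) (UniqueFactorizationMonoid.normalizedFactors I)).sum

private theorem WArt_bot [IsGalois K F] (n M : ℕ) (e : (F ≃ₐ[K] F) →* Multiplicative (ZMod n)) :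
    WArt_a K F n M e ⊥ = 0 := by
  unfold WArt_a
  rw [← Ideal.zero_eq_bot, UniqueFactorizationMonoid.normalizedFactors_zero]
  rfl

private theorem WArt_prime [IsGalois K F] (n M : ℕ) (e : (F ≃ₐ[K] F) →* Multiplicative (ZMod n))
    (q : Ideal (𝓞 K)) (hq : q.IsPrime) (h0 : q ≠ ⊥) :
    WArt_a K F n M e q = WArt_a0 K F n M e q := by
  unfold WArt_a
  have h1 : Irreducible q := (Ideal.prime_of_isPrime h0 hq).irreducible
  rw [UniqueFactorizationMonoid.normalizedFactors_irreducible h1, normalize_eq,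
    Multiset.map_singleton, Multiset.sum_singleton]

theorem exists_art [IsGalois K F] (n M : ℕ) (hM : M ≠ 0) (hU : Unr K F M)
    (e : (F ≃ₐ[K] F) →* Multiplicative (ZMod n)) :
    ∃ a : Ideal (𝓞 K) → ZMod n, IsArt K F n M e a ∧ a ⊥ = 0 ∧
      ∀ q : Ideal (𝓞 K), q.IsPrime → (M : 𝓞 K) ∈ q → a q = 0 := by
  refine ⟨WArt_a K F n M e, ⟨?_, ?_⟩, WArt_bot K F n M e, ?_⟩
  · intro I J hI hJ
    unfold WArt_a
    rw [UniqueFactorizationMonoid.normalizedFactors_mul hI hJ, Multiset.map_add,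
      Multiset.sum_add]
  · intro Q hQ hMQ g hg
    have hqp : (Q.under (𝓞 K)).IsPrime := inferInstance
    have h0 : Q.under (𝓞 K) ≠ ⊥ := by
      intro h
      have h1 := hg 0
      rw [h, Ideal.absNorm_bot, smul_zero, pow_zero, zero_sub, neg_mem_iff] at h1
      exact hQ.ne_top ((Ideal.eq_top_iff_one Q).2 h1)
    have hMq : (M : 𝓞 K) ∉ Q.under (𝓞 K) := by
      intro h
      apply hMQ
      have h1 : algebraMap (𝓞 K) (𝓞 F) (M : 𝓞 K) ∈ Q := h
      rwa [map_natCast] at h1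
    have hc : (Q.under (𝓞 K)).IsPrime ∧ Q.under (𝓞 K) ≠ ⊥ ∧ (M : 𝓞 K) ∉ Q.under (𝓞 K) :=
      ⟨hqp, h0, hMq⟩
    rw [WArt_prime K F n M e _ hqp h0]
    unfold WArt_a0
    rw [dif_pos hc]
    obtain ⟨hQ0, hQ0q, hg0⟩ := (WArt_ex K F (Q.under (𝓞 K)) hc.1 hc.2.1).choose_spec
    set p := (WArt_ex K F (Q.under (𝓞 K)) hc.1 hc.2.1).choose with hp
    obtain ⟨t, ht⟩ := frob_trans K F p.1 Q hQ0 hQ hQ0q
    have h1 := (frob_conj K F p.1 hQ0 p.2 hg0 Q t ht).2
    have h2 := frob_unique K F M hU Q hQ hMQ g (t * p.2 * t⁻¹) hg h1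
    have h3 : e (t * p.2 * t⁻¹) = e p.2 := by
      rw [map_mul e (t * p.2) t⁻¹, map_mul e t p.2, map_inv e t, mul_comm (e t) (e p.2),
        mul_inv_cancel_right]
    rw [h2, h3]
  · intro q hq hMq
    by_cases h0 : q = ⊥
    · rw [h0]
      exact WArt_bot K F n M e
    · rw [WArt_prime K F n M e q hq h0]
      unfold WArt_a0
      rw [dif_neg]
      exact fun h => h.2.2 hMq

end Pool.Agent.ARC
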