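import Mathlib
import Pool.Agent.ARC.Defs

/-! # ARC WAux
Auxiliary primes (elementary). Choose r ≥ max(k, 2) with l^r > D; y := x^(l^(r-1)), Φ := 1 + y + ... + y^(l-1) (y ≥ 2, y a
square-type power). A prime q ∣ Φ with q ≠ l works: y^l = 1 mod q and y ≠ 1 mod q (else Φ = l mod q, q ∣ l), so orderOf x divides l^r and not
l^(r-1), orderOf (x : ZMod q) = l^r (orderOf_eq_prime_pow); q ∤ x because Φ = 1 mod x; q > q - 1 ≥ l^r > D, so q ∤ D.
Existence of q ≠ l: otherwise Φ = l^s, s ≥ 1. Then y^l = 1 mod l, so y = 1 mod l. l odd: y = 1 + l t, Φ = Σ (1 + i l t) = l + l t l(l-1)/2 = l mod l^2, so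
Φ = l; but Φ ≥ 1 + 2 + ... + 2^(l-1) = 2^l - 1 > l. l = 2: y is an odd square (r ≥ 2), y = 1 mod 4, Φ = 1 + y = 2 mod 4, so Φ = 2, y = 1, contradiction.
-/

set_option autoImplicit false

noncomputable section

namespace Pool.Agent.ARC

open NumberField Module nonZeroDivisors Pool.Agent.Helper4


private theorem WAux_prime (l s x : ℕ) (hl : l.Prime) (hs : 1 ≤ s) (hx : 2 ≤ x) :
    ∃ q : ℕ, q.Prime ∧ q ≠ l ∧ q ∣ ∑ i ∈ Finset.range l, (x ^ l ^ s) ^ i := by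
  have : Fact l.Prime := ⟨hl⟩
  obtain ⟨y, hy⟩ : ∃ y : ℕ, y = x ^ l ^ s := ⟨_, rfl⟩
  rw [← hy]
  have hls : l ^ s ≠ 0 := pow_ne_zero _ hl.ne_zero
  have hy2 : 2 ≤ y := by
    rw [hy]
    exact hx.trans (Nat.le_self_pow hls x)
  by_contra hcon
  push Not at hcon
  obtain ⟨Φ, hΦ⟩ : ∃ Φ : ℕ, Φ = ∑ i ∈ Finset.range l, y ^ i := ⟨_, rfl⟩
  rw [← hΦ] at hcon
  have hgt : l < Φ := by
    have h1 : ∀ i ∈ Finset.range l, (if i = 0 then 1 else 2) ≤ y ^ i := by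
      intro i _
      by_cases hi : i = 0
      · rw [if_pos hi, hi, pow_zero]
      · rw [if_neg hi]
        exact hy2.trans (Nat.le_self_pow hi y)
    have h2 := Finset.sum_le_sum h1
    rw [← hΦ] at h2
    have h3 : ∑ i ∈ Finset.range l, (if i = 0 then 1 else 2) = 2 * l - 1 := by
      obtain ⟨m, rfl⟩ : ∃ m, l = m + 1 := ⟨l - 1, by have := hl.pos; omega⟩
      rw [Finset.sum_range_succ']
      simp
      omega
    rw [h3] at h2
    have := hl.two_le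
    omega
  have hΦ0 : Φ ≠ 0 := by omega
  have hpow : Φ = l ^ Φ.primeFactorsList.length :=
    Nat.eq_prime_pow_of_unique_prime_dvd hΦ0 fun {d} hd hdΦ => by
      by_contra hne
      exact hcon d hd hne hdΦ
  obtain ⟨m, hm⟩ : ∃ m, m = Φ.primeFactorsList.length := ⟨_, rfl⟩
  rw [← hm] at hpow
  have hm2 : 2 ≤ m := by
    by_contra hlt
    have h1 : m ≤ 1 := by omega
    have h2 : l ^ m ≤ l ^ 1 := Nat.pow_le_pow_right hl.pos h1
    rw [pow_one, ← hpow] at h2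
    omega
  have hdvd : l ^ 2 ∣ Φ := by
    rw [hpow]
    exact pow_dvd_pow _ hm2
  have hgeom : Φ * (y - 1) = y ^ l - 1 := by
    rw [hΦ]
    exact geom_sum_mul_of_one_le (by omega) l
  have hl1 : l ∣ y - 1 := by
    have h1 : ((y : ZMod l)) ^ l = y := ZMod.pow_card _
    have h2 : (Φ : ZMod l) = 0 := by
      rw [ZMod.natCast_eq_zero_iff]
      exact (dvd_pow_self l two_ne_zero).trans hdvd
    have h3 := congrArg (Nat.cast : ℕ → ZMod l) hgeom
    rw [Nat.cast_mul, h2, zero_mul, Nat.cast_sub (Nat.one_le_pow _ _ (by omega)), Nat.cast_pow, h1] at h3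
    rw [← ZMod.natCast_eq_zero_iff, Nat.cast_sub (by omega)]
    exact h3.symm
  have hly : ¬ l ∣ y := by
    intro h
    have h1 := (Nat.dvd_sub_iff_right (by omega : 1 ≤ y) h).1 hl1
    exact hl.one_lt.ne' (Nat.dvd_one.1 h1)
  rcases hl.eq_two_or_odd' with h2 | hodd
  · subst h2
    have hΦ2 : Φ = 1 + y := by
      rw [hΦ, Finset.sum_range_succ, Finset.sum_range_one]
      ring
    obtain ⟨z, hz⟩ : ∃ z : ℕ, y = z ^ 2 := by
      refine ⟨x ^ 2 ^ (s - 1), ?_⟩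
      rw [hy, ← pow_mul, ← pow_succ]
      congr 2
      omega
    rw [hΦ2, hz] at hdvd
    have h5 : (1 + z ^ 2) % 4 = 0 := Nat.mod_eq_zero_of_dvd hdvd
    have h6 : z % 4 = 0 ∨ z % 4 = 1 ∨ z % 4 = 2 ∨ z % 4 = 3 := by omega
    rcases h6 with h6 | h6 | h6 | h6 <;> simp [pow_two, Nat.add_mod, Nat.mul_mod, h6] at h5
  · have h1 := padicValNat.pow_sub_pow hodd (by omega : 1 < y) hl1 hly hl.ne_zero
    rw [one_pow, ← hgeom, padicValNat.mul hΦ0 (by omega), padicValNat_self] at h1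
    have h2 : 2 ≤ padicValNat l Φ := by
      rw [← padicValNat_dvd_iff_le hΦ0]
      exact hdvd
    omega

theorem exists_aux (l k x D : ℕ) (hl : l.Prime) (hx : 2 ≤ x) (hD : D ≠ 0) :
    ∃ q : ℕ, q.Prime ∧ ¬ q ∣ D ∧ ¬ q ∣ x ∧ l ^ k ∣ orderOf (x : ZMod q) := by
  obtain ⟨s, hs⟩ : ∃ s : ℕ, s = k + 1 + D := ⟨_, rfl⟩
  obtain ⟨q, hq, hql, hqΦ⟩ := WAux_prime l s x hl (by omega) hx
  have : Fact l.Prime := ⟨hl⟩
  have : Fact q.Prime := ⟨hq⟩
  have h0 : (∑ i ∈ Finset.range l, ((x : ZMod q) ^ l ^ s) ^ i) = 0 := by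
    have h1 := (ZMod.natCast_eq_zero_iff _ _).2 hqΦ
    push_cast at h1
    exact h1
  have hfin : (x : ZMod q) ^ l ^ (s + 1) = 1 := by
    have h1 := mul_geom_sum ((x : ZMod q) ^ l ^ s) l
    rw [h0, mul_zero, ← pow_mul, ← pow_succ] at h1
    exact (sub_eq_zero.1 h1.symm)
  have hnot : ¬ (x : ZMod q) ^ l ^ s = 1 := by
    intro h1
    rw [h1] at h0
    simp at h0
    have h2 := (ZMod.natCast_eq_zero_iff _ _).1 h0
    exact hql ((Nat.prime_dvd_prime_iff_eq hq hl).1 h2)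
  have hord : orderOf (x : ZMod q) = l ^ (s + 1) := orderOf_eq_prime_pow hnot hfin
  have hx0 : (x : ZMod q) ≠ 0 := by
    intro h1
    rw [h1, zero_pow (pow_ne_zero _ hl.ne_zero)] at hfin
    exact zero_ne_one hfin
  refine ⟨q, hq, ?_, ?_, ?_⟩
  · intro hqD
    have h1 := ZMod.orderOf_dvd_card_sub_one hx0
    rw [hord] at h1
    have h2 := Nat.le_of_dvd (by have := hq.two_le; omega) h1
    have h3 := Nat.le_of_dvd (Nat.pos_of_ne_zero hD) hqD
    have h4 : D < 2 ^ D := Nat.lt_two_pow_self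
    have h5 : 2 ^ D ≤ l ^ (s + 1) :=
      (Nat.pow_le_pow_left hl.two_le D).trans (Nat.pow_le_pow_right hl.pos (by omega))
    omega
  · intro h1
    exact hx0 ((ZMod.natCast_eq_zero_iff _ _).2 h1)
  · rw [hord]
    exact pow_dvd_pow _ (by omega)

end Pool.Agent.ARC
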