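import Mathlib
import Pool.Agent.ARC.Defs

/-! # ARC WIrr
Irreducibility of cyclotomic polynomials of prime order over F if q is unramified in F. Take a prime Q of 𝓞 F above q (m ∉ Q because
q ∤ m: Q ∩ ℤ = qℤ). The inertia group of Q over ℚ is trivial (hU), so the ramification index is 1 (Mathlib
Ideal.card_inertia_eq_ramificationIdxIn), hence
(q : 𝓞 F) ∉ Q^2. The polynomial (cyclotomic q (𝓞 F)).comp (X + 1) is Eisenstein at Q: non-leading coefficients are divisible by q (Mathlib
cyclotomic_comp_X_add_one_isEisensteinAt over ℤ, map to 𝓞 F), constant coefficient = cyclotomic q at 1 = q ∉ Q^2. So it is irreducible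
over 𝓞 F (Polynomial.IsEisensteinAt.irreducible, monic), then cyclotomic q (𝓞 F) is, and over F by the Gauss lemma
(Polynomial.Monic.irreducible_iff_irreducible_map_fraction_map, 𝓞 F integrally closed).
-/

set_option autoImplicit false

noncomputable section

namespace Pool.Agent.ARC

open NumberField Module nonZeroDivisors Pool.Agent.Helper4

private lemma WIrr_not_mem_sq (F : Type) [Field F] [NumberField F] [IsGalois ℚ F] (m : ℕ)
    (hU : Unr ℚ F m) (q : ℕ) (hq : q.Prime) (Q : Ideal (𝓞 F)) [Q.IsPrime]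
    [Q.LiesOver (Ideal.span {(q : ℤ)})] (hm : (m : 𝓞 F) ∉ Q) : (q : 𝓞 F) ∉ Q ^ 2 := by
  have hq0 : (q : ℤ) ≠ 0 := by exact_mod_cast hq.ne_zero
  have hp : (Ideal.span {(q : ℤ)}).IsPrime :=
    (Ideal.span_singleton_prime hq0).mpr (Nat.prime_iff_prime_int.mp hq)
  have hpm : (Ideal.span {(q : ℤ)}).IsMaximal := hp.isMaximal (by simpa using hq0)
  have := IsGaloisGroup.of_isFractionRing Gal(F/ℚ) ℤ (𝓞 F) ℚ F
  have hfin : Finite (ℤ ⧸ Ideal.span {(q : ℤ)}) := by
    have := Fact.mk hq
    exact Finite.of_equiv _ (Int.quotientSpanEquivZMod q).symm.toEquiv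
  have hfin2 : Finite (Ideal.span {(q : ℤ)}).ResidueField := by
    exact Finite.of_surjective _
      (Ideal.bijective_algebraMap_quotient_residueField (Ideal.span {(q : ℤ)})).2
  have h1 : Nat.card (Q.inertia Gal(F/ℚ)) = 1 := by
    rw [Nat.card_eq_one_iff_unique]
    refine ⟨⟨fun a b => ?_⟩, ⟨1⟩⟩
    apply Subtype.ext
    rw [hU Q inferInstance hm a.1 a.2, hU Q inferInstance hm b.1 b.2]
  have h2 := Ideal.card_inertia_eq_ramificationIdxIn (G := Gal(F/ℚ)) (Ideal.span {(q : ℤ)}) Q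
  rw [h1, Ideal.ramificationIdxIn_eq_ramificationIdx (Ideal.span {(q : ℤ)}) Q Gal(F/ℚ)] at h2
  have hmap : (Ideal.span {(q : ℤ)}).map (algebraMap ℤ (𝓞 F)) = Ideal.span {(q : 𝓞 F)} := by
    rw [Ideal.map_span, Set.image_singleton]
    simp
  have hne : (Ideal.span {(q : ℤ)}).map (algebraMap ℤ (𝓞 F)) ≠ ⊥ := by
    rw [hmap, Ne, Ideal.span_singleton_eq_bot]
    exact_mod_cast hq.ne_zero
  rw [Ideal.IsDedekindDomain.ramificationIdx_eq_multiplicity (Ideal.span {(q : ℤ)}) Q hne] at h2
  intro hmem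
  have hdvd : Q ^ 2 ∣ (Ideal.span {(q : ℤ)}).map (algebraMap ℤ (𝓞 F)) := by
    rw [Ideal.dvd_iff_le, hmap, Ideal.span_singleton_le_iff_mem]
    exact hmem
  have hQne : ¬ IsUnit Q := by
    rw [Ideal.isUnit_iff]
    exact Ideal.IsPrime.ne_top inferInstance
  have hfm : FiniteMultiplicity Q ((Ideal.span {(q : ℤ)}).map (algebraMap ℤ (𝓞 F))) :=
    FiniteMultiplicity.of_not_isUnit hQne hne
  have h3 := hfm.le_multiplicity_of_pow_dvd hdvd
  omega

theorem cyclo_irr (F : Type) [Field F] [NumberField F] [IsGalois ℚ F] (m : ℕ) (hm : m ≠ 0)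
    (hU : Unr ℚ F m) (q : ℕ) (hq : q.Prime) (hqm : ¬ q ∣ m) :
    Irreducible (Polynomial.cyclotomic q F) := by
  have hq0 : (q : ℤ) ≠ 0 := by exact_mod_cast hq.ne_zero
  have hp : (Ideal.span {(q : ℤ)}).IsPrime :=
    (Ideal.span_singleton_prime hq0).mpr (Nat.prime_iff_prime_int.mp hq)
  have hfact := Fact.mk hq
  obtain ⟨⟨Q, hQ, hQl⟩⟩ :=
    (inferInstance : Nonempty ((Ideal.span {(q : ℤ)}).primesOver (𝓞 F)))
  have hmem : ∀ z : ℤ, (z : 𝓞 F) ∈ Q ↔ (q : ℤ) ∣ z := by
    intro z
    rw [← Ideal.mem_span_singleton, hQl.over, Ideal.under_def, Ideal.mem_comap]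
    simp
  have hmQ : (m : 𝓞 F) ∉ Q := by
    intro h
    have h1 := (hmem m).mp (by exact_mod_cast h)
    exact hqm (by exact_mod_cast h1)
  have hsq := WIrr_not_mem_sq F m hU q hq Q hmQ
  have hE := cyclotomic_comp_X_add_one_isEisensteinAt (p := q)
  set P : Polynomial ℤ := (Polynomial.cyclotomic q ℤ).comp (Polynomial.X + 1) with hP
  have hmon : P.Monic := by
    rw [hP]
    exact (Polynomial.cyclotomic.monic q ℤ).comp (Polynomial.monic_X_add_C 1)
      (by
        have h1 : (Polynomial.X + 1 : Polynomial ℤ).natDegree = 1 :=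
          Polynomial.natDegree_X_add_C 1
        rw [h1]; norm_num)
  have hmon2 : (P.map (algebraMap ℤ (𝓞 F))).Monic := hmon.map _
  have hE2 : (P.map (algebraMap ℤ (𝓞 F))).IsEisensteinAt Q := by
    refine ⟨?_, ?_, ?_⟩
    · rw [hmon2.leadingCoeff]
      exact (Ideal.ne_top_iff_one Q).mp hQ.ne_top
    · intro n hn
      rw [hmon.natDegree_map] at hn
      rw [Polynomial.coeff_map]
      have h1 := hE.mem hn
      have h2 : (q : ℤ) ∣ P.coeff n := by
        rw [← Ideal.mem_span_singleton]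
        exact h1
      exact (hmem _).mpr h2
    · have h0 : P.coeff 0 = q := by
        rw [Polynomial.coeff_zero_eq_eval_zero, hP, Polynomial.eval_comp]
        simp [Polynomial.eval_one_cyclotomic_prime]
      rw [Polynomial.coeff_map, h0]
      simpa using hsq
  have hdeg : 0 < (P.map (algebraMap ℤ (𝓞 F))).natDegree := by
    rw [hmon.natDegree_map, hP, Polynomial.natDegree_comp]
    have h1 : (Polynomial.X + 1 : Polynomial ℤ).natDegree = 1 := Polynomial.natDegree_X_add_C 1
    rw [h1, mul_one, Polynomial.natDegree_cyclotomic]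
    exact Nat.totient_pos.mpr hq.pos
  have hI := hE2.irreducible hQ hmon2.isPrimitive hdeg
  have hI2 : Irreducible (P.map ((algebraMap (𝓞 F) F).comp (algebraMap ℤ (𝓞 F)))) := by
    rw [← Polynomial.map_map]
    exact (hmon2.irreducible_iff_irreducible_map_fraction_map (K := F)).mp hI
  have hcomp : P.map ((algebraMap (𝓞 F) F).comp (algebraMap ℤ (𝓞 F))) =
      (Polynomial.cyclotomic q F).comp (Polynomial.X + Polynomial.C 1) := by
    rw [hP, Polynomial.map_comp, Polynomial.map_cyclotomic]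
    simp
  rw [hcomp] at hI2
  exact (MulEquiv.irreducible_iff (Polynomial.algEquivAevalXAddC (1 : F))
    (x := Polynomial.cyclotomic q F)).mp hI2

end Pool.Agent.ARC
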