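import Mathlib
import Pool.Agent.ARC.Defs

/-! # ARC WUnr
Only finitely many ramified primes. For every g ≠ 1 choose x_g ∈ 𝓞 F with g x_g ≠ x_g and let m = M * ∏_{g ≠ 1}
absNorm (span {g x_g - x_g}) (finite product over F ≃ₐ[K] F, which is finite; absNorm ≠ 0). If m ∉ Q and g is in the inertia group with
g ≠ 1: g x_g - x_g ∈ Q, so its norm is in Q (Ideal.absNorm_mem: the norm lies in the ideal (g x_g - x_g) ⊆ Q), so m ∈ Q.
-/

set_option autoImplicit false

noncomputable section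

namespace Pool.Agent.ARC

open NumberField Module nonZeroDivisors Pool.Agent.Helper4

variable (K F : Type) [Field K] [NumberField K] [Field F] [NumberField F] [Algebra K F]

private theorem WUnr_exists (g : F ≃ₐ[K] F) (hg : g ≠ 1) : ∃ x : 𝓞 F, g • x - x ≠ 0 := by
  by_contra hcon
  push Not at hcon
  apply hg
  apply AlgEquiv.ext
  intro y
  obtain ⟨a, b, hb, rfl⟩ := IsFractionRing.div_surjective (A := 𝓞 F) y
  have h1 : ∀ x : 𝓞 F, g (algebraMap (𝓞 F) F x) = algebraMap (𝓞 F) F x := by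
    intro x
    have h2 : g • x = x := sub_eq_zero.1 (hcon x)
    have h3 : algebraMap (𝓞 F) F (g • x) = g (algebraMap (𝓞 F) F x) := rfl
    rw [← h3, h2]
  rw [map_div₀, h1, h1]
  rfl

theorem exists_unr (M : ℕ) (hM : M ≠ 0) : ∃ m : ℕ, m ≠ 0 ∧ M ∣ m ∧ Unr K F m := by
  classical
  have h1 : ∀ g : F ≃ₐ[K] F, ∃ x : 𝓞 F, g ≠ 1 → g • x - x ≠ 0 := by
    intro g
    by_cases hg : g = 1
    · exact ⟨0, fun h => absurd hg h⟩
    · obtain ⟨x, hx⟩ := WUnr_exists K F g hg
      exact ⟨x, fun _ => hx⟩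
  choose x hx using h1
  haveI : Fintype (F ≃ₐ[K] F) := Fintype.ofFinite _
  set c : (F ≃ₐ[K] F) → ℕ := fun g => if g = 1 then 1 else Ideal.absNorm (Ideal.span {g • x g - x g})
    with hc
  refine ⟨M * ∏ g, c g, ?_, dvd_mul_right _ _, ?_⟩
  · refine mul_ne_zero hM (Finset.prod_ne_zero_iff.2 fun g _ => ?_)
    by_cases hg : g = 1
    · simp [hc, hg]
    · simp only [hc, if_neg hg]
      rw [Ne, Ideal.absNorm_eq_zero_iff, Ideal.span_singleton_eq_bot]
      exact hx g hg
  · intro Q hQ hM' g hg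
    by_contra hne
    apply hM'
    have h2 : ((c g : ℕ) : 𝓞 F) ∈ Q := by
      simp only [hc, if_neg hne]
      have h3 := Ideal.absNorm_mem (Ideal.span {g • x g - x g})
      exact (Ideal.span_singleton_le_iff_mem Q).2 (hg (x g)) h3
    have h4 : c g ∣ M * ∏ g, c g := (Finset.dvd_prod_of_mem c (Finset.mem_univ g)).mul_left _
    exact Ideal.mem_of_dvd Q (Nat.cast_dvd_cast h4) h2

end Pool.Agent.ARC
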