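import Mathlib
import Pool.Agent.ARC.Defs
import Pool.Agent.ARC.WUnr
import Pool.Agent.ARC.WIrr

/-! # ARC WCyc
D := m of exists_unr ℚ F 1. F' := CyclotomicField q F, z := zeta. NumberField F', IsCyclotomicExtension {q} F F'.
Uniqueness: an F-automorphism fixing z is 1 (F' generated by z). Existence of g with g z = z^a: IsCyclotomicExtension.autEquivPow F' (cyclo_irr) : Gal ≃ (ZMod q)ˣ
(q prime, q ∤ a) . IsGalois ℚ F': separable; normal: F' is the compositum of the image of F (normal over ℚ) and ℚ(z) (normal):
AlgHom.fieldRange and adjoin inside F', IntermediateField.normal_sup, their sup is ⊤.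
-/

set_option autoImplicit false

noncomputable section

namespace Pool.Agent.ARC

open NumberField Module nonZeroDivisors Pool.Agent.Helper4


private theorem normal_of_cyclo (k F F' : Type) [Field k] [Field F] [Algebra k F] [IsGalois k F]
    [Field F'] [Algebra F F'] [Algebra k F'] [IsScalarTower k F F'] (q : ℕ) [NeZero q]
    [IsCyclotomicExtension {q} F F'] : Normal k F' := by
  have hi1 : Algebra.IsIntegral k F := Algebra.isAlgebraic_iff_isIntegral.1 inferInstance
  have hi2 : Algebra.IsIntegral F F' := IsCyclotomicExtension.integral {q} F F'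
  have hi3 : Algebra.IsIntegral k F' := Algebra.IsIntegral.trans F
  have hz := IsCyclotomicExtension.zeta_spec q F F'
  set z := IsCyclotomicExtension.zeta q F F' with hzdef
  let f : F →ₐ[k] F' := IsScalarTower.toAlgHom k F F'
  let E1 : IntermediateField k F' := f.fieldRange
  let E2 : IntermediateField k F' := IntermediateField.adjoin k {z}
  have h1 : Normal k E1 := Normal.of_algEquiv (AlgEquiv.ofInjectiveField f)
  have h2c : IsCyclotomicExtension {q} k E2 := hz.intermediateField_adjoin_isCyclotomicExtension k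
  have h2g : IsGalois k E2 := IsCyclotomicExtension.isGalois {q} k E2
  have h2 : Normal k E2 := h2g.to_normal
  have h3 : Normal k ↥(E1 ⊔ E2) := IntermediateField.normal_sup k F' E1 E2
  have h4 : E1 ⊔ E2 = ⊤ := by
    rw [eq_top_iff]
    rintro x -
    have h5 : x ∈ Algebra.adjoin F {z} := by
      rw [IsCyclotomicExtension.adjoin_primitive_root_eq_top hz]
      exact Algebra.mem_top
    induction h5 using Algebra.adjoin_induction with
    | mem y hy =>
      rw [Set.mem_singleton_iff] at hy
      rw [hy]
      have h6 : z ∈ E2 := IntermediateField.mem_adjoin_simple_self k z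
      exact (le_sup_right : E2 ≤ E1 ⊔ E2) h6
    | algebraMap r =>
      have h6 : algebraMap F F' r ∈ E1 := ⟨r, rfl⟩
      exact (le_sup_left : E1 ≤ E1 ⊔ E2) h6
    | add y w _ _ hy hw => exact add_mem hy hw
    | mul y w _ _ hy hw => exact mul_mem hy hw
  rw [h4] at h3
  exact Normal.of_algEquiv (IntermediateField.topEquiv (F := k) (E := F'))

private theorem gal_of_cyclo (F F' : Type) [Field F] [NumberField F] [IsGalois ℚ F] [Field F']
    [NumberField F'] [Algebra F F'] (q : ℕ) [NeZero q] [IsCyclotomicExtension {q} F F'] :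
    IsGalois ℚ F' :=
  { to_isSeparable := inferInstance, to_normal := normal_of_cyclo ℚ F F' q }

theorem exists_cyclo (F : Type) [Field F] [NumberField F] [IsGalois ℚ F] :
    ∃ D : ℕ, D ≠ 0 ∧ ∀ q : ℕ, q.Prime → ¬ q ∣ D →
    ∃ (F' : Type) (_ : Field F') (_ : NumberField F') (_ : Algebra F F') (_ : IsGalois ℚ F')
      (z : F'), IsPrimitiveRoot z q ∧ (∀ g : F' ≃ₐ[F] F', g z = z → g = 1) ∧
      ∀ a : ℕ, ¬ q ∣ a → ∃ g : F' ≃ₐ[F] F', g z = z ^ a := by
  obtain ⟨D, hD, -, hU⟩ := exists_unr ℚ F 1 one_ne_zero
  refine ⟨D, hD, fun q hq hqD => ?_⟩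
  have hq0 : NeZero q := ⟨hq.ne_zero⟩
  have hirr := cyclo_irr F D hD hU q hq hqD
  have hnf : NumberField (CyclotomicField q F) := IsCyclotomicExtension.numberField {q} F _
  have hz := IsCyclotomicExtension.zeta_spec q F (CyclotomicField q F)
  refine ⟨CyclotomicField q F, inferInstance, hnf, inferInstance, gal_of_cyclo F _ q,
    IsCyclotomicExtension.zeta q F (CyclotomicField q F), hz, ?_, ?_⟩
  · intro g hg
    have h1 : Algebra.adjoin F {IsCyclotomicExtension.zeta q F (CyclotomicField q F)} = ⊤ :=
      IsCyclotomicExtension.adjoin_primitive_root_eq_top (n := q) hz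
    have h2 : (g : CyclotomicField q F →ₐ[F] CyclotomicField q F) = AlgHom.id F _ :=
      AlgHom.ext_of_adjoin_eq_top h1 (by
        rintro x hx
        rw [Set.mem_singleton_iff] at hx
        rw [hx]
        exact hg)
    apply AlgEquiv.ext
    intro x
    exact DFunLike.congr_fun h2 x
  · intro a ha
    have hcop : a.Coprime q := (Nat.coprime_comm.1 ((Nat.Prime.coprime_iff_not_dvd hq).2 ha))
    let t : (ZMod q)ˣ := ZMod.unitOfCoprime a hcop
    refine ⟨(IsCyclotomicExtension.autEquivPow (CyclotomicField q F) hirr).symm t, ?_⟩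
    set g := (IsCyclotomicExtension.autEquivPow (CyclotomicField q F) hirr).symm t with hg
    have h1 : IsCyclotomicExtension.autEquivPow (CyclotomicField q F) hirr g = t := by
      rw [hg, MulEquiv.apply_symm_apply]
    have h2 : hz.autToPow F g = t := h1
    have h3 := hz.autToPow_spec F g
    rw [← h3, h2]
    have h4 : ((t : (ZMod q)ˣ) : ZMod q) = a := ZMod.coe_unitOfCoprime a hcop
    rw [h4]
    have h5 : IsOfFinOrder (IsCyclotomicExtension.zeta q F (CyclotomicField q F)) :=
      hz.isOfFinOrder hq.ne_zero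
    rw [h5.pow_eq_pow_iff_modEq, ← hz.eq_orderOf, ZMod.val_natCast]
    exact Nat.mod_modEq a q


end Pool.Agent.ARC
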