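import Mathlib
import Pool.Agent.ARC.Defs
import Pool.Agent.ARC.WCyc

/-! # ARC WCy2
Two steps F ⊆ F1 ∋ z ⊆ F2 ∋ z' of exists_cyclo; D' := D(F1). Algebra F F2 by composition. Uniqueness: g fixes z, so its
restriction to F1 (normal over F) is 1, so g is F1-linear, g z' = z', g = 1. Existence: g1 ∈ Gal(F1/F) with g1 z = z^a; lift it to g~ ∈ Gal(F2/F)
(AlgEquiv.liftNormal / restrictNormalHom_surjective, F2 / F Galois by tower_top); g~ z' = z'^b, q' ∤ b; g2 ∈ Gal(F2/F1) with g2 z' = z'^c, b c = a' mod q'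
(c = a' b^{-1} mod q', q' ∤ c); g := g2 g~ : g z = g2 (z^a) = z^a, g z' = g2 (z'^b) = z'^(bc) = z'^a'.
-/

set_option autoImplicit false

noncomputable section

namespace Pool.Agent.ARC

open NumberField Module nonZeroDivisors Pool.Agent.Helper4


private theorem WCy2_step (F F1 F2 : Type) [Field F] [NumberField F] [Field F1] [NumberField F1]
    [Field F2] [NumberField F2] [Algebra F F1] [Algebra F1 F2] [Algebra F F2] [IsScalarTower F F1 F2]
    [IsGalois ℚ F1] [IsGalois ℚ F2] (q q' : ℕ) (hq' : q'.Prime) (z : F1) (z' : F2)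
    (hz' : IsPrimitiveRoot z' q')
    (hu : ∀ g : F1 ≃ₐ[F] F1, g z = z → g = 1)
    (he : ∀ a : ℕ, ¬ q ∣ a → ∃ g : F1 ≃ₐ[F] F1, g z = z ^ a)
    (hu' : ∀ g : F2 ≃ₐ[F1] F2, g z' = z' → g = 1)
    (he' : ∀ a : ℕ, ¬ q' ∣ a → ∃ g : F2 ≃ₐ[F1] F2, g z' = z' ^ a) :
    (∀ g : F2 ≃ₐ[F] F2, g (algebraMap F1 F2 z) = algebraMap F1 F2 z → g z' = z' → g = 1) ∧
      ∀ a a' : ℕ, ¬ q ∣ a → ¬ q' ∣ a' → ∃ g : F2 ≃ₐ[F] F2,
        g (algebraMap F1 F2 z) = algebraMap F1 F2 z ^ a ∧ g z' = z' ^ a' := by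
  have hG1 : IsGalois F F1 := IsGalois.tower_top_of_isGalois ℚ F F1
  have hG2 : IsGalois F F2 := IsGalois.tower_top_of_isGalois ℚ F F2
  constructor
  · intro g hgz hgz'
    have h1 : g.restrictNormal F1 = 1 := by
      apply hu
      apply (algebraMap F1 F2).injective
      rw [AlgEquiv.restrictNormal_commutes, hgz]
    have h2 : ∀ x : F1, g (algebraMap F1 F2 x) = algebraMap F1 F2 x := by
      intro x
      rw [← AlgEquiv.restrictNormal_commutes, h1]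
      rfl
    have h3 := hu' (AlgEquiv.ofRingEquiv (f := g.toRingEquiv) h2) hgz'
    ext x
    exact DFunLike.congr_fun h3 x
  · intro a a' ha ha'
    obtain ⟨g₁, hg₁⟩ := he a ha
    obtain ⟨gt, hgt⟩ := AlgEquiv.restrictNormalHom_surjective (F := F) (K₁ := F1) F2 g₁
    have h2 : ∀ x : F1, gt (algebraMap F1 F2 x) = algebraMap F1 F2 (g₁ x) := by
      intro x
      have h3 : gt.restrictNormal F1 = g₁ := hgt
      rw [← AlgEquiv.restrictNormal_commutes, h3]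
    have hp : (gt z') ^ q' = 1 := by
      rw [← map_pow, hz'.pow_eq_one, map_one]
    have hne : NeZero q' := ⟨hq'.ne_zero⟩
    obtain ⟨b, -, hb⟩ := hz'.eq_pow_of_pow_eq_one hp
    have hqb : ¬ q' ∣ b := by
      rintro ⟨m, rfl⟩
      rw [pow_mul, hz'.pow_eq_one, one_pow] at hb
      have h3 : z' = 1 := by
        apply gt.injective
        rw [← hb, map_one]
      exact hz'.ne_one hq'.one_lt h3
    have hF : Fact q'.Prime := ⟨hq'⟩
    have hb0 : (b : ZMod q') ≠ 0 := by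
      rw [Ne, ZMod.natCast_eq_zero_iff]
      exact hqb
    have ha0 : (a' : ZMod q') ≠ 0 := by
      rw [Ne, ZMod.natCast_eq_zero_iff]
      exact ha'
    obtain ⟨c, hc⟩ : ∃ c : ℕ, (c : ZMod q') = (a' : ZMod q') / b :=
      ⟨((a' : ZMod q') / b).val, ZMod.natCast_zmod_val _⟩
    have hqc : ¬ q' ∣ c := by
      rw [← ZMod.natCast_eq_zero_iff, hc]
      exact div_ne_zero ha0 hb0
    obtain ⟨g₂, hg₂⟩ := he' c hqc
    refine ⟨gt.trans (g₂.restrictScalars F), ?_, ?_⟩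
    · change g₂ (gt (algebraMap F1 F2 z)) = _
      rw [h2, hg₁, map_pow, map_pow, AlgEquiv.commutes]
    · change g₂ (gt z') = _
      have hmod : c * b ≡ a' [MOD q'] := by
        rw [← ZMod.natCast_eq_natCast_iff, Nat.cast_mul, hc, div_mul_cancel₀ _ hb0]
      rw [← hb, map_pow, hg₂, ← pow_mul, ← pow_mod_orderOf z' (c * b), ← pow_mod_orderOf z' a',
        ← hz'.eq_orderOf]
      exact congrArg (fun m => z' ^ m) hmod

theorem exists_cyclo2 (F : Type) [Field F] [NumberField F] [IsGalois ℚ F] :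
    ∃ D : ℕ, D ≠ 0 ∧ ∀ q : ℕ, q.Prime → ¬ q ∣ D → ∃ D' : ℕ, D' ≠ 0 ∧ ∀ q' : ℕ, q'.Prime →
      ¬ q' ∣ D' →
    ∃ (F' : Type) (_ : Field F') (_ : NumberField F') (_ : Algebra F F') (_ : IsGalois ℚ F')
      (z z' : F'), IsPrimitiveRoot z q ∧ IsPrimitiveRoot z' q' ∧
      (∀ g : F' ≃ₐ[F] F', g z = z → g z' = z' → g = 1) ∧
      ∀ a a' : ℕ, ¬ q ∣ a → ¬ q' ∣ a' → ∃ g : F' ≃ₐ[F] F', g z = z ^ a ∧ g z' = z' ^ a' := by
  obtain ⟨D, hD, h⟩ := exists_cyclo F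
  refine ⟨D, hD, fun q hq hqD => ?_⟩
  obtain ⟨F1, i1, i2, i3, i4, z, hz, hu, he⟩ := h q hq hqD
  obtain ⟨D', hD', h'⟩ := exists_cyclo F1
  refine ⟨D', hD', fun q' hq' hqD' => ?_⟩
  obtain ⟨F2, j1, j2, j3, j4, z', hz', hu', he'⟩ := h' q' hq' hqD'
  let alg : Algebra F F2 := ((algebraMap F1 F2).comp (algebraMap F F1)).toAlgebra
  have hst : IsScalarTower F F1 F2 := IsScalarTower.of_algebraMap_eq fun x => rfl
  obtain ⟨k1, k2⟩ := WCy2_step F F1 F2 q q' hq' z z' hz' hu he hu' he'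
  exact ⟨F2, j1, j2, alg, j4, algebraMap F1 F2 z, z', hz.map_of_injective (algebraMap F1 F2).injective,
    hz', k1, k2⟩

end Pool.Agent.ARC
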