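import Mathlib
import Pool.Agent.ARC.PrimeSum
import Pool.Agent.ARC.S1

/-! # ARC, part S2: the density of the kernel of a ray class map (second inequality) -/

noncomputable section

namespace Pool.Agent.ARC

open Filter Topology NumberField nonZeroDivisors IsDedekindDomain Pool.Agent.Helper4

open scoped Classical

variable {K : Type*} [Field K] [NumberField K]

/-- `φ` is a homomorphism from the ideals prime to `M` to a commutative group, trivial on the ray
modulo `M` times all real places. -/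
structure RayMap (K : Type*) [Field K] [NumberField K] (M : ℕ) {G : Type*} [CommGroup G]
    (φ : Ideal (𝓞 K) → G) : Prop where
  two_le : 2 ≤ M
  mul : ∀ a b : Ideal (𝓞 K), IsCoprime a (Ideal.span {(M : 𝓞 K)}) →
    IsCoprime b (Ideal.span {(M : 𝓞 K)}) → φ (a * b) = φ a * φ b
  ray : ∀ x y : 𝓞 K, x = 1 + M * y → (∀ w : RP K, 0 < rv w (x : K)) → φ (Ideal.span {x}) = 1

variable {M : ℕ} {G : Type*} [CommGroup G] {φ : Ideal (𝓞 K) → G}

/-- the character of ideals attached to a character of `G`, extended by zero -/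
def chOf (M : ℕ) (φ : Ideal (𝓞 K) → G) (χ : G →* ℂˣ) (a : Ideal (𝓞 K)) : ℂ :=
  if IsCoprime a (Ideal.span {(M : 𝓞 K)}) then ((χ (φ a) : ℂˣ) : ℂ) else 0

lemma norm_char [Finite G] (χ : G →* ℂˣ) (g : G) : ‖((χ g : ℂˣ) : ℂ)‖ = 1 := by
  have h1 : (χ g) ^ Nat.card G = 1 := by
    rw [← map_pow, pow_card_eq_one', map_one]
  have h2 : ((χ g : ℂˣ) : ℂ) ^ Nat.card G = 1 := by
    rw [← Units.val_pow_eq_pow_val, h1, Units.val_one]
  exact Complex.norm_eq_one_of_pow_eq_one h2 Nat.card_pos.ne'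

lemma RayMap.ray_chOf [Finite G] (h : RayMap K M φ) (χ : G →* ℂˣ) : Ray K M (chOf M φ χ) where
  two_le := h.two_le
  mul a b ha hb := by
    unfold chOf
    rw [if_pos ha, if_pos hb, if_pos (ha.mul_left hb), h.mul a b ha hb, map_mul, Units.val_mul]
  zero a ha := by
    unfold chOf
    rw [if_neg ha]
  norm a ha := by
    unfold chOf
    rw [if_pos ha]
    exact norm_char χ _
  ray x y hxy hpos := by
    have hc : IsCoprime (Ideal.span {x}) (Ideal.span {(M : 𝓞 K)}) := by
      rw [Ideal.isCoprime_span_singleton_iff]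
      exact ⟨1, -y, by rw [hxy]; ring⟩
    unfold chOf
    rw [if_pos hc, h.ray x y hxy hpos, map_one, Units.val_one]

lemma norm_chOf_le [Finite G] (χ : G →* ℂˣ) (a : Ideal (𝓞 K)) : ‖chOf M φ χ a‖ ≤ 1 := by
  unfold chOf
  split_ifs
  · exact (norm_char χ _).le
  · simp

/-- orthogonality -/
lemma sum_char [Finite G] [Fintype (G →* ℂˣ)] (g : G) :
    ∑ χ : G →* ℂˣ, ((χ g : ℂˣ) : ℂ) = if g = 1 then (Nat.card G : ℂ) else 0 := by
  have : NeZero (Monoid.exponent G : ℂ) := by
    constructor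
    exact_mod_cast Monoid.exponent_ne_zero_of_finite
  split_ifs with hg
  · subst hg
    simp only [map_one, Units.val_one, Finset.sum_const, Finset.card_univ, nsmul_eq_mul, mul_one]
    rw [← Nat.card_eq_fintype_card, CommGroup.card_monoidHom_of_hasEnoughRootsOfUnity]
  · obtain ⟨χ₀, hχ₀⟩ := CommGroup.exists_apply_ne_one_of_hasEnoughRootsOfUnity G ℂ hg
    have h1 : ((χ₀ g : ℂˣ) : ℂ) ≠ 1 := by
      intro h
      exact hχ₀ (Units.ext h)
    refine eq_zero_of_mul_eq_self_left h1 ?_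
    rw [Finset.mul_sum]
    have h2 : ∀ χ : G →* ℂˣ, ((χ₀ g : ℂˣ) : ℂ) * ((χ g : ℂˣ) : ℂ) = (((χ₀ * χ) g : ℂˣ) : ℂ) := by
      intro χ
      rw [MonoidHom.mul_apply, Units.val_mul]
    simp_rw [h2]
    exact Fintype.sum_bijective _ (Group.mulLeft_bijective χ₀) _ _ fun _ => rfl

/-- the primes not dividing `M` with a given value of `φ` -/
def fibre (M : ℕ) (φ : Ideal (𝓞 K) → G) (g : G) : Set (PK K) :=
  {q | IsCoprime q.asIdeal (Ideal.span {(M : 𝓞 K)}) ∧ φ q.asIdeal = g}

/-- **Second inequality, analytic part**: the primes in the kernel of a surjective ray class map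
onto a group of order `h` have density at most `1 / h`. -/
theorem densLE_kernel [Finite G] (h : RayMap K M φ)
    (hs : ∀ g : G, ∃ a : Ideal (𝓞 K), IsCoprime a (Ideal.span {(M : 𝓞 K)}) ∧ φ a = g) :
    DensLE (fibre M φ 1) (1 / (Nat.card G : ℝ)) := by
  have hfin : Finite (G →* ℂˣ) := inferInstance
  let _ : Fintype (G →* ℂˣ) := Fintype.ofFinite _
  have hG : (0 : ℝ) < Nat.card G := by exact_mod_cast Nat.card_pos
  -- upper bounds for the nontrivial characters
  have hb : ∀ χ : G →* ℂˣ, χ ≠ 1 → ∃ C : ℝ, ∀ s : ℝ, 1 < s → s ≤ 2 →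
      ∑' q : PK K, (chOf M φ χ q.asIdeal).re * Np q ^ (-s) ≤ C := by
    intro χ hχ
    have hn : ∃ a : Ideal (𝓞 K), IsCoprime a (Ideal.span {(M : 𝓞 K)}) ∧ chOf M φ χ a ≠ 1 := by
      by_contra hcon
      push Not at hcon
      apply hχ
      ext g
      obtain ⟨a, ha, hag⟩ := hs g
      have := hcon a ha
      unfold chOf at this
      rw [if_pos ha, hag] at this
      rw [this]
      simp
    obtain ⟨L, hL, -, hP⟩ := hecke_entire (h.ray_chOf χ) hn
    refine primeSum_le (fun q => chOf M φ χ q.asIdeal) (fun q => norm_chOf_le χ _) L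
      hL.continuous ?_
    intro s hs _
    exact hP s (by simpa using hs)
  choose! C hC using hb
  obtain ⟨C₀, hC₀⟩ := primeSum_univ K
  set T := fibre M φ (1 : G) with hT
  -- orthogonality
  have horth : ∀ q : PK K, ∀ s : ℝ, ∑ χ : G →* ℂˣ, (chOf M φ χ q.asIdeal).re * Np q ^ (-s)
      = (Nat.card G : ℝ) * T.indicator (fun q => Np q ^ (-s)) q := by
    intro q s
    rw [← Finset.sum_mul, ← Complex.re_sum]
    by_cases hq : IsCoprime q.asIdeal (Ideal.span {(M : 𝓞 K)})
    · have h1 : ∀ χ : G →* ℂˣ, chOf M φ χ q.asIdeal = ((χ (φ q.asIdeal) : ℂˣ) : ℂ) := by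
        intro χ
        unfold chOf
        rw [if_pos hq]
      simp_rw [h1, sum_char]
      by_cases h2 : φ q.asIdeal = 1
      · rw [if_pos h2, Set.indicator_of_mem (show q ∈ T from ⟨hq, h2⟩)]
        simp
      · rw [if_neg h2, Set.indicator_of_notMem (fun h' : q ∈ T => h2 h'.2)]
        simp
    · have h1 : ∀ χ : G →* ℂˣ, chOf M φ χ q.asIdeal = 0 := by
        intro χ
        unfold chOf
        rw [if_neg hq]
      simp_rw [h1]
      rw [Set.indicator_of_notMem (fun h' : q ∈ T => hq h'.1)]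
      simp
  have hsum : ∀ s : ℝ, 1 < s → (Nat.card G : ℝ) * pS T s
      = ∑ χ : G →* ℂˣ, ∑' q : PK K, (chOf M φ χ q.asIdeal).re * Np q ^ (-s) := by
    intro s hs
    rw [← Summable.tsum_finsetSum (fun χ _ => summable_coef (fun q : PK K => chOf M φ χ q.asIdeal)
      (fun q => norm_chOf_le χ _) hs)]
    unfold pS
    rw [← tsum_mul_left]
    exact tsum_congr fun q => (horth q s).symm
  refine ⟨(C₀ + ∑ χ ∈ Finset.univ.erase (1 : G →* ℂˣ), C χ) / Nat.card G, fun s hs1 hs2 => ?_⟩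
  have h1 := hsum s hs1
  rw [← Finset.add_sum_erase _ _ (Finset.mem_univ (1 : G →* ℂˣ))] at h1
  have h2 : ∑' q : PK K, (chOf M φ (1 : G →* ℂˣ) q.asIdeal).re * Np q ^ (-s)
      ≤ ∑' q : PK K, Np q ^ (-s) := by
    refine Summable.tsum_le_tsum (fun q => ?_)
      (summable_coef (fun q : PK K => chOf M φ (1 : G →* ℂˣ) q.asIdeal)
        (fun q => norm_chOf_le 1 _) hs1) (summable_Np K hs1)
    have h3 := (Complex.abs_re_le_norm (chOf M φ (1 : G →* ℂˣ) q.asIdeal)).trans
      (norm_chOf_le (M := M) (φ := φ) 1 q.asIdeal)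
    have h4 := Np_rpow_nonneg q s
    have h5 := (abs_le.mp h3).2
    nlinarith
  have h3 := (abs_le.mp (hC₀ s hs1 hs2)).2
  have h4 : ∑ χ ∈ Finset.univ.erase (1 : G →* ℂˣ),
      ∑' q : PK K, (chOf M φ χ q.asIdeal).re * Np q ^ (-s)
      ≤ ∑ χ ∈ Finset.univ.erase (1 : G →* ℂˣ), C χ :=
    Finset.sum_le_sum fun χ hχ => hC χ (Finset.ne_of_mem_erase hχ) s hs1 hs2
  have h5 : (Nat.card G : ℝ) * pS T s ≤ Real.log (1 / (s - 1)) +
      (C₀ + ∑ χ ∈ Finset.univ.erase (1 : G →* ℂˣ), C χ) := by linarith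
  rw [mul_comm, ← le_div_iff₀ hG] at h5
  refine h5.trans (le_of_eq ?_)
  ring

/-- If the primes of a set of density at least `d` lie in the kernel of a surjective ray class map
onto `G`, then `d ≤ 1 / #G`. -/
theorem card_le_of_densGE [Finite G] (h : RayMap K M φ)
    (hs : ∀ g : G, ∃ a : Ideal (𝓞 K), IsCoprime a (Ideal.span {(M : 𝓞 K)}) ∧ φ a = g)
    {T N : Set (PK K)} {d : ℝ} (hT : DensGE T d) (hN : Negligible N)
    (hsub : T ⊆ fibre M φ (1 : G) ∪ N) : d ≤ 1 / (Nat.card G : ℝ) :=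
  le_of_dens (hT.of_subset_union hsub hN) (densLE_kernel h hs)

end Pool.Agent.ARC
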