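import Mathlib
import Pool.Agent.ARC.PrimeSum

/-! # ARC, part S2: primes of an extension and densities below -/

set_option linter.unusedSectionVars false

noncomputable section

namespace Pool.Agent.ARC

open Filter Topology NumberField nonZeroDivisors IsDedekindDomain Pool.Agent.Helper4

open scoped Classical Pointwise

variable (K : Type*) {L : Type*} [Field K] [NumberField K] [Field L] [NumberField L] [Algebra K L]

/-- the prime of `K` below a prime of `L` -/
def below (Q : PK L) : PK K where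
  asIdeal := Q.asIdeal.under (𝓞 K)
  isPrime := inferInstance
  ne_bot := by
    intro h
    exact Q.ne_bot (Ideal.eq_bot_of_comap_eq_bot h)

lemma below_asIdeal (Q : PK L) : (below K Q).asIdeal = Q.asIdeal.under (𝓞 K) := rfl

instance liesOver_below (Q : PK L) : Q.asIdeal.LiesOver (below K Q).asIdeal := ⟨rfl⟩

/-- the residue degree of `Q` over `K` -/
def fdeg (Q : PK L) : ℕ := Q.asIdeal.inertiaDeg (𝓞 K)

lemma Np_below_pow (Q : PK L) : Np (below K Q) ^ fdeg K Q = Np Q := by
  have h := Ideal.absNorm_pow_inertiaDeg (below K Q).asIdeal Q.asIdeal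
  unfold Np fdeg
  exact_mod_cast h

lemma fdeg_pos (Q : PK L) : 0 < fdeg K Q := Ideal.inertiaDeg_pos Q.asIdeal (𝓞 K)

lemma fdeg_eq_one_iff (Q : PK L) : fdeg K Q = 1 ↔ Np Q = Np (below K Q) := by
  constructor
  · intro h
    rw [← Np_below_pow K Q, h, pow_one]
  · intro h
    by_contra hne
    have h1 := fdeg_pos K Q
    have h2 : 2 ≤ fdeg K Q := by omega
    have h3 := Np_below_pow K Q
    have h4 := two_le_Np (below K Q)
    have h5 : Np (below K Q) ^ 2 ≤ Np (below K Q) ^ fdeg K Q :=
      pow_le_pow_right₀ (by linarith) h2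
    nlinarith

lemma eq_below_iff (Q : PK L) (q : PK K) :
    below K Q = q ↔ Q.asIdeal ∈ q.asIdeal.primesOver (𝓞 L) := by
  constructor
  · rintro rfl
    exact ⟨Q.isPrime, ⟨rfl⟩⟩
  · rintro ⟨-, h⟩
    exact HeightOneSpectrum.ext h.over.symm

instance finite_fibre (q : PK K) : Finite {Q : PK L // below K Q = q} := by
  have hfin : (q.asIdeal.primesOver (𝓞 L)).Finite := by
    rw [← IsDedekindDomain.coe_primesOverFinset q.ne_bot (𝓞 L)]
    exact Finset.finite_toSet _
  have : Finite (q.asIdeal.primesOver (𝓞 L)) := hfin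
  let i : {Q : PK L // below K Q = q} → q.asIdeal.primesOver (𝓞 L) :=
    fun Q => ⟨Q.1.asIdeal, (eq_below_iff K Q.1 q).mp Q.2⟩
  have hi : Function.Injective i := by
    intro Q Q' h
    exact Subtype.ext (HeightOneSpectrum.ext (congrArg Subtype.val h))
  exact Finite.of_injective i hi

variable {K}

/-- there are at most `[L : K]` primes over `q` -/
lemma card_fibre_le (q : PK K) :
    Nat.card {Q : PK L // below K Q = q} ≤ Module.finrank K L := by
  have hfin : (q.asIdeal.primesOver (𝓞 L)).Finite := by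
    rw [← IsDedekindDomain.coe_primesOverFinset q.ne_bot (𝓞 L)]
    exact Finset.finite_toSet _
  have : Finite (q.asIdeal.primesOver (𝓞 L)) := hfin
  let _ : Fintype (q.asIdeal.primesOver (𝓞 L)) := Fintype.ofFinite _
  let i : {Q : PK L // below K Q = q} → q.asIdeal.primesOver (𝓞 L) :=
    fun Q => ⟨Q.1.asIdeal, (eq_below_iff K Q.1 q).mp Q.2⟩
  have hi : Function.Injective i := by
    intro Q Q' h
    exact Subtype.ext (HeightOneSpectrum.ext (congrArg Subtype.val h))
  refine (Nat.card_le_card_of_injective i hi).trans ?_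
  have h1 := Ideal.sum_ramification_inertia_eq_finrank q.asIdeal (𝓞 L)
  have h2 : Module.finrank K L = Module.finrank (𝓞 K) (𝓞 L) :=
    IsFractionRing.finrank_eq (𝓞 K) K (𝓞 L) L
  rw [h2, ← h1, Nat.card_eq_fintype_card, Fintype.card_eq_sum_ones]
  refine Finset.sum_le_sum fun Q _ => ?_
  have hp : Q.1.IsPrime := Q.2.1
  have h3 := Q.1.inertiaDeg_pos (𝓞 K)
  have h4 := Q.1.ramificationIdx_pos (𝓞 K)
  exact Nat.one_le_iff_ne_zero.mpr (by positivity)

/-- the sum over the primes of `L`, grouped over the primes of `K` -/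
lemma tsum_below {f : PK L → ℝ} (hf : Summable f) :
    ∑' Q, f Q = ∑' q : PK K, ∑' Q : {Q : PK L // below K Q = q}, f Q.1 := by
  rw [← (Equiv.sigmaFiberEquiv (below K (L := L))).tsum_eq f]
  have hs : Summable (fun x : Σ q : PK K, {Q : PK L // below K Q = q} =>
      f ((Equiv.sigmaFiberEquiv (below K (L := L))) x)) :=
    (Equiv.sigmaFiberEquiv (below K (L := L))).summable_iff.mpr hf
  rw [hs.tsum_sigma]
  rfl

lemma summable_fibre {f : PK L → ℝ} (hf : Summable f) :
    Summable (fun q : PK K => ∑' Q : {Q : PK L // below K Q = q}, f Q.1) := by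
  have hs : Summable (fun x : Σ q : PK K, {Q : PK L // below K Q = q} =>
      f ((Equiv.sigmaFiberEquiv (below K (L := L))) x)) :=
    (Equiv.sigmaFiberEquiv (below K (L := L))).summable_iff.mpr hf
  exact hs.sigma

lemma Np_rpow_le_below (Q : PK L) {s : ℝ} (hs : 0 ≤ s) : Np Q ^ (-s) ≤ Np (below K Q) ^ (-s) := by
  have h1 := Np_below_pow K Q
  have h2 := two_le_Np (below K Q)
  have h3 : Np (below K Q) ≤ Np Q := by
    rw [← h1]
    exact le_self_pow₀ (by linarith) (fdeg_pos K Q).ne'
  exact Real.rpow_le_rpow_of_nonpos (Np_pos _) h3 (by linarith)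

/-- the primes of `K` which have a prime of `L` of residue degree one above them -/
def degOne (K L : Type*) [Field K] [NumberField K] [Field L] [NumberField L] [Algebra K L] :
    Set (PK K) := {q | ∃ Q : PK L, below K Q = q ∧ Np Q = Np q}

lemma fibre_sum_le (q : PK K) {s : ℝ} (hs : 1 < s) :
    ∑' Q : {Q : PK L // below K Q = q}, Np Q.1 ^ (-s) ≤
      (Module.finrank K L : ℝ) * ((degOne K L).indicator (fun q => Np q ^ (-s)) q
        + Np q ^ (-2 : ℝ)) := by
  let _ : Fintype {Q : PK L // below K Q = q} := Fintype.ofFinite _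
  rw [tsum_fintype]
  have h0 : ∀ Q : {Q : PK L // below K Q = q}, Np Q.1 ^ (-s) ≤
      (degOne K L).indicator (fun q => Np q ^ (-s)) q + Np q ^ (-2 : ℝ) := by
    rintro ⟨Q, hQ⟩
    simp only
    have hn2 := Np_rpow_nonneg q 2
    by_cases h1 : fdeg K Q = 1
    · have h2 := (fdeg_eq_one_iff K Q).mp h1
      rw [hQ] at h2
      have h3 : q ∈ degOne K L := ⟨Q, hQ, h2⟩
      rw [Set.indicator_of_mem h3, h2]
      linarith
    · have h3 : 0 ≤ (degOne K L).indicator (fun q => Np q ^ (-s)) q :=
        Set.indicator_nonneg (fun q _ => Np_rpow_nonneg q s) q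
      have h4 : Np Q ^ (-s) ≤ Np q ^ (-2 : ℝ) := by
        have h5 := Np_below_pow K Q
        rw [hQ] at h5
        have h6 := fdeg_pos K Q
        have h7 : (2 : ℝ) ≤ fdeg K Q := by exact_mod_cast (by omega : 2 ≤ fdeg K Q)
        rw [← h5, ← Real.rpow_natCast, ← Real.rpow_mul (Np_pos q).le]
        apply Real.rpow_le_rpow_of_exponent_le (by linarith [two_le_Np q])
        nlinarith
      linarith
  have h1 : ∑ Q : {Q : PK L // below K Q = q}, Np Q.1 ^ (-s) ≤
      ∑ _Q : {Q : PK L // below K Q = q},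
        ((degOne K L).indicator (fun q => Np q ^ (-s)) q + Np q ^ (-2 : ℝ)) :=
    Finset.sum_le_sum fun Q _ => h0 Q
  refine h1.trans ?_
  rw [Finset.sum_const, nsmul_eq_mul, Finset.card_univ, ← Nat.card_eq_fintype_card]
  have h2 : (Nat.card {Q : PK L // below K Q = q} : ℝ) ≤ Module.finrank K L := by
    exact_mod_cast card_fibre_le q
  have h3 : 0 ≤ (degOne K L).indicator (fun q => Np q ^ (-s)) q + Np q ^ (-2 : ℝ) :=
    add_nonneg (Set.indicator_nonneg (fun q _ => Np_rpow_nonneg q s) q) (Np_rpow_nonneg q 2)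
  exact mul_le_mul_of_nonneg_right h2 h3

/-- **The primes with a prime of degree one above them have density at least `1 / [L : K]`.** -/
theorem densGE_degOne : DensGE (degOne K L) (1 / (Module.finrank K L : ℝ)) := by
  obtain ⟨C, hC⟩ := densGE_univ (K := L)
  have hn : (0 : ℝ) < Module.finrank K L := by exact_mod_cast Module.finrank_pos
  refine ⟨C / Module.finrank K L + cK K, fun s hs hs2 => ?_⟩
  have h1 := hC s hs hs2
  rw [pS_univ, tsum_below (K := K) (summable_Np L hs)] at h1
  have hsum : Summable (fun q : PK K => (Module.finrank K L : ℝ) *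
      ((degOne K L).indicator (fun q => Np q ^ (-s)) q + Np q ^ (-2 : ℝ))) :=
    ((summable_pS _ hs).add (summable_Np K (by norm_num))).mul_left _
  have h2 := Summable.tsum_le_tsum (fun q : PK K => fibre_sum_le (L := L) q hs)
    (summable_fibre (K := K) (summable_Np L hs)) hsum
  rw [tsum_mul_left, (summable_pS _ hs).tsum_add (summable_Np K (by norm_num))] at h2
  have h3 : 1 * Real.log (1 / (s - 1)) - C ≤
      (Module.finrank K L : ℝ) * (pS (degOne K L) s + cK K) := h1.trans h2
  have h4 : (1 * Real.log (1 / (s - 1)) - C) / Module.finrank K L ≤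
      pS (degOne K L) s + cK K := by
    rw [div_le_iff₀ hn]
    linarith
  have h5 : (1 * Real.log (1 / (s - 1)) - C) / (Module.finrank K L : ℝ)
      = 1 / (Module.finrank K L : ℝ) * Real.log (1 / (s - 1)) - C / Module.finrank K L := by ring
  linarith

/-- If each prime `q ∈ S` has at least `d` primes of residue degree one above it, then `S` has
density at most `1 / d`. -/
theorem densLE_of_split {S : Set (PK K)} {d : ℕ} (hd : 0 < d)
    (h : ∀ q ∈ S, d ≤ Nat.card {Q : PK L // below K Q = q ∧ Np Q = Np q}) :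
    DensLE S (1 / (d : ℝ)) := by
  obtain ⟨C, hC⟩ := densLE_univ (K := L)
  have hd0 : (0 : ℝ) < d := by exact_mod_cast hd
  refine ⟨C / d, fun s hs hs2 => ?_⟩
  have h1 := hC s hs hs2
  rw [pS_univ, tsum_below (K := K) (summable_Np L hs)] at h1
  have h2 : ∀ q : PK K, (d : ℝ) * S.indicator (fun q => Np q ^ (-s)) q ≤
      ∑' Q : {Q : PK L // below K Q = q}, Np Q.1 ^ (-s) := by
    intro q
    let _ : Fintype {Q : PK L // below K Q = q} := Fintype.ofFinite _
    by_cases hq : q ∈ S
    · rw [Set.indicator_of_mem hq, tsum_fintype]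
      let i : {Q : PK L // below K Q = q ∧ Np Q = Np q} → {Q : PK L // below K Q = q} :=
        fun Q => ⟨Q.1, Q.2.1⟩
      have hinj : Function.Injective i := by
        intro Q Q' h
        have h' : (i Q).1 = (i Q').1 := congrArg Subtype.val h
        exact Subtype.ext h'
      have hfin : Finite {Q : PK L // below K Q = q ∧ Np Q = Np q} := Finite.of_injective _ hinj
      let _ : Fintype {Q : PK L // below K Q = q ∧ Np Q = Np q} := Fintype.ofFinite _
      have h3 : ∑ Q : {Q : PK L // below K Q = q ∧ Np Q = Np q}, Np Q.1 ^ (-s)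
          ≤ ∑ Q : {Q : PK L // below K Q = q}, Np Q.1 ^ (-s) := by
        have h5 := Finset.sum_map Finset.univ (⟨i, hinj⟩ : _ ↪ _)
          (fun Q : {Q : PK L // below K Q = q} => Np Q.1 ^ (-s))
        have h6 : ∑ Q : {Q : PK L // below K Q = q ∧ Np Q = Np q}, Np Q.1 ^ (-s)
            = ∑ Q ∈ Finset.univ.map (⟨i, hinj⟩ : _ ↪ _), Np Q.1 ^ (-s) := h5.symm
        rw [h6]
        exact Finset.sum_le_sum_of_subset_of_nonneg (Finset.subset_univ _)
          fun Q _ _ => Np_rpow_nonneg _ _
      refine le_trans ?_ h3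
      have h4 : ∀ Q : {Q : PK L // below K Q = q ∧ Np Q = Np q},
          Np Q.1 ^ (-s) = Np q ^ (-s) := fun Q => by rw [Q.2.2]
      simp_rw [h4]
      rw [Finset.sum_const, nsmul_eq_mul, Finset.card_univ, ← Nat.card_eq_fintype_card]
      exact mul_le_mul_of_nonneg_right (by exact_mod_cast h q hq) (Np_rpow_nonneg q s)
    · rw [Set.indicator_of_notMem hq, mul_zero]
      exact tsum_nonneg fun Q => Np_rpow_nonneg _ _
  have h3 := Summable.tsum_le_tsum h2 ((summable_pS S hs).mul_left _)
    (summable_fibre (K := K) (summable_Np L hs))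
  rw [tsum_mul_left] at h3
  have h4 : (d : ℝ) * pS S s ≤ 1 * Real.log (1 / (s - 1)) + C := h3.trans h1
  rw [mul_comm, ← le_div_iff₀ hd0] at h4
  refine h4.trans (le_of_eq ?_)
  ring

/-- only finitely many primes contain a non-zero integer -/
lemma finite_contain {m : ℕ} (hm : m ≠ 0) : {q : PK K | (m : 𝓞 K) ∈ q.asIdeal}.Finite := by
  have h0 : Ideal.span {(m : 𝓞 K)} ≠ 0 := by
    rw [Ne, Ideal.zero_eq_bot, Ideal.span_singleton_eq_bot]
    exact_mod_cast hm
  have h1 := Ideal.finite_factors h0
  refine h1.subset fun q hq => ?_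
  have h2 : (m : 𝓞 K) ∈ q.asIdeal := hq
  change q.asIdeal ∣ Ideal.span {(m : 𝓞 K)}
  rw [Ideal.dvd_span_singleton]
  exact h2

end Pool.Agent.ARC
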