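import Mathlib
import Pool.Agent.ARC.Defs
import Pool.Agent.ARC.RayDens
import Pool.Agent.ARC.SplitDens
import Pool.Agent.helper4.LEuler

/-! # ARC, part S2: second inequality -/

set_option autoImplicit false
set_option linter.unusedSectionVars false

noncomputable section

namespace Pool.Agent.ARC

open Filter Topology NumberField nonZeroDivisors IsDedekindDomain Pool.Agent.Helper4 Module

open scoped Classical

/-- in a finite cyclic group an element killed by the order of `x` is a multiple of `x` -/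
lemma exists_mul_eq {n : ℕ} (hn : 0 < n) (x y : ZMod n) (h : addOrderOf x • y = 0) :
    ∃ c : ZMod n, y = c * x := by
  have : NeZero n := ⟨hn.ne'⟩
  have hd : 0 < addOrderOf x := addOrderOf_pos x
  have h1 := IsAddCyclic.card_nsmul_eq_zero_le (α := ZMod n) hd
  set S : Finset (ZMod n) := Finset.univ.filter (fun a => addOrderOf x • a = 0) with hS
  set Z : Finset (ZMod n) := Finset.univ.filter (fun a => a ∈ AddSubgroup.zmultiples x) with hZ
  have h2 : Z.card = addOrderOf x := by
    rw [← Nat.card_zmultiples, Nat.card_eq_fintype_card, Fintype.card_subtype]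
  have h3 : Z ⊆ S := by
    intro a ha
    rw [hZ, Finset.mem_filter] at ha
    obtain ⟨k, rfl⟩ := ha.2
    rw [hS, Finset.mem_filter]
    refine ⟨Finset.mem_univ _, ?_⟩
    simp only
    rw [smul_comm, addOrderOf_nsmul_eq_zero, smul_zero]
  have h4 : Z = S := Finset.eq_of_subset_of_card_le h3 (by rw [h2]; exact h1)
  have h5 : y ∈ Z := by
    rw [h4, hS, Finset.mem_filter]
    exact ⟨Finset.mem_univ _, h⟩
  rw [hZ, Finset.mem_filter] at h5
  obtain ⟨k, hk⟩ := h5.2
  exact ⟨(k : ZMod n), by rw [← hk]; simp [zsmul_eq_mul]⟩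

section

variable {E : Type*} [Field E] [NumberField E]

lemma ne_bot_of_coprime {m : ℕ} (hm : 2 ≤ m) {I : Ideal (𝓞 E)}
    (h : IsCoprime I (Ideal.span {(m : 𝓞 E)})) : I ≠ ⊥ := by
  rintro rfl
  rw [Ideal.isCoprime_iff_sup_eq, bot_sup_eq] at h
  exact natCast_not_isUnit (K := E) hm (Ideal.span_singleton_eq_top.mp h)

variable {G : Type*} [CommGroup G] [Finite G] {m : ℕ} {φ : Ideal (𝓞 E) → G}

lemma RayMap.map_one (h : RayMap E m φ) : φ 1 = 1 := by
  have h1 := h.mul 1 1 isCoprime_one_left isCoprime_one_left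
  rw [mul_one] at h1
  exact left_eq_mul.mp h1

lemma RayMap.map_pow (h : RayMap E m φ) {I : Ideal (𝓞 E)}
    (hI : IsCoprime I (Ideal.span {(m : 𝓞 E)})) (k : ℕ) : φ (I ^ k) = φ I ^ k := by
  induction k with
  | zero => rw [pow_zero, pow_zero, h.map_one]
  | succ k ih => rw [pow_succ, pow_succ, h.mul _ _ hI.pow_left hI, ih]

/-- the image of a ray class map -/
def RayMap.image (h : RayMap E m φ) : Subgroup G where
  carrier := {g | ∃ I, IsCoprime I (Ideal.span {(m : 𝓞 E)}) ∧ φ I = g}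
  mul_mem' := by
    rintro _ _ ⟨I, hI, rfl⟩ ⟨J, hJ, rfl⟩
    exact ⟨I * J, hI.mul_left hJ, h.mul I J hI hJ⟩
  one_mem' := ⟨1, isCoprime_one_left, h.map_one⟩
  inv_mem' := by
    rintro _ ⟨I, hI, rfl⟩
    refine ⟨I ^ (Nat.card G - 1), hI.pow_left, ?_⟩
    rw [h.map_pow hI]
    apply eq_inv_of_mul_eq_one_left
    rw [← pow_succ, Nat.sub_add_cancel Nat.card_pos, pow_card_eq_one']

lemma RayMap.mem_image (h : RayMap E m φ) {I : Ideal (𝓞 E)}
    (hI : IsCoprime I (Ideal.span {(m : 𝓞 E)})) : φ I ∈ h.image := ⟨I, hI, rfl⟩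

/-- the corestriction to the image -/
def RayMap.cores (h : RayMap E m φ) (I : Ideal (𝓞 E)) : h.image :=
  if hI : IsCoprime I (Ideal.span {(m : 𝓞 E)}) then ⟨φ I, h.mem_image hI⟩ else 1

lemma RayMap.cores_coe (h : RayMap E m φ) {I : Ideal (𝓞 E)}
    (hI : IsCoprime I (Ideal.span {(m : 𝓞 E)})) : (h.cores I : G) = φ I := by
  unfold RayMap.cores
  rw [dif_pos hI]

lemma RayMap.rayMap_cores (h : RayMap E m φ) : RayMap E m h.cores where
  two_le := h.two_le
  mul a b ha hb := by
    apply Subtype.ext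
    rw [h.cores_coe (ha.mul_left hb), Subgroup.coe_mul, h.cores_coe ha, h.cores_coe hb,
      h.mul a b ha hb]
  ray x y hxy hpos := by
    have hc : IsCoprime (Ideal.span {x}) (Ideal.span {(m : 𝓞 E)}) := by
      rw [Ideal.isCoprime_span_singleton_iff]
      exact ⟨1, -y, by rw [hxy]; ring⟩
    apply Subtype.ext
    rw [h.cores_coe hc, h.ray x y hxy hpos, Subgroup.coe_one]

lemma RayMap.cores_surj (h : RayMap E m φ) (g : h.image) :
    ∃ a : Ideal (𝓞 E), IsCoprime a (Ideal.span {(m : 𝓞 E)}) ∧ h.cores a = g := by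
  obtain ⟨g, I, hI, rfl⟩ := g
  exact ⟨I, hI, Subtype.ext (h.cores_coe hI)⟩

/-- **Second inequality**: if the primes of degree one of `L` over `E` are in the kernel of the ray
class map `φ` then its image has at most `[L : E]` elements. -/
theorem card_image_le {L : Type*} [Field L] [NumberField L] [Algebra E L] (h : RayMap E m φ)
    (h0 : ∀ Q : PK L, (m : 𝓞 L) ∉ Q.asIdeal → Np Q = Np (below E Q) →
      φ (below E Q).asIdeal = 1) : Nat.card h.image ≤ finrank E L := by
  have hm : m ≠ 0 := by have := h.two_le; omega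
  have hmz : NeZero m := ⟨hm⟩
  have h1 := card_le_of_densGE h.rayMap_cores h.cores_surj (densGE_degOne (K := E) (L := L))
    (negligible_of_finite (finite_contain (K := E) hm)) (by
      rintro q ⟨Q, hQ, hN⟩
      by_cases hq : (m : 𝓞 E) ∈ q.asIdeal
      · exact Or.inr hq
      · left
        have hc : IsCoprime q.asIdeal (Ideal.span {(m : 𝓞 E)}) := (isCoprime_iff m q).mpr hq
        refine ⟨hc, ?_⟩
        apply Subtype.ext
        rw [h.cores_coe hc, Subgroup.coe_one, ← hQ]
        apply h0 Q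
        · intro hmQ
          apply hq
          rw [← hQ, below_asIdeal, Ideal.under_def, Ideal.mem_comap, map_natCast]
          exact hmQ
        · rw [hN, hQ])
  have h2 : (0 : ℝ) < finrank E L := by exact_mod_cast finrank_pos
  have h3 : (0 : ℝ) < Nat.card h.image := by exact_mod_cast Nat.card_pos
  rw [one_div_le_one_div h2 h3] at h1
  exact_mod_cast h1

end

/-- S4 (second inequality) -/
theorem second (E L : Type) [Field E] [NumberField E] [Field L] [NumberField L] [Algebra E L]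
    (n m : ℕ) (hn : 0 < n) (hm : 2 ≤ m) (a lam : Ideal (𝓞 E) → ZMod n)
    (ha : RayLam E n m a) (hl : RayLam E n m lam)
    (h0 : ∀ Q : Ideal (𝓞 L), Q.IsPrime → (m : 𝓞 L) ∉ Q →
      Ideal.absNorm Q = Ideal.absNorm (Q.under (𝓞 E)) →
      a (Q.under (𝓞 E)) = 0 ∧ lam (Q.under (𝓞 E)) = 0)
    (hgen : ∃ q : Ideal (𝓞 E), q.IsPrime ∧ (m : 𝓞 E) ∉ q ∧ addOrderOf (a q) = finrank E L) :
    ∃ c : ZMod n, ∀ q : Ideal (𝓞 E), q.IsPrime → (m : 𝓞 E) ∉ q → lam q = c * a q := by
  have hnz : NeZero n := ⟨hn.ne'⟩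
  have hm0 : m ≠ 0 := by omega
  have hmz : NeZero m := ⟨hm0⟩
  -- the values at the zero ideal
  have hbot : a ⊥ = 0 ∧ lam ⊥ = 0 := by
    have h1 : (⊥ : Ideal (𝓞 L)).under (𝓞 E) = ⊥ := by
      rw [Ideal.under_def]
      exact Ideal.comap_bot_of_injective _ (FaithfulSMul.algebraMap_injective (𝓞 E) (𝓞 L))
    have h2 := h0 ⊥ Ideal.isPrime_bot (by
      rw [Ideal.mem_bot]
      exact_mod_cast hm0) (by rw [h1, Ideal.absNorm_bot, Ideal.absNorm_bot])
    rw [h1] at h2
    exact h2
  let φ : Ideal (𝓞 E) → Multiplicative (ZMod n × ZMod n) := fun I =>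
    Multiplicative.ofAdd (a I, lam I)
  have hφ : RayMap E m φ := by
    refine ⟨hm, ?_, ?_⟩
    · intro I J hI hJ
      change Multiplicative.ofAdd _ = Multiplicative.ofAdd _ * Multiplicative.ofAdd _
      rw [ha.add I J (ne_bot_of_coprime hm hI) (ne_bot_of_coprime hm hJ),
        hl.add I J (ne_bot_of_coprime hm hI) (ne_bot_of_coprime hm hJ), ← ofAdd_add]
      rfl
    · intro x y hxy hpos
      have hdvd : (m : 𝓞 E) ∣ x - 1 := ⟨y, by rw [hxy]; ring⟩
      have hx0 : x ≠ 0 := by
        rintro rfl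
        apply natCast_not_isUnit (K := E) hm
        rw [zero_sub, dvd_neg] at hdvd
        exact isUnit_of_dvd_one hdvd
      change Multiplicative.ofAdd _ = 1
      rw [ha.ray x hx0 hdvd hpos, hl.ray x hx0 hdvd hpos]
      rfl
  have hcard : Nat.card hφ.image ≤ finrank E L := by
    apply card_image_le hφ
    intro Q hQ hN
    have h1 := h0 Q.asIdeal Q.isPrime hQ (by
      unfold Np at hN
      rw [below_asIdeal] at hN
      exact_mod_cast hN)
    change Multiplicative.ofAdd (a (Q.asIdeal.under (𝓞 E)), lam (Q.asIdeal.under (𝓞 E))) = 1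
    rw [h1.1, h1.2]
    rfl
  have hcop : ∀ q : Ideal (𝓞 E), q.IsPrime → (m : 𝓞 E) ∉ q → q ≠ ⊥ →
      IsCoprime q (Ideal.span {(m : 𝓞 E)}) := fun q hq hmq hq0 =>
    (isCoprime_iff m (⟨q, hq, hq0⟩ : PK E)).mpr hmq
  -- an element of the image with first coordinate of order `[L : E]`
  obtain ⟨g, hg, hgo⟩ : ∃ g ∈ hφ.image,
      addOrderOf (Multiplicative.toAdd g).1 = finrank E L := by
    obtain ⟨q, hq, hmq, hqo⟩ := hgen
    by_cases hq0 : q = ⊥
    · refine ⟨1, hφ.image.one_mem, ?_⟩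
      rw [← hqo, hq0, hbot.1]
      rfl
    · exact ⟨φ q, hφ.mem_image (hcop q hq hmq hq0), hqo⟩
  set x : ZMod n := (Multiplicative.toAdd g).1 with hx
  set y : ZMod n := (Multiplicative.toAdd g).2 with hy
  have hgxy : g = Multiplicative.ofAdd (x, y) := rfl
  -- `g` generates the image
  have hord1 : finrank E L ≤ orderOf g := by
    rw [← hgo]
    apply Nat.le_of_dvd (orderOf_pos g)
    rw [addOrderOf_dvd_iff_nsmul_eq_zero]
    have h1 := pow_orderOf_eq_one g
    have h2 : (orderOf g • (x, y) : ZMod n × ZMod n) = 0 := by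
      have h3 : Multiplicative.toAdd (g ^ orderOf g) = 0 := by rw [h1]; rfl
      rw [toAdd_pow] at h3
      exact h3
    exact (Prod.ext_iff.mp h2).1
  have hzle : Subgroup.zpowers g ≤ hφ.image := by
    rw [Subgroup.zpowers_le]; exact hg
  have hzeq : Subgroup.zpowers g = hφ.image := by
    apply Subgroup.eq_of_le_of_card_ge hzle
    rw [Nat.card_zpowers]
    omega
  have hord : orderOf g = finrank E L := by
    have h1 : Nat.card (Subgroup.zpowers g) = Nat.card hφ.image := by rw [hzeq]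
    rw [Nat.card_zpowers] at h1
    omega
  have hy0 : addOrderOf x • y = 0 := by
    rw [hgo, ← hord]
    have h1 := pow_orderOf_eq_one g
    have h3 : Multiplicative.toAdd (g ^ orderOf g) = 0 := by rw [h1]; rfl
    rw [toAdd_pow] at h3
    exact (Prod.ext_iff.mp h3).2
  obtain ⟨c, hc⟩ := exists_mul_eq hn x y hy0
  refine ⟨c, fun q hq hmq => ?_⟩
  by_cases hq0 : q = ⊥
  · rw [hq0, hbot.1, hbot.2, mul_zero]
  · have h1 := hφ.mem_image (hcop q hq hmq hq0)
    rw [← hzeq, Subgroup.mem_zpowers_iff] at h1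
    obtain ⟨k, hk⟩ := h1
    have h2 : (k • (x, y) : ZMod n × ZMod n) = (a q, lam q) := by
      have h3 : Multiplicative.toAdd (g ^ k) = Multiplicative.toAdd (φ q) := by rw [hk]
      rw [toAdd_zpow] at h3
      exact h3
    have h3 := (Prod.ext_iff.mp h2).1
    have h4 := (Prod.ext_iff.mp h2).2
    simp only [Prod.smul_fst, Prod.smul_snd] at h3 h4
    rw [← h3, ← h4, hc, zsmul_eq_mul, zsmul_eq_mul]
    ring

end Pool.Agent.ARC
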