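import Mathlib
import Pool.Agent.ARC.Defs

/-! # ARC WNrm
Norms of elements of a ray.
-/

set_option autoImplicit false

noncomputable section

namespace Pool.Agent.ARC

open NumberField Module nonZeroDivisors Pool.Agent.Helper4

private lemma wnrm_prod {ι A : Type*} [CommRing A] (s : Finset ι) (f : ι → A) (m : ℕ)
    (h : ∀ i ∈ s, ∃ t : A, IsIntegral ℤ t ∧ f i = 1 + m * t) :
    ∃ t : A, IsIntegral ℤ t ∧ ∏ i ∈ s, f i = 1 + m * t := by
  classical
  induction s using Finset.induction_on with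
  | empty => exact ⟨0, isIntegral_zero, by simp⟩
  | insert a s ha ih =>
    obtain ⟨t, ht, h1⟩ := ih (fun i hi => h i (Finset.mem_insert_of_mem hi))
    obtain ⟨r, hr, h2⟩ := h a (Finset.mem_insert_self a s)
    refine ⟨r + t + m * (r * t), ?_, ?_⟩
    · refine (hr.add ht).add (IsIntegral.mul ?_ (hr.mul ht))
      have := isIntegral_algebraMap (R := ℤ) (A := A) (x := (m : ℤ))
      simpa using this
    · rw [Finset.prod_insert ha, h1, h2]; ring

private lemma wnrm_pos (K E : Type) [Field K] [NumberField K] [Field E] [NumberField E]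
    [Algebra K E] (x : E) (hx0 : x ≠ 0) (hpos : ∀ w : RP E, 0 < rv w x) (w : RP K) :
    0 < rv w (Algebra.norm K x) := by
  classical
  let _ : Algebra K ℂ := (w.1.embedding).toAlgebra
  have hmap : ∀ k : K, algebraMap K ℂ k = w.1.embedding k := fun k => rfl
  have hrv : ∀ k : K, ((rv w k : ℝ) : ℂ) = w.1.embedding k := by
    intro k
    exact InfinitePlace.embedding_of_isReal_apply w.2 k
  have hN := Algebra.norm_eq_prod_embeddings K ℂ x
  -- conjugation
  let cj : (E →ₐ[K] ℂ) → (E →ₐ[K] ℂ) := fun σ =>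
    { toRingHom := (starRingEnd ℂ).comp σ.toRingHom
      commutes' := by
        intro k
        change (starRingEnd ℂ) (σ (algebraMap K E k)) = _
        rw [σ.commutes, hmap, ← hrv, Complex.conj_ofReal] }
  have hcj : ∀ σ y, cj σ y = (starRingEnd ℂ) (σ y) := fun σ y => rfl
  have hne : ∀ σ : E →ₐ[K] ℂ, σ x ≠ 0 := by
    intro σ h
    exact hx0 ((map_eq_zero σ).1 h)
  have habs : ∀ σ : E →ₐ[K] ℂ, ((‖σ x‖ : ℝ) : ℂ) ≠ 0 := by
    intro σ
    exact_mod_cast (norm_ne_zero_iff.2 (hne σ))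
  have hprod : ∏ σ : E →ₐ[K] ℂ, (σ x / ((‖σ x‖ : ℝ) : ℂ)) = 1 := by
    refine Finset.prod_involution (fun σ _ => cj σ) ?_ ?_ (fun _ _ => Finset.mem_univ _) ?_
    · intro σ _
      rw [hcj, Complex.norm_conj, div_mul_div_comm, Complex.mul_conj, Complex.normSq_eq_norm_sq,
        ← pow_two, ← Complex.ofReal_pow]
      refine div_self ?_
      exact_mod_cast pow_ne_zero 2 (norm_ne_zero_iff.2 (hne σ))
    · intro σ _ h1 h2
      apply h1
      have hreal : ComplexEmbedding.IsReal (σ : E →+* ℂ) := by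
        rw [ComplexEmbedding.isReal_iff]
        ext y
        have := congrArg (fun τ : E →ₐ[K] ℂ => τ y) h2
        simp only [hcj] at this
        rw [ComplexEmbedding.conjugate_coe_eq]
        exact this
      have hw : InfinitePlace.IsReal (InfinitePlace.mk (σ : E →+* ℂ)) := ⟨_, hreal, rfl⟩
      have h3 := hpos ⟨_, hw⟩
      have h4 : ((rv (⟨_, hw⟩ : RP E) x : ℝ) : ℂ) = σ x := by
        have h5 : ((rv (⟨_, hw⟩ : RP E) x : ℝ) : ℂ)
            = (InfinitePlace.mk (σ : E →+* ℂ)).embedding x :=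
          InfinitePlace.embedding_of_isReal_apply hw x
        rw [h5, InfinitePlace.embedding_mk_eq_of_isReal hreal]
        rfl
      rw [← h4, Complex.norm_real, Real.norm_of_nonneg h3.le, div_self]
      exact_mod_cast h3.ne'
    · intro σ _
      ext y
      simp [hcj]
  have h6 : ((rv w (Algebra.norm K x) : ℝ) : ℂ)
      = ((∏ σ : E →ₐ[K] ℂ, ‖σ x‖ : ℝ) : ℂ) := by
    rw [hrv, ← hmap, hN]
    rw [Complex.ofReal_prod]
    rw [Finset.prod_div_distrib] at hprod
    rwa [div_eq_one_iff_eq (Finset.prod_ne_zero_iff.2 fun σ _ => habs σ)] at hprod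
  have h7 := Complex.ofReal_injective h6
  rw [h7]
  exact Finset.prod_pos fun σ _ => norm_pos_iff.2 (hne σ)

private lemma wnrm_core (K E : Type) [Field K] [NumberField K] [Field E] [NumberField E]
    [Algebra K E] (m : ℕ) (x : 𝓞 E) (hx : (m : 𝓞 E) ∣ x - 1) (y : 𝓞 K)
    (hy : (y : K) = Algebra.norm K (x : E)) : (m : 𝓞 K) ∣ y - 1 := by
  classical
  obtain ⟨u, hu⟩ := hx
  have hx' : x = 1 + m * u := by rw [← hu]; ring
  rcases Nat.eq_zero_or_pos m with rfl | hm
  · have h1 : x = 1 := by rw [hx']; simp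
    have h2 : (y : K) = 1 := by rw [hy, h1]; simp
    have h3 : y = 1 := by exact_mod_cast h2
    rw [h3]; simp
  have hN := Algebra.norm_eq_prod_embeddings K (AlgebraicClosure K) (x : E)
  obtain ⟨t, ht, h1⟩ := wnrm_prod (Finset.univ : Finset (E →ₐ[K] AlgebraicClosure K))
    (fun σ => σ (x : E)) m (fun σ _ => by
      refine ⟨σ (u : E), ?_, ?_⟩
      · have h2 : IsIntegral ℤ (u : E) := u.2
        exact h2.map (σ.restrictScalars ℤ)
      · rw [hx']
        push_cast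
        rw [map_add, map_mul, map_one, map_natCast])
  have hmK : (m : K) ≠ 0 := by exact_mod_cast hm.ne'
  have h3 : algebraMap K (AlgebraicClosure K) (((y : K) - 1) / m) = t := by
    rw [map_div₀, map_sub, map_one, map_natCast, hy, hN, h1]
    have : (m : AlgebraicClosure K) ≠ 0 := by exact_mod_cast hm.ne'
    field_simp
    ring
  have h4 : IsIntegral ℤ (((y : K) - 1) / m) := by
    rw [← h3] at ht
    exact (isIntegral_algebraMap_iff (algebraMap K (AlgebraicClosure K)).injective).1 ht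
  refine ⟨⟨_, h4⟩, ?_⟩
  apply RingOfIntegers.ext
  change ((y : K) - 1) = (m : K) * (((y : K) - 1) / m)
  field_simp

theorem ray_norm (K E : Type) [Field K] [NumberField K] [Field E] [NumberField E] [Algebra K E]
    (m : ℕ) (x : 𝓞 E) (hx0 : x ≠ 0) (hx : (m : 𝓞 E) ∣ x - 1) (hpos : ∀ w : RP E, 0 < rv w (x : E)) :
    ∃ y : 𝓞 K, y ≠ 0 ∧ (m : 𝓞 K) ∣ y - 1 ∧ (∀ w : RP K, 0 < rv w (y : K)) ∧
      Ideal.relNorm (𝓞 K) (Ideal.span {x}) = Ideal.span {y} := by
  have hx0' : (x : E) ≠ 0 := by exact_mod_cast hx0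
  have hy : ((Algebra.intNorm (𝓞 K) (𝓞 E) x : 𝓞 K) : K) = Algebra.norm K (x : E) :=
    Algebra.algebraMap_intNorm (A := 𝓞 K) (K := K) (L := E) (B := 𝓞 E) x
  refine ⟨Algebra.intNorm (𝓞 K) (𝓞 E) x, ?_, wnrm_core K E m x hx _ hy, ?_,
    Ideal.relNorm_singleton (𝓞 K) x⟩
  · intro h
    rw [h] at hy
    have : Algebra.norm K (x : E) ≠ 0 := Algebra.norm_ne_zero_iff.2 hx0'
    exact this (by rw [← hy]; simp)
  · intro w
    rw [hy]
    exact wnrm_pos K E x hx0' hpos w

theorem ray_absNorm (E : Type) [Field E] [NumberField E]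
    (m : ℕ) (x : 𝓞 E) (hx0 : x ≠ 0) (hx : (m : 𝓞 E) ∣ x - 1) (hpos : ∀ w : RP E, 0 < rv w (x : E)) :
    (m : ℤ) ∣ (Ideal.absNorm (Ideal.span {x}) : ℤ) - 1 := by
  have hx0' : (x : E) ≠ 0 := by exact_mod_cast hx0
  have hy : ((Algebra.norm ℤ x : ℤ) : ℚ) = Algebra.norm ℚ (x : E) := Algebra.coe_norm_int x
  have h1 : (((Algebra.norm ℤ x : ℤ) : 𝓞 ℚ) : ℚ) = Algebra.norm ℚ (x : E) := by
    rw [← hy]; simp
  have h2 := wnrm_core ℚ E m x hx _ h1
  have h3 : ∀ w : RP ℚ, 0 < rv w (Algebra.norm ℚ (x : E)) := wnrm_pos ℚ E (x : E) hx0' hpos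
  have hw : InfinitePlace.IsReal Rat.infinitePlace := Rat.isReal_infinitePlace
  have h4 := h3 ⟨Rat.infinitePlace, hw⟩
  rw [← hy] at h4
  have h5 : rv (⟨Rat.infinitePlace, hw⟩ : RP ℚ) (((Algebra.norm ℤ x : ℤ)) : ℚ)
      = ((Algebra.norm ℤ x : ℤ) : ℝ) := by simp
  rw [h5] at h4
  have h6 : 0 < Algebra.norm ℤ x := by exact_mod_cast h4
  rw [Ideal.absNorm_span_singleton, Int.natAbs_of_nonneg h6.le]
  obtain ⟨c, hc⟩ := h2
  have hcq : IsIntegral ℤ (c : ℚ) := c.2
  obtain ⟨k, hk⟩ := IsIntegrallyClosed.isIntegral_iff.1 hcq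
  refine ⟨k, ?_⟩
  have h7 := congrArg (fun t : 𝓞 ℚ => (t : ℚ)) hc
  simp only [map_sub, map_mul, map_one, map_intCast, map_natCast] at h7
  have hk' : (k : ℚ) = (c : ℚ) := by simpa using hk
  have h8 : (algebraMap (𝓞 ℚ) ℚ) c = (k : ℚ) := hk'.symm
  rw [h8] at h7
  exact_mod_cast h7

end Pool.Agent.ARC
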