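import Mathlib
import Pool.Agent.ARC.Defs
import Pool.Agent.ARC.WFrA
import Pool.Agent.ARC.WNrm

/-! # ARC WCyR
Characters which factor through a cyclotomic character are ray characters.
-/

set_option autoImplicit false

noncomputable section

namespace Pool.Agent.ARC

open NumberField Module nonZeroDivisors Pool.Agent.Helper4

variable (K F : Type) [Field K] [NumberField K] [Field F] [NumberField F] [Algebra K F]

private lemma wcyr_claim [IsGalois K F] (n M q : ℕ) (hM : 2 ≤ M) (hq : q ∣ M)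
    (e : (F ≃ₐ[K] F) →* Multiplicative (ZMod n)) (z : F) (hz : IsPrimitiveRoot z q)
    (a : Ideal (𝓞 K) → ZMod n) (ha : IsArt K F n M e a) (I : Ideal (𝓞 K)) :
    I ≠ ⊥ → (∀ P : Ideal (𝓞 K), P.IsPrime → I ≤ P → (M : 𝓞 K) ∉ P) →
      ∃ g : F ≃ₐ[K] F, (e g).toAdd = a I ∧ g z = z ^ Ideal.absNorm I := by
  classical
  refine UniqueFactorizationMonoid.induction_on_prime
    (P := fun I : Ideal (𝓞 K) => I ≠ ⊥ →
      (∀ P : Ideal (𝓞 K), P.IsPrime → I ≤ P → (M : 𝓞 K) ∉ P) →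
      ∃ g : F ≃ₐ[K] F, (e g).toAdd = a I ∧ g z = z ^ Ideal.absNorm I) I ?_ ?_ ?_
  · intro h; exact absurd rfl h
  · intro J hJ _ _
    have hJ1 : J = ⊤ := Ideal.isUnit_iff.1 hJ
    subst hJ1
    refine ⟨1, ?_, ?_⟩
    · have h1 := ha.add ⊤ ⊤ top_ne_bot top_ne_bot
      rw [Ideal.top_mul] at h1
      have h2 : a ⊤ = 0 := by simpa using h1
      rw [h2]; simp
    · rw [Ideal.absNorm_top, pow_one]; rfl
  · intro J p hJ hp ih hne hdiv
    have hJne : J ≠ ⊥ := hJ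
    have hpp : p.IsPrime := Ideal.isPrime_of_prime hp
    have hp0 : p ≠ ⊥ := hp.ne_zero
    have hMp : (M : 𝓞 K) ∉ p := hdiv p hpp Ideal.mul_le_left
    obtain ⟨g1, hg1, hg1'⟩ := ih hJne (fun P hP hle => hdiv P hP (Ideal.mul_le_right.trans hle))
    obtain ⟨Q, hQ, hQp⟩ := prime_above K F p hpp
    have hQ0 : Q ≠ ⊥ := by
      rintro rfl
      apply hp0
      rw [← hQp]
      exact Ideal.under_bot (A := 𝓞 K) (B := 𝓞 F)
    obtain ⟨g2, hg2⟩ := frob_exists K F Q hQ hQ0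
    have hMQ : (M : 𝓞 F) ∉ Q := by
      intro h
      apply hMp
      rw [← hQp, Ideal.under_def, Ideal.mem_comap, map_natCast]
      exact h
    have hqQ : (q : 𝓞 F) ∉ Q := by
      intro h
      apply hMQ
      obtain ⟨c, rfl⟩ := hq
      rw [Nat.cast_mul]
      exact Ideal.mul_mem_right _ _ h
    have h3 := ha.frob Q hQ hMQ g2 hg2
    have h4 := frob_root K F Q hQ g2 hg2 z q hz.pow_eq_one hqQ
    rw [hQp] at h3 h4
    refine ⟨g2 * g1, ?_, ?_⟩
    · rw [map_mul, toAdd_mul, hg1, ← h3, ha.add p J hp0 hJne]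
    · rw [AlgEquiv.mul_apply, hg1', map_pow, h4, ← pow_mul, map_mul]

theorem cyclo_ray [IsGalois K F] (n M q : ℕ) (hM : 2 ≤ M) (hq : q ∣ M)
    (e : (F ≃ₐ[K] F) →* Multiplicative (ZMod n)) (z : F) (hz : IsPrimitiveRoot z q)
    (he : ∀ g : F ≃ₐ[K] F, g z = z → e g = 1) (a : Ideal (𝓞 K) → ZMod n)
    (ha : IsArt K F n M e a) : RayLam K n M a := by
  classical
  refine ⟨ha.add, ?_⟩
  intro x hx0 hx hpos
  have hI0 : Ideal.span {x} ≠ ⊥ := by
    intro h
    exact hx0 (Ideal.span_singleton_eq_bot.1 h)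
  obtain ⟨g, hg, hg'⟩ := wcyr_claim K F n M q hM hq e z hz a ha (Ideal.span {x}) hI0 (by
    intro P hP hle hMP
    have hxP : x ∈ P := hle (Ideal.mem_span_singleton_self x)
    obtain ⟨c, hc⟩ := hx
    have h1 : x - 1 ∈ P := by rw [hc]; exact Ideal.mul_mem_right _ _ hMP
    have h2 : (1 : 𝓞 K) ∈ P := by
      have := P.sub_mem hxP h1
      simpa using this
    exact hP.ne_top ((Ideal.eq_top_iff_one _).2 h2))
  have h3 := ray_absNorm K M x hx0 hx hpos
  have h4 : (q : ℤ) ∣ (Ideal.absNorm (Ideal.span {x}) : ℤ) - 1 :=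
    dvd_trans (Int.natCast_dvd_natCast.2 hq) h3
  have h5 : Ideal.absNorm (Ideal.span {x}) ≡ 1 [MOD q] := by
    rw [← Int.natCast_modEq_iff]
    have h6 := (Int.modEq_iff_dvd.2 h4).symm
    simpa using h6
  have h6 : z ^ Ideal.absNorm (Ideal.span {x}) = z := by
    have := pow_eq_pow_of_modEq h5 hz.pow_eq_one
    simpa using this
  rw [h6] at hg'
  have h7 := he g hg'
  rw [← hg, h7]
  rfl

end Pool.Agent.ARC
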