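import Mathlib
import Pool.Agent.ARC.Defs
import Pool.Agent.ARC.SplitDens

/-! # ARC, part S2: not every prime splits completely -/

set_option autoImplicit false
set_option linter.unusedSectionVars false

noncomputable section

namespace Pool.Agent.ARC

open Filter Topology NumberField nonZeroDivisors IsDedekindDomain Pool.Agent.Helper4 Module

open scoped Classical Pointwise

section

variable {E L : Type*} [Field E] [NumberField E] [Field L] [NumberField L] [Algebra E L]

/-- residue degree one: every residue class is represented by an element of the small ring -/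
lemma exists_sub_mem (Q : PK L) (h : Np Q = Np (below E Q)) (x : 𝓞 L) :
    ∃ y : 𝓞 E, x - algebraMap (𝓞 E) (𝓞 L) y ∈ Q.asIdeal := by
  have f1 := finite_quot Q
  have f2 := finite_quot (below E Q)
  let f : 𝓞 E ⧸ (below E Q).asIdeal →+* 𝓞 L ⧸ Q.asIdeal :=
    Ideal.quotientMap Q.asIdeal (algebraMap (𝓞 E) (𝓞 L)) le_rfl
  have hinj : Function.Injective f := Ideal.quotientMap_injective
  have hcard : Nat.card (𝓞 E ⧸ (below E Q).asIdeal) = Nat.card (𝓞 L ⧸ Q.asIdeal) := by
    rw [← absNorm_eq_card, ← absNorm_eq_card]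
    unfold Np at h
    exact_mod_cast h.symm
  have hbij : Function.Bijective f := (Nat.bijective_iff_injective_and_card f).mpr ⟨hinj, hcard⟩
  obtain ⟨z, hz⟩ := hbij.2 (Ideal.Quotient.mk Q.asIdeal x)
  obtain ⟨y, rfl⟩ := Ideal.Quotient.mk_surjective z
  refine ⟨y, ?_⟩
  rw [← Ideal.Quotient.eq, ← hz]
  rfl

/-- a Galois conjugate of a prime -/
def smulP (g : L ≃ₐ[E] L) (Q : PK L) : PK L where
  asIdeal := g • Q.asIdeal
  isPrime := inferInstance
  ne_bot := by
    intro h
    apply Q.ne_bot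
    have h1 : g⁻¹ • (g • Q.asIdeal) = g⁻¹ • (⊥ : Ideal (𝓞 L)) := by rw [h]
    rw [inv_smul_smul] at h1
    rw [h1]
    simp

lemma below_smulP [IsGalois E L] (g : L ≃ₐ[E] L) (Q : PK L) : below E (smulP g Q) = below E Q := by
  apply HeightOneSpectrum.ext
  change (g • Q.asIdeal).under (𝓞 E) = Q.asIdeal.under (𝓞 E)
  exact Ideal.under_smul (𝓞 E) Q.asIdeal g

end

/-- S5 -/
theorem not_split (E L : Type) [Field E] [NumberField E] [Field L] [NumberField L] [Algebra E L]
    [IsGalois E L] (h2 : 2 ≤ finrank E L) (m : ℕ) (hm : m ≠ 0) (hU : Unr E L m) :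
    ∃ Q : Ideal (𝓞 L), Q.IsPrime ∧ (m : 𝓞 L) ∉ Q ∧
      Ideal.absNorm Q ≠ Ideal.absNorm (Q.under (𝓞 E)) := by
  by_contra hcon
  push Not at hcon
  have hN : ∀ Q : PK L, (m : 𝓞 L) ∉ Q.asIdeal → Np Q = Np (below E Q) := by
    intro Q hQ
    have := hcon Q.asIdeal Q.isPrime hQ
    unfold Np
    rw [below_asIdeal, this]
  set S : Set (PK E) := {q | (m : 𝓞 E) ∉ q.asIdeal} with hS
  have hmem : ∀ Q : PK L, (m : 𝓞 L) ∈ Q.asIdeal ↔ (m : 𝓞 E) ∈ (below E Q).asIdeal := by
    intro Q
    rw [below_asIdeal, Ideal.under_def, Ideal.mem_comap, map_natCast]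
  have hsplit : ∀ q ∈ S, finrank E L ≤ Nat.card {Q : PK L // below E Q = q ∧ Np Q = Np q} := by
    intro q hq
    -- a prime over `q`
    obtain ⟨⟨Q₀, hQ₀p, hQ₀l⟩⟩ := (inferInstance : Nonempty (q.asIdeal.primesOver (𝓞 L)))
    have hQ₀b : Q₀ ≠ ⊥ := by
      rintro rfl
      apply q.ne_bot
      rw [hQ₀l.over, Ideal.under_def]
      exact Ideal.comap_bot_of_injective _ (FaithfulSMul.algebraMap_injective (𝓞 E) (𝓞 L))
    set Q : PK L := ⟨Q₀, hQ₀p, hQ₀b⟩ with hQ
    have hbel : below E Q = q := HeightOneSpectrum.ext hQ₀l.over.symm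
    have hmQ : (m : 𝓞 L) ∉ Q.asIdeal := by
      rw [hmem, hbel]
      exact hq
    have hfin : Finite {Q : PK L // below E Q = q ∧ Np Q = Np q} := by
      let i : {Q : PK L // below E Q = q ∧ Np Q = Np q} → {Q : PK L // below E Q = q} :=
        fun Q => ⟨Q.1, Q.2.1⟩
      refine Finite.of_injective i ?_
      intro Q Q' h
      have h' : (i Q).1 = (i Q').1 := congrArg Subtype.val h
      exact Subtype.ext h'
    have hconj : ∀ g : L ≃ₐ[E] L, below E (smulP g Q) = q ∧ Np (smulP g Q) = Np q := by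
      intro g
      have h1 : below E (smulP g Q) = q := by rw [below_smulP, hbel]
      refine ⟨h1, ?_⟩
      rw [hN (smulP g Q) (by rw [hmem, h1]; exact hq), h1]
    let f : (L ≃ₐ[E] L) → {Q : PK L // below E Q = q ∧ Np Q = Np q} :=
      fun g => ⟨smulP g Q, hconj g⟩
    have hf : Function.Injective f := by
      intro g g' hgg
      have h1 : g • Q.asIdeal = g' • Q.asIdeal :=
        congrArg (fun R : {Q : PK L // below E Q = q ∧ Np Q = Np q} => R.1.asIdeal) hgg
      have h2 : (g⁻¹ * g') • Q.asIdeal = Q.asIdeal := by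
        rw [mul_smul, ← h1, inv_smul_smul]
      have h3 : g⁻¹ * g' = 1 := by
        apply hU Q.asIdeal Q.isPrime hmQ
        intro x
        obtain ⟨y, hy⟩ := exists_sub_mem (E := E) Q (hN Q hmQ) x
        have h4 : (g⁻¹ * g') • (x - algebraMap (𝓞 E) (𝓞 L) y) ∈ Q.asIdeal := by
          have h5 := Ideal.smul_mem_pointwise_smul (g⁻¹ * g') _ Q.asIdeal hy
          rwa [h2] at h5
        have h6 : (g⁻¹ * g') • x - x = (g⁻¹ * g') • (x - algebraMap (𝓞 E) (𝓞 L) y)
            - (x - algebraMap (𝓞 E) (𝓞 L) y) := by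
          rw [smul_sub, smul_algebraMap]
          ring
        rw [h6]
        exact Q.asIdeal.sub_mem h4 hy
      exact (inv_mul_eq_one.mp h3)
    calc finrank E L = Nat.card (L ≃ₐ[E] L) := (IsGalois.card_aut_eq_finrank E L).symm
      _ ≤ _ := Nat.card_le_card_of_injective f hf
  have h1 : DensLE S (1 / (finrank E L : ℝ)) :=
    densLE_of_split (L := L) (by omega) hsplit
  have h3 : DensGE S 1 := by
    refine (densGE_univ (K := E)).of_subset_union ?_
      (negligible_of_finite (finite_contain (K := E) hm))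
    intro q _
    by_cases hq : (m : 𝓞 E) ∈ q.asIdeal
    · exact Or.inr hq
    · exact Or.inl hq
  have h4 := le_of_dens h3 h1
  have h5 : (2 : ℝ) ≤ finrank E L := by exact_mod_cast h2
  rw [le_div_iff₀ (by linarith)] at h4
  linarith

end Pool.Agent.ARC
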