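import Mathlib
import Pool.Agent.ARC.Defs

/-! # ARC WDeg
Residue degrees.
-/

set_option autoImplicit false

noncomputable section

namespace Pool.Agent.ARC

open NumberField Module nonZeroDivisors Pool.Agent.Helper4

variable (K F : Type) [Field K] [NumberField K] [Field F] [NumberField F] [Algebra K F]

private lemma wdeg_iter {k : Type*} [Monoid k] (N i : ℕ) (x : k) :
    (fun y : k => y ^ N)^[i] x = x ^ N ^ i := by
  induction i generalizing x with
  | zero => simp
  | succ i ih => rw [Function.iterate_succ_apply, ih, ← pow_mul, pow_succ' N i]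

private lemma wdeg_field {k : Type*} [Field k] [Finite k] (N f j : ℕ) (hN : 2 ≤ N) (hf : 0 < f)
    (hcard : Nat.card k = N ^ f) (hj : ∀ x : k, x ^ N ^ j = x) : f ∣ j := by
  classical
  have : Fintype k := Fintype.ofFinite k
  have hd : ∀ x : k, x ^ N ^ (f.gcd j) = x := by
    intro x
    have h1 : Function.IsPeriodicPt (fun y : k => y ^ N) f x := by
      change (fun y : k => y ^ N)^[f] x = x
      rw [wdeg_iter, ← hcard, Nat.card_eq_fintype_card]
      exact FiniteField.pow_card x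
    have h2 : Function.IsPeriodicPt (fun y : k => y ^ N) j x := by
      change (fun y : k => y ^ N)^[j] x = x
      rw [wdeg_iter]
      exact hj x
    have h3 := h1.gcd h2
    change (fun y : k => y ^ N)^[f.gcd j] x = x at h3
    rwa [wdeg_iter] at h3
  have hd0 : 0 < f.gcd j := Nat.gcd_pos_of_pos_left _ hf
  have h2le : 2 ≤ N ^ (f.gcd j) := le_trans hN (Nat.le_self_pow hd0.ne' N)
  have hle : N ^ f ≤ N ^ (f.gcd j) := by
    by_contra hlt
    push Not at hlt
    have hdeg : (Polynomial.X ^ N ^ (f.gcd j) - Polynomial.X : Polynomial k).natDegree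
        = N ^ (f.gcd j) := by
      rw [Polynomial.natDegree_sub_eq_left_of_natDegree_lt]
      · simp
      · simp only [Polynomial.natDegree_X, Polynomial.natDegree_X_pow]; omega
    have h0 := Polynomial.eq_zero_of_natDegree_lt_card_of_eval_eq_zero
      (Polynomial.X ^ N ^ (f.gcd j) - Polynomial.X : Polynomial k) (f := fun x : k => x)
      (fun _ _ h => h) (fun x => by simp [hd x]) (by
        rw [hdeg, ← Nat.card_eq_fintype_card, hcard]; exact hlt)
    rw [h0] at hdeg
    simp at hdeg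
    omega
  have h4 : f ≤ f.gcd j := (Nat.pow_le_pow_iff_right (by omega)).1 hle
  have h5 : f.gcd j = f := le_antisymm (Nat.gcd_le_left _ hf) h4
  rw [← h5]
  exact Nat.gcd_dvd_right _ _

theorem res_degree (Q : Ideal (𝓞 F)) (hQ : Q.IsPrime) (h0 : Q ≠ ⊥) : ∃ f : ℕ, 0 < f ∧
    Ideal.absNorm Q = Ideal.absNorm (Q.under (𝓞 K)) ^ f ∧
    Ideal.relNorm (𝓞 K) Q = (Q.under (𝓞 K)) ^ f ∧
    ∀ j : ℕ, (∀ x : 𝓞 F, x ^ Ideal.absNorm (Q.under (𝓞 K)) ^ j - x ∈ Q) → f ∣ j := by
  classical
  have hQm : Q.IsMaximal := hQ.isMaximal h0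
  have hover : Q.LiesOver (Q.under (𝓞 K)) := ⟨rfl⟩
  have hqp : (Q.under (𝓞 K)).IsPrime := inferInstance
  obtain ⟨f, hf⟩ := Ideal.exists_relNorm_eq_pow_of_isPrime Q (Q.under (𝓞 K))
  have habs : Ideal.absNorm Q = Ideal.absNorm (Q.under (𝓞 K)) ^ f := by
    have h1 := Ideal.absNorm_relNorm (R := 𝓞 K) (I := Q)
    rw [← h1, hf, map_pow]
  have hQ1 : Ideal.absNorm Q ≠ 1 := by
    intro h
    exact hQ.ne_top (Ideal.absNorm_eq_one_iff.1 h)
  have hQ0 : Ideal.absNorm Q ≠ 0 := by
    intro h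
    exact h0 (Ideal.absNorm_eq_zero_iff.1 h)
  have hfpos : 0 < f := by
    rcases Nat.eq_zero_or_pos f with rfl | h
    · rw [pow_zero] at habs; exact absurd habs hQ1
    · exact h
  refine ⟨f, hfpos, habs, hf, ?_⟩
  intro j hj
  let _ : Field (𝓞 F ⧸ Q) := Ideal.Quotient.field Q
  have hfin : Finite (𝓞 F ⧸ Q) := by
    apply Nat.finite_of_card_ne_zero
    rw [← Submodule.cardQuot_apply, ← Ideal.absNorm_apply]
    exact hQ0
  have hN2 : 2 ≤ Ideal.absNorm (Q.under (𝓞 K)) := by
    by_contra hlt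
    have h3 : Ideal.absNorm (Q.under (𝓞 K)) = 0 ∨ Ideal.absNorm (Q.under (𝓞 K)) = 1 := by omega
    rcases h3 with h3 | h3
    · rw [h3, zero_pow hfpos.ne'] at habs; exact hQ0 habs
    · rw [h3, one_pow] at habs; exact hQ1 habs
  refine wdeg_field (k := 𝓞 F ⧸ Q) _ f j hN2 hfpos ?_ ?_
  · rw [← habs, Ideal.absNorm_apply, Submodule.cardQuot_apply]
  · intro x
    obtain ⟨y, rfl⟩ := Ideal.Quotient.mk_surjective x
    have h4 := (Ideal.Quotient.eq (I := Q)).2 (hj y)
    rw [← map_pow]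
    exact h4

end Pool.Agent.ARC
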