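import Mathlib
import Pool.Agent.ARC.Defs
import Pool.Agent.ARC.WFrA
import Pool.Agent.ARC.WDeg

/-! # ARC WTow
Frobenius elements in towers K ⊆ E ⊆ F.
frob_tower: f from res_degree K E (Q.under (𝓞 E)) (its prime below in 𝓞 K is Q.under (𝓞 K)); g^f x - x^(N^f) ∈ Q by induction,
h x - x^(N(Q ∩ E)) ∈ Q and N (Q ∩ E) = N^f, so h and g^f agree modulo Q: (h restricted)⁻¹ g^f is in the inertia group (as in
frob_unique), so it is 1 by hU. Last clause: g^j = k fixes 𝓞 E, so x = g^j x = x^(N^j) mod Q for x ∈ 𝓞 E; res_degree.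
frob_restrict: algebraMap (g.restrictNormal E x) = g (algebraMap x) and comap membership.
unr_sub: h in the inertia group over E gives h.restrictScalars K in the inertia group over K.
unr_mono: M ∉ Q if M ∣ M' and M' ∉ Q.
-/

set_option autoImplicit false

noncomputable section

namespace Pool.Agent.ARC

open NumberField Module nonZeroDivisors Pool.Agent.Helper4

variable (K E F : Type) [Field K] [NumberField K] [Field E] [NumberField E] [Field F]
  [NumberField F] [Algebra K E] [Algebra E F] [Algebra K F] [IsScalarTower K E F]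

theorem under_under (Q : Ideal (𝓞 F)) : (Q.under (𝓞 E)).under (𝓞 K) = Q.under (𝓞 K) := by
  ext x
  simp only [Ideal.mem_comap]
  rw [← IsScalarTower.algebraMap_apply (𝓞 K) (𝓞 E) (𝓞 F)]

private theorem wtow_pow (Q : Ideal (𝓞 F)) (g : F ≃ₐ[K] F) (hg : IsFrob K F Q g) (k : ℕ)
    (x : 𝓞 F) : (g ^ k) • x - x ^ Ideal.absNorm (Q.under (𝓞 K)) ^ k ∈ Q := by
  induction k with
  | zero => simp
  | succ k ih =>
    have h1 := hg ((g ^ k) • x)
    have h2 : ((g ^ k) • x) ^ Ideal.absNorm (Q.under (𝓞 K)) -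
        (x ^ Ideal.absNorm (Q.under (𝓞 K)) ^ k) ^ Ideal.absNorm (Q.under (𝓞 K)) ∈ Q :=
      Ideal.mem_of_dvd Q (sub_dvd_pow_sub_pow _ _ _) ih
    have h3 := add_mem h1 h2
    rw [sub_add_sub_cancel, ← mul_smul, ← pow_succ', ← pow_mul, ← pow_succ] at h3
    exact h3

theorem frob_tower (M : ℕ) (hU : Unr K F M) (Q : Ideal (𝓞 F)) (hQ : Q.IsPrime)
    (hM : (M : 𝓞 F) ∉ Q) (g : F ≃ₐ[K] F) (hg : IsFrob K F Q g) (h : F ≃ₐ[E] F)
    (hh : IsFrob E F Q h) : ∃ f : ℕ, 0 < f ∧ h.restrictScalars K = g ^ f ∧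
      Ideal.absNorm (Q.under (𝓞 E)) = Ideal.absNorm (Q.under (𝓞 K)) ^ f ∧
      Ideal.relNorm (𝓞 K) (Q.under (𝓞 E)) = (Q.under (𝓞 K)) ^ f ∧
      ∀ j : ℕ, (∃ k : F ≃ₐ[E] F, k.restrictScalars K = g ^ j) → f ∣ j := by
  have hQ0 : Q ≠ ⊥ := frob_ne_bot K F Q g hg
  have hE0 : Q.under (𝓞 E) ≠ ⊥ := Ideal.IsIntegral.comap_ne_bot (𝓞 E) hQ0
  have hEp : (Q.under (𝓞 E)).IsPrime := inferInstance
  obtain ⟨f, hf, h1, h2, h3⟩ := res_degree K E (Q.under (𝓞 E)) hEp hE0
  rw [under_under] at h1 h2 h3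
  refine ⟨f, hf, ?_, h1, h2, ?_⟩
  · have h4 : g ^ f * (h.restrictScalars K)⁻¹ = 1 := by
      refine hU Q hQ hM _ fun x => ?_
      have h5 := wtow_pow K F Q g hg f ((h.restrictScalars K)⁻¹ • x)
      have h6 := hh ((h.restrictScalars K)⁻¹ • x)
      rw [h1] at h6
      have h7 : h • ((h.restrictScalars K)⁻¹ • x) = x := by
        have h8 : (h.restrictScalars K) • ((h.restrictScalars K)⁻¹ • x) = x :=
          smul_inv_smul _ _
        exact h8
      rw [h7] at h6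
      have h9 := sub_mem h5 h6
      rw [sub_sub_sub_cancel_right, ← mul_smul] at h9
      exact h9
    exact (mul_inv_eq_one.1 h4).symm
  · rintro j ⟨k, hk⟩
    refine h3 j fun x => ?_
    have h5 := wtow_pow K F Q g hg j (algebraMap (𝓞 E) (𝓞 F) x)
    rw [← hk] at h5
    have h6 : (k.restrictScalars K) • (algebraMap (𝓞 E) (𝓞 F) x) = algebraMap (𝓞 E) (𝓞 F) x := by
      apply RingOfIntegers.ext
      exact k.commutes (x : E)
    rw [h6] at h5
    rw [Ideal.mem_comap, map_sub, map_pow]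
    have h7 := neg_mem h5
    rwa [neg_sub] at h7

theorem frob_restrict [IsGalois K E] [IsGalois K F] (Q : Ideal (𝓞 F)) (hQ : Q.IsPrime)
    (g : F ≃ₐ[K] F) (hg : IsFrob K F Q g) : IsFrob K E (Q.under (𝓞 E)) (g.restrictNormal E) := by
  intro x
  rw [under_under, Ideal.mem_comap, map_sub, map_pow]
  have h1 := hg (algebraMap (𝓞 E) (𝓞 F) x)
  have h2 : algebraMap (𝓞 E) (𝓞 F) ((g.restrictNormal E) • x) =
      g • (algebraMap (𝓞 E) (𝓞 F) x) := by
    apply RingOfIntegers.ext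
    exact g.restrictNormal_commutes E (x : E)
  rw [h2]
  exact h1

theorem unr_sub (M : ℕ) (hU : Unr K F M) : Unr E F M := by
  intro Q hQ hM h hx
  have h1 := hU Q hQ hM (h.restrictScalars K) hx
  ext x
  exact congrArg (fun t : F ≃ₐ[K] F => t x) h1

omit [NumberField K] [NumberField F] in
theorem unr_mono (M M' : ℕ) (h : M ∣ M') (hU : Unr K F M) : Unr K F M' := by
  intro Q hQ hM g hx
  refine hU Q hQ (fun h1 => hM ?_) g hx
  obtain ⟨c, rfl⟩ := h
  rw [Nat.cast_mul]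
  exact Ideal.mul_mem_right _ _ h1

end Pool.Agent.ARC
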