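import Mathlib
import Pool.Agent.ARC.Defs
import Pool.Agent.ARC.WTow
import Pool.Agent.ARC.WUnr
import Pool.Agent.ARC.SNot

/-! # ARC WGnT
A prime whose Frobenius element generates the image of e (n a prime power).
The image of e is a cyclic l-group, generated by e g0. If it is trivial: any prime Q of 𝓞 F not containing M and a Frobenius
element at it. Otherwise S1 := {g : e g ∈ <(e g0) ^ l>} is a normal proper subgroup, L1 := IntermediateField.fixedField S1 is Galois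
over K of degree ≥ 2. exists_unr K L1 M gives m', M ∣ m'; not_split K L1 m' gives a prime Q1 of L1, m' ∉ Q1,
absNorm Q1 ≠ absNorm (Q1.under (𝓞 K)). Let Q be above Q1; g a Frobenius element over K at Q. If g ∈ S1 then frob_tower K L1 F
with j = 1 gives absNorm Q1 = absNorm (Q1.under (𝓞 K)), contradiction.
-/

set_option autoImplicit false

noncomputable section

namespace Pool.Agent.ARC

open NumberField Module nonZeroDivisors Pool.Agent.Helper4

variable (K F : Type) [Field K] [NumberField K] [Field F] [NumberField F] [Algebra K F]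

/-- There is a nonzero prime ideal which does not contain `M`. -/
private theorem exists_prime_notMem (M : ℕ) (hM : M ≠ 0) :
    ∃ Q : Ideal (𝓞 F), Q.IsPrime ∧ Q ≠ ⊥ ∧ (M : 𝓞 F) ∉ Q := by
  obtain ⟨p, hpM, hp⟩ := Nat.exists_infinite_primes (M + 1)
  have hne : Ideal.span {(p : 𝓞 F)} ≠ ⊤ := by
    intro h
    have h1 : Ideal.absNorm (Ideal.span {(p : 𝓞 F)}) = 1 := by
      rw [h, ← Ideal.one_eq_top, map_one]
    rw [Ideal.absNorm_span_singleton] at h1
    have h2 : Algebra.norm ℤ (p : 𝓞 F) = (p : ℤ) ^ finrank ℤ (𝓞 F) := by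
      have h := Algebra.norm_algebraMap (R := ℤ) (S := 𝓞 F) (p : ℤ)
      rw [← h]
      congr 1
      simp
    rw [h2, Int.natAbs_pow, Int.natAbs_natCast] at h1
    have h3 : finrank ℤ (𝓞 F) ≠ 0 := by
      rw [RingOfIntegers.rank]
      exact (finrank_pos).ne'
    exact hp.one_lt.ne' ((Nat.pow_eq_one.1 h1).resolve_right h3)
  obtain ⟨Q, hQ, hQp⟩ := Ideal.exists_le_maximal _ hne
  have hpQ : (p : 𝓞 F) ∈ Q := hQp (Ideal.mem_span_singleton_self _)
  refine ⟨Q, hQ.isPrime, ?_, ?_⟩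
  · rintro rfl
    rw [Ideal.mem_bot, Nat.cast_eq_zero] at hpQ
    exact hp.ne_zero hpQ
  · intro hMQ
    have hc : Nat.Coprime p M := by
      rw [Nat.Prime.coprime_iff_not_dvd hp]
      intro h
      have := Nat.le_of_dvd (Nat.pos_of_ne_zero hM) h
      omega
    have h1 : ((p : ℤ) * Int.gcdA p M + M * Int.gcdB p M) = 1 := by
      rw [← Int.gcd_eq_gcd_ab]
      simpa using hc
    apply hQ.ne_top
    rw [Ideal.eq_top_iff_one]
    have h2 : (1 : 𝓞 F) = (p : 𝓞 F) * ((Int.gcdA p M : ℤ) : 𝓞 F) + M * ((Int.gcdB p M : ℤ) : 𝓞 F) := by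
      have := congrArg (Int.cast : ℤ → 𝓞 F) h1
      push_cast at this
      exact this.symm
    rw [h2]
    exact Q.add_mem (Q.mul_mem_right _ hpQ) (Q.mul_mem_right _ hMQ)

theorem gen_prime_top [IsGalois K F] (n l k : ℕ) (hl : l.Prime) (hn : n = l ^ k) (M : ℕ)
    (hM : M ≠ 0) (hU : Unr K F M) (e : (F ≃ₐ[K] F) →* Multiplicative (ZMod n)) :
    ∃ Q : Ideal (𝓞 F), Q.IsPrime ∧ (M : 𝓞 F) ∉ Q ∧ ∃ g : F ≃ₐ[K] F, IsFrob K F Q g ∧
      ∀ h : F ≃ₐ[K] F, ∃ j : ℕ, e h = e g ^ j := by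
  classical
  have hn0 : n ≠ 0 := by
    rw [hn]
    exact pow_ne_zero _ hl.ne_zero
  have : NeZero n := ⟨hn0⟩
  have hfin : Finite (Multiplicative (ZMod n)) := inferInstance
  have hfd : FiniteDimensional K F := inferInstance
  -- a generator of the range
  obtain ⟨⟨x0, hx0⟩, hx⟩ := IsCyclic.exists_generator (α := e.range)
  obtain ⟨g0, rfl⟩ := hx0
  have hgen : ∀ h : F ≃ₐ[K] F, ∃ j : ℕ, e h = e g0 ^ j := by
    intro h
    have h1 := hx ⟨e h, ⟨h, rfl⟩⟩
    rw [← mem_powers_iff_mem_zpowers] at h1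
    obtain ⟨j, hj⟩ := h1
    refine ⟨j, ?_⟩
    have := congrArg Subtype.val hj
    simpa using this.symm
  -- the order of `e g0`
  obtain ⟨i, hi⟩ : ∃ i : ℕ, orderOf (e g0) = l ^ i := by
    have h1 : orderOf (e g0) ∣ l ^ k := by
      rw [← hn]
      have h2 : Nat.card (Multiplicative (ZMod n)) = n := by
        rw [Nat.card_congr Multiplicative.toAdd, Nat.card_zmod]
      exact (orderOf_dvd_natCard (e g0)).trans (dvd_of_eq h2)
    obtain ⟨i, _, hi⟩ := (Nat.dvd_prime_pow hl).1 h1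
    exact ⟨i, hi⟩
  by_cases htriv : e g0 = 1
  · obtain ⟨Q, hQ, hQ0, hMQ⟩ := exists_prime_notMem F M hM
    obtain ⟨g, hg⟩ := frob_exists K F Q hQ hQ0
    refine ⟨Q, hQ, hMQ, g, hg, ?_⟩
    intro h
    obtain ⟨j, hj⟩ := hgen h
    refine ⟨0, ?_⟩
    rw [hj, htriv, one_pow, pow_zero]
  let S1 : Subgroup (F ≃ₐ[K] F) := Subgroup.comap e (Subgroup.zpowers (e g0 ^ l))
  have hS1n : S1.Normal := inferInstance
  have hg0 : g0 ∉ S1 := by
    intro h
    have h1 : e g0 ∈ Subgroup.zpowers (e g0 ^ l) := h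
    obtain ⟨z, hz⟩ := h1
    have h2 : e g0 ^ ((l : ℤ) * z - 1) = 1 := by
      rw [zpow_sub, zpow_mul, zpow_natCast, zpow_one]
      have : (e g0 ^ l) ^ z = e g0 := hz
      rw [this, mul_inv_cancel]
    have h3 : ((orderOf (e g0) : ℕ) : ℤ) ∣ (l : ℤ) * z - 1 := orderOf_dvd_iff_zpow_eq_one.2 h2
    have hi0 : i ≠ 0 := by
      rintro rfl
      rw [pow_zero, orderOf_eq_one_iff] at hi
      exact htriv hi
    have h4 : (l : ℤ) ∣ (l : ℤ) * z - 1 := by
      refine dvd_trans ?_ h3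
      rw [hi]
      exact_mod_cast dvd_pow_self l hi0
    have h5 : (l : ℤ) ∣ 1 := by
      have := dvd_sub (dvd_mul_right (l : ℤ) z) h4
      simpa using this
    have h6 : l ∣ 1 := by exact_mod_cast h5
    exact hl.one_lt.ne' (Nat.dvd_one.1 h6)
  let L1 : IntermediateField K F := IntermediateField.fixedField S1
  have hLg : IsGalois K L1 := IsGalois.of_fixedField_normal_subgroup S1
  have hfix : L1.fixingSubgroup = S1 := IntermediateField.fixingSubgroup_fixedField S1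
  have hdeg : 2 ≤ finrank K L1 := by
    have h1 : finrank L1 F = Nat.card S1 := IntermediateField.finrank_fixedField_eq_card S1
    have h2 : finrank K L1 * finrank L1 F = finrank K F := Module.finrank_mul_finrank K L1 F
    have h3 : Nat.card (F ≃ₐ[K] F) = finrank K F := IsGalois.card_aut_eq_finrank K F
    have h4 : 0 < finrank K L1 := finrank_pos
    by_contra hlt
    have h5 : finrank K L1 = 1 := by omega
    rw [h5, one_mul, h1, ← h3] at h2
    have h6 : S1 = ⊤ := Subgroup.eq_top_of_card_eq S1 h2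
    apply hg0
    rw [h6]
    exact Subgroup.mem_top g0
  obtain ⟨m', hm'0, hMm', hU'⟩ := exists_unr K L1 M hM
  obtain ⟨Q1, hQ1, hmQ1, hne⟩ := not_split K L1 hdeg m' hm'0 hU'
  obtain ⟨Q, hQ, hQQ1⟩ := prime_above L1 F Q1 hQ1
  have hQ0 : Q ≠ ⊥ := by
    rintro rfl
    have hb : ((⊥ : Ideal (𝓞 F)).under (𝓞 L1)) = ⊥ :=
      Ideal.comap_bot_of_injective _ (FaithfulSMul.algebraMap_injective (𝓞 L1) (𝓞 F))
    rw [hb] at hQQ1
    apply hne
    rw [← hQQ1]
    have hb2 : ((⊥ : Ideal (𝓞 L1)).under (𝓞 K)) = ⊥ :=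
      Ideal.comap_bot_of_injective _ (FaithfulSMul.algebraMap_injective (𝓞 K) (𝓞 L1))
    rw [hb2, Ideal.absNorm_bot, Ideal.absNorm_bot]
  have hMQ : (M : 𝓞 F) ∉ Q := by
    intro h
    apply hmQ1
    have h1 : (M : 𝓞 L1) ∈ Q1 := by
      rw [← hQQ1, Ideal.under_def, Ideal.mem_comap, map_natCast]
      exact h
    exact Ideal.mem_of_dvd _ (by exact_mod_cast Nat.cast_dvd_cast hMm') h1
  obtain ⟨g, hg⟩ := frob_exists K F Q hQ hQ0
  obtain ⟨h, hh⟩ := frob_exists L1 F Q hQ hQ0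
  refine ⟨Q, hQ, hMQ, g, hg, ?_⟩
  have hgS : g ∉ S1 := by
    intro hgS
    obtain ⟨f, hf0, hf1, hf2, _, hf4⟩ := frob_tower K L1 F M hU Q hQ hMQ g hg h hh
    have hf : f ∣ 1 := by
      apply hf4
      have h5 : g ^ 1 ∈ L1.fixingSubgroup := by
        rw [hfix, pow_one]
        exact hgS
      refine ⟨IntermediateField.fixingSubgroupEquiv L1 ⟨g ^ 1, h5⟩, ?_⟩
      ext x
      rfl
    have hf' : f = 1 := Nat.dvd_one.1 hf
    rw [hf', pow_one, hQQ1] at hf2
    apply hne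
    rw [hf2, ← hQQ1, under_under K L1 F Q]
  obtain ⟨j, hj⟩ := hgen g
  have hlj : ¬ l ∣ j := by
    rintro ⟨c, rfl⟩
    apply hgS
    refine Subgroup.mem_comap.2 ?_
    rw [hj, pow_mul]
    exact Subgroup.pow_mem _ (Subgroup.mem_zpowers _) c
  have hcop : Nat.Coprime j (orderOf (e g0)) := by
    rw [hi]
    exact Nat.Coprime.pow_right _ ((Nat.Prime.coprime_iff_not_dvd hl).2 hlj).symm
  obtain ⟨j', hj'⟩ := exists_pow_eq_self_of_coprime hcop
  intro h'
  obtain ⟨a, ha⟩ := hgen h'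
  refine ⟨j' * a, ?_⟩
  rw [ha, hj, pow_mul, hj']

end Pool.Agent.ARC
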