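import Mathlib
import Pool.Agent.ARC.Defs
import Pool.Agent.ARC.WTow
import Pool.Agent.ARC.WArt
import Pool.Agent.ARC.WCyR
import Pool.Agent.ARC.WGnT
import Pool.Agent.ARC.WNrm
import Pool.Agent.ARC.SSec

/-! # ARC WE1
The crossing lemma for one cyclotomic character, over the base `E`.
-/

set_option autoImplicit false

noncomputable section

namespace Pool.Agent.ARC

open NumberField Module nonZeroDivisors Pool.Agent.Helper4

variable (K E F : Type) [Field K] [NumberField K] [Field E] [NumberField E] [Field F]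
  [NumberField F] [Algebra K E] [Algebra E F] [Algebra K F] [IsScalarTower K E F]

private lemma we1_pow {K : Type} [Field K] [NumberField K] (n : ℕ) (lam : Ideal (𝓞 K) → ZMod n)
    (hadd : ∀ I J : Ideal (𝓞 K), I ≠ ⊥ → J ≠ ⊥ → lam (I * J) = lam I + lam J)
    (I : Ideal (𝓞 K)) (hI : I ≠ ⊥) (f : ℕ) : lam (I ^ f) = (f : ZMod n) * lam I := by
  have h1 : lam 1 = 0 := by
    have h := hadd 1 1 (by rw [Ideal.one_eq_top]; exact top_ne_bot)
      (by rw [Ideal.one_eq_top]; exact top_ne_bot)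
    rw [mul_one] at h
    exact left_eq_add.mp h
  induction f with
  | zero => rw [pow_zero, h1]; simp
  | succ f ih =>
    rw [pow_succ, hadd _ _ (pow_ne_zero f hI) hI, ih]
    push_cast
    ring

private lemma we1_absNorm {K F : Type} [Field K] [NumberField K] [Field F] [NumberField F]
    [Algebra K F] (Q : Ideal (𝓞 F)) (hQ : Q.IsPrime) (h0 : Q ≠ ⊥) :
    2 ≤ Ideal.absNorm (Q.under (𝓞 K)) := by
  have hp : (Q.under (𝓞 K)).IsPrime := Ideal.IsPrime.under (𝓞 K) Q
  have h1 : Ideal.absNorm (Q.under (𝓞 K)) ≠ 1 := by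
    rw [Ne, Ideal.absNorm_eq_one_iff]
    exact hp.ne_top
  have h2 : Ideal.absNorm (Q.under (𝓞 K)) ≠ 0 := by
    rw [Ne, Ideal.absNorm_eq_zero_iff]
    intro h
    exact h0 (Ideal.eq_bot_of_comap_eq_bot h)
  omega

private lemma we1_finrank {E F : Type} [Field E] [NumberField E] [Field F]
    [NumberField F] [Algebra E F] [IsGalois E F] (n : ℕ)
    (e : (F ≃ₐ[E] F) →* Multiplicative (ZMod n)) (g : F ≃ₐ[E] F)
    (hg : ∀ h : F ≃ₐ[E] F, ∃ j : ℕ, e h = e g ^ j) :
    addOrderOf (e g).toAdd = finrank E (IntermediateField.fixedField e.ker) := by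
  have h1 : addOrderOf (e g).toAdd = orderOf (e g) := by
    rw [← addOrderOf_ofMul_eq_orderOf]
    rfl
  have h2 : orderOf (e g) = Nat.card e.range := by
    rw [← Nat.card_zpowers]
    congr 1
    have : Subgroup.zpowers (e g) = e.range := by
      ext x
      constructor
      · rintro ⟨i, rfl⟩
        exact ⟨g ^ i, by simp⟩
      · rintro ⟨h, rfl⟩
        obtain ⟨j, hj⟩ := hg h
        exact ⟨j, by simpa using hj.symm⟩
    rw [this]
  have h3 : Nat.card e.range = e.ker.index := (Subgroup.index_ker e).symm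
  have h4 : e.ker.index * Nat.card e.ker = Nat.card (F ≃ₐ[E] F) := Subgroup.index_mul_card e.ker
  have h5 : finrank (IntermediateField.fixedField e.ker) F = Nat.card e.ker :=
    IntermediateField.finrank_fixedField_eq_card e.ker
  have h6 : finrank E (IntermediateField.fixedField e.ker) *
      finrank (IntermediateField.fixedField e.ker) F = finrank E F :=
    finrank_mul_finrank _ _ _
  rw [h5, ← IsGalois.card_aut_eq_finrank E F, ← h4] at h6
  have h7 : 0 < Nat.card e.ker := Nat.card_pos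
  rw [h1, h2, h3]
  exact (Nat.eq_of_mul_eq_mul_right h7 h6).symm

theorem e_lemma1 [IsGalois K F] (n l k : ℕ) (hl : l.Prime) (hn : n = l ^ k) (m q : ℕ)
    (hm : 2 ≤ m) (hq : q ∣ m)
    (hU : Unr K F m) (e : (F ≃ₐ[K] F) →* Multiplicative (ZMod n)) (z : F)
    (hz : IsPrimitiveRoot z q)
    (hS : ∀ h : F ≃ₐ[E] F, h z = z → e (h.restrictScalars K) = 1)
    (lam : Ideal (𝓞 K) → ZMod n) (hl1 : RayLam K n m lam)
    (hl2 : ∀ Q : Ideal (𝓞 F), Q.IsPrime → (m : 𝓞 F) ∉ Q → ∀ g : F ≃ₐ[K] F, IsFrob K F Q g →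
      ∀ j : ℕ, e g ^ j = 1 → (j : ZMod n) * lam (Q.under (𝓞 K)) = 0) :
    ∃ c : ZMod n, ∀ Q : Ideal (𝓞 F), Q.IsPrime → (m : 𝓞 F) ∉ Q → ∀ h : F ≃ₐ[E] F,
      IsFrob E F Q h → lam (Ideal.relNorm (𝓞 K) (Q.under (𝓞 E))) =
        c * (e (h.restrictScalars K)).toAdd := by
  classical
  have hn0 : 0 < n := by rw [hn]; exact pow_pos hl.pos k
  have hm0 : m ≠ 0 := by omega
  haveI : IsGalois E F := IsGalois.tower_top_of_isGalois K E F
  have hUE : Unr E F m := unr_sub K E F m hU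
  -- the restriction of `e`
  let e' : (F ≃ₐ[E] F) →* Multiplicative (ZMod n) :=
    { toFun := fun h => e (h.restrictScalars K)
      map_one' := by
        have : (1 : F ≃ₐ[E] F).restrictScalars K = 1 := rfl
        rw [this, map_one]
      map_mul' := fun a b => by
        have : (a * b).restrictScalars K = a.restrictScalars K * b.restrictScalars K := rfl
        rw [this, map_mul] }
  have he' : ∀ h : F ≃ₐ[E] F, e' h = e (h.restrictScalars K) := fun h => rfl
  obtain ⟨a, ha, ha0, -⟩ := exists_art E F n m hm0 hUE e'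
  have haray : RayLam E n m a := cyclo_ray E F n m q hm hq e' z hz (fun g hg => hS g hg) a ha
  let lamE : Ideal (𝓞 E) → ZMod n := fun I => if I = ⊥ then 0 else lam (Ideal.relNorm (𝓞 K) I)
  have hlamE : ∀ I : Ideal (𝓞 E), I ≠ ⊥ → lamE I = lam (Ideal.relNorm (𝓞 K) I) :=
    fun I hI => if_neg hI
  have hlamE0 : lamE ⊥ = 0 := if_pos rfl
  have hrn : ∀ I : Ideal (𝓞 E), I ≠ ⊥ → Ideal.relNorm (𝓞 K) I ≠ ⊥ := fun I hI h =>
    hI (Ideal.relNorm_eq_bot_iff.mp h)
  have hlray : RayLam E n m lamE := by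
    refine ⟨?_, ?_⟩
    · intro I J hI hJ
      have hIJ : I * J ≠ ⊥ := mul_ne_zero hI hJ
      rw [hlamE _ hIJ, hlamE _ hI, hlamE _ hJ, map_mul, hl1.add _ _ (hrn I hI) (hrn J hJ)]
    · intro x hx0 hx hpos
      obtain ⟨y, hy0, hy, hypos, hrel⟩ := ray_norm K E m x hx0 hx hpos
      have hsp : Ideal.span {x} ≠ ⊥ := by
        rw [Ne, Ideal.span_singleton_eq_bot]
        exact hx0
      rw [hlamE _ hsp, hrel, hl1.ray y hy0 hy hypos]
  -- the field `L`
  let L : IntermediateField E F := IntermediateField.fixedField e'.ker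
  have hfix : ∀ h : F ≃ₐ[E] F, (∀ x : L, h (x : F) = x) → e' h = 1 := by
    intro h hx
    have h1 : h ∈ L.fixingSubgroup := by
      rw [IntermediateField.mem_fixingSubgroup_iff]
      intro x hxL
      exact hx ⟨x, hxL⟩
    rw [IntermediateField.fixingSubgroup_fixedField] at h1
    exact h1
  -- values on the primes of degree one
  have h0 : ∀ Q1 : Ideal (𝓞 L), Q1.IsPrime → (m : 𝓞 L) ∉ Q1 →
      Ideal.absNorm Q1 = Ideal.absNorm (Q1.under (𝓞 E)) →
      a (Q1.under (𝓞 E)) = 0 ∧ lamE (Q1.under (𝓞 E)) = 0 := by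
    intro Q1 hQ1 hmQ1 hN
    by_cases hb : Q1 = ⊥
    · have h1 : Q1.under (𝓞 E) = ⊥ := by
        rw [hb, Ideal.under_def]
        exact Ideal.comap_bot_of_injective _ (FaithfulSMul.algebraMap_injective (𝓞 E) (𝓞 L))
      rw [h1]
      exact ⟨ha0, hlamE0⟩
    obtain ⟨Q, hQ, hQQ1⟩ := prime_above L F Q1 hQ1
    have hmQ : (m : 𝓞 F) ∉ Q := by
      intro h
      apply hmQ1
      rw [← hQQ1, Ideal.under_def, Ideal.mem_comap, map_natCast]
      exact h
    have hQ0 : Q ≠ ⊥ := by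
      intro h
      apply hb
      rw [← hQQ1, h, Ideal.under_def]
      exact Ideal.comap_bot_of_injective _ (FaithfulSMul.algebraMap_injective (𝓞 L) (𝓞 F))
    have hQE : Q.under (𝓞 E) = Q1.under (𝓞 E) := by
      rw [← hQQ1, under_under E L F]
    obtain ⟨h, hh⟩ := frob_exists E F Q hQ hQ0
    obtain ⟨h', hh'⟩ := frob_exists L F Q hQ hQ0
    obtain ⟨f, hf0, hf1, hf2, -, -⟩ := frob_tower E L F m hUE Q hQ hmQ h hh h' hh'
    have hN2 := we1_absNorm (K := E) Q hQ hQ0
    have hf : f = 1 := by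
      rw [hQQ1, hN, ← hQE] at hf2
      have h3 : Ideal.absNorm (Q.under (𝓞 E)) ^ 1 = Ideal.absNorm (Q.under (𝓞 E)) ^ f := by
        rw [pow_one]; exact hf2
      exact (Nat.pow_right_injective hN2 h3).symm
    rw [hf, pow_one] at hf1
    have heh : e' h = 1 := by
      apply hfix
      intro x
      rw [← hf1]
      exact h'.commutes x
    rw [← hQE]
    refine ⟨?_, ?_⟩
    · rw [ha.frob Q hQ hmQ h hh, heh]
      rfl
    · have hQEb : Q.under (𝓞 E) ≠ ⊥ := fun h1 => hQ0 (Ideal.eq_bot_of_comap_eq_bot h1)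
      have hQKb : Q.under (𝓞 K) ≠ ⊥ := fun h1 => hQ0 (Ideal.eq_bot_of_comap_eq_bot h1)
      obtain ⟨g, hg⟩ := frob_exists K F Q hQ hQ0
      obtain ⟨f2, -, hg1, -, hg3, -⟩ := frob_tower K E F m hU Q hQ hmQ g hg h hh
      rw [hlamE _ hQEb, hg3, we1_pow n lam hl1.add _ hQKb]
      apply hl2 Q hQ hmQ g hg f2
      rw [← map_pow, ← hg1]
      exact heh
  have hgen : ∃ q : Ideal (𝓞 E), q.IsPrime ∧ (m : 𝓞 E) ∉ q ∧ addOrderOf (a q) = finrank E L := by
    obtain ⟨Q, hQ, hmQ, g, hg, hgg⟩ := gen_prime_top E F n l k hl hn m hm0 hUE e'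
    refine ⟨Q.under (𝓞 E), Ideal.IsPrime.under (𝓞 E) Q, ?_, ?_⟩
    · intro h
      apply hmQ
      rw [Ideal.under_def, Ideal.mem_comap, map_natCast] at h
      exact h
    · rw [ha.frob Q hQ hmQ g hg]
      exact we1_finrank n e' g hgg
  obtain ⟨c, hc⟩ := second E L n m hn0 hm a lamE haray hlray h0 hgen
  refine ⟨c, ?_⟩
  intro Q hQ hmQ h hh
  have hQ0 : Q ≠ ⊥ := frob_ne_bot E F Q h hh
  have hQEb : Q.under (𝓞 E) ≠ ⊥ := fun h1 => hQ0 (Ideal.eq_bot_of_comap_eq_bot h1)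
  have hmE : (m : 𝓞 E) ∉ Q.under (𝓞 E) := by
    intro h
    apply hmQ
    rw [Ideal.under_def, Ideal.mem_comap, map_natCast] at h
    exact h
  have h1 := hc (Q.under (𝓞 E)) (Ideal.IsPrime.under (𝓞 E) Q) hmE
  rw [hlamE _ hQEb, ha.frob Q hQ hmQ h hh] at h1
  exact h1

end Pool.Agent.ARC
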