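import Mathlib
import Pool.Agent.ARC.Defs
import Pool.Agent.ARC.WE1

/-! # ARC WE
The crossing lemma for the fixed field of a subgroup.
-/

set_option autoImplicit false

noncomputable section

namespace Pool.Agent.ARC

open NumberField Module nonZeroDivisors Pool.Agent.Helper4

variable (K F : Type) [Field K] [NumberField K] [Field F] [NumberField F] [Algebra K F]

private lemma we_pow {K : Type} [Field K] [NumberField K] (n : ℕ) (lam : Ideal (𝓞 K) → ZMod n)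
    (hadd : ∀ I J : Ideal (𝓞 K), I ≠ ⊥ → J ≠ ⊥ → lam (I * J) = lam I + lam J)
    (I : Ideal (𝓞 K)) (hI : I ≠ ⊥) (f : ℕ) : lam (I ^ f) = (f : ZMod n) * lam I := by
  have h1 : lam 1 = 0 := by
    have h := hadd 1 1 (by rw [Ideal.one_eq_top]; exact top_ne_bot)
      (by rw [Ideal.one_eq_top]; exact top_ne_bot)
    rw [mul_one] at h
    exact left_eq_add.mp h
  induction f with
  | zero => rw [pow_zero, h1]; simp
  | succ f ih =>
    rw [pow_succ, hadd _ _ (pow_ne_zero f hI) hI, ih]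
    push_cast
    ring

theorem e_lemma [IsGalois K F] (n l k : ℕ) (hl : l.Prime) (hn : n = l ^ k) (m q : ℕ)
    (hm : 2 ≤ m) (hq : q ∣ m)
    (hU : Unr K F m) (e : (F ≃ₐ[K] F) →* Multiplicative (ZMod n)) (z : F)
    (hz : IsPrimitiveRoot z q) (S : Subgroup (F ≃ₐ[K] F)) (hS : ∀ h ∈ S, h z = z → e h = 1)
    (lam : Ideal (𝓞 K) → ZMod n) (hl1 : RayLam K n m lam)
    (hl2 : ∀ Q : Ideal (𝓞 F), Q.IsPrime → (m : 𝓞 F) ∉ Q → ∀ g : F ≃ₐ[K] F, IsFrob K F Q g →
      ∀ j : ℕ, e g ^ j = 1 → (j : ZMod n) * lam (Q.under (𝓞 K)) = 0) :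
    ∃ c : ZMod n, ∀ Q : Ideal (𝓞 F), Q.IsPrime → (m : 𝓞 F) ∉ Q → ∀ g : F ≃ₐ[K] F,
      IsFrob K F Q g → ∀ f : ℕ, g ^ f ∈ S →
        (f : ZMod n) * lam (Q.under (𝓞 K)) = c * (e (g ^ f)).toAdd := by
  let E : IntermediateField K F := IntermediateField.fixedField S
  haveI : IsGalois E F := inferInstance
  -- the elements of `S` are the restrictions of the automorphisms over `E`
  have hSE : ∀ h : F ≃ₐ[E] F, h.restrictScalars K ∈ S := by
    intro h
    rw [← IntermediateField.fixingSubgroup_fixedField S,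
      IntermediateField.mem_fixingSubgroup_iff]
    intro x hx
    exact h.commutes ⟨x, hx⟩
  have hSE' : ∀ g ∈ S, ∃ h : F ≃ₐ[E] F, h.restrictScalars K = g := by
    intro g hg
    rw [← IntermediateField.fixingSubgroup_fixedField S,
      IntermediateField.mem_fixingSubgroup_iff] at hg
    refine ⟨AlgEquiv.ofRingEquiv (f := g.toRingEquiv) (fun x => hg x x.2), ?_⟩
    ext x
    rfl
  obtain ⟨c, hc⟩ := e_lemma1 K E F n l k hl hn m q hm hq hU e z hz
    (fun h hh => hS _ (hSE h) hh) lam hl1 hl2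
  refine ⟨c, ?_⟩
  intro Q hQ hmQ g hg f hf
  have hQ0 : Q ≠ ⊥ := frob_ne_bot K F Q g hg
  obtain ⟨h, hh⟩ := frob_exists E F Q hQ hQ0
  obtain ⟨f2, -, h1, -, h3, h4⟩ := frob_tower K E F m hU Q hQ hmQ g hg h hh
  obtain ⟨t, rfl⟩ := h4 f (hSE' _ hf)
  have hQKb : Q.under (𝓞 K) ≠ ⊥ := fun h1 => hQ0 (Ideal.eq_bot_of_comap_eq_bot h1)
  have h5 := hc Q hQ hmQ h hh
  rw [h3, we_pow n lam hl1.add _ hQKb, h1] at h5
  rw [pow_mul, map_pow, toAdd_pow]
  calc ((f2 * t : ℕ) : ZMod n) * lam (Q.under (𝓞 K))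
      = (t : ZMod n) * ((f2 : ZMod n) * lam (Q.under (𝓞 K))) := by push_cast; ring
    _ = (t : ZMod n) * (c * (e (g ^ f2)).toAdd) := by rw [h5]
    _ = c * (t • (e (g ^ f2)).toAdd) := by rw [nsmul_eq_mul]; ring

end Pool.Agent.ARC
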