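import Mathlib
import Pool.Agent.ARC.Defs
import Pool.Agent.ARC.WGnT

/-! # ARC WGen
gen_prime_top applied to E = IntermediateField.fixedField S, F / E Galois with group S
(IntermediateField.fixingSubgroup_fixedField / subgroupEquivAlgEquiv) and e ∘ restrictScalars; Unr E F M by unr_sub. The Frobenius
element h over E at Q is g^f in Gal(F/K), g a Frobenius element over K at Q (frob_exists, frob_tower K E F), and lies in S.
-/

set_option autoImplicit false

noncomputable section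

namespace Pool.Agent.ARC

open NumberField Module nonZeroDivisors Pool.Agent.Helper4

variable (K F : Type) [Field K] [NumberField K] [Field F] [NumberField F] [Algebra K F]

theorem gen_prime [IsGalois K F] (n l k : ℕ) (hl : l.Prime) (hn : n = l ^ k) (M : ℕ)
    (hM : M ≠ 0) (hU : Unr K F M) (e : (F ≃ₐ[K] F) →* Multiplicative (ZMod n))
    (S : Subgroup (F ≃ₐ[K] F)) :
    ∃ Q : Ideal (𝓞 F), Q.IsPrime ∧ (M : 𝓞 F) ∉ Q ∧ ∃ g : F ≃ₐ[K] F, IsFrob K F Q g ∧
      ∃ f : ℕ, g ^ f ∈ S ∧ ∀ h ∈ S, ∃ j : ℕ, e h = e (g ^ f) ^ j := by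
  let E : IntermediateField K F := IntermediateField.fixedField S
  have hfix : E.fixingSubgroup = S := IntermediateField.fixingSubgroup_fixedField S
  let r : (F ≃ₐ[E] F) →* (F ≃ₐ[K] F) :=
    { toFun := fun h => h.restrictScalars K
      map_one' := rfl
      map_mul' := fun _ _ => rfl }
  obtain ⟨Q, hQ, hMQ, h0, hh0, hall⟩ :=
    gen_prime_top E F n l k hl hn M hM (unr_sub K E F M hU) (e.comp r)
  have hQ0 : Q ≠ ⊥ := frob_ne_bot E F Q h0 hh0
  obtain ⟨g, hg⟩ := frob_exists K F Q hQ hQ0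
  obtain ⟨f, -, hgf, -, -, -⟩ := frob_tower K E F M hU Q hQ hMQ g hg h0 hh0
  refine ⟨Q, hQ, hMQ, g, hg, f, ?_, ?_⟩
  · rw [← hfix, ← hgf, IntermediateField.mem_fixingSubgroup_iff]
    intro x hx
    exact h0.commutes ⟨x, hx⟩
  · intro h hh
    rw [← hfix, IntermediateField.mem_fixingSubgroup_iff] at hh
    obtain ⟨j, hj⟩ := hall (AlgEquiv.ofRingEquiv (f := h.toRingEquiv) fun y => hh _ y.2)
    refine ⟨j, ?_⟩
    rw [← hgf]
    exact hj

end Pool.Agent.ARC
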