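import Mathlib
import Pool.Agent.ARC.Defs
import Pool.Agent.ARC.WE
import Pool.Agent.ARC.WGen
import Pool.Agent.ARC.WTow

/-! # ARC WPr1
Core of the pair lemma: the big field F' is given. e' := e ∘ restrictNormalHom F on Gal(F'/K); m' := m q q', Unr K F' m' (hU').
N := absNorm (P.under (𝓞 K)), N' likewise. lam is RayLam mod m' too; hl2 for F': Q ∌ m' prime of F', G Frobenius over K, restriction to F is a Frobenius
at Q ∩ F (frob_restrict), under_under.
Q0 above P in F', G0 Frobenius over K at Q0 (M' ∉ Q0), its restriction to F is a Frobenius at P so equals g (frob_unique with hU), e' G0 = e g; G0 z =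
z^N (frob_root). Likewise Q0', G0' above P': e' G0' = e g', G0' z' = z'^N'.
A := {s : (e' s, chi s) is a power of (e g, N)} where chi s ∈ (ZMod q)ˣ, s z = z^(chi s) (IsPrimitiveRoot.autToPow K hz): comap of a zpowers subgroup.
If s ∈ A and s z = z then chi s = 1, N^i = 1 in ZMod q, l^k ∣ orderOf (N : ZMod q) ∣ i, e' s = (e g)^i = 1 (n = l^k kills ZMod n). e_lemma K F' (z, q, S = A)
gives c; at Q0, G0, f = 1 (G0 ∈ A): lam (P.under) = c e(g). Same with A' (z', q', g', N'): c', lam (P'.under) = c' e(g').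
s0 := G0'; s0 z = z^b with q ∤ b; by hex there is u ∈ Gal(F'/F), u z = z^a, u z' = z' with a b = N^j mod q; s := u s0: e' s = e g' = (e g)^j, s z = z^(N^j),
s z' = z'^N'. So s ∈ A and s ∈ A'. gen_prime K F' with S = zpowers s (⊆ A ∩ A'): Q, G, f, G^f ∈ S, e' s = e'(G^f)^i for some i.
c e'(G^f) = f lam(Q.under) = c' e'(G^f), so c e(g') = c' e(g'). Hence lam (P'.under) = c' e(g') = c e(g').
-/

set_option autoImplicit false

noncomputable section

namespace Pool.Agent.ARC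

open NumberField Module nonZeroDivisors Pool.Agent.Helper4

private theorem chi_val {R S : Type} [Field R] [Field S] [Algebra R S] {z : S} {q : ℕ} [NeZero q]
    (hz : IsPrimitiveRoot z q) (f : S ≃ₐ[R] S) (N : ℕ) (h : f z = z ^ N) :
    ((hz.autToPow R f : (ZMod q)ˣ) : ZMod q) = N := by
  have h1 := hz.autToPow_spec R f
  rw [h] at h1
  have hf : IsOfFinOrder z := by
    rw [← orderOf_pos_iff, ← hz.eq_orderOf]
    exact Nat.pos_of_ne_zero (NeZero.ne q)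
  have h2 : ((hz.autToPow R f : (ZMod q)ˣ) : ZMod q).val ≡ N [MOD q] := by
    have h3 := hf.pow_eq_pow_iff_modEq.1 h1
    rwa [← hz.eq_orderOf] at h3
  have h3 := (ZMod.natCast_eq_natCast_iff _ _ _).2 h2
  rwa [ZMod.natCast_zmod_val] at h3

private theorem mem_under_nat {F F' : Type} [Field F] [Field F'] [Algebra F F'] (Q : Ideal (𝓞 F')) (m : ℕ) :
    (m : 𝓞 F) ∈ Q.under (𝓞 F) ↔ (m : 𝓞 F') ∈ Q := by
  rw [Ideal.under_def, Ideal.mem_comap, map_natCast]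

variable (K F F' : Type) [Field K] [NumberField K] [Field F] [NumberField F] [Field F']
  [NumberField F'] [Algebra K F] [Algebra F F'] [Algebra K F'] [IsScalarTower K F F']
  [IsGalois K F] [IsGalois K F']

theorem pair1 (n l k : ℕ) (hl : l.Prime) (hn : n = l ^ k) (m : ℕ) (hm : 2 ≤ m)
    (hU : Unr K F m) (e : (F ≃ₐ[K] F) →* Multiplicative (ZMod n))
    (lam : Ideal (𝓞 K) → ZMod n) (hl1 : RayLam K n m lam)
    (hl2 : ∀ Q : Ideal (𝓞 F), Q.IsPrime → (m : 𝓞 F) ∉ Q → ∀ g : F ≃ₐ[K] F, IsFrob K F Q g →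
      ∀ j : ℕ, e g ^ j = 1 → (j : ZMod n) * lam (Q.under (𝓞 K)) = 0)
    (P P' : Ideal (𝓞 F)) (hP : P.IsPrime) (hP' : P'.IsPrime) (hPm : (m : 𝓞 F) ∉ P)
    (hPm' : (m : 𝓞 F) ∉ P') (g g' : F ≃ₐ[K] F) (hg : IsFrob K F P g) (hg' : IsFrob K F P' g')
    (j : ℕ) (hj : e g' = e g ^ j) (q q' : ℕ) (hq : q.Prime) (hq' : q'.Prime)
    (hqP : (q : 𝓞 F) ∉ P) (hqP' : (q : 𝓞 F) ∉ P') (hq'P : (q' : 𝓞 F) ∉ P)
    (hq'P' : (q' : 𝓞 F) ∉ P')
    (ho : l ^ k ∣ orderOf (Ideal.absNorm (P.under (𝓞 K)) : ZMod q))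
    (ho' : l ^ k ∣ orderOf (Ideal.absNorm (P'.under (𝓞 K)) : ZMod q'))
    (z z' : F') (hz : IsPrimitiveRoot z q) (hz' : IsPrimitiveRoot z' q')
    (hU' : Unr K F' (m * q * q'))
    (hex : ∀ a a' : ℕ, ¬ q ∣ a → ¬ q' ∣ a' → ∃ u : F' ≃ₐ[F] F', u z = z ^ a ∧ u z' = z' ^ a') :
    ∃ c : ZMod n, lam (P.under (𝓞 K)) = c * (e g).toAdd ∧
      lam (P'.under (𝓞 K)) = c * (e g').toAdd := by
  have hq0 : NeZero q := ⟨hq.ne_zero⟩
  have hq0' : NeZero q' := ⟨hq'.ne_zero⟩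
  set m' := m * q * q' with hm'
  have hm'2 : 2 ≤ m' := by
    have h1 : 1 ≤ q := hq.one_le
    have h2 : 1 ≤ q' := hq'.one_le
    calc 2 ≤ m := hm
      _ = m * 1 * 1 := by ring
      _ ≤ m' := Nat.mul_le_mul (Nat.mul_le_mul le_rfl h1) h2
  have hm'0 : m' ≠ 0 := by omega
  let e' : (F' ≃ₐ[K] F') →* Multiplicative (ZMod n) := e.comp (AlgEquiv.restrictNormalHom F)
  have he' : ∀ G : F' ≃ₐ[K] F', e' G = e (G.restrictNormal F) := fun G => rfl
  have hl1' : RayLam K n m' lam := by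
    refine ⟨hl1.add, fun x hx hd hp => hl1.ray x hx (dvd_trans ?_ hd) hp⟩
    rw [hm', mul_assoc, Nat.cast_mul]
    exact dvd_mul_right _ _
  have hmem : ∀ Q : Ideal (𝓞 F'), (m' : 𝓞 F') ∉ Q →
      (m : 𝓞 F') ∉ Q ∧ (q : 𝓞 F') ∉ Q ∧ (q' : 𝓞 F') ∉ Q := by
    intro Q hQ
    refine ⟨fun h => hQ ?_, fun h => hQ ?_, fun h => hQ ?_⟩
    · rw [hm', mul_assoc, Nat.cast_mul]
      exact Q.mul_mem_right _ h
    · rw [hm', mul_comm m q, mul_assoc, Nat.cast_mul]
      exact Q.mul_mem_right _ h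
    · rw [hm', Nat.cast_mul]
      exact Q.mul_mem_left _ h
  have hl2' : ∀ Q : Ideal (𝓞 F'), Q.IsPrime → (m' : 𝓞 F') ∉ Q → ∀ G : F' ≃ₐ[K] F', IsFrob K F' Q G →
      ∀ j : ℕ, e' G ^ j = 1 → (j : ZMod n) * lam (Q.under (𝓞 K)) = 0 := by
    intro Q hQ hmQ G hG i hi
    have h1 := frob_restrict K F F' Q hQ G hG
    have h2 := hl2 (Q.under (𝓞 F)) inferInstance (by
      rw [mem_under_nat]
      exact (hmem Q hmQ).1) _ h1 i (by rw [← he']; exact hi)
    rwa [under_under K F F' Q] at h2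
  -- a Frobenius element of the big field above a given one
  have lift : ∀ (P : Ideal (𝓞 F)), P.IsPrime → (m : 𝓞 F) ∉ P → (q : 𝓞 F) ∉ P → (q' : 𝓞 F) ∉ P →
      ∀ g : F ≃ₐ[K] F, IsFrob K F P g → ∃ (Q : Ideal (𝓞 F')) (G : F' ≃ₐ[K] F'), Q.IsPrime ∧
        (m' : 𝓞 F') ∉ Q ∧ IsFrob K F' Q G ∧ e' G = e g ∧ Q.under (𝓞 K) = P.under (𝓞 K) ∧
        G z = z ^ Ideal.absNorm (P.under (𝓞 K)) ∧ G z' = z' ^ Ideal.absNorm (P.under (𝓞 K)) := by
    intro P hP hPm hqP hq'P g hg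
    obtain ⟨Q, hQ, hQP⟩ := prime_above F F' P hP
    have hmQ : (m : 𝓞 F') ∉ Q := by rw [← mem_under_nat (F := F), hQP]; exact hPm
    have hqQ : (q : 𝓞 F') ∉ Q := by rw [← mem_under_nat (F := F), hQP]; exact hqP
    have hq'Q : (q' : 𝓞 F') ∉ Q := by rw [← mem_under_nat (F := F), hQP]; exact hq'P
    have hm'Q : (m' : 𝓞 F') ∉ Q := by
      intro h
      rw [hm', Nat.cast_mul, Nat.cast_mul] at h
      rcases hQ.mem_or_mem h with h | h
      · rcases hQ.mem_or_mem h with h | h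
        · exact hmQ h
        · exact hqQ h
      · exact hq'Q h
    have hQ0 : Q ≠ ⊥ := by
      intro h
      apply frob_ne_bot K F P g hg
      rw [← hQP, h, Ideal.under_bot]
    obtain ⟨G, hG⟩ := frob_exists K F' Q hQ hQ0
    have hu : Q.under (𝓞 K) = P.under (𝓞 K) := by rw [← hQP, under_under K F F' Q]
    have h1 := frob_restrict K F F' Q hQ G hG
    rw [hQP] at h1
    have h2 := frob_unique K F m hU P hP hPm _ _ h1 hg
    refine ⟨Q, G, hQ, hm'Q, hG, by rw [he', h2], hu, ?_, ?_⟩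
    · rw [← hu]
      exact frob_root K F' Q hQ G hG z q hz.pow_eq_one hqQ
    · rw [← hu]
      exact frob_root K F' Q hQ G hG z' q' hz'.pow_eq_one hq'Q
  obtain ⟨Q0, G0, hQ0, hmQ0, hG0, heG0, hu0, hz0, -⟩ := lift P hP hPm hqP hq'P g hg
  obtain ⟨Q1, G1, hQ1, hmQ1, hG1, heG1, hu1, hz1, hz1'⟩ := lift P' hP' hPm' hqP' hq'P' g' hg'
  -- the lemma for a subgroup
  have key : ∀ (y : F') (p : ℕ) [NeZero p], p ∣ m' → ∀ (hy : IsPrimitiveRoot y p) (Q : Ideal (𝓞 F'))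
      (G : F' ≃ₐ[K] F') (N : ℕ), Q.IsPrime → (m' : 𝓞 F') ∉ Q → IsFrob K F' Q G → G y = y ^ N →
      l ^ k ∣ orderOf (N : ZMod p) →
      ∃ c : ZMod n, lam (Q.under (𝓞 K)) = c * (e' G).toAdd ∧ ∀ Q : Ideal (𝓞 F'), Q.IsPrime →
        (m' : 𝓞 F') ∉ Q → ∀ g : F' ≃ₐ[K] F', IsFrob K F' Q g → ∀ f : ℕ,
        (∃ i : ℤ, e' (g ^ f) = e' G ^ i ∧ hy.autToPow K (g ^ f) = hy.autToPow K G ^ i) →
        (f : ZMod n) * lam (Q.under (𝓞 K)) = c * (e' (g ^ f)).toAdd := by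
    intro y p hp0 hpm hy Q G N hQ hmQ hG hGy ho
    have hchi := chi_val hy G N hGy
    let A : Subgroup (F' ≃ₐ[K] F') :=
      (Subgroup.zpowers ((e' G, hy.autToPow K G) : Multiplicative (ZMod n) × (ZMod p)ˣ)).comap
        (e'.prod (hy.autToPow K))
    have hA : ∀ s : F' ≃ₐ[K] F', s ∈ A ↔ ∃ i : ℤ, e' s = e' G ^ i ∧ hy.autToPow K s = hy.autToPow K G ^ i := by
      intro s
      rw [Subgroup.mem_comap, Subgroup.mem_zpowers_iff]
      constructor
      · rintro ⟨i, hi⟩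
        exact ⟨i, (congrArg Prod.fst hi).symm, (congrArg Prod.snd hi).symm⟩
      · rintro ⟨i, h1, h2⟩
        exact ⟨i, Prod.ext h1.symm h2.symm⟩
    obtain ⟨c, hc⟩ := e_lemma K F' n l k hl hn m' p hm'2 hpm hU' e' y hy A (by
      intro s hs hsy
      obtain ⟨i, h1, h2⟩ := (hA s).1 hs
      have h3 := chi_val hy s 1 (by rw [hsy, pow_one])
      have h4 : hy.autToPow K s = 1 := Units.ext (by rw [h3]; simp)
      rw [h4] at h2
      have h5 : orderOf (hy.autToPow K G) = orderOf (N : ZMod p) := by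
        rw [← orderOf_units, hchi]
      have h6 : ((l ^ k : ℕ) : ℤ) ∣ i := by
        refine dvd_trans ?_ (orderOf_dvd_iff_zpow_eq_one.2 h2.symm)
        rw [h5]
        exact_mod_cast ho
      rw [h1]
      apply Multiplicative.toAdd.injective
      rw [toAdd_zpow, zsmul_eq_mul, toAdd_one]
      rw [← hn] at h6
      rw [(ZMod.intCast_zmod_eq_zero_iff_dvd i n).2 h6, zero_mul]) lam hl1' hl2'
    refine ⟨c, ?_, ?_⟩
    · have h1 := hc Q hQ hmQ G hG 1 ((hA _).2 ⟨1, by simp⟩)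
      rwa [Nat.cast_one, one_mul, pow_one] at h1
    · intro Q hQ hmQ g hg f hf
      exact hc Q hQ hmQ g hg f ((hA _).2 hf)
  obtain ⟨c, hc1, hc⟩ := key z q (by rw [hm']; exact Dvd.intro_left m rfl |>.mul_right q') hz Q0 G0 _
    hQ0 hmQ0 hG0 hz0 ho
  obtain ⟨c', hc1', hc'⟩ := key z' q' (by rw [hm']; exact Dvd.intro_left _ rfl) hz' Q1 G1 _
    hQ1 hmQ1 hG1 hz1' ho'
  -- the element `s`
  set α : (ZMod q)ˣ := hz.autToPow K G0 ^ j * (hz.autToPow K G1)⁻¹ with hα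
  obtain ⟨u, hu, hu'⟩ := hex (α : ZMod q).val 1 (by
    intro hdvd
    have h1 : (α : ZMod q) = 0 := by
      rw [← ZMod.natCast_zmod_val (α : ZMod q)]
      exact (ZMod.natCast_eq_zero_iff _ _).2 hdvd
    have : Fact q.Prime := ⟨hq⟩
    exact α.ne_zero h1) (by
    rw [Nat.dvd_one]
    exact hq'.one_lt.ne')
  set s : F' ≃ₐ[K] F' := u.restrictScalars K * G1 with hs
  have hchiu : hz.autToPow K (u.restrictScalars K) = α := by
    apply Units.ext
    rw [chi_val hz (u.restrictScalars K) (α : ZMod q).val hu, ZMod.natCast_zmod_val]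
  have hchiu' : hz'.autToPow K (u.restrictScalars K) = 1 := by
    apply Units.ext
    rw [chi_val hz' (u.restrictScalars K) 1 hu']
    simp
  have heu : e' (u.restrictScalars K) = 1 := by
    rw [he']
    have h1 : (u.restrictScalars K).restrictNormal F = 1 := by
      apply AlgEquiv.ext
      intro x
      apply (algebraMap F F').injective
      rw [AlgEquiv.restrictNormal_commutes]
      change u (algebraMap F F' x) = _
      rw [u.commutes]
      rfl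
    rw [h1, map_one]
  have hes : e' s = e' G1 := by rw [hs, map_mul, heu, one_mul]
  have hes2 : e' s = e' G0 ^ j := by rw [hes, heG1, heG0, hj]
  have hcs : hz.autToPow K s = hz.autToPow K G0 ^ j := by
    rw [hs, map_mul, hchiu, hα, inv_mul_cancel_right]
  have hcs' : hz'.autToPow K s = hz'.autToPow K G1 := by
    rw [hs, map_mul, hchiu', one_mul]
  obtain ⟨Q, hQ, hmQ, G, hG, f, hf, hgen⟩ := gen_prime K F' n l k hl hn m' hm'0 hU' e' (Subgroup.zpowers s)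
  obtain ⟨t, ht⟩ := Subgroup.mem_zpowers_iff.1 hf
  obtain ⟨i, hi⟩ := hgen s (Subgroup.mem_zpowers s)
  have e1 := hc Q hQ hmQ G hG f ⟨j * t, by
    rw [← ht, map_zpow, hes2, ← zpow_natCast, ← zpow_mul], by
    rw [← ht, map_zpow, hcs, ← zpow_natCast, ← zpow_mul]⟩
  have e2 := hc' Q hQ hmQ G hG f ⟨t, by
    rw [← ht, map_zpow, hes], by
    rw [← ht, map_zpow, hcs']⟩
  have e3 : c * (e' G1).toAdd = c' * (e' G1).toAdd := by
    rw [← hes, hi, toAdd_pow, nsmul_eq_mul]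
    have h1 := e1.symm.trans e2
    calc c * (i * (e' (G ^ f)).toAdd) = i * (c * (e' (G ^ f)).toAdd) := by ring
      _ = i * (c' * (e' (G ^ f)).toAdd) := by rw [h1]
      _ = c' * (i * (e' (G ^ f)).toAdd) := by ring
  refine ⟨c, ?_, ?_⟩
  · rw [← hu0, hc1, heG0]
  · rw [← hu1, hc1', ← e3, heG1]


end Pool.Agent.ARC
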