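import Mathlib
import Pool.Agent.ARC.Defs
import Pool.Agent.ARC.WTow

/-! # ARC WUnC
g ∈ Gal(F'/K) in the inertia group at Q, M q q' ∉ Q. Its restriction to F is in the inertia group at Q ∩ 𝓞 F (M ∉ it), so it is 1 by hU
and g is F-linear: g = restrictScalars of some g1 ∈ Gal(F'/F). g z is a q-th root of unity, g z - z ∈ Q; if g z ≠ z then w := (g z)/z is a
root of unity ≠ 1 of order q (prime) and 1 - w ∈ Q divides q = ∏_{0<j<q} (1 - w^j) in 𝓞 F', so q ∈ Q, contradiction. Same for z'. So g1 = 1 by hzz.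
-/

set_option autoImplicit false

noncomputable section

namespace Pool.Agent.ARC

open NumberField Module nonZeroDivisors Pool.Agent.Helper4

private theorem WUnC_root {K F : Type} [Field K] [NumberField K] [Field F] [NumberField F]
    [Algebra K F] (Q : Ideal (𝓞 F)) (hQ : Q.IsPrime) (g : F ≃ₐ[K] F)
    (hg : ∀ x : 𝓞 F, g • x - x ∈ Q) (q : ℕ) (hq : q.Prime) (hqQ : (q : 𝓞 F) ∉ Q) (z : F)
    (hz : IsPrimitiveRoot z q) : g z = z := by
  have hint : IsIntegral ℤ z := hz.isIntegral hq.pos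
  set y : 𝓞 F := ⟨z, hint⟩ with hy
  have hyz : (y : F) = z := rfl
  have hyq : y ^ q = 1 := by
    apply RingOfIntegers.ext
    simpa [hyz] using hz.pow_eq_one
  have hgy : (g • y) ^ q = 1 := by rw [← smul_pow', hyq, smul_one]
  by_contra hne
  have hne' : g • y ≠ y := fun h => hne (by
    have := congrArg (fun t : 𝓞 F => (t : F)) h
    exact this)
  have hq1 : q = (q - 1) + 1 := (Nat.succ_pred_eq_of_pos hq.pos).symm
  have hy1 : y ^ (q - 1) * y = 1 := by rw [← pow_succ, ← hq1, hyq]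
  set w : 𝓞 F := (g • y) * y ^ (q - 1) with hw
  have hw1 : w ≠ 1 := by
    intro h
    apply hne'
    calc g • y = (g • y) * (y ^ (q - 1) * y) := by rw [hy1, mul_one]
      _ = w * y := by rw [hw]; ring
      _ = y := by rw [h, one_mul]
  have hwq : w ^ q = 1 := by
    rw [hw, mul_pow, hgy, one_mul, ← pow_mul, mul_comm, pow_mul, hyq, one_pow]
  have hwQ : w - 1 ∈ Q := by
    have : w - 1 = (g • y - y) * y ^ (q - 1) := by
      rw [hw, sub_mul, mul_comm y, hy1]
    rw [this]
    exact Q.mul_mem_right _ (hg y)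
  have hsum : ∑ i ∈ Finset.range q, w ^ i = 0 := by
    have h1 := geom_sum_mul w q
    rw [hwq, sub_self] at h1
    exact (mul_eq_zero.1 h1).resolve_right (sub_ne_zero.2 hw1)
  apply hqQ
  have h2 : (q : 𝓞 F) = - ∑ i ∈ Finset.range q, (w ^ i - 1) := by
    rw [Finset.sum_sub_distrib, hsum]
    simp
  rw [h2]
  refine Q.neg_mem (Q.sum_mem fun i _ => ?_)
  have h3 : w ^ i - 1 = (∑ j ∈ Finset.range i, w ^ j) * (w - 1) := (geom_sum_mul w i).symm
  rw [h3]
  exact Q.mul_mem_left _ hwQ

variable (K F F' : Type) [Field K] [NumberField K] [Field F] [NumberField F] [Field F']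
  [NumberField F'] [Algebra K F] [Algebra F F'] [Algebra K F'] [IsScalarTower K F F']
  [IsGalois K F] [IsGalois K F']

theorem unr_cyc (M q q' : ℕ) (hU : Unr K F M) (z z' : F') (hz : IsPrimitiveRoot z q)
    (hz' : IsPrimitiveRoot z' q') (hq : q.Prime) (hq' : q'.Prime)
    (hzz : ∀ g : F' ≃ₐ[F] F', g z = z → g z' = z' → g = 1) : Unr K F' (M * q * q') := by
  intro Q hQ hMQ g hg
  have hM : (M : 𝓞 F') ∉ Q := fun h => hMQ (by
    push_cast
    rw [mul_assoc]
    exact Q.mul_mem_right _ h)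
  have hqQ : (q : 𝓞 F') ∉ Q := fun h => hMQ (by
    push_cast
    exact Q.mul_mem_right _ (Q.mul_mem_left _ h))
  have hqQ' : (q' : 𝓞 F') ∉ Q := fun h => hMQ (by
    push_cast
    exact Q.mul_mem_left _ h)
  have hgz := WUnC_root Q hQ g hg q hq hqQ z hz
  have hgz' := WUnC_root Q hQ g hg q' hq' hqQ' z' hz'
  -- the restriction to `F`
  have hcomm : ∀ y : F, algebraMap F F' (g.restrictNormal F y) = g (algebraMap F F' y) :=
    fun y => AlgEquiv.restrictNormal_commutes g F y
  have hr : g.restrictNormal F = 1 := by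
    refine hU (Q.under (𝓞 F)) (hQ.under (𝓞 F)) (fun h => hM ?_) _ fun x => ?_
    · rw [Ideal.under_def, Ideal.mem_comap, map_natCast] at h
      exact h
    · rw [Ideal.under_def, Ideal.mem_comap, map_sub]
      have h1 : algebraMap (𝓞 F) (𝓞 F') (g.restrictNormal F • x) = g • algebraMap (𝓞 F) (𝓞 F') x := by
        apply RingOfIntegers.ext
        exact hcomm (x : F)
      rw [h1]
      exact hg _
  have hfix : ∀ y : F, g (algebraMap F F' y) = algebraMap F F' y := by
    intro y
    rw [← hcomm, hr]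
    rfl
  have h1 := hzz (AlgEquiv.ofRingEquiv (f := g.toRingEquiv) hfix) hgz hgz'
  ext x
  exact congrArg (fun u : F' ≃ₐ[F] F' => u x) h1

end Pool.Agent.ARC
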