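import Mathlib
import Pool.Agent.ARC.Defs
import Pool.Agent.ARC.WPr1
import Pool.Agent.ARC.WAux
import Pool.Agent.ARC.WCy2
import Pool.Agent.ARC.WUnC

/-! # ARC WPr
Choice of the auxiliary primes. D from exists_cyclo2 F; N, N' := norms of P.under, P'.under (≥ 2). q from exists_aux l k N (D * N * N'); D' from
exists_cyclo2 for q; q' from exists_aux l k N' (D' * N * N'); F', z, z'. q ∉ P: otherwise q is the rational prime below P and divides absNorm (P.under);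
same for the other three. Algebra K F' := composition K → F → F', IsScalarTower K F F'; IsGalois K F' from IsGalois ℚ F' (tower_top, IsScalarTower ℚ K F').
Unr K F' (m q q') by unr_cyc; pair1.
-/

set_option autoImplicit false

noncomputable section

namespace Pool.Agent.ARC

open NumberField Module nonZeroDivisors Pool.Agent.Helper4

variable (K F : Type) [Field K] [NumberField K] [Field F] [NumberField F] [Algebra K F]

private theorem WPr_two_le [IsGalois K F] (P : Ideal (𝓞 F)) (hP : P.IsPrime) (g : F ≃ₐ[K] F)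
    (hg : IsFrob K F P g) : 2 ≤ Ideal.absNorm (P.under (𝓞 K)) := by
  have h0 : Ideal.absNorm (P.under (𝓞 K)) ≠ 0 := by
    intro h0
    have h1 := hg 0
    rw [h0, pow_zero, smul_zero, zero_sub, neg_mem_iff] at h1
    exact hP.ne_top ((Ideal.eq_top_iff_one _).2 h1)
  have h1 : Ideal.absNorm (P.under (𝓞 K)) ≠ 1 := by
    intro h1
    have h2 := Ideal.absNorm_eq_one_iff.1 h1
    exact (Ideal.IsPrime.under (𝓞 K) P).ne_top h2
  omega

private theorem WPr_not_mem (P : Ideal (𝓞 F)) (hP : P.IsPrime) (q : ℕ) (hq : q.Prime)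
    (h : ¬ q ∣ Ideal.absNorm (P.under (𝓞 K))) : (q : 𝓞 F) ∉ P := by
  intro hqP
  have h1 : ((Ideal.absNorm (P.under (𝓞 K)) : ℕ) : 𝓞 F) ∈ P := by
    have h2 := Ideal.absNorm_mem (P.under (𝓞 K))
    rw [Ideal.under_def, Ideal.mem_comap] at h2
    simpa using h2
  have hc : Nat.Coprime q (Ideal.absNorm (P.under (𝓞 K))) := (Nat.Prime.coprime_iff_not_dvd hq).2 h
  have hc2 : IsCoprime (q : ℤ) ((Ideal.absNorm (P.under (𝓞 K)) : ℕ) : ℤ) :=
    Nat.isCoprime_iff_coprime.2 hc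
  obtain ⟨a, b, hab⟩ := hc2
  have h3 : (a : 𝓞 F) * (q : 𝓞 F) + (b : 𝓞 F) * ((Ideal.absNorm (P.under (𝓞 K)) : ℕ) : 𝓞 F) = 1 := by
    exact_mod_cast congrArg (Int.cast : ℤ → 𝓞 F) hab
  apply hP.ne_top
  rw [Ideal.eq_top_iff_one, ← h3]
  exact P.add_mem (P.mul_mem_left _ hqP) (P.mul_mem_left _ h1)

theorem pair [IsGalois K F] [IsGalois ℚ F] (n l k : ℕ) (hl : l.Prime) (hn : n = l ^ k) (m : ℕ)
    (hm : 2 ≤ m) (hU : Unr K F m) (e : (F ≃ₐ[K] F) →* Multiplicative (ZMod n))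
    (lam : Ideal (𝓞 K) → ZMod n) (hl1 : RayLam K n m lam)
    (hl2 : ∀ Q : Ideal (𝓞 F), Q.IsPrime → (m : 𝓞 F) ∉ Q → ∀ g : F ≃ₐ[K] F, IsFrob K F Q g →
      ∀ j : ℕ, e g ^ j = 1 → (j : ZMod n) * lam (Q.under (𝓞 K)) = 0)
    (P P' : Ideal (𝓞 F)) (hP : P.IsPrime) (hP' : P'.IsPrime) (hPm : (m : 𝓞 F) ∉ P)
    (hPm' : (m : 𝓞 F) ∉ P') (g g' : F ≃ₐ[K] F) (hg : IsFrob K F P g) (hg' : IsFrob K F P' g')
    (j : ℕ) (hj : e g' = e g ^ j) :
    ∃ c : ZMod n, lam (P.under (𝓞 K)) = c * (e g).toAdd ∧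
      lam (P'.under (𝓞 K)) = c * (e g').toAdd := by
  obtain ⟨D, hD, hDq⟩ := exists_cyclo2 F
  have hN := WPr_two_le K F P hP g hg
  have hN' := WPr_two_le K F P' hP' g' hg'
  obtain ⟨q, hq, hqD, hqN, ho⟩ := exists_aux l k (Ideal.absNorm (P.under (𝓞 K)))
    (D * Ideal.absNorm (P.under (𝓞 K)) * Ideal.absNorm (P'.under (𝓞 K))) hl hN
    (mul_ne_zero (mul_ne_zero hD (by omega)) (by omega))
  have hqD1 : ¬ q ∣ D := fun h => hqD (Dvd.dvd.mul_right (Dvd.dvd.mul_right h _) _)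
  have hqN' : ¬ q ∣ Ideal.absNorm (P'.under (𝓞 K)) := fun h => hqD (Dvd.dvd.mul_left h _)
  obtain ⟨D', hD', hD'q⟩ := hDq q hq hqD1
  obtain ⟨q', hq', hq'D, hq'N', ho'⟩ := exists_aux l k (Ideal.absNorm (P'.under (𝓞 K)))
    (D' * Ideal.absNorm (P.under (𝓞 K)) * Ideal.absNorm (P'.under (𝓞 K))) hl hN'
    (mul_ne_zero (mul_ne_zero hD' (by omega)) (by omega))
  have hq'D1 : ¬ q' ∣ D' := fun h => hq'D (Dvd.dvd.mul_right (Dvd.dvd.mul_right h _) _)
  have hq'N : ¬ q' ∣ Ideal.absNorm (P.under (𝓞 K)) :=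
    fun h => hq'D (Dvd.dvd.mul_right (Dvd.dvd.mul_left h _) _)
  obtain ⟨F', iF', iNF', iA, iG, z, z', hz, hz', hzz, hex⟩ := hD'q q' hq' hq'D1
  letI : Algebra K F' := ((algebraMap F F').comp (algebraMap K F)).toAlgebra
  haveI : IsScalarTower K F F' := IsScalarTower.of_algebraMap_eq (fun x => rfl)
  haveI : IsGalois K F' := IsGalois.tower_top_of_isGalois ℚ K F'
  exact pair1 K F F' n l k hl hn m hm hU e lam hl1 hl2 P P' hP hP' hPm hPm' g g' hg hg' j hj q q'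
    hq hq' (WPr_not_mem K F P hP q hq hqN) (WPr_not_mem K F P' hP' q hq hqN')
    (WPr_not_mem K F P hP q' hq' hq'N) (WPr_not_mem K F P' hP' q' hq' hq'N') ho ho' z z' hz hz'
    (unr_cyc K F F' m q q' hU z z' hz hz' hq hq' hzz) hex

end Pool.Agent.ARC
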