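import Mathlib
import Pool.Agent.ARC.Defs
import Pool.Agent.ARC.WPr

/-! # ARC WCrs
gen_prime with S = ⊤: Q0, g0, f with every e h a power of e(g0^f), hence of e g0. c from pair (P = P' = Q0, j = 1). For Q, g: e g = e g0 ^ j, pair
(P = Q0, P' = Q) gives c' with lam(Q0) = c' e(g0), lam(Q) = c' e(g) = c' j e(g0) = j lam(Q0) = j c e(g0) = c e(g).
-/

set_option autoImplicit false

noncomputable section

namespace Pool.Agent.ARC

open NumberField Module nonZeroDivisors Pool.Agent.Helper4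

variable (K F : Type) [Field K] [NumberField K] [Field F] [NumberField F] [Algebra K F]

theorem cross [IsGalois K F] [IsGalois ℚ F] (n l k : ℕ) (hl : l.Prime) (hn : n = l ^ k) (m : ℕ)
    (hm : 2 ≤ m) (hU : Unr K F m) (e : (F ≃ₐ[K] F) →* Multiplicative (ZMod n))
    (lam : Ideal (𝓞 K) → ZMod n) (hl1 : RayLam K n m lam)
    (hl2 : ∀ Q : Ideal (𝓞 F), Q.IsPrime → (m : 𝓞 F) ∉ Q → ∀ g : F ≃ₐ[K] F, IsFrob K F Q g →
      ∀ j : ℕ, e g ^ j = 1 → (j : ZMod n) * lam (Q.under (𝓞 K)) = 0) :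
    ∃ c : ZMod n, ∀ Q : Ideal (𝓞 F), Q.IsPrime → (m : 𝓞 F) ∉ Q → ∀ g : F ≃ₐ[K] F,
      IsFrob K F Q g → lam (Q.under (𝓞 K)) = c * (e g).toAdd := by
  obtain ⟨Q0, hQ0, hm0, g0, hg0, f, -, hgen⟩ :=
    gen_prime K F n l k hl hn m (by omega) hU e ⊤
  obtain ⟨c, hc, -⟩ := pair K F n l k hl hn m hm hU e lam hl1 hl2 Q0 Q0 hQ0 hQ0 hm0 hm0 g0 g0
    hg0 hg0 1 (pow_one _).symm
  refine ⟨c, fun Q hQ hmQ g hg => ?_⟩
  obtain ⟨j, hj⟩ := hgen g trivial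
  have hJ : e g = e g0 ^ (f * j) := by rw [hj, map_pow, pow_mul]
  obtain ⟨c', h1, h2⟩ := pair K F n l k hl hn m hm hU e lam hl1 hl2 Q0 Q hQ0 hQ hm0 hmQ g0 g
    hg0 hg (f * j) hJ
  have h3 : (e g).toAdd = ((f * j : ℕ) : ZMod n) * (e g0).toAdd := by
    rw [hJ, toAdd_pow, nsmul_eq_mul]
  have h4 : c' * (e g0).toAdd = c * (e g0).toAdd := h1.symm.trans hc
  rw [h2, h3]
  calc c' * (((f * j : ℕ) : ZMod n) * (e g0).toAdd)
      = ((f * j : ℕ) : ZMod n) * (c' * (e g0).toAdd) := by ring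
    _ = ((f * j : ℕ) : ZMod n) * (c * (e g0).toAdd) := by rw [h4]
    _ = c * (((f * j : ℕ) : ZMod n) * (e g0).toAdd) := by ring

end Pool.Agent.ARC
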