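import Mathlib
import Pool.Agent.ARC.Defs
import Pool.Agent.ARC.WCrs
import Pool.Agent.ARC.WUnr
import Pool.Agent.ARC.WTow
import Pool.Agent.ARC.WArt
import Pool.Agent.ARC.HFin

/-! # ARC WRec
Reciprocity for prime power order. L := IntermediateField.fixedField (ker e) (Galois over K: ker e normal; finrank K L = n as e is surjective).
g1 with e g1 = ofAdd 1; t := g1 restricted to L generates Gal(L/K) (lift, compare with a power of g1 modulo ker e = Gal(F/L)). m1 from exists_unr K F M, m2 from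
exists_unr K L m1; first_inequality K L t n (M := m2): m, T. Unr K F m by unr_mono. For lam ∈ T: hl2 of `cross`: Q prime of 𝓞 F, m ∉ Q, g, e g ^ j = 1; Q1 :=
Q.under (𝓞 L); h := Frobenius over L at Q, frob_tower K L F: absNorm Q1 = absNorm(Q.under (𝓞 K))^f, and f ∣ j as g^j ∈ ker e = Gal(F/L); T-property:
f lam = 0, so j lam = 0. So cross gives c_lam with lam(Q.under) = c_lam e(g) (Q ∌ m). lam is determined by c_lam: on primes q ∌ m (Q above q, Frobenius), on
primes containing m (0), at ⊥ (0), at ⊤ (0, additivity), hence on all ideals. So lam ↦ c_lam is injective T → ZMod n, n ≤ card T, hence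
surjective: lam ∈ T with c_lam = 1 is the required a (IsArt: additivity from RayLam).
-/

set_option autoImplicit false

noncomputable section

namespace Pool.Agent.ARC

open NumberField Module nonZeroDivisors Pool.Agent.Helper4

variable (K F : Type) [Field K] [NumberField K] [Field F] [NumberField F] [Algebra K F]

/-- Two additive functions which agree on the primes and at zero agree. -/
private theorem lam_ext (n m : ℕ) (a b : Ideal (𝓞 K) → ZMod n) (ha : RayLam K n m a)
    (hb : RayLam K n m b) (h0 : a ⊥ = b ⊥)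
    (h : ∀ q : Ideal (𝓞 K), q.IsPrime → q ≠ ⊥ → a q = b q) : a = b := by
  have hone : ∀ c : Ideal (𝓞 K) → ZMod n, RayLam K n m c → c ⊤ = 0 := by
    intro c hc
    have h1 := hc.add ⊤ ⊤ top_ne_bot top_ne_bot
    rw [← Ideal.one_eq_top, one_mul, left_eq_add] at h1
    rwa [← Ideal.one_eq_top]
  funext I
  refine UniqueFactorizationMonoid.induction_on_prime I h0 ?_ ?_
  · intro J hJ
    rw [Ideal.isUnit_iff] at hJ
    rw [hJ, hone a ha, hone b hb]
  · intro J p hJ hp hI
    have hp0 : p ≠ ⊥ := hp.ne_zero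
    have hJ0 : J ≠ ⊥ := hJ
    rw [ha.add p J hp0 hJ0, hb.add p J hp0 hJ0, hI, h p (Ideal.isPrime_of_prime hp) hp0]

theorem rec_prime_power [IsGalois K F] [IsGalois ℚ F] (n l k : ℕ) (hl : l.Prime)
    (hn : n = l ^ k) (M : ℕ) (hM : M ≠ 0)
    (e : (F ≃ₐ[K] F) →* Multiplicative (ZMod n)) (he : Function.Surjective e) :
    ∃ (m : ℕ) (a : Ideal (𝓞 K) → ZMod n), M ∣ m ∧ 2 ≤ m ∧ RayLam K n m a ∧
      IsArt K F n m e a := by
  classical
  have hn0 : n ≠ 0 := by
    rw [hn]
    exact pow_ne_zero _ hl.ne_zero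
  have : NeZero n := ⟨hn0⟩
  have hfd : FiniteDimensional K F := inferInstance
  let H : Subgroup (F ≃ₐ[K] F) := e.ker
  let L : IntermediateField K F := IntermediateField.fixedField H
  have hLg : IsGalois K L := IsGalois.of_fixedField_normal_subgroup H
  have hfix : L.fixingSubgroup = H := IntermediateField.fixingSubgroup_fixedField H
  -- the degree
  have hcardG : Nat.card (F ≃ₐ[K] F) = n * Nat.card H := by
    have h1 : Nat.card (F ≃ₐ[K] F) = Nat.card ((F ≃ₐ[K] F) ⧸ H) * Nat.card H :=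
      H.card_eq_card_quotient_mul_card_subgroup
    have h2 : Nat.card ((F ≃ₐ[K] F) ⧸ H) = n := by
      have h3 := Nat.card_congr (QuotientGroup.quotientKerEquivOfSurjective e he).toEquiv
      rw [h3, Nat.card_congr Multiplicative.toAdd, Nat.card_zmod]
    rw [h1, h2]
  have hdeg : finrank K L = n := by
    have h1 : finrank L F = Nat.card H := IntermediateField.finrank_fixedField_eq_card H
    have h2 : finrank K L * finrank L F = finrank K F := Module.finrank_mul_finrank K L F
    have h3 : Nat.card (F ≃ₐ[K] F) = finrank K F := IsGalois.card_aut_eq_finrank K F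
    rw [← h3, hcardG, h1] at h2
    exact Nat.eq_of_mul_eq_mul_right Nat.card_pos h2
  -- the generator
  obtain ⟨g1, hg1⟩ := he (Multiplicative.ofAdd 1)
  let r : (F ≃ₐ[K] F) →* (L ≃ₐ[K] L) := AlgEquiv.restrictNormalHom L
  have hr : Function.Surjective r := AlgEquiv.restrictNormalHom_surjective F
  have hrker : ∀ g : F ≃ₐ[K] F, e g = 1 → r g = 1 := by
    intro g hg
    have h1 : g ∈ L.fixingSubgroup := by
      rw [hfix]
      exact (MonoidHom.mem_ker).2 hg
    rw [← L.restrictNormalHom_ker] at h1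
    exact (MonoidHom.mem_ker).1 h1
  have hgen : ∀ g, g ∈ Subgroup.zpowers (r g1) := by
    intro h
    obtain ⟨g, rfl⟩ := hr h
    let j : ℕ := ((e g).toAdd).val
    have h1 : e (g * (g1 ^ j)⁻¹) = 1 := by
      rw [map_mul, map_inv, map_pow, hg1, ← ofAdd_nsmul, mul_inv_eq_one]
      apply Multiplicative.toAdd.injective
      rw [toAdd_ofAdd, nsmul_eq_mul, mul_one, ZMod.natCast_val, ZMod.cast_id]
    have h2 := hrker _ h1
    rw [map_mul, map_inv, map_pow, mul_inv_eq_one] at h2
    rw [h2]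
    exact Subgroup.pow_mem _ (Subgroup.mem_zpowers _) j
  -- the modulus
  obtain ⟨m1, hm10, hMm1, hU1⟩ := exists_unr K F M hM
  obtain ⟨m2, hm20, hm12, hU2⟩ := exists_unr K L m1 hm10
  obtain ⟨m, hm2m, h2m, T, hT, hTp⟩ := first_inequality K L (r g1) hgen n hdeg m2 hm20 hU2
  have hm0 : m ≠ 0 := by omega
  have hUm : Unr K F m := unr_mono K F m1 m (hm12.trans hm2m) hU1
  have hcross : ∀ lam ∈ T, ∃ c : ZMod n, ∀ Q : Ideal (𝓞 F), Q.IsPrime → (m : 𝓞 F) ∉ Q →
      ∀ g : F ≃ₐ[K] F, IsFrob K F Q g → lam (Q.under (𝓞 K)) = c * (e g).toAdd := by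
    intro lam hlam
    obtain ⟨h1, _, _, h4⟩ := hTp lam hlam
    refine cross K F n l k hl hn m h2m hUm e lam h1 ?_
    intro Q hQ hmQ g hg j hj
    have hQ0 : Q ≠ ⊥ := frob_ne_bot K F Q g hg
    obtain ⟨h, hh⟩ := frob_exists L F Q hQ hQ0
    obtain ⟨f, hf0, hf1, hf2, _, hf4⟩ := frob_tower K L F m hUm Q hQ hmQ g hg h hh
    have hfj : f ∣ j := by
      apply hf4
      have h5 : g ^ j ∈ L.fixingSubgroup := by
        rw [hfix]
        refine (MonoidHom.mem_ker).2 ?_
        rw [map_pow, hj]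
      refine ⟨IntermediateField.fixingSubgroupEquiv L ⟨g ^ j, h5⟩, ?_⟩
      ext x
      rfl
    have hQ1 : (Q.under (𝓞 L)).IsPrime := inferInstance
    have hmQ1 : (m : 𝓞 L) ∉ Q.under (𝓞 L) := by
      rw [Ideal.under_def, Ideal.mem_comap, map_natCast]
      exact hmQ
    have h6 := h4 (Q.under (𝓞 L)) hQ1 hmQ1 f (by rw [under_under K L F Q]; exact hf2)
    rw [under_under K L F Q] at h6
    obtain ⟨c, rfl⟩ := hfj
    rw [Nat.cast_mul, mul_comm (f : ZMod n), mul_assoc, h6, mul_zero]
  -- the map `lam ↦ c`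
  choose! c hc using hcross
  have hinj : ∀ a ∈ T, ∀ b ∈ T, c a = c b → a = b := by
    intro a ha b hb hab
    obtain ⟨a1, a2, a3, _⟩ := hTp a ha
    obtain ⟨b1, b2, b3, _⟩ := hTp b hb
    refine lam_ext K n m a b a1 b1 (a2.trans b2.symm) ?_
    intro q hq hq0
    by_cases hmq : (m : 𝓞 K) ∈ q
    · rw [a3 q hq hmq, b3 q hq hmq]
    · obtain ⟨Q, hQ, hQq⟩ := prime_above K F q hq
      have hQ0 : Q ≠ ⊥ := by
        rintro rfl
        apply hq0
        rw [← hQq, Ideal.under_def]
        exact Ideal.comap_bot_of_injective _ (FaithfulSMul.algebraMap_injective (𝓞 K) (𝓞 F))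
      obtain ⟨g, hg⟩ := frob_exists K F Q hQ hQ0
      have hmQ : (m : 𝓞 F) ∉ Q := by
        intro h
        apply hmq
        rw [← hQq, Ideal.under_def, Ideal.mem_comap, map_natCast]
        exact h
      rw [← hQq, hc a ha Q hQ hmQ g hg, hc b hb Q hQ hmQ g hg, hab]
  have hsurj : ∃ a ∈ T, c a = 1 := by
    have h1 : (T.image c).card = T.card := Finset.card_image_of_injOn (by
      intro a ha b hb hab
      exact hinj a ha b hb hab)
    have h2 : T.image c = Finset.univ := by
      apply Finset.eq_univ_of_card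
      rw [ZMod.card]
      refine le_antisymm ?_ (by rw [h1]; exact hT)
      have := Finset.card_le_univ (T.image c)
      rwa [ZMod.card] at this
    have h3 : (1 : ZMod n) ∈ T.image c := by
      rw [h2]
      exact Finset.mem_univ _
    obtain ⟨a, ha, hca⟩ := Finset.mem_image.1 h3
    exact ⟨a, ha, hca⟩
  obtain ⟨a, ha, hca⟩ := hsurj
  refine ⟨m, a, (hMm1.trans hm12).trans hm2m, h2m, (hTp a ha).1, (hTp a ha).1.add, ?_⟩
  intro Q hQ hmQ g hg
  rw [hc a ha Q hQ hmQ g hg, hca, one_mul]

end Pool.Agent.ARC
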