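import Mathlib
import Pool.Agent.ARC.Defs
import Pool.Agent.ARC.WRec

/-! # ARC WChr
Characters of arbitrary finite order: reciprocity, in the form of a ray class character attached to a
character `psi` of the Galois group.  Induction on the order: prime powers by `rec_prime_power`, and
products of coprime orders by multiplying two characters (after raising the modulus).
-/

set_option autoImplicit false
set_option linter.unusedSectionVars false

noncomputable section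

namespace Pool.Agent.ARC

open NumberField Module nonZeroDivisors Pool.Agent.Helper4

variable (K F : Type) [Field K] [NumberField K] [Field F] [NumberField F] [Algebra K F]

private theorem span_ne_top (m : ℕ) (hm : 2 ≤ m) : Ideal.span {(m : 𝓞 K)} ≠ ⊤ := by
  intro h
  have h1 : Ideal.absNorm (Ideal.span {(m : 𝓞 K)}) = 1 := by
    rw [h, ← Ideal.one_eq_top, map_one]
  rw [Ideal.absNorm_span_singleton] at h1
  have h2 : Algebra.norm ℤ (m : 𝓞 K) = (m : ℤ) ^ finrank ℤ (𝓞 K) := by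
    have h := Algebra.norm_algebraMap (R := ℤ) (S := 𝓞 K) (m : ℤ)
    rw [← h]
    congr 1
    simp
  rw [h2, Int.natAbs_pow, Int.natAbs_natCast] at h1
  have h3 : finrank ℤ (𝓞 K) ≠ 0 := by
    rw [RingOfIntegers.rank]
    exact (finrank_pos).ne'
  have := (Nat.pow_eq_one.1 h1).resolve_right h3
  omega

private theorem ne_bot_of_cop (m : ℕ) (hm : 2 ≤ m) (I : Ideal (𝓞 K))
    (h : IsCoprime I (Ideal.span {(m : 𝓞 K)})) : I ≠ ⊥ := by
  rintro rfl
  apply span_ne_top K m hm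
  have h1 := Ideal.isCoprime_iff_sup_eq.1 h
  rwa [bot_sup_eq] at h1

private theorem cop_under (m : ℕ) (Q : Ideal (𝓞 F)) (hQ : Q.IsPrime) (hQ0 : Q ≠ ⊥)
    (hm : (m : 𝓞 F) ∉ Q) : IsCoprime (Q.under (𝓞 K)) (Ideal.span {(m : 𝓞 K)}) := by
  have h0 : Q.under (𝓞 K) ≠ ⊥ := Ideal.under_ne_bot (𝓞 K) hQ0
  have hp : (Q.under (𝓞 K)).IsPrime := inferInstance
  have hmax : (Q.under (𝓞 K)).IsMaximal := hp.isMaximal h0
  rw [Ideal.isCoprime_iff_sup_eq]
  by_contra hne
  have h1 := hmax.eq_of_le hne le_sup_left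
  apply hm
  have h2 : (m : 𝓞 K) ∈ Q.under (𝓞 K) := by
    rw [h1]
    exact Ideal.mem_sup_right (Ideal.mem_span_singleton_self _)
  rw [Ideal.under_def, Ideal.mem_comap, map_natCast] at h2
  exact h2

private theorem cop_of_ray (m : ℕ) (x y : 𝓞 K) (h : x = 1 + m * y) :
    IsCoprime (Ideal.span {x}) (Ideal.span {(m : 𝓞 K)}) := by
  rw [Ideal.isCoprime_span_singleton_iff]
  exact ⟨1, -y, by rw [h]; ring⟩

open Classical in
private theorem ray_mono (m m' : ℕ) (c : Ideal (𝓞 K) → ℂ) (h : Ray K m c) (hd : m ∣ m')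
    (hm' : m' ≠ 0) : Ray K m' (fun I => if IsCoprime I (Ideal.span {(m' : 𝓞 K)}) then c I else 0) := by
  obtain ⟨d, rfl⟩ := hd
  have hcop : ∀ I : Ideal (𝓞 K), IsCoprime I (Ideal.span {((m * d : ℕ) : 𝓞 K)}) →
      IsCoprime I (Ideal.span {(m : 𝓞 K)}) := by
    intro I hI
    rw [Nat.cast_mul, ← Ideal.span_singleton_mul_span_singleton] at hI
    exact hI.of_mul_right_left
  refine ⟨?_, ?_, ?_, ?_, ?_⟩
  · have := h.two_le
    exact this.trans (Nat.le_of_dvd (Nat.pos_of_ne_zero hm') (dvd_mul_right m d))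
  · intro a b ha hb
    simp only [if_pos ha, if_pos hb, if_pos (ha.mul_left hb)]
    exact h.mul a b (hcop a ha) (hcop b hb)
  · intro a ha
    simp only [if_neg ha]
  · intro a ha
    simp only [if_pos ha]
    exact h.norm a (hcop a ha)
  · intro x y hxy hw
    have h1 : IsCoprime (Ideal.span {x}) (Ideal.span {((m * d : ℕ) : 𝓞 K)}) :=
      cop_of_ray K (m * d) x y hxy
    simp only [if_pos h1]
    refine h.ray x (d * y) ?_ hw
    rw [hxy, Nat.cast_mul, mul_assoc]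

private theorem ray_mul (m : ℕ) (c d : Ideal (𝓞 K) → ℂ) (hc : Ray K m c) (hd : Ray K m d) :
    Ray K m (fun I => c I * d I) := by
  refine ⟨hc.two_le, ?_, ?_, ?_, ?_⟩
  · intro a b ha hb
    simp only [hc.mul a b ha hb, hd.mul a b ha hb]
    ring
  · intro a ha
    simp only [hc.zero a ha, zero_mul]
  · intro a ha
    simp only [norm_mul, hc.norm a ha, hd.norm a ha, mul_one]
  · intro x y hxy hw
    simp only [hc.ray x y hxy hw, hd.ray x y hxy hw, mul_one]

open Classical in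
private theorem ray_one (m : ℕ) (hm : 2 ≤ m) :
    Ray K m (fun I => if IsCoprime I (Ideal.span {(m : 𝓞 K)}) then 1 else 0) := by
  refine ⟨hm, ?_, ?_, ?_, ?_⟩
  · intro a b ha hb
    simp only [if_pos ha, if_pos hb, if_pos (ha.mul_left hb), mul_one]
  · intro a ha
    simp only [if_neg ha]
  · intro a ha
    simp only [if_pos ha, norm_one]
  · intro x y hxy hw
    simp only [if_pos (cop_of_ray K m x y hxy)]

/-- the trivial character -/
private theorem rec_one (M : ℕ) (hM : M ≠ 0) :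
    ∃ (m : ℕ) (c : Ideal (𝓞 K) → ℂ), M ∣ m ∧ Ray K m c ∧ ∀ Q : Ideal (𝓞 F), Q.IsPrime →
      (m : 𝓞 F) ∉ Q → ∀ g : F ≃ₐ[K] F, IsFrob K F Q g →
        c (Q.under (𝓞 K)) = (((1 : (F ≃ₐ[K] F) →* ℂˣ) g : ℂˣ) : ℂ) := by
  classical
  refine ⟨2 * M, _, dvd_mul_left M 2, ray_one K (2 * M) (by omega), ?_⟩
  intro Q hQ hm g hg
  have hQ0 : Q ≠ ⊥ := frob_ne_bot K F Q g hg
  simp only [if_pos (cop_under K F (2 * M) Q hQ hQ0 hm), MonoidHom.one_apply, Units.val_one]

/-- characters of prime power order -/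
private theorem rec_pp [IsGalois K F] [IsGalois ℚ F] (l k : ℕ) (hl : l.Prime)
    (psi : (F ≃ₐ[K] F) →* ℂˣ) (hpsi : ∀ g, psi g ^ (l ^ k) = 1) (M : ℕ) (hM : M ≠ 0) :
    ∃ (m : ℕ) (c : Ideal (𝓞 K) → ℂ), M ∣ m ∧ Ray K m c ∧ ∀ Q : Ideal (𝓞 F), Q.IsPrime →
      (m : 𝓞 F) ∉ Q → ∀ g : F ≃ₐ[K] F, IsFrob K F Q g → c (Q.under (𝓞 K)) = psi g := by
  classical
  have hex : ∃ k : ℕ, ∀ g, psi g ^ (l ^ k) = 1 := ⟨k, hpsi⟩
  obtain ⟨k', hk', hmin⟩ : ∃ k' : ℕ, (∀ g, psi g ^ (l ^ k') = 1) ∧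
      ∀ j < k', ¬ ∀ g, psi g ^ (l ^ j) = 1 :=
    ⟨Nat.find hex, Nat.find_spec hex, fun j hj => Nat.find_min hex hj⟩
  rcases Nat.eq_zero_or_pos k' with hk0 | hk0
  · have h1 : psi = 1 := by
      ext g
      have h2 := hk' g
      rw [hk0, pow_zero, pow_one] at h2
      rw [h2, MonoidHom.one_apply]
    rw [h1]
    exact rec_one K F M hM
  obtain ⟨j, rfl⟩ : ∃ j, k' = j + 1 := ⟨k' - 1, by omega⟩
  obtain ⟨n, hn⟩ : ∃ n : ℕ, n = l ^ (j + 1) := ⟨_, rfl⟩
  have hn0 : n ≠ 0 := by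
    rw [hn]
    exact pow_ne_zero _ hl.ne_zero
  have : NeZero n := ⟨hn0⟩
  have hpn : ∀ g, psi g ^ n = 1 := by
    intro g
    rw [hn, hk' g]
  -- an element with value of order `n`
  obtain ⟨g0, hg0⟩ : ∃ g0 : F ≃ₐ[K] F, orderOf (psi g0) = n := by
    have h1 := hmin j (Nat.lt_succ_self j)
    push Not at h1
    obtain ⟨g0, h2⟩ := h1
    have : Fact l.Prime := ⟨hl⟩
    exact ⟨g0, (orderOf_eq_prime_pow h2 (hk' g0)).trans hn.symm⟩
  have hprim : IsPrimitiveRoot (psi g0) n := by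
    rw [← hg0]
    exact IsPrimitiveRoot.orderOf (psi g0)
  have hmem : ∀ g : F ≃ₐ[K] F, psi g ∈ Subgroup.zpowers (psi g0) := by
    intro g
    rw [hprim.zpowers_eq, mem_rootsOfUnity, hpn]
  let E : Multiplicative (ZMod n) ≃* Subgroup.zpowers (psi g0) :=
    AddEquiv.toMultiplicativeLeft hprim.zmodEquivZPowers
  let e' : (F ≃ₐ[K] F) →* Subgroup.zpowers (psi g0) := psi.codRestrict _ hmem
  let e : (F ≃ₐ[K] F) →* Multiplicative (ZMod n) := E.symm.toMonoidHom.comp e'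
  have he : Function.Surjective e := by
    intro x
    obtain ⟨z, hz⟩ := (E x).2
    refine ⟨g0 ^ z, ?_⟩
    change E.symm (e' (g0 ^ z)) = x
    rw [MulEquiv.symm_apply_eq]
    apply Subtype.ext
    change psi (g0 ^ z) = _
    rw [map_zpow]
    exact hz
  have hEe : ∀ g : F ≃ₐ[K] F, ((E (e g) : Subgroup.zpowers (psi g0)) : ℂˣ) = psi g := by
    intro g
    change ((E (E.symm (e' g)) : Subgroup.zpowers (psi g0)) : ℂˣ) = psi g
    rw [MulEquiv.apply_symm_apply]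
    rfl
  obtain ⟨m, a, hMm, h2m, hlam, hart⟩ := rec_prime_power K F n l (j + 1) hl hn M hM e he
  have hm0 : m ≠ 0 := by omega
  refine ⟨m, fun I => if IsCoprime I (Ideal.span {(m : 𝓞 K)}) then
    (((E (Multiplicative.ofAdd (a I)) : Subgroup.zpowers (psi g0)) : ℂˣ) : ℂ) else 0, hMm,
    ⟨h2m, ?_, ?_, ?_, ?_⟩, ?_⟩
  · intro I J hI hJ
    simp only [if_pos hI, if_pos hJ, if_pos (hI.mul_left hJ)]
    rw [hlam.add I J (ne_bot_of_cop K m h2m I hI) (ne_bot_of_cop K m h2m J hJ), ofAdd_add,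
      map_mul, Subgroup.coe_mul, Units.val_mul]
  · intro I hI
    simp only [if_neg hI]
  · intro I hI
    simp only [if_pos hI]
    refine Complex.norm_eq_one_of_pow_eq_one (n := n) ?_ hn0
    have h1 : ∀ u : ℂˣ, u ∈ Subgroup.zpowers (psi g0) → u ^ n = 1 := by
      intro u hu
      rwa [hprim.zpowers_eq, mem_rootsOfUnity] at hu
    rw [← Units.val_pow_eq_pow_val, h1 _ (E (Multiplicative.ofAdd (a I))).2, Units.val_one]
  · intro x y hxy hw
    simp only [if_pos (cop_of_ray K m x y hxy)]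
    have hx0 : x ≠ 0 := by
      rintro rfl
      have h1 := ne_bot_of_cop K m h2m _ (cop_of_ray K m 0 y hxy)
      exact h1 (by simp)
    rw [hlam.ray x hx0 ⟨y, by rw [hxy]; ring⟩ hw, ofAdd_zero, map_one, Subgroup.coe_one,
      Units.val_one]
  · intro Q hQ hm g hg
    have hQ0 : Q ≠ ⊥ := frob_ne_bot K F Q g hg
    simp only [if_pos (cop_under K F m Q hQ hQ0 hm)]
    rw [hart.frob Q hQ hm g hg, ofAdd_toAdd, hEe]

theorem reciprocity [IsGalois K F] [IsGalois ℚ F] (psi : (F ≃ₐ[K] F) →* ℂˣ) (M : ℕ)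
    (hM : M ≠ 0) :
    ∃ (m : ℕ) (c : Ideal (𝓞 K) → ℂ), M ∣ m ∧ Ray K m c ∧ ∀ Q : Ideal (𝓞 F), Q.IsPrime →
      (m : 𝓞 F) ∉ Q → ∀ g : F ≃ₐ[K] F, IsFrob K F Q g → c (Q.under (𝓞 K)) = psi g := by
  classical
  have key : ∀ N : ℕ, N ≠ 0 → ∀ psi : (F ≃ₐ[K] F) →* ℂˣ, (∀ g, psi g ^ N = 1) → ∀ M : ℕ,
      M ≠ 0 → ∃ (m : ℕ) (c : Ideal (𝓞 K) → ℂ), M ∣ m ∧ Ray K m c ∧ ∀ Q : Ideal (𝓞 F), Q.IsPrime →
        (m : 𝓞 F) ∉ Q → ∀ g : F ≃ₐ[K] F, IsFrob K F Q g → c (Q.under (𝓞 K)) = psi g := by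
    intro N
    induction N using Nat.recOnPosPrimePosCoprime with
    | zero => intro h; exact absurd rfl h
    | one =>
      intro _ psi hpsi M hM
      have h1 : psi = 1 := by
        ext g
        have h2 := hpsi g
        rw [pow_one] at h2
        rw [h2, MonoidHom.one_apply]
      rw [h1]
      exact rec_one K F M hM
    | prime_pow p n hp hn =>
      intro _ psi hpsi M hM
      exact rec_pp K F p n hp psi hpsi M hM
    | coprime a b ha hb hab iha ihb =>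
      intro _ psi hpsi M hM
      obtain ⟨u, v, huv⟩ : ∃ u v : ℤ, (a : ℤ) * u + b * v = 1 := by
        refine ⟨Nat.gcdA a b, Nat.gcdB a b, ?_⟩
        rw [← Nat.gcd_eq_gcd_ab, hab]
        rfl
      let psi1 : (F ≃ₐ[K] F) →* ℂˣ := (zpowGroupHom ((a : ℤ) * u)).comp psi
      let psi2 : (F ≃ₐ[K] F) →* ℂˣ := (zpowGroupHom ((b : ℤ) * v)).comp psi
      have h1 : ∀ g, psi1 g ^ b = 1 := by
        intro g
        change (psi g ^ ((a : ℤ) * u)) ^ b = 1
        rw [← zpow_natCast, ← zpow_mul, mul_right_comm, ← Nat.cast_mul, zpow_mul, zpow_natCast,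
          hpsi g, one_zpow]
      have h2 : ∀ g, psi2 g ^ a = 1 := by
        intro g
        change (psi g ^ ((b : ℤ) * v)) ^ a = 1
        rw [← zpow_natCast, ← zpow_mul, mul_right_comm, ← Nat.cast_mul, zpow_mul, zpow_natCast,
          mul_comm b a, hpsi g, one_zpow]
      have h12 : ∀ g, psi1 g * psi2 g = psi g := by
        intro g
        change psi g ^ ((a : ℤ) * u) * psi g ^ ((b : ℤ) * v) = psi g
        rw [← zpow_add, huv, zpow_one]
      obtain ⟨m1, c1, hMm1, hR1, hc1⟩ := ihb (by omega) psi1 h1 M hM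
      have hm1 : m1 ≠ 0 := by
        have := hR1.two_le
        omega
      obtain ⟨m2, c2, hm12, hR2, hc2⟩ := iha (by omega) psi2 h2 m1 hm1
      have hm2 : m2 ≠ 0 := by
        have := hR2.two_le
        omega
      refine ⟨m2, _, hMm1.trans hm12, ray_mul K m2 _ _ (ray_mono K m1 m2 c1 hR1 hm12 hm2) hR2, ?_⟩
      intro Q hQ hm g hg
      have hQ0 : Q ≠ ⊥ := frob_ne_bot K F Q g hg
      have hmQ1 : (m1 : 𝓞 F) ∉ Q := by
        intro h
        exact hm (Ideal.mem_of_dvd _ (Nat.cast_dvd_cast hm12) h)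
      simp only [if_pos (cop_under K F m2 Q hQ hQ0 hm)]
      rw [hc1 Q hQ hmQ1 g hg, hc2 Q hQ hm g hg, ← Units.val_mul, h12]
  refine key (Nat.card (F ≃ₐ[K] F)) Nat.card_pos.ne' psi ?_ M hM
  intro g
  rw [← map_pow, pow_card_eq_one', map_one]

end Pool.Agent.ARC
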