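import Mathlib
import Pool.Agent.ARC.RD
import Pool.Agent.ARC.WChr

/-! # ARC / RFin: Euler products of monomial characters (part R) -/

set_option autoImplicit false

noncomputable section

namespace Pool.Agent.ARC

open NumberField Pool.Agent.PGZ

theorem ray_euler' (F : Type) [Field F] [NumberField F] [IsGalois ℚ F]
    (H : Subgroup (F ≃ₐ[ℚ] F)) (psi : H →* ℂˣ) :
    ∃ m₀ : ℕ, m₀ ≠ 0 ∧ ∀ m : ℕ, m ≠ 0 → m₀ ∣ m → ∃ D : ℂ → ℂ, Differentiable ℂ D ∧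
      ∀ (P : Nat.Primes → Ideal (𝓞 F)) (σ : Nat.Primes → (F ≃ₐ[ℚ] F)) (_ : ∀ p, (P p).IsPrime)
        (_ : ∀ p : Nat.Primes, ((p : ℕ) : 𝓞 F) ∈ P p) (_ : ∀ p, IsArithFrobAt ℤ (σ p) (P p))
        (s : ℂ), 1 < s.re →
        HasProd (fun p : Nat.Primes => open Classical in if (p : ℕ) ∣ m then 1 else
          Pool.Agent.PGZ.EE ⊥ (σ p) (indC H fun h => (psi h : ℂ)) ((p : ℂ) ^ (-s))) (D s / (s - 1)) := by
  exact ray_euler_of F H psi fun psi' M hM => reciprocity (KH H) F psi' M hM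

end Pool.Agent.ARC
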